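import Pool.Agent.Lib.Mergelyan.Cauchy

/-! The sharp planar isoperimetric inequality in dual form, through the Ahlfors-Beurling bound
for the Cauchy transform. -/

open MeasureTheory Set Metric Filter Topology
open scoped Real

namespace Pool.Agent.P.MP_f791b6_an.Two

open Pool.Agent.Lib.Mergelyan

/-- The gradient of a real function on the plane, as a complex number. -/
noncomputable def gr (u : ℂ → ℝ) (z : ℂ) : ℂ :=
  (fderiv ℝ u z 1 : ℝ) + Complex.I * (fderiv ℝ u z Complex.I : ℝ)

lemma gr_re (u : ℂ → ℝ) (z : ℂ) : (gr u z).re = fderiv ℝ u z 1 := by simp [gr]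

lemma gr_im (u : ℂ → ℝ) (z : ℂ) : (gr u z).im = fderiv ℝ u z Complex.I := by simp [gr]

lemma clm_real (L : ℂ →L[ℝ] ℝ) (v : ℂ) : L v = v.re * L 1 + v.im * L Complex.I := by
  have : v = v.re • (1 : ℂ) + v.im • Complex.I := by simp
  conv_lhs => rw [this]
  rw [map_add, map_smul, map_smul]; simp

lemma fderiv_eq_gr (u : ℂ → ℝ) (z v : ℂ) :
    fderiv ℝ u z v = v.re * (gr u z).re + v.im * (gr u z).im := by
  rw [gr_re, gr_im, clm_real]

lemma continuous_gr {u : ℂ → ℝ} (h : ContDiff ℝ 1 u) : Continuous (gr u) := by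
  have := h.continuous_fderiv one_ne_zero
  unfold gr; fun_prop

lemma hasCompactSupport_gr {u : ℂ → ℝ} (h : HasCompactSupport u) : HasCompactSupport (gr u) := by
  refine h.mono' fun z hz => ?_
  by_contra hn
  exact hz (by simp [gr, (notMem_tsupport_iff_eventuallyEq.mp hn).fderiv_eq])

lemma inner_cos (ρ c : ℝ) (hρ : 0 < ρ) :
    ∫ r in Ioi (0 : ℝ), max (c - r / ρ) 0 = ρ * max c 0 ^ 2 / 2 := by
  rcases le_total c 0 with hc | hc
  · rw [max_eq_right hc, setIntegral_eq_zero_of_forall_eq_zero fun r hr => ?_]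
    · simp
    · have : 0 < r / ρ := div_pos hr hρ
      exact max_eq_right (by linarith)
  · have h1 : ∫ r in Ioi (0 : ℝ), max (c - r / ρ) 0 = ∫ r in Ioc (0 : ℝ) (ρ * c), (c - r / ρ) := by
      rw [setIntegral_eq_of_subset_of_forall_sdiff_eq_zero (s := Ioc 0 (ρ * c)) measurableSet_Ioi
        Ioc_subset_Ioi_self]
      · refine setIntegral_congr_fun measurableSet_Ioc fun r hr => ?_
        have : r / ρ ≤ c := by rw [div_le_iff₀ hρ]; linarith [hr.2]
        exact max_eq_left (by linarith)
      · rintro r ⟨h1, h2⟩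
        have : ρ * c < r := by
          by_contra h
          exact h2 ⟨h1, not_lt.mp h⟩
        have : c ≤ r / ρ := by rw [le_div_iff₀ hρ]; linarith
        exact max_eq_right (by linarith)
    rw [h1, ← intervalIntegral.integral_of_le (by positivity), max_eq_left hc,
      intervalIntegral.integral_sub (by simp) (by
        exact (by fun_prop : Continuous fun r : ℝ => r / ρ).intervalIntegrable _ _)]
    simp only [intervalIntegral.integral_div, integral_id, intervalIntegral.integral_const]
    simp only [smul_eq_mul]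
    field_simp
    ring

lemma outer_cos : ∫ θ in Ioo (-π) π, max (Real.cos θ) 0 ^ 2 = π / 2 := by
  have hp := Real.pi_pos
  rw [setIntegral_eq_of_subset_of_forall_sdiff_eq_zero (s := Ioc (-(π / 2)) (π / 2))
    measurableSet_Ioo (fun x hx => ⟨by linarith [hx.1], by linarith [hx.2]⟩)]
  · rw [setIntegral_congr_fun (g := fun θ => Real.cos θ ^ 2) measurableSet_Ioc fun θ hθ => by
      simp only [max_eq_left (Real.cos_nonneg_of_mem_Icc ⟨hθ.1.le, hθ.2⟩)],
      ← intervalIntegral.integral_of_le (by linarith), integral_cos_sq]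
    simp
  · rintro θ ⟨h1, h2⟩
    have : Real.cos θ ≤ 0 := by
      by_cases h : θ ≤ -(π / 2)
      · rw [← Real.cos_neg]
        exact Real.cos_nonpos_of_pi_div_two_le_of_le (by linarith) (by linarith [h1.1])
      · have : π / 2 < θ := by
          by_contra h'
          exact h2 ⟨not_le.mp h, not_lt.mp h'⟩
        exact Real.cos_nonpos_of_pi_div_two_le_of_le this.le (by linarith [h1.2])
    simp [max_eq_right this]

/-- The part of the real Cauchy kernel above a level. -/
noncomputable def pk (ρ : ℝ) (w : ℂ) : ℝ := max ((w⁻¹).re - ρ⁻¹) 0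

lemma integrable_pk {ρ : ℝ} (hρ : 0 < ρ) : Integrable (pk ρ) := by
  refine (integrable_kr ρ).mono' (by unfold pk; exact Measurable.aestronglyMeasurable (by fun_prop))
    (ae_of_all _ fun w => ?_)
  rw [Real.norm_eq_abs, abs_of_nonneg (le_max_right _ _)]
  refine max_le ?_ (kr_nonneg _ _)
  linarith [norm_inv_le_kr hρ w, Complex.re_le_norm w⁻¹]

lemma integral_pk {ρ : ℝ} (hρ : 0 < ρ) : ∫ w, pk ρ w = π * ρ / 4 := by
  rw [← Complex.integral_comp_polarCoord_symm, polarCoord_target]
  set H : ℝ × ℝ → ℝ := fun p => max (Real.cos p.2 - p.1 / ρ) 0 with hH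
  have e : ∫ p in Ioi (0 : ℝ) ×ˢ Ioo (-π) π, p.1 • pk ρ (Complex.polarCoord.symm p) =
      ∫ p in Ioi (0 : ℝ) ×ˢ Ioo (-π) π, H p := by
    refine setIntegral_congr_fun (measurableSet_Ioi.prod measurableSet_Ioo) fun p hp => ?_
    have hp1 : 0 < p.1 := hp.1
    have e1 : ((Complex.polarCoord.symm p)⁻¹).re = Real.cos p.2 / p.1 := by
      rw [Complex.inv_re, Complex.normSq_eq_norm_sq, Complex.norm_polarCoord_symm,
        Complex.polarCoord_symm_apply, sq_abs]
      simp only [Complex.mul_re, Complex.ofReal_re, Complex.add_re, Complex.I_re, mul_zero,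
        Complex.ofReal_im, Complex.I_im, mul_one, sub_self, add_zero, zero_mul, sub_zero]
      field_simp
    simp only [pk, e1, hH, smul_eq_mul]
    rw [mul_max_of_nonneg _ _ hp1.le, mul_zero]
    congr 1
    field_simp
  have hi : Integrable H ((volume.restrict (Ioi (0 : ℝ))).prod (volume.restrict (Ioo (-π) π))) := by
    rw [Measure.prod_restrict, ← Measure.volume_eq_prod]
    have hc : Continuous H := by simp only [hH]; fun_prop
    have h1 : IntegrableOn H (Icc (0 : ℝ) ρ ×ˢ Icc (-π) π) :=
      hc.continuousOn.integrableOn_compact (isCompact_Icc.prod isCompact_Icc)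
    refine IntegrableOn.of_forall_sdiff_eq_zero h1 (measurableSet_Ioi.prod measurableSet_Ioo) ?_
    rintro p ⟨⟨hp1, hp2⟩, hp3⟩
    have : ρ < p.1 := by
      by_contra hlt
      exact hp3 ⟨⟨le_of_lt hp1, not_lt.mp hlt⟩, Ioo_subset_Icc_self hp2⟩
    have h2 : 1 ≤ p.1 / ρ := by rw [le_div_iff₀ hρ]; linarith
    exact max_eq_right (by linarith [Real.cos_le_one p.2])
  rw [e, Measure.volume_eq_prod, ← Measure.prod_restrict, integral_prod_symm _ hi]
  simp only [hH, inner_cos _ _ hρ]
  rw [integral_div, integral_const_mul, outer_cos]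
  ring

lemma integrableOn_inv_sub {E : Set ℂ} (hf : volume E ≠ ⊤) (z : ℂ) :
    IntegrableOn (fun w => (w - z)⁻¹) E := by
  refine Integrable.mono' (g := fun w => kr 1 (w - z) + 1⁻¹)
    (((integrable_kr 1).comp_sub_right z).integrableOn.add (integrableOn_const hf))
    (Measurable.aestronglyMeasurable (by fun_prop)) (ae_of_all _ fun w => norm_inv_le_kr one_pos _)

/-- The Ahlfors-Beurling estimate. -/
lemma ahlfors {E : Set ℂ} (hf : volume E ≠ ⊤) (z : ℂ) :
    ‖∫ w in E, (w - z)⁻¹‖ ≤ √(π * volume.real E) := by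
  have hp := Real.pi_pos
  set J := ∫ w in E, (w - z)⁻¹ with hJ
  have key : ∀ ρ : ℝ, 0 < ρ → ‖J‖ ≤ π * ρ / 4 + volume.real E / ρ := by
    intro ρ hρ
    obtain ⟨a, haJ⟩ : ∃ a : Circle, ‖J‖ = ((a : ℂ)⁻¹ * J).re := by
      refine ⟨Circle.exp (Complex.arg J), ?_⟩
      conv_rhs => rw [← Complex.norm_mul_exp_arg_mul_I J]
      simp only [Circle.coe_exp, Complex.norm_mul_exp_arg_mul_I]
      conv_rhs => enter [1, 2]; rw [← Complex.norm_mul_exp_arg_mul_I J]
      rw [mul_left_comm, inv_mul_cancel₀ (Complex.exp_ne_zero _)]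
      simp
    have hi := integrableOn_inv_sub hf z
    have hpk : Integrable fun w => pk ρ (rotation a (w - z)) :=
      (((rotation a).measurePreserving.integrable_comp_emb
        (rotation a).toHomeomorph.measurableEmbedding).mpr (integrable_pk hρ)).comp_sub_right z
    have h1 : ∫ w, pk ρ (rotation a (w - z)) = π * ρ / 4 := by
      rw [integral_sub_right_eq_self (fun w => pk ρ (rotation a w)) z,
        integral_comp (rotation a) (pk ρ), integral_pk hρ]
    have h2 := integral_re (hi.const_mul (a : ℂ)⁻¹)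
    simp only [RCLike.re_to_complex] at h2
    rw [haJ, hJ, ← integral_const_mul, ← h2]
    calc ∫ w in E, ((a : ℂ)⁻¹ * (w - z)⁻¹).re
        ≤ ∫ w in E, (pk ρ (rotation a (w - z)) + ρ⁻¹) := by
          refine integral_mono (hi.const_mul _).re (hpk.integrableOn.add (integrableOn_const hf))
            fun w => ?_
          simp only [pk, rotation_apply, mul_inv]
          linarith [le_max_left (((a : ℂ)⁻¹ * (w - z)⁻¹).re - ρ⁻¹) 0]
      _ = (∫ w in E, pk ρ (rotation a (w - z))) + volume.real E / ρ := by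
          rw [integral_add hpk.integrableOn (integrableOn_const hf), setIntegral_const,
            smul_eq_mul, div_eq_mul_inv]
      _ ≤ _ := by
          rw [← h1]
          exact add_le_add_left (setIntegral_le_integral hpk
            (ae_of_all _ fun w => le_max_right _ _)) _
  rcases (measureReal_nonneg : 0 ≤ volume.real E).eq_or_lt with h0 | h0
  · have : volume E = 0 := by
      rwa [eq_comm, measureReal_eq_zero_iff hf] at h0
    rw [hJ, Measure.restrict_eq_zero.mpr this, integral_zero_measure, norm_zero]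
    positivity
  · have hs : 0 < √(π * volume.real E) := Real.sqrt_pos.mpr (by positivity)
    have hs2 := Real.sq_sqrt (show 0 ≤ π * volume.real E by positivity)
    refine (key (2 * √(π * volume.real E) / π) (by positivity)).trans (le_of_eq ?_)
    field_simp
    nlinarith

/-- The isoperimetric inequality in dual form. -/
theorem iso {f : ℂ → ℝ} (h : ContDiff ℝ 1 f) (hc : HasCompactSupport f) {E : Set ℂ}
    (hf : volume E ≠ ⊤) :
    |∫ w in E, f w| ≤ √(volume.real E) * ((2 * √π)⁻¹ * ∫ z, ‖gr f z‖) := by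
  have hp := Real.pi_pos
  set φ : ℂ → ℂ := fun z => (f z : ℂ) with hφ
  have h1 : ContDiff ℝ 1 φ := Complex.ofRealCLM.contDiff.comp h
  have hc1 : HasCompactSupport φ := hc.comp_left (g := fun x : ℝ => (x : ℂ)) (by simp)
  have hd : ∀ z, dbar φ z = gr f z / 2 := by
    intro z
    have : HasFDerivAt φ (Complex.ofRealCLM.comp (fderiv ℝ f z)) z :=
      Complex.ofRealCLM.hasFDerivAt.comp z (h.differentiable one_ne_zero z).hasFDerivAt
    simp [dbar, gr, this.fderiv]
  obtain ⟨M, hM⟩ := exists_data_dbar h1 hc1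
  have hfin : IsFiniteMeasure (volume.restrict E) := isFiniteMeasure_restrict.mpr hf
  have hm : AEStronglyMeasurable (fun p : ℂ × ℂ => dbar φ p.2 * (p.1 - p.2)⁻¹)
      ((volume.restrict E).prod volume) := by
    have := (continuous_dbar h1).measurable
    exact Measurable.aestronglyMeasurable (by fun_prop)
  have hI : Integrable (fun p : ℂ × ℂ => dbar φ p.2 * (p.1 - p.2)⁻¹)
      ((volume.restrict E).prod volume) := by
    rw [integrable_prod_iff hm]
    refine ⟨ae_of_all _ fun w => hM.integrable_kernel w, ?_⟩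
    refine Integrable.of_bound hm.norm.integral_prod_right'
      (M * (2 * π * 1) + ∫ ζ, (tsupport φ).indicator (fun _ => M * 1⁻¹) ζ) (ae_of_all _ fun w => ?_)
    rw [Real.norm_eq_abs, abs_of_nonneg (integral_nonneg fun _ => norm_nonneg _),
      ← integral_kr_sub one_pos.le w, ← integral_const_mul,
      ← integral_add ((integrable_kr_sub 1 w).const_mul M) (hM.integrable_ind _)]
    exact integral_mono (hM.integrable_kernel w).norm
      (((integrable_kr_sub 1 w).const_mul M).add (hM.integrable_ind _))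
      fun ζ => hM.kernel_le one_pos w ζ
  have e1 : ((∫ w in E, f w : ℝ) : ℂ) = (π : ℂ)⁻¹ * ∫ ζ, dbar φ ζ * ∫ w in E, (w - ζ)⁻¹ := by
    rw [← integral_complex_ofReal]
    have : ∀ w, (f w : ℂ) = (π : ℂ)⁻¹ * ∫ ζ, dbar φ ζ * (w - ζ)⁻¹ := fun w =>
      (pompeiu h1 hc1 w).symm
    simp only [this]
    rw [integral_const_mul, integral_integral_swap hI]
    simp only [integral_const_mul]
  have gi : Integrable fun z => ‖gr f z‖ :=
    ((continuous_gr h).integrable_of_hasCompactSupport (hasCompactSupport_gr hc)).norm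
  have e2 : ‖∫ ζ, dbar φ ζ * ∫ w in E, (w - ζ)⁻¹‖ ≤
      ∫ ζ, ‖gr f ζ‖ * (√(π * volume.real E) / 2) := by
    refine norm_integral_le_of_norm_le (gi.mul_const _) (ae_of_all _ fun ζ => ?_)
    rw [norm_mul, hd, norm_div, Complex.norm_ofNat]
    have := ahlfors hf ζ
    have := norm_nonneg (gr f ζ)
    nlinarith
  rw [← Real.norm_eq_abs, ← Complex.norm_real, e1, norm_mul, norm_inv, Complex.norm_real,
    Real.norm_eq_abs, abs_of_pos hp]
  refine (mul_le_mul_of_nonneg_left e2 (by positivity)).trans (le_of_eq ?_)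
  rw [integral_mul_const, Real.sqrt_mul hp.le]
  have hs : 0 < √π := Real.sqrt_pos.mpr hp
  have hs2 := Real.sq_sqrt hp.le
  field_simp
  rw [hs2]; ring

end Pool.Agent.P.MP_f791b6_an.Two
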