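import Pool.Agent.P.MP_f791b6_an.Disp

namespace Pool.Agent.P.MP_f791b6_an

open MeasureTheory Metric
open scoped Real RealInnerProductSpace

variable {n : ℕ}

/-- Volume of the unit ball. -/
noncomputable def om (n : ℕ) : ℝ := volume.real (ball (0 : E n) 1)

lemma om_pos : 0 < om n :=
  ENNReal.toReal_pos (measure_ball_pos _ _ one_pos).ne' measure_ball_lt_top.ne

lemma vol_closedBall {r : ℝ} (hr : 0 ≤ r) : volume.real (closedBall (0 : E n) r) = r ^ n * om n := by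
  rw [Measure.addHaar_real_closedBall _ _ hr, om]; simp

lemma vol_ball {r : ℝ} (hr : 0 < r) : volume.real (ball (0 : E n) r) = r ^ n * om n := by
  rw [measureReal_def, Measure.addHaar_ball_of_pos _ _ hr, ENNReal.toReal_mul,
    ENNReal.toReal_ofReal (by positivity), om, measureReal_def]; simp

lemma Gamma_le {x : ℝ} (hx : 0 < x) :
    Real.Gamma (x + 1) ≤ Real.exp 1 * (x + 1) * (x / Real.exp 1) ^ x := by
  rw [Real.Gamma_eq_integral (by positivity)]
  have hneg : -(x + 1)⁻¹ < 0 := by simp; positivity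
  have h1 : ∫ t in Set.Ioi (0 : ℝ), Real.exp (-t) * t ^ (x + 1 - 1) ≤
      ∫ t in Set.Ioi (0 : ℝ), ((x + 1) / Real.exp 1) ^ x * Real.exp (-(x + 1)⁻¹ * t) := by
    refine setIntegral_mono_on (Real.GammaIntegral_convergent (by positivity))
      ((integrableOn_exp_mul_Ioi hneg 0).const_mul _) measurableSet_Ioi fun t ht => ?_
    have ht0 : 0 < t := ht
    rw [add_sub_cancel_right, Real.rpow_def_of_pos ht0, Real.rpow_def_of_pos (by positivity),
      ← Real.exp_add, ← Real.exp_add, Real.exp_le_exp, Real.log_div (by positivity) (by positivity),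
      Real.log_exp]
    have h2 := Real.log_le_sub_one_of_pos (show 0 < t / (x + 1) by positivity)
    rw [Real.log_div (by positivity) (by positivity)] at h2
    have h3 := mul_le_mul_of_nonneg_right h2 hx.le
    have h4 : (t / (x + 1) - 1) * x = t - (x + 1)⁻¹ * t - x := by field_simp; ring
    rw [h4] at h3
    linarith
  refine h1.trans ?_
  rw [integral_const_mul, integral_exp_mul_Ioi hneg]
  have h5 : ((x + 1) / Real.exp 1) ^ x ≤ Real.exp 1 * (x / Real.exp 1) ^ x := by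
    have e1 : (x + 1) / Real.exp 1 = (1 + x⁻¹) * (x / Real.exp 1) := by field_simp
    rw [e1, Real.mul_rpow (by positivity) (by positivity)]
    refine mul_le_mul_of_nonneg_right ?_ (by positivity)
    calc (1 + x⁻¹) ^ x ≤ (Real.exp x⁻¹) ^ x :=
          Real.rpow_le_rpow (by positivity) (by linarith [Real.add_one_le_exp x⁻¹]) hx.le
      _ = Real.exp 1 := by rw [← Real.exp_mul, inv_mul_cancel₀ hx.ne']
  have h6 : -Real.exp (-(x + 1)⁻¹ * 0) / -(x + 1)⁻¹ = x + 1 := by simp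
  rw [h6]
  calc _ ≤ Real.exp 1 * (x / Real.exp 1) ^ x * (x + 1) := by gcongr
    _ = _ := by ring

theorem om_ge (hn : 5 ≤ n) : (2 * π * Real.exp 1 / n) ^ ((n : ℝ) / 2) ≤ 2 * n * om n := by
  have hn' : (5 : ℝ) ≤ n := by exact_mod_cast hn
  have : Nonempty (Fin n) := ⟨⟨0, by omega⟩⟩
  have hG : 0 < Real.Gamma ((n : ℝ) / 2 + 1) := Real.Gamma_pos_of_pos (by positivity)
  have h1 : om n = π ^ ((n : ℝ) / 2) / Real.Gamma ((n : ℝ) / 2 + 1) := by
    rw [om, measureReal_def, EuclideanSpace.volume_ball]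
    simp only [ENNReal.ofReal_one, one_pow, one_mul, Fintype.card_fin]
    rw [ENNReal.toReal_ofReal (by positivity), Real.sqrt_eq_rpow, ← Real.rpow_natCast,
      ← Real.rpow_mul Real.pi_pos.le]
    congr 2; ring
  have h2 := Gamma_le (x := (n : ℝ) / 2) (by positivity)
  have he := Real.exp_one_lt_d9
  have he0 := Real.exp_pos 1
  rw [h1, ← mul_div_assoc, le_div_iff₀ hG]
  calc (2 * π * Real.exp 1 / n) ^ ((n : ℝ) / 2) * Real.Gamma ((n : ℝ) / 2 + 1)
      ≤ (2 * π * Real.exp 1 / n) ^ ((n : ℝ) / 2) *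
        (Real.exp 1 * ((n : ℝ) / 2 + 1) * (((n : ℝ) / 2) / Real.exp 1) ^ ((n : ℝ) / 2)) := by
        gcongr
    _ = (Real.exp 1 * ((n : ℝ) / 2 + 1)) * π ^ ((n : ℝ) / 2) := by
        rw [mul_left_comm, ← Real.mul_rpow (by positivity) (by positivity)]
        congr 2; field_simp
    _ ≤ _ := by
        refine mul_le_mul_of_nonneg_right ?_ (by positivity)
        nlinarith

/-- Cylinder with axis `e`. -/
def cyl (e : E n) (h R : ℝ) : Set (E n) := {y | |⟪e, y⟫| ≤ h ∧ ‖y - ⟪e, y⟫ • e‖ ≤ R}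

lemma measurableSet_cyl (e : E n) (h R : ℝ) : MeasurableSet (cyl e h R) := by
  have h1 : IsClosed {y : E n | |⟪e, y⟫| ≤ h} := isClosed_le (by fun_prop) continuous_const
  have h2 : IsClosed {y : E n | ‖y - ⟪e, y⟫ • e‖ ≤ R} := isClosed_le (by fun_prop) continuous_const
  exact (h1.inter h2).measurableSet

lemma norm_sq_split {e : E n} (he : ‖e‖ = 1) (y : E n) :
    ‖y‖ ^ 2 = ⟪e, y⟫ ^ 2 + ‖y - ⟪e, y⟫ • e‖ ^ 2 := by
  rw [norm_sub_sq_real, inner_smul_right, norm_smul, he, real_inner_comm, Real.norm_eq_abs,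
    mul_one, sq_abs]
  ring

lemma cyl_finite {e : E n} (he : ‖e‖ = 1) (h R : ℝ) : volume (cyl e h R) ≠ ⊤ := by
  refine ((measure_mono (t := closedBall 0 (h + R)) fun y hy => ?_).trans_lt
    measure_closedBall_lt_top).ne
  rw [mem_closedBall_zero_iff]
  calc ‖y‖ = ‖⟪e, y⟫ • e + (y - ⟪e, y⟫ • e)‖ := by congr 1; abel
    _ ≤ ‖⟪e, y⟫ • e‖ + ‖y - ⟪e, y⟫ • e‖ := norm_add_le _ _
    _ ≤ h + R := by
      rw [norm_smul, he, mul_one]; exact add_le_add hy.1 hy.2

lemma vol_cyl (hn : 1 ≤ n) {e : E n} (he : ‖e‖ = 1) {h R : ℝ} (hh : 0 < h) (hR : 0 < R) :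
    volume.real (cyl e h R) = h * R ^ (n - 1) * volume.real (cyl e 1 1) := by
  set A : E n →ₗ[ℝ] E n := R • LinearMap.transvection (((h - R) / R) • innerₗ (E n) e) e with hA
  have hee : ⟪e, e⟫ = 1 := by rw [real_inner_self_eq_norm_sq, he, one_pow]
  have hdet : LinearMap.det A = h * R ^ (n - 1) := by
    rw [hA, LinearMap.det_smul, LinearMap.transvection.det]
    simp only [finrank_euclideanSpace, Fintype.card_fin, LinearMap.smul_apply, innerₗ_apply_apply,
      hee, smul_eq_mul, mul_one]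
    obtain ⟨m, rfl⟩ := Nat.exists_eq_add_of_le' hn
    rw [Nat.add_sub_cancel, pow_succ]; field_simp; ring
  have hAy : ∀ y, A y = R • y + ((h - R) * ⟪e, y⟫) • e := fun y => by
    rw [hA, LinearMap.smul_apply, LinearMap.transvection.apply, smul_add, smul_smul]
    simp only [LinearMap.smul_apply, innerₗ_apply_apply, smul_eq_mul]
    congr 2; field_simp
  have hpre : A ⁻¹' (cyl e h R) = cyl e 1 1 := by
    ext y
    have h1 : ⟪e, A y⟫ = h * ⟪e, y⟫ := by
      rw [hAy, inner_add_right, inner_smul_right, inner_smul_right, hee]; ring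
    have h2 : A y - (h * ⟪e, y⟫) • e = R • (y - ⟪e, y⟫ • e) := by
      rw [hAy]; module
    simp only [Set.mem_preimage, cyl, Set.mem_ofPred_eq, h1, h2, abs_mul, abs_of_pos hh, norm_smul,
      Real.norm_eq_abs, abs_of_pos hR, mul_le_iff_le_one_right hh, mul_le_iff_le_one_right hR]
  have hpos : 0 < h * R ^ (n - 1) := by positivity
  have := Measure.addHaar_preimage_linearMap (volume : Measure (E n)) (f := A)
    (by rw [hdet]; exact hpos.ne') (cyl e h R)
  rw [hpre, hdet] at this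
  rw [measureReal_def, measureReal_def, this, ENNReal.toReal_mul,
    ENNReal.toReal_ofReal (abs_nonneg _), abs_of_pos (inv_pos.mpr hpos)]
  field_simp

lemma om_le_cyl {e : E n} (he : ‖e‖ = 1) : om n ≤ volume.real (cyl e 1 1) := by
  refine measureReal_mono (fun y hy => ?_) (cyl_finite he 1 1)
  have h1 : ‖y‖ ^ 2 ≤ 1 := pow_le_one₀ (norm_nonneg _) (mem_ball_zero_iff.mp hy).le
  rw [norm_sq_split he] at h1
  constructor
  · exact abs_le_one_iff_mul_self_le_one.mpr (by nlinarith [sq_nonneg ‖y - ⟪e, y⟫ • e‖])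
  · nlinarith [sq_nonneg ⟪e, y⟫, norm_nonneg (y - ⟪e, y⟫ • e)]

lemma shell_subset {η : ℝ} (hη : 0 < η) (hη1 : η < 1) :
    shell n η ⊆ closedBall 0 (1 + η) \ ball 0 (1 - η) := by
  intro ξ hξ
  have h := abs_le.mp (show |‖ξ‖ ^ 2 - 1| ≤ η from hξ)
  have h0 := norm_nonneg ξ
  constructor
  · rw [mem_closedBall_zero_iff]; nlinarith
  · rw [mem_ball_zero_iff, not_lt]; nlinarith

lemma shell_finite {η : ℝ} (hη : 0 < η) (hη1 : η < 1) : volume (shell n η) ≠ ⊤ :=
  ((measure_mono ((shell_subset hη hη1).trans Set.sdiff_subset)).trans_lt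
    measure_closedBall_lt_top).ne

lemma vol_shell_le {η : ℝ} (hη : 0 < η) (hη1 : η < 1) :
    volume.real (shell n η) ≤ η * (2 * n * 2 ^ (n - 1) * om n) := by
  calc volume.real (shell n η) ≤ volume.real (closedBall (0 : E n) (1 + η) \ ball 0 (1 - η)) :=
        measureReal_mono (shell_subset hη hη1)
          ((measure_mono Set.sdiff_subset).trans_lt measure_closedBall_lt_top).ne
    _ = ((1 + η) ^ n - (1 - η) ^ n) * om n := by
        rw [measureReal_sdiff (ball_subset_closedBall.trans (closedBall_subset_closedBall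
          (by linarith))) measurableSet_ball measure_closedBall_lt_top.ne,
          vol_closedBall (by linarith), vol_ball (by linarith)]
        ring
    _ ≤ (η * (2 * n * 2 ^ (n - 1))) * om n := by
        refine mul_le_mul_of_nonneg_right ((le_abs_self _).trans
          ((abs_pow_sub_pow_le _ _ _).trans ?_)) om_pos.le
        have h1 : |1 + η - (1 - η)| = η * 2 := by rw [abs_of_pos (by linarith)]; ring
        have h2 : max |1 + η| |1 - η| ≤ 2 :=
          max_le (abs_le.mpr ⟨by linarith, by linarith⟩) (abs_le.mpr ⟨by linarith, by linarith⟩)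
        rw [h1]
        calc η * 2 * n * max |1 + η| |1 - η| ^ (n - 1) ≤ η * 2 * n * 2 ^ (n - 1) := by gcongr
          _ = _ := by ring
    _ = _ := by ring

lemma shell_near {η : ℝ} (hη1 : η < 1) {ξ : E n} (hξ : ξ ∈ shell n η) :
    ∃ y ∈ sphere (0 : E n) 1, dist ξ y ≤ η := by
  have h := (show |‖ξ‖ ^ 2 - 1| ≤ η from hξ)
  have h0 : 0 < ‖ξ‖ := by
    have := (abs_le.mp h).1
    by_contra hh
    have : ‖ξ‖ = 0 := le_antisymm (not_lt.mp hh) (norm_nonneg _)
    simp_all; linarith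
  refine ⟨‖ξ‖⁻¹ • ξ, by simp [norm_smul, h0.ne'], ?_⟩
  have e1 : ξ - ‖ξ‖⁻¹ • ξ = ((‖ξ‖ - 1) * ‖ξ‖⁻¹) • ξ := by
    rw [sub_mul, mul_inv_cancel₀ h0.ne', one_mul, sub_smul, one_smul]
  rw [dist_eq_norm, e1, norm_smul, Real.norm_eq_abs, abs_mul, abs_inv, abs_norm, mul_assoc,
    inv_mul_cancel₀ h0.ne', mul_one]
  refine le_trans ?_ h
  have : ‖ξ‖ ^ 2 - 1 = (‖ξ‖ - 1) * (‖ξ‖ + 1) := by ring
  rw [this, abs_mul]
  exact le_mul_of_one_le_right (abs_nonneg _) (by rw [abs_of_pos (by linarith)]; linarith)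

theorem vol_shell_inter (hn : 2 ≤ n) {η : ℝ} (hη : 0 < η) (hη1 : η ≤ 1 / 1000) {ζ : E n}
    (hζ : η ≤ 2 * ‖ζ‖ ^ 2) (hζ1 : ‖ζ‖ ≤ 2 / 5) :
    η ^ 2 * ((n - 1 : ℝ) * om n * (979 / 1000) ^ (n - 2) / (8 * ‖ζ‖)) ≤
      volume.real {ξ : E n | ξ ∈ shell n η ∧ ξ - ζ ∈ shell n η} := by
  set r := ‖ζ‖ with hr
  have hr0 : 0 < r := by
    by_contra hh
    have : r = 0 := le_antisymm (not_lt.mp hh) (norm_nonneg _)
    rw [this] at hζ; linarith
  set e : E n := r⁻¹ • ζ with he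
  have he1 : ‖e‖ = 1 := by rw [he, norm_smul, norm_inv, norm_norm, inv_mul_cancel₀ hr0.ne']
  have hζe : ζ = r • e := by rw [he, smul_smul, mul_inv_cancel₀ hr0.ne', one_smul]
  set ρ := √(1 - r ^ 2 / 4) with hρ
  have hρ2 : ρ ^ 2 = 1 - r ^ 2 / 4 := Real.sq_sqrt (by nlinarith)
  have hρl : 9797 / 10000 ≤ ρ := Real.le_sqrt_of_sq_le (by nlinarith)
  have hρu : ρ ≤ 1 := Real.sqrt_le_one.mpr (by nlinarith)
  set h := η / (2 * r) with hh
  have hh0 : 0 < h := by positivity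
  have hrh : r * h = η / 2 := by rw [hh]; field_simp
  have hh2 : h ^ 2 ≤ η / 2 := by
    rw [hh, div_pow, div_le_div_iff₀ (by positivity) (by positivity)]; nlinarith
  have hsub : cyl e h ρ \ cyl e h (ρ - η / 4) ⊆
      (fun y => y + (1 / 2 : ℝ) • ζ) ⁻¹' {ξ : E n | ξ ∈ shell n η ∧ ξ - ζ ∈ shell n η} := by
    intro y hy
    obtain ⟨⟨h1, h2⟩, h3⟩ := hy
    have h4 : ρ - η / 4 < ‖y - ⟪e, y⟫ • e‖ := by
      by_contra hc; exact h3 ⟨h1, not_lt.mp hc⟩
    have hs := norm_sq_split he1 y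
    set t := ⟪e, y⟫ with ht
    set s := ‖y - t • e‖ with hsd
    have ht2 : t ^ 2 ≤ h ^ 2 := by rw [← sq_abs]; exact pow_le_pow_left₀ (abs_nonneg _) h1 2
    have hs1 : s ^ 2 ≤ ρ ^ 2 := pow_le_pow_left₀ (norm_nonneg _) h2 2
    have hs2 : (ρ - η / 4) ^ 2 ≤ s ^ 2 := pow_le_pow_left₀ (by linarith) h4.le 2
    have hs3 : ρ ^ 2 - η / 2 ≤ s ^ 2 := by nlinarith
    have hrt : |r * t| ≤ η / 2 := by
      rw [abs_mul, abs_of_pos hr0, ← hrh]; gcongr
    have hrt' := abs_le.mp hrt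
    have hyζ : ⟪y, ζ⟫ = r * t := by rw [hζe, inner_smul_right, real_inner_comm]
    have n1 : ‖y + (1 / 2 : ℝ) • ζ‖ ^ 2 = t ^ 2 + s ^ 2 + r * t + r ^ 2 / 4 := by
      rw [norm_add_sq_real, inner_smul_right, hyζ, norm_smul, hs, ← hr, mul_pow]; norm_num; ring
    have n2 : ‖y + (1 / 2 : ℝ) • ζ - ζ‖ ^ 2 = t ^ 2 + s ^ 2 - r * t + r ^ 2 / 4 := by
      have : y + (1 / 2 : ℝ) • ζ - ζ = y - (1 / 2 : ℝ) • ζ := by module
      rw [this, norm_sub_sq_real, inner_smul_right, hyζ, norm_smul, hs, ← hr, mul_pow]; norm_num; ring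
    have ht0 := sq_nonneg t
    constructor
    · change |‖y + (1 / 2 : ℝ) • ζ‖ ^ 2 - 1| ≤ η
      rw [n1, abs_le]; constructor <;> linarith
    · change |‖y + (1 / 2 : ℝ) • ζ - ζ‖ ^ 2 - 1| ≤ η
      rw [n2, abs_le]; constructor <;> linarith
  have hfin : volume {ξ : E n | ξ ∈ shell n η ∧ ξ - ζ ∈ shell n η} ≠ ⊤ :=
    ((measure_mono fun ξ hξ => hξ.1).trans_lt (shell_finite hη (by linarith)).lt_top).ne
  have h5 := measureReal_mono (μ := volume) hsub (by rwa [measure_preimage_add_right])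
  rw [measureReal_def _ (_ ⁻¹' _), measure_preimage_add_right, ← measureReal_def] at h5
  refine le_trans ?_ h5
  have hR1 : 979 / 1000 ≤ ρ - η / 4 := by linarith
  have hcs : cyl e h (ρ - η / 4) ⊆ cyl e h ρ := fun y hy => ⟨hy.1, hy.2.trans (by linarith)⟩
  rw [measureReal_sdiff hcs (measurableSet_cyl _ _ _)
    (cyl_finite he1 _ _), vol_cyl (by omega) he1 hh0 (by linarith),
    vol_cyl (by omega) he1 hh0 (by linarith), ← sub_mul, ← mul_sub]
  have h6 := pow_add_mul_le_add_pow (a := ρ - η / 4) (b := η / 4) (by linarith) (by linarith) (n - 1)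
  rw [sub_add_cancel, Nat.cast_sub (by omega), Nat.cast_one, Nat.sub_sub] at h6
  have h7 : (n - 1 : ℝ) * (979 / 1000) ^ (n - 2) * (η / 4) ≤ ρ ^ (n - 1) - (ρ - η / 4) ^ (n - 1) := by
    have : (0 : ℝ) ≤ n - 1 := by
      have : (2 : ℝ) ≤ n := by exact_mod_cast hn
      linarith
    calc (n - 1 : ℝ) * (979 / 1000) ^ (n - 2) * (η / 4)
        ≤ (n - 1 : ℝ) * (ρ - η / 4) ^ (n - 2) * (η / 4) := by gcongr
      _ ≤ _ := by linarith
  have h8 : (0 : ℝ) ≤ ρ ^ (n - 1) - (ρ - η / 4) ^ (n - 1) :=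
    sub_nonneg.mpr (pow_le_pow_left₀ (by linarith) (by linarith) _)
  calc η ^ 2 * ((n - 1 : ℝ) * om n * (979 / 1000) ^ (n - 2) / (8 * r))
      = h * ((n - 1 : ℝ) * (979 / 1000) ^ (n - 2) * (η / 4)) * om n := by
        rw [hh]; field_simp; ring
    _ ≤ _ := by
        have := om_le_cyl he1
        have := (om_pos (n := n)).le
        gcongr

end Pool.Agent.P.MP_f791b6_an
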