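import Pool.Agent.P.MP_f791b6_an.Disc
import Pool.Agent.P.MP_f791b6_an.Vol

namespace Pool.Agent.P.MP_f791b6_an

open MeasureTheory Complex Metric Filter Topology
open scoped ComplexConjugate Real FourierTransform RealInnerProductSpace ContDiff

variable {n : ℕ}

theorem caseA {Ω : Set (E n)} (hm : MeasurableSet Ω) (hb : Bornology.IsBounded Ω)
    (hV : 0 < volume.real Ω) (hn : 1 ≤ n) {m : ℕ} (h : 8 * n * (m : ℝ) ≤ om n * volume.real Ω) :
    NeuOK Ω m := by
  obtain ⟨D, hD⟩ := hb.exists_norm_le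
  have hn' : (1 : ℝ) ≤ n := by exact_mod_cast hn
  set r : ℝ := 1 - 1 / (2 * n) with hr
  have h2n : 1 / (2 * (n : ℝ)) ≤ 1 / 2 := by gcongr; linarith
  have h2n0 : 0 < 1 / (2 * (n : ℝ)) := by positivity
  have hr0 : 0 ≤ r := by linarith
  set K := closedBall (0 : E n) r with hK
  set ν : Measure (E n) := volume.restrict K with hν
  have : IsFiniteMeasure ν := ⟨by simpa [hν] using measure_closedBall_lt_top⟩
  set C := ν.real Set.univ * ((2 * π * D) ^ 2 * volume.real Ω) with hC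
  have hC0 : 0 ≤ C := by positivity
  set ε := 1 / (4 * C + 1) with hε
  have hε0 : 0 < ε := by positivity
  have hε1 : ε ≤ 1 := by rw [hε, div_le_one (by positivity)]; linarith
  have hε2 : ε * C ≤ 1 / 4 := by
    rw [hε, div_mul_eq_mul_div, div_le_div_iff₀ (by positivity) (by positivity)]; linarith
  obtain ⟨N, x, ind, hi, hxK, hx⟩ := exists_round (isCompact_closedBall (0 : E n) r)
    ⟨0, mem_closedBall_self hr0⟩ hε0
  have hG := gram_le hm hb hV hD ν x hi (δ := ε) (τ := 8 / 7) (τ' := 3)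
    (by
      rw [hν, ae_restrict_iff' measurableSet_closedBall]
      exact Eventually.of_forall fun ξ hξ => by simpa using hx ξ ξ hξ)
    (fun g hg hg2 _ => ball_bound hg hg2 measurableSet_closedBall fun ξ hξ => by
      have := mem_closedBall_zero_iff.mp hξ; linarith)
    (by
      have e1 : ν.real Set.univ * ((2 * π * ε * D) ^ 2 * volume.real Ω) = ε * (ε * C) := by
        rw [hC]; ring
      rw [e1]
      have : ε * (ε * C) ≤ 1 * (1 / 4) := by gcongr
      linarith)
    (by norm_num)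
  refine neu_low hm hb x (fun f => ν.real (ind ⁻¹' {f})) (fun f => measureReal_nonneg)
    (by norm_num) hG (r := r) (fun f => mem_closedBall_zero_iff.mp (hxK f)) ?_
  have hsum : ∑ f, ν.real (ind ⁻¹' {f}) = r ^ n * om n := by
    have := integral_ind ν hi (fun _ => 1)
    simp only [mul_one, integral_const, smul_eq_mul] at this
    rw [← this, hν, measureReal_restrict_apply_univ, vol_closedBall hr0]
  rw [hsum]
  have h1 : 1 / 2 ≤ r ^ n := by
    have := one_add_mul_le_pow (a := -(1 / (2 * (n : ℝ)))) (by linarith) n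
    have e1 : 1 + (n : ℝ) * -(1 / (2 * n)) = 1 / 2 := by field_simp; ring
    rwa [e1, ← sub_eq_add_neg] at this
  have h2 : 3 / (4 * n) ≤ 1 - r ^ 2 := by
    have e1 : 3 / (4 * (n : ℝ)) = 3 / 2 * (1 / (2 * n)) := by field_simp; ring
    rw [e1, hr]; nlinarith
  have hom := (om_pos (n := n)).le
  calc (m : ℝ) * 3 = 3 / (4 * n) * (1 / 2) * (8 * n * m) := by field_simp; ring
    _ ≤ 3 / (4 * n) * (1 / 2) * (om n * volume.real Ω) := by gcongr
    _ = 3 / (4 * n) * (1 / 2 * om n) * volume.real Ω := by ring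
    _ ≤ _ := by gcongr; linarith [show 0 < 3 / (4 * (n : ℝ)) by positivity]

/-- Middle frequencies. -/
def mid (n : ℕ) (β : ℝ) : Set (E n) := closedBall 0 (2 / 5) \ ball 0 β

lemma measurableSet_mid (β : ℝ) : MeasurableSet (mid n β) :=
  measurableSet_closedBall.diff measurableSet_ball

lemma isBounded_mid (β : ℝ) : Bornology.IsBounded (mid n β) :=
  isBounded_closedBall.subset Set.sdiff_subset

theorem mid_mass {Ω : Set (E n)} (hm : MeasurableSet Ω) (hf : volume Ω ≠ ⊤) {β a : ℝ}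
    (hβ : 0 < β) (ha : 1 / 8 ≤ a) :
    GI (chi Ω) a ≤ volume.real Ω ^ 2 * (β ^ n * om n) + (∫ ζ in mid n β, ‖ft (chi Ω) ζ‖ ^ 2) +
      Real.exp (-((a - 1 / 8) * (4 / 25))) * volume.real Ω := by
  have ic := integrable_chi hm hf
  have hc := continuous_ft ic
  set V := volume.real Ω with hV
  have i1 : Integrable ((ball (0 : E n) β).indicator fun _ => V ^ 2) :=
    (integrable_indicator_iff measurableSet_ball).mpr (integrableOn_const measure_ball_lt_top.ne)
  have i2 : Integrable ((mid n β).indicator fun ζ => ‖ft (chi Ω) ζ‖ ^ 2) :=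
    (integrable_indicator_iff (measurableSet_mid β)).mpr
      (integrableOn_of_cont (isBounded_mid β) (by fun_prop))
  have i3 := (integrable_GI ic (a := 1 / 8) (by norm_num)).const_mul
    (Real.exp (-((a - 1 / 8) * (4 / 25))))
  have i12 : Integrable (fun ζ => (ball (0 : E n) β).indicator (fun _ => V ^ 2) ζ +
    (mid n β).indicator (fun ζ => ‖ft (chi Ω) ζ‖ ^ 2) ζ) := i1.add i2
  calc GI (chi Ω) a ≤ ∫ ζ, ((ball (0 : E n) β).indicator (fun _ => V ^ 2) ζ +
        (mid n β).indicator (fun ζ => ‖ft (chi Ω) ζ‖ ^ 2) ζ +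
        Real.exp (-((a - 1 / 8) * (4 / 25))) *
          (Real.exp (-(1 / 8) * ‖ζ‖ ^ 2) * ‖ft (chi Ω) ζ‖ ^ 2)) := by
        refine integral_mono (integrable_GI ic (by linarith)) (i12.add i3) fun ζ => ?_
        simp only
        have p1 : 0 ≤ (ball (0 : E n) β).indicator (fun _ => V ^ 2) ζ :=
          Set.indicator_nonneg (fun _ _ => by positivity) _
        have p2 : 0 ≤ (mid n β).indicator (fun ζ => ‖ft (chi Ω) ζ‖ ^ 2) ζ :=
          Set.indicator_nonneg (fun _ _ => by positivity) _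
        have p3 : 0 ≤ Real.exp (-((a - 1 / 8) * (4 / 25))) *
          (Real.exp (-(1 / 8) * ‖ζ‖ ^ 2) * ‖ft (chi Ω) ζ‖ ^ 2) := by positivity
        have p4 : Real.exp (-a * ‖ζ‖ ^ 2) * ‖ft (chi Ω) ζ‖ ^ 2 ≤ ‖ft (chi Ω) ζ‖ ^ 2 := by
          refine mul_le_of_le_one_left (by positivity) (Real.exp_le_one_iff.mpr ?_)
          have : 0 ≤ a * ‖ζ‖ ^ 2 := by have : 0 ≤ a := by linarith
                                       positivity
          linarith
        by_cases h1 : ζ ∈ ball (0 : E n) β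
        · have p5 : ‖ft (chi Ω) ζ‖ ^ 2 ≤ V ^ 2 := by
            refine pow_le_pow_left₀ (norm_nonneg _) ?_ 2
            rw [hV, ← integral_norm_chi hm]; exact norm_ft_le _ _
          rw [Set.indicator_of_mem h1]; linarith
        by_cases h2 : ζ ∈ closedBall (0 : E n) (2 / 5)
        · rw [Set.indicator_of_mem (show ζ ∈ mid n β from ⟨h2, h1⟩)]; linarith
        · have h3 : 2 / 5 ≤ ‖ζ‖ := by
            rw [mem_closedBall_zero_iff, not_le] at h2; exact h2.le
          have h4 : 4 / 25 ≤ ‖ζ‖ ^ 2 := by nlinarith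
          have p5 : Real.exp (-a * ‖ζ‖ ^ 2) * ‖ft (chi Ω) ζ‖ ^ 2 ≤
              Real.exp (-((a - 1 / 8) * (4 / 25))) *
                (Real.exp (-(1 / 8) * ‖ζ‖ ^ 2) * ‖ft (chi Ω) ζ‖ ^ 2) := by
            rw [← mul_assoc, ← Real.exp_add]
            refine mul_le_mul_of_nonneg_right (Real.exp_le_exp.mpr ?_) (by positivity)
            nlinarith
          linarith
    _ = V ^ 2 * (β ^ n * om n) + (∫ ζ in mid n β, ‖ft (chi Ω) ζ‖ ^ 2) +
        Real.exp (-((a - 1 / 8) * (4 / 25))) * GI (chi Ω) (1 / 8) := by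
        rw [integral_add i12 i3, integral_add i1 i2, integral_const_mul,
          integral_indicator (measurableSet_mid β), integral_indicator_const _ measurableSet_ball,
          vol_ball hβ, smul_eq_mul, mul_comm (V ^ 2)]
        rfl
    _ ≤ _ := by
        have := GI_chi_le hm hf (a := 1 / 8) (by norm_num)
        gcongr

theorem shell_conv (hn : 2 ≤ n) {Ψ : E n → ℝ} (hΨ : Continuous Ψ) (hΨ0 : ∀ ζ, 0 ≤ Ψ ζ) {β η : ℝ}
    (hβ : 0 < β) (hη : 0 < η) (hη1 : η ≤ 1 / 1000) (hηβ : η ≤ 2 * β ^ 2) :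
    Integrable (fun p : E n × E n => (mid n β).indicator (fun ζ => ‖ζ‖ ^ 2 * Ψ ζ) (p.1 - p.2))
      ((volume.restrict (shell n η)).prod (volume.restrict (shell n η))) ∧
    η ^ 2 * (β * ((n - 1 : ℝ) * om n * (979 / 1000) ^ (n - 2) / 8) * ∫ ζ in mid n β, Ψ ζ) ≤
      ∫ p : E n × E n, (mid n β).indicator (fun ζ => ‖ζ‖ ^ 2 * Ψ ζ) (p.1 - p.2)
        ∂((volume.restrict (shell n η)).prod (volume.restrict (shell n η))) := by
  set ψ := (mid n β).indicator (fun ζ => ‖ζ‖ ^ 2 * Ψ ζ) with hψ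
  set S := shell n η with hS
  have hSm : MeasurableSet S := measurableSet_shell η
  have hSf : volume S ≠ ⊤ := shell_finite hη (by linarith)
  have hψm : Measurable ψ := (by fun_prop : Continuous fun ζ : E n => ‖ζ‖ ^ 2 * Ψ ζ).measurable.indicator
    (measurableSet_mid β)
  obtain ⟨B, hB⟩ : ∃ B, ∀ ζ, ‖ψ ζ‖ ≤ B := by
    obtain ⟨B, hB⟩ := (isCompact_closedBall (0 : E n) (2 / 5)).exists_bound_of_continuousOn
      (by fun_prop : Continuous fun ζ : E n => ‖ζ‖ ^ 2 * Ψ ζ).continuousOn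
    refine ⟨max B 0, fun ζ => ?_⟩
    by_cases h : ζ ∈ mid n β
    · rw [hψ, Set.indicator_of_mem h]; exact (hB ζ h.1).trans (le_max_left _ _)
    · rw [hψ, Set.indicator_of_notMem h]; simp
  have : IsFiniteMeasure (volume.restrict S) := ⟨by simpa using hSf.lt_top⟩
  have i1 : Integrable (fun p : E n × E n => ψ (p.1 - p.2))
      ((volume.restrict S).prod (volume.restrict S)) :=
    Integrable.of_bound (hψm.comp (measurable_fst.sub measurable_snd)).aestronglyMeasurable B
      (Eventually.of_forall fun p => hB _)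
  refine ⟨i1, ?_⟩
  rw [Measure.prod_restrict] at i1 ⊢
  have i2 := (integrable_indicator_iff (hSm.prod hSm)).mpr i1
  rw [← integral_indicator (hSm.prod hSm)]
  generalize hH : (S ×ˢ S).indicator (fun p : E n × E n => ψ (p.1 - p.2)) = H at i2
  have hmp := measurePreserving_add_prod (volume : Measure (E n)) (volume : Measure (E n))
  have i3 : Integrable (fun z : E n × E n => H (z.1 + z.2, z.2)) (volume.prod volume) :=
    hmp.integrable_comp_of_integrable i2
  have e0 : ∫ p, H p ∂(volume.prod volume) = ∫ ζ, ∫ y, H (ζ + y, y) := by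
    rw [← integral_prod _ i3, ← integral_map hmp.measurable.aemeasurable
      (by rw [hmp.map_eq]; exact i2.aestronglyMeasurable), hmp.map_eq]
  have i4 : Integrable (fun ζ => ∫ y, H (ζ + y, y)) := i3.integral_prod_left
  have i5 : Integrable ((mid n β).indicator Ψ) :=
    (integrable_indicator_iff (measurableSet_mid β)).mpr (integrableOn_of_cont (isBounded_mid β) hΨ)
  rw [e0, ← integral_indicator (measurableSet_mid β), ← integral_const_mul, ← integral_const_mul]
  refine integral_mono ((i5.const_mul _).const_mul _) i4 fun ζ => ?_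
  have hT : MeasurableSet {ξ : E n | ξ ∈ S ∧ ξ - -ζ ∈ S} :=
    hSm.inter ((measurable_sub_const (-ζ)) hSm : MeasurableSet ((fun ξ : E n => ξ - -ζ) ⁻¹' S))
  have e1 : ∫ y, H (ζ + y, y) = volume.real {ξ : E n | ξ ∈ S ∧ ξ - -ζ ∈ S} * ψ ζ := by
    rw [← smul_eq_mul, ← integral_indicator_const _ hT, ← hH]
    refine integral_congr_ae (Eventually.of_forall fun y => ?_)
    have e2 : y - -ζ = ζ + y := by abel
    clear_value S ψ
    by_cases h1 : y ∈ S <;> by_cases h2 : ζ + y ∈ S <;>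
      simp only [Set.indicator, Set.mem_prod, Set.mem_ofPred_eq, h1, h2, e2, add_sub_cancel_right,
        and_self, and_true, and_false, if_true, if_false]
  simp only
  rw [e1]
  by_cases hζ : ζ ∈ mid n β
  · have h1 : β ≤ ‖ζ‖ := by
      have := hζ.2; rwa [mem_ball_zero_iff, not_lt] at this
    have h2 : ‖ζ‖ ≤ 2 / 5 := mem_closedBall_zero_iff.mp hζ.1
    have h0 : 0 < ‖ζ‖ := hβ.trans_le h1
    have h3 := vol_shell_inter hn hη hη1 (ζ := -ζ)
      (by rw [norm_neg]; exact hηβ.trans (by gcongr)) (by rwa [norm_neg])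
    rw [norm_neg] at h3
    rw [hψ, Set.indicator_of_mem hζ, Set.indicator_of_mem hζ]
    have hn0 : (0 : ℝ) ≤ n - 1 := by
      have : (2 : ℝ) ≤ n := by exact_mod_cast hn
      linarith
    have hom := (om_pos (n := n)).le
    have hp := hΨ0 ζ
    calc η ^ 2 * (β * ((n - 1 : ℝ) * om n * (979 / 1000) ^ (n - 2) / 8) * Ψ ζ)
        ≤ η ^ 2 * (‖ζ‖ * ((n - 1 : ℝ) * om n * (979 / 1000) ^ (n - 2) / 8) * Ψ ζ) := by gcongr
      _ = η ^ 2 * ((n - 1 : ℝ) * om n * (979 / 1000) ^ (n - 2) / (8 * ‖ζ‖)) * (‖ζ‖ ^ 2 * Ψ ζ) := by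
          field_simp
      _ ≤ _ := by gcongr
  · rw [hψ, Set.indicator_of_notMem hζ, Set.indicator_of_notMem hζ]; simp

lemma integral_ind_prod {F : Type*} [Fintype F] [MeasurableSpace F] [MeasurableSingletonClass F]
    (ν : Measure (E n)) [IsFiniteMeasure ν] {ind : E n → F} (hi : Measurable ind)
    (φ : F → F → ℝ) : Integrable (fun p : E n × E n => φ (ind p.1) (ind p.2)) (ν.prod ν) ∧
    ∫ p, φ (ind p.1) (ind p.2) ∂(ν.prod ν) =
      ∑ f, ν.real (ind ⁻¹' {f}) * ∑ g, ν.real (ind ⁻¹' {g}) * φ f g := by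
  have hi2 : Measurable (Prod.map ind ind) := hi.prodMap hi
  have i1 : Integrable (fun p : E n × E n => φ (ind p.1) (ind p.2)) (ν.prod ν) :=
    (Integrable.of_finite (μ := (ν.prod ν).map (Prod.map ind ind))
      (f := fun q => φ q.1 q.2)).comp_measurable hi2
  refine ⟨i1, ?_⟩
  rw [integral_prod _ i1]
  simp only
  simp_rw [fun ξ => integral_ind ν hi (φ (ind ξ))]
  exact integral_ind ν hi fun f => ∑ g, ν.real (ind ⁻¹' {g}) * φ f g

theorem caseB {Ω : Set (E n)} (hm : MeasurableSet Ω) (hb : Bornology.IsBounded Ω)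
    (hV : 0 < volume.real Ω) (hn : 4 ≤ n)
    (L : Submodule ℂ (E n → ℂ)) [FiniteDimensional ℂ L] (hL : ∀ u ∈ L, Test u)
    (hΩ : ∀ u ∈ L, tsupport u ⊆ Ω) (hR : ∀ u ∈ L, energy Ω u ≤ 4 * π ^ 2 * mass Ω u)
    {β τ : ℝ} (hβ : 0 < β) (hτ : 0 < τ) (hτV : (π / τ) ^ ((n : ℝ) / 2) * volume.real Ω ≤ 1)
    {m : ℕ} (hm1 : 1 ≤ m) (h : 4 * (m * (13 * τ) ^ 2) ≤
      β * ((n - 1 : ℝ) * om n * (979 / 1000) ^ (n - 2) / 8) *
        ∫ ζ in mid n β, ‖ft (chi Ω) ζ‖ ^ 2) :
    NeuOK Ω (Module.finrank ℂ L + m) := by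
  obtain ⟨D, hD⟩ := hb.exists_norm_le
  have hf : volume Ω ≠ ⊤ := hb.measure_lt_top.ne
  have hc := continuous_ft (integrable_chi hm hf)
  set X := β * ((n - 1 : ℝ) * om n * (979 / 1000) ^ (n - 2) / 8) *
    ∫ ζ in mid n β, ‖ft (chi Ω) ζ‖ ^ 2 with hX
  have hX0 : 0 < X := lt_of_lt_of_le (by positivity) h
  set C := 2 * n * 2 ^ (n - 1) * om n with hC
  have hC0 : 0 < C := by
    have := om_pos (n := n)
    have : 0 < n := by omega
    positivity
  set Φ : E n → ℝ := fun ζ => ‖ζ‖ ^ 2 * ‖ft (chi Ω) ζ‖ ^ 2 with hΦ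
  have hΦc : Continuous Φ := by fun_prop
  obtain ⟨δ, hδ0, hδ⟩ := Metric.uniformContinuousOn_iff.mp
    ((isCompact_closedBall (0 : E n) 4).uniformContinuousOn_of_continuous hΦc.continuousOn)
    (X / (2 * C ^ 2)) (by positivity)
  obtain ⟨η, hη, hη1, hηβ, hηδ, hητ⟩ : ∃ η : ℝ, 0 < η ∧ η ≤ 1 / 1000 ∧ η ≤ 2 * β ^ 2 ∧ 4 * η < δ ∧
      2 * (C * ((2 * π * (2 * η) * D) ^ 2 * volume.real Ω)) < 2 / 5 * τ := by
    have e1 : ∀ᶠ η : ℝ in 𝓝 0, η ≤ 1 / 1000 := eventually_le_nhds (by norm_num)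
    have e2 : ∀ᶠ η : ℝ in 𝓝 0, η ≤ 2 * β ^ 2 := eventually_le_nhds (by positivity)
    have e3 : ∀ᶠ η : ℝ in 𝓝 0, 4 * η < δ :=
      (by fun_prop : Continuous fun η : ℝ => 4 * η).continuousAt.eventually_lt
        continuousAt_const (by simpa using hδ0)
    have e4 : ∀ᶠ η : ℝ in 𝓝 0,
        2 * (C * ((2 * π * (2 * η) * D) ^ 2 * volume.real Ω)) < 2 / 5 * τ :=
      (by fun_prop : Continuous fun η : ℝ =>
        2 * (C * ((2 * π * (2 * η) * D) ^ 2 * volume.real Ω))).continuousAt.eventually_lt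
        continuousAt_const (by simpa using hτ)
    obtain ⟨η, h1, h2⟩ := (eventually_mem_nhdsWithin.and
      (((e1.and (e2.and (e3.and e4)))).filter_mono nhdsWithin_le_nhds)).exists (f := 𝓝[>] (0 : ℝ))
    exact ⟨η, h1, h2⟩
  set ν : Measure (E n) := volume.restrict (shell n η) with hν
  have : IsFiniteMeasure ν := ⟨by simpa [hν] using (shell_finite hη (by linarith)).lt_top⟩
  have hM : ν.real Set.univ ≤ η * C := by
    rw [hν, measureReal_restrict_apply_univ]; exact vol_shell_le hη (by linarith)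
  have : Nontrivial (E n) := by
    have : Nonempty (Fin n) := ⟨⟨0, by omega⟩⟩
    infer_instance
  obtain ⟨N, x, ind, hi, hxK, hx⟩ := exists_round (isCompact_sphere (0 : E n) 1)
    (NormedSpace.sphere_nonempty.mpr zero_le_one) hη
  have hx1 : ∀ f, ‖x f‖ = 1 := fun f => mem_sphere_zero_iff_norm.mp (hxK f)
  have hnear : ∀ ξ ∈ shell n η, ‖ξ - x (ind ξ)‖ ≤ 2 * η := fun ξ hξ => by
    obtain ⟨y, hy, hξy⟩ := shell_near (by linarith) hξ
    linarith [hx ξ y hy]
  have hG := gram_le hm hb hV hD ν x hi (δ := 2 * η) (τ := η * (2 * π * τ)) (τ' := η * (13 * τ))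
    (by
      rw [hν, ae_restrict_iff' (measurableSet_shell η)]
      exact Eventually.of_forall hnear)
    (fun g hg hg2 hl => shell_bound hg hg2 hV.le hl hn hτ hτV hη (by linarith))
    (by
      have e1 : ν.real Set.univ * ((2 * π * (2 * η) * D) ^ 2 * volume.real Ω) ≤
          η * C * ((2 * π * (2 * η) * D) ^ 2 * volume.real Ω) := by gcongr
      have e2 := mul_le_mul_of_nonneg_left hητ.le hη.le
      have e3 : η * τ * π ≤ η * τ * 3.15 := by gcongr; exact Real.pi_lt_d2.le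
      linarith)
    (by positivity)
  refine neu_sphere hm hb L hL hΩ hR x (fun f => ν.real (ind ⁻¹' {f}))
    (fun f => measureReal_nonneg) (by positivity) hG hx1 ?_
  obtain ⟨i1, e1⟩ := integral_ind_prod ν hi (fun f g => Φ (x f - x g))
  obtain ⟨i2, e2⟩ := shell_conv (n := n) (by omega) (Ψ := fun ζ => ‖ft (chi Ω) ζ‖ ^ 2)
    (by fun_prop) (fun ζ => by positivity) hβ hη hη1 hηβ
  rw [← e1]
  have h1 : ∫ p : E n × E n, ((mid n β).indicator Φ (p.1 - p.2) - X / (2 * C ^ 2)) ∂(ν.prod ν) ≤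
      ∫ p, Φ (x (ind p.1) - x (ind p.2)) ∂(ν.prod ν) := by
    refine integral_mono_ae (i2.sub (integrable_const _)) i1 ?_
    rw [hν, Measure.prod_restrict]
    filter_upwards [ae_restrict_mem ((measurableSet_shell η).prod (measurableSet_shell η))]
      with p hp
    have a1 := hnear _ hp.1
    have a2 := hnear _ hp.2
    have a3 : ‖x (ind p.1) - x (ind p.2)‖ ≤ 2 := by
      have := norm_sub_le (x (ind p.1)) (x (ind p.2))
      rw [hx1, hx1] at this; linarith
    have a4 : dist (p.1 - p.2) (x (ind p.1) - x (ind p.2)) ≤ 4 * η := by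
      rw [dist_eq_norm]
      have : p.1 - p.2 - (x (ind p.1) - x (ind p.2)) =
        (p.1 - x (ind p.1)) - (p.2 - x (ind p.2)) := by abel
      rw [this]
      linarith [norm_sub_le (p.1 - x (ind p.1)) (p.2 - x (ind p.2))]
    have a5 : ‖p.1 - p.2‖ ≤ 4 := by
      have := norm_le_norm_add_norm_sub' (p.1 - p.2) (x (ind p.1) - x (ind p.2))
      rw [dist_eq_norm] at a4
      linarith
    have a6 := hδ _ (mem_closedBall_zero_iff.mpr a5) _
      (mem_closedBall_zero_iff.mpr (a3.trans (by norm_num))) (a4.trans_lt hηδ)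
    have a7 : (mid n β).indicator Φ (p.1 - p.2) ≤ Φ (p.1 - p.2) :=
      Set.indicator_le_self' (fun _ _ => by positivity) _
    rw [Real.dist_eq] at a6
    linarith [(abs_lt.mp a6).2]
  rw [integral_sub i2 (integrable_const _), integral_const, smul_eq_mul] at h1
  have h2 : (ν.prod ν).real Set.univ * (X / (2 * C ^ 2)) ≤ η ^ 2 * X / 2 := by
    rw [← Set.univ_prod_univ, measureReal_prod_prod]
    calc ν.real Set.univ * ν.real Set.univ * (X / (2 * C ^ 2))
        ≤ (η * C) * (η * C) * (X / (2 * C ^ 2)) := by gcongr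
      _ = _ := by field_simp
  have h3 := mul_le_mul_of_nonneg_left h (sq_nonneg η)
  have h4 : η ^ 2 * X ≤
    ∫ p : E n × E n, (mid n β).indicator Φ (p.1 - p.2) ∂(ν.prod ν) := e2
  linarith

end Pool.Agent.P.MP_f791b6_an
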