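import Pool.Agent.P.MP_f791b6_an.Cases

namespace Pool.Agent.P.MP_f791b6_an

open MeasureTheory Metric
open scoped Real ContDiff

variable {n : ℕ}

lemma poly_le_exp {A c : ℝ} {p N : ℕ} (hN : 0 < N) (h0 : A * (N : ℝ) ^ p ≤ c ^ N)
    (h1 : (1 + 1 / (N : ℝ)) ^ p ≤ c) {n : ℕ} (hn : N ≤ n) : A * (n : ℝ) ^ p ≤ c ^ n := by
  induction n, hn using Nat.le_induction with
  | base => exact h0
  | succ k hk ih =>
    have hN' : (0 : ℝ) < N := by exact_mod_cast hN
    have hk' : (N : ℝ) ≤ k := by exact_mod_cast hk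
    have hk0 : (0 : ℝ) < k := by linarith
    have hc : 0 ≤ c := le_trans (by positivity) h1
    have e1 : ((k + 1 : ℕ) : ℝ) = k * (1 + 1 / k) := by push_cast; field_simp
    calc A * ((k + 1 : ℕ) : ℝ) ^ p = A * (k : ℝ) ^ p * (1 + 1 / (k : ℝ)) ^ p := by
          rw [e1, mul_pow, mul_assoc]
      _ ≤ c ^ k * (1 + 1 / (N : ℝ)) ^ p := by gcongr
      _ ≤ c ^ k * c := by gcongr
      _ = c ^ (k + 1) := by ring

lemma num1 (hn : 1000 ≤ n) : 3000000 * (n : ℝ) ^ 5 ≤ (423 / 400) ^ n := by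
  refine poly_le_exp (N := 1000) (by norm_num) ?_ (by norm_num) hn
  have h : (200 : ℝ) ≤ (423 / 400) ^ 100 := by norm_num
  calc 3000000 * ((1000 : ℕ) : ℝ) ^ 5 ≤ 200 ^ 10 := by norm_num
    _ ≤ ((423 / 400) ^ 100) ^ 10 := by gcongr
    _ = _ := by rw [← pow_mul]

lemma num2 (hn : 1000 ≤ n) : 128 * (n : ℝ) ^ 2 ≤ Real.exp (((n : ℝ) / 8 - 1 / 8) * (4 / 25)) := by
  have h1 : 131 * (n : ℝ) ^ 2 ≤ (51 / 50) ^ n := by
    refine poly_le_exp (N := 1000) (by norm_num) ?_ (by norm_num) hn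
    have h : (7 : ℝ) ≤ (51 / 50) ^ 100 := by norm_num
    calc 131 * ((1000 : ℕ) : ℝ) ^ 2 ≤ 7 ^ 10 := by norm_num
      _ ≤ ((51 / 50) ^ 100) ^ 10 := by gcongr
      _ = _ := by rw [← pow_mul]
  have h2 : (51 / 50 : ℝ) ^ n ≤ Real.exp (1 / 50) ^ n :=
    pow_le_pow_left₀ (by norm_num) (by linarith [Real.add_one_le_exp (1 / 50)]) n
  have h3 : Real.exp (((n : ℝ) / 8 - 1 / 8) * (4 / 25)) =
      Real.exp (1 / 50) ^ n * Real.exp (-(1 / 50)) := by
    rw [← Real.exp_nat_mul, ← Real.exp_add]; congr 1; ring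
  have h4 := Real.add_one_le_exp (-(1 / 50))
  rw [h3]
  calc 128 * (n : ℝ) ^ 2 ≤ (131 * (n : ℝ) ^ 2) * (49 / 50) := by nlinarith [sq_nonneg (n : ℝ)]
    _ ≤ _ := mul_le_mul (h1.trans h2) (by linarith) (by norm_num) (by positivity)

/-- The power `x ^ (n / 2)`. -/
noncomputable def pw (n : ℕ) (x : ℝ) : ℝ := x ^ ((n : ℝ) / 2)

lemma pw_mul {x y : ℝ} (hx : 0 ≤ x) (hy : 0 ≤ y) : pw n (x * y) = pw n x * pw n y :=
  Real.mul_rpow hx hy

lemma pw_pos {x : ℝ} (hx : 0 < x) : 0 < pw n x := Real.rpow_pos_of_pos hx _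

lemma pw_mono {x y : ℝ} (hx : 0 ≤ x) (h : x ≤ y) : pw n x ≤ pw n y :=
  Real.rpow_le_rpow hx h (by positivity)

lemma pw_sq {x : ℝ} (hx : 0 ≤ x) : pw n (x ^ 2) = x ^ n := by
  rw [pw, ← Real.rpow_natCast x 2, ← Real.rpow_mul hx, ← Real.rpow_natCast]
  congr 1; push_cast; ring

lemma pw_exp (t : ℝ) : pw n (Real.exp t) = Real.exp (t * (n / 2)) := by
  rw [pw, ← Real.exp_mul]

lemma pw_pow {x : ℝ} (hx : 0 ≤ x) (j : ℕ) : pw n (x ^ j) = pw n x ^ j := by
  rw [pw, pw, ← Real.rpow_natCast, ← Real.rpow_mul hx, mul_comm, Real.rpow_mul hx,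
    Real.rpow_natCast]

theorem faber_krahn {Ω : Set (E n)} (hm : MeasurableSet Ω) (hf : volume Ω ≠ ⊤) (hn : 5 ≤ n)
    (hV : 0 < volume.real Ω)
    (h : ∀ a : ℝ, 0 < a → Real.exp (-(4 * a)) ≤ pw n (π / (4 * a)) * GI (chi Ω) a) :
    (1091 / 1000 : ℝ) ^ n ≤ 2 * n * (om n * volume.real Ω) := by
  have hn0 : (0 : ℝ) < n := by exact_mod_cast (by omega : 0 < n)
  set V := volume.real Ω with hVd
  set a : ℝ := 3 * n / 16 with ha
  have ha0 : 0 < a := by positivity
  have h1 := h a ha0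
  have h2 : GI (chi Ω) a ^ 2 ≤ V ^ 3 * pw n (π / (2 * a)) := GI_chi_sq hm hf hV ha0
  have h3 : pw n (2 * π * Real.exp 1 / n) ≤ 2 * n * om n := om_ge hn
  have h4 : Real.exp (-(4 * a)) ^ 2 ≤ pw n (π / (4 * a)) ^ 2 * (V ^ 3 * pw n (π / (2 * a))) := by
    refine (pow_le_pow_left₀ (Real.exp_pos _).le h1 2).trans ?_
    rw [mul_pow]; gcongr
  have h5 : Real.exp (-(4 * a)) ^ 2 = pw n (Real.exp (-1) ^ 3) := by
    rw [← Real.exp_nat_mul, ← Real.exp_nat_mul, pw_exp, ha]; congr 1; push_cast; ring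
  have h6 : pw n (Real.exp (-1) ^ 3) * pw n (2 * π * Real.exp 1 / n) ^ 3 =
      pw n (27 / 16) * (pw n (π / (4 * a)) ^ 2 * pw n (π / (2 * a))) := by
    rw [← pw_pow (by positivity), ← pw_pow (by positivity), ← pw_mul (by positivity) (by positivity),
      ← pw_mul (by positivity) (by positivity), ← pw_mul (by positivity) (by positivity)]
    congr 1
    rw [Real.exp_neg, ha]; field_simp; ring
  have hp : 0 < pw n (π / (4 * a)) ^ 2 * pw n (π / (2 * a)) :=
    mul_pos (pow_pos (pw_pos (by positivity)) 2) (pw_pos (by positivity))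
  have h7 : pw n (27 / 16) ≤ (2 * n * (om n * V)) ^ 3 := by
    refine le_of_mul_le_mul_right ?_ hp
    rw [← h6, ← h5]
    have := (pw_pos (n := n) (show 0 < 2 * π * Real.exp 1 / n by positivity)).le
    have := (pw_pos (n := n) (show 0 < π / (2 * a) by positivity)).le
    calc Real.exp (-(4 * a)) ^ 2 * pw n (2 * π * Real.exp 1 / n) ^ 3
        ≤ (pw n (π / (4 * a)) ^ 2 * (V ^ 3 * pw n (π / (2 * a)))) * (2 * n * om n) ^ 3 := by
          gcongr
      _ = _ := by ring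
  have h8 : ((1091 / 1000 : ℝ) ^ n) ^ 3 ≤ pw n (27 / 16) := by
    rw [← pw_sq (n := n) (x := 1091 / 1000) (by norm_num), ← pw_pow (by positivity)]
    exact pw_mono (by positivity) (by norm_num)
  have := om_pos (n := n)
  exact le_of_pow_le_pow_left₀ (by norm_num) (by positivity) (h8.trans h7)

theorem core {Ω : Set (E n)} (hm : MeasurableSet Ω) (hb : Bornology.IsBounded Ω) (hn : 1000 ≤ n)
    (L : Submodule ℂ (E n → ℂ)) {k : ℕ} (hk : Module.finrank ℂ L = k) (hk1 : 1 ≤ k)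
    (hL : ∀ u ∈ L, Test u) (hΩ : ∀ u ∈ L, tsupport u ⊆ Ω)
    (hR : ∀ u ∈ L, energy Ω u ≤ 4 * π ^ 2 * mass Ω u) {m : ℕ} (hm1 : (m : ℝ) ≤ (101 / 100) ^ n) :
    NeuOK Ω (k + m) := by
  have : FiniteDimensional ℂ L := Module.finite_of_finrank_pos (by omega)
  have hf : volume Ω ≠ ⊤ := hb.measure_lt_top.ne
  rcases Nat.eq_zero_or_pos m with rfl | hm0
  · rw [← hk]
    exact filonov hm hb L hL hΩ hR (fun _ : Fin 0 => 0) (fun _ => 0) (Or.inr fun f => f.elim0)
      (0 : (Fin 0 → ℂ) →ₗ[ℂ] (Fin 0 → ℂ)) fun a ha => absurd (Subsingleton.elim a 0) ha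
  have hn' : (1000 : ℝ) ≤ n := by exact_mod_cast hn
  have hk' : (1 : ℝ) ≤ k := by exact_mod_cast hk1
  have hzero : ∀ g : E n → ℂ, tsupport g ⊆ Ω → ∀ x ∉ Ω, g x = 0 := fun g hg x hx =>
    image_eq_zero_of_notMem_tsupport fun h => hx (hg h)
  have heat : ∀ a : ℝ, 0 < a → k * Real.exp (-(4 * a)) ≤ pw n (π / (4 * a)) * GI (chi Ω) a := by
    intro a ha
    refine heat_bound hm hf L hk hL (fun u hu => hzero u (hΩ u hu)) (fun u hu => ?_) ha
    have h1 := hR u hu
    rw [energy, mass, setIntegral_eq_integral_of_forall_compl_eq_zero,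
      setIntegral_eq_integral_of_forall_compl_eq_zero] at h1
    · exact h1
    · intro x hx; simp [hzero u (hΩ u hu) x hx]
    · intro x hx
      refine Finset.sum_eq_zero fun j _ => ?_
      have := hzero (pd j u) ((tsupport_fderiv_apply_subset ℝ _).trans (hΩ u hu)) x hx
      rw [pd] at this
      simp [this]
  set V := volume.real Ω with hVd
  have hV : 0 < V := by
    have h1 := heat 1 one_pos
    have h2 := GI_chi_le hm hf (a := 1) one_pos
    have h3 : 0 < (k : ℝ) * Real.exp (-(4 * 1)) := by positivity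
    have h4 := pw_pos (n := n) (show 0 < π / (4 * 1) by positivity)
    exact ((mul_pos_iff_of_pos_left h4).mp (h3.trans_le h1)).trans_le h2
  have hom := om_pos (n := n)
  have hFK := faber_krahn hm hf (by omega) hV fun a ha =>
    (le_mul_of_one_le_left (Real.exp_pos _).le hk').trans (heat a ha)
  rw [← hVd] at hFK
  set W := om n * V with hW
  have hW0 : 0 < W := by positivity
  have hnum := num1 hn
  by_cases hcase : 16 * n * (k : ℝ) ≤ W
  · refine caseA hm hb hV (by omega) ?_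
    have h1 : 32 * (n : ℝ) ^ 2 * m ≤ 2 * n * W := by
      calc 32 * (n : ℝ) ^ 2 * m ≤ (3000000 * (n : ℝ) ^ 5) * (101 / 100) ^ n := by
            gcongr
            · norm_num
            · linarith
            · norm_num
        _ ≤ (423 / 400) ^ n * (101 / 100) ^ n := by gcongr
        _ ≤ (1091 / 1000) ^ n := by
            rw [← mul_pow]; exact pow_le_pow_left₀ (by norm_num) (by norm_num) n
        _ ≤ _ := hFK
    have h2 : 16 * n * (m : ℝ) ≤ W := by
      refine le_of_mul_le_mul_left ?_ (show (0 : ℝ) < 2 * n by positivity)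
      linarith
    push_cast; linarith
  push Not at hcase
  have hom1 : pw n (2 * π * Real.exp 1 / n) ≤ 2 * n * om n := om_ge (by omega)
  have hGI : V / (32 * n ^ 2) ≤ GI (chi Ω) (n / 8) := by
    have h1 := heat (n / 8) (by positivity)
    have hG0 : 0 ≤ GI (chi Ω) (n / 8) := integral_nonneg fun ξ => by positivity
    have h2 : pw n (2 * π * Real.exp 1 / n) = pw n (π / (4 * (n / 8))) * Real.exp (4 * (n / 8)) := by
      have : Real.exp (4 * ((n : ℝ) / 8)) = pw n (Real.exp 1) := by rw [pw_exp]; congr 1; ring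
      rw [this, ← pw_mul (by positivity) (by positivity)]
      congr 1; field_simp; ring
    have h3 : (k : ℝ) ≤ 2 * n * om n * GI (chi Ω) (n / 8) := by
      calc (k : ℝ) = k * Real.exp (-(4 * (n / 8))) * Real.exp (4 * (n / 8)) := by
            rw [mul_assoc, ← Real.exp_add]; simp
        _ ≤ pw n (π / (4 * (n / 8))) * GI (chi Ω) (n / 8) * Real.exp (4 * (n / 8)) := by gcongr
        _ = pw n (2 * π * Real.exp 1 / n) * GI (chi Ω) (n / 8) := by rw [h2]; ring
        _ ≤ _ := by gcongr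
    rw [div_le_iff₀ (by positivity)]
    refine le_of_mul_le_mul_left ?_ hom
    calc om n * V ≤ 16 * n * k := hcase.le
      _ ≤ 16 * n * (2 * n * om n * GI (chi Ω) (n / 8)) := by gcongr
      _ = _ := by ring
  obtain ⟨β, hβ, hβn⟩ : ∃ β : ℝ, 0 < β ∧ β ^ n = (128 * n ^ 2 * W)⁻¹ :=
    ⟨((128 * n ^ 2 * W)⁻¹) ^ ((n : ℝ)⁻¹), by positivity,
      Real.rpow_inv_natCast_pow (by positivity) (by omega)⟩
  have hβ1 : β ≤ 1000 / 1091 := by
    refine le_of_pow_le_pow_left₀ (n := n) (by omega) (by norm_num) ?_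
    rw [hβn, ← inv_div, inv_pow]
    refine inv_anti₀ (by positivity) (hFK.trans ?_)
    exact mul_le_mul_of_nonneg_right (by nlinarith) hW0.le
  have hmid : V / (64 * n ^ 2) ≤ ∫ ζ in mid n β, ‖ft (chi Ω) ζ‖ ^ 2 := by
    have h1 := mid_mass hm hf hβ (a := n / 8) (by linarith)
    rw [← hVd] at h1
    have h2 : V ^ 2 * (β ^ n * om n) = V / (128 * n ^ 2) := by rw [hβn, hW]; field_simp
    have h3 : Real.exp (-(((n : ℝ) / 8 - 1 / 8) * (4 / 25))) * V ≤ V / (128 * n ^ 2) := by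
      rw [Real.exp_neg, mul_comm, ← div_eq_mul_inv]
      have := num2 hn
      gcongr
    have h4 : V / (32 * n ^ 2) = 4 * (V / (128 * n ^ 2)) := by field_simp; ring
    have h5 : V / (64 * n ^ 2) = 2 * (V / (128 * n ^ 2)) := by field_simp; ring
    linarith
  rw [← hk]
  refine caseB hm hb hV (by omega) L hL hΩ hR hβ (τ := n / (5 * β ^ 2)) (by positivity) ?_ hm0 ?_
  · change pw n _ * V ≤ 1
    have h1 : π / (n / (5 * β ^ 2)) = (5 * π / n) * β ^ 2 := by field_simp
    have h2 : pw n (5 * π / n) ≤ pw n (2 * π * Real.exp 1 / n) := by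
      refine pw_mono (by positivity) ?_
      have := Real.exp_one_gt_d9
      have := Real.pi_pos
      gcongr ?_ / n
      nlinarith
    rw [h1, pw_mul (by positivity) (by positivity), pw_sq hβ.le]
    calc pw n (5 * π / n) * β ^ n * V ≤ (2 * n * om n) * β ^ n * V := by
          gcongr; exact h2.trans hom1
      _ = 1 / (64 * n) := by rw [hβn, hW]; field_simp; ring
      _ ≤ 1 := by rw [div_le_one (by positivity)]; linarith
  · refine le_trans ?_ (mul_le_mul_of_nonneg_left hmid (by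
      have : (0 : ℝ) ≤ n - 1 := by linarith
      positivity))
    obtain ⟨j, rfl⟩ : ∃ j, n = j + 5 := ⟨n - 5, by omega⟩
    set N : ℝ := ((j + 5 : ℕ) : ℝ) with hN
    have hW1 : W = (128 * N ^ 2 * (β ^ j * β ^ 5))⁻¹ := by
      rw [← pow_add, hβn]; field_simp
    have e1 : β * ((N - 1) * om (j + 5) * (979 / 1000) ^ (j + 5 - 2) / 8) * (V / (64 * N ^ 2)) =
        β * (N - 1) * (979 / 1000) ^ (j + 3) / (512 * N ^ 2) * W := by
      rw [hW, show j + 5 - 2 = j + 3 by omega]; field_simp; ring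
    rw [e1, hW1]
    have hβj : β ^ j ≤ (1000 / 1091) ^ j := pow_le_pow_left₀ hβ.le hβ1 j
    have key : (676 / 25 * 65536) * N ^ 6 * (m * β ^ j) ≤ (N - 1) * (979 / 1000) ^ (j + 3) := by
      have k1 : (101 / 100 : ℝ) ^ (j + 5) * (1000 / 1091) ^ j * (423 / 400) ^ (j + 5) ≤
          (8 / 5) * (979 / 1000) ^ (j + 3) := by
        have k2 : (101 / 100 * (1000 / 1091) * (423 / 400) : ℝ) ^ j ≤ (979 / 1000) ^ j :=
          pow_le_pow_left₀ (by norm_num) (by norm_num) j
        calc (101 / 100 : ℝ) ^ (j + 5) * (1000 / 1091) ^ j * (423 / 400) ^ (j + 5)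
            = (101 / 100 * (423 / 400)) ^ 5 * (101 / 100 * (1000 / 1091) * (423 / 400)) ^ j := by
              rw [mul_pow, mul_pow, mul_pow, pow_add, pow_add]; ring
          _ ≤ ((8 / 5) * (979 / 1000) ^ 3) * (979 / 1000) ^ j :=
              mul_le_mul (by norm_num) k2 (by positivity) (by positivity)
          _ = _ := by rw [pow_add]; ring
      have k3 : m * β ^ j * (3000000 * N ^ 5) ≤ (8 / 5) * (979 / 1000) ^ (j + 3) :=
        le_trans (by gcongr) k1
      have k4 : (0 : ℝ) ≤ m * β ^ j * N ^ 5 := by positivity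
      calc (676 / 25 * 65536) * N ^ 6 * (m * β ^ j)
          = ((676 / 25 * 65536) * N) * (m * β ^ j * N ^ 5) := by ring
        _ ≤ ((N - 1) * 1875000) * (m * β ^ j * N ^ 5) :=
            mul_le_mul_of_nonneg_right (by linarith) k4
        _ = (N - 1) * ((5 / 8) * (m * β ^ j * (3000000 * N ^ 5))) := by ring
        _ ≤ _ := mul_le_mul_of_nonneg_left (by linarith) (by linarith)
    have hN0 : 0 < N := by linarith
    rw [← div_eq_mul_inv, div_div, le_div_iff₀ (by positivity)]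
    calc 4 * (m * (13 * (N / (5 * β ^ 2))) ^ 2) * (512 * N ^ 2 * (128 * N ^ 2 * (β ^ j * β ^ 5)))
        = β * ((676 / 25 * 65536) * N ^ 6 * (m * β ^ j)) := by field_simp; ring
      _ ≤ β * ((N - 1) * (979 / 1000) ^ (j + 3)) := by gcongr
      _ = _ := by ring

end Pool.Agent.P.MP_f791b6_an
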