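import Mathlib

/-!
Min-max Dirichlet and Neumann eigenvalues of the Laplacian on a subset of Euclidean space.
-/

namespace Pool.Agent.P.MP_f791b6_an

open MeasureTheory
open scoped ENNReal ContDiff

/-- Euclidean space of dimension `n`. -/
abbrev E (n : ℕ) := EuclideanSpace ℝ (Fin n)

/-- Dirichlet energy: the integral over `Ω` of the sum of the squared moduli of the
first order derivatives in the coordinate directions. -/
noncomputable def energy {n : ℕ} (Ω : Set (E n)) (u : E n → ℂ) : ℝ :=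
  ∫ x in Ω, ∑ j : Fin n, ‖fderiv ℝ u x (EuclideanSpace.single j (1 : ℝ))‖ ^ 2

/-- Squared `L²(Ω)` norm. -/
noncomputable def mass {n : ℕ} (Ω : Set (E n)) (u : E n → ℂ) : ℝ :=
  ∫ x in Ω, ‖u x‖ ^ 2

/-- Supremum of the Rayleigh quotient over the nonzero functions of a space `L`. -/
noncomputable def rayleighSup {n : ℕ} (Ω : Set (E n)) (L : Submodule ℂ (E n → ℂ)) : ℝ≥0∞ :=
  ⨆ (u : E n → ℂ) (_ : u ∈ L) (_ : u ≠ 0), ENNReal.ofReal (energy Ω u / mass Ω u)

/-- The `k`-th Dirichlet min-max value: test functions are smooth with compact support in `Ω`. -/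
noncomputable def dirichletEig {n : ℕ} (Ω : Set (E n)) (k : ℕ) : ℝ≥0∞ :=
  ⨅ (L : Submodule ℂ (E n → ℂ)) (_ : Module.finrank ℂ L = k)
    (_ : ∀ u ∈ L, ContDiff ℝ ∞ u ∧ HasCompactSupport u ∧ tsupport u ⊆ Ω), rayleighSup Ω L

/-- The `k`-th Neumann min-max value: test functions are restrictions to `Ω` of smooth functions
on the whole space; the space `L` has to restrict injectively to `Ω`. -/
noncomputable def neumannEig {n : ℕ} (Ω : Set (E n)) (k : ℕ) : ℝ≥0∞ :=
  ⨅ (L : Submodule ℂ (E n → ℂ)) (_ : Module.finrank ℂ L = k)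
    (_ : ∀ u ∈ L, ContDiff ℝ ∞ u ∧ ((∀ x ∈ Ω, u x = 0) → u = 0)), rayleighSup Ω L

end Pool.Agent.P.MP_f791b6_an
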