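import Pool.Agent.P.MP_f791b6_an.Filonov

namespace Pool.Agent.P.MP_f791b6_an

open MeasureTheory Complex Metric
open scoped ComplexConjugate Real FourierTransform RealInnerProductSpace ContDiff

variable {n : ℕ} {F : Type*} [Fintype F]

lemma exists_round {K : Set (E n)} (hK : IsCompact K) (hne : K.Nonempty) {ε : ℝ} (hε : 0 < ε) :
    ∃ (N : ℕ) (x : Fin (N + 1) → E n) (ind : E n → Fin (N + 1)), Measurable ind ∧
      (∀ i, x i ∈ K) ∧ ∀ ξ, ∀ y ∈ K, ‖ξ - x (ind ξ)‖ ≤ dist ξ y + ε := by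
  obtain ⟨t, htK, htf, hcov⟩ := finite_cover_balls_of_compact hK hε
  have htne : t.Nonempty := by
    obtain ⟨y, hy⟩ := hne
    obtain ⟨z, hz, -⟩ := Set.mem_iUnion₂.mp (hcov hy)
    exact ⟨z, hz⟩
  obtain ⟨e, he⟩ := htf.countable.exists_eq_range htne
  have h1 : ∀ z ∈ t, ∃ k, e k = z := fun z hz => by rw [he] at hz; exact hz
  choose! idx hidx using h1
  obtain ⟨N, hN⟩ := (htf.image idx).bddAbove
  refine ⟨N, fun i => e i, fun ξ => ⟨SimpleFunc.nearestPtInd e N ξ,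
    Nat.lt_succ_of_le (SimpleFunc.nearestPtInd_le e N ξ)⟩, ?_, fun i => htK ?_, fun ξ y hy => ?_⟩
  · refine measurable_to_countable' fun i => ?_
    convert (SimpleFunc.nearestPtInd e N).measurableSet_fiber i using 1
    ext ξ; simp [Fin.ext_iff]
  · rw [he]; exact ⟨_, rfl⟩
  · obtain ⟨z, hz, hyz⟩ := Set.mem_iUnion₂.mp (hcov hy)
    have h2 := SimpleFunc.edist_nearestPt_le e ξ (hN ⟨z, hz, rfl⟩)
    rw [hidx z hz, edist_dist, edist_dist, ENNReal.ofReal_le_ofReal_iff dist_nonneg] at h2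
    have h3 : dist z ξ ≤ dist ξ y + ε := by
      have := dist_triangle ξ y z
      rw [dist_comm z]; linarith [mem_ball.mp hyz]
    rw [← dist_eq_norm, dist_comm]
    exact h2.trans h3

lemma integral_ind [MeasurableSpace F] [MeasurableSingletonClass F] (ν : Measure (E n))
    [IsFiniteMeasure ν] {ind : E n → F} (hi : Measurable ind) (φ : F → ℝ) :
    ∫ ξ, φ (ind ξ) ∂ν = ∑ f, ν.real (ind ⁻¹' {f}) * φ f := by
  rw [← integral_map hi.aemeasurable (Integrable.of_finite (μ := ν.map ind)).aestronglyMeasurable,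
    integral_fintype Integrable.of_finite]
  refine Finset.sum_congr rfl fun f _ => ?_
  rw [map_measureReal_apply hi (measurableSet_singleton f), smul_eq_mul]

lemma integrable_ind [MeasurableSpace F] [MeasurableSingletonClass F] (ν : Measure (E n))
    [IsFiniteMeasure ν] {ind : E n → F} (hi : Measurable ind) (φ : F → ℝ) :
    Integrable (fun ξ => φ (ind ξ)) ν :=
  (Integrable.of_finite (μ := ν.map ind) (f := φ)).comp_measurable hi

lemma l1_sq_le {Ω : Set (E n)} (hm : MeasurableSet Ω) (hf : volume Ω ≠ ⊤)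
    (hV : 0 < volume.real Ω) {g : E n → ℂ} (hg : Integrable g)
    (hg2 : Integrable (fun x => ‖g x‖ ^ 2)) (h0 : ∀ x ∉ Ω, g x = 0) :
    (∫ x, ‖g x‖) ^ 2 ≤ volume.real Ω * ∫ x, ‖g x‖ ^ 2 := by
  set V := volume.real Ω with hVd
  set A := ∫ x, ‖g x‖ with hA
  have hA0 : 0 ≤ A := integral_nonneg fun x => norm_nonneg _
  have ic := (integrable_chi hm hf).norm
  have h1 : 2 * (A * V) * A ≤ A ^ 2 * V + V ^ 2 * ∫ x, ‖g x‖ ^ 2 := by
    calc 2 * (A * V) * A = ∫ x, 2 * (A * V) * ‖g x‖ := by rw [integral_const_mul]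
      _ ≤ ∫ x, (A ^ 2 * ‖chi Ω x‖ + V ^ 2 * ‖g x‖ ^ 2) := by
          refine integral_mono (hg.norm.const_mul _) ((ic.const_mul _).add (hg2.const_mul _))
            fun x => ?_
          by_cases hx : x ∈ Ω
          · simp only [chi, Set.indicator_of_mem hx, norm_one, mul_one]
            nlinarith [sq_nonneg (A - V * ‖g x‖)]
          · simp only [h0 x hx, norm_zero, mul_zero]; positivity
      _ = _ := by
          rw [integral_add (ic.const_mul _) (hg2.const_mul _), integral_const_mul,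
            integral_const_mul, integral_norm_chi hm]
  refine le_of_mul_le_mul_left ?_ hV
  nlinarith

theorem gram_le [MeasurableSpace F] [MeasurableSingletonClass F] {Ω : Set (E n)}
    (hm : MeasurableSet Ω) (hb : Bornology.IsBounded Ω) (hV : 0 < volume.real Ω) {D : ℝ}
    (hD : ∀ y ∈ Ω, ‖y‖ ≤ D) (ν : Measure (E n)) [IsFiniteMeasure ν] (x : F → E n)
    {ind : E n → F} (hi : Measurable ind) {δ τ τ' : ℝ} (hδ : ∀ᵐ ξ ∂ν, ‖ξ - x (ind ξ)‖ ≤ δ)
    (hτ : ∀ g : E n → ℂ, Integrable g → Integrable (fun y => ‖g y‖ ^ 2) →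
      (∫ x, ‖g x‖) ^ 2 ≤ volume.real Ω * ∫ x, ‖g x‖ ^ 2 →
      ∫ ξ, ‖ft g ξ‖ ^ 2 ∂ν ≤ τ * ∫ y, ‖g y‖ ^ 2)
    (hτ' : 2 * τ + 2 * (ν.real Set.univ * ((2 * π * δ * D) ^ 2 * volume.real Ω)) ≤ τ')
    (hτ0 : 0 < τ') (c : F → ℂ) :
    qf (Gm Ω x fun f => √(ν.real (ind ⁻¹' {f}))) c ≤ τ' * ∑ f, ‖c f‖ ^ 2 := by
  set s : F → ℝ := fun f => √(ν.real (ind ⁻¹' {f})) with hs
  have hf : volume Ω ≠ ⊤ := hb.measure_lt_top.ne
  rw [← mass_trig hm hb]
  set v := trig x s c with hv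
  have hvc : Continuous v := (contDiff_trig x s c).continuous
  set g := Ω.indicator v with hg
  have ig : Integrable g := (integrable_indicator_iff hm).mpr (integrableOn_of_cont hb hvc)
  have eg : (fun y => ‖g y‖ ^ 2) = Ω.indicator fun y => ‖v y‖ ^ 2 := by
    funext y; by_cases hy : y ∈ Ω <;> simp [hg, hy]
  have ig2 : Integrable (fun y => ‖g y‖ ^ 2) := by
    rw [eg]; exact (integrable_indicator_iff hm).mpr (integrableOn_of_cont hb (by fun_prop))
  have em : ∫ y, ‖g y‖ ^ 2 = mass Ω v := by rw [eg, integral_indicator hm, mass]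
  have hl1 := l1_sq_le hm hf hV ig ig2 (fun y hy => by simp [hg, hy])
  have h1 := hτ g ig ig2 hl1
  rw [em] at h1 hl1
  set M := mass Ω v with hM
  have hM0 : 0 ≤ M := mass_nonneg _ _
  have hcf := continuous_ft ig
  have ift : Integrable (fun ξ => ‖ft g ξ‖ ^ 2) ν :=
    Integrable.of_bound (by fun_prop) ((∫ x, ‖g x‖) ^ 2) (Filter.Eventually.of_forall fun ξ => by
      rw [Real.norm_eq_abs, abs_of_nonneg (by positivity)]
      exact pow_le_pow_left₀ (norm_nonneg _) (norm_ft_le g ξ) 2)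
  have hD0 : 0 ≤ D := by
    obtain ⟨y, hy⟩ := nonempty_of_measure_ne_zero (μ := volume) (s := Ω) (by
      intro h; simp [measureReal_def, h] at hV)
    exact (norm_nonneg _).trans (hD y hy)
  have h2 : ∑ f, s f ^ 2 * ‖ft g (x f)‖ ^ 2 ≤ τ' * M := by
    simp only [hs, Real.sq_sqrt measureReal_nonneg]
    rw [← integral_ind ν hi (fun f => ‖ft g (x f)‖ ^ 2)]
    calc ∫ ξ, ‖ft g (x (ind ξ))‖ ^ 2 ∂ν
        ≤ ∫ ξ, (2 * ‖ft g ξ‖ ^ 2 + 2 * ((2 * π * δ * D) ^ 2 * (volume.real Ω * M))) ∂ν := by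
          refine integral_mono_ae (integrable_ind ν hi (fun f => ‖ft g (x f)‖ ^ 2))
            ((ift.const_mul _).add (integrable_const _)) ?_
          filter_upwards [hδ] with ξ hξ
          have h3 := norm_ft_sub_le ig (D := D) (fun y hy => hD y (by
            by_contra h; exact hy (by simp [hg, h]))) ξ (x (ind ξ))
          have hA0 : 0 ≤ ∫ x, ‖g x‖ := integral_nonneg fun x => norm_nonneg _
          have h4 : ‖ft g ξ - ft g (x (ind ξ))‖ ≤ 2 * π * δ * D * ∫ x, ‖g x‖ :=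
            h3.trans (by gcongr)
          have h5 : ‖ft g ξ - ft g (x (ind ξ))‖ ^ 2 ≤ (2 * π * δ * D) ^ 2 * (volume.real Ω * M) := by
            refine (pow_le_pow_left₀ (norm_nonneg _) h4 2).trans ?_
            rw [mul_pow]; gcongr
          have h6 : ‖ft g (x (ind ξ))‖ ≤ ‖ft g ξ‖ + ‖ft g ξ - ft g (x (ind ξ))‖ := by
            have := norm_sub_le (ft g ξ) (ft g ξ - ft g (x (ind ξ)))
            rwa [sub_sub_cancel] at this
          have h7 := pow_le_pow_left₀ (norm_nonneg _) h6 2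
          nlinarith [sq_nonneg (‖ft g ξ‖ - ‖ft g ξ - ft g (x (ind ξ))‖)]
      _ = 2 * ∫ ξ, ‖ft g ξ‖ ^ 2 ∂ν +
            2 * (ν.real Set.univ * ((2 * π * δ * D) ^ 2 * volume.real Ω)) * M := by
          rw [integral_add (ift.const_mul _) (integrable_const _), integral_const_mul,
            integral_const, smul_eq_mul]; ring
      _ ≤ (2 * τ + 2 * (ν.real Set.univ * ((2 * π * δ * D) ^ 2 * volume.real Ω))) * M := by
          linarith
      _ ≤ τ' * M := by gcongr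
  have h3 : M ≤ ∑ f, ‖c f‖ * (s f * ‖ft g (x f)‖) := by
    have e1 : (M : ℂ) = ∑ f, conj (c f) * s f * ft g (x f) := by
      rw [hM, mass_eq, inner_trig hb x s c hvc]
      simp only [hg, ft_indicator hm]
    calc M ≤ ‖(M : ℂ)‖ := by rw [Complex.norm_real]; exact le_abs_self _
      _ ≤ _ := by
        rw [e1]
        refine (norm_sum_le _ _).trans (le_of_eq (Finset.sum_congr rfl fun f _ => ?_))
        rw [norm_mul, norm_mul, Complex.norm_conj, Complex.norm_real, Real.norm_eq_abs,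
          abs_of_nonneg (Real.sqrt_nonneg _), mul_assoc]
  have h4 : 2 * τ' * ∑ f, ‖c f‖ * (s f * ‖ft g (x f)‖) ≤
      τ' ^ 2 * ∑ f, ‖c f‖ ^ 2 + ∑ f, s f ^ 2 * ‖ft g (x f)‖ ^ 2 := by
    rw [Finset.mul_sum, Finset.mul_sum, ← Finset.sum_add_distrib]
    exact Finset.sum_le_sum fun f _ => by nlinarith [sq_nonneg (τ' * ‖c f‖ - s f * ‖ft g (x f)‖)]
  refine le_of_mul_le_mul_left ?_ hτ0
  nlinarith

lemma neg_le_qf_Qm {Ω : Set (E n)} (hm : MeasurableSet Ω) (hb : Bornology.IsBounded Ω)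
    (x : F → E n) (s : F → ℝ) (c : F → ℂ) : -qf (Gm Ω x s) c ≤ qf (Qm Ω x s) c := by
  have h1 := energy_trig hm hb x s c
  have h2 := energy_nonneg Ω (trig x s c)
  rw [mass_trig hm hb] at h1
  have hπ : 0 < 4 * π ^ 2 := by positivity
  refine le_of_mul_le_mul_left ?_ hπ
  linarith

theorem neu_low {Ω : Set (E n)} (hm : MeasurableSet Ω) (hb : Bornology.IsBounded Ω)
    (x : F → E n) (w : F → ℝ) (hw : ∀ f, 0 ≤ w f) {τ r : ℝ} (hτ : 0 < τ)
    (hG : ∀ c, qf (Gm Ω x fun f => √(w f)) c ≤ τ * ∑ f, ‖c f‖ ^ 2)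
    (hx : ∀ f, ‖x f‖ ≤ r) {m : ℕ} (h : m * τ ≤ (1 - r ^ 2) * (∑ f, w f) * volume.real Ω) :
    NeuOK Ω m := by
  classical
  have hq1 : ∀ c : F → ℂ, qf (1 : Matrix F F ℂ) c = ∑ f, ‖c f‖ ^ 2 := fun c => by
    simp [qf, dotProduct, Complex.conj_mul', ← ofReal_pow]
  obtain ⟨Φ, hΦ⟩ := exists_neg_space (Qm Ω x fun f => √(w f)) 1 (Qm_isHermitian hm _ _) τ 1 m hτ
    one_pos (fun c => (neg_le_neg (hG c)).trans (neg_le_qf_Qm hm hb _ _ c))
    (fun c => by rw [hq1]; positivity) (fun c => by rw [hq1, one_mul]) (by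
      rw [mul_one, Matrix.mul_one, Matrix.trace, Complex.re_sum, ← Finset.sum_neg_distrib]
      refine h.trans ?_
      rw [Finset.mul_sum, Finset.sum_mul]
      refine Finset.sum_le_sum fun f _ => ?_
      have e1 : ft (chi Ω) 0 = (volume.real Ω : ℝ) := by
        rw [chi, ft_indicator hm]; simp
      simp only [Matrix.diag, Qm, Gm, sub_self, e1]
      rw [← ofReal_mul, ← ofReal_mul, ← ofReal_mul, ofReal_re, Real.mul_self_sqrt (hw f),
        real_inner_self_eq_norm_sq]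
      have h1 := pow_le_pow_left₀ (norm_nonneg _) (hx f) 2
      have h2 : 0 ≤ w f * volume.real Ω := mul_nonneg (hw f) measureReal_nonneg
      nlinarith)
  have := filonov hm hb ⊥ (fun u hu => by
      rw [Submodule.mem_bot] at hu; subst hu; exact ⟨contDiff_const, HasCompactSupport.zero⟩)
    (fun u hu => by rw [Submodule.mem_bot] at hu; subst hu; simp)
    (fun u hu => by rw [Submodule.mem_bot] at hu; subst hu; simp [energy, mass]) x _ (Or.inl rfl)
    Φ hΦ
  simpa using this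

theorem neu_sphere {Ω : Set (E n)} (hm : MeasurableSet Ω) (hb : Bornology.IsBounded Ω)
    (L : Submodule ℂ (E n → ℂ)) [FiniteDimensional ℂ L] (hL : ∀ u ∈ L, Test u)
    (hΩ : ∀ u ∈ L, tsupport u ⊆ Ω) (hR : ∀ u ∈ L, energy Ω u ≤ 4 * π ^ 2 * mass Ω u)
    (x : F → E n) (w : F → ℝ) (hw : ∀ f, 0 ≤ w f) {τ : ℝ} (hτ : 0 < τ)
    (hG : ∀ c, qf (Gm Ω x fun f => √(w f)) c ≤ τ * ∑ f, ‖c f‖ ^ 2)
    (hx : ∀ f, ‖x f‖ = 1) {m : ℕ}
    (h : 2 * (m * (τ * τ)) ≤
      ∑ f, w f * ∑ g, w g * (‖x f - x g‖ ^ 2 * ‖ft (chi Ω) (x f - x g)‖ ^ 2)) :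
    NeuOK Ω (Module.finrank ℂ L + m) := by
  classical
  obtain ⟨Φ, hΦ⟩ := exists_neg_space (Qm Ω x fun f => √(w f)) (Gm Ω x fun f => √(w f))
    (Qm_isHermitian hm _ _) τ τ m hτ
    hτ (fun c => (neg_le_neg (hG c)).trans (neg_le_qf_Qm hm hb _ _ c))
    (fun c => by rw [← mass_trig hm hb]; exact mass_nonneg _ _) hG (by
      refine le_of_mul_le_mul_left (h.trans (le_of_eq ?_)) two_pos
      rw [Matrix.trace, Complex.re_sum, ← Finset.sum_neg_distrib, Finset.mul_sum]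
      refine Finset.sum_congr rfl fun f _ => ?_
      rw [Matrix.diag, Matrix.mul_apply, Complex.re_sum, ← Finset.sum_neg_distrib, Finset.mul_sum,
        Finset.mul_sum]
      refine Finset.sum_congr rfl fun g _ => ?_
      have e1 : Qm Ω x (fun f => √(w f)) f g * Gm Ω x (fun f => √(w f)) g f =
          (((⟪x f, x g⟫ - 1) * ((√(w f) * √(w f)) * (√(w g) * √(w g))) *
            ‖ft (chi Ω) (x f - x g)‖ ^ 2 : ℝ) : ℂ) := by
        simp only [Qm, Gm]
        rw [← conj_ft_chi_sub hm (x f) (x g)]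
        push_cast
        rw [← Complex.mul_conj']; ring
      rw [e1, ofReal_re, Real.mul_self_sqrt (hw f), Real.mul_self_sqrt (hw g), norm_sub_sq_real,
        hx, hx]
      ring)
  exact filonov hm hb L hL hΩ hR x _ (Or.inr hx) Φ hΦ

end Pool.Agent.P.MP_f791b6_an
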