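import Pool.Agent.P.MP_f791b6_an.Gauss

namespace Pool.Agent.P.MP_f791b6_an

open MeasureTheory Complex
open scoped ComplexConjugate Real FourierTransform RealInnerProductSpace

variable {n : ℕ}

/-- Thin spherical shell. -/
def shell (n : ℕ) (η : ℝ) : Set (E n) := {ξ | |‖ξ‖ ^ 2 - 1| ≤ η}

lemma measurableSet_shell (η : ℝ) : MeasurableSet (shell n η) :=
  (isClosed_le (by fun_prop) continuous_const).measurableSet

lemma gauss_one_dim {η : ℝ} (hη : 0 < η) (y : ℝ) :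
    ∫ t : ℝ, cexp (I * y * t) * cexp (-((η ^ 2 : ℝ) : ℂ) * t ^ 2) =
      ((√π / η * Real.exp (-y ^ 2 / (4 * η ^ 2)) : ℝ) : ℂ) := by
  rw [fourierIntegral_gaussian (by rw [ofReal_re]; positivity)]
  have h1 : ((π : ℂ) / ((η ^ 2 : ℝ) : ℂ)) ^ (1 / 2 : ℂ) = ((√π / η : ℝ) : ℂ) := by
    have : √π / η = (π / η ^ 2) ^ (1 / 2 : ℝ) := by
      rw [← Real.sqrt_eq_rpow, Real.sqrt_div Real.pi_pos.le, Real.sqrt_sq hη.le]
    rw [this, ofReal_cpow (by positivity)]
    push_cast; rfl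
  rw [h1]; push_cast; rfl

lemma integral_lorentz {τ : ℝ} (hτ : 0 < τ) :
    Integrable (fun t : ℝ => (1 + (t / τ) ^ 2)⁻¹) ∧ ∫ t : ℝ, (1 + (t / τ) ^ 2)⁻¹ = τ * π := by
  constructor
  · exact integrable_inv_one_add_sq.comp_div hτ.ne'
  · rw [Measure.integral_comp_div (fun x : ℝ => (1 + x ^ 2)⁻¹) τ, integral_univ_inv_one_add_sq,
      abs_of_pos hτ, smul_eq_mul]

theorem shell_bound {g : E n → ℂ} (hg : Integrable g) (hg2 : Integrable (fun x => ‖g x‖ ^ 2))
    {V τ η : ℝ} (hV0 : 0 ≤ V) (hV : (∫ x, ‖g x‖) ^ 2 ≤ V * ∫ x, ‖g x‖ ^ 2) (hn : 4 ≤ n)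
    (hτ : 0 < τ) (hτV : (π / τ) ^ ((n : ℝ) / 2) * V ≤ 1) (hη : 0 < η) (hη1 : η ≤ 1) :
    ∫ ξ in shell n η, ‖ft g ξ‖ ^ 2 ≤ η * (2 * π * τ) * ∫ x, ‖g x‖ ^ 2 := by
  have hc := continuous_ft hg
  set M := ∫ x, ‖g x‖ ^ 2 with hM
  have hM0 : 0 ≤ M := integral_nonneg fun x => by positivity
  set w : E n → ℝ := fun ξ => Real.exp (-(1 / 8) * ‖ξ‖ ^ 2) * ‖ft g ξ‖ ^ 2 *
    (√π / η * Real.exp (-(‖ξ‖ ^ 2 - 1) ^ 2 / (4 * η ^ 2))) with hw
  have iG := integrable_GI hg (a := 1 / 8) (by norm_num)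
  have iw : Integrable w := by
    refine iG.mul_bdd (c := √π / η) (by fun_prop) (Filter.Eventually.of_forall fun ξ => ?_)
    rw [Real.norm_eq_abs, abs_of_nonneg (by positivity)]
    refine mul_le_of_le_one_right (by positivity) (Real.exp_le_one_iff.mpr ?_)
    have : 0 ≤ (‖ξ‖ ^ 2 - 1) ^ 2 / (4 * η ^ 2) := by positivity
    rw [neg_div]; linarith
  have step1 : ∫ ξ in shell n η, ‖ft g ξ‖ ^ 2 ≤ η * ∫ ξ, w ξ := by
    rw [← integral_indicator (measurableSet_shell η), ← integral_const_mul]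
    refine integral_mono_of_nonneg (Filter.Eventually.of_forall fun ξ => ?_) (iw.const_mul _)
      (Filter.Eventually.of_forall fun ξ => ?_)
    · exact Set.indicator_nonneg (fun _ _ => by positivity) _
    · by_cases hξ : ξ ∈ shell n η
      · simp only [Set.indicator_of_mem hξ, hw]
        have h1 : |‖ξ‖ ^ 2 - 1| ≤ η := hξ
        have h2 : (‖ξ‖ ^ 2 - 1) ^ 2 ≤ η ^ 2 := by
          rw [← sq_abs]; exact pow_le_pow_left₀ (abs_nonneg _) h1 2
        have h3 : -(1 / 4 : ℝ) ≤ -(‖ξ‖ ^ 2 - 1) ^ 2 / (4 * η ^ 2) := by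
          rw [le_div_iff₀ (by positivity)]; linarith
        have h4 : -(1 / 4 : ℝ) ≤ -(1 / 8) * ‖ξ‖ ^ 2 := by
          have := (abs_le.mp h1).2; linarith
        have h5 : Real.exp (1 / 2) ≤ √π := by
          refine Real.le_sqrt_of_sq_le ?_
          rw [← Real.exp_nat_mul]
          have := Real.exp_one_lt_d9
          have := Real.pi_gt_three
          norm_num; linarith
        have h6 : 1 ≤ Real.exp (-(1 / 8) * ‖ξ‖ ^ 2) * √π *
            Real.exp (-(‖ξ‖ ^ 2 - 1) ^ 2 / (4 * η ^ 2)) := by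
          calc (1 : ℝ) = Real.exp (-(1 / 4)) * Real.exp (1 / 2) * Real.exp (-(1 / 4)) := by
                rw [← Real.exp_add, ← Real.exp_add]; norm_num
            _ ≤ _ := by gcongr
        calc ‖ft g ξ‖ ^ 2 ≤ (Real.exp (-(1 / 8) * ‖ξ‖ ^ 2) * √π *
            Real.exp (-(‖ξ‖ ^ 2 - 1) ^ 2 / (4 * η ^ 2))) * ‖ft g ξ‖ ^ 2 :=
              le_mul_of_one_le_left (by positivity) h6
          _ = _ := by field_simp
      · simp only [Set.indicator_of_notMem hξ, hw]; positivity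
  set F : E n → ℝ → ℂ := fun ξ t => ((Real.exp (-(1 / 8) * ‖ξ‖ ^ 2) * ‖ft g ξ‖ ^ 2 : ℝ) : ℂ) *
    cexp (-((η ^ 2 : ℝ) : ℂ) * t ^ 2) * cexp (I * ((‖ξ‖ ^ 2 - 1 : ℝ) : ℂ) * t) with hF
  have iF : Integrable (Function.uncurry F) (volume.prod volume) := by
    have i1 : Integrable (fun t : ℝ => cexp (-((η ^ 2 : ℝ) : ℂ) * t ^ 2)) :=
      integrable_cexp_neg_mul_sq (by rw [ofReal_re]; positivity)
    refine (iG.ofReal.mul_prod i1).mul_bdd (c := 1) (by fun_prop)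
      (Filter.Eventually.of_forall fun p => ?_)
    rw [mul_assoc, ← ofReal_mul, Complex.norm_exp_I_mul_ofReal]
  have step2 : ((∫ ξ, w ξ : ℝ) : ℂ) = ∫ t : ℝ, ∫ ξ, F ξ t := by
    rw [← integral_integral_swap iF, ← integral_complex_ofReal]
    refine integral_congr_ae (Filter.Eventually.of_forall fun ξ => ?_)
    simp only [hw, hF]
    rw [ofReal_mul, ← gauss_one_dim hη, ← integral_const_mul]
    refine integral_congr_ae (Filter.Eventually.of_forall fun t => ?_)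
    simp only; ring
  have step3 : ∀ t : ℝ, ‖∫ ξ, F ξ t‖ ≤ 2 * M * (1 + (t / τ) ^ 2)⁻¹ := by
    intro t
    set b : ℂ := (1 / 8 : ℝ) - I * t with hb
    have hbre : b.re = 1 / 8 := by simp [hb]
    have e1 : ∫ ξ, F ξ t = cexp (-((η ^ 2 : ℝ) : ℂ) * t ^ 2) * cexp (I * ((-t : ℝ) : ℂ)) *
        ∫ ξ : E n, cexp (-b * ‖ξ‖ ^ 2) * ((‖ft g ξ‖ ^ 2 : ℝ) : ℂ) := by
      rw [← integral_const_mul]
      refine integral_congr_ae (Filter.Eventually.of_forall fun ξ => ?_)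
      simp only [hF]
      have : cexp (I * ((-t : ℝ) : ℂ)) * cexp (-b * ‖ξ‖ ^ 2) =
          ((Real.exp (-(1 / 8) * ‖ξ‖ ^ 2) : ℝ) : ℂ) * cexp (I * ((‖ξ‖ ^ 2 - 1 : ℝ) : ℂ) * t) := by
        rw [ofReal_exp, ← Complex.exp_add, ← Complex.exp_add, hb]
        congr 1; push_cast; ring
      rw [ofReal_mul]
      linear_combination (-cexp (-((η ^ 2 : ℝ) : ℂ) * t ^ 2) * ((‖ft g ξ‖ ^ 2 : ℝ) : ℂ)) * this
    have e2 : ‖cexp (-((η ^ 2 : ℝ) : ℂ) * t ^ 2)‖ ≤ 1 := by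
      rw [Complex.norm_exp, Real.exp_le_one_iff, ← ofReal_pow, ← ofReal_neg, ← ofReal_mul,
        ofReal_re]
      have : 0 ≤ η ^ 2 * t ^ 2 := by positivity
      linarith
    rw [e1, norm_mul, norm_mul, Complex.norm_exp_I_mul_ofReal, mul_one]
    refine (mul_le_of_le_one_left (norm_nonneg _) e2).trans ?_
    by_cases ht : |t| ≤ τ
    · refine (norm_gauss_le' g b).trans ((GI_le hg hg2 (by rw [hbre]; norm_num)).trans ?_)
      have h1 : (t / τ) ^ 2 ≤ 1 := by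
        rw [div_pow, div_le_one (by positivity), ← sq_abs]
        exact pow_le_pow_left₀ (abs_nonneg _) ht 2
      rw [← div_eq_mul_inv, le_div_iff₀ (by positivity)]
      nlinarith
    · push Not at ht
      have ht0 : 0 < |t| := hτ.trans ht
      refine (norm_gauss_le hg (by rw [hbre]; norm_num)).trans ?_
      have hbn : |t| ≤ ‖b‖ := by
        have := Complex.abs_im_le_norm b
        simpa [hb] using this
      have h1 : (π / ‖b‖) ^ ((n : ℝ) / 2) ≤ (π / τ) ^ ((n : ℝ) / 2) * (τ / |t|) ^ 2 := by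
        calc (π / ‖b‖) ^ ((n : ℝ) / 2) ≤ (π / τ * (τ / |t|)) ^ ((n : ℝ) / 2) := by
              refine Real.rpow_le_rpow (by positivity) ?_ (by positivity)
              have : π / τ * (τ / |t|) = π / |t| := by field_simp
              rw [this]; gcongr
          _ = (π / τ) ^ ((n : ℝ) / 2) * (τ / |t|) ^ ((n : ℝ) / 2) :=
              Real.mul_rpow (by positivity) (by positivity)
          _ ≤ (π / τ) ^ ((n : ℝ) / 2) * (τ / |t|) ^ (2 : ℝ) := by
              refine mul_le_mul_of_nonneg_left ?_ (by positivity)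
              refine Real.rpow_le_rpow_of_exponent_ge (by positivity)
                ((div_le_one ht0).mpr ht.le) ?_
              have : (4 : ℝ) ≤ n := by exact_mod_cast hn
              linarith
          _ = _ := by rw [Real.rpow_two]
      have h2 : (τ / |t|) ^ 2 ≤ 2 * (1 + (t / τ) ^ 2)⁻¹ := by
        have h3 : τ ^ 2 ≤ t ^ 2 := by
          rw [← sq_abs t]; exact pow_le_pow_left₀ hτ.le ht.le 2
        have h4 : 0 < t ^ 2 := by rw [← sq_abs]; positivity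
        rw [← div_eq_mul_inv, le_div_iff₀ (by positivity), div_pow, div_pow, sq_abs]
        have ht1 : t ≠ 0 := abs_pos.mp ht0
        have : τ ^ 2 / t ^ 2 * (1 + t ^ 2 / τ ^ 2) = τ ^ 2 / t ^ 2 + 1 := by field_simp
        rw [this]
        have := (div_le_one h4).mpr h3
        linarith
      calc (π / ‖b‖) ^ ((n : ℝ) / 2) * (∫ x, ‖g x‖) ^ 2
          ≤ ((π / τ) ^ ((n : ℝ) / 2) * (τ / |t|) ^ 2) * (V * M) := by gcongr
        _ = ((π / τ) ^ ((n : ℝ) / 2) * V) * ((τ / |t|) ^ 2 * M) := by ring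
        _ ≤ 1 * ((2 * (1 + (t / τ) ^ 2)⁻¹) * M) := by gcongr
        _ = _ := by ring
  have step4 : ∫ ξ, w ξ ≤ 2 * π * τ * M := by
    have h1 : ∫ ξ, w ξ ≤ ‖((∫ ξ, w ξ : ℝ) : ℂ)‖ := by
      rw [Complex.norm_real]; exact le_abs_self _
    refine h1.trans ?_
    rw [step2]
    refine (norm_integral_le_of_norm_le ((integral_lorentz hτ).1.const_mul _)
      (Filter.Eventually.of_forall step3)).trans (le_of_eq ?_)
    rw [integral_const_mul, (integral_lorentz hτ).2]; ring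
  calc _ ≤ η * ∫ ξ, w ξ := step1
    _ ≤ η * (2 * π * τ * M) := by gcongr
    _ = _ := by ring

/-- Low frequency bound. -/
theorem ball_bound {g : E n → ℂ} (hg : Integrable g) (hg2 : Integrable (fun x => ‖g x‖ ^ 2))
    {S : Set (E n)} (hS : MeasurableSet S) (hS1 : ∀ ξ ∈ S, ‖ξ‖ ≤ 1) :
    ∫ ξ in S, ‖ft g ξ‖ ^ 2 ≤ (8 / 7) * ∫ x, ‖g x‖ ^ 2 := by
  have iG := integrable_GI hg (a := 1 / 8) (by norm_num)
  have h1 : ∫ ξ in S, ‖ft g ξ‖ ^ 2 ≤ (8 / 7) * GI g (1 / 8) := by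
    rw [← integral_indicator hS, GI, ← integral_const_mul]
    refine integral_mono_of_nonneg (Filter.Eventually.of_forall fun ξ => ?_) (iG.const_mul _)
      (Filter.Eventually.of_forall fun ξ => ?_)
    · exact Set.indicator_nonneg (fun _ _ => by positivity) _
    · by_cases hξ : ξ ∈ S
      · simp only [Set.indicator_of_mem hξ]
        have h2 : ‖ξ‖ ^ 2 ≤ 1 := pow_le_one₀ (norm_nonneg _) (hS1 ξ hξ)
        have h3 := Real.add_one_le_exp (-(1 / 8) * ‖ξ‖ ^ 2)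
        have h4 : 0 ≤ ‖ft g ξ‖ ^ 2 := by positivity
        nlinarith
      · simp only [Set.indicator_of_notMem hξ]; positivity
  exact h1.trans (mul_le_mul_of_nonneg_left (GI_le hg hg2 (by norm_num)) (by norm_num))

end Pool.Agent.P.MP_f791b6_an
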