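import Mathlib

namespace Pool.Agent.P.MP_f791b6_an

open Matrix Finset
open scoped ComplexConjugate

/-- Real quadratic form of a complex matrix. -/
noncomputable def qf {F : Type*} [Fintype F] (Q : Matrix F F ℂ) (c : F → ℂ) : ℝ :=
  (star c ⬝ᵥ (Q *ᵥ c)).re

lemma qf_eq {F : Type*} [Fintype F] (Q : Matrix F F ℂ) (c : F → ℂ) :
    qf Q c = (∑ f, ∑ g, conj (c f) * Q f g * c g).re := by
  simp only [qf, dotProduct, mulVec, Finset.mul_sum, Pi.star_apply, RCLike.star_def, mul_assoc]

theorem exists_neg_space {F : Type*} [Fintype F] [DecidableEq F] (Q B : Matrix F F ℂ)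
    (hQ : Q.IsHermitian) (τ β : ℝ) (m : ℕ) (hτ : 0 < τ) (hβ : 0 < β)
    (h1 : ∀ c : F → ℂ, -(τ * ∑ f, ‖c f‖ ^ 2) ≤ qf Q c)
    (h2 : ∀ c : F → ℂ, 0 ≤ qf B c) (h3 : ∀ c : F → ℂ, qf B c ≤ β * ∑ f, ‖c f‖ ^ 2)
    (h : m * (τ * β) ≤ -(trace (Q * B)).re) :
    ∃ Φ : (Fin m → ℂ) →ₗ[ℂ] (F → ℂ), ∀ a, a ≠ 0 → qf Q (Φ a) < 0 := by
  classical
  set v : F → F → ℂ := fun i => ⇑(hQ.eigenvectorBasis i) with hv
  set q := hQ.eigenvalues with hq
  have hQv : ∀ i, Q *ᵥ v i = (q i : ℂ) • v i := fun i => by
    have := hQ.mulVec_eigenvectorBasis i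
    rw [hv, hq]; simp only; rw [this]; ext f; simp
  have horth : ∀ i j, star (v i) ⬝ᵥ v j = if i = j then 1 else 0 := fun i j => by
    have := orthonormal_iff_ite.mp hQ.eigenvectorBasis.orthonormal i j
    rw [EuclideanSpace.inner_eq_star_dotProduct, dotProduct_comm] at this
    exact this
  have hnorm : ∀ i, ∑ f, ‖v i f‖ ^ 2 = 1 := fun i => by
    have h0 := hQ.eigenvectorBasis.orthonormal.1 i
    have h1 := EuclideanSpace.norm_sq_eq (hQ.eigenvectorBasis i)
    rw [h0] at h1
    simpa [hv] using h1.symm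
  have hqv : ∀ i, qf Q (v i) = q i := fun i => by
    simp [qf, hQv, horth]
  have htr : (trace (Q * B)).re = ∑ i, q i * qf B (v i) := by
    set U : Matrix F F ℂ := (hQ.eigenvectorUnitary : Matrix F F ℂ) with hU
    have hUU : U * star U = 1 := Unitary.coe_mul_star_self _
    have e1 : trace (Q * B) = trace (star U * (B * Q) * U) := by
      rw [Matrix.mul_assoc, trace_mul_comm (star U), Matrix.mul_assoc, hUU, Matrix.mul_one,
        trace_mul_comm]
    rw [e1, trace, Complex.re_sum]
    refine Finset.sum_congr rfl fun i _ => ?_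
    have e2 : (star U * (B * Q) * U).diag i = star (v i) ⬝ᵥ ((B * Q) *ᵥ v i) := by
      simp only [Matrix.diag, Matrix.mul_apply, dotProduct, mulVec, hU, hv, star_apply,
        IsHermitian.eigenvectorUnitary_apply, Finset.sum_mul, Finset.mul_sum, Pi.star_apply]
      rw [Finset.sum_comm]
      refine Finset.sum_congr rfl fun a _ => Finset.sum_congr rfl fun b _ =>
        Finset.sum_congr rfl fun c _ => by ring
    rw [e2, ← mulVec_mulVec, hQv, mulVec_smul, dotProduct_smul, qf]
    simp
  set s := Finset.univ.filter (fun i => q i < 0) with hs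
  have hcard : m ≤ s.card := by
    have hle : -(∑ i, q i * qf B (v i)) ≤ s.card * (τ * β) := by
      rw [← Finset.sum_neg_distrib]
      calc ∑ i, -(q i * qf B (v i)) ≤ ∑ i, (if q i < 0 then τ * β else 0) := by
            refine Finset.sum_le_sum fun i _ => ?_
            have a1 := h1 (v i); have a2 := h2 (v i); have a3 := h3 (v i)
            rw [hnorm, hqv] at a1; rw [hnorm] at a3
            split_ifs with hi
            · have : -q i * qf B (v i) ≤ τ * β :=
                mul_le_mul (by linarith) (by linarith) a2 hτ.le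
              linarith
            · have : 0 ≤ q i * qf B (v i) := mul_nonneg (by linarith) a2
              linarith
        _ = s.card * (τ * β) := by
            rw [← Finset.sum_filter, Finset.sum_const, nsmul_eq_mul]
    rw [htr] at h
    have : (m : ℝ) ≤ s.card := le_of_mul_le_mul_right (h.trans hle) (mul_pos hτ hβ)
    exact_mod_cast this
  obtain ⟨e, he⟩ : ∃ e : Fin m ↪ F, ∀ j, e j ∈ s := by
    obtain ⟨t, hts, htc⟩ := Finset.exists_subset_card_eq hcard
    refine ⟨(t.equivFinOfCardEq htc).symm.toEmbedding.trans (Function.Embedding.subtype _), ?_⟩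
    intro j; exact hts ((t.equivFinOfCardEq htc).symm j).2
  refine ⟨Fintype.linearCombination ℂ (fun j => v (e j)), fun a ha => ?_⟩
  have e3 : qf Q (Fintype.linearCombination ℂ (fun j => v (e j)) a)
      = ∑ j, q (e j) * ‖a j‖ ^ 2 := by
    rw [Fintype.linearCombination_apply, qf, mulVec_sum, star_sum, sum_dotProduct, Complex.re_sum]
    refine Finset.sum_congr rfl fun j _ => ?_
    rw [dotProduct_sum, Finset.sum_eq_single j]
    · rw [mulVec_smul, hQv, star_smul, smul_dotProduct, dotProduct_smul, dotProduct_smul, horth]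
      simp only [if_true, smul_eq_mul, mul_one, RCLike.star_def]
      rw [← mul_assoc, Complex.conj_mul', ← Complex.ofReal_pow, ← Complex.ofReal_mul,
        Complex.ofReal_re, mul_comm]
    · intro j' _ hj'
      rw [mulVec_smul, hQv, star_smul, smul_dotProduct, dotProduct_smul, dotProduct_smul, horth,
        if_neg (fun h => hj' (e.injective h).symm)]
      simp
    · simp
  rw [e3]
  obtain ⟨j0, hj0⟩ : ∃ j, a j ≠ 0 := by
    by_contra hh; push Not at hh; exact ha (funext hh)
  have hneg : ∀ j, q (e j) < 0 := fun j => (Finset.mem_filter.mp (he j)).2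
  calc ∑ j, q (e j) * ‖a j‖ ^ 2 < ∑ _j : Fin m, (0 : ℝ) :=
        Finset.sum_lt_sum (fun j _ => mul_nonpos_of_nonpos_of_nonneg (hneg j).le (sq_nonneg _))
          ⟨j0, Finset.mem_univ _, mul_neg_of_neg_of_pos (hneg j0) (by positivity)⟩
    _ = 0 := by simp

end Pool.Agent.P.MP_f791b6_an
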