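import Pool.Agent.P.MP_f791b6_an.Heat
import Pool.Agent.P.MP_f791b6_an.LinAlg

namespace Pool.Agent.P.MP_f791b6_an

open MeasureTheory Complex
open scoped ComplexConjugate Real FourierTransform RealInnerProductSpace ContDiff

variable {n : ℕ} {F : Type*} [Fintype F]

lemma integrableOn_of_cont {G : Type*} [NormedAddCommGroup G] {Ω : Set (E n)}
    (hb : Bornology.IsBounded Ω) {f : E n → G} (hf : Continuous f) : IntegrableOn f Ω :=
  (hf.continuousOn.integrableOn_compact hb.isCompact_closure).mono_set subset_closure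

lemma energy_eq_sum {Ω : Set (E n)} (hb : Bornology.IsBounded Ω) {u : E n → ℂ}
    (hu : ContDiff ℝ ∞ u) : energy Ω u = ∑ j, mass Ω (pd j u) := by
  unfold energy mass
  rw [← integral_finsetSum]
  · rfl
  · intro j _
    have := (contDiff_pd hu j).continuous
    exact integrableOn_of_cont hb (by fun_prop)

lemma mass_nonneg (Ω : Set (E n)) (u : E n → ℂ) : 0 ≤ mass Ω u :=
  integral_nonneg fun x => by positivity

lemma energy_nonneg (Ω : Set (E n)) (u : E n → ℂ) : 0 ≤ energy Ω u :=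
  integral_nonneg fun x => by positivity

lemma mass_eq (Ω : Set (E n)) (u : E n → ℂ) :
    (mass Ω u : ℂ) = ∫ x in Ω, conj (u x) * u x := by
  rw [mass, ← integral_complex_ofReal]
  simp [Complex.conj_mul']

lemma mass_add {Ω : Set (E n)} (hb : Bornology.IsBounded Ω) {u v : E n → ℂ}
    (hu : Continuous u) (hv : Continuous v) :
    mass Ω (u + v) = mass Ω u + mass Ω v + 2 * (∫ x in Ω, conj (v x) * u x).re := by
  have i1 : IntegrableOn (fun x => ‖u x‖ ^ 2) Ω := integrableOn_of_cont hb (by fun_prop)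
  have i2 : IntegrableOn (fun x => ‖v x‖ ^ 2) Ω := integrableOn_of_cont hb (by fun_prop)
  have i3 : IntegrableOn (fun x => conj (v x) * u x) Ω := integrableOn_of_cont hb (by fun_prop)
  have := integral_re i3
  simp only [RCLike.re_to_complex] at this
  unfold mass
  have i4 : IntegrableOn (fun x => ‖u x‖ ^ 2 + ‖v x‖ ^ 2) Ω := i1.add i2
  have i5 : IntegrableOn (fun x => 2 * (conj (v x) * u x).re) Ω := i3.re.const_mul 2
  rw [← this, ← integral_const_mul, ← integral_add i1 i2, ← integral_add i4 i5]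
  refine integral_congr_ae (Filter.Eventually.of_forall fun x => ?_)
  simp only [Pi.add_apply, ← Complex.normSq_eq_norm_sq, Complex.normSq_add]
  rw [mul_comm (u x)]

lemma pd_add {u v : E n → ℂ} (hu : ContDiff ℝ ∞ u) (hv : ContDiff ℝ ∞ v) (j : Fin n) :
    pd j (u + v) = pd j u + pd j v := by
  funext x
  simp only [pd, Pi.add_apply]
  rw [fderiv_add (hu.differentiable (by simp) x) (hv.differentiable (by simp) x)]
  rfl

/-- Trigonometric sums. -/
noncomputable def trig (x : F → E n) (s : F → ℝ) : (F → ℂ) →ₗ[ℂ] (E n → ℂ) where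
  toFun c := fun y => ∑ f, c f * s f * ew (x f) y
  map_add' c d := by ext y; simp [add_mul, Finset.sum_add_distrib]
  map_smul' r c := by ext y; simp [Finset.mul_sum, mul_assoc]

lemma trig_apply (x : F → E n) (s : F → ℝ) (c : F → ℂ) (y : E n) :
    trig x s c y = ∑ f, c f * s f * ew (x f) y := rfl

lemma contDiff_ew (ξ : E n) : ContDiff ℝ ∞ (ew ξ) := by
  unfold ew
  refine Complex.contDiff_exp.comp (contDiff_const.mul ?_)
  exact Complex.ofRealCLM.contDiff.comp (contDiff_const.mul (contDiff_const.inner ℝ contDiff_id))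

lemma contDiff_trig (x : F → E n) (s : F → ℝ) (c : F → ℂ) : ContDiff ℝ ∞ (trig x s c) :=
  ContDiff.sum fun f _ => contDiff_const.mul (contDiff_ew (x f))

lemma fderiv_ew (ξ y v : E n) : fderiv ℝ (ew ξ) y v = 2 * π * I * (⟪ξ, v⟫ : ℝ) * ew ξ y := by
  have h1 : HasFDerivAt (fun y : E n => I * ((2 * π * ⟪ξ, y⟫ : ℝ) : ℂ))
      (I • (Complex.ofRealCLM.comp ((2 * π) • innerSL ℝ ξ))) y :=
    (Complex.ofRealCLM.comp ((2 * π) • innerSL ℝ ξ)).hasFDerivAt.const_mul I
  have h2 := h1.cexp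
  have h3 : fderiv ℝ (ew ξ) y = _ := h2.fderiv
  rw [h3]
  simp [ew]; ring

lemma pd_trig (x : F → E n) (s : F → ℝ) (c : F → ℂ) (j : Fin n) :
    pd j (trig x s c) = trig x s (fun f => 2 * π * I * x f j * c f) := by
  funext y
  have hd : ∀ f, DifferentiableAt ℝ (ew (x f)) y := fun f =>
    (contDiff_ew (x f)).differentiable (by simp) y
  have : (trig x s c : E n → ℂ) = fun y => ∑ f, c f * s f * ew (x f) y := rfl
  rw [pd, this, fderiv_fun_sum (fun f _ => (hd f).const_mul _), trig_apply,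
    sum_apply]
  refine Finset.sum_congr rfl fun f _ => ?_
  rw [fderiv_const_mul (hd f), smul_apply, fderiv_ew]
  simp [EuclideanSpace.inner_single_right]; ring

/-- Gram matrix of the weighted plane waves. -/
noncomputable def Gm (Ω : Set (E n)) (x : F → E n) (s : F → ℝ) : Matrix F F ℂ :=
  fun f g => s f * s g * ft (chi Ω) (x f - x g)

/-- Matrix of the form `energy - 4 π ^ 2 mass`, divided by `4 π ^ 2`. -/
noncomputable def Qm (Ω : Set (E n)) (x : F → E n) (s : F → ℝ) : Matrix F F ℂ :=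
  fun f g => ((⟪x f, x g⟫ - 1 : ℝ) : ℂ) * Gm Ω x s f g

lemma ft_indicator {Ω : Set (E n)} (hm : MeasurableSet Ω) (g : E n → ℂ) (ξ : E n) :
    ft (Ω.indicator g) ξ = ∫ y in Ω, conj (ew ξ y) * g y := by
  rw [ft, ← integral_indicator hm]
  refine integral_congr_ae (Filter.Eventually.of_forall fun y => ?_)
  by_cases hy : y ∈ Ω <;> simp [hy]

lemma ft_chi_sub {Ω : Set (E n)} (hm : MeasurableSet Ω) (ξ η : E n) :
    ft (chi Ω) (ξ - η) = ∫ y in Ω, conj (ew ξ y) * ew η y := by
  rw [chi, ft_indicator hm]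
  refine integral_congr_ae (Filter.Eventually.of_forall fun y => ?_)
  simp only [mul_one]
  rw [sub_eq_add_neg, ew_add, map_mul, conj_ew (-η), neg_neg]

lemma conj_ft_chi_sub {Ω : Set (E n)} (hm : MeasurableSet Ω) (ξ η : E n) :
    conj (ft (chi Ω) (ξ - η)) = ft (chi Ω) (η - ξ) := by
  rw [ft_chi_sub hm, ft_chi_sub hm, ← integral_conj]
  simp [mul_comm]

omit [Fintype F] in
lemma Qm_isHermitian {Ω : Set (E n)} (hm : MeasurableSet Ω) (x : F → E n) (s : F → ℝ) :
    (Qm Ω x s).IsHermitian := by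
  ext f g
  simp only [Matrix.conjTranspose_apply, Qm, Gm, RCLike.star_def, map_mul, conj_ofReal,
    conj_ft_chi_sub hm, real_inner_comm (x f)]
  ring

lemma inner_trig {Ω : Set (E n)} (hb : Bornology.IsBounded Ω) (x : F → E n) (s : F → ℝ)
    (c : F → ℂ) {u : E n → ℂ} (hu : Continuous u) :
    ∫ y in Ω, conj (trig x s c y) * u y =
      ∑ f, conj (c f) * s f * ∫ y in Ω, conj (ew (x f) y) * u y := by
  simp only [trig_apply, map_sum, Finset.sum_mul]
  rw [integral_finsetSum _ fun f _ => integrableOn_of_cont hb (by fun_prop)]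
  refine Finset.sum_congr rfl fun f _ => ?_
  rw [← integral_const_mul]
  simp [mul_assoc]

lemma mass_trig' {Ω : Set (E n)} (hm : MeasurableSet Ω) (hb : Bornology.IsBounded Ω)
    (x : F → E n) (s : F → ℝ) (c : F → ℂ) :
    (mass Ω (trig x s c) : ℂ) = ∑ f, ∑ g, conj (c f) * Gm Ω x s f g * c g := by
  rw [mass_eq, inner_trig hb x s c (contDiff_trig x s c).continuous]
  refine Finset.sum_congr rfl fun f _ => ?_
  simp only [trig_apply, Finset.mul_sum]
  rw [integral_finsetSum _ fun g _ => integrableOn_of_cont hb (by fun_prop), Finset.mul_sum]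
  refine Finset.sum_congr rfl fun g _ => ?_
  rw [Gm, ft_chi_sub hm]
  have : ∀ y, conj (ew (x f) y) * (c g * s g * ew (x g) y) =
      (c g * s g) * (conj (ew (x f) y) * ew (x g) y) := fun y => by ring
  simp_rw [this]
  rw [integral_const_mul]; ring

lemma mass_trig {Ω : Set (E n)} (hm : MeasurableSet Ω) (hb : Bornology.IsBounded Ω)
    (x : F → E n) (s : F → ℝ) (c : F → ℂ) : mass Ω (trig x s c) = qf (Gm Ω x s) c := by
  rw [qf_eq, ← mass_trig' hm hb, ofReal_re]

lemma energy_trig {Ω : Set (E n)} (hm : MeasurableSet Ω) (hb : Bornology.IsBounded Ω)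
    (x : F → E n) (s : F → ℝ) (c : F → ℂ) :
    energy Ω (trig x s c) - 4 * π ^ 2 * mass Ω (trig x s c) = 4 * π ^ 2 * qf (Qm Ω x s) c := by
  rw [qf_eq, ← re_ofReal_mul, ← ofReal_re (_ - _)]
  congr 1
  rw [energy_eq_sum hb (contDiff_trig x s c)]
  push_cast
  simp_rw [pd_trig, mass_trig' hm hb]
  rw [Finset.sum_comm, Finset.mul_sum, Finset.mul_sum, ← Finset.sum_sub_distrib]
  refine Finset.sum_congr rfl fun f _ => ?_
  rw [Finset.sum_comm, Finset.mul_sum, Finset.mul_sum, ← Finset.sum_sub_distrib]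
  refine Finset.sum_congr rfl fun g _ => ?_
  have h1 : ∀ j, conj (2 * π * I * x f j * c f) * Gm Ω x s f g * (2 * π * I * x g j * c g) =
      4 * π ^ 2 * (conj (c f) * Gm Ω x s f g * c g) * ((x g j * x f j : ℝ) : ℂ) := fun j => by
    simp only [map_mul, conj_ofReal, conj_I, map_ofNat]
    push_cast
    linear_combination (-(4 * π ^ 2 * (conj (c f) * Gm Ω x s f g * c g) * (x g j * x f j))) * I_sq
  simp_rw [h1]
  rw [← Finset.mul_sum, ← ofReal_sum, Qm, PiLp.inner_apply]
  simp only [RCLike.inner_apply, conj_trivial]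
  push_cast; ring

/-- There is a `j`-dimensional Neumann test space at level `4 π ^ 2`. -/
def NeuOK (Ω : Set (E n)) (j : ℕ) : Prop :=
  ∃ L : Submodule ℂ (E n → ℂ), Module.finrank ℂ L = j ∧ ∀ u ∈ L, ContDiff ℝ ∞ u ∧
    ((∀ x ∈ Ω, u x = 0) → u = 0) ∧ energy Ω u ≤ 4 * π ^ 2 * mass Ω u

lemma neuOK_of_map {Ω : Set (E n)} {W : Type*} [AddCommGroup W] [Module ℂ W]
    (Φ : W →ₗ[ℂ] (E n → ℂ)) (h1 : ∀ w, ContDiff ℝ ∞ (Φ w))
    (h2 : ∀ w, (∀ x ∈ Ω, Φ w x = 0) → w = 0)
    (h3 : ∀ w, energy Ω (Φ w) ≤ 4 * π ^ 2 * mass Ω (Φ w)) : NeuOK Ω (Module.finrank ℂ W) := by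
  have hinj : Function.Injective Φ := by
    rw [injective_iff_map_eq_zero]
    intro w hw
    exact h2 w fun x _ => by rw [hw]; rfl
  refine ⟨LinearMap.range Φ, LinearMap.finrank_range_of_inj hinj, ?_⟩
  rintro u ⟨w, rfl⟩
  exact ⟨h1 w, fun h => by rw [h2 w h, map_zero], h3 w⟩

lemma mass_eq_zero {Ω : Set (E n)} {u : E n → ℂ} (h : ∀ x ∈ Ω, u x = 0) :
    mass Ω u = 0 :=
  setIntegral_eq_zero_of_forall_eq_zero fun x hx => by simp [h x hx]

theorem filonov {Ω : Set (E n)} (hm : MeasurableSet Ω) (hb : Bornology.IsBounded Ω)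
    (L : Submodule ℂ (E n → ℂ)) [FiniteDimensional ℂ L] (hL : ∀ u ∈ L, Test u)
    (hΩ : ∀ u ∈ L, tsupport u ⊆ Ω) (hR : ∀ u ∈ L, energy Ω u ≤ 4 * π ^ 2 * mass Ω u)
    (x : F → E n) (s : F → ℝ) (hx : L = ⊥ ∨ ∀ f, ‖x f‖ = 1) {m : ℕ}
    (Φ : (Fin m → ℂ) →ₗ[ℂ] (F → ℂ)) (hΦ : ∀ a, a ≠ 0 → qf (Qm Ω x s) (Φ a) < 0) :
    NeuOK Ω (Module.finrank ℂ L + m) := by
  have key : ∀ u ∈ L, ∀ c, energy Ω (u + trig x s c) - 4 * π ^ 2 * mass Ω (u + trig x s c) =
      (energy Ω u - 4 * π ^ 2 * mass Ω u) + 4 * π ^ 2 * qf (Qm Ω x s) c := by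
    intro u hu c
    rw [← energy_trig hm hb]
    rcases hx with hx | hx
    · rw [hx, Submodule.mem_bot] at hu
      subst hu
      simp [energy, mass]
    have hT := hL u hu
    have hv := contDiff_trig x s c
    have hft : ∀ g : E n → ℂ, tsupport g ⊆ Ω → ∀ ξ, ∫ y in Ω, conj (ew ξ y) * g y = ft g ξ := by
      intro g hg ξ
      refine setIntegral_eq_integral_of_forall_compl_eq_zero fun y hy => ?_
      rw [image_eq_zero_of_notMem_tsupport fun h => hy (hg h), mul_zero]
    have hsupp : ∀ j, tsupport (pd j u) ⊆ Ω := fun j =>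
      (tsupport_fderiv_apply_subset ℝ _).trans (hΩ u hu)
    rw [energy_eq_sum hb (u := u + trig x s c) (hT.smooth.add hv), energy_eq_sum hb hT.smooth, energy_eq_sum hb hv,
      mass_add hb hT.smooth.continuous hv.continuous]
    simp_rw [pd_add hT.smooth hv, mass_add hb (hT.pd _).smooth.continuous
      (contDiff_pd hv _).continuous]
    rw [Finset.sum_add_distrib, Finset.sum_add_distrib, ← Finset.mul_sum, ← Complex.re_sum]
    have h1 : ∑ j, ∫ y in Ω, conj (pd j (trig x s c) y) * pd j u y =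
        ((4 * π ^ 2 : ℝ) : ℂ) * ∫ y in Ω, conj (trig x s c y) * u y := by
      simp_rw [pd_trig, inner_trig hb x s _ (hT.pd _).smooth.continuous,
        inner_trig hb x s _ hT.smooth.continuous, hft _ (hsupp _), hft _ (hΩ u hu), hT.ft_pd]
      rw [Finset.sum_comm, Finset.mul_sum]
      refine Finset.sum_congr rfl fun f _ => ?_
      have h2 : ∀ j, conj (2 * π * I * x f j * c f) * s f * (2 * π * I * x f j * ft u (x f)) =
          4 * π ^ 2 * (conj (c f) * s f * ft u (x f)) * ((‖x f j‖ ^ 2 : ℝ) : ℂ) := fun j => by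
        simp only [map_mul, conj_ofReal, conj_I, map_ofNat, Real.norm_eq_abs, sq_abs]
        push_cast
        linear_combination (-(4 * π ^ 2 * (conj (c f) * s f * ft u (x f)) * (x f j) ^ 2)) * I_sq
      simp_rw [h2]
      rw [← Finset.mul_sum, ← ofReal_sum, ← EuclideanSpace.norm_sq_eq, hx f]
      push_cast; ring
    rw [h1, re_ofReal_mul]; ring
  have hπ : 0 < 4 * π ^ 2 := by positivity
  have hq : ∀ a, qf (Qm Ω x s) (Φ a) ≤ 0 := fun a => by
    by_cases ha : a = 0
    · simp [ha, qf]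
    · exact (hΦ a ha).le
  have := neuOK_of_map (Ω := Ω) (L.subtype.coprod (trig x s ∘ₗ Φ))
    (fun w => (hL _ w.1.2).smooth.add (contDiff_trig x s _)) (fun w hw => ?_) (fun w => ?_)
  · simpa using this
  · have h1 := key w.1 w.1.2 (Φ w.2)
    have h2 : mass Ω (w.1 + trig x s (Φ w.2)) = 0 := mass_eq_zero hw
    have h3 := energy_nonneg Ω (w.1 + trig x s (Φ w.2))
    have h4 := hR w.1 w.1.2
    have h5 : w.2 = 0 := by
      by_contra h
      have := mul_neg_of_pos_of_neg hπ (hΦ _ h)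
      rw [h2] at h1
      linarith
    refine Prod.ext (Subtype.ext (funext fun y => ?_)) h5
    by_cases hy : y ∈ Ω
    · simpa [h5] using hw y hy
    · exact image_eq_zero_of_notMem_tsupport fun h => hy (hΩ _ w.1.2 h)
  · have h1 := key w.1 w.1.2 (Φ w.2)
    have h4 := hR w.1 w.1.2
    have h5 := mul_nonpos_of_nonneg_of_nonpos hπ.le (hq w.2)
    change energy Ω (w.1 + trig x s (Φ w.2)) ≤ 4 * π ^ 2 * mass Ω (w.1 + trig x s (Φ w.2))
    linarith

end Pool.Agent.P.MP_f791b6_an
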