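import Pool.Agent.P.MP_f791b6_an.Defs

namespace Pool.Agent.P.MP_f791b6_an

open MeasureTheory Complex
open scoped ComplexConjugate Real FourierTransform RealInnerProductSpace

variable {n : ℕ}

/-- Plane wave. -/
noncomputable def ew (ξ x : E n) : ℂ := cexp (I * ((2 * π * ⟪ξ, x⟫ : ℝ) : ℂ))

/-- Fourier transform. -/
noncomputable def ft (g : E n → ℂ) (ξ : E n) : ℂ := ∫ x, conj (ew ξ x) * g x

@[simp] lemma norm_ew (ξ x : E n) : ‖ew ξ x‖ = 1 := by
  rw [ew, Complex.norm_exp_I_mul_ofReal]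

lemma conj_ew (ξ x : E n) : conj (ew ξ x) = ew (-ξ) x := by
  rw [ew, ew, ← Complex.exp_conj, map_mul, conj_I, conj_ofReal, inner_neg_left]
  congr 1; push_cast; ring

lemma ew_add (ξ η x : E n) : ew (ξ + η) x = ew ξ x * ew η x := by
  rw [ew, ew, ew, ← Complex.exp_add, inner_add_left]
  congr 1; push_cast; ring

lemma ew_comm (ξ x : E n) : ew ξ x = ew x ξ := by
  rw [ew, ew, real_inner_comm]

@[simp] lemma ew_zero (x : E n) : ew 0 x = 1 := by simp [ew]

@[fun_prop] lemma continuous_ew {X : Type*} [TopologicalSpace X] {f g : X → E n}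
    (hf : Continuous f) (hg : Continuous g) : Continuous (fun t => ew (f t) (g t)) := by
  unfold ew; fun_prop

lemma ft_eq (g : E n → ℂ) : ft g = 𝓕 g := by
  funext ξ
  rw [ft, Real.fourier_eq']
  refine integral_congr_ae (Filter.Eventually.of_forall fun x => ?_)
  simp only [conj_ew, smul_eq_mul]
  congr 1
  rw [ew, inner_neg_left, real_inner_comm]
  congr 1; push_cast; ring

lemma integrable_ew_mul {g : E n → ℂ} (hg : Integrable g) (ξ : E n) :
    Integrable (fun x => conj (ew ξ x) * g x) :=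
  hg.bdd_mul (c := 1) (by fun_prop) (Filter.Eventually.of_forall fun x => by simp)

lemma norm_ft_le (g : E n → ℂ) (ξ : E n) : ‖ft g ξ‖ ≤ ∫ x, ‖g x‖ := by
  refine (norm_integral_le_integral_norm _).trans (le_of_eq ?_)
  simp

lemma continuous_ft {g : E n → ℂ} (hg : Integrable g) : Continuous (ft g) := by
  unfold ft
  refine continuous_of_dominated (bound := fun x => ‖g x‖)
    (fun ξ => (integrable_ew_mul hg ξ).aestronglyMeasurable)
    (fun ξ => Filter.Eventually.of_forall fun x => by simp) hg.norm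
    (Filter.Eventually.of_forall fun x => by fun_prop)

lemma norm_ew_sub_le (ξ η x : E n) : ‖ew ξ x - ew η x‖ ≤ 2 * π * ‖ξ - η‖ * ‖x‖ := by
  have h1 : ew ξ x - ew η x = ew η x * (ew (ξ - η) x - 1) := by
    rw [mul_sub, ← ew_add, mul_one]; congr 2; abel
  rw [h1, norm_mul, norm_ew, one_mul, ew]
  refine Real.norm_exp_I_mul_ofReal_sub_one_le.trans ?_
  rw [Real.norm_eq_abs, abs_mul, abs_of_pos Real.two_pi_pos, mul_assoc (2 * π)]
  exact mul_le_mul_of_nonneg_left (abs_real_inner_le_norm _ _) Real.two_pi_pos.le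

lemma norm_ft_sub_le {g : E n → ℂ} (hg : Integrable g) {D : ℝ}
    (hD : ∀ x, g x ≠ 0 → ‖x‖ ≤ D) (ξ η : E n) :
    ‖ft g ξ - ft g η‖ ≤ 2 * π * ‖ξ - η‖ * D * ∫ x, ‖g x‖ := by
  rw [ft, ft, ← integral_sub (integrable_ew_mul hg ξ) (integrable_ew_mul hg η),
    ← integral_const_mul]
  refine norm_integral_le_of_norm_le (hg.norm.const_mul _) (Filter.Eventually.of_forall fun x => ?_)
  rw [← sub_mul, norm_mul, ← map_sub, Complex.norm_conj]
  by_cases hx : g x = 0
  · simp [hx]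
  · refine mul_le_mul_of_nonneg_right ((norm_ew_sub_le ξ η x).trans ?_) (norm_nonneg _)
    exact mul_le_mul_of_nonneg_left (hD x hx) (by positivity)

/-- Complex Gaussian kernel. -/
noncomputable def Gc (n : ℕ) (b : ℂ) (x : E n) : ℂ :=
  (π / b) ^ ((n : ℂ) / 2) * cexp (-π ^ 2 * ‖x‖ ^ 2 / b)

/-- Real Gaussian kernel. -/
noncomputable def Gr (n : ℕ) (a : ℝ) (x : E n) : ℝ :=
  (π / a) ^ ((n : ℝ) / 2) * Real.exp (-(π ^ 2 / a) * ‖x‖ ^ 2)

lemma Gc_ofReal {a : ℝ} (ha : 0 < a) (x : E n) : Gc n a x = Gr n a x := by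
  rw [Gc, Gr, ofReal_mul, ofReal_cpow (by positivity), ofReal_exp]
  push_cast
  congr 2; ring

lemma Gr_nonneg {a : ℝ} (ha : 0 < a) (x : E n) : 0 ≤ Gr n a x := by
  unfold Gr; positivity

lemma Gr_le {a : ℝ} (ha : 0 < a) (x : E n) : Gr n a x ≤ (π / a) ^ ((n : ℝ) / 2) := by
  unfold Gr
  refine mul_le_of_le_one_right (by positivity) (Real.exp_le_one_iff.mpr ?_)
  have : 0 ≤ π ^ 2 / a * ‖x‖ ^ 2 := by positivity
  linarith

@[fun_prop] lemma continuous_Gr (a : ℝ) : Continuous (Gr n a) := by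
  unfold Gr; fun_prop

lemma integrable_gauss {a : ℝ} (ha : 0 < a) :
    Integrable (fun x : E n => Real.exp (-a * ‖x‖ ^ 2)) := by
  have := (GaussianFourier.integrable_cexp_neg_mul_sq_norm_add (V := E n) (b := (a : ℂ))
    (by simpa using ha) 0 0).norm
  refine this.congr (Filter.Eventually.of_forall fun x => ?_)
  simp only [zero_mul, add_zero, Complex.norm_exp]
  congr 1
  rw [← ofReal_pow, ← ofReal_neg, ← ofReal_mul, ofReal_re]

lemma integral_gauss {a : ℝ} (ha : 0 < a) :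
    ∫ x : E n, Real.exp (-a * ‖x‖ ^ 2) = (π / a) ^ ((n : ℝ) / 2) := by
  rw [GaussianFourier.integral_rexp_neg_mul_sq_norm ha]; simp

lemma integrable_Gr {a : ℝ} (ha : 0 < a) : Integrable (Gr n a) :=
  (integrable_gauss (by positivity)).const_mul _

lemma integral_Gr {a : ℝ} (ha : 0 < a) : ∫ x, Gr n a x = 1 := by
  unfold Gr
  rw [integral_const_mul, integral_gauss (by positivity),
    ← Real.mul_rpow (by positivity) (by positivity)]
  have : π / a * (π / (π ^ 2 / a)) = 1 := by field_simp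
  rw [this, Real.one_rpow]

lemma norm_Gc_le {b : ℂ} (hb : 0 < b.re) (x : E n) : ‖Gc n b x‖ ≤ (π / ‖b‖) ^ ((n : ℝ) / 2) := by
  have hb0 : b ≠ 0 := by rintro rfl; simp at hb
  rw [Gc, norm_mul]
  have h1 : ‖((π : ℂ) / b) ^ ((n : ℂ) / 2)‖ = (π / ‖b‖) ^ ((n : ℝ) / 2) := by
    have : ((n : ℂ) / 2) = (((n : ℝ) / 2 : ℝ) : ℂ) := by push_cast; ring
    rw [this, Complex.norm_cpow_real, norm_div, Complex.norm_real, Real.norm_eq_abs,
      abs_of_pos Real.pi_pos]
  rw [h1]
  refine mul_le_of_le_one_right (by positivity) ?_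
  rw [Complex.norm_exp, Real.exp_le_one_iff]
  have : (-(π : ℂ) ^ 2 * (‖x‖ : ℂ) ^ 2 / b) = ((-(π ^ 2 * ‖x‖ ^ 2) : ℝ) : ℂ) * b⁻¹ := by
    push_cast; ring
  rw [this, re_ofReal_mul, inv_re]
  have := normSq_pos.mpr hb0
  have h3 : 0 ≤ π ^ 2 * ‖x‖ ^ 2 * (b.re / normSq b) := by positivity
  linarith

lemma integral_gauss_ew {b : ℂ} (hb : 0 < b.re) (x : E n) :
    ∫ ξ : E n, cexp (-b * ‖ξ‖ ^ 2) * conj (ew ξ x) = Gc n b x := by
  have := fourier_gaussian_innerProductSpace (V := E n) hb x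
  rw [← ft_eq, ft] at this
  rw [Gc]
  simp only [finrank_euclideanSpace, Fintype.card_fin] at this
  rw [← this]
  refine integral_congr_ae (Filter.Eventually.of_forall fun ξ => ?_)
  simp only
  rw [ew_comm, mul_comm]

lemma integrable_cgauss {b : ℂ} (hb : 0 < b.re) :
    Integrable (fun ξ : E n => cexp (-b * ‖ξ‖ ^ 2)) := by
  simpa using GaussianFourier.integrable_cexp_neg_mul_sq_norm_add (V := E n) hb 0 0

/-- The Gaussian identity. -/
theorem gauss_identity {g : E n → ℂ} (hg : Integrable g) {b : ℂ} (hb : 0 < b.re) :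
    ∫ ξ : E n, cexp (-b * ‖ξ‖ ^ 2) * ((‖ft g ξ‖ ^ 2 : ℝ) : ℂ) =
      ∫ p : E n × E n, g p.1 * conj (g p.2) * Gc n b (p.1 - p.2) ∂(volume.prod volume) := by
  have hg' : Integrable (fun x => conj (g x)) := by
    simpa using (Complex.conjCLE : ℂ →L[ℝ] ℂ).integrable_comp hg
  have h1 : ∀ ξ : E n, cexp (-b * ‖ξ‖ ^ 2) * ((‖ft g ξ‖ ^ 2 : ℝ) : ℂ) =
      ∫ p : E n × E n, cexp (-b * ‖ξ‖ ^ 2) * (g p.1 * conj (g p.2)) * conj (ew ξ (p.1 - p.2))
        ∂(volume.prod volume) := by
    intro ξ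
    rw [ofReal_pow, ← Complex.mul_conj', ft, ← integral_conj, ← integral_prod_mul,
      ← integral_const_mul]
    refine integral_congr_ae (Filter.Eventually.of_forall fun p => ?_)
    simp only [map_mul, Complex.conj_conj]
    have : conj (ew ξ (p.1 - p.2)) = conj (ew ξ p.1) * ew ξ p.2 := by
      rw [ew_comm ξ (p.1 - p.2), sub_eq_add_neg, ew_add, map_mul, conj_ew (-p.2), neg_neg,
        ew_comm p.1, ew_comm p.2]
    rw [this]; ring
  simp_rw [h1]
  rw [integral_integral_swap]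
  · refine integral_congr_ae (Filter.Eventually.of_forall fun p => ?_)
    simp only
    rw [← integral_gauss_ew hb, ← integral_const_mul]
    refine integral_congr_ae (Filter.Eventually.of_forall fun ξ => ?_)
    simp only; ring
  · have h2 := (integrable_cgauss (n := n) hb).mul_prod (hg.mul_prod hg')
    exact h2.mul_bdd (c := 1) (by fun_prop) (Filter.Eventually.of_forall fun x => by simp)

/-- Gaussian weighted energy of the Fourier transform. -/
noncomputable def GI (g : E n → ℂ) (a : ℝ) : ℝ := ∫ ξ : E n, Real.exp (-a * ‖ξ‖ ^ 2) * ‖ft g ξ‖ ^ 2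

lemma integrable_GI {g : E n → ℂ} (hg : Integrable g) {a : ℝ} (ha : 0 < a) :
    Integrable (fun ξ : E n => Real.exp (-a * ‖ξ‖ ^ 2) * ‖ft g ξ‖ ^ 2) := by
  have := continuous_ft hg
  refine (integrable_gauss ha).mul_bdd (c := (∫ x, ‖g x‖) ^ 2) (by fun_prop)
    (Filter.Eventually.of_forall fun ξ => ?_)
  rw [Real.norm_eq_abs, abs_of_nonneg (by positivity)]
  exact pow_le_pow_left₀ (norm_nonneg _) (norm_ft_le g ξ) 2

theorem GI_eq {g : E n → ℂ} (hg : Integrable g) {a : ℝ} (ha : 0 < a) :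
    (GI g a : ℂ) =
      ∫ p : E n × E n, g p.1 * conj (g p.2) * Gr n a (p.1 - p.2) ∂(volume.prod volume) := by
  have := gauss_identity hg (b := (a : ℂ)) (by simpa using ha)
  simp_rw [Gc_ofReal ha] at this
  rw [← this, GI, ← integral_complex_ofReal]
  refine integral_congr_ae (Filter.Eventually.of_forall fun ξ => ?_)
  simp

lemma integrable_mul_sub {f k : E n → ℝ} (hf : Integrable f) (hk : Integrable k) :
    Integrable (fun p : E n × E n => f p.2 * k (p.1 - p.2)) (volume.prod volume) := by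
  have := hf.convolution_integrand (ContinuousLinearMap.mul ℝ ℝ) hk
  simpa using this

lemma integral_mul_sub {f k : E n → ℝ} (hf : Integrable f) (hk : Integrable k) :
    ∫ p : E n × E n, f p.2 * k (p.1 - p.2) ∂(volume.prod volume) = (∫ x, f x) * ∫ x, k x := by
  rw [integral_prod_symm _ (integrable_mul_sub hf hk), ← integral_mul_const]
  refine integral_congr_ae (Filter.Eventually.of_forall fun y => ?_)
  simp only
  rw [integral_const_mul, integral_sub_right_eq_self]

lemma Gr_neg (a : ℝ) (x : E n) : Gr n a (-x) = Gr n a x := by simp [Gr]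

/-- Schur bound. -/
theorem GI_le {g : E n → ℂ} (hg : Integrable g) (hg2 : Integrable (fun x => ‖g x‖ ^ 2)) {a : ℝ}
    (ha : 0 < a) : GI g a ≤ ∫ x, ‖g x‖ ^ 2 := by
  have h1 : GI g a ≤ ‖(GI g a : ℂ)‖ := by
    rw [Complex.norm_real]; exact le_abs_self _
  refine h1.trans ?_
  rw [GI_eq hg ha]
  have i2 := integrable_mul_sub hg2 (integrable_Gr (n := n) ha)
  have i1 : Integrable (fun p : E n × E n => ‖g p.1‖ ^ 2 * Gr n a (p.1 - p.2))
      (volume.prod volume) := by
    refine i2.swap.congr (Filter.Eventually.of_forall fun p => ?_)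
    simp only [Function.comp, Prod.fst_swap, Prod.snd_swap]
    rw [← Gr_neg, neg_sub]
  have e2 := integral_mul_sub hg2 (integrable_Gr (n := n) ha)
  have e1 : ∫ p : E n × E n, ‖g p.1‖ ^ 2 * Gr n a (p.1 - p.2) ∂(volume.prod volume) =
      (∫ x, ‖g x‖ ^ 2) * ∫ x, Gr n a x := by
    rw [← e2, ← integral_prod_swap]
    refine integral_congr_ae (Filter.Eventually.of_forall fun p => ?_)
    simp only [Prod.fst_swap, Prod.snd_swap]
    rw [← Gr_neg, neg_sub]
  rw [integral_Gr ha, mul_one] at e1 e2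
  refine (norm_integral_le_of_norm_le ((i1.add i2).div_const 2)
    (Filter.Eventually.of_forall fun p => ?_)).trans (le_of_eq ?_)
  · simp only [norm_mul, Complex.norm_conj, Complex.norm_real, Real.norm_eq_abs,
      abs_of_nonneg (Gr_nonneg ha _), Pi.add_apply]
    have := Gr_nonneg ha (p.1 - p.2)
    nlinarith [mul_nonneg this (sq_nonneg (‖g p.1‖ - ‖g p.2‖))]
  · rw [integral_div]
    simp only [Pi.add_apply]
    rw [integral_add i1 i2, e1, e2]; ring

/-- Dispersive bound. -/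
theorem norm_gauss_le {g : E n → ℂ} (hg : Integrable g) {b : ℂ} (hb : 0 < b.re) :
    ‖∫ ξ : E n, cexp (-b * ‖ξ‖ ^ 2) * ((‖ft g ξ‖ ^ 2 : ℝ) : ℂ)‖ ≤
      (π / ‖b‖) ^ ((n : ℝ) / 2) * (∫ x, ‖g x‖) ^ 2 := by
  rw [gauss_identity hg hb, sq, ← integral_prod_mul, ← integral_const_mul]
  refine norm_integral_le_of_norm_le ((hg.norm.mul_prod hg.norm).const_mul _)
    (Filter.Eventually.of_forall fun p => ?_)
  rw [norm_mul, norm_mul, Complex.norm_conj, mul_comm]
  exact mul_le_mul_of_nonneg_right (norm_Gc_le hb _) (by positivity)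

theorem norm_gauss_le' (g : E n → ℂ) (b : ℂ) :
    ‖∫ ξ : E n, cexp (-b * ‖ξ‖ ^ 2) * ((‖ft g ξ‖ ^ 2 : ℝ) : ℂ)‖ ≤ GI g b.re := by
  refine (norm_integral_le_integral_norm _).trans (le_of_eq ?_)
  refine integral_congr_ae (Filter.Eventually.of_forall fun ξ => ?_)
  simp only [norm_mul, Complex.norm_exp, Complex.norm_real, Real.norm_eq_abs, abs_pow, abs_norm]
  congr 2
  rw [← ofReal_pow, mul_comm, re_ofReal_mul, neg_re, mul_comm]

end Pool.Agent.P.MP_f791b6_an
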