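import Pool.Agent.P.MP_f791b6_an.Planch

namespace Pool.Agent.P.MP_f791b6_an

open MeasureTheory Complex
open scoped ComplexConjugate Real FourierTransform RealInnerProductSpace ContDiff

variable {n : ℕ}

/-- Indicator function. -/
noncomputable def chi (Ω : Set (E n)) : E n → ℂ := Ω.indicator fun _ => 1

lemma integrable_chi {Ω : Set (E n)} (hm : MeasurableSet Ω) (hf : volume Ω ≠ ⊤) :
    Integrable (chi Ω) :=
  (integrable_indicator_iff hm).mpr (integrableOn_const hf)

lemma norm_chi (Ω : Set (E n)) (x : E n) : ‖chi Ω x‖ = Ω.indicator (fun _ => (1 : ℝ)) x := by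
  by_cases hx : x ∈ Ω <;> simp [chi, hx]

lemma norm_chi_sq (Ω : Set (E n)) (x : E n) : ‖chi Ω x‖ ^ 2 = ‖chi Ω x‖ := by
  by_cases hx : x ∈ Ω <;> simp [chi, hx]

lemma integrable_chi_sq {Ω : Set (E n)} (hm : MeasurableSet Ω) (hf : volume Ω ≠ ⊤) :
    Integrable (fun x => ‖chi Ω x‖ ^ 2) := by
  simp_rw [norm_chi_sq]; exact (integrable_chi hm hf).norm

lemma integral_norm_chi {Ω : Set (E n)} (hm : MeasurableSet Ω) :
    ∫ x, ‖chi Ω x‖ = volume.real Ω := by
  simp_rw [norm_chi]
  rw [integral_indicator_const _ hm]; simp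

lemma GI_chi_le {Ω : Set (E n)} (hm : MeasurableSet Ω) (hf : volume Ω ≠ ⊤) {a : ℝ} (ha : 0 < a) :
    GI (chi Ω) a ≤ volume.real Ω := by
  have := GI_le (integrable_chi hm hf) (integrable_chi_sq hm hf) ha
  simp_rw [norm_chi_sq] at this
  rwa [integral_norm_chi hm] at this

lemma GI_chi {Ω : Set (E n)} (hm : MeasurableSet Ω) (hf : volume Ω ≠ ⊤) {a : ℝ} (ha : 0 < a) :
    GI (chi Ω) a = ∫ p in Ω ×ˢ Ω, Gr n a (p.1 - p.2) ∂(volume.prod volume) := by
  rw [← ofReal_inj, GI_eq (integrable_chi hm hf) ha, ← integral_indicator (hm.prod hm),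
    ← integral_complex_ofReal]
  refine integral_congr_ae (Filter.Eventually.of_forall fun p => ?_)
  by_cases h1 : p.1 ∈ Ω <;> by_cases h2 : p.2 ∈ Ω <;> simp [chi, h1, h2, Set.indicator]

lemma Gr_sq {a : ℝ} (ha : 0 < a) (x : E n) :
    Gr n a x ^ 2 = (π / (2 * a)) ^ ((n : ℝ) / 2) * Gr n (a / 2) x := by
  unfold Gr
  rw [mul_pow, ← mul_assoc, sq, sq (Real.exp _), ← Real.exp_add,
    ← Real.mul_rpow (by positivity) (by positivity), ← Real.mul_rpow (by positivity) (by positivity)]
  congr 2
  · field_simp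
  · field_simp; ring

lemma integrableOn_Gr {Ω : Set (E n)} (hf : volume Ω ≠ ⊤) {a : ℝ} (ha : 0 < a) :
    IntegrableOn (fun p : E n × E n => Gr n a (p.1 - p.2)) (Ω ×ˢ Ω) (volume.prod volume) := by
  refine Measure.integrableOn_of_bounded (M := (π / a) ^ ((n : ℝ) / 2)) ?_ (by fun_prop)
    (Filter.Eventually.of_forall fun p => ?_)
  · rw [Measure.prod_prod]; exact ENNReal.mul_ne_top hf hf
  · rw [Real.norm_eq_abs, abs_of_nonneg (Gr_nonneg ha _)]; exact Gr_le ha _

theorem GI_chi_sq {Ω : Set (E n)} (hm : MeasurableSet Ω) (hf : volume Ω ≠ ⊤)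
    (hV : 0 < volume.real Ω) {a : ℝ} (ha : 0 < a) :
    GI (chi Ω) a ^ 2 ≤ volume.real Ω ^ 3 * (π / (2 * a)) ^ ((n : ℝ) / 2) := by
  set V := volume.real Ω with hVd
  set c := (π / (2 * a)) ^ ((n : ℝ) / 2) with hc
  have hc0 : 0 < c := by positivity
  set G := GI (chi Ω) a with hG
  have hG0 : 0 ≤ G := integral_nonneg fun ξ => by positivity
  rcases hG0.eq_or_lt with h0 | hG0
  · rw [← h0]; simp only [ne_eq, OfNat.ofNat_ne_zero, not_false_eq_true, zero_pow]; positivity
  set s := G / V ^ 2 with hs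
  have hs0 : 0 < s := by positivity
  have hfin : (volume.prod volume) (Ω ×ˢ Ω) ≠ ⊤ := by
    rw [Measure.prod_prod]; exact ENNReal.mul_ne_top hf hf
  have i2 := integrableOn_Gr hf (a := a / 2) (by positivity)
  have h1 : G ≤ (s * V ^ 2 + c / s * V) / 2 := by
    calc G = ∫ p in Ω ×ˢ Ω, Gr n a (p.1 - p.2) ∂(volume.prod volume) := GI_chi hm hf ha
      _ ≤ ∫ p in Ω ×ˢ Ω, (s + c / s * Gr n (a / 2) (p.1 - p.2)) / 2 ∂(volume.prod volume) := by
          refine integral_mono (integrableOn_Gr hf ha)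
            (((integrableOn_const hfin).add (i2.const_mul _)).div_const 2) fun p => ?_
          simp only
          have h2 := Gr_sq ha (p.1 - p.2)
          rw [← hc] at h2
          have h3 : c / s * Gr n (a / 2) (p.1 - p.2) = Gr n a (p.1 - p.2) ^ 2 / s := by
            rw [h2]; ring
          rw [h3, le_div_iff₀ (by norm_num), ← sub_le_iff_le_add', le_div_iff₀ hs0]
          nlinarith [sq_nonneg (Gr n a (p.1 - p.2) - s)]
      _ = (s * V ^ 2 + c / s * GI (chi Ω) (a / 2)) / 2 := by
          rw [integral_div, integral_add (integrableOn_const hfin).integrable (i2.const_mul _),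
            integral_const_mul, ← GI_chi hm hf (by positivity), setIntegral_const,
            measureReal_prod_prod, smul_eq_mul]
          ring
      _ ≤ _ := by
          have := GI_chi_le hm hf (a := a / 2) (by positivity)
          gcongr
  have h2 : s * V ^ 2 = G := by rw [hs]; field_simp
  have h3 : c / s * V = V ^ 3 * c / G := by rw [hs]; field_simp
  rw [h2, h3] at h1
  have h4 : G ≤ V ^ 3 * c / G := by linarith
  rw [le_div_iff₀ hG0] at h4
  linarith

theorem heat_bound {Ω : Set (E n)} (hm : MeasurableSet Ω) (hf : volume Ω ≠ ⊤)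
    (L : Submodule ℂ (E n → ℂ)) {k : ℕ} (hk : Module.finrank ℂ L = k)
    [FiniteDimensional ℂ L] (hL : ∀ u ∈ L, Test u) (hΩ : ∀ u ∈ L, ∀ x ∉ Ω, u x = 0)
    (hR : ∀ u ∈ L, ∫ x, ∑ j, ‖pd j u x‖ ^ 2 ≤ 4 * π ^ 2 * ∫ x, ‖u x‖ ^ 2)
    {a : ℝ} (ha : 0 < a) :
    k * Real.exp (-(4 * a)) ≤ (π / (4 * a)) ^ ((n : ℝ) / 2) * GI (chi Ω) a := by
  obtain ⟨u, huL, hu⟩ := exists_orthonormal L hk hL
  have hT : ∀ i, Test (u i) := fun i => hL _ (huL i)
  have hcont : ∀ i, Continuous (u i) := fun i => (hT i).smooth.continuous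
  have hint : ∀ i j, Integrable (fun x => conj (u i x) * u j x) := fun i j =>
    (hT j).integrable_mul (by have := hcont i; fun_prop)
  have hone : ∀ i, ∫ x, ‖u i x‖ ^ 2 = 1 := fun i => by
    have := hu i i
    rw [if_pos rfl] at this
    rw [← ofReal_inj, ← integral_complex_ofReal, ofReal_one, ← this]
    simp [Complex.conj_mul']
  set b := 2 * a with hb
  have hb0 : 0 < b := by positivity
  set t := Real.exp (-b) with ht
  have ht0 : 0 < t := Real.exp_pos _
  set P : E n × E n → ℂ := fun p => ∑ i, u i p.1 * conj (u i p.2) with hP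
  have iconj : ∀ i, Integrable (fun x => conj (u i x)) := fun i => by
    simpa using (Complex.conjCLE : ℂ →L[ℝ] ℂ).integrable_comp (hT i).integrable
  have iPG : ∀ i, Integrable (fun p : E n × E n => u i p.1 * conj (u i p.2) * Gr n b (p.1 - p.2))
      (volume.prod volume) := fun i => by
    refine ((hT i).integrable.mul_prod (iconj i)).mul_bdd (c := (π / b) ^ ((n : ℝ) / 2))
      (by fun_prop) (Filter.Eventually.of_forall fun p => ?_)
    rw [Complex.norm_real, Real.norm_eq_abs, abs_of_nonneg (Gr_nonneg hb0 _)]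
    exact Gr_le hb0 _
  have iPG' : Integrable (fun p : E n × E n => P p * Gr n b (p.1 - p.2)) (volume.prod volume) := by
    simp only [hP, Finset.sum_mul]
    exact integrable_finsetSum _ fun i _ => iPG i
  have h1 : k * t ≤ ∫ p, (P p * Gr n b (p.1 - p.2)).re ∂(volume.prod volume) := by
    have e1 : ∫ p, (P p * Gr n b (p.1 - p.2)).re ∂(volume.prod volume) = ∑ i, GI (u i) b := by
      have := integral_re iPG'
      simp only [RCLike.re_to_complex] at this
      rw [this]
      simp only [hP, Finset.sum_mul]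
      rw [integral_finsetSum _ fun i _ => iPG i, Complex.re_sum]
      refine Finset.sum_congr rfl fun i _ => ?_
      rw [← GI_eq (hT i).integrable hb0, ofReal_re]
    rw [e1]
    calc (k : ℝ) * t = ∑ _i : Fin k, t := by simp
      _ ≤ _ := Finset.sum_le_sum fun i _ => by
        have := (hT i).le_GI (hR _ (huL i)) hb0
        rwa [hone, mul_one] at this
  have eP : ∀ p, ((‖P p‖ ^ 2 : ℝ) : ℂ) =
      ∑ i, ∑ j, (conj (u j p.1) * u i p.1) * (conj (u i p.2) * u j p.2) := fun p => by
    rw [ofReal_pow, ← Complex.mul_conj', hP]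
    simp only [map_sum, map_mul, Complex.conj_conj, Finset.sum_mul_sum]
    exact Finset.sum_congr rfl fun i _ => Finset.sum_congr rfl fun j _ => by ring
  have iP2c : Integrable (fun p => ((‖P p‖ ^ 2 : ℝ) : ℂ)) (volume.prod volume) := by
    simp_rw [eP]
    exact integrable_finsetSum _ fun i _ => integrable_finsetSum _ fun j _ =>
      (hint j i).mul_prod (hint i j)
  have iP2 : Integrable (fun p => ‖P p‖ ^ 2) (volume.prod volume) := by
    simpa using iP2c.norm
  have h2 : ∫ p, ‖P p‖ ^ 2 ∂(volume.prod volume) = k := by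
    rw [← ofReal_inj, ← integral_complex_ofReal]
    simp_rw [eP]
    rw [integral_finsetSum _ fun i _ => integrable_finsetSum _ fun j _ =>
      (hint j i).mul_prod (hint i j)]
    have : ∀ i, ∫ p : E n × E n, ∑ j, (conj (u j p.1) * u i p.1) * (conj (u i p.2) * u j p.2)
        ∂(volume.prod volume) = 1 := fun i => by
      rw [integral_finsetSum _ fun j _ => (hint j i).mul_prod (hint i j)]
      rw [Finset.sum_eq_single i]
      · rw [integral_prod_mul (fun x => conj (u i x) * u i x) (fun x => conj (u i x) * u i x), hu]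
        simp
      · intro j _ hj
        rw [integral_prod_mul (fun x => conj (u j x) * u i x) (fun x => conj (u i x) * u j x), hu,
          if_neg hj, zero_mul]
      · simp
    simp [this]
  set c := (π / (4 * a)) ^ ((n : ℝ) / 2) with hc
  have hGsq : ∀ x : E n, Gr n b x ^ 2 = c * Gr n a x := fun x => by
    rw [Gr_sq hb0, hc, hb]; congr 2
    · ring
    · ring
  have iI : Integrable ((Ω ×ˢ Ω).indicator fun p : E n × E n => c * Gr n a (p.1 - p.2))
      (volume.prod volume) :=
    (integrable_indicator_iff (hm.prod hm)).mpr ((integrableOn_Gr hf ha).const_mul _)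
  have h3 : 2 * t * ∫ p, (P p * Gr n b (p.1 - p.2)).re ∂(volume.prod volume) ≤
      c * GI (chi Ω) a + t ^ 2 * k := by
    rw [← h2, GI_chi hm hf ha, ← integral_const_mul, ← integral_const_mul, ← integral_const_mul,
      ← integral_indicator (hm.prod hm), ← integral_add iI (iP2.const_mul _)]
    refine integral_mono (iPG'.re.const_mul _) (iI.add (iP2.const_mul _)) fun p => ?_
    simp only
    by_cases hp : p ∈ Ω ×ˢ Ω
    · rw [Set.indicator_of_mem hp, ← hGsq, mul_re, ofReal_re, ofReal_im, mul_zero, sub_zero]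
      have h4 : (P p).re ≤ ‖P p‖ := re_le_norm _
      have h5 := Gr_nonneg hb0 (p.1 - p.2)
      have h6 : (P p).re * Gr n b (p.1 - p.2) ≤ ‖P p‖ * Gr n b (p.1 - p.2) := by gcongr
      nlinarith [sq_nonneg (Gr n b (p.1 - p.2) - t * ‖P p‖)]
    · have : P p = 0 := by
        rw [hP]
        refine Finset.sum_eq_zero fun i _ => ?_
        rw [Set.mem_prod, not_and_or] at hp
        rcases hp with hp | hp
        · rw [hΩ _ (huL i) _ hp, zero_mul]
        · rw [hΩ _ (huL i) _ hp, map_zero, mul_zero]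
      rw [Set.indicator_of_notMem hp, this]; simp
  have h4 : Real.exp (-(4 * a)) = t ^ 2 := by
    rw [ht, ← Real.exp_nat_mul, hb]; congr 1; push_cast; ring
  rw [h4]
  nlinarith

end Pool.Agent.P.MP_f791b6_an
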