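import Pool.Agent.P.MP_f791b6_an.K1PL

/-! The Brunn-Minkowski inequality for a set and a ball. -/

open MeasureTheory Set Metric Filter Topology
open scoped ContDiff RealInnerProductSpace ENNReal

namespace Pool.Agent.P.MP_f791b6_an.One

variable {n m : ℕ}

lemma bm_set {t : ℝ} (h0 : 0 < t) (h1 : t < 1) {A B C : Set (E n)} (hA : MeasurableSet A)
    (hB : MeasurableSet B) (hC : MeasurableSet C)
    (hsub : ∀ x ∈ A, ∀ y ∈ B, (1 - t) • x + t • y ∈ C) :
    volume A ^ (1 - t) * volume B ^ t ≤ volume C := by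
  have hφ := PiLp.volume_preserving_toLp (Fin n)
  have key : ∀ S : Set (E n), MeasurableSet S →
      ∫⁻ x : Fin n → ℝ, (WithLp.toLp 2 ⁻¹' S).indicator 1 x = volume S := fun S hS => by
    rw [lintegral_indicator_one (hφ.measurable hS), hφ.measure_preimage hS.nullMeasurableSet]
  rw [← key A hA, ← key B hB, ← key C hC]
  refine pl n h0 h1 _ _ _ (measurable_one.indicator (hφ.measurable hA))
    (measurable_one.indicator (hφ.measurable hB)) (measurable_one.indicator (hφ.measurable hC))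
    fun x y => ?_
  by_cases hx : x ∈ (WithLp.toLp 2 ⁻¹' A : Set (Fin n → ℝ))
  · by_cases hy : y ∈ (WithLp.toLp 2 ⁻¹' B : Set (Fin n → ℝ))
    · have hz : (1 - t) • x + t • y ∈ (WithLp.toLp 2 ⁻¹' C : Set (Fin n → ℝ)) := hsub _ hx _ hy
      rw [indicator_of_mem hx, indicator_of_mem hy, indicator_of_mem hz]
      simp
    · rw [indicator_of_notMem hy, ENNReal.zero_rpow_of_pos h0, mul_zero]
      exact zero_le
  · rw [indicator_of_notMem hx, ENNReal.zero_rpow_of_pos (by linarith), zero_mul]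
    exact zero_le

theorem bm (hn : 1 ≤ n) {K C : Set (E n)} (hK : MeasurableSet K) (hC : MeasurableSet C)
    (hK0 : 0 < volume.real K) (hCf : volume C ≠ ⊤) {h : ℝ} (hh : 0 < h)
    (hsub : ∀ x ∈ K, ∀ y ∈ ball (0 : E n) h, x + y ∈ C) :
    volume.real K + h * iso n (volume.real K) ≤ volume.real C := by
  have hn0 : n ≠ 0 := by omega
  have hn' : (0 : ℝ) < n := by exact_mod_cast hn
  have hom : 0 < om n := om_pos
  have hKf : volume K ≠ ⊤ := fun e => by
    rw [measureReal_def, e] at hK0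
    simp at hK0
  obtain ⟨a, ha⟩ : ∃ a : ℝ, a = volume.real K ^ (1 / n : ℝ) := ⟨_, rfl⟩
  obtain ⟨c, hc⟩ : ∃ c : ℝ, c = om n ^ (1 / n : ℝ) := ⟨_, rfl⟩
  have a0 : 0 < a := ha ▸ Real.rpow_pos_of_pos hK0 _
  have c0 : 0 < c := hc ▸ Real.rpow_pos_of_pos hom _
  have an : a ^ n = volume.real K := by
    rw [ha, one_div, Real.rpow_inv_natCast_pow hK0.le hn0]
  have cn : c ^ n = om n := by
    rw [hc, one_div, Real.rpow_inv_natCast_pow hom.le hn0]
  have an' : volume.real K ^ (1 - 1 / n : ℝ) = a ^ (n - 1) := by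
    rw [Real.rpow_sub hK0, Real.rpow_one, ← ha, ← an, div_eq_iff a0.ne', ← pow_succ,
      Nat.sub_add_cancel hn]
  have b0 : 0 < h * c := mul_pos hh c0
  have s0 : 0 < a + h * c := by linarith
  obtain ⟨t, ht⟩ : ∃ t : ℝ, t = h * c / (a + h * c) := ⟨_, rfl⟩
  have t0 : 0 < t := ht ▸ div_pos b0 s0
  have t1 : t < 1 := by rw [ht, div_lt_one s0]; linarith
  have t2 : 1 - t = a / (a + h * c) := by rw [ht]; field_simp; ring
  have hA : volume ((fun x : E n => (1 - t) • x) ⁻¹' K) = ENNReal.ofReal ((a + h * c) ^ n) := by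
    rw [Measure.addHaar_preimage_smul _ (by linarith : (1 - t) ≠ 0),
      ← ENNReal.ofReal_toReal hKf, ← ENNReal.ofReal_mul (abs_nonneg _), ← measureReal_def, ← an,
      finrank_euclideanSpace_fin, t2, abs_of_pos (by positivity), div_pow]
    congr 1
    field_simp
  have hB : volume (ball (0 : E n) (h / t)) = ENNReal.ofReal ((a + h * c) ^ n) := by
    rw [← ENNReal.ofReal_toReal (measure_ball_lt_top (x := (0 : E n)) (r := h / t)).ne,
      ← measureReal_def, vol_ball (div_pos hh t0), ← cn, ← mul_pow, ht]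
    congr 2
    field_simp
  have h1 := bm_set t0 t1 (A := (fun x : E n => (1 - t) • x) ⁻¹' K) (B := ball 0 (h / t))
    (measurable_const_smul _ hK) measurableSet_ball hC fun x hx y hy => hsub _ hx _ (by
      rw [mem_ball_zero_iff] at hy ⊢
      rw [norm_smul, Real.norm_of_nonneg t0.le, mul_comm]
      exact (lt_div_iff₀ t0).1 hy)
  rw [hA, hB, ← ENNReal.rpow_add_of_nonneg _ _ (by linarith) t0.le, sub_add_cancel,
    ENNReal.rpow_one, ENNReal.ofReal_le_iff_le_toReal hCf, ← measureReal_def] at h1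
  refine le_trans ?_ h1
  have h2 := pow_add_mul_le_add_pow a0.le (by linarith : 0 ≤ 2 * a + h * c) n
  unfold iso
  rw [an', ← hc, ← an]
  refine le_trans (le_of_eq ?_) h2
  ring

theorem iso_mono (hn : 1 ≤ n) {v w : ℝ} (hv : 0 ≤ v) (hvw : v ≤ w) : iso n v ≤ iso n w := by
  have hn' : (1 : ℝ) ≤ n := by exact_mod_cast hn
  have hom : 0 < om n := om_pos
  unfold iso
  refine mul_le_mul_of_nonneg_left (Real.rpow_le_rpow hv hvw ?_) (by positivity)
  rw [sub_nonneg, div_le_one (by linarith)]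
  exact hn'

end Pool.Agent.P.MP_f791b6_an.One
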