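import Pool.Agent.P.MP_f791b6_an.K1Defs

/-! Elementary properties of the bilinear form. -/

open MeasureTheory Set Metric Filter Topology
open scoped ContDiff RealInnerProductSpace

namespace Pool.Agent.P.MP_f791b6_an.One

variable {n m : ℕ} {Ω : Set (E n)} {l : ℝ}

lemma intOn {G : Type*} [NormedAddCommGroup G] (hb : Bornology.IsBounded Ω) {f : E n → G}
    (hf : Continuous f) : IntegrableOn f Ω :=
  (hf.continuousOn.integrableOn_compact hb.isCompact_closure).mono_set subset_closure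

lemma cont_pd {u : E n → ℝ} (hu : ContDiff ℝ 1 u) (v : E n) :
    Continuous fun x => fderiv ℝ u x v :=
  (hu.continuous_fderiv one_ne_zero).clm_apply continuous_const

lemma cont_dens {u w : E n → ℝ} (hu : ContDiff ℝ 1 u) (hw : ContDiff ℝ 1 w) (l : ℝ) :
    Continuous fun x => ∑ j : Fin n, fderiv ℝ u x (EuclideanSpace.single j 1) *
      fderiv ℝ w x (EuclideanSpace.single j 1) - l * (u x * w x) :=
  (continuous_finsetSum _ fun _ _ => (cont_pd hu _).mul (cont_pd hw _)).sub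
    (continuous_const.mul (hu.continuous.mul hw.continuous))

lemma bb_symm (u w : E n → ℝ) : bb Ω l u w = bb Ω l w u := by
  simp only [bb, mul_comm]

lemma norm_sq_clm (L : E n →L[ℝ] ℝ) :
    ‖L‖ ^ 2 = ∑ j : Fin n, L (EuclideanSpace.single j 1) ^ 2 := by
  have h := (InnerProductSpace.toDual ℝ (E n)).symm.norm_map L
  rw [← h, EuclideanSpace.real_norm_sq_eq]
  refine Finset.sum_congr rfl fun j _ => ?_
  rw [← InnerProductSpace.toDual_symm_apply, EuclideanSpace.inner_single_right]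
  simp

lemma bb_self (hb : Bornology.IsBounded Ω) {u : E n → ℝ} (hu : ContDiff ℝ 1 u) :
    bb Ω l u u = (∫ x in Ω, ‖fderiv ℝ u x‖ ^ 2) - l * ∫ x in Ω, u x ^ 2 := by
  have h1 := hu.continuous_fderiv one_ne_zero
  have h2 := hu.continuous
  rw [← integral_const_mul, ← integral_sub (intOn hb (by fun_prop)) (intOn hb (by fun_prop))]
  simp only [bb, norm_sq_clm]
  simp only [sq]

lemma contDiff_comb {ι : Type*} [Fintype ι] {u : ι → E n → ℝ} (hu : ∀ i, ContDiff ℝ 1 (u i))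
    (c : ι → ℝ) : ContDiff ℝ 1 fun x => ∑ i, c i * u i x :=
  ContDiff.sum fun i _ => contDiff_const.mul (hu i)

lemma fderiv_comb {ι : Type*} [Fintype ι] {u : ι → E n → ℝ} (hu : ∀ i, ContDiff ℝ 1 (u i))
    (c : ι → ℝ) (x v : E n) :
    fderiv ℝ (fun x => ∑ i, c i * u i x) x v = ∑ i, c i * fderiv ℝ (u i) x v := by
  have h : HasFDerivAt (fun x => ∑ i, c i * u i x) (∑ i, c i • fderiv ℝ (u i) x) x :=
    HasFDerivAt.fun_sum fun i _ =>
      (((hu i).differentiable one_ne_zero x).hasFDerivAt).const_mul (c i)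
  rw [h.fderiv]
  simp

lemma bb_comb_left (hb : Bornology.IsBounded Ω) {ι : Type*} [Fintype ι] {u : ι → E n → ℝ}
    (hu : ∀ i, ContDiff ℝ 1 (u i)) (c : ι → ℝ) {w : E n → ℝ} (hw : ContDiff ℝ 1 w) :
    bb Ω l (fun x => ∑ i, c i * u i x) w = ∑ i, c i * bb Ω l (u i) w := by
  simp only [bb, ← integral_const_mul]
  rw [← integral_finsetSum _ fun i _ => (intOn hb (cont_dens (hu i) hw l)).const_mul (c i)]
  refine integral_congr_ae (ae_of_all _ fun x => ?_)
  simp only [fderiv_comb hu, mul_sub, Finset.sum_sub_distrib, Finset.sum_mul, Finset.mul_sum]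
  rw [Finset.sum_comm]
  congr 1
  · exact Finset.sum_congr rfl fun _ _ => Finset.sum_congr rfl fun _ _ => by ring
  · exact Finset.sum_congr rfl fun _ _ => by ring

lemma bb_comb (hb : Bornology.IsBounded Ω) {ι : Type*} [Fintype ι] {u : ι → E n → ℝ}
    (hu : ∀ i, ContDiff ℝ 1 (u i)) (c : ι → ℝ) :
    bb Ω l (fun x => ∑ i, c i * u i x) (fun x => ∑ i, c i * u i x) =
      ∑ i, ∑ j, c i * c j * bb Ω l (u i) (u j) := by
  rw [bb_comb_left hb hu c (contDiff_comb hu c)]
  refine Finset.sum_congr rfl fun i _ => ?_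
  rw [bb_symm, bb_comb_left hb hu c (hu i), Finset.mul_sum]
  exact Finset.sum_congr rfl fun j _ => by rw [bb_symm]; ring

lemma bb_one (u : E n → ℝ) : bb Ω l u (fun _ => 1) = -l * ∫ x in Ω, u x := by
  rw [← integral_const_mul]
  simp [bb]

/-- A function vanishing on an open set containing `Ω` is in the kernel of the form. -/
lemma bb_zero_of (hm : MeasurableSet Ω) {U : Set (E n)} (hU : IsOpen U) (hΩ : Ω ⊆ U)
    {u : E n → ℝ} (h : ∀ x ∈ U, u x = 0) (w : E n → ℝ) : bb Ω l u w = 0 := by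
  refine setIntegral_eq_zero_of_forall_eq_zero fun x hx => ?_
  have : u =ᶠ[𝓝 x] fun _ => 0 := by
    filter_upwards [hU.mem_nhds (hΩ hx)] with y hy using h y hy
  have _ := hm
  simp [this.fderiv_eq, h x (hΩ hx)]

section JC

variable {P X Y Z : Type*} [TopologicalSpace P] [NormedAddCommGroup X] [NormedSpace ℝ X]
  [NormedAddCommGroup Y] [NormedSpace ℝ Y] [NormedAddCommGroup Z] [NormedSpace ℝ Z]

lemma JC.contDiff {Φ : P → X → Y} (h : JC Φ) (p : P) : ContDiff ℝ 1 (Φ p) := by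
  obtain ⟨D, -, h2, h3⟩ := h
  exact contDiff_one_iff_hasFDerivAt.2 ⟨D p, h2.comp (Continuous.prodMk_right p), h3 p⟩

lemma JC.cont {Φ : P → X → Y} (h : JC Φ) : Continuous fun z : P × X => Φ z.1 z.2 :=
  h.choose_spec.1

lemma JC.cont_fderiv {Φ : P → X → Y} (h : JC Φ) :
    Continuous fun z : P × X => fderiv ℝ (Φ z.1) z.2 := by
  obtain ⟨D, -, h2, h3⟩ := h
  simp only [fun p x => (h3 p x).fderiv]
  exact h2

lemma JC.comp {Ψ : P → Y → Z} {Φ : P → X → Y} (h : JC Ψ) (h' : JC Φ) :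
    JC fun p x => Ψ p (Φ p x) := by
  obtain ⟨D, h1, h2, h3⟩ := h
  obtain ⟨D', k1, k2, k3⟩ := h'
  exact ⟨fun p x => (D p (Φ p x)).comp (D' p x), h1.comp (continuous_fst.prodMk k1),
    (h2.comp (continuous_fst.prodMk k1)).clm_comp k2, fun p x => (h3 p _).comp x (k3 p x)⟩

lemma JC.param {Q : Type*} [TopologicalSpace Q] {Φ : P → X → Y} (h : JC Φ) {f : Q → P}
    (hf : Continuous f) : JC fun q => Φ (f q) := by
  obtain ⟨D, h1, h2, h3⟩ := h
  exact ⟨fun q => D (f q), h1.comp (hf.prodMap continuous_id), h2.comp (hf.prodMap continuous_id),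
    fun q x => h3 _ x⟩

lemma JC.of_contDiff {f : X → Y} (hf : ContDiff ℝ 1 f) : JC fun _ : P => f :=
  ⟨fun _ => fderiv ℝ f, hf.continuous.comp continuous_snd,
    (hf.continuous_fderiv one_ne_zero).comp continuous_snd,
    fun _ x => (hf.differentiable one_ne_zero x).hasFDerivAt⟩

lemma JC.const {f : P → Y} (hf : Continuous f) : JC fun p (_ : X) => f p :=
  ⟨fun _ _ => 0, hf.comp continuous_fst, continuous_const, fun _ x => hasFDerivAt_const _ x⟩

lemma JC.prodMk {Φ : P → X → Y} {Ψ : P → X → Z} (h : JC Φ) (h' : JC Ψ) :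
    JC fun p x => (Φ p x, Ψ p x) := by
  obtain ⟨D, h1, h2, h3⟩ := h
  obtain ⟨D', k1, k2, k3⟩ := h'
  exact ⟨fun p x => (D p x).prod (D' p x), h1.prodMk k1,
    (ContinuousLinearMap.prodₗᵢ ℝ).continuous.comp (h2.prodMk k2),
    fun p x => (h3 p x).prodMk (k3 p x)⟩

/-- A `C¹` function of two families. -/
lemma JC.map₂ {Z' : Type*} [NormedAddCommGroup Z'] [NormedSpace ℝ Z'] {Φ : P → X → Y}
    {Ψ : P → X → Z} (h : JC Φ) (h' : JC Ψ) {g : Y × Z → Z'} (hg : ContDiff ℝ 1 g) :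
    JC fun p x => g (Φ p x, Ψ p x) :=
  (JC.of_contDiff hg).comp (h.prodMk h')

end JC

end Pool.Agent.P.MP_f791b6_an.One
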