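import Pool.Agent.P.MP_f791b6_an.K1Basic

/-! The integral of the majorant. -/

open MeasureTheory Set Metric Filter Topology
open scoped ContDiff RealInnerProductSpace ENNReal

namespace Pool.Agent.P.MP_f791b6_an.One

variable {n m : ℕ}

lemma cap_of_one_le {n ρ s : ℝ} (hs : 1 ≤ s) : cap n ρ s = 0 := by
  unfold cap; rw [min_eq_right hs]; ring

lemma cap_continuous (n ρ : ℝ) : Continuous (cap n ρ) := by
  unfold cap; fun_prop

theorem cap_anti {n ρ : ℝ} (hn : 1 ≤ n) (hρ : 0 ≤ ρ) {s t : ℝ} (hs : 0 ≤ s) (hst : s ≤ t) :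
    cap n ρ t ≤ cap n ρ s := by
  unfold cap
  have h1 : 0 ≤ min s 1 := le_min hs zero_le_one
  have h2 : min s 1 ≤ min t 1 := min_le_min_right _ hst
  have h3 : min t 1 ≤ 1 := min_le_right _ _
  generalize min s 1 = a at *
  generalize min t 1 = b at *
  have e1 : (1 - b) ^ 2 ≤ (1 - a) ^ 2 := by nlinarith
  have e2 : (1 - b / 3) ^ 2 ≤ (1 - a / 3) ^ 2 := by nlinarith
  have e3 : a * (1 - a / 3) ^ 2 ≤ b * (1 - b / 3) ^ 2 := by
    have ha : 0 ≤ 1 - a := by linarith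
    have hb : 0 ≤ 1 - b := by linarith
    have hd : 0 ≤ b - a := by linarith
    have h4 : 0 ≤ (b - a) * (3 * ((1 - a) + (1 - b)) + (1 - a) ^ 2 + (1 - a) * (1 - b) +
        (1 - b) ^ 2) := by positivity
    nlinarith
  have e4 := mul_le_mul_of_nonneg_left e2 (show 0 ≤ n - 1 by linarith)
  have e5 := mul_le_mul_of_nonneg_left e3 hρ
  linarith

theorem cap_nonneg {n ρ : ℝ} (hn : 1 ≤ n) (hρ : 0 ≤ ρ) {s : ℝ} (hs : 0 ≤ s) : 0 ≤ cap n ρ s := by
  have h := cap_anti hn hρ hs (le_max_left s 1)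
  rwa [cap_of_one_le (le_max_right s 1)] at h

lemma cap_radial (k : ℕ) (N ρ : ℝ) {R : ℝ} (hR : 0 < R) :
    ∫ y in Ioi (0 : ℝ), y ^ k * cap N ρ (y ^ 2 / R ^ 2) =
      R ^ (k + 1) * ((N + 4 / 9 * (ρ - N + 1)) / (k + 1) - ((2 * N + 4) / 3 + ρ) / (k + 3) +
        ((N + 8) / 9 + 2 * ρ / 3) / (k + 5) - ρ / 9 / (k + 7)) := by
  have h1 : ∫ y in Ioi (0 : ℝ), y ^ k * cap N ρ (y ^ 2 / R ^ 2) =
      ∫ y in Ioc (0 : ℝ) R, y ^ k * cap N ρ (y ^ 2 / R ^ 2) := by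
    refine setIntegral_eq_of_subset_of_forall_sdiff_eq_zero measurableSet_Ioi Ioc_subset_Ioi_self
      fun y hy => ?_
    have hy0 : 0 < y := hy.1
    have hyR : R < y := by
      by_contra hc
      exact hy.2 ⟨hy0, not_lt.1 hc⟩
    rw [cap_of_one_le, mul_zero]
    rw [le_div_iff₀ (by positivity)]
    nlinarith
  rw [h1, ← intervalIntegral.integral_of_le hR.le]
  set c0 := N + 4 / 9 * (ρ - N + 1) with hc0
  set c1 := (2 * N + 4) / 3 + ρ with hc1
  set c2 := (N + 8) / 9 + 2 * ρ / 3 with hc2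
  set c3 := ρ / 9 with hc3
  have h2 : ∫ y in (0 : ℝ)..R, y ^ k * cap N ρ (y ^ 2 / R ^ 2) =
      ∫ y in (0 : ℝ)..R, (c0 * y ^ k - c1 / R ^ 2 * y ^ (k + 2) + c2 / R ^ 4 * y ^ (k + 4) -
        c3 / R ^ 6 * y ^ (k + 6)) := by
    refine intervalIntegral.integral_congr fun y hy => ?_
    rw [uIcc_of_le hR.le] at hy
    have h3 : y ^ 2 / R ^ 2 ≤ 1 := by
      rw [div_le_one (by positivity)]
      exact pow_le_pow_left₀ hy.1 hy.2 2
    simp only [cap, min_eq_left h3, hc0, hc1, hc2, hc3]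
    field_simp
    ring
  have hi : ∀ (c : ℝ) (j : ℕ), IntervalIntegrable (fun y : ℝ => c * y ^ j) volume 0 R :=
    fun c j => (by fun_prop : Continuous fun y : ℝ => c * y ^ j).intervalIntegrable _ _
  rw [h2, intervalIntegral.integral_sub (((hi _ _).sub (hi _ _)).add (hi _ _)) (hi _ _),
    intervalIntegral.integral_add ((hi _ _).sub (hi _ _)) (hi _ _),
    intervalIntegral.integral_sub (hi _ _) (hi _ _)]
  simp only [intervalIntegral.integral_const_mul, integral_pow]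
  push_cast
  simp only [zero_pow (Nat.succ_ne_zero _), sub_zero]
  field_simp
  ring

lemma cap_int_zero (hn : 1 ≤ n) {ρ R : ℝ} (hρ : ray n < ρ) (hR : 0 < R) :
    ∫ z : E n, cap n ρ (‖z‖ ^ 2 / R ^ 2) < 4 / 9 * (ρ - n + 1) * (R ^ n * om n) := by
  obtain ⟨k, rfl⟩ := Nat.exists_eq_add_of_le' hn
  have : Nontrivial (E (k + 1)) := inferInstance
  have h1 := integral_fun_norm_addHaar (volume : Measure (E (k + 1)))
    (fun y : ℝ => cap ((k + 1 : ℕ) : ℝ) ρ (y ^ 2 / R ^ 2))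
  rw [h1]
  simp only [finrank_euclideanSpace, Fintype.card_fin, Nat.add_sub_cancel, smul_eq_mul,
    nsmul_eq_mul]
  rw [cap_radial k _ ρ hR]
  have hom : 0 < om (k + 1) := om_pos
  change _ * (om (k + 1) * _) < _
  have hk : (0 : ℝ) ≤ k := Nat.cast_nonneg k
  unfold ray at hρ
  push_cast at hρ ⊢
  have hden : 0 < 1 / ((k : ℝ) + 1 + 2) - 2 / (3 * ((k : ℝ) + 1 + 4)) +
      1 / (9 * ((k : ℝ) + 1 + 6)) := by
    have e : 1 / ((k : ℝ) + 1 + 2) - 2 / (3 * ((k : ℝ) + 1 + 4)) =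
        ((k : ℝ) + 9) / (3 * ((k : ℝ) + 3) * ((k : ℝ) + 5)) := by
      field_simp; ring
    rw [e]; positivity
  rw [div_lt_iff₀ hden] at hρ
  have hpos : 0 < ((k : ℝ) + 1) * (R ^ (k + 1) * om (k + 1)) := by positivity
  have h3 := mul_lt_mul_of_pos_left hρ hpos
  have e2 : ((k : ℝ) + 1) * (om (k + 1) * (R ^ (k + 1) *
      (((k : ℝ) + 1 + 4 / 9 * (ρ - (k + 1) + 1)) / (k + 1) - ((2 * (k + 1) + 4) / 3 + ρ) / (k + 3) +
        (((k : ℝ) + 1 + 8) / 9 + 2 * ρ / 3) / (k + 5) - ρ / 9 / (k + 7)))) =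
      4 / 9 * (ρ - (k + 1) + 1) * (R ^ (k + 1) * om (k + 1)) +
        (((k : ℝ) + 1) * (R ^ (k + 1) * om (k + 1)) * ((4 * (k + 1) + 20) / (9 * (k + 1 + 4))) -
          ((k : ℝ) + 1) * (R ^ (k + 1) * om (k + 1)) * (ρ * (1 / ((k : ℝ) + 1 + 2) -
            2 / (3 * ((k : ℝ) + 1 + 4)) + 1 / (9 * ((k : ℝ) + 1 + 6))))) := by
    field_simp; ring
  rw [e2]
  linarith

theorem cap_int (hn : 1 ≤ n) {ρ R : ℝ} (hρ : ray n < ρ) (hR : 0 < R) :
    ∃ δ > 0, Integrable (fun z : E n => cap n ρ (max (‖z‖ - δ) 0 ^ 2 / R ^ 2)) ∧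
      ∫ z : E n, cap n ρ (max (‖z‖ - δ) 0 ^ 2 / R ^ 2) < 4 / 9 * (ρ - n + 1) * (R ^ n * om n) := by
  set f : ℝ → E n → ℝ := fun δ z => cap n ρ (max (‖z‖ - δ) 0 ^ 2 / R ^ 2) with hf
  have hc : Continuous f.uncurry := by
    have := cap_continuous (n : ℝ) ρ
    simp only [hf]
    unfold Function.uncurry
    fun_prop
  have hz : ∀ δ ≤ 1, ∀ z ∉ closedBall (0 : E n) (R + 1), f δ z = 0 := by
    intro δ hδ z hz
    rw [mem_closedBall_zero_iff, not_le] at hz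
    refine cap_of_one_le ?_
    rw [le_div_iff₀ (by positivity), one_mul]
    exact pow_le_pow_left₀ hR.le (le_max_of_le_left (by linarith)) 2
  have he : ∀ δ ≤ 1, ∫ z in closedBall (0 : E n) (R + 1), f δ z = ∫ z, f δ z :=
    fun δ hδ => setIntegral_eq_integral_of_forall_compl_eq_zero (hz δ hδ)
  have hcont := continuous_parametric_integral_of_continuous (μ := (volume : Measure (E n))) hc
    (isCompact_closedBall (0 : E n) (R + 1))
  have h0 : ∫ z in closedBall (0 : E n) (R + 1), f 0 z <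
      4 / 9 * (ρ - n + 1) * (R ^ n * om n) := by
    rw [he 0 zero_le_one]
    have : ∀ z : E n, f 0 z = cap n ρ (‖z‖ ^ 2 / R ^ 2) := fun z => by
      simp only [hf, sub_zero, max_eq_left (norm_nonneg z)]
    simp only [this]
    exact cap_int_zero hn hρ hR
  have h1 : ∀ᶠ δ in 𝓝 (0 : ℝ), ∫ z in closedBall (0 : E n) (R + 1), f δ z <
      4 / 9 * (ρ - n + 1) * (R ^ n * om n) :=
    hcont.continuousAt.eventually_lt continuousAt_const h0
  have h2 : ∀ᶠ δ in 𝓝 (0 : ℝ), δ < 1 := eventually_lt_nhds zero_lt_one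
  have h3 : ∀ᶠ δ in 𝓝[>] (0 : ℝ), (∫ z in closedBall (0 : E n) (R + 1), f δ z <
      4 / 9 * (ρ - n + 1) * (R ^ n * om n) ∧ δ < 1) ∧ 0 < δ :=
    ((h1.and h2).filter_mono nhdsWithin_le_nhds).and self_mem_nhdsWithin
  obtain ⟨δ, ⟨h4, h5⟩, h6⟩ := h3.exists
  refine ⟨δ, h6, ?_, ?_⟩
  · have h7 : Continuous (f δ) := hc.uncurry_left δ
    have h8 : HasCompactSupport (f δ) :=
      HasCompactSupport.intro (isCompact_closedBall (0 : E n) (R + 1)) (hz δ h5.le)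
    exact h7.integrable_of_hasCompactSupport h8
  · rw [he δ h5.le] at h4
    exact h4

end Pool.Agent.P.MP_f791b6_an.One
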