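import Pool.Agent.P.MP_f791b6_an.K1Basic

/-! The numerical comparison of the two thresholds. -/

open MeasureTheory Set Metric Filter Topology
open scoped ContDiff RealInnerProductSpace ENNReal

namespace Pool.Agent.P.MP_f791b6_an.One

variable {n m : ℕ}

lemma pos_of_eq {a b c : ℝ} (e : a * b = c) (hb : 0 < b) (hc : 0 < c) : 0 < a :=
  (mul_pos_iff_of_pos_right hb).1 (e ▸ hc)

lemma nonneg_of_eq {a b c : ℝ} (e : a * b = c) (hb : 0 < b) (hc : 0 ≤ c) : 0 ≤ a :=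
  (mul_nonneg_iff_of_pos_right hb).1 (e ▸ hc)

lemma yy_pos {x s : ℝ} (hx : 3 ≤ x) (h0 : 0 ≤ s) (h1 : s ≤ 4 * x + 26 / 5) : 0 < yy x s := by
  obtain ⟨v, hv, rfl⟩ : ∃ v, 0 ≤ v ∧ x = v + 3 := ⟨x - 3, by linarith, by ring⟩
  obtain ⟨t, ht, h⟩ : ∃ t, 0 ≤ t ∧ t = 4 * v + 86 / 5 - s := ⟨_, by linarith, rfl⟩
  have e : yy (v + 3) s * (3840 * (v + 5) * (v + 7) * (v + 9) * (v + 11) * (v + 13) *
      (4 * v + 86 / 5) ^ 5) =
      (172972800 + 107554560 * v + 25920000 * v ^ 2 + 3033600 * v ^ 3 + 172800 * v ^ 4 + 3840 *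
      v ^ 5) * t ^ 5 + (567350784 + 343092480 * v + 80931840 * v ^ 2 + 9315840 * v ^ 3 + 523776
      * v ^ 4 + 11520 * v ^ 5) * s * t ^ 4 + ((3612166272 / 5) + (2164036224 / 5) * v +
      (514044288 / 5) * v ^ 2 + (60030336 / 5) * v ^ 3 + 686592 * v ^ 4 + 15360 * v ^ 5) * s ^ 2
      * t ^ 3 + ((10867780352 / 25) + (6625742976 / 25) * v + (1634185984 / 25) * v ^ 2 +
      (39289216 / 5) * v ^ 3 + 456192 * v ^ 4 + 10240 * v ^ 5) * s ^ 3 * t ^ 2 + ((14754946336 /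
      125) + (9711751072 / 125) * v + (104709504 / 5) * v ^ 2 + (13246336 / 5) * v ^ 3 + 161024
      * v ^ 4 + 3840 * v ^ 5) * s ^ 4 * t + ((30869564224 / 3125) + (1022898528 / 125) * v +
      (63933184 / 25) * v ^ 2 + (1629568 / 5) * v ^ 3 + 18432 * v ^ 4 + 256 * v ^ 5) * s ^ 5 := by
    have : v + 3 + 2 ≠ 0 := by positivity
    have : v + 3 + 4 ≠ 0 := by positivity
    have : v + 3 + 6 ≠ 0 := by positivity
    have : v + 3 + 8 ≠ 0 := by positivity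
    have : v + 3 + 10 ≠ 0 := by positivity
    rw [h, yy]
    field_simp
    ring
  refine pos_of_eq e (by positivity) ?_
  rcases h0.eq_or_lt with rfl | hs
  · have : 0 < t := by linarith
    positivity
  · positivity

lemma la_le {x s : ℝ} (hx : 3 ≤ x) (h0 : 0 ≤ s) (h1 : s ≤ 4 * x + 26 / 5) : la x s ≤ yy x s := by
  obtain ⟨v, hv, rfl⟩ : ∃ v, 0 ≤ v ∧ x = v + 3 := ⟨x - 3, by linarith, by ring⟩
  obtain ⟨t, ht, h⟩ : ∃ t, 0 ≤ t ∧ t = 4 * v + 86 / 5 - s := ⟨_, by linarith, rfl⟩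
  have e : (yy (v + 3) s - la (v + 3) s) * (384 * (v + 3) * (v + 5) * (v + 7) * (v + 9) *
      (v + 11) * (v + 13) * (4 * v + 86 / 5) ^ 4) = s * (
      (3459456 + 1459200 * v + 226560 * v ^ 2 + 15360 * v ^ 3 + 384 * v ^ 4) * t ^ 4 +
      ((47938176 / 5) + (18314112 / 5) * v + (2607744 / 5) * v ^ 2 + (163968 / 5) * v ^ 3 + 768
      * v ^ 4) * s * t ^ 3 + ((250920384 / 25) + (87964032 / 25) * v + (12195648 / 25) * v ^ 2 +
      (156288 / 5) * v ^ 3 + 768 * v ^ 4) * s ^ 2 * t ^ 2 + ((577418816 / 125) + (184442432 /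
      125) * v + (1014912 / 5) * v ^ 2 + (61568 / 5) * v ^ 3 + 256 * v ^ 4) * s ^ 3 * t +
      ((498897296 / 625) + (30251968 / 125) * v + (963648 / 25) * v ^ 2 + (14464 / 5) * v ^ 3 +
      128 * v ^ 4) * s ^ 4) := by
    have : v + 3 ≠ 0 := by positivity
    have : v + 3 + 2 ≠ 0 := by positivity
    have : v + 3 + 4 ≠ 0 := by positivity
    have : v + 3 + 6 ≠ 0 := by positivity
    have : v + 3 + 8 ≠ 0 := by positivity
    have : v + 3 + 10 ≠ 0 := by positivity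
    rw [h, yy, la]
    field_simp
    ring
  exact sub_nonneg.1 (nonneg_of_eq e (by positivity) (by positivity))

lemma cert_of {x S : ℝ} (hx : 3 ≤ x) (h0 : 0 < S) (h1 : S ≤ 4 * x + 26 / 5)
    (h2 : 0 ≤ la x S + 5 / 4 * yy x S) : Cert x S :=
  ⟨h0, fun _ a b => ⟨yy_pos hx a (b.trans h1), la_le hx a (b.trans h1)⟩, h2⟩

lemma end_nonneg {x : ℝ} (hx : 5 ≤ x) :
    0 ≤ la x (4 * x + 26 / 5) + 5 / 4 * yy x (4 * x + 26 / 5) := by
  obtain ⟨v, hv, rfl⟩ : ∃ v, 0 ≤ v ∧ x = v + 5 := ⟨x - 5, by linarith, by ring⟩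
  have e : (la (v + 5) (4 * (v + 5) + 26 / 5) + 5 / 4 * yy (v + 5) (4 * (v + 5) + 26 / 5)) *
      (3840 * (v + 5) * (v + 7) * (v + 9) * (v + 11) * (v + 13) * (v + 15)) = 
      (46712780352 / 625) + (557911685304 / 3125) * v + (9414390168 / 125) * v ^ 2 + (332245344
      / 25) * v ^ 3 + (5676768 / 5) * v ^ 4 + 44992 * v ^ 5 + 576 * v ^ 6 := by
    have : v + 5 ≠ 0 := by positivity
    have : v + 5 + 2 ≠ 0 := by positivity
    have : v + 5 + 4 ≠ 0 := by positivity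
    have : v + 5 + 6 ≠ 0 := by positivity
    have : v + 5 + 8 ≠ 0 := by positivity
    have : v + 5 + 10 ≠ 0 := by positivity
    rw [yy, la]
    field_simp
    ring
  exact nonneg_of_eq e (by positivity) (by positivity)

lemma ray_lt {x : ℝ} (hx : 4 ≤ x) : ray x < x + 13 / 10 := by
  have e : ray x = (x + 5) * (x + 2) * (x + 6) / (x ^ 2 + 12 * x + 38) := by
    have : 1 / (x + 2) - 2 / (3 * (x + 4)) + 1 / (9 * (x + 6)) =
        4 * (x ^ 2 + 12 * x + 38) / (9 * (x + 2) * (x + 4) * (x + 6)) := by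
      field_simp
      ring
    rw [ray, this]
    field_simp
    ring
  rw [e, div_lt_iff₀ (by positivity)]
  nlinarith

theorem cert (hn : 3 ≤ n) : ∃ ρ S : ℝ, ray n < ρ ∧ (n : ℝ) - 1 ≤ ρ ∧ Cert n S ∧
    9 * 4 ^ (n - 1) * ρ ^ n ≤ 4 * S ^ n := by
  rcases hn.eq_or_lt with rfl | hn
  · refine ⟨434 / 100, 1434 / 100, ?_, by norm_num, cert_of (by norm_num) (by norm_num)
      (by norm_num) ?_, by norm_num⟩
    · norm_num [ray]
    · norm_num [la, yy]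
  rcases (show 4 ≤ n from hn).eq_or_lt with rfl | hn
  · refine ⟨53 / 10, 19, ?_, by norm_num, cert_of (by norm_num) (by norm_num)
      (by norm_num) ?_, by norm_num⟩
    · norm_num [ray]
    · norm_num [la, yy]
  have h5 : (5 : ℝ) ≤ n := by exact_mod_cast hn
  refine ⟨n + 13 / 10, 4 * n + 26 / 5, ray_lt (by linarith), by linarith,
    cert_of (by linarith) (by linarith) le_rfl (end_nonneg h5), ?_⟩
  obtain ⟨k, rfl⟩ : ∃ k, n = k + 1 := ⟨n - 1, by omega⟩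
  rw [show (4 * ((k + 1 : ℕ) : ℝ) + 26 / 5) = 4 * ((k + 1 : ℕ) + 13 / 10) by ring, mul_pow,
    Nat.add_sub_cancel, pow_succ (4 : ℝ)]
  have : 0 ≤ (4 : ℝ) ^ k * (((k + 1 : ℕ) : ℝ) + 13 / 10) ^ (k + 1) := by positivity
  nlinarith

end Pool.Agent.P.MP_f791b6_an.One
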