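import Pool.Agent.P.MP_f791b6_an.Vol

/-! Definitions for the comparison of the first Dirichlet value in every dimension. -/

open MeasureTheory Set Metric
open scoped ContDiff RealInnerProductSpace

namespace Pool.Agent.P.MP_f791b6_an.One

variable {n m : ℕ}

/-- The bilinear form energy minus `l` times mass, on real functions. -/
noncomputable def bb (Ω : Set (E n)) (l : ℝ) (u w : E n → ℝ) : ℝ :=
  ∫ x in Ω, (∑ j : Fin n, fderiv ℝ u x (EuclideanSpace.single j 1) *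
    fderiv ℝ w x (EuclideanSpace.single j 1) - l * (u x * w x))

/-- There are `k` functions of class `C¹` on whose span the form is negative definite. -/
def Good (Ω : Set (E n)) (l : ℝ) (k : ℕ) : Prop :=
  ∃ w : Fin k → E n → ℝ, (∀ i, ContDiff ℝ 1 (w i)) ∧
    ∀ c : Fin k → ℝ, c ≠ 0 →
      bb Ω l (fun x => ∑ i, c i * w i x) (fun x => ∑ i, c i * w i x) < 0

/-- The isoperimetric profile of Euclidean space. -/
noncomputable def iso (n : ℕ) (v : ℝ) : ℝ := n * om n ^ (1 / n : ℝ) * v ^ (1 - 1 / n : ℝ)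

/-- Truncated series of the mean of the radial Helmholtz solution over a ball. -/
noncomputable def yy (n s : ℝ) : ℝ :=
  1 - s / (2 * (n + 2)) + s ^ 2 / (8 * (n + 2) * (n + 4)) -
    s ^ 3 / (48 * (n + 2) * (n + 4) * (n + 6)) +
    s ^ 4 / (384 * (n + 2) * (n + 4) * (n + 6) * (n + 8)) -
    s ^ 5 / (3840 * (n + 2) * (n + 4) * (n + 6) * (n + 8) * (n + 10))

/-- Truncated series of the radial Helmholtz solution. -/
noncomputable def la (n s : ℝ) : ℝ :=
  1 - s / (2 * n) + s ^ 2 / (8 * n * (n + 2)) - s ^ 3 / (48 * n * (n + 2) * (n + 4)) +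
    s ^ 4 / (384 * n * (n + 2) * (n + 4) * (n + 6)) -
    s ^ 5 / (3840 * n * (n + 2) * (n + 4) * (n + 6) * (n + 8))

/-- The sign conditions on the two polynomials. -/
def Cert (n S : ℝ) : Prop :=
  0 < S ∧ (∀ s, 0 ≤ s → s ≤ S → 0 < yy n s ∧ la n s ≤ yy n s) ∧ 0 ≤ la n S + 5 / 4 * yy n S

/-- Rayleigh quotient on the unit ball of the cubic test map. -/
noncomputable def ray (n : ℝ) : ℝ :=
  (4 * n + 20) / (9 * (n + 4)) / (1 / (n + 2) - 2 / (3 * (n + 4)) + 1 / (9 * (n + 6)))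

/-- The ambient space of the folds. -/
abbrev W (n m : ℕ) := EuclideanSpace ℝ (Fin n ⊕ Fin m)

/-- The additional unit vectors. -/
noncomputable def ee (n : ℕ) (i : Fin m) : W n m := EuclideanSpace.single (Sum.inr i) 1

/-- Admissible parameters: orthonormal and triangular. -/
def Adm (a : Fin m → W n m) : Prop :=
  (∀ i k, i < k → ⟪a i, ee n k⟫ = 0) ∧ ∀ i k, ⟪a i, a k⟫ = if i = k then 1 else 0

/-- A family of maps which is jointly continuous together with its derivative. -/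
def JC {P X Y : Type*} [TopologicalSpace P] [NormedAddCommGroup X] [NormedSpace ℝ X]
    [NormedAddCommGroup Y] [NormedSpace ℝ Y] (Φ : P → X → Y) : Prop :=
  ∃ D : P → X → X →L[ℝ] Y, Continuous (Function.uncurry Φ) ∧ Continuous (Function.uncurry D) ∧
    ∀ p x, HasFDerivAt (Φ p) (D p x) x

/-- A family of iterated folds on the ball of radius `r`, up to an error `δ`. -/
structure Folds (n m : ℕ) (r δ : ℝ) (T : (Fin m → W n m) → E n → W n m) : Prop where
  jc : JC T
  even : ∀ (a : Fin m → W n m) (ε : Fin m → ℤˣ), T (fun i => ((ε i : ℤ) : ℝ) • a i) = T a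
  orth : ∀ a, Adm a → ∀ x ∈ ball (0 : E n) r, ∀ i, ⟪T a x, a i⟫ = 0
  lip : ∀ a, Adm a → LipschitzOnWith 1 (T a) (ball 0 r)
  bdd : ∀ a, Adm a → ∀ x ∈ ball (0 : E n) r, ‖T a x‖ ≤ r + δ
  apx : ∀ a, Adm a → ∃ (L : (Fin m → Bool) → E n →L[ℝ] W n m) (b : (Fin m → Bool) → W n m),
    (∀ σ x, ‖L σ x‖ = ‖x‖) ∧ ∀ x ∈ ball (0 : E n) r, ∃ σ, ‖T a x - (L σ x + b σ)‖ ≤ δ

/-- The radial profile of the test map. -/
structure Prof (γ : ℝ → ℝ) : Prop where
  smooth : ContDiff ℝ 1 γ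
  lo : ∀ s, s ≤ 1 → γ s = 1 - s / 3 ∧ deriv γ s = -1 / 3
  hi : ∀ s, 1 ≤ s → γ s = 2 / (3 * √s) ∧ deriv γ s = -1 / (3 * (s * √s))

/-- The components of the test map composed with a map `F`. -/
noncomputable def tst (γ : ℝ → ℝ) (R : ℝ) (F : E n → W n m) (A : W n m) (k : Fin n ⊕ Fin m)
    (x : E n) : ℝ :=
  γ (‖F x - A‖ ^ 2 / R ^ 2) * (F x - A) k

/-- The antitone majorant of the energy density, cut at the unit sphere. -/
noncomputable def cap (n ρ s : ℝ) : ℝ :=
  (1 - min s 1) ^ 2 + (n - 1) * (1 - min s 1 / 3) ^ 2 - ρ * (min s 1 * (1 - min s 1 / 3) ^ 2) +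
    4 / 9 * (ρ - n + 1)

end Pool.Agent.P.MP_f791b6_an.One
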