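import Pool.Agent.P.MP_f791b6_an.K1Basic

/-! The degree integral counts regular zeros with signs. -/

open MeasureTheory Set Metric Filter Topology
open scoped ContDiff RealInnerProductSpace ENNReal

namespace Pool.Agent.P.MP_f791b6_an.One

variable {n m : ℕ}

lemma deg_local {N : ℕ} {f : E N → E N} (hf : ContDiff ℝ 1 f) {z : E N}
    (hr : (fderiv ℝ f z).det ≠ 0) :
    map f (𝓝 z) = 𝓝 (f z) ∧ ∃ V ∈ 𝓝 z, InjOn f V ∧ ∀ x ∈ V, (fderiv ℝ f x).det =
      (if 0 < (fderiv ℝ f z).det then (1 : ℝ) else -1) * |(fderiv ℝ f x).det| := by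
  have hs : HasStrictFDerivAt f
      (((fderiv ℝ f z).toContinuousLinearEquivOfDetNeZero hr : E N ≃L[ℝ] E N) : E N →L[ℝ] E N)
      z := by
    rw [ContinuousLinearMap.coe_toContinuousLinearEquivOfDetNeZero]
    exact hf.contDiffAt.hasStrictFDerivAt one_ne_zero
  refine ⟨hs.map_nhds_eq_of_equiv, ?_⟩
  have hc : Continuous fun x => (fderiv ℝ f x).det :=
    ContinuousLinearMap.continuous_det.comp (hf.continuous_fderiv one_ne_zero)
  have hinj : InjOn f (hs.toOpenPartialHomeomorph f).source := by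
    have h := (hs.toOpenPartialHomeomorph f).injOn
    rwa [hs.toOpenPartialHomeomorph_coe] at h
  have hsrc : (hs.toOpenPartialHomeomorph f).source ∈ 𝓝 z :=
    (hs.toOpenPartialHomeomorph f).open_source.mem_nhds hs.mem_toOpenPartialHomeomorph_source
  by_cases hp : 0 < (fderiv ℝ f z).det
  · have h1 : {x | 0 < (fderiv ℝ f x).det} ∈ 𝓝 z :=
      (isOpen_lt continuous_const hc).mem_nhds hp
    refine ⟨_, inter_mem hsrc h1, hinj.mono inter_subset_left, fun x hx => ?_⟩
    have hx' : 0 < (fderiv ℝ f x).det := hx.2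
    rw [if_pos hp, abs_of_pos hx', one_mul]
  · have hn : (fderiv ℝ f z).det < 0 := lt_of_le_of_ne (not_lt.1 hp) hr
    have h1 : {x | (fderiv ℝ f x).det < 0} ∈ 𝓝 z :=
      (isOpen_lt hc continuous_const).mem_nhds hn
    refine ⟨_, inter_mem hsrc h1, hinj.mono inter_subset_left, fun x hx => ?_⟩
    have hx' : (fderiv ℝ f x).det < 0 := hx.2
    rw [if_neg hp, abs_of_neg hx']
    ring

theorem deg_sum {N : ℕ} {f : E N → E N} (hf : ContDiff ℝ 1 f) {K : Set (E N)} (hK : IsCompact K)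
    (Z : Finset (E N)) (hZ : ∀ x ∈ K, f x = 0 → x ∈ Z) (hZ0 : ∀ x ∈ Z, f x = 0)
    (hZi : ∀ x ∈ Z, x ∈ interior K) (hr : ∀ x ∈ Z, (fderiv ℝ f x).det ≠ 0) :
    ∃ μ > 0, ∀ ρ : E N → ℝ, Continuous ρ → (∀ y, μ ≤ ‖y‖ → ρ y = 0) →
      ∫ x in K, ρ (f x) * (fderiv ℝ f x).det =
        (∑ x ∈ Z, if 0 < (fderiv ℝ f x).det then (1 : ℝ) else -1) * ∫ y, ρ y := by
  have hc : Continuous fun x => (fderiv ℝ f x).det :=
    ContinuousLinearMap.continuous_det.comp (hf.continuous_fderiv one_ne_zero)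
  have hev : ∀ᶠ r in 𝓝 (0 : ℝ), ∀ z ∈ Z, (ball z r ⊆ K ∧ InjOn f (ball z r) ∧
      ∀ x ∈ ball z r, (fderiv ℝ f x).det =
        (if 0 < (fderiv ℝ f z).det then (1 : ℝ) else -1) * |(fderiv ℝ f x).det|) ∧
      ∀ z' ∈ Z, z ≠ z' → r < dist z z' / 2 := by
    refine (eventually_all_finset Z).2 fun z hz => ?_
    obtain ⟨-, V, hV, hi, hs⟩ := deg_local hf (hr z hz)
    refine Eventually.and ?_ ((eventually_all_finset Z).2 fun z' _ => ?_)
    · have h1 : V ∩ K ∈ 𝓝 z := inter_mem hV (mem_interior_iff_mem_nhds.1 (hZi z hz))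
      filter_upwards [eventually_ball_subset h1] with r hr'
      exact ⟨fun x hx => (hr' hx).2, hi.mono fun x hx => (hr' hx).1, fun x hx => hs x (hr' hx).1⟩
    · by_cases h : z = z'
      · exact Eventually.of_forall fun r h' => absurd h h'
      · have : 0 < dist z z' / 2 := half_pos (dist_pos.2 h)
        filter_upwards [gt_mem_nhds this] with r hr' _ using hr'
  obtain ⟨r, hP, hr0⟩ := ((hev.filter_mono (nhdsWithin_le_nhds (s := Ioi (0 : ℝ)))).and
    self_mem_nhdsWithin).exists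
  have hr0 : 0 < r := hr0
  have hopen : IsOpen (⋃ z ∈ Z, ball z r) := isOpen_biUnion fun z _ => isOpen_ball
  obtain ⟨μ0, hμ0, h0⟩ := (hK.diff hopen).exists_forall_le' (a := (0 : ℝ))
    (f := fun x => ‖f x‖) hf.continuous.norm.continuousOn (by
      intro x hx
      refine norm_pos_iff.2 fun h => hx.2 ?_
      exact mem_biUnion (hZ x hx.1 h) (mem_ball_self hr0))
  have hnb : (⋂ z ∈ Z, f '' ball z r) ∈ 𝓝 (0 : E N) := by
    refine (biInter_finset_mem Z).2 fun z hz => ?_
    have h := image_mem_map (m := f) (ball_mem_nhds z hr0)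
    rwa [(deg_local hf (hr z hz)).1, hZ0 z hz] at h
  obtain ⟨μ1, hμ1, h1⟩ := Metric.mem_nhds_iff.1 hnb
  refine ⟨min μ0 μ1, lt_min hμ0 hμ1, fun ρ hρ hρ0 => ?_⟩
  have hg : Continuous fun x => ρ (f x) * (fderiv ℝ f x).det := (hρ.comp hf.continuous).mul hc
  have hsub : (⋃ z ∈ Z, ball z r) ⊆ K := iUnion₂_subset fun z hz => (hP z hz).1.1
  rw [setIntegral_eq_of_subset_of_forall_sdiff_eq_zero hK.measurableSet hsub (fun x hx => by
    rw [hρ0 _ ((min_le_left _ _).trans (h0 x hx)), zero_mul])]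
  rw [integral_biUnion_finset Z (fun z _ => measurableSet_ball) (fun z hz z' hz' hne => by
    refine ball_disjoint_ball ?_
    have := (hP z hz).2 z' hz' hne
    linarith) (fun z hz => (hg.continuousOn.integrableOn_compact hK).mono_set (hP z hz).1.1),
    Finset.sum_mul]
  refine Finset.sum_congr rfl fun z hz => ?_
  obtain ⟨⟨-, hi, hs⟩, -⟩ := hP z hz
  have hcv := integral_image_eq_integral_abs_det_fderiv_smul (volume : Measure (E N))
    (s := ball z r) (f := f) (f' := fun x => fderiv ℝ f x) measurableSet_ball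
    (fun x _ => (hf.differentiable one_ne_zero x).hasFDerivAt.hasFDerivWithinAt) hi ρ
  have hall : ∫ y in f '' ball z r, ρ y = ∫ y, ρ y := by
    refine setIntegral_eq_integral_of_forall_compl_eq_zero fun y hy => hρ0 y ?_
    refine (min_le_right _ _).trans (not_lt.1 fun h => hy ?_)
    exact mem_iInter₂.1 (h1 (mem_ball_zero_iff.2 h)) z hz
  rw [← hall, hcv, ← integral_const_mul]
  refine setIntegral_congr_fun measurableSet_ball fun x hx => ?_
  simp only [smul_eq_mul]
  have h := hs x hx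
  calc ρ (f x) * (fderiv ℝ f x).det
      = ρ (f x) * ((if 0 < (fderiv ℝ f z).det then (1 : ℝ) else -1) * |(fderiv ℝ f x).det|) := by
        rw [← h]
    _ = _ := by ring

end Pool.Agent.P.MP_f791b6_an.One
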