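import Pool.Agent.P.MP_f791b6_an.K1Basic

/-! A nonnegative test function, and the greedy construction of a negative space. -/

open MeasureTheory Set Metric Filter Topology
open scoped ContDiff RealInnerProductSpace ENNReal

namespace Pool.Agent.P.MP_f791b6_an.One

variable {n m : ℕ}

/-- The derivative of the regularised modulus is at most the derivative of the function. -/
lemma reg_fderiv_le {u : E n → ℂ} (hu : ContDiff ℝ 1 u) {ε : ℝ} (hε : 0 < ε) (x v : E n) :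
    (fderiv ℝ (fun y => √(‖u y‖ ^ 2 + ε ^ 2) - ε) x v) ^ 2 ≤ ‖fderiv ℝ u x v‖ ^ 2 := by
  have hpos : 0 < ‖u x‖ ^ 2 + ε ^ 2 := by positivity
  have h1 := (hu.differentiable one_ne_zero x).hasFDerivAt
  have h2 := ((h1.norm_sq.add_const (ε ^ 2)).sqrt hpos.ne').sub_const ε
  rw [h2.fderiv]
  have hs : 0 < √(‖u x‖ ^ 2 + ε ^ 2) := Real.sqrt_pos.2 hpos
  have hsq : √(‖u x‖ ^ 2 + ε ^ 2) ^ 2 = ‖u x‖ ^ 2 + ε ^ 2 := Real.sq_sqrt hpos.le
  have e : ((1 / (2 * √(‖u x‖ ^ 2 + ε ^ 2))) •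
      (2 • (innerSL ℝ (u x)).comp (fderiv ℝ u x))) v =
      ⟪u x, fderiv ℝ u x v⟫ / √(‖u x‖ ^ 2 + ε ^ 2) := by
    simp only [smul_apply, ContinuousLinearMap.comp_apply, innerSL_apply_apply,
      smul_eq_mul, nsmul_eq_mul]
    field_simp
    norm_num
  rw [e, div_pow, hsq, div_le_iff₀ hpos]
  have h3 : |⟪u x, fderiv ℝ u x v⟫| ≤ ‖u x‖ * ‖fderiv ℝ u x v‖ := abs_real_inner_le_norm _ _
  have h4 : ⟪u x, fderiv ℝ u x v⟫ ^ 2 ≤ (‖u x‖ * ‖fderiv ℝ u x v‖) ^ 2 := by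
    rw [← sq_abs]
    exact pow_le_pow_left₀ (abs_nonneg _) h3 2
  nlinarith [sq_nonneg (‖fderiv ℝ u x v‖ * ε)]

lemma reg_lower {a ε : ℝ} (ha : 0 ≤ a) (hε : 0 < ε) :
    a ^ 2 - 2 * ε * a ≤ (√(a ^ 2 + ε ^ 2) - ε) ^ 2 := by
  have hsq : √(a ^ 2 + ε ^ 2) ^ 2 = a ^ 2 + ε ^ 2 := Real.sq_sqrt (by positivity)
  have h1 : √(a ^ 2 + ε ^ 2) ≤ a + ε := Real.sqrt_le_iff.2 ⟨by positivity, by nlinarith⟩
  nlinarith

lemma exists_eps {a M A t : ℝ} (ht : 0 < t) (hA : 0 ≤ A) (h : a < t * M) :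
    ∃ ε : ℝ, 0 < ε ∧ a < t * (M - 2 * ε * A) := by
  have hp : 0 < 2 * t * A + 1 := by positivity
  have hq : 0 < (t * M - a) / (2 * t * A + 1) := div_pos (by linarith) hp
  refine ⟨(t * M - a) / (2 * t * A + 1), hq, ?_⟩
  have e : (t * M - a) / (2 * t * A + 1) * (2 * t * A + 1) = t * M - a := div_mul_cancel₀ _ hp.ne'
  nlinarith

lemma exists_test_of {u : E n → ℂ} (s1 : ContDiff ℝ 1 u) (cu : HasCompactSupport u) {t : ℝ}
    (ht0 : 0 < t)
    (hlt : ∫ x, ∑ j : Fin n, ‖fderiv ℝ u x (EuclideanSpace.single j (1 : ℝ))‖ ^ 2 <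
      t * ∫ x, ‖u x‖ ^ 2) :
    ∃ f : E n → ℝ, ContDiff ℝ 1 f ∧ HasCompactSupport f ∧ tsupport f ⊆ tsupport u ∧
      (∀ x, 0 ≤ f x) ∧ ∫ x, ‖fderiv ℝ f x‖ ^ 2 < t * ∫ x, f x ^ 2 := by
  have hc := s1.continuous
  have hd := s1.continuous_fderiv one_ne_zero
  have hfd0 : ∀ x, x ∉ tsupport u → fderiv ℝ u x = 0 := fun x hx =>
    image_eq_zero_of_notMem_tsupport fun h => hx (tsupport_fderiv_subset ℝ h)
  have h1 : Continuous fun x => ‖u x‖ ^ 2 := by fun_prop
  have h2 : HasCompactSupport fun x => ‖u x‖ ^ 2 :=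
    cu.comp_left (g := fun x : ℂ => ‖x‖ ^ 2) (by simp)
  have i2 : Integrable fun x => ‖u x‖ ^ 2 := h1.integrable_of_hasCompactSupport h2
  have i1 : Integrable fun x => ‖u x‖ := hc.norm.integrable_of_hasCompactSupport cu.norm
  obtain ⟨ε, hε, hεA⟩ := exists_eps ht0
    (integral_nonneg fun x => norm_nonneg (u x) : 0 ≤ ∫ x, ‖u x‖) hlt
  obtain ⟨g, hg⟩ : ∃ g : ℂ → ℝ, g = fun z => √(‖z‖ ^ 2 + ε ^ 2) - ε := ⟨_, rfl⟩
  have g0 : g 0 = 0 := by simp [hg, Real.sqrt_sq hε.le]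
  have sf : ContDiff ℝ 1 fun y => g (u y) := by
    rw [hg]
    exact (((s1.norm_sq ℝ).add contDiff_const).sqrt fun x => by positivity).sub contDiff_const
  have cf : HasCompactSupport fun y => g (u y) := cu.comp_left g0
  refine ⟨fun y => g (u y), sf, cf, tsupport_comp_subset g0 u, fun x => ?_, ?_⟩
  · rw [hg]
    exact sub_nonneg.2 (Real.le_sqrt_of_sq_le (le_add_of_nonneg_left (sq_nonneg _)))
  have i3 : Integrable fun x =>
      ∑ j : Fin n, ‖fderiv ℝ u x (EuclideanSpace.single j (1 : ℝ))‖ ^ 2 := by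
    refine Continuous.integrable_of_hasCompactSupport (by fun_prop) ?_
    exact HasCompactSupport.intro cu fun x hx => by simp [hfd0 x hx]
  have h3 : Continuous fun y => g (u y) ^ 2 := sf.continuous.pow 2
  have h4 : HasCompactSupport fun y => g (u y) ^ 2 :=
    cf.comp_left (g := fun s : ℝ => s ^ 2) (by simp)
  have i4 : Integrable fun y => g (u y) ^ 2 := h3.integrable_of_hasCompactSupport h4
  refine lt_of_le_of_lt ?_ (hεA.trans_le (mul_le_mul_of_nonneg_left ?_ ht0.le))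
  · refine integral_mono_of_nonneg (ae_of_all _ fun _ => sq_nonneg _) i3
      (ae_of_all _ fun x => ?_)
    simp only [norm_sq_clm, hg]
    exact Finset.sum_le_sum fun j _ => reg_fderiv_le s1 hε x _
  · rw [← integral_const_mul, ← integral_sub i2 (i1.const_mul _)]
    refine integral_mono (i2.sub (i1.const_mul _)) i4 fun x => ?_
    rw [hg]
    exact reg_lower (norm_nonneg _) hε

theorem exists_test {Ω : Set (E n)} {t : ℝ} (h : dirichletEig Ω 1 < ENNReal.ofReal t) :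
    ∃ f : E n → ℝ, ContDiff ℝ 1 f ∧ HasCompactSupport f ∧ tsupport f ⊆ Ω ∧ (∀ x, 0 ≤ f x) ∧
      ∫ x, ‖fderiv ℝ f x‖ ^ 2 < t * ∫ x, f x ^ 2 := by
  obtain ⟨L, h⟩ := iInf_lt_iff.1 h
  obtain ⟨hk, h⟩ := iInf_lt_iff.1 h
  obtain ⟨hL, ht⟩ := iInf_lt_iff.1 h
  obtain ⟨u, hu, h0⟩ := Submodule.exists_mem_ne_zero_of_ne_bot (p := L) (by
    rintro rfl; simp at hk)
  obtain ⟨su, cu, tu⟩ := hL u hu
  have s1 : ContDiff ℝ 1 u := su.of_le (by simp)
  have hc := su.continuous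
  have hmass : mass Ω u = ∫ x, ‖u x‖ ^ 2 :=
    setIntegral_eq_integral_of_forall_compl_eq_zero fun x hx => by
      simp [image_eq_zero_of_notMem_tsupport fun h => hx (tu h)]
  have hfd0 : ∀ x, x ∉ tsupport u → fderiv ℝ u x = 0 := fun x hx =>
    image_eq_zero_of_notMem_tsupport fun h => hx (tsupport_fderiv_subset ℝ h)
  have hen : energy Ω u =
      ∫ x, ∑ j : Fin n, ‖fderiv ℝ u x (EuclideanSpace.single j (1 : ℝ))‖ ^ 2 :=
    setIntegral_eq_integral_of_forall_compl_eq_zero fun x hx => by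
      simp [hfd0 x fun h => hx (tu h)]
  have h1 : Continuous fun x => ‖u x‖ ^ 2 := hc.norm.pow 2
  have h2 : HasCompactSupport fun x => ‖u x‖ ^ 2 :=
    cu.comp_left (g := fun x : ℂ => ‖x‖ ^ 2) (by simp)
  have hm0 : 0 < mass Ω u := by
    rw [hmass]
    obtain ⟨x, hx⟩ := Function.ne_iff.mp h0
    exact integral_pos_of_integrable_nonneg_nonzero (x := x) h1
      (h1.integrable_of_hasCompactSupport h2) (fun x => by positivity) (by simpa using hx)
  have he0 : 0 ≤ energy Ω u := integral_nonneg fun _ => by positivity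
  have hlt : energy Ω u / mass Ω u < t := by
    rw [← ENNReal.ofReal_lt_ofReal_iff_of_nonneg (div_nonneg he0 hm0.le)]
    refine lt_of_le_of_lt ?_ ht
    unfold rayleighSup
    exact le_iSup_of_le u (le_iSup_of_le hu (le_iSup_of_le (show u ≠ 0 from h0) le_rfl))
  have ht0 : 0 < t := (div_nonneg he0 hm0.le).trans_lt hlt
  rw [div_lt_iff₀ hm0, hen, hmass] at hlt
  obtain ⟨f, a1, a2, a3, a4, a5⟩ := exists_test_of s1 cu ht0 hlt
  exact ⟨f, a1, a2, a3.trans tu, a4, a5⟩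

theorem greedy {Ω : Set (E n)} (hb : Bornology.IsBounded Ω) (hV : 0 < volume.real Ω) {l : ℝ}
    (hl : 0 < l) (h : ∀ w : Fin m → E n → ℝ, (∀ j, ContDiff ℝ 1 (w j)) →
      ∃ f : E n → ℝ, ContDiff ℝ 1 f ∧ ∫ x in Ω, f x = 0 ∧ (∀ j, bb Ω l f (w j) = 0) ∧
        bb Ω l f f < 0) : Good Ω l (m + 2) := by
  have key : ∀ j, j ≤ m + 1 → ∃ w : ℕ → E n → ℝ, (∀ i, ContDiff ℝ 1 (w i)) ∧
      w 0 = (fun _ => 1) ∧ (∀ i k, i < k → k ≤ j → bb Ω l (w k) (w i) = 0) ∧
      ∀ i, i ≤ j → bb Ω l (w i) (w i) < 0 := by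
    intro j
    induction j with
    | zero =>
      refine fun _ => ⟨fun _ _ => 1, fun _ => contDiff_const, rfl, fun i k h1 h2 => by omega,
        fun i _ => ?_⟩
      rw [bb_one, setIntegral_const, smul_eq_mul, mul_one]
      nlinarith
    | succ j ih =>
      intro hj
      obtain ⟨w, s, w0, ho, hn⟩ := ih (by omega)
      obtain ⟨f, sf, mf, of, nf⟩ := h (fun i => w (i + 1)) fun i => s _
      refine ⟨Function.update w (j + 1) f, fun i => ?_, ?_, fun i k h1 h2 => ?_, fun i hi => ?_⟩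
      · by_cases hi : i = j + 1
        · rw [hi, Function.update_self]; exact sf
        · rw [Function.update_of_ne hi]; exact s i
      · rw [Function.update_of_ne (by omega), w0]
      · rw [Function.update_of_ne (show i ≠ j + 1 by omega)]
        by_cases hk : k = j + 1
        · rw [hk, Function.update_self]
          rcases i with _ | i
          · rw [w0, bb_one, mf, mul_zero]
          · exact of ⟨i, by omega⟩
        · rw [Function.update_of_ne hk]; exact ho i k h1 (by omega)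
      · by_cases hk : i = j + 1
        · rw [hk, Function.update_self]; exact nf
        · rw [Function.update_of_ne hk]; exact hn i (by omega)
  obtain ⟨w, s, -, ho, hn⟩ := key (m + 1) le_rfl
  refine ⟨fun i => w i, fun i => s i, fun c hc => ?_⟩
  rw [bb_comb hb (u := fun i : Fin (m + 2) => w i) (fun i => s i) c]
  have e : ∀ i : Fin (m + 2), ∑ k : Fin (m + 2), c i * c k * bb Ω l (w i) (w k) =
      c i ^ 2 * bb Ω l (w i) (w i) := by
    intro i
    rw [Finset.sum_eq_single i (fun k _ hk => ?_) (by simp), sq]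
    have hne : (k : ℕ) ≠ i := fun h => hk (Fin.ext h)
    rcases lt_or_gt_of_ne hne with h1 | h1
    · rw [ho k i h1 (by omega), mul_zero]
    · rw [bb_symm, ho i k h1 (by omega), mul_zero]
  simp only [e]
  obtain ⟨i, hi⟩ := Function.ne_iff.mp hc
  have hneg : ∀ k : Fin (m + 2), bb Ω l (w k) (w k) < 0 := fun k => hn k (by omega)
  calc ∑ k : Fin (m + 2), c k ^ 2 * bb Ω l (w k) (w k) < ∑ _k : Fin (m + 2), (0 : ℝ) :=
        Finset.sum_lt_sum (fun k _ => mul_nonpos_of_nonneg_of_nonpos (sq_nonneg _) (hneg k).le)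
          ⟨i, Finset.mem_univ _, mul_neg_of_pos_of_neg (sq_pos_of_ne_zero hi) (hneg i)⟩
    _ = 0 := by simp

end Pool.Agent.P.MP_f791b6_an.One
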