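import Pool.Agent.P.MP_f791b6_an.K1Pt
import Pool.Agent.P.MP_f791b6_an.K1Cap

/-! Large volume: the folded test maps have negative total form. -/

open MeasureTheory Set Metric Filter Topology
open scoped ContDiff RealInnerProductSpace ENNReal

namespace Pool.Agent.P.MP_f791b6_an.One

variable {n m : ℕ}

theorem jc_tst {γ : ℝ → ℝ} (hγ : Prof γ) (R : ℝ) {T : (Fin m → W n m) → E n → W n m}
    (hT : JC T) (k : Fin n ⊕ Fin m) :
    JC fun p : (Fin m → W n m) × W n m => tst γ R (T p.1) p.2 k := by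
  have h1 : ContDiff ℝ 1 fun z : W n m × W n m => z.1 - z.2 := contDiff_fst.sub contDiff_snd
  have h2 : ContDiff ℝ 1 fun z : W n m × W n m => ‖z.1 - z.2‖ ^ 2 / R ^ 2 :=
    (h1.norm_sq ℝ).div_const _
  have h3 : ContDiff ℝ 1 fun z : W n m × W n m => (z.1 - z.2) k :=
    (EuclideanSpace.proj k : W n m →L[ℝ] ℝ).contDiff.comp h1
  have hg : ContDiff ℝ 1 fun z : W n m × W n m => γ (‖z.1 - z.2‖ ^ 2 / R ^ 2) * (z.1 - z.2) k :=
    (hγ.smooth.comp h2).mul h3
  exact JC.map₂ (P := (Fin m → W n m) × W n m) (hT.param continuous_fst)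
    (JC.const continuous_snd) hg

lemma energy_centre (L : E n →L[ℝ] W n m) (hL : ∀ x, ‖L x‖ = ‖x‖) (w : W n m) :
    ∃ z : E n, ∀ x, ‖x - z‖ ≤ ‖L x + w‖ := by
  refine ⟨-(ContinuousLinearMap.adjoint L w), fun x => ?_⟩
  set u := x - -(ContinuousLinearMap.adjoint L w) with hu
  have h1 : ⟪L x, L u⟫ = ⟪x, u⟫ :=
    LinearIsometry.inner_map_map (⟨L.toLinearMap, hL⟩ : E n →ₗᵢ[ℝ] W n m) x u
  have h2 : ‖u‖ ^ 2 = ⟪L x + w, L u⟫ := by
    rw [inner_add_left, h1, ← ContinuousLinearMap.adjoint_inner_left, ← inner_add_left,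
      ← real_inner_self_eq_norm_sq]
    congr 1
    rw [hu, sub_neg_eq_add]
  have h3 : ⟪L x + w, L u⟫ ≤ ‖L x + w‖ * ‖u‖ := by
    rw [← hL u]; exact real_inner_le_norm _ _
  by_contra hc
  push Not at hc
  have h4 : 0 < ‖u‖ := lt_of_le_of_lt (norm_nonneg _) hc
  nlinarith

theorem energy_neg (hn : 1 ≤ n) {Ω : Set (E n)} (hm : MeasurableSet Ω) {r : ℝ}
    (hr : Ω ⊆ ball 0 r) {γ : ℝ → ℝ} (hγ : Prof γ) {R l ρ : ℝ} (hR : 0 < R)
    (hρ : l * R ^ 2 = ρ) (hρ' : (n : ℝ) - 1 ≤ ρ) (hray : ray n < ρ)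
    (hV : 2 ^ m * (R ^ n * om n) ≤ volume.real Ω) :
    ∃ δ > 0, ∀ T, Folds n m r δ T → ∀ a A, Adm a → (∀ i, ⟪A, a i⟫ = 0) →
      ∑ k, bb Ω l (tst γ R (T a) A k) (tst γ R (T a) A k) < 0 := by
  obtain ⟨δ, hδ, hint, hlt⟩ := cap_int hn hray hR
  refine ⟨δ, hδ, fun T hT a A ha hA => ?_⟩
  have hn' : (1 : ℝ) ≤ n := by exact_mod_cast hn
  have hρ0 : 0 ≤ ρ := by linarith
  have hb : Bornology.IsBounded Ω := isBounded_ball.subset hr
  have hfin : volume Ω ≠ ⊤ := hb.measure_lt_top.ne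
  set c : E n → ℝ := fun z => cap n ρ (max (‖z‖ - δ) 0 ^ 2 / R ^ 2) with hc
  have hc0 : ∀ z, 0 ≤ c z := fun z => cap_nonneg hn' hρ0 (by positivity)
  obtain ⟨L, b, hL, hap⟩ := hT.apx a ha
  choose z hz using fun σ => energy_centre (L σ) (hL σ) (b σ - A)
  have hk : ∀ k, ContDiff ℝ 1 (tst γ R (T a) A k) := fun k =>
    (jc_tst hγ R hT.jc k).contDiff (a, A)
  have hci : ∀ σ, Integrable fun x => c (x - z σ) := fun σ => hint.comp_sub_right (z σ)
  have hpt : ∀ x ∈ Ω, ∑ k, (∑ j : Fin n, fderiv ℝ (tst γ R (T a) A k) x (EuclideanSpace.single j 1) *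
      fderiv ℝ (tst γ R (T a) A k) x (EuclideanSpace.single j 1) -
      l * (tst γ R (T a) A k x * tst γ R (T a) A k x)) ≤
      ∑ σ, c (x - z σ) - 4 / 9 * (ρ - n + 1) := by
    intro x hx
    have hx' := hr hx
    have hnb : ball (0 : E n) r ∈ 𝓝 x := isOpen_ball.mem_nhds hx'
    have hF : HasFDerivAt (T a) (fderiv ℝ (T a) x) x :=
      ((hT.jc.contDiff a).differentiable one_ne_zero x).hasFDerivAt
    have hD : ‖fderiv ℝ (T a) x‖ ≤ 1 := by
      simpa using norm_fderiv_le_of_lipschitzOn ℝ hnb (hT.lip a ha)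
    have hDa : ∀ v i, ⟪fderiv ℝ (T a) x v, a i⟫ = 0 := by
      intro v i
      have h1 := (innerSL ℝ (a i)).hasFDerivAt.comp x hF
      have h2 : (innerSL ℝ (a i)) ∘ T a =ᶠ[𝓝 x] fun _ => 0 := by
        filter_upwards [hnb] with y hy
        show ⟪a i, T a y⟫ = 0
        rw [real_inner_comm]
        exact hT.orth a ha y hy i
      have h3 := h1.unique ((hasFDerivAt_const (0 : ℝ) x).congr_of_eventuallyEq h2)
      have h4 := congrArg (fun f => f v) h3
      rw [real_inner_comm]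
      simpa using h4
    have hy : ∀ i, ⟪T a x - A, a i⟫ = 0 := fun i => by
      rw [inner_sub_left, hT.orth a ha x hx' i, hA i, sub_zero]
    refine (pointwise hn hγ hR hρ hρ' ha hF hD hDa hy).trans (sub_le_sub_right ?_ _)
    obtain ⟨σ, hσ⟩ := hap x hx'
    have h5 : ‖x - z σ‖ ≤ ‖T a x - A‖ + δ := by
      refine (hz σ x).trans ?_
      have e : L σ x + (b σ - A) = (T a x - A) - (T a x - (L σ x + b σ)) := by abel
      rw [e]
      exact (norm_sub_le _ _).trans (add_le_add le_rfl hσ)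
    have h6 : max (‖x - z σ‖ - δ) 0 ≤ ‖T a x - A‖ := max_le (by linarith) (norm_nonneg _)
    have h7 : cap n ρ (‖T a x - A‖ ^ 2 / R ^ 2) ≤ c (x - z σ) :=
      cap_anti hn' hρ0 (by positivity)
        (div_le_div_of_nonneg_right (pow_le_pow_left₀ (le_max_right _ _) h6 2) (by positivity))
    exact h7.trans (Finset.single_le_sum (f := fun σ => c (x - z σ)) (fun σ _ => hc0 _)
      (Finset.mem_univ σ))
  have hsum : IntegrableOn (fun x => ∑ σ, c (x - z σ)) Ω :=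
    (integrable_finsetSum _ fun σ _ => hci σ).integrableOn
  have hconst : IntegrableOn (fun _ : E n => 4 / 9 * (ρ - n + 1)) Ω := integrableOn_const hfin
  have h1 : ∑ k, bb Ω l (tst γ R (T a) A k) (tst γ R (T a) A k) ≤
      ∫ x in Ω, (∑ σ, c (x - z σ) - 4 / 9 * (ρ - n + 1)) := by
    simp only [bb]
    rw [← integral_finsetSum _ fun k _ => intOn hb (cont_dens (hk k) (hk k) l)]
    exact setIntegral_mono_on
      (integrable_finsetSum _ fun k _ => intOn hb (cont_dens (hk k) (hk k) l))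
      (hsum.sub hconst) hm hpt
  have h2 : ∫ x in Ω, ∑ σ, c (x - z σ) ≤ 2 ^ m * ∫ x, c x := by
    calc ∫ x in Ω, ∑ σ, c (x - z σ) ≤ ∫ x, ∑ σ, c (x - z σ) :=
          setIntegral_le_integral (integrable_finsetSum _ fun σ _ => hci σ)
            (ae_of_all _ fun x => Finset.sum_nonneg fun σ _ => hc0 _)
      _ = ∑ σ : Fin m → Bool, ∫ x, c x := by
          rw [integral_finsetSum _ fun σ _ => hci σ]
          exact Finset.sum_congr rfl fun σ _ => integral_sub_right_eq_self c (z σ)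
      _ = 2 ^ m * ∫ x, c x := by simp
  rw [integral_sub hsum hconst, setIntegral_const, smul_eq_mul] at h1
  have h3 : (0 : ℝ) < 2 ^ m := by positivity
  have h4 : 0 ≤ 4 / 9 * (ρ - n + 1) := by linarith
  have h5 := mul_lt_mul_of_pos_left hlt h3
  have h6 := mul_le_mul_of_nonneg_right hV h4
  nlinarith

end Pool.Agent.P.MP_f791b6_an.One
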