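import Pool.Agent.P.MP_f791b6_an.K1Gen

/-! An equivariant map homotopic to a map with one regular orbit of zeros has a zero. -/

open MeasureTheory Set Metric Filter Topology
open scoped ContDiff RealInnerProductSpace ENNReal

namespace Pool.Agent.P.MP_f791b6_an.One

variable {n m : ℕ}

variable {V : Type} [NormedAddCommGroup V] [NormedSpace ℝ V] [FiniteDimensional ℝ V]

variable {G : Type} [Group G] [Fintype G]

theorem cover {ρ : G → V →L[ℝ] V} (hρ : Act ρ) {K O : Set V} (hK : IsCompact K) (hO : IsOpen O)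
    (hKO : K ⊆ O) (hfree : ∀ y ∈ K, ∀ g, ρ g y = y → g = 1) :
    ∃ (M : ℕ) (U C : Fin M → Set V) (χ β : Fin M → V → ℝ),
      (∀ i, IsOpen (U i) ∧ U i ⊆ O ∧ (∀ g, ∀ y ∈ U i, ρ g y ∈ U i → g = 1) ∧ IsCompact (C i) ∧
        C i ⊆ U i ∧ ContDiff ℝ 1 (χ i) ∧ ContDiff ℝ 1 (β i) ∧ (∀ y, 0 ≤ χ i y) ∧
        (∀ y, 0 ≤ β i y ∧ β i y ≤ 1) ∧ (∀ y ∉ C i, β i y = 0) ∧
        ∀ y ∈ tsupport (χ i), β i y ≠ 0) ∧
      (∀ y, ∑ i, χ i y ≤ 1) ∧ ∀ y ∈ K, ∑ i, χ i y = 1 := by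
  classical
  have key : ∀ y ∈ K, ∃ r, 0 < r ∧ ball y r ⊆ O ∧
      ∀ g, ∀ z ∈ ball y r, ρ g z ∈ ball y r → g = 1 := by
    intro y hy
    have h1 : ∀ᶠ p : V × V in 𝓝 (y, y), ∀ g, ρ g p.1 = p.2 → g = 1 := by
      rw [eventually_all]
      intro g
      by_cases hg : g = 1
      · exact Eventually.of_forall fun _ _ => hg
      · have ho : IsOpen {p : V × V | ρ g p.1 ≠ p.2} :=
          isOpen_ne_fun (by fun_prop) continuous_snd
        exact Eventually.mono (ho.mem_nhds fun h => hg (hfree y hy g h)) fun p hp h => absurd h hp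
    obtain ⟨r, r0, hr⟩ := Metric.mem_nhds_iff.1 h1
    obtain ⟨s, s0, hs⟩ := Metric.mem_nhds_iff.1 (hO.mem_nhds (hKO hy))
    refine ⟨min r s, lt_min r0 s0, (ball_subset_ball (min_le_right _ _)).trans hs,
      fun g z h2 h3 => ?_⟩
    have h4 : (z, ρ g z) ∈ ball (y, y) r := by
      rw [← ball_prod_same]
      exact ⟨ball_subset_ball (min_le_left _ _) h2, ball_subset_ball (min_le_left _ _) h3⟩
    exact hr h4 g rfl
  choose! r r0 rO rf using key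
  obtain ⟨t, tK, ht⟩ := hK.elim_nhds_subcover (fun y => ball y (r y / 4))
    fun y hy => ball_mem_nhds y (by linarith [r0 y hy])
  let c : Fin t.card → V := fun i => (t.equivFin.symm i : V)
  have cK : ∀ i, c i ∈ K := fun i => tK _ (t.equivFin.symm i).2
  have p : ∀ i, 0 < r (c i) := fun i => r0 _ (cK i)
  let b : ∀ i, ContDiffBump (c i) := fun i =>
    ⟨r (c i) / 4, r (c i) / 2, by linarith [p i], by linarith [p i]⟩
  let β : ∀ i, ContDiffBump (c i) := fun i =>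
    ⟨r (c i) / 2, 3 * r (c i) / 4, by linarith [p i], by linarith [p i]⟩
  have hsum : ∀ y, ∑ i, b i y * ∏ j ∈ Finset.univ with j < i, (1 - b j y) =
      1 - ∏ i, (1 - b i y) := fun y => by
    rw [Finset.prod_one_sub_ordered]; ring
  refine ⟨t.card, fun i => ball (c i) (r (c i)), fun i => closedBall (c i) (3 * r (c i) / 4),
    fun i y => b i y * ∏ j ∈ Finset.univ with j < i, (1 - b j y), fun i => β i,
    fun i => ⟨isOpen_ball, rO _ (cK i), rf _ (cK i), isCompact_closedBall _ _,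
      closedBall_subset_ball (by linarith [p i]), ?_, (β i).contDiff, fun y => ?_,
      fun y => ⟨(β i).nonneg, (β i).le_one⟩, fun y hy => ?_, fun y hy => ?_⟩,
    fun y => ?_, fun y hy => ?_⟩
  · exact (b i).contDiff.mul (contDiff_prod fun j _ => contDiff_const.sub (b j).contDiff)
  · exact mul_nonneg (b i).nonneg (Finset.prod_nonneg fun j _ => sub_nonneg.2 (b j).le_one)
  · exact (β i).zero_of_le_dist (le_of_lt (by simpa [β] using hy))
  · have h1 := tsupport_mul_subset_left hy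
    have h2 : y ∈ tsupport (b i) := h1
    rw [(b i).tsupport_eq] at h2
    exact ((β i).one_of_mem_closedBall h2).trans_ne one_ne_zero
  · rw [hsum]
    have := Finset.prod_nonneg (s := Finset.univ) (f := fun i => 1 - b i y)
      fun j _ => sub_nonneg.2 (b j).le_one
    linarith
  · rw [hsum]
    obtain ⟨z, hz, hyz⟩ := mem_iUnion₂.1 (ht hy)
    have e : c (t.equivFin ⟨z, hz⟩) = z := by simp [c]
    rw [Finset.prod_eq_zero (Finset.mem_univ (t.equivFin ⟨z, hz⟩)), sub_zero]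
    rw [(b _).one_of_mem_closedBall, sub_self]
    change y ∈ closedBall (c (t.equivFin ⟨z, hz⟩)) (r (c (t.equivFin ⟨z, hz⟩)) / 4)
    rw [e]
    exact ball_subset_closedBall hyz

omit [FiniteDimensional ℝ V] [Fintype G] in
theorem Act.equi_inv_left {ρ : G → V →L[ℝ] V} (hρ : Act ρ) (g : G) (y : V) :
    ρ g⁻¹ (ρ g y) = y := by
  rw [← hρ.mul, inv_mul_cancel, hρ.one]

/-- One local equivariant change. -/
theorem equi_step {ρ ρ' : G → V →L[ℝ] V} (hρ : Act ρ) (hρ' : Act ρ') {Φ D : V → V}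
    (hΦ : ContDiff ℝ 1 Φ) (hD : ContDiff ℝ 1 D) (eΦ : ∀ g y, Φ (ρ g y) = ρ' g (Φ y))
    (eD : ∀ g y, D (ρ g y) = ρ' g (D y)) {O U C : Set V} (hU : IsOpen U)
    (hd : ∀ g, ∀ y ∈ U, ρ g y ∈ U → g = 1) (hCU : C ⊆ U) {χ β : V → ℝ} (hχ : ContDiff ℝ 1 χ)
    (hβ : ContDiff ℝ 1 β) (β0 : ∀ y, 0 ≤ β y ∧ β y ≤ 1) (βC : ∀ y ∉ C, β y = 0)
    (hs : ∀ y ∈ tsupport χ, β y ≠ 0) {ε : ℝ} (hε : 0 < ε)
    (reg : ∀ y ∈ O, Φ y = 0 → (fderiv ℝ Φ y).det ≠ 0) :
    ∃ Φ' : V → V, ContDiff ℝ 1 Φ' ∧ (∀ g y, Φ' (ρ g y) = ρ' g (Φ' y)) ∧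
      (∀ y, ‖Φ' y - (Φ y + (∑ g, χ (ρ g y)) • D y)‖ ≤ ε) ∧
      (∀ y ∈ O, Φ' y = 0 → (fderiv ℝ Φ' y).det ≠ 0) ∧ ∀ y, (∀ g, ρ g y ∉ C) → Φ y = Φ' y := by
  classical
  set S : ℝ := ∑ g : G, ‖ρ' g⁻¹‖ with hS
  have S0 : 0 ≤ S := Finset.sum_nonneg fun _ _ => norm_nonneg _
  obtain ⟨c, hc, hgen⟩ := generic (f := fun y => Φ y + χ y • D y) (hΦ.add (hχ.smul hD)) hβ
    (show 0 < ε / (S + 1) by positivity)
  let φ : V → V := fun y => χ y • D y + β y • c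
  have hφ : ContDiff ℝ 1 φ := (hχ.smul hD).add (hβ.smul contDiff_const)
  have hχ0 : ∀ y, β y = 0 → χ =ᶠ[𝓝 y] 0 := fun y hy =>
    notMem_tsupport_iff_eventuallyEq.1 fun h => hs y h hy
  have hφ0 : ∀ y, β y = 0 → φ y = 0 := fun y hy => by
    have : χ y = 0 := (hχ0 y hy).eq_of_nhds
    simp [φ, hy, this]
  have hφ1 : ∀ y, β y = 0 → HasFDerivAt φ (0 : V →L[ℝ] V) y := fun y hy => by
    have h1 : HasFDerivAt (fun y => χ y • D y) (0 : V →L[ℝ] V) y := by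
      refine (hasFDerivAt_const (0 : V) y).congr_of_eventuallyEq ?_
      filter_upwards [hχ0 y hy] with z hz
      simp [hz]
    have h2 : IsLocalMin β y := Eventually.of_forall fun z => by rw [hy]; exact (β0 z).1
    have h3 := (hβ.differentiable one_ne_zero y).hasFDerivAt
    rw [h2.fderiv_eq_zero] at h3
    have h4 := h1.add (h3.smul_const c)
    have h5 : (0 : V →L[ℝ] V) + (0 : V →L[ℝ] ℝ).smulRight c = 0 := by
      ext v; simp
    rw [h5] at h4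
    exact h4
  let Φ' : V → V := fun y => Φ y + ∑ g, ρ' g⁻¹ (φ (ρ g y))
  have hΦ' : ContDiff ℝ 1 Φ' :=
    hΦ.add (ContDiff.sum fun g _ => (ρ' g⁻¹).contDiff.comp (hφ.comp (ρ g).contDiff))
  have eΦ' : ∀ g y, Φ' (ρ g y) = ρ' g (Φ' y) := fun h y => by
    simp only [Φ', map_add, map_sum, eΦ]
    congr 1
    refine Fintype.sum_equiv (Equiv.mulRight h) _ _ fun g => ?_
    rw [Equiv.coe_mulRight, ← hρ.mul, ← hρ'.mul, mul_inv_rev, mul_inv_cancel_left]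
  have hloc : ∀ y ∈ U, Φ' y = Φ y + χ y • D y + β y • c := fun y hy => by
    simp only [Φ']
    rw [Finset.sum_eq_single 1]
    · simp only [inv_one, hρ.one, hρ'.one, φ, add_assoc]
    · intro g _ hg
      rw [hφ0 _ (βC _ fun h => hg (hd g y hy (hCU h))), map_zero]
    · simp
  refine ⟨Φ', hΦ', eΦ', fun y => ?_, fun y hy h0 => ?_, fun y hy => ?_⟩
  · have h1 : Φ' y - (Φ y + (∑ g, χ (ρ g y)) • D y) = ∑ g, β (ρ g y) • ρ' g⁻¹ c := by
      simp only [Φ', φ, map_add, map_smul, eD, hρ'.equi_inv_left, Finset.sum_add_distrib,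
        Finset.sum_smul]
      abel
    rw [h1]
    refine (norm_sum_le _ _).trans ?_
    have h2 : ∑ g, ‖β (ρ g y) • ρ' g⁻¹ c‖ ≤ ∑ g : G, ‖ρ' g⁻¹‖ * ‖c‖ := by
      refine Finset.sum_le_sum fun g _ => ?_
      rw [norm_smul, Real.norm_of_nonneg (β0 _).1]
      exact (mul_le_of_le_one_left (norm_nonneg _) (β0 _).2).trans ((ρ' g⁻¹).le_opNorm c)
    refine h2.trans ?_
    rw [← Finset.sum_mul, ← hS]
    have h3 : (S + 1) * ‖c‖ ≤ ε := by
      rw [lt_div_iff₀ (by positivity)] at hc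
      linarith
    nlinarith [norm_nonneg c]
  · by_cases hb : ∃ g, β (ρ g y) ≠ 0
    · obtain ⟨g, hg⟩ := hb
      have hz : ρ g y ∈ U := hCU (by_contra fun h => hg (βC _ h))
      have h1 : Φ' (ρ g y) = 0 := by rw [eΦ', h0, map_zero]
      have h2 := hgen _ hg (by rw [← hloc _ hz]; exact h1)
      have h3 : Φ' =ᶠ[𝓝 (ρ g y)] fun y => Φ y + χ y • D y + β y • c :=
        Eventually.mono (hU.mem_nhds hz) hloc
      rw [← h3.fderiv_eq] at h2
      have h4 := det_equi hρ hρ' hΦ' eΦ' g⁻¹ h2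
      rwa [hρ.equi_inv_left] at h4
    · push Not at hb
      have h1 : HasFDerivAt (fun y => ∑ g, ρ' g⁻¹ (φ (ρ g y))) (0 : V →L[ℝ] V) y := by
        have h2 := HasFDerivAt.fun_sum (u := Finset.univ) fun g _ =>
          (ρ' g⁻¹).hasFDerivAt.comp y ((hφ1 _ (hb g)).comp y (ρ g).hasFDerivAt)
        simpa using h2
      have h3 := (hΦ.differentiable one_ne_zero y).hasFDerivAt.add h1
      rw [add_zero] at h3
      have h4 : fderiv ℝ Φ' y = fderiv ℝ Φ y := h3.fderiv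
      rw [h4]
      refine reg y hy ?_
      simpa [Φ', fun g => hφ0 _ (hb g)] using h0
  · simp [Φ', fun g => hφ0 _ (βC _ (hy g))]

omit [FiniteDimensional ℝ V] [Group G] in
theorem equi_orbit_compact {ρ : G → V →L[ℝ] V} {K : Set V} (hK : IsCompact K) :
    IsCompact (⋃ g, ρ g '' K) :=
  isCompact_iUnion fun g => hK.image (ρ g).continuous

theorem equi_zero {ρ ρ' : G → V →L[ℝ] V} (hρ : Act ρ) (hρ' : Act ρ') {Ψ₀ Ψ₁ : V → V}
    (h₀ : ContDiff ℝ 1 Ψ₀) (h₁ : Continuous Ψ₁) (e₀ : ∀ g y, Ψ₀ (ρ g y) = ρ' g (Ψ₀ y))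
    (e₁ : ∀ g y, Ψ₁ (ρ g y) = ρ' g (Ψ₁ y)) {K : Set V} (hK : IsCompact K)
    (hz : ∀ t ∈ Icc (0 : ℝ) 1, ∀ y, (1 - t) • Ψ₀ y + t • Ψ₁ y = 0 → y ∈ K)
    (hfree : ∀ y ∈ K, ∀ g, ρ g y = y → g = 1) {y₀ : V} (hy₀ : Ψ₀ y₀ = 0)
    (huniq : ∀ y, Ψ₀ y = 0 → ∃ g, y = ρ g y₀) (hreg : Function.Injective (fderiv ℝ Ψ₀ y₀)) :
    ∃ y, Ψ₁ y = 0 := by
  classical
  by_contra hno
  push Not at hno
  have cG : (0 : ℝ) < Fintype.card G := by exact_mod_cast Fintype.card_pos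
  -- the invariant open set
  have K1c : IsCompact (⋃ g, ρ g '' K) := equi_orbit_compact hK
  obtain ⟨R, hR⟩ := K1c.isBounded.subset_ball 0
  let O : Set V := {y | (∀ g, ρ g y = y → g = 1) ∧ ∀ g, ρ g y ∈ ball (0 : V) R}
  have fr : ∀ h y, (∀ g, ρ g y = y → g = 1) → ∀ g, ρ g (ρ h y) = ρ h y → g = 1 := by
    intro h y hy g hg
    have h1 : ρ (h⁻¹ * g * h) y = y := by rw [hρ.mul, hρ.mul, hg, hρ.equi_inv_left]
    have h2 := hy _ h1
    calc g = h * (h⁻¹ * g * h) * h⁻¹ := by group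
      _ = 1 := by rw [h2]; group
  have Oo : IsOpen O := by
    have e : O = (⋂ g, {y | ρ g y = y → g = 1}) ∩ ⋂ g, ρ g ⁻¹' ball (0 : V) R := by
      ext y; simp [O]
    rw [e]
    refine (isOpen_iInter_of_finite fun g => ?_).inter
      (isOpen_iInter_of_finite fun g => isOpen_ball.preimage (ρ g).continuous)
    by_cases hg : g = 1
    · simp [hg]
    · simpa [hg] using isOpen_ne_fun (ρ g).continuous continuous_id
  have Oi : ∀ g, ∀ y ∈ O, ρ g y ∈ O := fun h y hy =>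
    ⟨fr h y hy.1, fun g => by rw [← hρ.mul]; exact hy.2 _⟩
  have KO : K ⊆ O := fun y hy => ⟨hfree y hy, fun g => hR (mem_iUnion.2 ⟨g, y, hy, rfl⟩)⟩
  obtain ⟨K2, K2c, KK2, K2O⟩ := exists_compact_between hK Oo KO
  have K3c : IsCompact (⋃ g, ρ g '' K2) := equi_orbit_compact K2c
  set K3 := ⋃ g, ρ g '' K2 with hK3
  have K3O : K3 ⊆ O := by
    intro y hy
    obtain ⟨g, x, hx, rfl⟩ := mem_iUnion.1 hy
    exact Oi g x (K2O hx)
  have K3i : ∀ y ∈ K2, ∀ g, ρ g y ∈ K3 := fun y hy g => mem_iUnion.2 ⟨g, y, hy, rfl⟩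
  -- the lower bound
  obtain ⟨η₁, p₁, l₁⟩ := (isCompact_Icc (a := (0 : ℝ)) (b := 1)).prod
    ((isCompact_closedBall (0 : V) R).diff (isOpen_interior (s := K2))) |>.exists_forall_le'
    (f := fun p : ℝ × V => ‖(1 - p.1) • Ψ₀ p.2 + p.1 • Ψ₁ p.2‖) (a := 0)
    (by have := h₀.continuous; fun_prop)
    fun p hp => norm_pos_iff.2 fun h => hp.2.2 (KK2 (hz p.1 hp.1 p.2 h))
  obtain ⟨η₂, p₂, l₂⟩ := K2c.exists_forall_le' (f := fun y => ‖Ψ₁ y‖) (a := 0)
    h₁.norm.continuousOn fun y _ => norm_pos_iff.2 (hno y)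
  set η := min η₁ η₂ with hη
  have p : 0 < η := lt_min p₁ p₂
  obtain ⟨P, hP, eP, aP⟩ := approx_equi hρ hρ' h₁ e₁ (show 0 < η / 4 by positivity)
  obtain ⟨M, U, C, χ, β, hc, s1, s2⟩ := cover hρ K3c Oo K3O fun y hy => (K3O hy).1
  let D : V → V := fun y => (Fintype.card G : ℝ)⁻¹ • (P y - Ψ₀ y)
  have hD : ContDiff ℝ 1 D := (hP.sub h₀).const_smul _
  have eD : ∀ g y, D (ρ g y) = ρ' g (D y) := fun g y => by
    simp only [D, map_smul, map_sub, eP, e₀]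
  let w : ℕ → V → ℝ := fun k y => ∑ i : Fin M, if i.val < k then ∑ g, χ i (ρ g y) else 0
  have χ0 : ∀ i y, 0 ≤ ∑ g, χ i (ρ g y) := fun i y =>
    Finset.sum_nonneg fun g _ => (hc i).2.2.2.2.2.2.2.1 _
  have w0 : ∀ k y, 0 ≤ w k y := fun k y =>
    Finset.sum_nonneg fun i _ => by split_ifs; exacts [χ0 i y, le_rfl]
  have w1 : ∀ k y, w k y ≤ Fintype.card G := fun k y => by
    have h1 : w k y ≤ ∑ i : Fin M, ∑ g, χ i (ρ g y) :=
      Finset.sum_le_sum fun i _ => by split_ifs; exacts [le_rfl, χ0 i y]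
    rw [Finset.sum_comm] at h1
    refine h1.trans ((Finset.sum_le_sum fun g _ => s1 (ρ g y)).trans ?_)
    simp
  have wM : ∀ y ∈ K2, w M y = Fintype.card G := fun y hy => by
    simp only [w, Fin.is_lt, if_true]
    rw [Finset.sum_comm, Finset.sum_congr rfl fun g _ => s2 _ (K3i y hy g)]
    simp
  have ws : ∀ (i : Fin M) y, w (i + 1) y = w i y + ∑ g, χ i (ρ g y) := fun i y => by
    have h1 : ∀ j : Fin M, (if j.val < i + 1 then ∑ g, χ j (ρ g y) else 0) =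
        (if j.val < i then ∑ g, χ j (ρ g y) else 0) + if j = i then ∑ g, χ j (ρ g y) else 0 := by
      intro j
      by_cases h1 : j = i
      · simp [h1]
      · have h2 : j.val ≠ i.val := fun h => h1 (Fin.ext h)
        by_cases h3 : j.val < i
        · simp [h1, h3, show j.val < i + 1 by omega]
        · simp [h1, h3, show ¬j.val < i + 1 by omega]
    simp only [w, h1, Finset.sum_add_distrib, Finset.sum_ite_eq', Finset.mem_univ, if_true]
  set ε := η / (4 * (M + 1)) with hε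
  have ε0 : 0 < ε := by positivity
  have εM : ∀ k ≤ M, (k : ℝ) * ε ≤ η / 4 := fun k hk => by
    have h1 : (k : ℝ) ≤ M + 1 := by exact_mod_cast hk.trans (Nat.le_succ M)
    have h2 : ((M : ℝ) + 1) * ε = η / 4 := by rw [hε]; field_simp
    nlinarith
  have hconv : ∀ k y, ‖(1 - w k y / Fintype.card G) • Ψ₀ y + (w k y / Fintype.card G) • Ψ₁ y -
      (Ψ₀ y + w k y • D y)‖ ≤ η / 4 := fun k y => by
    have h1 : (1 - w k y / Fintype.card G) • Ψ₀ y + (w k y / Fintype.card G) • Ψ₁ y -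
        (Ψ₀ y + w k y • D y) = (w k y / Fintype.card G) • (Ψ₁ y - P y) := by
      simp only [D, smul_smul, ← div_eq_mul_inv]
      module
    rw [h1, norm_smul, Real.norm_of_nonneg (div_nonneg (w0 k y) cG.le), norm_sub_rev]
    exact (mul_le_of_le_one_left (norm_nonneg _) ((div_le_one cG).2 (w1 k y))).trans (aP y).le
  have hout : ∀ k ≤ M, ∀ Φ : V → V, (∀ y, ‖Φ y - (Ψ₀ y + w k y • D y)‖ ≤ k * ε) →
      ∀ y ∈ O, Φ y = 0 → y ∈ K2 := by
    intro k hk Φ hΦ y hy h0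
    by_contra hn
    have h1 := l₁ (w k y / Fintype.card G, y) ⟨⟨div_nonneg (w0 k y) cG.le,
      (div_le_one cG).2 (w1 k y)⟩, ball_subset_closedBall (by simpa [hρ.one] using hy.2 1),
      fun h => hn (interior_subset h)⟩
    have h2 := hΦ y
    rw [h0, zero_sub, norm_neg] at h2
    have h3 := norm_le_norm_add_norm_sub' ((1 - w k y / Fintype.card G) • Ψ₀ y +
      (w k y / Fintype.card G) • Ψ₁ y) (Ψ₀ y + w k y • D y)
    linarith [hconv k y, εM k hk, min_le_left η₁ η₂]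
  have hfin : ∀ k ≤ M, ∀ Φ : V → V, ContDiff ℝ 1 Φ →
      (∀ y, ‖Φ y - (Ψ₀ y + w k y • D y)‖ ≤ k * ε) →
      (∀ y ∈ O, Φ y = 0 → (fderiv ℝ Φ y).det ≠ 0) → {x ∈ O | Φ x = 0}.Finite := by
    intro k hk Φ h1 h2 h3
    exact (finite_zeros h1 K2c fun x hx => h3 x (K2O hx)).subset
      fun x hx => ⟨hout k hk Φ h2 x hx.1 hx.2, hx.2⟩
  have main : ∀ k ≤ M, ∃ Φ : V → V, ContDiff ℝ 1 Φ ∧ (∀ g y, Φ (ρ g y) = ρ' g (Φ y)) ∧
      (∀ y, ‖Φ y - (Ψ₀ y + w k y • D y)‖ ≤ k * ε) ∧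
      (∀ y ∈ O, Φ y = 0 → (fderiv ℝ Φ y).det ≠ 0) ∧
      {x ∈ O | Φ x = 0}.ncard ≡ Fintype.card G [MOD 2 * Fintype.card G] := by
    intro k
    induction k with
    | zero =>
      intro _
      have y0K : y₀ ∈ K := hz 0 ⟨le_rfl, zero_le_one⟩ y₀ (by simp [hy₀])
      refine ⟨Ψ₀, h₀, e₀, fun y => by simp [w], fun y _ hy => ?_, ?_⟩
      · obtain ⟨g, rfl⟩ := huniq y hy
        refine det_equi hρ hρ' h₀ e₀ g fun h => ?_
        exact LinearMap.det_eq_zero_iff_ker_ne_bot.1 h (LinearMap.ker_eq_bot.2 hreg)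
      · have e : {x ∈ O | Ψ₀ x = 0} = range fun g => ρ g y₀ := by
          ext y
          constructor
          · rintro ⟨-, hy⟩
            obtain ⟨g, rfl⟩ := huniq y hy
            exact ⟨g, rfl⟩
          · rintro ⟨g, rfl⟩
            exact ⟨Oi g _ (KO y0K), by simp only [e₀, hy₀, map_zero]⟩
        rw [e, ncard_range_of_injective, Nat.card_eq_fintype_card]
        intro g h hgh
        have h1 : ρ (h⁻¹ * g) y₀ = y₀ := by
          have h2 : ρ g y₀ = ρ h y₀ := hgh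
          rw [hρ.mul, h2, hρ.equi_inv_left]
        exact (inv_mul_eq_one.1 (hfree y₀ y0K _ h1)).symm
    | succ k ih =>
      intro hk
      obtain ⟨Φ, a1, a2, a3, a4, a5⟩ := ih (Nat.le_of_succ_le hk)
      obtain ⟨c1, c2, c3, c4, c5, c6, c7, -, c9, c10, c11⟩ := hc ⟨k, hk⟩
      obtain ⟨Φ', b1, b2, b3, b4, b5⟩ := equi_step hρ hρ' a1 hD a2 eD c1 c3 c5 c6 c7 c9 c10 c11
        ε0 a4
      have b6 : ∀ y, ‖Φ' y - (Ψ₀ y + w (k + 1) y • D y)‖ ≤ (k + 1 : ℕ) * ε := fun y => by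
        have h1 : w (k + 1) y = w k y + ∑ g, χ ⟨k, hk⟩ (ρ g y) := ws ⟨k, hk⟩ y
        have h2 : Φ' y - (Ψ₀ y + w (k + 1) y • D y) =
            (Φ' y - (Φ y + (∑ g, χ ⟨k, hk⟩ (ρ g y)) • D y)) + (Φ y - (Ψ₀ y + w k y • D y)) := by
          rw [h1, add_smul]; abel
        rw [h2]
        refine (norm_add_le _ _).trans ?_
        push_cast
        linarith [b3 y, a3 y]
      refine ⟨Φ', b1, b2, b6, b4, Nat.ModEq.trans (Nat.ModEq.symm ?_) a5⟩
      exact step_count hρ hρ' a1 b1 a2 b2 Oi c1 c2 c3 c4 c5 (fun y _ hy => b5 y hy)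
        (hfin k (Nat.le_of_succ_le hk) Φ a1 a3 a4) (hfin (k + 1) hk Φ' b1 b6 b4) a4 b4
  obtain ⟨Φ, -, -, a3, -, a5⟩ := main M le_rfl
  have e : {x ∈ O | Φ x = 0} = ∅ := by
    refine eq_empty_of_forall_notMem fun y hy => ?_
    have h1 := hout M le_rfl Φ a3 y hy.1 hy.2
    have h2 := a3 y
    have h3 := hconv M y
    rw [hy.2, zero_sub, norm_neg] at h2
    rw [wM y h1] at h2 h3
    rw [div_self cG.ne', sub_self, zero_smul, zero_add, one_smul] at h3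
    have h4 := norm_le_norm_add_norm_sub' (Ψ₁ y) (Ψ₀ y + (Fintype.card G : ℝ) • D y)
    linarith [l₂ y h1, εM M le_rfl, min_le_right η₁ η₂]
  rw [e, ncard_empty] at a5
  have c0 : 0 < Fintype.card G := Fintype.card_pos
  have := Nat.le_of_dvd c0 ((Nat.modEq_zero_iff_dvd).1 a5.symm)
  omega

end Pool.Agent.P.MP_f791b6_an.One
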