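import Pool.Agent.P.MP_f791b6_an.K1Basic

/-! One fold. -/

open MeasureTheory Set Metric Filter Topology
open scoped ContDiff RealInnerProductSpace ENNReal

namespace Pool.Agent.P.MP_f791b6_an.One

variable {n m : ℕ}

namespace Fold

lemma hasDerivAt_sqPos (t : ℝ) : HasDerivAt (fun t : ℝ => max t 0 ^ 2) (2 * max t 0) t := by
  refine hasDerivAt_of_hasDerivAt_of_ne' (f := fun t : ℝ => max t 0 ^ 2)
    (g := fun t => 2 * max t 0) (x := 0) (fun y hy => ?_) (by fun_prop) (by fun_prop) t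
  rcases lt_or_gt_of_ne hy with h | h
  · have : (fun t : ℝ => max t 0 ^ 2) =ᶠ[𝓝 y] fun _ => 0 := by
      filter_upwards [Iio_mem_nhds h] with z hz
      rw [max_eq_right (le_of_lt hz)]; norm_num
    rw [max_eq_right h.le, mul_zero]
    exact (hasDerivAt_const y (0 : ℝ)).congr_of_eventuallyEq this
  · have : (fun t : ℝ => max t 0 ^ 2) =ᶠ[𝓝 y] fun z => z ^ 2 := by
      filter_upwards [Ioi_mem_nhds h] with z hz
      rw [max_eq_left (le_of_lt hz)]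
    rw [max_eq_left h.le]
    have h2 : HasDerivAt (fun z : ℝ => z ^ 2) (2 * y) y := by
      simpa using hasDerivAt_pow 2 y
    exact h2.congr_of_eventuallyEq this

/-- A smoothed absolute value. -/
lemma exists_ab {d : ℝ} (hd : 0 < d) : ∃ ab : ℝ → ℝ, ContDiff ℝ 1 ab ∧ (∀ s, ab (-s) = ab s) ∧
    (∀ s t, |ab s - ab t| ≤ |s - t|) ∧ (∀ s, d ≤ |s| → ab s = |s|) ∧
    ∀ s, |s| ≤ ab s ∧ ab s ≤ |s| + d := by
  have hD : ∀ s : ℝ, HasDerivAt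
      (fun s : ℝ => (s ^ 2 + d ^ 2 - max (s - d) 0 ^ 2 - max (-s - d) 0 ^ 2) / (2 * d))
      ((2 * s - 2 * max (s - d) 0 + 2 * max (-s - d) 0) / (2 * d)) s := by
    intro s
    have h1 : HasDerivAt (fun z : ℝ => z ^ 2 + d ^ 2) (2 * s) s := by
      simpa using (hasDerivAt_pow 2 s).add_const (d ^ 2)
    have h2 := (hasDerivAt_sqPos (s - d)).comp s ((hasDerivAt_id' s).sub_const d)
    have h3 := (hasDerivAt_sqPos (-s - d)).comp s ((hasDerivAt_id' s).neg.sub_const d)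
    have h4 := ((h1.sub h2).sub h3).div_const (2 * d)
    exact h4.congr_deriv (by ring)
  refine ⟨fun s => (s ^ 2 + d ^ 2 - max (s - d) 0 ^ 2 - max (-s - d) 0 ^ 2) / (2 * d), ?_, ?_, ?_,
    ?_, ?_⟩
  · rw [contDiff_one_iff_deriv]
    refine ⟨fun s => (hD s).differentiableAt, ?_⟩
    rw [show deriv (fun s : ℝ =>
        (s ^ 2 + d ^ 2 - max (s - d) 0 ^ 2 - max (-s - d) 0 ^ 2) / (2 * d)) = fun s =>
        (2 * s - 2 * max (s - d) 0 + 2 * max (-s - d) 0) / (2 * d) from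
      funext fun s => (hD s).deriv]
    fun_prop
  · intro s
    simp only [neg_neg]
    ring
  · intro s t
    have := Convex.norm_image_sub_le_of_norm_hasDerivWithin_le (C := 1) (s := univ)
      (fun z _ => (hD z).hasDerivWithinAt) (fun z _ => ?_) convex_univ (mem_univ t) (mem_univ s)
    · simpa using this
    · rw [Real.norm_eq_abs, abs_div, abs_of_pos (by positivity : 0 < 2 * d),
        div_le_one (by positivity), abs_le]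
      rcases le_total (z - d) 0 with h | h <;> rcases le_total (-z - d) 0 with h' | h' <;>
        simp only [max_eq_left, max_eq_right, h, h'] <;> constructor <;> linarith
  · intro s hs
    rw [div_eq_iff (by positivity)]
    rcases le_total 0 s with h | h
    · rw [abs_of_nonneg h] at hs ⊢
      rw [max_eq_left (by linarith), max_eq_right (by linarith)]
      ring
    · rw [abs_of_nonpos h] at hs ⊢
      rw [max_eq_right (by linarith), max_eq_left (by linarith)]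
      ring
  · intro s
    rw [le_div_iff₀ (by positivity), div_le_iff₀ (by positivity)]
    rcases le_total 0 s with h | h
    · rw [abs_of_nonneg h, max_eq_right (show -s - d ≤ 0 by linarith)]
      rcases le_total (s - d) 0 with h' | h'
      · rw [max_eq_right h']
        constructor <;> nlinarith [sq_nonneg (s - d)]
      · rw [max_eq_left h']
        constructor <;> nlinarith
    · rw [abs_of_nonpos h, max_eq_right (show s - d ≤ 0 by linarith)]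
      rcases le_total (-s - d) 0 with h' | h'
      · rw [max_eq_right h']
        constructor <;> nlinarith [sq_nonneg (s + d)]
      · rw [max_eq_left h']
        constructor <;> nlinarith

section JC

variable {P X Y : Type*} [TopologicalSpace P] [NormedAddCommGroup X] [NormedSpace ℝ X]
  [NormedAddCommGroup Y] [NormedSpace ℝ Y]

lemma jc_add {Φ Ψ : P → X → Y} (h : JC Φ) (h' : JC Ψ) : JC fun p x => Φ p x + Ψ p x :=
  h.map₂ h' (g := fun z => z.1 + z.2) (contDiff_fst.add contDiff_snd)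

lemma jc_sub {Φ Ψ : P → X → Y} (h : JC Φ) (h' : JC Ψ) : JC fun p x => Φ p x - Ψ p x :=
  h.map₂ h' (g := fun z => z.1 - z.2) (contDiff_fst.sub contDiff_snd)

lemma jc_smul {Φ : P → X → ℝ} {Ψ : P → X → Y} (h : JC Φ) (h' : JC Ψ) :
    JC fun p x => Φ p x • Ψ p x :=
  h.map₂ h' (g := fun z => z.1 • z.2) (contDiff_fst.smul contDiff_snd)

lemma jc_mul {Φ Ψ : P → X → ℝ} (h : JC Φ) (h' : JC Ψ) : JC fun p x => Φ p x * Ψ p x :=
  h.map₂ h' (g := fun z => z.1 * z.2) (contDiff_fst.mul contDiff_snd)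

end JC

variable {X : Type} [NormedAddCommGroup X] [InnerProductSpace ℝ X] {a e x v : X} {α D : ℝ}

/-- The shape of all maps of this file. -/
noncomputable def vec (a e x : X) (α D : ℝ) : X := x - α • (a - ⟪a, e⟫ • e) + D • e

lemma norm_q (ha : ‖a‖ = 1) (he : ‖e‖ = 1) : ‖a - ⟪a, e⟫ • e‖ ^ 2 = 1 - ⟪a, e⟫ ^ 2 := by
  rw [norm_sub_sq_real, inner_smul_right, norm_smul, ha, he, mul_one, Real.norm_eq_abs, sq_abs]
  ring

lemma inner_vec (h1 : ⟪x, v⟫ = 0) (h2 : ⟪a, v⟫ = 0) (h3 : ⟪e, v⟫ = 0) :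
    ⟪vec a e x α D, v⟫ = 0 := by
  simp only [vec, inner_add_left, inner_sub_left, real_inner_smul_left, h1, h2, h3]
  ring

lemma inner_vec_a (ha : ‖a‖ = 1) :
    ⟪vec a e x α D, a⟫ = ⟪a, x⟫ + ⟪a, e⟫ * D - α * (1 - ⟪a, e⟫ ^ 2) := by
  simp only [vec, inner_add_left, inner_sub_left, real_inner_smul_left,
    real_inner_self_eq_norm_sq, ha, real_inner_comm a x, real_inner_comm a e]
  ring

lemma norm_vec (ha : ‖a‖ = 1) (he : ‖e‖ = 1) (hx : ⟪x, e⟫ = 0)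
    (h : α * (1 - ⟪a, e⟫ ^ 2) = ⟪a, x⟫ + ⟪a, e⟫ * D) :
    (1 - ⟪a, e⟫ ^ 2) * ‖vec a e x α D‖ ^ 2 =
      (1 - ⟪a, e⟫ ^ 2) * ‖x‖ ^ 2 + D ^ 2 - ⟪a, x⟫ ^ 2 := by
  have h1 : ‖vec a e x α D‖ ^ 2 =
      ‖x‖ ^ 2 - 2 * α * ⟪a, x⟫ + α ^ 2 * (1 - ⟪a, e⟫ ^ 2) + D ^ 2 := by
    rw [vec, norm_add_sq_real, norm_sub_sq_real, norm_smul, norm_smul, mul_pow, norm_q ha he]
    simp only [inner_sub_left, inner_sub_right, real_inner_smul_left, real_inner_smul_right,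
      real_inner_self_eq_norm_sq, he, hx, real_inner_comm a x, Real.norm_eq_abs, mul_one, sq_abs]
    ring
  rw [h1]
  linear_combination (α * (1 - ⟪a, e⟫ ^ 2) - ⟪a, x⟫ + ⟪a, e⟫ * D) * h

lemma q_zero (ha : ‖a‖ = 1) (he : ‖e‖ = 1) (h : 1 - ⟪a, e⟫ ^ 2 = 0) : a - ⟪a, e⟫ • e = 0 := by
  rw [← norm_q ha he] at h
  exact norm_eq_zero.1 (pow_eq_zero_iff two_ne_zero |>.1 h)

lemma u_zero (ha : ‖a‖ = 1) (he : ‖e‖ = 1) (hx : ⟪x, e⟫ = 0) (h : 1 - ⟪a, e⟫ ^ 2 = 0) :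
    ⟪a, x⟫ = 0 := by
  have h1 := congrArg (fun w => ⟪w, x⟫) (q_zero ha he h)
  simp only [inner_sub_left, real_inner_smul_left, inner_zero_left, real_inner_comm x e, hx] at h1
  linarith

lemma Q_nonneg (ha : ‖a‖ = 1) (he : ‖e‖ = 1) : 0 ≤ 1 - ⟪a, e⟫ ^ 2 := by
  rw [← norm_q ha he]; positivity

lemma norm_vec_le (ha : ‖a‖ = 1) (he : ‖e‖ = 1) (hx : ⟪x, e⟫ = 0)
    (h : 1 - ⟪a, e⟫ ^ 2 ≠ 0 → α * (1 - ⟪a, e⟫ ^ 2) = ⟪a, x⟫ + ⟪a, e⟫ * D)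
    (hD : |D| ≤ |⟪a, x⟫|) : ‖vec a e x α D‖ ≤ ‖x‖ := by
  by_cases hQ : 1 - ⟪a, e⟫ ^ 2 = 0
  · rw [u_zero ha he hx hQ, abs_zero, abs_nonpos_iff] at hD
    simp [vec, q_zero ha he hQ, hD]
  · have h1 := norm_vec ha he hx (h hQ)
    have h2 := lt_of_le_of_ne (Q_nonneg ha he) (Ne.symm hQ)
    have h3 := sq_le_sq.2 hD
    refine (sq_le_sq₀ (norm_nonneg _) (norm_nonneg _)).1 ?_
    exact le_of_mul_le_mul_left (by linarith) h2

lemma norm_vec_eq (ha : ‖a‖ = 1) (he : ‖e‖ = 1) (hx : ⟪x, e⟫ = 0)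
    (h : 1 - ⟪a, e⟫ ^ 2 ≠ 0 → α * (1 - ⟪a, e⟫ ^ 2) = ⟪a, x⟫ + ⟪a, e⟫ * D)
    (hD : D ^ 2 = ⟪a, x⟫ ^ 2) : ‖vec a e x α D‖ = ‖x‖ := by
  by_cases hQ : 1 - ⟪a, e⟫ ^ 2 = 0
  · rw [u_zero ha he hx hQ, sq_eq_sq_iff_abs_eq_abs, abs_zero, abs_eq_zero] at hD
    simp [vec, q_zero ha he hQ, hD]
  · have h1 := norm_vec ha he hx (h hQ)
    refine (pow_left_inj₀ (norm_nonneg _) (norm_nonneg _) two_ne_zero).1 ?_
    exact mul_left_cancel₀ hQ (by linarith)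

lemma vec_sub (y : X) (β C : ℝ) :
    vec a e x α D - vec a e y β C = vec a e (x - y) (α - β) (D - C) := by
  simp only [vec, sub_smul]
  abel

lemma vec_add (y : X) (β C : ℝ) :
    vec a e x α D + vec a e y β C = vec a e (x + y) (α + β) (D + C) := by
  simp only [vec, add_smul]
  abel

/-- Far from the folding hyperplane nothing is smoothed. -/
lemma far {c u K d r : ℝ} (hd : 0 < d) (hu : |u| ≤ r) (h : d + r ≤ |c| * K) :
    d ≤ |c * K - u| ∧ c * |c * K - u| = |c| * (c * K - u) := by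
  obtain ⟨h1, h2⟩ := abs_le.1 hu
  rcases le_total 0 c with hc | hc
  · rw [abs_of_nonneg hc] at h ⊢
    rw [abs_of_nonneg (by linarith)]
    exact ⟨by linarith, rfl⟩
  · rw [abs_of_nonpos hc] at h ⊢
    rw [abs_of_nonpos (by linarith)]
    exact ⟨by linarith, by ring⟩

end Fold

open Fold in
theorem exists_fold {X : Type} [NormedAddCommGroup X] [InnerProductSpace ℝ X] {r δ : ℝ}
    (hr : 0 < r) (hδ : 0 < δ) {e : X} (he : ‖e‖ = 1) :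
    ∃ T : X → X → X, JC T ∧ (∀ a, T (-a) = T a) ∧ ∀ a, ‖a‖ = 1 →
      (∀ x, ‖x‖ < r → ⟪x, e⟫ = 0 → ⟪T a x, a⟫ = 0) ∧
      (∀ x v, ⟪x, v⟫ = 0 → ⟪a, v⟫ = 0 → ⟪e, v⟫ = 0 → ⟪T a x, v⟫ = 0) ∧
      (∀ x y, ‖x‖ < r → ‖y‖ < r → ⟪x, e⟫ = 0 → ⟪y, e⟫ = 0 → ‖T a x - T a y‖ ≤ ‖x - y‖) ∧
      (∀ x, ‖x‖ < r → ⟪x, e⟫ = 0 → ‖T a x‖ ≤ ‖x‖ + δ) ∧
      ∃ (L : Bool → X →L[ℝ] X) (b : Bool → X),
        (∀ σ x, ⟪x, e⟫ = 0 → ‖L σ x‖ = ‖x‖) ∧
        (∀ σ x v, ⟪x, v⟫ = 0 → ⟪a, v⟫ = 0 → ⟪e, v⟫ = 0 → ⟪L σ x, v⟫ = 0) ∧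
        (∀ σ v, ⟪a, v⟫ = 0 → ⟪e, v⟫ = 0 → ⟪b σ, v⟫ = 0) ∧
        ∀ x, ‖x‖ < r → ⟪x, e⟫ = 0 → ∃ σ, ‖T a x - (L σ x + b σ)‖ ≤ δ := by
  obtain ⟨d, hd, hd1, hdδ⟩ : ∃ d : ℝ, 0 < d ∧ d ≤ 1 ∧ d ≤ δ / 2 :=
    ⟨min 1 (δ / 2), by positivity, min_le_left _ _, min_le_right _ _⟩
  obtain ⟨ab, hab, hev, hlip, habs, hbd⟩ := exists_ab hd
  obtain ⟨K, hK, hK'⟩ : ∃ K : ℝ, 0 < K ∧ K = 4 * r + 4 := ⟨_, by positivity, rfl⟩
  obtain ⟨al, hal⟩ : ∃ al : X → X → ℝ, al = fun a x => (1 + |⟪a, e⟫|)⁻¹ * ⟪a, x⟫ +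
      (max (1 - ⟪a, e⟫ ^ 2) (1 / 2))⁻¹ * (⟪a, e⟫ * ab (⟪a, e⟫ * K - ⟪a, x⟫) -
        |⟪a, e⟫| * (⟪a, e⟫ * K - ⟪a, x⟫)) := ⟨_, rfl⟩
  obtain ⟨DD, hDD⟩ : ∃ DD : X → X → ℝ, DD = fun a x =>
      ab (⟪a, e⟫ * K - ⟪a, x⟫) - |⟪a, e⟫| * K := ⟨_, rfl⟩
  refine ⟨fun a x => vec a e x (al a x) (DD a x), ?_, ?_, ?_⟩
  · have hc : Continuous fun a : X => ⟪a, e⟫ := continuous_id.inner continuous_const
    have J1 : JC fun (_ : X) (x : X) => x := JC.of_contDiff contDiff_id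
    have Ju : JC fun (a : X) (x : X) => ⟪a, x⟫ :=
      (JC.const continuous_id).map₂ J1 (g := fun z => ⟪z.1, z.2⟫) contDiff_inner
    have Jl : JC fun (a : X) (x : X) => ⟪a, e⟫ * K - ⟪a, x⟫ :=
      jc_sub (JC.const (hc.mul continuous_const)) Ju
    have Ja : JC fun (a : X) (x : X) => ab (⟪a, e⟫ * K - ⟪a, x⟫) := (JC.of_contDiff hab).comp Jl
    have k1 : Continuous fun a : X => (1 + |⟪a, e⟫|)⁻¹ :=
      (continuous_const.add hc.abs).inv₀ fun a =>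
        (add_pos_of_pos_of_nonneg one_pos (abs_nonneg _)).ne'
    have k2 : Continuous fun a : X => (max (1 - ⟪a, e⟫ ^ 2) (1 / 2))⁻¹ :=
      ((continuous_const.sub (hc.pow 2)).max continuous_const).inv₀ fun a =>
        (lt_of_lt_of_le one_half_pos (le_max_right _ _)).ne'
    have Jal : JC al := by
      rw [hal]
      exact jc_add (jc_mul (JC.const k1) Ju) (jc_mul (JC.const k2)
        (jc_sub (jc_mul (JC.const hc) Ja) (jc_mul (JC.const hc.abs) Jl)))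
    have JD : JC DD := by
      rw [hDD]
      exact jc_sub Ja (JC.const (hc.abs.mul continuous_const))
    exact jc_add (jc_sub J1 (jc_smul Jal (JC.const (continuous_id.sub (hc.smul continuous_const)))))
      (jc_smul JD (JC.const continuous_const))
  · intro a
    funext x
    have h0 : -⟪a, e⟫ * K - -⟪a, x⟫ = -(⟪a, e⟫ * K - ⟪a, x⟫) := by ring
    have h1 : al (-a) x = -al a x := by
      simp only [hal, inner_neg_left, abs_neg, h0, hev, neg_sq]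
      ring
    have h2 : DD (-a) x = DD a x := by
      simp only [hDD, inner_neg_left, abs_neg, h0, hev]
    simp only [vec, h1, h2, inner_neg_left]
    module
  intro a ha
  have hu : ∀ x : X, ‖x‖ < r → |⟪a, x⟫| ≤ r := fun x hx => by
    have := abs_real_inner_le_norm a x
    rw [ha, one_mul] at this
    linarith
  have hsmall : |⟪a, e⟫| * K < d + r → 1 / 2 ≤ 1 - ⟪a, e⟫ ^ 2 := fun h => by
    have h1 : |⟪a, e⟫| < 1 / 2 := by
      by_contra h2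
      have := mul_le_mul_of_nonneg_right (not_lt.1 h2) hK.le
      linarith
    rw [← sq_abs]
    nlinarith [abs_nonneg ⟪a, e⟫]
  have star : ∀ x : X, ‖x‖ < r →
      al a x * (1 - ⟪a, e⟫ ^ 2) = ⟪a, x⟫ + ⟪a, e⟫ * DD a x := fun x hx => by
    have h1 : (1 + |⟪a, e⟫|)⁻¹ * (1 - ⟪a, e⟫ ^ 2) = 1 - |⟪a, e⟫| := by
      rw [← sq_abs, inv_mul_eq_iff_eq_mul₀ (by positivity)]
      ring
    simp only [hal, hDD]
    rcases le_or_gt (d + r) (|⟪a, e⟫| * K) with h | h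
    · obtain ⟨h2, h3⟩ := far hd (hu x hx) h
      rw [habs _ h2]
      linear_combination ⟪a, x⟫ * h1 +
        ((max (1 - ⟪a, e⟫ ^ 2) (1 / 2))⁻¹ * (1 - ⟪a, e⟫ ^ 2) - 1) * h3
    · have h2 := hsmall h
      have h3 : (1 - ⟪a, e⟫ ^ 2)⁻¹ * (1 - ⟪a, e⟫ ^ 2) = 1 := inv_mul_cancel₀ (by linarith)
      rw [max_eq_left h2]
      linear_combination ⟪a, x⟫ * h1 + (⟪a, e⟫ * ab (⟪a, e⟫ * K - ⟪a, x⟫) -
        |⟪a, e⟫| * (⟪a, e⟫ * K - ⟪a, x⟫)) * h3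
  obtain ⟨sg, hsg, hsg'⟩ : ∃ sg : Bool → ℝ, (∀ σ, sg σ ^ 2 = 1) ∧ ∀ t : ℝ, ∃ σ, sg σ * t = |t| := by
    refine ⟨fun σ => if σ then 1 else -1, fun σ => by cases σ <;> simp, fun t => ?_⟩
    rcases le_total 0 t with h | h
    · exact ⟨true, by simp [abs_of_nonneg h]⟩
    · exact ⟨false, by simp [abs_of_nonpos h]⟩
  obtain ⟨L, hL⟩ : ∃ L : Bool → X →L[ℝ] X, ∀ σ x, L σ x = vec a e x
      ((1 - ⟪a, e⟫ * sg σ) / (1 - ⟪a, e⟫ ^ 2) * ⟪a, x⟫) (-sg σ * ⟪a, x⟫) := by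
    refine ⟨fun σ => ContinuousLinearMap.id ℝ X -
      (((1 - ⟪a, e⟫ * sg σ) / (1 - ⟪a, e⟫ ^ 2)) • innerSL ℝ a).smulRight (a - ⟪a, e⟫ • e) +
      ((-sg σ) • innerSL ℝ a).smulRight e, fun σ x => ?_⟩
    simp [vec]
  obtain ⟨b, hb⟩ : ∃ b : Bool → X, ∀ σ, b σ = vec a e 0
      (⟪a, e⟫ * (sg σ * (⟪a, e⟫ * K) - |⟪a, e⟫| * K) / (1 - ⟪a, e⟫ ^ 2))
      (sg σ * (⟪a, e⟫ * K) - |⟪a, e⟫| * K) := ⟨_, fun _ => rfl⟩
  have main : ∀ x : X, ‖x‖ < r → ⟪x, e⟫ = 0 → ∃ σ,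
      ‖vec a e x (al a x) (DD a x) - (L σ x + b σ)‖ ≤ δ ∧ ‖L σ x + b σ‖ ≤ ‖x‖ := by
    intro x hx hxe
    obtain ⟨σ, hσ⟩ := hsg' (⟪a, e⟫ * K - ⟪a, x⟫)
    have hβ : 1 - ⟪a, e⟫ ^ 2 ≠ 0 → ((1 - ⟪a, e⟫ * sg σ) / (1 - ⟪a, e⟫ ^ 2) * ⟪a, x⟫ +
        ⟪a, e⟫ * (sg σ * (⟪a, e⟫ * K) - |⟪a, e⟫| * K) / (1 - ⟪a, e⟫ ^ 2)) * (1 - ⟪a, e⟫ ^ 2) =
        ⟪a, x⟫ + ⟪a, e⟫ * (|⟪a, e⟫ * K - ⟪a, x⟫| - |⟪a, e⟫| * K) := fun hQ => by
      rw [← hσ]
      field_simp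
      ring
    have hC : -sg σ * ⟪a, x⟫ + (sg σ * (⟪a, e⟫ * K) - |⟪a, e⟫| * K) =
        |⟪a, e⟫ * K - ⟪a, x⟫| - |⟪a, e⟫| * K := by
      rw [← hσ]; ring
    refine ⟨σ, ?_, ?_⟩
    · rw [hL, hb, vec_add, vec_sub, add_zero, sub_self, hC]
      obtain ⟨β, hβ'⟩ : ∃ β, β = (1 - ⟪a, e⟫ * sg σ) / (1 - ⟪a, e⟫ ^ 2) * ⟪a, x⟫ +
        ⟪a, e⟫ * (sg σ * (⟪a, e⟫ * K) - |⟪a, e⟫| * K) / (1 - ⟪a, e⟫ ^ 2) := ⟨_, rfl⟩
      rw [← hβ'] at hβ ⊢
      have hε : DD a x - (|⟪a, e⟫ * K - ⟪a, x⟫| - |⟪a, e⟫| * K) =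
          ab (⟪a, e⟫ * K - ⟪a, x⟫) - |⟪a, e⟫ * K - ⟪a, x⟫| := by
        simp only [hDD]; ring
      have h0 : 1 - ⟪a, e⟫ ^ 2 ≠ 0 → (al a x - β) * (1 - ⟪a, e⟫ ^ 2) = ⟪a, (0 : X)⟫ +
          ⟪a, e⟫ * (DD a x - (|⟪a, e⟫ * K - ⟪a, x⟫| - |⟪a, e⟫| * K)) := fun hQ => by
        rw [inner_zero_right]
        linear_combination star x hx - hβ hQ
      rcases le_or_gt (d + r) (|⟪a, e⟫| * K) with h | h
      · have h2 := (far hd (hu x hx) h).1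
        refine (norm_vec_le ha he (inner_zero_left _) h0 ?_).trans (by simpa using hδ.le)
        rw [hε, habs _ h2, sub_self, abs_zero]
        exact abs_nonneg _
      · have h2 := hsmall h
        have h3 := norm_vec ha he (inner_zero_left _) (h0 (by linarith))
        rw [inner_zero_right, norm_zero] at h3
        obtain ⟨h4, h5⟩ := hbd (⟪a, e⟫ * K - ⟪a, x⟫)
        have h6 : (DD a x - (|⟪a, e⟫ * K - ⟪a, x⟫| - |⟪a, e⟫| * K)) ^ 2 ≤ (δ / 2) ^ 2 := by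
          rw [hε]
          exact pow_le_pow_left₀ (by linarith) (by linarith) 2
        refine (sq_le_sq₀ (norm_nonneg _) hδ.le).1 ?_
        have h7 := mul_le_mul_of_nonneg_right h2 (sq_nonneg
          ‖vec a e 0 (al a x - β) (DD a x - (|⟪a, e⟫ * K - ⟪a, x⟫| - |⟪a, e⟫| * K))‖)
        nlinarith [sq_nonneg δ]
    · rw [hL, hb, vec_add, add_zero, hC]
      refine norm_vec_le ha he hxe hβ ?_
      have h1 := abs_abs_sub_abs_le_abs_sub (⟪a, e⟫ * K - ⟪a, x⟫) (⟪a, e⟫ * K)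
      rwa [abs_mul, abs_of_pos hK, sub_sub_cancel_left, abs_neg] at h1
  refine ⟨fun x hx _ => ?_, fun x v h1 h2 h3 => inner_vec h1 h2 h3, fun x y hx hy hxe hye => ?_,
    fun x hx hxe => ?_, L, b, fun σ x hxe => ?_, fun σ x v h1 h2 h3 => ?_, fun σ v h2 h3 => ?_,
    fun x hx hxe => ?_⟩
  · rw [inner_vec_a ha, star x hx, sub_self]
  · rw [vec_sub]
    refine norm_vec_le ha he (by rw [inner_sub_left, hxe, hye, sub_self]) (fun _ => ?_) ?_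
    · rw [inner_sub_right]
      linear_combination star x hx - star y hy
    · have h1 := hlip (⟪a, e⟫ * K - ⟪a, x⟫) (⟪a, e⟫ * K - ⟪a, y⟫)
      rw [sub_sub_sub_cancel_left, abs_sub_comm ⟪a, y⟫] at h1
      simp only [hDD, inner_sub_right, sub_sub_sub_cancel_right]
      exact h1
  · obtain ⟨σ, h1, h2⟩ := main x hx hxe
    have h3 := norm_le_norm_add_norm_sub' (vec a e x (al a x) (DD a x)) (L σ x + b σ)
    linarith
  · rw [hL]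
    refine norm_vec_eq ha he hxe (fun hQ => ?_) (by rw [mul_pow, neg_sq, hsg, one_mul])
    field_simp
    ring
  · rw [hL]
    exact inner_vec h1 h2 h3
  · rw [hb]
    exact inner_vec (inner_zero_left _) h2 h3
  · obtain ⟨σ, h1, -⟩ := main x hx hxe
    exact ⟨σ, h1⟩

end Pool.Agent.P.MP_f791b6_an.One
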