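import Pool.Agent.P.MP_f791b6_an.K1Par

/-! Genericity, finiteness, averaging and counting of orbits. -/

open MeasureTheory Set Metric Filter Topology
open scoped ContDiff RealInnerProductSpace ENNReal

namespace Pool.Agent.P.MP_f791b6_an.One

variable {n m : ℕ}

variable {V : Type} [NormedAddCommGroup V] [NormedSpace ℝ V] [FiniteDimensional ℝ V]

variable {G : Type} [Group G] [Fintype G]

/-- A linear action. -/
structure Act (ρ : G → V →L[ℝ] V) : Prop where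
  one : ∀ y, ρ 1 y = y
  mul : ∀ g h y, ρ (g * h) y = ρ g (ρ h y)

theorem finite_zeros {f : V → V} (hf : ContDiff ℝ 1 f) {K : Set V} (hK : IsCompact K)
    (hr : ∀ x ∈ K, f x = 0 → (fderiv ℝ f x).det ≠ 0) : {x ∈ K | f x = 0}.Finite := by
  have hcl : IsClosed {x : V | f x = 0} := isClosed_eq hf.continuous continuous_const
  have hc : IsCompact {x ∈ K | f x = 0} := hK.inter_right hcl
  refine hc.finite ?_
  rw [isDiscrete_iff_nhdsNE]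
  rintro x ⟨hxK, hx0⟩
  have hd : HasFDerivAt f (fderiv ℝ f x) x := (hf.differentiable one_ne_zero x).hasFDerivAt
  have ha : ∃ C, AntilipschitzWith C (fderiv ℝ f x) :=
    ⟨_, ((fderiv ℝ f x).toContinuousLinearEquivOfDetNeZero (hr x hxK hx0)).antilipschitz⟩
  have hev := hd.eventually_ne (c := 0) ha
  rw [inf_principal_eq_bot]
  filter_upwards [hev] with y hy hmem
  exact hy hmem.2

theorem generic {f : V → V} (hf : ContDiff ℝ 1 f) {β : V → ℝ} (hβ : ContDiff ℝ 1 β) {η : ℝ}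
    (hη : 0 < η) : ∃ c : V, ‖c‖ < η ∧ ∀ x, β x ≠ 0 → f x + β x • c = 0 →
      (fderiv ℝ (fun y => f y + β y • c) x).det ≠ 0 := by
  borelize V
  let μ : Measure V := Measure.addHaar
  let Θ : V → V := fun y => -((β y)⁻¹ • f y)
  have hΘ : ∀ x, β x ≠ 0 → DifferentiableAt ℝ Θ x := fun x hx =>
    (((hβ.differentiable one_ne_zero x).inv hx).smul (hf.differentiable one_ne_zero x)).neg
  let s : Set V := {x | β x ≠ 0 ∧ (fderiv ℝ Θ x).det = 0}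
  have hs : μ (Θ '' s) = 0 :=
    addHaar_image_eq_zero_of_det_fderivWithin_eq_zero μ (f' := fun x => fderiv ℝ Θ x)
      (fun x hx => (hΘ x hx.1).hasFDerivAt.hasFDerivWithinAt) (fun x hx => hx.2)
  have hb : 0 < μ (ball (0 : V) η) := measure_ball_pos μ 0 hη
  have hex : ∃ c ∈ ball (0 : V) η, c ∉ Θ '' s := by
    by_contra hcon
    have hsub : ball (0 : V) η ⊆ Θ '' s := by
      intro c hc
      by_contra h
      exact hcon ⟨c, hc, h⟩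
    exact hb.ne' (measure_mono_null hsub hs)
  obtain ⟨c, hc, hcs⟩ := hex
  refine ⟨c, by simpa using hc, fun x hx h0 => ?_⟩
  have hΘx : Θ x = c := by
    have h1 : f x = -(β x • c) := eq_neg_of_add_eq_zero_left h0
    simp only [Θ, h1, smul_neg, neg_neg, inv_smul_smul₀ hx]
  have hdet : (fderiv ℝ Θ x).det ≠ 0 := fun h => hcs ⟨x, ⟨hx, h⟩, hΘx⟩
  have hev : (fun y => f y + β y • c) =ᶠ[𝓝 x] fun y => β y • (c - Θ y) := by
    filter_upwards [hβ.continuous.continuousAt.eventually_ne hx] with y hy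
    simp only [Θ, sub_neg_eq_add, smul_add, smul_inv_smul₀ hy]
    exact add_comm _ _
  have hd1 : HasFDerivAt β (fderiv ℝ β x) x := (hβ.differentiable one_ne_zero x).hasFDerivAt
  have hd2 : HasFDerivAt (fun y => c - Θ y) (-fderiv ℝ Θ x) x :=
    (hΘ x hx).hasFDerivAt.const_sub c
  have hd3 := hd1.smul hd2
  have hd4 : HasFDerivAt (fun y => f y + β y • c) ((-β x) • fderiv ℝ Θ x) x := by
    refine HasFDerivAt.congr_of_eventuallyEq ?_ hev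
    refine hd3.congr_fderiv ?_
    ext v
    simp [hΘx]
  rw [hd4.fderiv]
  show LinearMap.det (((-β x) • fderiv ℝ Θ x : V →L[ℝ] V) : V →ₗ[ℝ] V) ≠ 0
  rw [ContinuousLinearMap.toLinearMap_smul, LinearMap.det_smul]
  exact mul_ne_zero (pow_ne_zero _ (neg_ne_zero.2 hx)) hdet

theorem approx_equi {ρ ρ' : G → V →L[ℝ] V} (hρ : Act ρ) (hρ' : Act ρ') {Ψ : V → V}
    (hΨ : Continuous Ψ) (he : ∀ g y, Ψ (ρ g y) = ρ' g (Ψ y)) {η : ℝ} (hη : 0 < η) :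
    ∃ Φ : V → V, ContDiff ℝ 1 Φ ∧ (∀ g y, Φ (ρ g y) = ρ' g (Φ y)) ∧ ∀ y, ‖Φ y - Ψ y‖ < η := by
  have hN : (0 : ℝ) < Fintype.card G := by exact_mod_cast Fintype.card_pos
  set M : ℝ := ∑ g : G, ‖ρ' g‖ + 1 with hM
  have hM0 : 0 < M := by positivity
  have hgM : ∀ g : G, ‖ρ' g‖ ≤ M := fun g => by
    have := Finset.single_le_sum (f := fun g : G => ‖ρ' g‖) (fun g _ => norm_nonneg _)
      (Finset.mem_univ g)
    linarith
  obtain ⟨P, hP, hPa, -⟩ := hΨ.exists_contDiff_approx (ε := fun _ => η / (2 * M)) 1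
    continuous_const (fun _ => by positivity)
  have hP1 : ContDiff ℝ 1 P := by simpa using hP
  refine ⟨fun y => (Fintype.card G : ℝ)⁻¹ • ∑ g : G, ρ' g⁻¹ (P (ρ g y)), ?_, ?_, ?_⟩
  · refine ContDiff.const_smul _ (ContDiff.sum fun g _ => ?_)
    exact (ρ' g⁻¹).contDiff.comp (hP1.comp (ρ g).contDiff)
  · intro h y
    simp only [map_smul, map_sum]
    congr 1
    refine Fintype.sum_equiv (Equiv.mulRight h) _ _ fun g => ?_
    simp only [Equiv.coe_mulRight]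
    rw [← hρ.mul, ← hρ'.mul, mul_inv_rev, mul_inv_cancel_left]
  · intro y
    have h1 : Ψ y = (Fintype.card G : ℝ)⁻¹ • ∑ g : G, ρ' g⁻¹ (Ψ (ρ g y)) := by
      have : ∀ g : G, ρ' g⁻¹ (Ψ (ρ g y)) = Ψ y := fun g => by
        rw [he, ← hρ'.mul, inv_mul_cancel, hρ'.one]
      simp only [this, Finset.sum_const, Finset.card_univ]
      rw [← Nat.cast_smul_eq_nsmul ℝ, inv_smul_smul₀ hN.ne']
    have h2 : ∀ g : G, ‖ρ' g⁻¹ (P (ρ g y)) - ρ' g⁻¹ (Ψ (ρ g y))‖ ≤ η / 2 := fun g => by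
      rw [← map_sub]
      have h3 := (hPa (ρ g y)).le
      rw [dist_eq_norm] at h3
      calc ‖ρ' g⁻¹ (P (ρ g y) - Ψ (ρ g y))‖ ≤ ‖ρ' g⁻¹‖ * ‖P (ρ g y) - Ψ (ρ g y)‖ :=
            (ρ' g⁻¹).le_opNorm _
        _ ≤ M * (η / (2 * M)) := mul_le_mul (hgM _) h3 (norm_nonneg _) hM0.le
        _ = η / 2 := by field_simp
    have h4 : ‖∑ g : G, (ρ' g⁻¹ (P (ρ g y)) - ρ' g⁻¹ (Ψ (ρ g y)))‖
        ≤ Fintype.card G * (η / 2) := by
      refine (norm_sum_le _ _).trans ?_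
      refine (Finset.sum_le_sum fun g _ => h2 g).trans ?_
      simp
    have h5 : (Fintype.card G : ℝ)⁻¹ • ∑ g : G, ρ' g⁻¹ (P (ρ g y)) - Ψ y
        = (Fintype.card G : ℝ)⁻¹ • ∑ g : G, (ρ' g⁻¹ (P (ρ g y)) - ρ' g⁻¹ (Ψ (ρ g y))) := by
      rw [Finset.sum_sub_distrib, smul_sub, ← h1]
    show ‖(Fintype.card G : ℝ)⁻¹ • ∑ g : G, ρ' g⁻¹ (P (ρ g y)) - Ψ y‖ < η
    rw [h5, norm_smul, norm_inv, Real.norm_natCast]
    calc (Fintype.card G : ℝ)⁻¹ * ‖∑ g : G, (ρ' g⁻¹ (P (ρ g y)) - ρ' g⁻¹ (Ψ (ρ g y)))‖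
        ≤ (Fintype.card G : ℝ)⁻¹ * (Fintype.card G * (η / 2)) :=
          mul_le_mul_of_nonneg_left h4 (by positivity)
      _ = η / 2 := by field_simp
      _ < η := by linarith

theorem det_comp_clm (A B : V →L[ℝ] V) : (A.comp B).det = A.det * B.det := by
  show LinearMap.det ((A : V →ₗ[ℝ] V).comp (B : V →ₗ[ℝ] V)) = _
  exact LinearMap.det_comp _ _

theorem Act.det_ne {ρ : G → V →L[ℝ] V} (hρ : Act ρ) (g : G) : (ρ g).det ≠ 0 := by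
  have h1 : (ρ g).comp (ρ g⁻¹) = ContinuousLinearMap.id ℝ V := by
    ext v
    simp only [ContinuousLinearMap.comp_apply, ContinuousLinearMap.id_apply]
    rw [← hρ.mul, mul_inv_cancel, hρ.one]
  have h2 := det_comp_clm (ρ g) (ρ g⁻¹)
  rw [h1] at h2
  have h3 : (ContinuousLinearMap.id ℝ V).det = 1 := LinearMap.det_id
  intro h0
  rw [h0, zero_mul, h3] at h2
  exact one_ne_zero h2

theorem det_equi {ρ ρ' : G → V →L[ℝ] V} (hρ : Act ρ) (hρ' : Act ρ') {Φ : V → V}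
    (hΦ : ContDiff ℝ 1 Φ) (he : ∀ g y, Φ (ρ g y) = ρ' g (Φ y)) (g : G) {y : V}
    (h : (fderiv ℝ Φ y).det ≠ 0) : (fderiv ℝ Φ (ρ g y)).det ≠ 0 := by
  have hd := hΦ.differentiable one_ne_zero
  have h1 : HasFDerivAt (fun z => Φ (ρ g z)) ((fderiv ℝ Φ (ρ g y)).comp (ρ g)) y :=
    (hd (ρ g y)).hasFDerivAt.comp y (ρ g).hasFDerivAt
  have h2 : HasFDerivAt (fun z => ρ' g (Φ z)) ((ρ' g).comp (fderiv ℝ Φ y)) y :=
    (ρ' g).hasFDerivAt.comp y (hd y).hasFDerivAt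
  have h3 : (fun z => Φ (ρ g z)) = fun z => ρ' g (Φ z) := funext fun z => he g z
  rw [h3] at h1
  have h4 := h1.unique h2
  have h5 := congrArg ContinuousLinearMap.det h4
  rw [det_comp_clm, det_comp_clm] at h5
  intro h0
  rw [h0, zero_mul] at h5
  exact mul_ne_zero (hρ'.det_ne g) h h5.symm

theorem count_orbits {ρ ρ' : G → V →L[ℝ] V} (hρ : Act ρ) {Φ : V → V}
    (he : ∀ g y, Φ (ρ g y) = ρ' g (Φ y)) {O U : Set V} (hO : ∀ g, ∀ y ∈ O, ρ g y ∈ O)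
    (hUO : U ⊆ O) (hd : ∀ g, ∀ y ∈ U, ρ g y ∈ U → g = 1) (ff : {x ∈ O | Φ x = 0}.Finite) :
    {x ∈ O | Φ x = 0}.ncard = {x ∈ O | Φ x = 0 ∧ ∀ g, ρ g x ∉ U}.ncard
      + Fintype.card G * {x ∈ U | Φ x = 0}.ncard := by
  let F : G × V → V := fun p => ρ p.1 p.2
  let W : Set (G × V) := (univ : Set G) ×ˢ {x ∈ U | Φ x = 0}
  have hinj : InjOn F W := by
    rintro ⟨g, y⟩ ⟨-, hy, -⟩ ⟨h, z⟩ ⟨-, hz, -⟩ hF
    have hF' : ρ g y = ρ h z := hF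
    have h1 : ρ (h⁻¹ * g) y = z := by
      rw [hρ.mul, hF', ← hρ.mul, inv_mul_cancel, hρ.one]
    have h2 : h⁻¹ * g = 1 := hd _ y hy (by rw [h1]; exact hz)
    rw [h2, hρ.one] at h1
    have h3 : g = h := (inv_mul_eq_one.1 h2).symm
    rw [h1, h3]
  have hsplit : {x ∈ O | Φ x = 0} = {x ∈ O | Φ x = 0 ∧ ∀ g, ρ g x ∉ U} ∪ F '' W := by
    ext x
    constructor
    · rintro ⟨h1, h2⟩
      by_cases h3 : ∀ g, ρ g x ∉ U
      · exact Or.inl ⟨h1, h2, h3⟩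
      · right
        obtain ⟨g, hg⟩ := not_forall.1 h3
        refine ⟨(g⁻¹, ρ g x), ⟨mem_univ _, not_not.1 hg, ?_⟩, ?_⟩
        · show Φ (ρ g x) = 0
          rw [he, h2, map_zero]
        · show ρ g⁻¹ (ρ g x) = x
          rw [← hρ.mul, inv_mul_cancel, hρ.one]
    · rintro (⟨h1, h2, -⟩ | ⟨⟨g, y⟩, ⟨-, hy, hy0⟩, rfl⟩)
      · exact ⟨h1, h2⟩
      · refine ⟨hO g y (hUO hy), ?_⟩
        have hy0' : Φ y = 0 := hy0
        show Φ (ρ g y) = 0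
        rw [he, hy0', map_zero]
  have hdisj : Disjoint {x ∈ O | Φ x = 0 ∧ ∀ g, ρ g x ∉ U} (F '' W) := by
    rw [Set.disjoint_left]
    rintro x ⟨-, -, h3⟩ ⟨⟨g, y⟩, ⟨-, hy, -⟩, rfl⟩
    apply h3 g⁻¹
    show ρ g⁻¹ (ρ g y) ∈ U
    rw [← hρ.mul, inv_mul_cancel, hρ.one]
    exact hy
  have f1 : {x ∈ O | Φ x = 0 ∧ ∀ g, ρ g x ∉ U}.Finite := ff.subset fun x hx => ⟨hx.1, hx.2.1⟩
  have f2 : (F '' W).Finite := ff.subset (by rw [hsplit]; exact subset_union_right)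
  have h1 : {x ∈ O | Φ x = 0}.ncard
      = ({x ∈ O | Φ x = 0 ∧ ∀ g, ρ g x ∉ U} ∪ F '' W).ncard := by rw [← hsplit]
  rw [h1, ncard_union_eq hdisj f1 f2, hinj.ncard_image, ncard_prod, ncard_univ,
    Nat.card_eq_fintype_card]

theorem step_count {ρ ρ' : G → V →L[ℝ] V} (hρ : Act ρ) (hρ' : Act ρ') {Φ Φ' : V → V}
    (hΦ : ContDiff ℝ 1 Φ) (hΦ' : ContDiff ℝ 1 Φ') (he : ∀ g y, Φ (ρ g y) = ρ' g (Φ y))
    (he' : ∀ g y, Φ' (ρ g y) = ρ' g (Φ' y)) {O U C : Set V} (hO : ∀ g, ∀ y ∈ O, ρ g y ∈ O)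
    (hU : IsOpen U) (hUO : U ⊆ O) (hd : ∀ g, ∀ y ∈ U, ρ g y ∈ U → g = 1) (hC : IsCompact C)
    (hCU : C ⊆ U) (heq : ∀ y ∈ O, (∀ g, ρ g y ∉ C) → Φ y = Φ' y)
    (ff : {x ∈ O | Φ x = 0}.Finite) (fg : {x ∈ O | Φ' x = 0}.Finite)
    (rf : ∀ x ∈ O, Φ x = 0 → (fderiv ℝ Φ x).det ≠ 0)
    (rg : ∀ x ∈ O, Φ' x = 0 → (fderiv ℝ Φ' x).det ≠ 0) :
    {x ∈ O | Φ x = 0}.ncard ≡ {x ∈ O | Φ' x = 0}.ncard [MOD 2 * Fintype.card G] := by
  have hUC : ∀ x ∈ U, x ∉ C → Φ x = Φ' x := fun x hx hxC =>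
    heq x (hUO hx) fun g hg => by
      have h1 := hd g x hx (hCU hg)
      rw [h1, hρ.one] at hg
      exact hxC hg
  have hpar := parity_local hΦ hΦ' hU hC hCU hUC
    (ff.subset fun x hx => ⟨hUO hx.1, hx.2⟩) (fg.subset fun x hx => ⟨hUO hx.1, hx.2⟩)
    (fun x hx => rf x (hUO hx)) (fun x hx => rg x (hUO hx))
  rw [count_orbits hρ he hO hUO hd ff, count_orbits hρ he' hO hUO hd fg]
  have hout : {x ∈ O | Φ x = 0 ∧ ∀ g, ρ g x ∉ U} = {x ∈ O | Φ' x = 0 ∧ ∀ g, ρ g x ∉ U} := by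
    ext x
    constructor
    · rintro ⟨h1, h2, h3⟩
      exact ⟨h1, by rw [← heq x h1 fun g hg => h3 g (hCU hg)]; exact h2, h3⟩
    · rintro ⟨h1, h2, h3⟩
      exact ⟨h1, by rw [heq x h1 fun g hg => h3 g (hCU hg)]; exact h2, h3⟩
  rw [hout]
  refine Nat.ModEq.add_left _ ?_
  rw [mul_comm 2]
  exact hpar.mul_left' _

end Pool.Agent.P.MP_f791b6_an.One
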