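import Pool.Agent.P.MP_f791b6_an.K1Fold

/-! Iterated folds. -/

open MeasureTheory Set Metric Filter Topology
open scoped ContDiff RealInnerProductSpace ENNReal

namespace Pool.Agent.P.MP_f791b6_an.One

variable {n m : ℕ}

/-- The isometric inclusion of the first coordinates. -/
lemma geo_iota (n m : ℕ) : ∃ ι : E n →L[ℝ] W n m,
    (∀ x, ‖ι x‖ = ‖x‖) ∧ ∀ x k, ⟪ι x, ee n k⟫ = 0 := by
  let ι : E n →ₗ[ℝ] W n m :=
    { toFun := fun x => WithLp.toLp 2 (Sum.elim (fun i => x i) fun _ => 0)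
      map_add' := fun x y => by
        ext k
        rcases k with k | k <;> simp
      map_smul' := fun c x => by
        ext k
        rcases k with k | k <;> simp }
  refine ⟨LinearMap.toContinuousLinearMap ι, fun x => ?_, fun x k => ?_⟩
  · simp [EuclideanSpace.norm_eq, Fintype.sum_sum_type, ι]
  · simp [ee, EuclideanSpace.inner_single_right, ι]

lemma geo_ee_norm (k : Fin m) : ‖ee n k‖ = 1 := by simp [ee]

lemma geo_ee_inner {j k : Fin m} (h : j ≠ k) : ⟪ee n j, ee n k⟫ = 0 := by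
  simp [ee, EuclideanSpace.inner_single_right, h.symm]

/-- The properties of the first `j` folds. -/
lemma geo_ind (n m : ℕ) {r d : ℝ} (hr : 0 < r) (hd : 0 < d) (j : ℕ) (hj : j ≤ m) :
    ∃ X : (Fin m → W n m) → E n → W n m, JC X ∧
      (∀ (a : Fin m → W n m) (ε : Fin m → ℤˣ), X (fun i => ((ε i : ℤ) : ℝ) • a i) = X a) ∧
      ∀ a, Adm a →
        (∀ x, ‖x‖ < r → ∀ k : Fin m, j ≤ k → ⟪X a x, ee n k⟫ = 0) ∧
        (∀ x, ‖x‖ < r → ∀ i : Fin m, (i : ℕ) < j → ⟪X a x, a i⟫ = 0) ∧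
        (∀ x y, ‖x‖ < r → ‖y‖ < r → ‖X a x - X a y‖ ≤ ‖x - y‖) ∧
        (∀ x, ‖x‖ < r → ‖X a x‖ ≤ ‖x‖ + j * d) ∧
        ∃ (L : (Fin m → Bool) → E n →L[ℝ] W n m) (b : (Fin m → Bool) → W n m),
          (∀ σ x, ‖L σ x‖ = ‖x‖) ∧ (∀ σ x (k : Fin m), j ≤ k → ⟪L σ x, ee n k⟫ = 0) ∧
          (∀ σ (k : Fin m), j ≤ k → ⟪b σ, ee n k⟫ = 0) ∧
          ∀ x, ‖x‖ < r → ∀ σ₀ : Fin m → Bool, ∃ σ : Fin m → Bool,
            (∀ k : Fin m, j ≤ k → σ k = σ₀ k) ∧ ‖X a x - (L σ x + b σ)‖ ≤ j * d := by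
  induction j with
  | zero =>
    obtain ⟨ι, h1, h2⟩ := geo_iota n m
    refine ⟨fun _ => ι, JC.of_contDiff ι.contDiff, fun _ _ => rfl, fun a _ =>
      ⟨fun x _ k _ => h2 x k, fun x _ i hi => absurd hi (Nat.not_lt_zero _), fun x y _ _ => ?_,
        fun x _ => by simp [h1], fun _ => ι, fun _ => 0, fun _ x => h1 x, fun _ x k _ => h2 x k,
        fun _ _ _ => inner_zero_left _, fun x _ σ₀ => ⟨σ₀, fun _ _ => rfl, by simp⟩⟩⟩
    rw [← map_sub, h1]
  | succ j ih =>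
    obtain ⟨X, x1, x2, x3⟩ := ih (Nat.le_of_succ_le hj)
    let J : Fin m := ⟨j, hj⟩
    have hJ : j ≤ (J : ℕ) := le_rfl
    obtain ⟨T, t1, t2, t3⟩ := exists_fold (r := r + j * d) (by positivity) hd
      (geo_ee_norm (n := n) J)
    refine ⟨fun a x => T (a J) (X a x), (t1.param (continuous_apply J)).comp x1,
      fun a ε => ?_, fun a ha => ?_⟩
    · funext x
      simp only [x2]
      rcases Int.units_eq_one_or (ε J) with h | h <;> simp [h, t2]
    obtain ⟨y1, y2, y3, y4, L, b, y5, y6, y7, y8⟩ := x3 a ha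
    have na : ‖a J‖ = 1 := by
      have h := ha.2 J J
      rw [if_pos rfl, real_inner_self_eq_norm_sq] at h
      nlinarith [norm_nonneg (a J)]
    obtain ⟨s1, s2, s3, s4, L', b', s5, s6, s7, s8⟩ := t3 (a J) na
    have z1 : ∀ x, ‖x‖ < r → ‖X a x‖ < r + j * d := fun x hx =>
      (y4 x hx).trans_lt (by linarith)
    have z2 : ∀ k : Fin m, j + 1 ≤ k → ⟪a J, ee n k⟫ = 0 := fun k hk => ha.1 J k hk
    have z3 : ∀ k : Fin m, j + 1 ≤ k → ⟪ee n J, ee n k⟫ = 0 := fun k hk =>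
      geo_ee_inner (ne_of_lt (show J < k from hk))
    refine ⟨fun x hx k hk => s2 _ _ (y1 x hx k (Nat.le_of_succ_le hk)) (z2 k hk) (z3 k hk),
      fun x hx i hi => ?_, fun x y hx hy =>
        (s3 _ _ (z1 x hx) (z1 y hy) (y1 x hx J hJ) (y1 y hy J hJ)).trans (y3 x y hx hy),
      fun x hx => ?_, fun σ => (L' (σ J)).comp (L σ), fun σ => L' (σ J) (b σ) + b' (σ J),
      fun σ x => ?_, fun σ x k hk => s6 _ _ _ (y6 σ x k (Nat.le_of_succ_le hk)) (z2 k hk) (z3 k hk),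
      fun σ k hk => ?_, fun x hx σ₀ => ?_⟩
    · rcases (Nat.lt_succ_iff.1 hi).lt_or_eq with h | h
      · refine s2 _ _ (y2 x hx i h) ?_ ?_
        · rw [ha.2, if_neg (ne_of_gt (show i < J from h))]
        · rw [real_inner_comm]
          exact ha.1 i J h
      · rw [show i = J from Fin.ext h]
        exact s1 _ (z1 x hx) (y1 x hx J hJ)
    · have := s4 _ (z1 x hx) (y1 x hx J hJ)
      have := y4 x hx
      push_cast
      linarith
    · rw [ContinuousLinearMap.comp_apply, s5 _ _ (y6 σ x J hJ), y5]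
    · rw [inner_add_left, s6 _ _ _ (y7 σ k (Nat.le_of_succ_le hk)) (z2 k hk) (z3 k hk),
        s7 _ _ (z2 k hk) (z3 k hk), add_zero]
    · obtain ⟨τ, hτ⟩ := s8 _ (z1 x hx) (y1 x hx J hJ)
      obtain ⟨σ, u1, u2⟩ := y8 x hx (Function.update σ₀ J τ)
      have u3 : σ J = τ := by rw [u1 J hJ, Function.update_self]
      refine ⟨σ, fun k hk => ?_, ?_⟩
      · rw [u1 k (Nat.le_of_succ_le hk), Function.update_of_ne (ne_of_gt (show J < k from hk))]
      · have u4 : ‖L' τ (X a x - (L σ x + b σ))‖ ≤ j * d := by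
          rw [s5]
          · exact u2
          · rw [inner_sub_left, inner_add_left, y1 x hx J hJ, y6 σ x J hJ, y7 σ J hJ]
            simp
        have u5 : T (a J) (X a x) - (((L' (σ J)).comp (L σ)) x + (L' (σ J) (b σ) + b' (σ J))) =
            (T (a J) (X a x) - (L' τ (X a x) + b' τ)) + L' τ (X a x - (L σ x + b σ)) := by
          rw [u3, ContinuousLinearMap.comp_apply, map_sub, map_add]
          abel
        have := norm_add_le (T (a J) (X a x) - (L' τ (X a x) + b' τ))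
          (L' τ (X a x - (L σ x + b σ)))
        rw [u5]
        push_cast
        linarith

theorem exists_folds (n m : ℕ) {r δ : ℝ} (hr : 0 < r) (hδ : 0 < δ) : ∃ T, Folds n m r δ T := by
  obtain ⟨X, x1, x2, x3⟩ := geo_ind n m hr (show 0 < δ / (m + 1) by positivity) m le_rfl
  have hd : (m : ℝ) * (δ / (m + 1)) ≤ δ := by
    rw [← mul_div_assoc, div_le_iff₀ (by positivity)]
    nlinarith
  refine ⟨X, x1, x2, fun a ha x hx i => (x3 a ha).2.1 x (mem_ball_zero_iff.1 hx) i i.2,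
    fun a ha => ?_, fun a ha x hx => ?_, fun a ha => ?_⟩
  · refine LipschitzOnWith.of_dist_le_mul fun x hx y hy => ?_
    rw [dist_eq_norm, dist_eq_norm, NNReal.coe_one, one_mul]
    exact (x3 a ha).2.2.1 x y (mem_ball_zero_iff.1 hx) (mem_ball_zero_iff.1 hy)
  · have h1 := mem_ball_zero_iff.1 hx
    have h2 := (x3 a ha).2.2.2.1 x h1
    linarith
  · obtain ⟨-, -, -, -, L, b, y5, -, -, y8⟩ := x3 a ha
    refine ⟨L, b, y5, fun x hx => ?_⟩
    obtain ⟨σ, -, h⟩ := y8 x (mem_ball_zero_iff.1 hx) fun _ => true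
    exact ⟨σ, h.trans hd⟩

end Pool.Agent.P.MP_f791b6_an.One
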