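import Pool.Agent.P.MP_f791b6_an.K1BM

/-! The isoperimetric inequality on a layer between two levels. -/

open MeasureTheory Set Metric Filter Topology
open scoped ContDiff RealInnerProductSpace ENNReal

namespace Pool.Agent.P.MP_f791b6_an.One

variable {n m : ℕ}

lemma iso_nonneg' (hn : 1 ≤ n) {v : ℝ} (hv : 0 ≤ v) : 0 ≤ iso n v := by
  have := (om_pos (n := n)).le
  unfold iso
  have _ := hn
  positivity

lemma iso_int_D {u : E n → ℝ} (hu : ContDiff ℝ 1 u) (hc : HasCompactSupport u) :
    Integrable fun z => ‖fderiv ℝ u z‖ :=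
  ((hu.continuous_fderiv one_ne_zero).integrable_of_hasCompactSupport (hc.fderiv ℝ)).norm

/-- Comparison of two integrals through their level sets. -/
lemma iso_cake {f F : E n → ℝ} (hf : Integrable f) (hF : Integrable F) (h0 : ∀ x, 0 ≤ f x)
    (hle : ∀ x, f x ≤ F x) {H c : ℝ} (hH : 0 ≤ H) (hc : 0 ≤ c)
    (h : ∀ t ∈ Ioc 0 H, volume {x | t ≤ f x} + ENNReal.ofReal c ≤ volume {x | t ≤ F x}) :
    (∫ x, f x) + c * H ≤ ∫ x, F x := by
  have F0 : ∀ x, 0 ≤ F x := fun x => (h0 x).trans (hle x)
  have e1 := lintegral_eq_lintegral_meas_le volume (ae_of_all _ h0) hf.aemeasurable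
  have e2 := lintegral_eq_lintegral_meas_le volume (ae_of_all _ F0) hF.aemeasurable
  rw [← ofReal_integral_eq_lintegral_ofReal hf (ae_of_all _ h0)] at e1
  rw [← ofReal_integral_eq_lintegral_ofReal hF (ae_of_all _ F0)] at e2
  have e3 : ∫⁻ t in Ioi (0 : ℝ), (Ioc 0 H).indicator (fun _ => ENNReal.ofReal c) t =
      ENNReal.ofReal (c * H) := by
    rw [lintegral_indicator measurableSet_Ioc, Measure.restrict_restrict measurableSet_Ioc,
      inter_eq_left.2 Ioc_subset_Ioi_self, setLIntegral_const, Real.volume_Ioc, sub_zero,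
      ENNReal.ofReal_mul hc]
  have e4 : ENNReal.ofReal (∫ x, f x) + ENNReal.ofReal (c * H) ≤ ENNReal.ofReal (∫ x, F x) := by
    rw [e1, e2, ← e3, ← lintegral_add_right _ (measurable_const.indicator measurableSet_Ioc)]
    refine lintegral_mono fun t => ?_
    by_cases ht : t ∈ Ioc 0 H
    · simp only [indicator_of_mem ht]
      exact h t ht
    · simp only [indicator_of_notMem ht, add_zero]
      exact measure_mono fun x hx => le_trans hx (hle x)
  rw [← ENNReal.ofReal_add (integral_nonneg h0) (mul_nonneg hc hH),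
    ENNReal.ofReal_le_ofReal_iff (integral_nonneg F0)] at e4
  exact e4

theorem sobolev (hn : 1 ≤ n) {f : E n → ℝ} (hf : ContDiff ℝ 1 f) (hc : HasCompactSupport f)
    (h0 : ∀ x, 0 ≤ f x) {S : Set (E n)} (hS : 0 < volume.real S) {H : ℝ} (hH : 0 < H)
    (hfS : ∀ x ∈ S, H ≤ f x) : H * iso n (volume.real S) ≤ ∫ x, ‖fderiv ℝ f x‖ := by
  set K := cthickening 1 (tsupport f) with hK
  have Kc : IsCompact K := hc.isCompact.cthickening
  have Km : MeasurableSet K := Kc.measurableSet
  have Kf : volume K ≠ ⊤ := Kc.measure_lt_top.ne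
  have Ks : tsupport f ⊆ K := self_subset_cthickening _
  have Dc := hf.continuous_fderiv one_ne_zero
  have Du : UniformContinuous (fderiv ℝ f) :=
    (hc.fderiv ℝ).uniformContinuous_of_continuous Dc
  have fi : Integrable f := hf.continuous.integrable_of_hasCompactSupport hc
  have Di := iso_int_D hf hc
  have key : ∀ ε, 0 < ε →
      H * iso n (volume.real S) ≤ (∫ x, ‖fderiv ℝ f x‖) + ε * volume.real K := by
    intro ε hε
    obtain ⟨δ, hδ, hδ'⟩ := Metric.uniformContinuous_iff.1 Du ε hε
    set h := min δ 1 with hh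
    have h1 : 0 < h := lt_min hδ one_pos
    have h2 : h ≤ δ := min_le_left _ _
    have h3 : h ≤ 1 := min_le_right _ _
    set F : E n → ℝ := fun x => f x + h * (‖fderiv ℝ f x‖ + K.indicator (fun _ => ε) x) with hF
    have Ii : Integrable (K.indicator fun _ => ε) :=
      (integrable_indicator_iff Km).2 (integrableOn_const Kf)
    have Gi : Integrable fun x => h * (‖fderiv ℝ f x‖ + K.indicator (fun _ => ε) x) :=
      (Di.add Ii).const_mul h
    have Fi : Integrable F := fi.add Gi
    have Fm : Measurable F := hf.continuous.measurable.add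
      ((Dc.norm.measurable.add (measurable_const.indicator Km)).const_mul h)
    have hle : ∀ x, f x ≤ F x := fun x => le_add_of_nonneg_right (mul_nonneg h1.le
      (add_nonneg (norm_nonneg _) (indicator_nonneg (fun _ _ => hε.le) _)))
    have i0 := iso_nonneg' hn hS.le
    have main := iso_cake fi Fi h0 hle hH.le (mul_nonneg h1.le i0) fun t ht => ?_
    · have e : ∫ x, F x = (∫ x, f x) + h * ((∫ x, ‖fderiv ℝ f x‖) + ε * volume.real K) := by
        simp only [hF]
        rw [integral_add fi Gi, integral_const_mul, integral_add Di Ii,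
          integral_indicator Km, setIntegral_const, smul_eq_mul, mul_comm (volume.real K)]
      rw [e] at main
      refine le_of_mul_le_mul_left ?_ h1
      linarith
    have s1 : {x | t ≤ f x} ⊆ tsupport f := fun x hx =>
      subset_tsupport f (ht.1.trans_le hx).ne'
    have s2 : {x | t ≤ F x} ⊆ K := fun x hx => by
      by_contra hn'
      have a1 : x ∉ tsupport f := fun h => hn' (Ks h)
      have a2 : f x = 0 := image_eq_zero_of_notMem_tsupport a1
      have a3 : fderiv ℝ f x = 0 := by
        rw [(notMem_tsupport_iff_eventuallyEq.1 a1).fderiv_eq]; simp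
      have : t ≤ F x := hx
      simp only [hF, a2, a3, indicator_of_notMem hn', norm_zero, add_zero, mul_zero] at this
      exact absurd ht.1 (not_lt.2 this)
    have f1 : volume {x | t ≤ f x} ≠ ⊤ := measure_ne_top_of_subset (s1.trans Ks) Kf
    have f2 : volume {x | t ≤ F x} ≠ ⊤ := measure_ne_top_of_subset s2 Kf
    have m1 : volume.real S ≤ volume.real {x | t ≤ f x} :=
      measureReal_mono (fun x hx => ht.2.trans (hfS x hx)) f1
    have b := bm hn (K := {x | t ≤ f x}) (C := {x | t ≤ F x})
      (measurableSet_le measurable_const hf.continuous.measurable)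
      (measurableSet_le measurable_const Fm) (hS.trans_le m1) f2 h1 fun x hx y hy => ?_
    · have b2 := mul_le_mul_of_nonneg_left (iso_mono hn hS.le m1) h1.le
      rw [← ofReal_measureReal f1, ← ofReal_measureReal f2,
        ← ENNReal.ofReal_add measureReal_nonneg (mul_nonneg h1.le i0)]
      exact ENNReal.ofReal_le_ofReal (by linarith)
    have hy' : ‖y‖ < h := mem_ball_zero_iff.1 hy
    have c1 : x + y ∈ K := mem_cthickening_of_dist_le _ x _ _ (s1 hx) (by
      rw [dist_self_add_left]; linarith)
    have c2 : ‖f x - f (x + y)‖ ≤ (‖fderiv ℝ f (x + y)‖ + ε) * ‖x - (x + y)‖ := by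
      refine (convex_ball (x + y) h).norm_image_sub_le_of_norm_fderiv_le
        (fun z _ => hf.differentiable one_ne_zero z) (fun z hz => ?_) (mem_ball_self h1) ?_
      · have := hδ' (lt_of_lt_of_le (mem_ball.1 hz) h2)
        rw [dist_eq_norm] at this
        linarith [norm_sub_norm_le (fderiv ℝ f z) (fderiv ℝ f (x + y))]
      · rw [mem_ball, dist_self_add_right]; exact hy'
    have c3 : ‖x - (x + y)‖ ≤ h := by
      rw [sub_add_cancel_left, norm_neg]; exact hy'.le
    have c4 := mul_le_mul_of_nonneg_left c3 (add_nonneg (norm_nonneg (fderiv ℝ f (x + y))) hε.le)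
    have c5 : t ≤ f x := hx
    change t ≤ F (x + y)
    simp only [hF, indicator_of_mem c1]
    rw [Real.norm_eq_abs] at c2
    linarith [le_abs_self (f x - f (x + y))]
  refine le_of_forall_pos_le_add fun ε hε => ?_
  have v0 : 0 ≤ volume.real K := measureReal_nonneg
  refine (key (ε / (volume.real K + 1)) (by positivity)).trans (add_le_add_right ?_ _)
  rw [div_mul_eq_mul_div, div_le_iff₀ (by positivity)]
  nlinarith

theorem layer (hn : 1 ≤ n) {u : E n → ℝ} (hu : ContDiff ℝ 1 u) (hc : HasCompactSupport u)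
    {a b : ℝ} (ha : 0 ≤ a) (hab : a < b) (h0 : 0 < volume.real (u ⁻¹' Ioi b)) :
    (b - a) * iso n (volume.real (u ⁻¹' Ioi b)) ≤ ∫ x in u ⁻¹' Ioc a b, ‖fderiv ℝ u x‖ := by
  have ml : MeasurableSet (u ⁻¹' Ioc a b) := hu.continuous.measurable measurableSet_Ioc
  have key : ∀ η, 0 < η → η ≤ (b - a) / 4 → (b - a - 2 * η) * iso n (volume.real (u ⁻¹' Ioi b)) ≤
      ∫ z in u ⁻¹' Ioc a b, ‖fderiv ℝ u z‖ := by
    intro η h0' h1
    set γ : ℝ → ℝ := fun x => max 0 (min 1 (min (x - a) (b - x) / η)) with hγ
    have γc : Continuous γ := by fun_prop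
    have γ0 : ∀ x, 0 ≤ γ x := fun x => le_max_left _ _
    have γ1 : ∀ x, γ x ≤ 1 := fun x => max_le zero_le_one (min_le_left _ _)
    have γ2 : ∀ x, x ∉ Ioc a b → γ x = 0 := fun x hx => by
      refine max_eq_left ((min_le_right _ _).trans (div_nonpos_of_nonpos_of_nonneg ?_ h0'.le))
      rw [mem_Ioc, not_and_or, not_lt, not_le] at hx
      rcases hx with hx | hx
      exacts [(min_le_left _ _).trans (by linarith), (min_le_right _ _).trans (by linarith)]
    set G : ℝ → ℝ := fun x => ∫ s in a..x, γ s with hG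
    have Gd : ∀ x, HasDerivAt G (γ x) x := fun x => (γc.integral_hasStrictDerivAt a x).hasDerivAt
    have G1 : ContDiff ℝ 1 G := contDiff_one_iff_deriv.2 ⟨fun x => (Gd x).differentiableAt, by
      rw [show deriv G = γ from funext fun x => (Gd x).deriv]; exact γc⟩
    have G0 : ∀ y, y ≤ a → G y = 0 := fun y hy => by
      simp only [hG]
      rw [intervalIntegral.integral_congr (g := fun _ => 0) fun x hx => γ2 x fun h => ?_]
      · simp
      · rw [uIcc_of_ge hy] at hx; linarith [hx.2, h.1]
    have G3 : ∀ y, 0 ≤ G y := fun y => by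
      rcases le_total y a with hy | hy
      · exact (G0 y hy).ge
      · exact intervalIntegral.integral_nonneg hy fun s _ => γ0 s
    have G2 : ∀ x, b < x → b - a - 2 * η ≤ G x := fun x hx => by
      refine le_trans (le_of_eq ?_) (intervalIntegral.integral_mono_interval (a := a + η)
        (b := b - η) (by linarith) (by linarith) (by linarith) (ae_of_all _ γ0)
        (γc.intervalIntegrable _ _))
      rw [intervalIntegral.integral_congr (g := fun _ => 1) fun s hs => ?_]
      · simp; ring
      · rw [uIcc_of_le (by linarith)] at hs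
        have : 1 ≤ min (s - a) (b - s) / η := by
          rw [one_le_div h0']; exact le_min (by linarith [hs.1]) (by linarith [hs.2])
        simp only [hγ, min_eq_left this, max_eq_right zero_le_one]
    have f1 : ContDiff ℝ 1 (G ∘ u) := G1.comp hu
    have fc : HasCompactSupport (G ∘ u) := hc.comp_left (G0 0 ha)
    have h2 := sobolev hn f1 fc (fun x => G3 _) h0 (H := b - a - 2 * η) (by linarith)
      fun z hz => G2 _ hz
    refine h2.trans ?_
    rw [← integral_indicator ml]
    refine integral_mono (iso_int_D f1 fc) ((iso_int_D hu hc).indicator ml) fun z => ?_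
    have := ((Gd (u z)).comp_hasFDerivAt z (hu.differentiable one_ne_zero z).hasFDerivAt).fderiv
    simp only [this, norm_smul, Real.norm_eq_abs, abs_of_nonneg (γ0 _)]
    by_cases hz : z ∈ u ⁻¹' Ioc a b
    · rw [indicator_of_mem hz]; exact mul_le_of_le_one_left (norm_nonneg _) (γ1 _)
    · rw [indicator_of_notMem hz, γ2 _ hz, zero_mul]
  refine le_of_forall_pos_le_add fun ε hε => ?_
  have m0 := iso_nonneg' hn h0.le
  set I := iso n (volume.real (u ⁻¹' Ioi b))
  have h1 := key _ (lt_min (show 0 < ε / (2 * (I + 1)) by positivity) (by linarith))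
    (min_le_right _ _)
  have h2 := min_le_left (ε / (2 * (I + 1))) ((b - a) / 4)
  have h3 : 0 < min (ε / (2 * (I + 1))) ((b - a) / 4) := lt_min (by positivity) (by linarith)
  rw [le_div_iff₀ (by positivity)] at h2
  nlinarith

end Pool.Agent.P.MP_f791b6_an.One
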