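import Pool.Agent.P.MP_f791b6_an.K1NFK

/-! Small volume: affine test functions. -/

open MeasureTheory Set Metric Filter Topology
open scoped ContDiff RealInnerProductSpace ENNReal

namespace Pool.Agent.P.MP_f791b6_an.One

variable {n m : ℕ}

/-- The map contracting the direction `e` by the factor `2 / 3`. -/
noncomputable def linT (e : E n) : E n →ₗ[ℝ] E n :=
  LinearMap.transvection ((-1 / 3 : ℝ) • innerₗ (E n) e) e

lemma linT_apply (e x : E n) : linT e x = x - (1 / 3 * ⟪e, x⟫) • e := by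
  rw [linT, LinearMap.transvection.apply]
  simp only [LinearMap.smul_apply, innerₗ_apply_apply, smul_eq_mul]
  module

lemma linT_det {e : E n} (he : ‖e‖ = 1) : LinearMap.det (linT e) = 2 / 3 := by
  have hee : ⟪e, e⟫ = 1 := by rw [real_inner_self_eq_norm_sq, he, one_pow]
  rw [linT, LinearMap.transvection.det]
  simp only [LinearMap.smul_apply, innerₗ_apply_apply, hee, smul_eq_mul]
  norm_num

lemma linT_integral {e : E n} (he : ‖e‖ = 1) {g : E n → ℝ} (hg : Continuous g) :
    ∫ x, g (linT e x) = 3 / 2 * ∫ x, g x := by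
  have hd : LinearMap.det (linT e) ≠ 0 := by
    rw [linT_det he]
    norm_num
  rw [← integral_map (linT e).continuous_of_finiteDimensional.aemeasurable
    hg.aestronglyMeasurable, Measure.map_linearMap_addHaar_eq_smul_addHaar _ hd,
    integral_smul_measure, linT_det he, ENNReal.toReal_ofReal (abs_nonneg _), smul_eq_mul]
  norm_num [abs_of_pos]

lemma linT_vol {e : E n} (he : ‖e‖ = 1) (s : Set (E n)) :
    volume.real (linT e ⁻¹' s) = 3 / 2 * volume.real s := by
  have hd : LinearMap.det (linT e) ≠ 0 := by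
    rw [linT_det he]
    norm_num
  rw [measureReal_def, measureReal_def, Measure.addHaar_preimage_linearMap _ hd, linT_det he,
    ENNReal.toReal_mul, ENNReal.toReal_ofReal (abs_nonneg _)]
  norm_num [abs_of_pos]

lemma linT_norm {e : E n} (he : ‖e‖ = 1) (L : E n →L[ℝ] ℝ) :
    ‖L.comp (LinearMap.toContinuousLinearMap (linT e))‖ ^ 2 = ‖L‖ ^ 2 - 5 / 9 * L e ^ 2 := by
  obtain ⟨w, rfl⟩ := (InnerProductSpace.toDual ℝ (E n)).surjective L
  have h : (InnerProductSpace.toDual ℝ (E n) w).comp (LinearMap.toContinuousLinearMap (linT e)) =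
      InnerProductSpace.toDual ℝ (E n) (w - (1 / 3 * ⟪w, e⟫) • e) := by
    ext x
    simp only [ContinuousLinearMap.comp_apply, LinearMap.coe_toContinuousLinearMap',
      InnerProductSpace.toDual_apply_apply, linT_apply, inner_sub_left, inner_sub_right,
      inner_smul_left, inner_smul_right, conj_trivial]
    ring
  rw [h, LinearIsometryEquiv.norm_map, LinearIsometryEquiv.norm_map,
    InnerProductSpace.toDual_apply_apply, norm_sub_sq_real, inner_smul_right, norm_smul, he,
    Real.norm_eq_abs, mul_one, sq_abs]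
  ring

lemma lin_int_sq {g : E n → ℝ} (hg : Continuous g) (hc : HasCompactSupport g) :
    Integrable fun x => g x ^ 2 := by
  simp only [sq]
  exact (hg.mul hg).integrable_of_hasCompactSupport hc.mul_right

theorem dir_le (hn : 2 ≤ n) {Ω : Set (E n)} (hb : Bornology.IsBounded Ω)
    {S l R : ℝ} (hC : Cert n S) (hl : 0 < l) (hR : 0 < R) (hS : l * R ^ 2 = S)
    (hV : volume.real Ω ≤ 2 / 3 * (R ^ n * om n)) {f : E n → ℝ} (hf : ContDiff ℝ 1 f)
    (hc : HasCompactSupport f) (hs : tsupport f ⊆ Ω) (h0 : ∀ x, 0 ≤ f x)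
    (hE : ∫ x, ‖fderiv ℝ f x‖ ^ 2 < l * ∫ x, f x ^ 2) {e : E n} (he : ‖e‖ = 1) :
    volume.real Ω * ∫ x, fderiv ℝ f x e ^ 2 < l * (∫ x, f x) ^ 2 := by
  have hd : LinearMap.det (linT e) ≠ 0 := by
    rw [linT_det he]
    norm_num
  set T : E n →L[ℝ] E n := LinearMap.toContinuousLinearMap (linT e) with hT
  have hu : ContDiff ℝ 1 fun x => f (linT e x) := hf.comp T.contDiff
  have huc : HasCompactSupport fun x => f (linT e x) :=
    hc.comp_homeomorph ((linT e).equivOfDetNeZero hd).toContinuousLinearEquiv.toHomeomorph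
  have hA : 0 < R ^ n * om n := mul_pos (pow_pos hR n) om_pos
  have hvol : volume.real ((fun x => f (linT e x)) ⁻¹' Ioi 0) ≤ R ^ n * om n := by
    have h1 : volume.real (f ⁻¹' Ioi 0) ≤ volume.real Ω :=
      measureReal_mono (fun x hx => hs (subset_tsupport f (ne_of_gt hx))) hb.measure_lt_top.ne
    have h2 := linT_vol he (f ⁻¹' Ioi 0)
    change volume.real (linT e ⁻¹' (f ⁻¹' Ioi 0)) ≤ _
    linarith
  have key := nfk hn hC hl hR hS hu huc (fun x => h0 _) hvol
  have hD := hf.continuous_fderiv one_ne_zero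
  have hDc : HasCompactSupport (fderiv ℝ f) := hc.fderiv ℝ
  have i1 : Integrable fun x => ‖fderiv ℝ f x‖ ^ 2 := lin_int_sq hD.norm hDc.norm
  have i2 : Integrable fun x => fderiv ℝ f x e ^ 2 :=
    lin_int_sq (cont_pd hf e) (hc.fderiv_apply ℝ e)
  have e1 : ∫ x, ‖fderiv ℝ (fun x => f (linT e x)) x‖ ^ 2 =
      3 / 2 * ((∫ x, ‖fderiv ℝ f x‖ ^ 2) - 5 / 9 * ∫ x, fderiv ℝ f x e ^ 2) := by
    rw [← integral_const_mul, ← integral_sub i1 (i2.const_mul _),
      ← linT_integral he (g := fun x => ‖fderiv ℝ f x‖ ^ 2 - 5 / 9 * fderiv ℝ f x e ^ 2)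
        ((hD.norm.pow 2).sub (continuous_const.mul ((cont_pd hf e).pow 2)))]
    refine integral_congr_ae (ae_of_all _ fun x => ?_)
    have h1 : HasFDerivAt (fun x => f (linT e x)) ((fderiv ℝ f (linT e x)).comp T) x :=
      (hf.differentiable one_ne_zero (T x)).hasFDerivAt.comp x T.hasFDerivAt
    simp only [h1.fderiv]
    exact linT_norm he _
  rw [e1, linT_integral he hf.continuous,
    linT_integral he (g := fun x => f x ^ 2) (hf.continuous.pow 2)] at key
  have hP : 0 ≤ ∫ x, fderiv ℝ f x e ^ 2 := integral_nonneg fun x => sq_nonneg _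
  set A := R ^ n * om n
  set P := ∫ x, fderiv ℝ f x e ^ 2
  set I := ∫ x, f x
  have h3 : P < l * (3 / 2 * I ^ 2 / A) := by
    have : l * (5 / 9 * (3 / 2 * I) ^ 2 / A) = 3 / 2 * (5 / 9) * (l * (3 / 2 * I ^ 2 / A)) := by
      ring
    rw [mul_sub, this] at key
    linarith
  rw [← mul_div_assoc, lt_div_iff₀ hA] at h3
  nlinarith [mul_le_mul_of_nonneg_right hV hP]

lemma lin_cs {α : Type*} [MeasurableSpace α] {μ : Measure α} {f g : α → ℝ}
    (hf : Integrable (fun x => f x ^ 2) μ) (hg : Integrable (fun x => g x ^ 2) μ)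
    (hfg : Integrable (fun x => f x * g x) μ) :
    (∫ x, f x * g x ∂μ) ^ 2 ≤ (∫ x, f x ^ 2 ∂μ) * ∫ x, g x ^ 2 ∂μ := by
  have key : ∀ t : ℝ, 0 ≤ (∫ x, f x ^ 2 ∂μ) * (t * t) + (2 * ∫ x, f x * g x ∂μ) * t +
      ∫ x, g x ^ 2 ∂μ := by
    intro t
    have h1 : 0 ≤ ∫ x, (f x ^ 2 * (t * t) + 2 * (f x * g x) * t + g x ^ 2) ∂μ :=
      integral_nonneg fun x => by
        simp only [Pi.zero_apply]
        nlinarith [sq_nonneg (f x * t + g x)]
    rwa [integral_add (by fun_prop) hg, integral_add (hf.mul_const _) (by fun_prop),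
      integral_mul_const, integral_mul_const, integral_const_mul] at h1
  have h := discrim_le_zero key
  rw [discrim] at h
  nlinarith

lemma lin_affine {Ω : Set (E n)} (hb : Bornology.IsBounded Ω)
    (hV : 0 < volume.real Ω) {l : ℝ} (hl : 0 < l) {f : E n → ℝ} (hf : ContDiff ℝ 1 f)
    (hc : HasCompactSupport f) (hs : tsupport f ⊆ Ω)
    (h : ∀ e : E n, ‖e‖ = 1 → volume.real Ω * ∫ x, fderiv ℝ f x e ^ 2 < l * (∫ x, f x) ^ 2)
    (a : E n) (c : ℝ) (hac : a ≠ 0 ∨ c ≠ 0) :
    bb Ω l (fun x => c + ⟪a, x⟫) (fun x => c + ⟪a, x⟫) < 0 := by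
  have hD : ∀ x, HasFDerivAt (fun x : E n => c + ⟪a, x⟫) (innerSL ℝ a) x := fun x =>
    (innerSL ℝ a).hasFDerivAt.const_add c
  have hg : ContDiff ℝ 1 fun x : E n => c + ⟪a, x⟫ := contDiff_const.add (innerSL ℝ a).contDiff
  rw [bb_self hb hg]
  simp only [fun x => (hD x).fderiv, innerSL_apply_norm, setIntegral_const, smul_eq_mul]
  by_cases ha : a = 0
  · have hc0 : c ≠ 0 := hac.resolve_left (not_not.2 ha)
    simp only [ha, norm_zero, inner_zero_left, add_zero, setIntegral_const, smul_eq_mul]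
    have : 0 < l * (volume.real Ω * c ^ 2) := by positivity
    nlinarith
  have hna : 0 < ‖a‖ := norm_pos_iff.2 ha
  set e : E n := ‖a‖⁻¹ • a with he
  have he1 : ‖e‖ = 1 := norm_smul_inv_norm ha
  have hae : ⟪a, e⟫ = ‖a‖ := by
    rw [he, inner_smul_right, real_inner_self_eq_norm_sq]
    field_simp
  have hpd := cont_pd hf e
  have hpc : HasCompactSupport fun x => fderiv ℝ f x e := hc.fderiv_apply ℝ e
  have ibp := integral_mul_fderiv_eq_neg_fderiv_mul_of_integrable (μ := (volume : Measure (E n)))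
    (f := f) (g := fun x : E n => c + ⟪a, x⟫) (v := e)
    ((hpd.mul hg.continuous).integrable_of_hasCompactSupport hpc.mul_right)
    ((hf.continuous.mul (cont_pd hg e)).integrable_of_hasCompactSupport hc.mul_right)
    ((hf.continuous.mul hg.continuous).integrable_of_hasCompactSupport hc.mul_right)
    (fun x _ => hf.differentiable one_ne_zero x) (fun x _ => (hD x).differentiableAt)
  simp only [fun x => (hD x).fderiv, innerSL_apply_apply, hae, integral_mul_const] at ibp
  have hz : ∀ x, x ∉ Ω → fderiv ℝ f x e = 0 := fun x hx => by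
    rw [fderiv_of_notMem_tsupport ℝ fun h' => hx (hs h')]
    rfl
  have cs := lin_cs (μ := volume.restrict Ω) (f := fun x => fderiv ℝ f x e)
    (g := fun x : E n => c + ⟪a, x⟫) (intOn hb (hpd.pow 2)) (intOn hb (hg.continuous.pow 2))
    (intOn hb (hpd.mul hg.continuous))
  rw [setIntegral_eq_integral_of_forall_compl_eq_zero (fun x hx => by simp [hz x hx]),
    setIntegral_eq_integral_of_forall_compl_eq_zero (f := fun x => fderiv ℝ f x e ^ 2)
      (fun x hx => by simp [hz x hx]), ← neg_sq, ← ibp] at cs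
  have h1 := h e he1
  have hP : 0 ≤ ∫ x, fderiv ℝ f x e ^ 2 := integral_nonneg fun x => sq_nonneg _
  have hG : 0 ≤ ∫ x in Ω, (c + ⟪a, x⟫) ^ 2 := integral_nonneg fun x => sq_nonneg _
  set P := ∫ x, fderiv ℝ f x e ^ 2
  set G := ∫ x in Ω, (c + ⟪a, x⟫) ^ 2
  set I := ∫ x, f x
  set V := volume.real Ω
  have hI : 0 < I ^ 2 := (mul_pos_iff_of_pos_left hl).1 ((mul_nonneg hV.le hP).trans_lt h1)
  have hG0 : 0 < G := by
    refine lt_of_le_of_ne hG fun h' => ?_
    rw [← h', mul_zero, mul_pow] at cs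
    exact absurd cs (not_le.2 (by positivity))
  have h2 : V * ‖a‖ ^ 2 * I ^ 2 < l * G * I ^ 2 := by
    have h3 := mul_le_mul_of_nonneg_left cs hV.le
    have h4 := mul_lt_mul_of_pos_right h1 hG0
    nlinarith
  have := lt_of_mul_lt_mul_right h2 hI.le
  linarith

theorem lin {Ω : Set (E n)} (hm : MeasurableSet Ω) (hb : Bornology.IsBounded Ω)
    (hV : 0 < volume.real Ω) {l : ℝ} (hl : 0 < l) {f : E n → ℝ} (hf : ContDiff ℝ 1 f)
    (hc : HasCompactSupport f) (hs : tsupport f ⊆ Ω)
    (h : ∀ e : E n, ‖e‖ = 1 → volume.real Ω * ∫ x, fderiv ℝ f x e ^ 2 < l * (∫ x, f x) ^ 2) :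
    Good Ω l (n + 1) := by
  have _ := hm
  refine ⟨Fin.cons (fun _ => 1) fun i x => x i, fun i => ?_, fun c hc0 => ?_⟩
  · refine Fin.cases contDiff_const (fun j => ?_) i
    exact (EuclideanSpace.proj j : E n →L[ℝ] ℝ).contDiff
  · have e1 : (fun x : E n => ∑ i, c i *
        (Fin.cons (fun _ => 1) (fun i x => x i) : Fin (n + 1) → E n → ℝ) i x) =
        fun x => c 0 + ⟪(WithLp.toLp 2 fun i => c i.succ : E n), x⟫ := by
      funext x
      simp [Fin.sum_univ_succ, PiLp.inner_apply, mul_comm]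
    rw [e1]
    refine lin_affine hb hV hl hf hc hs h _ _ ?_
    by_contra hne
    push Not at hne
    refine hc0 (funext fun i => Fin.cases hne.2 (fun j => ?_) i)
    exact congrArg (fun v : E n => v j) hne.1

end Pool.Agent.P.MP_f791b6_an.One
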