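import Pool.Agent.P.MP_f791b6_an.K1Basic

/-! From negative spaces to the Neumann value. -/

open MeasureTheory Set Metric Filter Topology
open scoped ContDiff RealInnerProductSpace ENNReal Convolution

namespace Pool.Agent.P.MP_f791b6_an.One

variable {n m : ℕ}

theorem exists_smooth {u : E n → ℝ} (hu : ContDiff ℝ 1 u) {K : Set (E n)} (hK : IsCompact K)
    {η : ℝ} (hη : 0 < η) : ∃ v : E n → ℝ, ContDiff ℝ ∞ v ∧
      ∀ x ∈ K, |v x - u x| ≤ η ∧ ‖fderiv ℝ v x - fderiv ℝ u x‖ ≤ η := by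
  obtain ⟨R, hR0, hR⟩ := hK.isBounded.subset_ball_lt 0 (0 : E n)
  let χ : ContDiffBump (0 : E n) := ⟨R, R + 1, hR0, by linarith⟩
  set g : E n → ℝ := fun x => χ x * u x with hgd
  have hg : ContDiff ℝ 1 g := χ.contDiff.mul hu
  have hc : HasCompactSupport g := χ.hasCompactSupport.mul_right
  have he : ∀ x ∈ K, g =ᶠ[𝓝 x] u := fun x hx => by
    filter_upwards [isOpen_ball.mem_nhds (hR hx)] with y hy
    simp only [hgd, χ.one_of_mem_closedBall (ball_subset_closedBall hy), one_mul]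
  have hd := hg.continuous_fderiv one_ne_zero
  obtain ⟨δ₁, p1, q1⟩ := Metric.uniformContinuous_iff.1
    (hc.uniformContinuous_of_continuous hg.continuous) η hη
  obtain ⟨δ₂, p2, q2⟩ := Metric.uniformContinuous_iff.1
    ((hc.fderiv ℝ).uniformContinuous_of_continuous hd) η hη
  have p3 := lt_min p1 p2
  let φ : ContDiffBump (0 : E n) := ⟨min δ₁ δ₂ / 2, min δ₁ δ₂, by linarith, by linarith⟩
  have hl : LocallyIntegrable (φ.normed volume) volume := φ.continuous_normed.locallyIntegrable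
  refine ⟨φ.normed volume ⋆[ContinuousLinearMap.lsmul ℝ ℝ, volume] g,
    φ.hasCompactSupport_normed.contDiff_convolution_left (n := ⊤) _ φ.contDiff_normed
      hg.continuous.locallyIntegrable, fun x hx => ⟨?_, ?_⟩⟩
  · rw [← (he x hx).eq_of_nhds, ← Real.dist_eq]
    exact ContDiffBump.dist_normed_convolution_le hg.continuous.aestronglyMeasurable
      fun y hy => (q1 ((mem_ball.1 hy).trans_le (min_le_left _ _))).le
  · rw [← (he x hx).fderiv_eq]
    refine ContinuousLinearMap.opNorm_le_bound _ hη.le fun w => ?_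
    rw [sub_apply, (hc.hasFDerivAt_convolution_right _ hl hg x).fderiv,
      convolution_precompR_apply _ hl (hc.fderiv ℝ) hd, ← dist_eq_norm]
    refine ContDiffBump.dist_normed_convolution_le (g := fun y => fderiv ℝ g y w)
      (hd.clm_apply continuous_const).aestronglyMeasurable fun y hy => ?_
    rw [dist_eq_norm, ← sub_apply]
    refine (ContinuousLinearMap.le_opNorm _ _).trans (mul_le_mul_of_nonneg_right ?_ (norm_nonneg _))
    rw [← dist_eq_norm]
    exact (q2 ((mem_ball.1 hy).trans_le (min_le_right _ _))).le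

namespace NeuX

lemma prod_le {a b a' b' M η : ℝ} (h1 : |a| ≤ M) (h2 : |b| ≤ M) (h3 : |a' - a| ≤ η)
    (h4 : |b' - b| ≤ η) (h5 : η ≤ 1) : |a' * b' - a * b| ≤ η * (2 * M + 1) := by
  have h0 := (abs_nonneg _).trans h3
  have hM := (abs_nonneg _).trans h1
  have e : a' * b' - a * b = (a' - a) * (b' - b) + (a' - a) * b + a * (b' - b) := by ring
  have k1 := mul_le_mul h3 (h4.trans h5) (abs_nonneg _) h0
  have k2 := mul_le_mul h3 h2 (abs_nonneg _) h0
  have k3 := mul_le_mul h1 h4 (abs_nonneg _) hM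
  rw [← abs_mul] at k1 k2 k3
  rw [e]
  linarith [abs_add_three ((a' - a) * (b' - b)) ((a' - a) * b) (a * (b' - b))]

lemma app_le {L : E n →L[ℝ] ℝ} {M : ℝ} (h : ‖L‖ ≤ M) (j : Fin n) :
    |L (EuclideanSpace.single j 1)| ≤ M := by
  have := L.le_opNorm (EuclideanSpace.single j 1)
  simp only [PiLp.norm_single, norm_one, mul_one, Real.norm_eq_abs] at this
  exact this.trans h

lemma bb_close {Ω : Set (E n)} (hm : MeasurableSet Ω) (hb : Bornology.IsBounded Ω) {l : ℝ}
    (hl : 0 ≤ l) {u w u' w' : E n → ℝ} (hu : ContDiff ℝ 1 u) (hw : ContDiff ℝ 1 w)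
    (hu' : ContDiff ℝ 1 u') (hw' : ContDiff ℝ 1 w') {M η : ℝ} (h5 : η ≤ 1)
    (b1 : ∀ x ∈ Ω, |u x| ≤ M ∧ ‖fderiv ℝ u x‖ ≤ M) (b2 : ∀ x ∈ Ω, |w x| ≤ M ∧ ‖fderiv ℝ w x‖ ≤ M)
    (c1 : ∀ x ∈ Ω, |u' x - u x| ≤ η ∧ ‖fderiv ℝ u' x - fderiv ℝ u x‖ ≤ η)
    (c2 : ∀ x ∈ Ω, |w' x - w x| ≤ η ∧ ‖fderiv ℝ w' x - fderiv ℝ w x‖ ≤ η) :
    |bb Ω l u' w' - bb Ω l u w| ≤ (n + l) * (η * (2 * M + 1)) * volume.real Ω := by
  rw [bb, bb, ← integral_sub (intOn hb (cont_dens hu' hw' l)) (intOn hb (cont_dens hu hw l)),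
    ← Real.norm_eq_abs]
  refine norm_setIntegral_le_of_norm_le_const_ae' hb.measure_lt_top
    (ae_of_all _ fun x hx => ?_)
  have k1 := prod_le (b1 x hx).1 (b2 x hx).1 (c1 x hx).1 (c2 x hx).1 h5
  have k2 : |∑ j : Fin n, (fderiv ℝ u' x (EuclideanSpace.single j 1) *
      fderiv ℝ w' x (EuclideanSpace.single j 1) - fderiv ℝ u x (EuclideanSpace.single j 1) *
      fderiv ℝ w x (EuclideanSpace.single j 1))| ≤ n * (η * (2 * M + 1)) := by
    refine (Finset.abs_sum_le_sum_abs _ _).trans ((Finset.sum_le_sum fun j _ =>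
      prod_le (app_le (b1 x hx).2 j) (app_le (b2 x hx).2 j) (app_le (c1 x hx).2 j)
        (app_le (c2 x hx).2 j) h5).trans (le_of_eq ?_))
    simp
  have k3 := mul_le_mul_of_nonneg_left k1 hl
  rw [Finset.sum_sub_distrib, abs_le] at k2
  rw [← abs_of_nonneg hl, ← abs_mul, abs_of_nonneg hl, abs_le] at k3
  rw [Real.norm_eq_abs, abs_le]
  constructor <;> linarith [k2.1, k2.2, k3.1, k3.2]

lemma neg_open {k : ℕ} {B : Fin k → Fin k → ℝ}
    (h : ∀ c : Fin k → ℝ, c ≠ 0 → ∑ i, ∑ j, c i * c j * B i j < 0) :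
    ∃ ε, 0 < ε ∧ ∀ B' : Fin k → Fin k → ℝ, (∀ i j, |B' i j - B i j| ≤ ε) →
      ∀ c : Fin k → ℝ, c ≠ 0 → ∑ i, ∑ j, c i * c j * B' i j < 0 := by
  have h1 : ∀ᶠ B' in 𝓝 B, ∀ c ∈ sphere (0 : Fin k → ℝ) 1,
      ∑ i, ∑ j, c i * c j * B' i j < 0 := by
    refine (isCompact_sphere _ _).eventually_forall_of_forall_eventually fun c hc => ?_
    have hc0 : c ≠ 0 := by
      rintro rfl
      simp at hc
    have : Continuous fun p : (Fin k → Fin k → ℝ) × (Fin k → ℝ) =>
        ∑ i, ∑ j, p.2 i * p.2 j * p.1 i j := by fun_prop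
    exact this.continuousAt.eventually (gt_mem_nhds (h c hc0))
  obtain ⟨ε, h2, h3⟩ := Metric.eventually_nhds_iff.1 h1
  refine ⟨ε / 2, by linarith, fun B' hB c hc => ?_⟩
  have h4 : 0 < ‖c‖ := norm_pos_iff.2 hc
  have h5 := h3 (y := B') (lt_of_le_of_lt ((dist_pi_le_iff (by linarith)).2 fun i =>
    (dist_pi_le_iff (by linarith)).2 fun j => hB i j) (half_lt_self h2)) (‖c‖⁻¹ • c)
    (by simp [norm_smul, h4.ne'])
  have e : ∑ i, ∑ j, c i * c j * B' i j =
      ‖c‖ ^ 2 * ∑ i, ∑ j, (‖c‖⁻¹ • c) i * (‖c‖⁻¹ • c) j * B' i j := by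
    simp only [Finset.mul_sum, Pi.smul_apply, smul_eq_mul]
    refine Finset.sum_congr rfl fun i _ => Finset.sum_congr rfl fun j _ => ?_
    field_simp
  rw [e]
  exact mul_neg_of_pos_of_neg (by positivity) h5

lemma good_smooth {Ω : Set (E n)} (hm : MeasurableSet Ω) (hb : Bornology.IsBounded Ω) {l : ℝ}
    (hl : 0 ≤ l) {k : ℕ} (h : Good Ω l k) : ∃ w : Fin k → E n → ℝ, (∀ i, ContDiff ℝ ∞ (w i)) ∧
    ∀ c : Fin k → ℝ, c ≠ 0 →
      bb Ω l (fun x => ∑ i, c i * w i x) (fun x => ∑ i, c i * w i x) < 0 := by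
  obtain ⟨w, hw, h⟩ := h
  obtain ⟨ε, hε, h1⟩ := neg_open (B := fun i j => bb Ω l (w i) (w j)) fun c hc => by
    rw [← bb_comb hb hw]
    exact h c hc
  have hK := hb.isCompact_closure
  obtain ⟨M, hM⟩ := hK.exists_bound_of_continuousOn (f := fun x => fun i => (w i x, fderiv ℝ (w i) x))
    (continuous_pi fun i => (hw i).continuous.prodMk
      ((hw i).continuous_fderiv one_ne_zero)).continuousOn
  have hM' : ∀ i, ∀ x ∈ Ω, |w i x| ≤ |M| ∧ ‖fderiv ℝ (w i) x‖ ≤ |M| := fun i x hx => by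
    have := ((norm_le_pi_norm (fun i => (w i x, fderiv ℝ (w i) x)) i).trans
      (hM x (subset_closure hx))).trans (le_abs_self M)
    exact ⟨(norm_fst_le (w i x, fderiv ℝ (w i) x)).trans this,
      (norm_snd_le (w i x, fderiv ℝ (w i) x)).trans this⟩
  set C := (n + l) * (2 * |M| + 1) * volume.real Ω with hC
  have hC0 : 0 ≤ C := by positivity
  have hη : 0 < min 1 (ε / (C + 1)) := lt_min one_pos (by positivity)
  choose v hv hv' using fun i => exists_smooth (hw i) hK hη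
  have hv1 : ∀ i, ContDiff ℝ 1 (v i) := fun i => (hv i).of_le (by simp)
  refine ⟨v, hv, fun c hc => ?_⟩
  rw [bb_comb hb hv1]
  refine h1 (fun i j => bb Ω l (v i) (v j)) (fun i j => ?_) c hc
  refine (bb_close hm hb hl (hw i) (hw j) (hv1 i) (hv1 j) (min_le_left _ _) (hM' i) (hM' j)
    (fun x hx => hv' i x (subset_closure hx)) fun x hx => hv' j x (subset_closure hx)).trans ?_
  have h2 : min 1 (ε / (C + 1)) * (C + 1) ≤ ε := (le_div_iff₀ (by positivity)).1 (min_le_right _ _)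
  calc _ = min 1 (ε / (C + 1)) * C := by rw [hC]; ring
    _ ≤ ε := by linarith

lemma split {Ω : Set (E n)} (hb : Bornology.IsBounded Ω) (l : ℝ) {U : E n → ℂ}
    (hU : ContDiff ℝ 1 U) : energy Ω U - l * mass Ω U =
      bb Ω l (fun x => (U x).re) (fun x => (U x).re) +
        bb Ω l (fun x => (U x).im) (fun x => (U x).im) := by
  have h1 : ContDiff ℝ 1 fun x => (U x).re := Complex.reCLM.contDiff.comp hU
  have h2 : ContDiff ℝ 1 fun x => (U x).im := Complex.imCLM.contDiff.comp hU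
  have h3 := hU.continuous
  have h4 := hU.continuous_fderiv one_ne_zero
  rw [energy, mass, bb, bb, ← integral_const_mul, ← integral_sub (intOn hb (by fun_prop))
    (intOn hb (by fun_prop)), ← integral_add (intOn hb (cont_dens h1 h1 l))
    (intOn hb (cont_dens h2 h2 l))]
  refine integral_congr_ae (ae_of_all _ fun x => ?_)
  have d := (hU.differentiable one_ne_zero x).hasFDerivAt
  have e1 : fderiv ℝ (fun x => (U x).re) x = Complex.reCLM.comp (fderiv ℝ U x) :=
    (Complex.reCLM.hasFDerivAt.comp x d).fderiv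
  have e2 : fderiv ℝ (fun x => (U x).im) x = Complex.imCLM.comp (fderiv ℝ U x) :=
    (Complex.imCLM.hasFDerivAt.comp x d).fderiv
  simp only [e1, e2, Complex.sq_norm, Complex.normSq_apply, Finset.sum_add_distrib,
    ContinuousLinearMap.comp_apply, Complex.reCLM_apply, Complex.imCLM_apply]
  ring

end NeuX

theorem neumann_le {Ω : Set (E n)} (hm : MeasurableSet Ω) (hb : Bornology.IsBounded Ω) {l : ℝ}
    (hl : 0 ≤ l) {k : ℕ} (h : Good Ω l k) : neumannEig Ω k ≤ ENNReal.ofReal l := by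
  obtain ⟨w, hw, h⟩ := NeuX.good_smooth hm hb hl h
  let Φ : (Fin k → ℂ) →ₗ[ℂ] (E n → ℂ) :=
    { toFun := fun c x => ∑ i, c i * w i x
      map_add' := fun c d => by funext x; simp [add_mul, Finset.sum_add_distrib]
      map_smul' := fun a c => by funext x; simp [Finset.mul_sum, mul_assoc] }
  have sΦ : ∀ c, ContDiff ℝ ∞ (Φ c) := fun c =>
    show ContDiff ℝ ∞ fun x => ∑ i, c i * (w i x : ℂ) from
      ContDiff.sum fun i _ => contDiff_const.mul (Complex.ofRealCLM.contDiff.comp (hw i))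
  have h0 : ∀ c : Fin k → ℝ,
      bb Ω l (fun x => ∑ i, c i * w i x) (fun x => ∑ i, c i * w i x) ≤ 0 := fun c => by
    rcases eq_or_ne c 0 with rfl | hc
    · simp [bb]
    · exact (h c hc).le
  have key : ∀ c, energy Ω (Φ c) - l * mass Ω (Φ c) =
      bb Ω l (fun x => ∑ i, (c i).re * w i x) (fun x => ∑ i, (c i).re * w i x) +
        bb Ω l (fun x => ∑ i, (c i).im * w i x) (fun x => ∑ i, (c i).im * w i x) := fun c => by
    rw [NeuX.split hb l ((sΦ c).of_le (by simp))]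
    simp [Φ]
  have hinj : ∀ c, mass Ω (Φ c) = 0 → c = 0 := by
    intro c hc
    have h1 := key c
    have h2 : 0 ≤ energy Ω (Φ c) := integral_nonneg fun _ => by positivity
    have h3 := h0 fun i => (c i).re
    have h4 := h0 fun i => (c i).im
    rw [hc] at h1
    have a1 : (fun i => (c i).re) = 0 := by
      by_contra hne
      linarith [h _ hne]
    have a2 : (fun i => (c i).im) = 0 := by
      by_contra hne
      linarith [h _ hne]
    exact funext fun i => Complex.ext (congrFun a1 i) (congrFun a2 i)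
  have hinj' : Function.Injective Φ := by
    rw [injective_iff_map_eq_zero]
    exact fun c hc => hinj c (by simp [hc, mass])
  refine iInf₂_le_of_le (LinearMap.range Φ) (by simp [LinearMap.finrank_range_of_inj hinj'])
    (iInf_le_of_le ?_ ?_)
  · rintro _ ⟨c, rfl⟩
    refine ⟨sΦ c, fun h0 => ?_⟩
    rw [hinj c ?_, map_zero]
    rw [mass, setIntegral_eq_zero_of_forall_eq_zero fun x hx => by simp [h0 x hx]]
  · refine iSup_le fun u => iSup_le fun hu => iSup_le fun _ => ?_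
    obtain ⟨c, rfl⟩ := hu
    refine ENNReal.ofReal_le_ofReal (div_le_of_le_mul₀ (integral_nonneg fun _ => sq_nonneg _) hl ?_)
    linarith [key c, h0 fun i => (c i).re, h0 fun i => (c i).im]

end Pool.Agent.P.MP_f791b6_an.One
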