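import Pool.Agent.P.MP_f791b6_an.K1Model
import Pool.Agent.P.MP_f791b6_an.K1Energy

/-! Choice of the folds and of the centre. -/

open MeasureTheory Set Metric Filter Topology
open scoped ContDiff RealInnerProductSpace ENNReal

namespace Pool.Agent.P.MP_f791b6_an.One

variable {n m : ℕ}

namespace Topo

lemma prof_pos {γ : ℝ → ℝ} (hγ : Prof γ) (s : ℝ) : 0 < γ s := by
  rcases le_total s 1 with h | h
  · rw [(hγ.lo s h).1]; linarith
  · rw [(hγ.hi s h).1]
    have : 0 < √s := Real.sqrt_pos.2 (by linarith)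
    positivity

lemma cont_int {P : Type*} [TopologicalSpace P] [FirstCountableTopology P]
    [LocallyCompactSpace P] {Ω : Set (E n)} {r : ℝ} (hr : Ω ⊆ ball 0 r) {G : P → E n → ℝ}
    (hG : Continuous fun z : P × E n => G z.1 z.2) : Continuous fun p => ∫ x in Ω, G p x := by
  have := continuous_parametric_integral_of_continuous (μ := volume.restrict Ω) (f := G) hG
    (isCompact_closedBall 0 r)
  rwa [Measure.restrict_restrict measurableSet_closedBall,
    inter_eq_right.mpr (hr.trans ball_subset_closedBall)] at this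

lemma inner_toLp (c : Fin n ⊕ Fin m → ℝ) (v : W n m) :
    ⟪(WithLp.toLp 2 c : W n m), v⟫ = ∑ k, v k * c k := by
  simp [PiLp.inner_apply]

lemma sum_tst (γ : ℝ → ℝ) (R : ℝ) (F : E n → W n m) (A v : W n m) (x : E n) :
    ∑ k, v k * tst γ R F A k x = γ (‖F x - A‖ ^ 2 / R ^ 2) * ⟪F x - A, v⟫ := by
  rw [PiLp.inner_apply, Finset.mul_sum]
  refine Finset.sum_congr rfl fun k _ => ?_
  simp only [tst, RCLike.inner_apply, conj_trivial]
  ring

end Topo

open Topo in
theorem topo {Ω : Set (E n)} (hm : MeasurableSet Ω) {r δ : ℝ} (hr : Ω ⊆ ball 0 r)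
    (hV : 0 < volume.real Ω) {T : (Fin m → W n m) → E n → W n m} (hT : Folds n m r δ T)
    {γ : ℝ → ℝ} (hγ : Prof γ) (R l : ℝ) {w : Fin m → E n → ℝ} (hw : ∀ j, ContDiff ℝ 1 (w j)) :
    ∃ a A, Adm a ∧ (∀ i, ⟪A, a i⟫ = 0) ∧ ∀ k, ∫ x in Ω, tst γ R (T a) A k x = 0 ∧
      ∀ j, bb Ω l (tst γ R (T a) A k) (w j) = 0 := by
  have hb : Bornology.IsBounded Ω := isBounded_ball.subset hr
  have hj := fun k => jc_tst hγ R hT.jc k
  have hc : ∀ a A k, ContDiff ℝ 1 (tst γ R (T a) A k) := fun a A k => (hj k).contDiff (a, A)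
  have i0 : ∀ a A (v : W n m),
      ⟪(WithLp.toLp 2 fun k => ∫ x in Ω, tst γ R (T a) A k x : W n m), v⟫ =
        ∫ x in Ω, γ (‖T a x - A‖ ^ 2 / R ^ 2) * ⟪T a x - A, v⟫ := fun a A v => by
    rw [inner_toLp]
    simp only [← integral_const_mul, ← sum_tst]
    rw [integral_finsetSum _ fun k _ => (intOn hb (hc a A k).continuous).const_mul (v k)]
  have z0 : ∀ a A, Adm a → (∀ i, ⟪A, a i⟫ = 0) → ∀ i, ∀ x ∈ ball (0 : E n) r,
      γ (‖T a x - A‖ ^ 2 / R ^ 2) * ⟪T a x - A, a i⟫ = 0 := fun a A ha hA i x hx => by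
    rw [inner_sub_left, hT.orth a ha x hx i, hA i, sub_zero, mul_zero]
  obtain ⟨a, A, ha, hA, h0, h1⟩ := model
    (fun p => (WithLp.toLp 2 fun k => ∫ x in Ω, tst γ R (T p.1) p.2 k x : W n m))
    (fun j p => (WithLp.toLp 2 fun k => bb Ω l (tst γ R (T p.1) p.2 k) (w j) : W n m))
    ((PiLp.continuous_toLp 2 _).comp (continuous_pi fun k => cont_int hr (hj k).cont))
    (fun j => (PiLp.continuous_toLp 2 _).comp (continuous_pi fun k => by
      refine cont_int hr (Continuous.sub (continuous_finsetSum _ fun i _ => Continuous.mul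
        ((hj k).cont_fderiv.clm_apply continuous_const)
        ((cont_pd (hw j) _).comp continuous_snd)) (continuous_const.mul
          ((hj k).cont.mul ((hw j).continuous.comp continuous_snd))))))
    (fun ε a A => by simp only [hT.even])
    (fun j ε a A => by simp only [hT.even])
    (fun a A ha hA i => by
      rw [i0]
      exact setIntegral_eq_zero_of_forall_eq_zero fun x hx => z0 a A ha hA i x (hr hx))
    (fun j a A ha hA i => by
      rw [inner_toLp, ← bb_comb_left hb (hc a A) _ (hw j)]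
      exact bb_zero_of hm isOpen_ball hr (fun x hx => by rw [sum_tst, z0 a A ha hA i x hx]) _)
    (B := max (r + δ) 0) (fun a A ha hA => by
      rw [i0]
      have hneg : ∀ x ∈ Ω, 0 < -(γ (‖T a x - A‖ ^ 2 / R ^ 2) * ⟪T a x - A, A⟫) := fun x hx => by
        have k1 := (hT.bdd a ha x (hr hx)).trans_lt ((le_max_left _ _).trans_lt hA)
        have k2 : 0 < ‖A‖ := (le_max_right _ _).trans_lt hA
        have k3 := real_inner_le_norm (T a x) A
        have k4 : ⟪T a x - A, A⟫ < 0 := by
          rw [inner_sub_left, real_inner_self_eq_norm_sq]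
          nlinarith
        exact neg_pos.2 (mul_neg_of_pos_of_neg (prof_pos hγ _) k4)
      have hcont : Continuous fun x => -(γ (‖T a x - A‖ ^ 2 / R ^ 2) * ⟪T a x - A, A⟫) := by
        simp only [← sum_tst]
        exact (continuous_finsetSum _ fun k _ => continuous_const.mul (hc a A k).continuous).neg
      rw [← neg_pos, ← integral_neg, setIntegral_pos_iff_support_of_nonneg_ae
        ((ae_restrict_iff' hm).2 (ae_of_all _ fun x hx => (hneg x hx).le)) (intOn hb hcont)]
      refine lt_of_lt_of_le ?_ (measure_mono fun x hx => ⟨(hneg x hx).ne', hx⟩)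
      exact pos_iff_ne_zero.2 fun h => by simp [Measure.real, h] at hV)
  exact ⟨a, A, ha, hA, fun k => ⟨congrArg (fun v : W n m => v k) h0,
    fun j => congrArg (fun v : W n m => v k) (h1 j)⟩⟩

end Pool.Agent.P.MP_f791b6_an.One
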