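import Pool.Agent.P.MP_f791b6_an.P2Fold
import Pool.Agent.P.MP_f791b6_an.Defs

/-! The third Neumann value is at most the first Dirichlet value in the plane. -/

open MeasureTheory Set Metric Filter Topology
open scoped Real ContDiff

namespace Pool.Agent.P.MP_f791b6_an.Two

open Complex

/-- The identification of the complex plane with the Euclidean plane. -/
noncomputable def toE : ℂ ≃ₗᵢ[ℝ] E 2 := Complex.orthonormalBasisOneI.repr

lemma toE_one : toE 1 = EuclideanSpace.single 0 1 := by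
  ext i; fin_cases i <;> simp [toE]

lemma toE_I : toE I = EuclideanSpace.single 1 1 := by
  ext i; fin_cases i <;> simp [toE]

lemma int_toE (Ω : Set (E 2)) (g : E 2 → ℝ) : ∫ x in Ω, g x = ∫ z in toE ⁻¹' Ω, g (toE z) :=
  (toE.measurePreserving.setIntegral_preimage_emb toE.toHomeomorph.measurableEmbedding g Ω).symm

lemma bdd_toE {Ω : Set (E 2)} (hb : Bornology.IsBounded Ω) : Bornology.IsBounded (toE ⁻¹' Ω) :=
  toE.isometry.antilipschitz.isBounded_preimage hb

lemma mass_toE {Ω : Set (E 2)} (hb : Bornology.IsBounded Ω) {U : E 2 → ℂ} (hU : ContDiff ℝ ∞ U) :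
    mass Ω U = (∫ z in toE ⁻¹' Ω, (U (toE z)).re ^ 2) + ∫ z in toE ⁻¹' Ω, (U (toE z)).im ^ 2 := by
  have := hU.continuous
  rw [mass, int_toE, ← integral_add (intOn (bdd_toE hb) (by fun_prop))
    (intOn (bdd_toE hb) (by fun_prop))]
  refine integral_congr_ae (ae_of_all _ fun z => ?_)
  simp only [Complex.sq_norm, normSq_apply]
  ring

lemma energy_toE {Ω : Set (E 2)} (hb : Bornology.IsBounded Ω) {U : E 2 → ℂ}
    (hU : ContDiff ℝ ∞ U) :
    energy Ω U = (∫ z in toE ⁻¹' Ω, ‖gr (fun z => (U (toE z)).re) z‖ ^ 2) +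
      ∫ z in toE ⁻¹' Ω, ‖gr (fun z => (U (toE z)).im) z‖ ^ 2 := by
  have sF : ContDiff ℝ ∞ fun z => U (toE z) := hU.comp toE.contDiff
  have g1 := continuous_gr (u := fun z => (U (toE z)).re)
    (reCLM.contDiff.comp (sF.of_le (by simp)))
  have g2 := continuous_gr (u := fun z => (U (toE z)).im)
    (imCLM.contDiff.comp (sF.of_le (by simp)))
  rw [energy, int_toE, ← integral_add (intOn (bdd_toE hb) (by fun_prop))
    (intOn (bdd_toE hb) (by fun_prop))]
  refine integral_congr_ae (ae_of_all _ fun z => ?_)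
  have h1 := fderiv_re sF 0 z
  have h2 := fderiv_im sF 0 z
  have h3 : ∀ w, fderiv ℝ (fun z => U (toE z)) z w = fderiv ℝ U (toE z) (toE w) := by
    intro w
    have : HasFDerivAt (fun z => U (toE z)) _ z :=
      (hU.differentiable (by simp) (toE z)).hasFDerivAt.comp z
        toE.toContinuousLinearEquiv.hasFDerivAt
    rw [this.fderiv]; rfl
  simp only [sub_zero, h3] at h1 h2
  simp only [Fin.sum_univ_two, Complex.sq_norm, normSq_apply, gr_re, gr_im, h1, h2, toE_one, toE_I]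
  ring

lemma good_three {Ω : Set ℂ} (hb : Bornology.IsBounded Ω) (hA : 0 < volume.real Ω) {l : ℝ}
    (hl : 0 ≤ l) {u₁ u₂ : ℂ → ℝ} (s₁ : ContDiff ℝ ∞ u₁) (s₂ : ContDiff ℝ ∞ u₂)
    (m₁ : ∫ z in Ω, u₁ z = 0) (m₂ : ∫ z in Ω, u₂ z = 0)
    (h : ∀ v : ℂ, v ≠ 0 → 0 < ∫ z in Ω, comb u₁ u₂ v z ^ 2 ∧
      ∫ z in Ω, ‖gr (comb u₁ u₂ v) z‖ ^ 2 ≤ l * ∫ z in Ω, comb u₁ u₂ v z ^ 2) (a : ℝ) (v : ℂ) :
    ∫ z in Ω, ‖gr (fun z => comb u₁ u₂ v z - a) z‖ ^ 2 ≤ l * ∫ z in Ω, (comb u₁ u₂ v z - a) ^ 2 ∧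
      (∫ z in Ω, (comb u₁ u₂ v z - a) ^ 2 ≤ 0 → a = 0 ∧ v = 0) := by
  have c₁ := s₁.continuous
  have c₂ := s₂.continuous
  have cu : Continuous (comb u₁ u₂ v) := by unfold comb; fun_prop
  have m : ∫ z in Ω, comb u₁ u₂ v z = 0 := by
    unfold comb
    rw [integral_add (intOn hb (by fun_prop)) (intOn hb (by fun_prop)), integral_const_mul,
      integral_const_mul, m₁, m₂]
    ring
  have e : ∫ z in Ω, (comb u₁ u₂ v z - a) ^ 2 =
      (∫ z in Ω, comb u₁ u₂ v z ^ 2) + volume.real Ω * a ^ 2 := by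
    have : ∀ z, (comb u₁ u₂ v z - a) ^ 2 = comb u₁ u₂ v z ^ 2 + a ^ 2 - 2 * a * comb u₁ u₂ v z :=
      fun z => by ring
    simp only [this]
    rw [integral_sub (intOn hb (by fun_prop)) (intOn hb (by fun_prop)),
      integral_add (intOn hb (by fun_prop)) (intOn hb (by fun_prop)), integral_const_mul, m,
      setIntegral_const, smul_eq_mul]
    ring
  have n0 : 0 ≤ ∫ z in Ω, comb u₁ u₂ v z ^ 2 := integral_nonneg fun _ => sq_nonneg _
  have n1 : 0 ≤ volume.real Ω * a ^ 2 := by positivity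
  rw [gr_sub_const, e]
  refine ⟨?_, fun h0 => ⟨?_, ?_⟩⟩
  · by_cases hv : v = 0
    · have : comb u₁ u₂ v = fun _ => 0 := by funext z; simp [comb, hv]
      have h1 : ∫ z in Ω, ‖gr (comb u₁ u₂ v) z‖ ^ 2 = 0 := by simp [this, gr]
      rw [h1]; positivity
    · nlinarith [(h v hv).2]
  · by_contra ha
    nlinarith [mul_pos hA (sq_pos_of_ne_zero ha)]
  · by_contra hv
    linarith [(h v hv).1]

lemma neumann_le {Ω : Set (E 2)} (hb : Bornology.IsBounded Ω) (hA : 0 < volume.real (toE ⁻¹' Ω))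
    {l : ℝ} (hl : 0 ≤ l) (h : Good (toE ⁻¹' Ω) l) : neumannEig Ω 3 ≤ ENNReal.ofReal l := by
  obtain ⟨u₁, u₂, s₁, s₂, m₁, m₂, h⟩ := h
  have key := good_three (bdd_toE hb) hA hl s₁ s₂ m₁ m₂ h
  let Φ : (Fin 3 → ℂ) →ₗ[ℂ] (E 2 → ℂ) :=
    { toFun := fun c x => c 1 * u₁ (toE.symm x) + c 2 * u₂ (toE.symm x) - c 0
      map_add' := fun c d => by funext x; simp; ring
      map_smul' := fun a c => by funext x; simp; ring }
  have sΦ : ∀ c, ContDiff ℝ ∞ (Φ c) := fun c =>
    ((contDiff_const.mul (ofRealCLM.contDiff.comp (s₁.comp toE.symm.contDiff))).add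
      (contDiff_const.mul (ofRealCLM.contDiff.comp (s₂.comp toE.symm.contDiff)))).sub contDiff_const
  have e1 : ∀ c z, (Φ c (toE z)).re = comb u₁ u₂ ⟨(c 1).re, (c 2).re⟩ z - (c 0).re :=
    fun c z => by simp [Φ, comb]
  have e2 : ∀ c z, (Φ c (toE z)).im = comb u₁ u₂ ⟨(c 1).im, (c 2).im⟩ z - (c 0).im :=
    fun c z => by simp [Φ, comb]
  have nn : ∀ f : ℂ → ℝ, 0 ≤ ∫ z in toE ⁻¹' Ω, f z ^ 2 := fun f =>
    integral_nonneg fun _ => sq_nonneg _
  have hinj : ∀ c, mass Ω (Φ c) ≤ 0 → c = 0 := by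
    intro c hc
    rw [mass_toE hb (sΦ c)] at hc
    simp only [e1, e2] at hc
    obtain ⟨a1, a2⟩ := (key (c 0).re ⟨(c 1).re, (c 2).re⟩).2 (by
      linarith [nn fun z => comb u₁ u₂ ⟨(c 1).im, (c 2).im⟩ z - (c 0).im])
    obtain ⟨b1, b2⟩ := (key (c 0).im ⟨(c 1).im, (c 2).im⟩).2 (by
      linarith [nn fun z => comb u₁ u₂ ⟨(c 1).re, (c 2).re⟩ z - (c 0).re])
    obtain ⟨a3, a4⟩ := Complex.ext_iff.mp a2
    obtain ⟨b3, b4⟩ := Complex.ext_iff.mp b2
    funext i
    fin_cases i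
    · exact Complex.ext a1 b1
    · exact Complex.ext a3 b3
    · exact Complex.ext a4 b4
  have hinj' : Function.Injective Φ := by
    rw [injective_iff_map_eq_zero]
    exact fun c hc => hinj c (by simp [hc, mass])
  refine iInf₂_le_of_le (LinearMap.range Φ) (by simp [LinearMap.finrank_range_of_inj hinj'])
    (iInf_le_of_le ?_ ?_)
  · rintro _ ⟨c, rfl⟩
    refine ⟨sΦ c, fun h0 => ?_⟩
    rw [hinj c ?_, map_zero]
    rw [mass, setIntegral_eq_zero_of_forall_eq_zero fun x hx => by simp [h0 x hx]]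
  · refine iSup_le fun u => iSup_le fun hu => iSup_le fun _ => ?_
    obtain ⟨c, rfl⟩ := hu
    refine ENNReal.ofReal_le_ofReal (div_le_of_le_mul₀ (integral_nonneg fun _ => sq_nonneg _) hl ?_)
    rw [mass_toE hb (sΦ c), energy_toE hb (sΦ c)]
    simp only [e1, e2]
    linarith [(key (c 0).re ⟨(c 1).re, (c 2).re⟩).1, (key (c 0).im ⟨(c 1).im, (c 2).im⟩).1]

theorem main {Ω : Set (E 2)} (ho : IsOpen Ω) (hb : Bornology.IsBounded Ω) :
    neumannEig Ω 3 ≤ dirichletEig Ω 1 := by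
  refine le_iInf fun L => le_iInf fun hk => le_iInf fun hL => ?_
  refine le_of_forall_gt_imp_ge_of_dense fun t ht => ?_
  rcases eq_or_ne t ⊤ with rfl | htop
  · exact le_top
  obtain ⟨u, hu, h0⟩ := Submodule.exists_mem_ne_zero_of_ne_bot (p := L) (by
    rintro rfl; simp at hk)
  obtain ⟨su, cu, tu⟩ := hL u hu
  have htl : t = ENNReal.ofReal t.toReal := (ENNReal.ofReal_toReal htop).symm
  have hm0 : 0 < mass Ω u := by
    have hc := su.continuous
    rw [mass, setIntegral_eq_integral_of_forall_compl_eq_zero fun x hx => by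
      simp [image_eq_zero_of_notMem_tsupport fun h => hx (tu h)]]
    obtain ⟨x, hx⟩ := Function.ne_iff.mp h0
    have h1 : Continuous fun x => ‖u x‖ ^ 2 := by fun_prop
    have h2 : HasCompactSupport fun x => ‖u x‖ ^ 2 :=
      cu.comp_left (g := fun x : ℂ => ‖x‖ ^ 2) (by simp)
    exact integral_pos_of_integrable_nonneg_nonzero (x := x) h1
      (h1.integrable_of_hasCompactSupport h2) (fun x => by positivity) (by simpa using hx)
  set l := energy Ω u / mass Ω u with hl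
  have hl0 : 0 ≤ l := div_nonneg (integral_nonneg fun _ => by positivity) hm0.le
  have hlt : l < t.toReal := by
    rw [← ENNReal.ofReal_lt_ofReal_iff_of_nonneg hl0, ← htl]
    refine lt_of_le_of_lt ?_ ht
    unfold rayleighSup
    exact le_iSup_of_le u (le_iSup_of_le hu (le_iSup_of_le (show u ≠ 0 from h0) le_rfl))
  have hE : energy Ω u = l * mass Ω u := (div_mul_cancel₀ _ hm0.ne').symm
  rw [mass_toE hb su] at hm0
  rw [mass_toE hb su, energy_toE hb su] at hE
  set W := toE ⁻¹' Ω with hW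
  have hm : MeasurableSet W := (ho.preimage toE.continuous).measurableSet
  have hbW : Bornology.IsBounded W := bdd_toE hb
  have hA : 0 < volume.real W := by
    refine measureReal_nonneg.lt_of_ne' fun h => ?_
    rw [measureReal_eq_zero_iff hbW.measure_lt_top.ne] at h
    simp [Measure.restrict_eq_zero.mpr h] at hm0
  rw [htl]
  refine neumann_le hb hA ENNReal.toReal_nonneg ?_
  by_cases hΛ : l * volume.real W < 8 * π
  swap
  · exact fold_good hbW hA (by nlinarith)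
  have sF : ContDiff ℝ ∞ fun z => u (toE z) := su.comp toE.contDiff
  have cF : HasCompactSupport fun z => u (toE z) := cu.comp_homeomorph toE.toHomeomorph
  have tF : tsupport (fun z => u (toE z)) ⊆ W :=
    (tsupport_comp_subset_preimage u toE.continuous).trans (preimage_mono tu)
  have fin : ∀ P : ℂ →L[ℝ] ℝ, 0 < ∫ z in W, P (u (toE z)) ^ 2 →
      ∫ z in W, ‖gr (fun z => P (u (toE z))) z‖ ^ 2 ≤ l * ∫ z in W, P (u (toE z)) ^ 2 →
      Good W t.toReal := fun P h1 h2 =>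
    hodge hm hbW hA (P.contDiff.comp sF) (cF.comp_left (map_zero P))
      ((tsupport_comp_subset (map_zero P) _).trans tF) h1 hl0 h2 hΛ hlt
  have f1 := fin reCLM
  have f2 := fin imCLM
  simp only [reCLM_apply, imCLM_apply] at f1 f2
  have n1 : 0 ≤ ∫ z in W, (u (toE z)).re ^ 2 := integral_nonneg fun _ => sq_nonneg _
  have n2 : 0 ≤ ∫ z in W, (u (toE z)).im ^ 2 := integral_nonneg fun _ => sq_nonneg _
  have n3 : 0 ≤ ∫ z in W, ‖gr (fun z => (u (toE z)).re) z‖ ^ 2 :=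
    integral_nonneg fun _ => sq_nonneg _
  have n4 : 0 ≤ ∫ z in W, ‖gr (fun z => (u (toE z)).im) z‖ ^ 2 :=
    integral_nonneg fun _ => sq_nonneg _
  rcases n1.eq_or_lt with a1 | a1
  · exact f2 (by linarith) (by rw [← a1] at hE; linarith)
  rcases n2.eq_or_lt with a2 | a2
  · exact f1 a1 (by rw [← a2] at hE; linarith)
  by_cases h : ∫ z in W, ‖gr (fun z => (u (toE z)).re) z‖ ^ 2 ≤ l * ∫ z in W, (u (toE z)).re ^ 2
  · exact f1 a1 h
  · exact f2 a2 (by linarith)

end Pool.Agent.P.MP_f791b6_an.Two
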