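import Pool.Agent.P.MP_f791b6_an.K1Cert
import Pool.Agent.P.MP_f791b6_an.K1Lin
import Pool.Agent.P.MP_f791b6_an.K1Geo
import Pool.Agent.P.MP_f791b6_an.K1Topo
import Pool.Agent.P.MP_f791b6_an.K1Neu
import Pool.Agent.P.MP_f791b6_an.K1Dir
import Pool.Agent.P.MP_f791b6_an.P2Main

/-! The Neumann value of index `n + 1` is at most the first Dirichlet value. -/

open MeasureTheory Set Metric Filter Topology
open scoped ContDiff RealInnerProductSpace ENNReal

namespace Pool.Agent.P.MP_f791b6_an.One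

variable {n m : ℕ}

theorem good_of (hn : 3 ≤ n) {Ω : Set (E n)} (ho : IsOpen Ω) (hb : Bornology.IsBounded Ω) {l : ℝ}
    (h : dirichletEig Ω 1 < ENNReal.ofReal l) : Good Ω l (n + 1) := by
  have hl : 0 < l := ENNReal.ofReal_pos.1 (zero_le.trans_lt h)
  have hm := ho.measurableSet
  obtain ⟨f, hf, hc, hs, h0, hE⟩ := exists_test h
  have hV : 0 < volume.real Ω := by
    refine measureReal_nonneg.lt_of_ne' fun hz => ?_
    rw [measureReal_eq_zero_iff hb.measure_lt_top.ne, ho.measure_eq_zero_iff volume] at hz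
    have : f = fun _ => 0 := funext fun x =>
      image_eq_zero_of_notMem_tsupport fun hx => by simpa [hz] using hs hx
    simp [this] at hE
  obtain ⟨ρ, S, hray, hρ, hC, hS⟩ := cert hn
  have hn3 : (3 : ℝ) ≤ n := by exact_mod_cast hn
  have ρ0 : 0 < ρ := by linarith
  have S0 : 0 < S := hC.1
  have hom := om_pos (n := n)
  have e1 : l * √(ρ / l) ^ 2 = ρ := by rw [Real.sq_sqrt (by positivity)]; field_simp
  have e2 : l * √(S / l) ^ 2 = S := by rw [Real.sq_sqrt (by positivity)]; field_simp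
  have p1 : 0 < √(ρ / l) := by positivity
  have p2 : 0 < √(S / l) := by positivity
  rcases le_total (2 ^ (n - 1) * (√(ρ / l) ^ n * om n)) (volume.real Ω) with hbig | hsmall
  · obtain ⟨r, hr0, hr⟩ := hb.subset_ball_lt 0 0
    obtain ⟨γ, hγ⟩ := exists_prof
    obtain ⟨δ, hδ, hneg⟩ := energy_neg (m := n - 1) (by omega) hm hr hγ p1 e1 hρ hray hbig
    obtain ⟨T, hT⟩ := exists_folds n (n - 1) hr0 hδ
    rw [show n + 1 = n - 1 + 2 by omega]
    refine greedy hb hV hl fun w hw => ?_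
    obtain ⟨a, A, ha, hA, hz⟩ := topo hm hr hV hT hγ √(ρ / l) l hw
    obtain ⟨k, -, hk⟩ := Finset.exists_lt_of_sum_lt (f := fun k =>
      bb Ω l (tst γ √(ρ / l) (T a) A k) (tst γ √(ρ / l) (T a) A k)) (g := fun _ => (0 : ℝ))
      (s := Finset.univ) (by simpa using hneg T hT a A ha hA)
    exact ⟨_, (jc_tst hγ _ hT.jc k).contDiff (a, A), (hz k).1, (hz k).2, hk⟩
  · refine lin hm hb hV hl hf hc hs fun e he =>
      dir_le (by omega) hb hC hl p2 e2 (hsmall.trans ?_) hf hc hs h0 hE he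
    have key : 3 * 2 ^ (n - 1) * √(ρ / l) ^ n ≤ 2 * √(S / l) ^ n := by
      refine le_of_pow_le_pow_left₀ two_ne_zero (by positivity) ?_
      have a1 : (√(ρ / l) ^ n) ^ 2 = ρ ^ n / l ^ n := by
        rw [← pow_mul, mul_comm, pow_mul, Real.sq_sqrt (by positivity), div_pow]
      have a2 : (√(S / l) ^ n) ^ 2 = S ^ n / l ^ n := by
        rw [← pow_mul, mul_comm, pow_mul, Real.sq_sqrt (by positivity), div_pow]
      have a3 : ((2 : ℝ) ^ (n - 1)) ^ 2 = 4 ^ (n - 1) := by
        rw [← pow_mul, mul_comm, pow_mul]; norm_num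
      rw [mul_pow, mul_pow, mul_pow, a1, a2, a3, ← mul_div_assoc, ← mul_div_assoc]
      exact div_le_div_of_nonneg_right (by linarith) (by positivity)
    nlinarith [mul_le_mul_of_nonneg_right key hom.le]

theorem main (hn : 2 ≤ n) {Ω : Set (E n)} (ho : IsOpen Ω) (hb : Bornology.IsBounded Ω) :
    neumannEig Ω (n + 1) ≤ dirichletEig Ω 1 := by
  rcases hn.eq_or_lt with rfl | hn
  · exact Two.main ho hb
  refine le_of_forall_gt_imp_ge_of_dense fun t ht => ?_
  rcases eq_or_ne t ⊤ with rfl | htop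
  · exact le_top
  rw [← ENNReal.ofReal_toReal htop] at ht ⊢
  exact neumann_le ho.measurableSet hb ENNReal.toReal_nonneg (good_of hn ho hb ht)

end Pool.Agent.P.MP_f791b6_an.One
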