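import Pool.Agent.P.MP_f791b6_an.K1Equi

/-! The common zero of the vector fields on the space of folds. -/

open MeasureTheory Set Metric Filter Topology
open scoped ContDiff RealInnerProductSpace ENNReal

namespace Pool.Agent.P.MP_f791b6_an.One

variable {n m : ℕ}

namespace ModelX

/-- The parameter space. -/
abbrev X (n m : ℕ) := (Fin m → W n m) × W n m × (Fin m → Fin m → ℝ) × (Fin m → ℝ)

/-- The system of equations attached to vector fields. -/
noncomputable def Psi (U₀ : (Fin m → W n m) × W n m → W n m)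
    (U : Fin m → (Fin m → W n m) × W n m → W n m) (y : X n m) : X n m :=
  (fun j => U j (y.1, y.2.1) - ∑ i, y.2.2.1 j i • y.1 i,
    U₀ (y.1, y.2.1) - ∑ i, y.2.2.2 i • y.1 i,
    fun i k => if i < k then ⟪y.1 i, ee n k⟫ else ⟪y.1 i, y.1 k⟫ - if i = k then 1 else 0,
    fun i => ⟪y.2.1, y.1 i⟫)

/-- Diagonal maps. -/
noncomputable def dg (s : Fin m → ℝ) (s₂ : Fin m → Fin m → ℝ) (s₃ : Fin m → ℝ) :
    X n m →L[ℝ] X n m :=
  LinearMap.toContinuousLinearMap
    { toFun := fun y => (fun i => s i • y.1 i, y.2.1, fun i k => s₂ i k * y.2.2.1 i k,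
        fun i => s₃ i * y.2.2.2 i)
      map_add' := fun x y => by
        refine Prod.ext (funext fun i => ?_) (Prod.ext rfl (Prod.ext (funext fun i =>
          funext fun k => ?_) (funext fun i => ?_)))
        · simp [smul_add]
        · simp [mul_add]
        · simp [mul_add]
      map_smul' := fun c x => by
        refine Prod.ext (funext fun i => ?_) (Prod.ext rfl (Prod.ext (funext fun i =>
          funext fun k => ?_) (funext fun i => ?_)))
        · simp [smul_comm c]
        · simp [mul_left_comm]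
        · simp [mul_left_comm] }

theorem dg_apply (s : Fin m → ℝ) (s₂ : Fin m → Fin m → ℝ) (s₃ : Fin m → ℝ) (y : X n m) :
    dg s s₂ s₃ y = (fun i => s i • y.1 i, y.2.1, fun i k => s₂ i k * y.2.2.1 i k,
      fun i => s₃ i * y.2.2.2 i) := rfl

/-- The signs. -/
def sg (ε : Fin m → ℤˣ) (i : Fin m) : ℝ := ((ε i : ℤ) : ℝ)

theorem sg_one (i : Fin m) : sg 1 i = 1 := by simp [sg]

theorem sg_mul (ε η : Fin m → ℤˣ) (i : Fin m) : sg (ε * η) i = sg ε i * sg η i := by simp [sg]

theorem sg_sq (ε : Fin m → ℤˣ) (i : Fin m) : sg ε i * sg ε i = 1 := by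
  rcases Int.units_eq_one_or (ε i) with h | h <;> simp [sg, h]

/-- The action on the source. -/
noncomputable def rho (n : ℕ) (ε : Fin m → ℤˣ) : X n m →L[ℝ] X n m :=
  dg (sg ε) (fun _ i => sg ε i) (sg ε)

/-- The action on the target. -/
noncomputable def rho' (n : ℕ) (ε : Fin m → ℤˣ) : X n m →L[ℝ] X n m :=
  dg (fun _ => 1) (fun i k => if i < k then sg ε i else sg ε i * sg ε k) (sg ε)

theorem act : Act (rho n (m := m)) := by
  refine ⟨fun y => ?_, fun g h y => ?_⟩
  · simp [rho, dg_apply, sg_one]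
  · simp [rho, dg_apply, sg_mul, mul_smul, mul_assoc]

theorem act' : Act (rho' n (m := m)) := by
  refine ⟨fun y => ?_, fun g h y => ?_⟩
  · simp [rho', dg_apply, sg_one]
  · simp only [rho', dg_apply, sg_mul, one_smul]
    refine Prod.ext rfl (Prod.ext rfl (Prod.ext (funext fun i =>
      funext fun k => ?_) (funext fun i => ?_)))
    · dsimp only
      split_ifs <;> ring
    · dsimp only
      ring

variable {U₀ : (Fin m → W n m) × W n m → W n m} {U : Fin m → (Fin m → W n m) × W n m → W n m}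

theorem equi
    (e₀ : ∀ (ε : Fin m → ℤˣ) a A, U₀ (fun i => ((ε i : ℤ) : ℝ) • a i, A) = U₀ (a, A))
    (e : ∀ j (ε : Fin m → ℤˣ) a A, U j (fun i => ((ε i : ℤ) : ℝ) • a i, A) = U j (a, A))
    (ε : Fin m → ℤˣ) (y : X n m) : Psi U₀ U (rho n ε y) = rho' n ε (Psi U₀ U y) := by
  have k1 : ∀ (i : Fin m) (c : ℝ), (sg ε i * c) • sg ε i • y.1 i = c • y.1 i := fun i c => by
    rw [smul_smul, mul_right_comm, sg_sq, one_mul]
  simp only [rho, rho', dg_apply, Psi, one_smul, k1]
  refine Prod.ext (funext fun j => ?_) (Prod.ext ?_ (Prod.ext (funext fun i =>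
    funext fun k => ?_) (funext fun i => ?_)))
  · exact congrArg (· - _) (e j ε _ _)
  · exact congrArg (· - _) (e₀ ε _ _)
  · dsimp only
    rw [real_inner_smul_left, real_inner_smul_left, real_inner_smul_right]
    by_cases h : i < k
    · simp only [h, if_true]
    · simp only [h, if_false]
      by_cases h' : i = k
      · subst h'
        simp only [if_true]
        linear_combination sg_sq ε i
      · simp only [h', if_false]
        ring
  · dsimp only
    rw [real_inner_smul_right]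

theorem cont (c₀ : Continuous U₀) (c : ∀ j, Continuous (U j)) : Continuous (Psi U₀ U) := by
  unfold Psi
  refine Continuous.prodMk (continuous_pi fun j => ?_) (Continuous.prodMk ?_ (Continuous.prodMk
    (continuous_pi fun i => continuous_pi fun k => ?_) (continuous_pi fun i => ?_)))
  · have := c j
    fun_prop
  · fun_prop
  · split_ifs <;> fun_prop
  · fun_prop

theorem smooth : ContDiff ℝ 1 (Psi (n := n) (m := m) (fun p => -p.2) fun j _ => ee n j) := by
  have ha : ∀ i, ContDiff ℝ 1 fun y : X n m => y.1 i := fun i => by fun_prop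
  have hA : ContDiff ℝ 1 fun y : X n m => y.2.1 := by fun_prop
  unfold Psi
  refine ContDiff.prodMk (contDiff_pi.2 fun j => ?_) (ContDiff.prodMk ?_ (ContDiff.prodMk
    (contDiff_pi.2 fun i => contDiff_pi.2 fun k => ?_) (contDiff_pi.2 fun i => ?_)))
  · fun_prop
  · fun_prop
  · by_cases h : i < k
    · simp only [h, if_true]
      exact (ha i).inner ℝ contDiff_const
    · simp only [h, if_false]
      exact ((ha i).inner ℝ (ha k)).sub contDiff_const
  · exact hA.inner ℝ (ha i)

theorem inner_comb {a : Fin m → W n m} (h : ∀ i k, ⟪a i, a k⟫ = if i = k then (1 : ℝ) else 0)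
    (b : Fin m → ℝ) (k : Fin m) : ⟪∑ i, b i • a i, a k⟫ = b k := by
  simp [sum_inner, real_inner_smul_left, h]

theorem ee_inner (i k : Fin m) : ⟪ee n i, ee n k⟫ = if i = k then (1 : ℝ) else 0 := by
  simp [ee, EuclideanSpace.inner_single_left]

theorem zero {y : X n m} (h : Psi U₀ U y = 0) : Adm y.1 ∧ (∀ i, ⟪y.2.1, y.1 i⟫ = 0) ∧
    U₀ (y.1, y.2.1) = ∑ i, y.2.2.2 i • y.1 i ∧ ∀ j, U j (y.1, y.2.1) = ∑ i, y.2.2.1 j i • y.1 i := by
  have h3 : ∀ i k, (if i < k then ⟪y.1 i, ee n k⟫ else ⟪y.1 i, y.1 k⟫ - if i = k then 1 else 0) =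
      (0 : ℝ) := fun i k => congrArg (fun z : X n m => z.2.2.1 i k) h
  refine ⟨⟨fun i k hik => by simpa [hik] using h3 i k, fun i k => ?_⟩,
    fun i => congrArg (fun z : X n m => z.2.2.2 i) h,
    sub_eq_zero.1 (congrArg (fun z : X n m => z.2.1) h),
    fun j => sub_eq_zero.1 (congrArg (fun z : X n m => z.1 j) h)⟩
  by_cases hik : i < k
  · have := h3 k i
    rw [if_neg hik.not_gt, if_neg hik.ne', sub_zero] at this
    rw [if_neg hik.ne, real_inner_comm, this]
  · have := h3 i k
    rw [if_neg hik] at this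
    exact sub_eq_zero.1 this

theorem comb (V₀ : (Fin m → W n m) × W n m → W n m)
    (V : Fin m → (Fin m → W n m) × W n m → W n m) (t : ℝ) (y : X n m) :
    (1 - t) • Psi U₀ U y + t • Psi V₀ V y = Psi (fun p => (1 - t) • U₀ p + t • V₀ p)
      (fun j p => (1 - t) • U j p + t • V j p) y := by
  refine Prod.ext (funext fun j => ?_) (Prod.ext ?_ (Prod.ext (funext fun i =>
    funext fun k => ?_) (funext fun i => ?_)))
  · simp only [Psi, Prod.fst_add, Prod.smul_fst, Pi.add_apply, Pi.smul_apply]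
    module
  · simp only [Psi, Prod.fst_add, Prod.snd_add, Prod.smul_fst, Prod.smul_snd]
    module
  · simp only [Psi, Prod.fst_add, Prod.snd_add, Prod.smul_fst, Prod.smul_snd, Pi.add_apply,
      Pi.smul_apply, smul_eq_mul]
    ring
  · simp only [Psi, Prod.snd_add, Prod.smul_snd, Pi.add_apply, Pi.smul_apply, smul_eq_mul]
    ring

theorem norm_one {a : Fin m → W n m} (h : ∀ i k, ⟪a i, a k⟫ = if i = k then (1 : ℝ) else 0)
    (i : Fin m) : ‖a i‖ = 1 := by
  have := h i i
  rw [if_pos rfl, real_inner_self_eq_norm_sq] at this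
  exact (pow_eq_one_iff_of_nonneg (norm_nonneg _) two_ne_zero).1 this

/-- The base zero. -/
noncomputable def base (n m : ℕ) : X n m := (ee n, 0, fun j i => if j = i then 1 else 0, 0)

theorem signs {a : Fin m → W n m} (h : Adm a) {b : Fin m → Fin m → ℝ}
    (hb : ∀ j, ee n j = ∑ i, b j i • a i) (j : Fin m) :
    ∃ ε : ℤˣ, a j = ((ε : ℤ) : ℝ) • ee n j := by
  induction j using WellFoundedGT.induction with
  | ind j ih =>
    have hz : ∀ i, i ≠ j → b j i = 0 := fun i hi => by
      rw [← inner_comb h.2 (b j) i, ← hb j]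
      rcases lt_or_gt_of_ne hi with h' | h'
      · rw [real_inner_comm]
        exact h.1 i j h'
      · obtain ⟨ε, hε⟩ := ih i h'
        rw [hε, real_inner_smul_right, ee_inner, if_neg hi.symm, mul_zero]
    have e1 : ee n j = b j j • a j := by
      rw [hb j]
      exact Finset.sum_eq_single j (fun i _ hi => by rw [hz i hi, zero_smul]) (by simp)
    have e2 : |b j j| = 1 := by
      have := congrArg norm e1
      rw [norm_smul, norm_one h.2, norm_one ee_inner, mul_one] at this
      exact this.symm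
    rcases (abs_eq zero_le_one).1 e2 with e3 | e3
    · exact ⟨1, by simp [e1, e3]⟩
    · exact ⟨-1, by simp [e1, e3]⟩

theorem uniq {y : X n m} (h : Psi (fun p => -p.2) (fun j _ => ee n j) y = 0) :
    ∃ ε, y = rho n ε (base n m) := by
  obtain ⟨ha, hA, h0, hb⟩ := zero h
  choose ε hε using signs ha hb
  have b0 : ∀ i, y.2.2.2 i = 0 := fun i => by
    rw [← inner_comb ha.2 y.2.2.2 i, ← h0, inner_neg_left, hA, neg_zero]
  refine ⟨ε, Prod.ext (funext hε) (Prod.ext ?_ (Prod.ext (funext fun j =>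
    funext fun i => ?_) (funext fun i => ?_)))⟩
  · simp only [b0, zero_smul, Finset.sum_const_zero] at h0
    exact neg_eq_zero.1 h0
  · rw [← inner_comb ha.2 (y.2.2.1 j) i, ← hb j, hε, real_inner_smul_right, ee_inner]
    rfl
  · rw [b0]
    exact (mul_zero _).symm

theorem expand (v : X n m) (t : ℝ) :
    Psi (fun p => -p.2) (fun j _ => ee n j) (base n m + t • v) =
      t • ((fun j => -v.1 j - ∑ i, v.2.2.1 j i • ee n i, -v.2.1 - ∑ i, v.2.2.2 i • ee n i,
        fun i k => if i < k then ⟪v.1 i, ee n k⟫ else ⟪v.1 i, ee n k⟫ + ⟪ee n i, v.1 k⟫,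
        fun i => ⟪v.2.1, ee n i⟫) : X n m) +
      t ^ 2 • ((fun j => -∑ i, v.2.2.1 j i • v.1 i, -∑ i, v.2.2.2 i • v.1 i,
        fun i k => if i < k then 0 else ⟪v.1 i, v.1 k⟫, fun i => ⟪v.2.1, v.1 i⟫) : X n m) := by
  have k2 : ∀ (b : Fin m → ℝ) (a a' : Fin m → W n m), ∑ i, (t * b i) • (a i + t • a' i) =
      t • ∑ i, b i • a i + t ^ 2 • ∑ i, b i • a' i := fun b a a' => by
    rw [Finset.smul_sum, Finset.smul_sum, ← Finset.sum_add_distrib]
    exact Finset.sum_congr rfl fun i _ => by module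
  refine Prod.ext (funext fun j => ?_) (Prod.ext ?_ (Prod.ext (funext fun i =>
    funext fun k => ?_) (funext fun i => ?_)))
  · simp only [Psi, base, Prod.fst_add, Prod.snd_add, Prod.smul_fst, Prod.smul_snd, Pi.add_apply,
      Pi.smul_apply, smul_eq_mul, add_smul, Finset.sum_add_distrib, ite_smul, one_smul,
      zero_smul, Finset.sum_ite_eq, Finset.mem_univ, if_true, k2]
    module
  · simp only [Psi, base, Prod.fst_add, Prod.snd_add, Prod.smul_fst, Prod.smul_snd, Pi.add_apply,
      Pi.smul_apply, smul_eq_mul, Pi.zero_apply, zero_add, k2]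
    module
  · simp only [Psi, base, Prod.fst_add, Prod.snd_add, Prod.smul_fst, Prod.smul_snd, Pi.add_apply,
      Pi.smul_apply, smul_eq_mul, inner_add_left, inner_add_right, real_inner_smul_left,
      real_inner_smul_right, ee_inner]
    by_cases h : i < k
    · simp only [h, if_true, if_neg h.ne]
      ring
    · simp only [h, if_false]
      ring
  · simp only [Psi, base, Prod.fst_add, Prod.snd_add, Prod.smul_fst, Prod.smul_snd, Pi.add_apply,
      Pi.smul_apply, smul_eq_mul, inner_add_right, real_inner_smul_left,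
      real_inner_smul_right, zero_add]
    ring

theorem base_zero : Psi (fun p => -p.2) (fun j _ => ee n j) (base n m) = 0 := by
  simpa using expand (0 : X n m) 0

theorem regular : Function.Injective
    (fderiv ℝ (Psi (fun p => -p.2) fun j _ => ee n j) (base n m)) := by
  refine (injective_iff_map_eq_zero _).2 fun v hv => ?_
  have d1 : HasDerivAt (fun t : ℝ => base n m + t • v) v 0 := by
    simpa using ((hasDerivAt_id (0 : ℝ)).smul_const v).const_add (base n m)
  have d2 := HasFDerivAt.comp_hasDerivAt_of_eq (0 : ℝ)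
    ((smooth.differentiable one_ne_zero) (base n m)).hasFDerivAt d1 (by simp)
  rw [hv] at d2
  simp only [Function.comp_def, expand] at d2
  have d3 := d2.unique (((hasDerivAt_id (0 : ℝ)).smul_const _).add
    ((hasDerivAt_pow 2 (0 : ℝ)).smul_const _))
  simp only [one_smul, Nat.cast_ofNat, Nat.add_one_sub_one, pow_one, mul_zero, zero_smul,
    add_zero] at d3
  have h1 : ∀ j, -v.1 j = ∑ i, v.2.2.1 j i • ee n i := fun j =>
    sub_eq_zero.1 (congrArg (fun z : X n m => z.1 j) d3).symm
  have h2 : -v.2.1 = ∑ i, v.2.2.2 i • ee n i :=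
    sub_eq_zero.1 (congrArg (fun z : X n m => z.2.1) d3).symm
  have h3 : ∀ i k, (if i < k then ⟪v.1 i, ee n k⟫ else ⟪v.1 i, ee n k⟫ + ⟪ee n i, v.1 k⟫) =
      (0 : ℝ) := fun i k => (congrArg (fun z : X n m => z.2.2.1 i k) d3).symm
  have h4 : ∀ i, ⟪v.2.1, ee n i⟫ = (0 : ℝ) := fun i =>
    (congrArg (fun z : X n m => z.2.2.2 i) d3).symm
  have b0 : ∀ i, v.2.2.2 i = 0 := fun i => by
    rw [← inner_comb ee_inner v.2.2.2 i, ← h2, inner_neg_left, h4, neg_zero]
  have hz : ∀ i k, ⟪v.1 i, ee n k⟫ = (0 : ℝ) := fun i k => by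
    have e1 := h3 i k
    have e2 := h3 k i
    rcases lt_trichotomy i k with h | h | h
    · rwa [if_pos h] at e1
    · subst h
      rw [if_neg (lt_irrefl _), real_inner_comm (v.1 i)] at e1
      linarith
    · rw [if_pos h] at e2
      rwa [if_neg h.not_gt, real_inner_comm (v.1 k), e2, add_zero] at e1
  have b1 : ∀ j i, v.2.2.1 j i = 0 := fun j i => by
    rw [← inner_comb ee_inner (v.2.2.1 j) i, ← h1, inner_neg_left, hz, neg_zero]
  simp only [b0, b1, zero_smul, Finset.sum_const_zero, neg_eq_zero] at h1 h2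
  exact Prod.ext (funext h1) (Prod.ext h2 (Prod.ext (funext fun j => funext (b1 j)) (funext b0)))

end ModelX

open ModelX in
theorem model (V₀ : (Fin m → W n m) × W n m → W n m)
    (V : Fin m → (Fin m → W n m) × W n m → W n m) (c₀ : Continuous V₀) (c : ∀ j, Continuous (V j))
    (e₀ : ∀ (ε : Fin m → ℤˣ) a A, V₀ (fun i => ((ε i : ℤ) : ℝ) • a i, A) = V₀ (a, A))
    (e : ∀ j (ε : Fin m → ℤˣ) a A, V j (fun i => ((ε i : ℤ) : ℝ) • a i, A) = V j (a, A))
    (o₀ : ∀ a A, Adm a → (∀ i, ⟪A, a i⟫ = 0) → ∀ i, ⟪V₀ (a, A), a i⟫ = 0)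
    (o : ∀ j a A, Adm a → (∀ i, ⟪A, a i⟫ = 0) → ∀ i, ⟪V j (a, A), a i⟫ = 0)
    {B : ℝ} (out : ∀ a A, Adm a → B < ‖A‖ → ⟪V₀ (a, A), A⟫ < 0) :
    ∃ a A, Adm a ∧ (∀ i, ⟪A, a i⟫ = 0) ∧ V₀ (a, A) = 0 ∧ ∀ j, V j (a, A) = 0 := by
  have hK : IsCompact (closedBall (0 : X n m) (max B 1) ∩ ⋂ i, {y | ‖y.1 i‖ = 1}) :=
    (isCompact_closedBall _ _).inter_right
      (isClosed_iInter fun i => isClosed_eq (by fun_prop) continuous_const)
  have h1 : (1 : ℝ) ≤ max B 1 := le_max_right _ _
  obtain ⟨y, hy⟩ := equi_zero act act' smooth (cont c₀ c)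
    (equi (fun _ _ _ => rfl) fun _ _ _ _ => rfl) (equi e₀ e) hK (fun t ht y hy => by
      rw [comb] at hy
      obtain ⟨ha, hA, h0, hb⟩ := zero hy
      refine ⟨mem_closedBall_zero_iff.2 (norm_prod_le_iff.2 ⟨(pi_norm_le_iff_of_nonneg
        (by linarith)).2 fun i => (norm_one ha.2 i).le.trans h1, norm_prod_le_iff.2 ⟨?_,
          norm_prod_le_iff.2 ⟨(pi_norm_le_iff_of_nonneg (by linarith)).2 fun j =>
            (pi_norm_le_iff_of_nonneg (by linarith)).2 fun i => ?_,
            (pi_norm_le_iff_of_nonneg (by linarith)).2 fun i => ?_⟩⟩⟩),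
        mem_iInter.2 (norm_one ha.2)⟩
      · refine not_lt.1 fun hlt => ?_
        have e1 := out _ _ ha ((le_max_left _ _).trans_lt hlt)
        have e2 : ⟪∑ i, y.2.2.2 i • y.1 i, y.2.1⟫ = (0 : ℝ) := by
          rw [real_inner_comm]
          simp only [inner_sum, real_inner_smul_right, hA, mul_zero, Finset.sum_const_zero]
        rw [← h0, inner_add_left, real_inner_smul_left, real_inner_smul_left, inner_neg_left,
          real_inner_self_eq_norm_sq] at e2
        have e3 : 0 < ‖y.2.1‖ ^ 2 := by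
          have : 0 < ‖y.2.1‖ := by linarith
          positivity
        rcases ht.1.eq_or_lt with e4 | e4
        · rw [← e4] at e2
          linarith
        · nlinarith [mul_neg_of_pos_of_neg e4 e1, mul_nonneg (sub_nonneg.2 ht.2) e3.le]
      · rw [← inner_comb ha.2 (y.2.2.1 j) i, ← hb j, inner_add_left, real_inner_smul_left,
          real_inner_smul_left, o j _ _ ha hA, mul_zero, add_zero, norm_mul, Real.norm_eq_abs,
          abs_of_nonneg (sub_nonneg.2 ht.2)]
        have e1 := norm_inner_le_norm (𝕜 := ℝ) (ee n j) (y.1 i)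
        rw [norm_one ha.2, norm_one ee_inner, mul_one] at e1
        exact (mul_le_one₀ (by linarith [ht.1]) (norm_nonneg _) e1).trans h1
      · rw [← inner_comb ha.2 y.2.2.2 i, ← h0, inner_add_left, real_inner_smul_left,
          real_inner_smul_left, o₀ _ _ ha hA, inner_neg_left, hA]
        simp)
    (fun y hy g hg => funext fun i => by
      have e1 : ‖y.1 i‖ = 1 := mem_iInter.1 hy.2 i
      have e2 : sg g i • y.1 i = y.1 i := congrArg (fun z : X n m => z.1 i) hg
      rcases Int.units_eq_one_or (g i) with h | h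
      · exact h
      · have e3 : (2 : ℝ) • y.1 i = 0 := by
          simp only [sg, h, Units.val_neg, Units.val_one, Int.cast_neg, Int.cast_one, neg_smul,
            one_smul] at e2
          rw [two_smul]
          exact neg_eq_iff_add_eq_zero.1 e2
        rw [(smul_eq_zero.1 e3).resolve_left two_ne_zero, norm_zero] at e1
        exact absurd e1 zero_ne_one)
    base_zero (fun y => uniq) regular
  obtain ⟨ha, hA, h0, hb⟩ := zero hy
  have b0 : ∀ i, y.2.2.2 i = 0 := fun i => by
    rw [← inner_comb ha.2 y.2.2.2 i, ← h0, o₀ _ _ ha hA]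
  have b1 : ∀ j i, y.2.2.1 j i = 0 := fun j i => by
    rw [← inner_comb ha.2 (y.2.2.1 j) i, ← hb j, o j _ _ ha hA]
  simp only [b0, b1, zero_smul, Finset.sum_const_zero] at h0 hb
  exact ⟨_, _, ha, hA, h0, hb⟩

end Pool.Agent.P.MP_f791b6_an.One
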