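import Pool.Agent.P.MP_f791b6_an.K1Basic

/-! Symmetrization with a nonlocal term, in calibrated form. -/

open MeasureTheory Set Metric Filter Topology
open scoped ContDiff RealInnerProductSpace ENNReal

namespace Pool.Agent.P.MP_f791b6_an.One

variable {n m : ℕ}

lemma ps_anti {f f' : ℝ → ℝ} {a b : ℝ} (hab : a ≤ b)
    (h : ∀ x ∈ Icc a b, HasDerivAt f (f' x) x) (h' : ∀ x ∈ Icc a b, f' x ≤ 0) : f b ≤ f a :=
  antitoneOn_of_hasDerivWithinAt_nonpos (convex_Icc a b)
    (fun x hx => (h x hx).continuousAt.continuousWithinAt)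
    (fun x hx => (h x (interior_subset hx)).hasDerivWithinAt)
    (fun x hx => h' x (interior_subset hx)) (left_mem_Icc.2 hab) (right_mem_Icc.2 hab) hab

/-- The discrete form of the Barta inequality. -/
lemma ps_barta {I q q' : ℝ → ℝ} {A l : ℝ} (hl : 0 < l)
    (hI : ∀ v, 0 < v → v ≤ A → 0 < I v)
    (hI2 : ∀ v w, 0 < v → v ≤ w → w ≤ A → v * I w ≤ w * I v)
    (hq : ∀ v, 0 < v → v ≤ A → HasDerivAt q (q' v) v)
    (hq1 : ∀ v, 0 < v → v ≤ A → q' v + q v ^ 2 + l / I v ^ 2 ≤ 0)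
    (hq2 : ∀ v, 0 < v → v ≤ A → v * q v ≤ 1) {v v' G p C ξ : ℝ} (h0 : 0 ≤ v) (h1 : v ≤ v')
    (h2 : v' ≤ A) (hp : |p| ≤ C) (hG : |G| ≤ C * v) (hξ0 : 0 ≤ ξ)
    (hξ : 0 < v → ξ * I v ≤ l * max (G - 2 * C * (v' - v)) 0) (hξ' : v = 0 → ξ = 0) :
    l * (q v' * (G + p * (v' - v)) ^ 2 - q v * G ^ 2) ≤
      l * (p ^ 2 * (v' - v)) - ξ ^ 2 * (v' - v) := by
  have hC : 0 ≤ C := (abs_nonneg _).trans hp
  rcases h0.eq_or_lt with hv | hv
  · have hG0 : G = 0 := by
      rw [← hv, mul_zero] at hG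
      exact abs_nonpos_iff.1 hG
    rw [hξ' hv.symm, hG0, ← hv]
    rcases h1.eq_or_lt with hv' | hv'
    · rw [← hv', ← hv]; simp
    · rw [← hv] at hv'
      have := mul_le_mul_of_nonneg_left (hq2 v' hv' h2)
        (show 0 ≤ l * (p ^ 2 * v') by positivity)
      nlinarith
  · have key := ps_anti
      (f := fun w => l * (q w * (G + p * (w - v)) ^ 2) - l * (p ^ 2 * w) + ξ ^ 2 * w)
      (f' := fun w => l * (q' w * (G + p * (w - v)) ^ 2 + q w * (2 * (G + p * (w - v)) * p)) -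
        l * p ^ 2 + ξ ^ 2) h1 (fun w hw => by
        have a1 : HasDerivAt (fun w => G + p * (w - v)) p w := by
          simpa using (((hasDerivAt_id w).sub_const v).const_mul p).const_add G
        have a2 := ((hq w (hv.trans_le hw.1) (hw.2.trans h2)).mul (a1.pow 2)).const_mul l
        have a3 := (((hasDerivAt_id w).const_mul (p ^ 2)).const_mul l)
        have a4 := (hasDerivAt_id w).const_mul (ξ ^ 2)
        refine ((a2.sub a3).add a4).congr_deriv ?_
        simp only [Pi.pow_apply]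
        norm_num) (fun w hw => by
        have w0 : 0 < w := hv.trans_le hw.1
        have wA : w ≤ A := hw.2.trans h2
        have Iw := hI w w0 wA
        have Iv := hI v hv (h1.trans h2)
        set g := G + p * (w - v) with hg
        have b1 : ξ * I w ≤ l * |g| := by
          have c1 := hI2 v w hv hw.1 wA
          have c2 : v * (ξ * I w) ≤ w * (l * max (G - 2 * C * (v' - v)) 0) :=
            calc v * (ξ * I w) = ξ * (v * I w) := by ring
              _ ≤ ξ * (w * I v) := mul_le_mul_of_nonneg_left c1 hξ0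
              _ = w * (ξ * I v) := by ring
              _ ≤ _ := mul_le_mul_of_nonneg_left (hξ hv) w0.le
          have c3 : w * max (G - 2 * C * (v' - v)) 0 ≤ v * |g| := by
            rcases le_total (G - 2 * C * (v' - v)) 0 with h | h
            · rw [max_eq_right h, mul_zero]; positivity
            · rw [max_eq_left h]
              have d1 := (abs_le.1 hp).1
              have d2 := (abs_le.1 hG).2
              have d3 : 0 ≤ w - v := sub_nonneg.2 hw.1
              have d4 : w - v ≤ v' - v := by linarith [hw.2]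
              have d5 : G - C * (v' - v) ≤ |g| := by
                refine le_trans ?_ (le_abs_self _)
                nlinarith [mul_le_mul_of_nonneg_left d4 hC, mul_le_mul_of_nonneg_right d1 d3]
              have d6 : G - 2 * C * (v' - v) ≤ C * v := by nlinarith [mul_nonneg hC (d3.trans d4)]
              have d7 := mul_le_mul d4 d6 h (d3.trans d4)
              have d8 := mul_le_mul_of_nonneg_left d5 hv.le
              nlinarith
          refine le_of_mul_le_mul_left (c2.trans ?_) hv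
          nlinarith [mul_le_mul_of_nonneg_left c3 hl.le]
        have b2 : ξ ^ 2 ≤ l * (l / I w ^ 2 * g ^ 2) := by
          have := pow_le_pow_left₀ (mul_nonneg hξ0 Iw.le) b1 2
          rw [mul_pow, mul_pow, sq_abs] at this
          rw [div_mul_eq_mul_div, ← mul_div_assoc, le_div_iff₀ (by positivity)]
          linarith
        have b3 := mul_le_mul_of_nonneg_right (hq1 w w0 wA) (sq_nonneg g)
        have b4 : q' w * g ^ 2 + q w * (2 * g * p) - p ^ 2 + l / I w ^ 2 * g ^ 2 ≤ 0 := by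
          nlinarith [sq_nonneg (q w * g - p)]
        nlinarith [mul_le_mul_of_nonneg_left b4 hl.le])
    simp only [sub_self, mul_zero, add_zero] at key
    linarith

theorem ps {u : E n → ℝ} (hu : ContDiff ℝ 1 u) (hc : HasCompactSupport u) (h0 : ∀ x, 0 ≤ u x)
    {I q q' : ℝ → ℝ} {A l τ : ℝ} (hA : 0 < A) (hl : 0 < l) (hτ0 : 0 ≤ τ) (hτ1 : τ < 1)
    (hvol : volume.real (u ⁻¹' Ioi 0) ≤ A)
    (hlay : ∀ a b, 0 ≤ a → a < b → 0 < volume.real (u ⁻¹' Ioi b) →
      (b - a) * I (volume.real (u ⁻¹' Ioi b)) ≤ ∫ x in u ⁻¹' Ioc a b, ‖fderiv ℝ u x‖)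
    (hI : ∀ v, 0 < v → v ≤ A → 0 < I v)
    (hI2 : ∀ v w, 0 < v → v ≤ w → w ≤ A → v * I w ≤ w * I v)
    (hq : ∀ v, 0 < v → v ≤ A → HasDerivAt q (q' v) v)
    (hq1 : ∀ v, 0 < v → v ≤ A → q' v + q v ^ 2 + l / I v ^ 2 ≤ 0)
    (hq2 : ∀ v, 0 < v → v ≤ A → v * q v ≤ 1) (hq3 : -τ ≤ (1 - τ) * (A * q A)) :
    l * ((∫ x, u x ^ 2) - τ * (∫ x, u x) ^ 2 / A) ≤ ∫ x, ‖fderiv ℝ u x‖ ^ 2 := by
  have uc := hu.continuous
  have dc : Continuous fun x => ‖fderiv ℝ u x‖ := (hu.continuous_fderiv one_ne_zero).norm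
  set M := ∫ x, u x with hM
  set c := τ * M / A with hcdef
  set μ : ℝ → ℝ := fun s => volume.real (u ⁻¹' Ioi s) with hμ
  set G : ℝ → ℝ := fun s => ∫ x in u ⁻¹' Ioi s, (u x - c) with hG
  set F : E n → ℝ := fun x => ‖fderiv ℝ u x‖ ^ 2 - l * (u x ^ 2 - c ^ 2) with hF
  have Fc : Continuous F := by fun_prop
  have μ0 : ∀ s, 0 ≤ μ s := fun s => measureReal_nonneg
  have sub : ∀ {S : Set ℝ}, (∀ x ∈ S, 0 < x) → u ⁻¹' S ⊆ tsupport u := fun h z hz =>
    subset_tsupport u (h _ hz).ne'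
  have fin : ∀ {S : Set ℝ}, (∀ x ∈ S, 0 < x) → volume (u ⁻¹' S) ≠ ⊤ := fun h =>
    measure_ne_top_of_subset (sub h) hc.measure_lt_top.ne
  have int : ∀ {S : Set ℝ}, (∀ x ∈ S, 0 < x) → ∀ {φ : E n → ℝ}, Continuous φ →
      IntegrableOn φ (u ⁻¹' S) := fun h φ hφ =>
    (hφ.continuousOn.integrableOn_compact hc.isCompact).mono_set (sub h)
  have mI : ∀ s, MeasurableSet (u ⁻¹' Ioi s) := fun s => uc.measurable measurableSet_Ioi
  have mL : ∀ a b, MeasurableSet (u ⁻¹' Ioc a b) := fun a b => uc.measurable measurableSet_Ioc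
  have μ1 : ∀ a b, 0 ≤ a → a ≤ b → μ a - μ b = volume.real (u ⁻¹' Ioc a b) := fun a b ha hab => by
    simp only [hμ]
    rw [← Ioc_union_Ioi_eq_Ioi hab, preimage_union, measureReal_union
      ((Ioc_disjoint_Ioi le_rfl).preimage u) (mI b)
      (fin fun x hx => ha.trans_lt hx.1) (fin fun x hx => (ha.trans hab).trans_lt hx)]
    ring
  have μ2 : ∀ a b, 0 ≤ a → a ≤ b → μ b ≤ μ a := fun a b ha hab => by
    linarith [μ1 a b ha hab, measureReal_nonneg (μ := volume) (s := u ⁻¹' Ioc a b)]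
  have μ3 : ∀ a, 0 ≤ a → μ a ≤ A := fun a ha => (μ2 0 a le_rfl ha).trans hvol
  have G1 : ∀ a b, 0 ≤ a → a ≤ b → G a = G b + ∫ x in u ⁻¹' Ioc a b, (u x - c) :=
    fun a b ha hab => by
    simp only [hG]
    rw [← Ioc_union_Ioi_eq_Ioi hab, preimage_union, setIntegral_union
      ((Ioc_disjoint_Ioi le_rfl).preimage u) (mI b)
      (int (fun x hx => ha.trans_lt hx.1) (by fun_prop))
      (int (fun x hx => (ha.trans hab).trans_lt hx) (by fun_prop)), add_comm]
  obtain ⟨L, hL⟩ := uc.bddAbove_range_of_hasCompactSupport hc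
  have hL' : ∀ z, u z ≤ |L| + 1 := fun z => by linarith [hL (mem_range_self z), le_abs_self L]
  set L' := |L| + 1 with hL''
  have L0 : 0 < L' := by positivity
  set C := L' + |c| with hC
  have C0 : 0 < C := by positivity
  have hCu : ∀ x, |u x - c| ≤ C := fun x => by
    refine (abs_sub _ _).trans ?_
    rw [abs_of_nonneg (h0 x)]
    linarith [hL' x]
  have bnd : ∀ {S : Set ℝ}, (∀ x ∈ S, 0 < x) →
      |∫ x in u ⁻¹' S, (u x - c)| ≤ C * volume.real (u ⁻¹' S) := fun h =>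
    norm_setIntegral_le_of_norm_le_const (f := fun x => u x - c) (fin h).lt_top fun x _ => hCu x
  have step : ∀ a b, 0 ≤ a → a < b →
      (2 * l * b * G b - l * (q (μ b) * G b ^ 2)) - (2 * l * a * G a - l * (q (μ a) * G a ^ 2)) -
        6 * l * (b - a) * C * (μ a - μ b) ≤ ∫ x in u ⁻¹' Ioc a b, F x := by
    intro a b ha hab
    have hb : 0 ≤ b := by linarith
    have hS : ∀ x ∈ Ioc a b, 0 < x := fun x hx => ha.trans_lt hx.1
    have hf := fin hS
    have hD := μ1 a b ha hab.le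
    have D0 : 0 ≤ μ a - μ b := sub_nonneg.2 (μ2 a b ha hab.le)
    set J := ∫ x in u ⁻¹' Ioc a b, (u x - c) with hJ
    have hJ1 : |J| ≤ C * (μ a - μ b) := hD ▸ bnd hS
    obtain ⟨p, hp, hpJ⟩ : ∃ p, |p| ≤ C ∧ p * (μ a - μ b) = J := by
      rcases D0.eq_or_lt with h | h
      · refine ⟨0, by simpa using C0.le, ?_⟩
        rw [← h, mul_zero] at hJ1
        rw [zero_mul, abs_nonpos_iff.1 hJ1]
      · refine ⟨J / (μ a - μ b), ?_, div_mul_cancel₀ _ h.ne'⟩
        rw [abs_div, abs_of_pos h, div_le_iff₀ h]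
        exact hJ1
    have hGb : |G b| ≤ C * μ b := bnd fun x hx => hb.trans_lt hx
    obtain ⟨ξ, hξ0, hξ1, hξ2, hξ3⟩ : ∃ ξ, 0 ≤ ξ ∧
        (0 < μ b → ξ * I (μ b) ≤ l * max (G b - 2 * C * (μ a - μ b)) 0) ∧ (μ b = 0 → ξ = 0) ∧
        l * (b - a) * (G b - 2 * C * (μ a - μ b)) ≤
          ξ * ∫ x in u ⁻¹' Ioc a b, ‖fderiv ℝ u x‖ := by
      rcases (μ0 b).eq_or_lt with h | h
      · refine ⟨0, le_rfl, fun h' => absurd h h'.ne, fun _ => rfl, ?_⟩
        rw [← h, mul_zero] at hGb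
        rw [abs_nonpos_iff.1 hGb, zero_mul]
        have : 0 ≤ l * (b - a) * (2 * C * (μ a - μ b)) :=
          mul_nonneg (mul_nonneg hl.le (by linarith)) (by positivity)
        linarith
      · have Ib := hI _ h (μ3 b hb)
        have m0 : 0 ≤ max (G b - 2 * C * (μ a - μ b)) 0 := le_max_right _ _
        refine ⟨l * max (G b - 2 * C * (μ a - μ b)) 0 / I (μ b), by positivity,
          fun _ => (div_mul_cancel₀ _ Ib.ne').le, fun h' => absurd h' h.ne', ?_⟩
        refine le_trans ?_ (mul_le_mul_of_nonneg_left (hlay a b ha hab h) (by positivity))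
        change _ ≤ _ * ((b - a) * I (μ b))
        rw [mul_left_comm, div_mul_cancel₀ _ Ib.ne', mul_comm l, mul_assoc]
        exact mul_le_mul_of_nonneg_left (mul_le_mul_of_nonneg_left (le_max_left _ _) hl.le)
          (by linarith)
    have bar := ps_barta hl hI hI2 hq hq1 hq2 (μ0 b) (μ2 a b ha hab.le) (μ3 a ha) hp hGb hξ0
      hξ1 hξ2
    have hGa : G a = G b + J := G1 a b ha hab.le
    rw [hpJ, ← hGa] at bar
    set K := -ξ ^ 2 - l * p ^ 2 - 2 * l * (b - a) * C with hK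
    have i1 : IntegrableOn (fun x => 2 * ξ * ‖fderiv ℝ u x‖) (u ⁻¹' Ioc a b) :=
      int hS (by fun_prop)
    have i2 : IntegrableOn (fun x => 2 * l * (p - a) * (u x - c)) (u ⁻¹' Ioc a b) :=
      int hS (by fun_prop)
    have pt : ∫ x in u ⁻¹' Ioc a b, (2 * ξ * ‖fderiv ℝ u x‖ + 2 * l * (p - a) * (u x - c) + K) ≤
        ∫ x in u ⁻¹' Ioc a b, F x := by
      refine setIntegral_mono_on (int hS (by fun_prop)) (int hS Fc) (mL a b) fun x hx => ?_
      have e1 : (u x - a) * (u x - c) ≤ (b - a) * C :=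
        (mul_le_mul_of_nonneg_left ((le_abs_self _).trans (hCu x)) (by linarith [hx.1])).trans
          (mul_le_mul_of_nonneg_right (by linarith [hx.2]) C0.le)
      have e2 := mul_le_mul_of_nonneg_left e1 hl.le
      have e3 := mul_nonneg hl.le (sq_nonneg (u x - c - p))
      simp only [hF, hK]
      nlinarith [sq_nonneg (‖fderiv ℝ u x‖ - ξ)]
    have i3 : IntegrableOn (fun x => 2 * ξ * ‖fderiv ℝ u x‖ + 2 * l * (p - a) * (u x - c))
        (u ⁻¹' Ioc a b) := i1.add i2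
    rw [integral_add i3 (integrableOn_const hf), integral_add i1 i2, integral_const_mul,
      integral_const_mul, setIntegral_const, smul_eq_mul, ← hD, ← hJ] at pt
    refine le_trans ?_ pt
    rw [hGa] at bar ⊢
    rw [hK]
    have e4 : l * p * J = l * p * (p * (μ a - μ b)) := by rw [hpJ]
    linarith
  have ind : ∀ h : ℝ, 0 < h → ∀ k : ℕ,
      (2 * l * (k * h) * G (k * h) - l * (q (μ (k * h)) * G (k * h) ^ 2)) +
        l * (q (μ 0) * G 0 ^ 2) - 6 * l * h * C * (μ 0 - μ (k * h)) ≤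
        ∫ x in u ⁻¹' Ioc 0 (k * h), F x := by
    intro h h0 k
    induction k with
    | zero => simp
    | succ k ih =>
      have a0 : 0 ≤ k * h := by positivity
      have a1 : k * h < (k + 1) * h := by linarith
      have hd : Disjoint (u ⁻¹' Ioc 0 (k * h)) (u ⁻¹' Ioc (k * h) ((k + 1) * h)) :=
        (Ioc_disjoint_Ioc_of_le le_rfl).preimage u
      rw [Nat.cast_add_one, ← Ioc_union_Ioc_eq_Ioc a0 a1.le, preimage_union,
        setIntegral_union hd (mL _ _) (int (fun x hx => hx.1) Fc)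
          (int (fun x hx => a0.trans_lt hx.1) Fc)]
      have a2 := step _ _ a0 a1
      linarith
  have main : l * (q (μ 0) * G 0 ^ 2) ≤ ∫ x in u ⁻¹' Ioi 0, F x := by
    refine le_of_forall_pos_le_add fun ε hε => ?_
    obtain ⟨k, hk⟩ := exists_nat_gt (6 * l * L' * C * A / ε)
    have k0 : (0 : ℝ) < k := lt_of_le_of_lt (by positivity) hk
    have a1 := ind (L' / k) (by positivity) k
    have e1 : u ⁻¹' Ioc 0 L' = u ⁻¹' Ioi 0 := by
      ext z; exact ⟨fun h => h.1, fun h => ⟨h, hL' z⟩⟩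
    have e0 : u ⁻¹' Ioi L' = ∅ :=
      eq_empty_of_forall_notMem fun z hz => absurd (hL' z) (not_le.2 hz)
    have e2 : μ L' = 0 := by simp only [hμ, e0, measureReal_empty]
    have e3 : G L' = 0 := by simp only [hG, e0, setIntegral_empty]
    rw [mul_div_cancel₀ _ k0.ne', e1, e2, e3] at a1
    have a2 : 6 * l * (L' / k) * C * (μ 0 - 0) ≤ ε := by
      rw [div_lt_iff₀ hε] at hk
      have := μ3 0 le_rfl
      calc _ = 6 * l * L' * C * μ 0 / k := by ring
        _ ≤ 6 * l * L' * C * A / k := by gcongr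
        _ ≤ ε := by rw [div_le_iff₀ k0]; linarith
    linarith
  have pos : ∀ x ∈ Ioi (0 : ℝ), 0 < x := fun x hx => hx
  have zero : ∀ x, x ∉ u ⁻¹' Ioi 0 → u x = 0 := fun x hx => le_antisymm (not_lt.1 hx) (h0 x)
  have e1 : G 0 = M - c * μ 0 := by
    simp only [hG]
    rw [integral_sub (int pos uc) (integrableOn_const (fin pos)), setIntegral_const, smul_eq_mul,
      setIntegral_eq_integral_of_forall_compl_eq_zero zero, mul_comm]
  have e2 : ∫ x in u ⁻¹' Ioi 0, F x = (∫ x in u ⁻¹' Ioi 0, ‖fderiv ℝ u x‖ ^ 2) -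
      l * ((∫ x, u x ^ 2) - μ 0 * c ^ 2) := by
    simp only [hF]
    rw [integral_sub (int pos (by fun_prop)) (int pos (by fun_prop)), integral_const_mul,
      integral_sub (int pos (by fun_prop)) (integrableOn_const (fin pos)), setIntegral_const,
      smul_eq_mul, setIntegral_eq_integral_of_forall_compl_eq_zero (f := fun x => u x ^ 2)
        fun x hx => by simp [zero x hx]]
  have e3 : ∫ x in u ⁻¹' Ioi 0, ‖fderiv ℝ u x‖ ^ 2 ≤ ∫ x, ‖fderiv ℝ u x‖ ^ 2 := by
    refine setIntegral_le_integral ?_ (ae_of_all _ fun x => sq_nonneg _)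
    have h2 : HasCompactSupport fun z => ‖fderiv ℝ u z‖ ^ 2 :=
      (hc.fderiv ℝ).comp_left (g := fun L : E n →L[ℝ] ℝ => ‖L‖ ^ 2) (by simp)
    exact (dc.pow 2).integrable_of_hasCompactSupport h2
  have bar := ps_barta (p := -c) (ξ := 0) (C := C) hl hI hI2 hq hq1 hq2 (μ0 0) (μ3 0 le_rfl) le_rfl
    (by rw [abs_neg]; linarith) (bnd pos) le_rfl
    (fun _ => by rw [zero_mul]; exact mul_nonneg hl.le (le_max_right _ _)) fun _ => rfl
  change l * (q A * (G 0 + -c * (A - μ 0)) ^ 2 - q (μ 0) * G 0 ^ 2) ≤ _ at bar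
  have cA : c * A = τ * M := div_mul_cancel₀ _ hA.ne'
  have e4 : G 0 + -c * (A - μ 0) = (1 - τ) * M := by rw [e1]; linarith
  rw [e4] at bar
  have e5 : -(τ * M ^ 2 / A) + c ^ 2 * A ≤ q A * ((1 - τ) * M) ^ 2 := by
    have f1 := mul_le_mul_of_nonneg_left hq3 (show 0 ≤ (1 - τ) * M ^ 2 / A from
      div_nonneg (mul_nonneg (by linarith) (sq_nonneg _)) hA.le)
    have f2 : (1 - τ) * M ^ 2 / A * ((1 - τ) * (A * q A)) = q A * ((1 - τ) * M) ^ 2 := by
      field_simp
    have f3 : -(τ * M ^ 2 / A) + c ^ 2 * A = (1 - τ) * M ^ 2 / A * -τ := by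
      rw [hcdef]; field_simp; ring
    rw [f3, ← f2]
    exact f1
  have e6 := mul_le_mul_of_nonneg_left e5 hl.le
  rw [e2] at main
  linarith

end Pool.Agent.P.MP_f791b6_an.One
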