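import Pool.Agent.P.MP_f791b6_an.K1Iso
import Pool.Agent.P.MP_f791b6_an.K1PS

/-! A Faber-Krahn inequality with a nonlocal term. -/

open MeasureTheory Set Metric Filter Topology
open scoped ContDiff RealInnerProductSpace ENNReal

namespace Pool.Agent.P.MP_f791b6_an.One

variable {n m : ℕ}

namespace NFK

/-- Derivative of `yy`. -/
noncomputable def yy1 (n s : ℝ) : ℝ :=
  -1 / (2 * (n + 2)) + 2 * s / (8 * (n + 2) * (n + 4)) -
    3 * s ^ 2 / (48 * (n + 2) * (n + 4) * (n + 6)) +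
    4 * s ^ 3 / (384 * (n + 2) * (n + 4) * (n + 6) * (n + 8)) -
    5 * s ^ 4 / (3840 * (n + 2) * (n + 4) * (n + 6) * (n + 8) * (n + 10))

/-- Derivative of `la`. -/
noncomputable def la1 (n s : ℝ) : ℝ :=
  -1 / (2 * n) + 2 * s / (8 * n * (n + 2)) - 3 * s ^ 2 / (48 * n * (n + 2) * (n + 4)) +
    4 * s ^ 3 / (384 * n * (n + 2) * (n + 4) * (n + 6)) -
    5 * s ^ 4 / (3840 * n * (n + 2) * (n + 4) * (n + 6) * (n + 8))

lemma poly_deriv (a b c d e s : ℝ) :
    HasDerivAt (fun s : ℝ => 1 - s / a + s ^ 2 / b - s ^ 3 / c + s ^ 4 / d - s ^ 5 / e)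
      (-1 / a + 2 * s / b - 3 * s ^ 2 / c + 4 * s ^ 3 / d - 5 * s ^ 4 / e) s := by
  have h1 := (hasDerivAt_id s).div_const a
  have h2 := (hasDerivAt_pow 2 s).div_const b
  have h3 := (hasDerivAt_pow 3 s).div_const c
  have h4 := (hasDerivAt_pow 4 s).div_const d
  have h5 := (hasDerivAt_pow 5 s).div_const e
  have h := ((((h1.const_sub 1).add h2).sub h3).add h4).sub h5
  refine h.congr_deriv ?_
  norm_num
  ring

lemma d_yy (n s : ℝ) : HasDerivAt (yy n) (yy1 n s) s := poly_deriv _ _ _ _ _ s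

lemma d_la (n s : ℝ) : HasDerivAt (la n) (la1 n s) s := poly_deriv _ _ _ _ _ s

lemma id1 {n : ℝ} (hn : 0 < n) (s : ℝ) : yy n s + 2 / n * s * yy1 n s = la n s := by
  unfold yy yy1 la
  field_simp
  ring

lemma id2 {n : ℝ} (hn : 0 < n) (s : ℝ) : 2 * n * la1 n s + yy n s =
    -(s ^ 5 / (3840 * (n + 2) * (n + 4) * (n + 6) * (n + 8) * (n + 10))) := by
  unfold yy la1
  field_simp
  ring

lemma d_s {N o l v : ℝ} (hN : 0 < N) (ho : 0 < o) (hv : 0 < v) :
    HasDerivAt (fun v : ℝ => l * (v / o) ^ (2 / N)) (2 * (l * (v / o) ^ (2 / N)) / (N * v)) v := by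
  have h1 : HasDerivAt (fun v : ℝ => v / o) (1 / o) v := (hasDerivAt_id v).div_const o
  have hp : 0 < v / o := div_pos hv ho
  have h2 := (h1.rpow_const (p := 2 / N) (Or.inl hp.ne')).const_mul l
  refine h2.congr_deriv ?_
  rw [Real.rpow_sub_one hp.ne']
  field_simp

lemma iso_sq (hn : 2 ≤ n) {l v : ℝ} (hv : 0 < v) :
    l / iso n v ^ 2 = l * (v / om n) ^ (2 / n : ℝ) / (n ^ 2 * v ^ 2) := by
  have hN : (0 : ℝ) < n := by exact_mod_cast (by omega : 0 < n)
  have ho := om_pos (n := n)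
  have e1 : (v / om n) ^ (2 / n : ℝ) = (v ^ (1 / n : ℝ)) ^ 2 / (om n ^ (1 / n : ℝ)) ^ 2 := by
    rw [Real.div_rpow hv.le ho.le, ← Real.rpow_natCast, ← Real.rpow_natCast,
      ← Real.rpow_mul hv.le, ← Real.rpow_mul ho.le]
    congr 2 <;> push_cast <;> ring
  have e2 : v ^ (1 - 1 / n : ℝ) = v / v ^ (1 / n : ℝ) := by
    rw [Real.rpow_sub hv, Real.rpow_one]
  have p1 : 0 < v ^ (1 / n : ℝ) := Real.rpow_pos_of_pos hv _
  have p2 : 0 < om n ^ (1 / n : ℝ) := Real.rpow_pos_of_pos ho _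
  unfold iso
  rw [e1, e2]
  field_simp

end NFK

open NFK in
theorem nfk (hn : 2 ≤ n) {S l R : ℝ} (hC : Cert n S) (hl : 0 < l) (hR : 0 < R)
    (hS : l * R ^ 2 = S) {u : E n → ℝ} (hu : ContDiff ℝ 1 u) (hc : HasCompactSupport u)
    (h0 : ∀ x, 0 ≤ u x) (hvol : volume.real (u ⁻¹' Ioi 0) ≤ R ^ n * om n) :
    l * ((∫ x, u x ^ 2) - 5 / 9 * (∫ x, u x) ^ 2 / (R ^ n * om n)) ≤
      ∫ x, ‖fderiv ℝ u x‖ ^ 2 := by
  have hN : (0 : ℝ) < n := by exact_mod_cast (by omega : 0 < n)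
  have ho := om_pos (n := n)
  have hA : 0 < R ^ n * om n := by positivity
  set s : ℝ → ℝ := fun v => l * (v / om n) ^ (2 / n : ℝ) with hs
  have sA : s (R ^ n * om n) = S := by
    simp only [hs]
    rw [mul_div_assoc, div_self ho.ne', mul_one, ← Real.rpow_natCast, ← Real.rpow_mul hR.le,
      show (n : ℝ) * (2 / n) = (2 : ℕ) by push_cast; field_simp, Real.rpow_natCast, hS]
  have s0 : ∀ v, 0 < v → 0 ≤ s v := fun v hv => by
    simp only [hs]; positivity
  have sle : ∀ v, 0 < v → v ≤ R ^ n * om n → s v ≤ S := fun v hv hvA => by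
    rw [← sA]
    simp only [hs]
    gcongr
  have hy : ∀ v, 0 < v → v ≤ R ^ n * om n → 0 < yy n (s v) ∧ la n (s v) ≤ yy n (s v) :=
    fun v hv hvA => hC.2.1 _ (s0 v hv) (sle v hv hvA)
  refine ps hu hc h0 (I := iso n) (q := fun v => la n (s v) / (v * yy n (s v)))
    (q' := fun v => (la1 n (s v) * (2 * s v / (n * v)) * (v * yy n (s v)) - la n (s v) ^ 2) /
      (v * yy n (s v)) ^ 2) hA hl (by norm_num) (by norm_num) hvol
    (fun a b ha hab h => layer (by omega) hu hc ha hab h) ?_ ?_ ?_ ?_ ?_ ?_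
  · intro v hv _
    unfold iso
    positivity
  · intro v w hv hvw _
    have hw : 0 < w := hv.trans_le hvw
    unfold iso
    rw [Real.rpow_sub hv, Real.rpow_sub hw, Real.rpow_one, Real.rpow_one]
    have p1 : 0 < v ^ (1 / n : ℝ) := Real.rpow_pos_of_pos hv _
    have p2 : v ^ (1 / n : ℝ) ≤ w ^ (1 / n : ℝ) := Real.rpow_le_rpow hv.le hvw (by positivity)
    have p3 : 0 < om n ^ (1 / n : ℝ) := Real.rpow_pos_of_pos ho _
    have p4 : 1 / w ^ (1 / n : ℝ) ≤ 1 / v ^ (1 / n : ℝ) := one_div_le_one_div_of_le p1 p2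
    calc v * (n * om n ^ (1 / n : ℝ) * (w / w ^ (1 / n : ℝ)))
        = (n * om n ^ (1 / n : ℝ) * v * w) * (1 / w ^ (1 / n : ℝ)) := by ring
      _ ≤ (n * om n ^ (1 / n : ℝ) * v * w) * (1 / v ^ (1 / n : ℝ)) := by gcongr
      _ = w * (n * om n ^ (1 / n : ℝ) * (v / v ^ (1 / n : ℝ))) := by ring
  · intro v hv hvA
    have ds : HasDerivAt s (2 * s v / (n * v)) v := d_s hN ho hv
    have d1 : HasDerivAt (fun v => la n (s v)) (la1 n (s v) * (2 * s v / (n * v))) v :=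
      (d_la n (s v)).comp v ds
    have d2 : HasDerivAt (fun v => yy n (s v)) (yy1 n (s v) * (2 * s v / (n * v))) v :=
      (d_yy n (s v)).comp v ds
    have d3 : HasDerivAt (fun v => v * yy n (s v)) (la n (s v)) v := by
      refine ((hasDerivAt_id v).mul d2).congr_deriv ?_
      rw [← id1 hN]
      simp only [id]
      field_simp
    have d4 := d1.div d3 (mul_pos hv (hy v hv hvA).1).ne'
    refine d4.congr_deriv ?_
    ring
  · intro v hv hvA
    have y0 := (hy v hv hvA).1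
    rw [iso_sq hn hv]
    have e : (la1 n (s v) * (2 * s v / (n * v)) * (v * yy n (s v)) - la n (s v) ^ 2) /
        (v * yy n (s v)) ^ 2 + (la n (s v) / (v * yy n (s v))) ^ 2 + s v / (n ^ 2 * v ^ 2) =
        s v / (n ^ 2 * v ^ 2 * yy n (s v)) * (2 * n * la1 n (s v) + yy n (s v)) := by
      field_simp
      ring
    change _ + _ + s v / (n ^ 2 * v ^ 2) ≤ 0
    rw [e, id2 hN]
    have := s0 v hv
    apply mul_nonpos_of_nonneg_of_nonpos
    · positivity
    · rw [neg_nonpos]; positivity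
  · intro v hv hvA
    obtain ⟨y0, y1⟩ := hy v hv hvA
    have e : v * (la n (s v) / (v * yy n (s v))) = la n (s v) / yy n (s v) := by field_simp
    rw [e, div_le_one y0]
    exact y1
  · obtain ⟨y0, -⟩ := hy _ hA le_rfl
    have h3 := hC.2.2
    simp only [sA] at y0 ⊢
    have e : R ^ n * om n * (la n S / (R ^ n * om n * yy n S)) = la n S / yy n S := by field_simp
    rw [e]
    have : -(5 / 4) ≤ la n S / yy n S := by
      rw [le_div_iff₀ y0]; linarith
    linarith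

end Pool.Agent.P.MP_f791b6_an.One
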