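import Pool.Agent.P.MP_f791b6_an.K1Deg
import Pool.Agent.P.MP_fecf7d_an.SgNull

/-! A local change does not alter the parity of the number of regular zeros. -/

open MeasureTheory Set Metric Filter Topology
open scoped ContDiff RealInnerProductSpace ENNReal

namespace Pool.Agent.P.MP_f791b6_an.One

variable {n m : ℕ}

theorem par_sign {α : Type*} (Z : Finset α) (p : α → Prop) [DecidablePred p] :
    ∃ k : ℕ, (∑ x ∈ Z, if p x then (1 : ℝ) else -1) = Z.card - 2 * k := by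
  classical
  induction Z using Finset.induction_on with
  | empty => exact ⟨0, by simp⟩
  | insert a s ha ih =>
    obtain ⟨k, hk⟩ := ih
    rw [Finset.sum_insert ha, Finset.card_insert_of_notMem ha, hk]
    by_cases h : p a
    · exact ⟨k, by simp only [h, if_true]; push_cast; ring⟩
    · exact ⟨k + 1, by simp only [h, if_false]; push_cast; ring⟩

open Pool.Agent.P.MP_fecf7d_an in
theorem par_euclid {N : ℕ} {f g : E N → E N} (hf : ContDiff ℝ 1 f) (hg : ContDiff ℝ 1 g)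
    {U C : Set (E N)} (hU : IsOpen U) (hC : IsCompact C) (hCU : C ⊆ U)
    (he : ∀ x ∈ U, x ∉ C → f x = g x)
    (ff : {x ∈ U | f x = 0}.Finite) (fg : {x ∈ U | g x = 0}.Finite)
    (rf : ∀ x ∈ U, f x = 0 → (fderiv ℝ f x).det ≠ 0)
    (rg : ∀ x ∈ U, g x = 0 → (fderiv ℝ g x).det ≠ 0) :
    {x ∈ U | f x = 0}.ncard ≡ {x ∈ U | g x = 0}.ncard [MOD 2] := by
  classical
  rcases eq_or_ne N 0 with rfl | hN
  · have : f = g := funext fun x => Subsingleton.elim _ _
    rw [this]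
  have hout : {x ∈ U | f x = 0} \ C = {x ∈ U | g x = 0} \ C := by
    ext x
    constructor
    · rintro ⟨⟨h1, h2⟩, h3⟩
      exact ⟨⟨h1, (he x h1 h3).symm.trans h2⟩, h3⟩
    · rintro ⟨⟨h1, h2⟩, h3⟩
      exact ⟨⟨h1, (he x h1 h3).trans h2⟩, h3⟩
  obtain ⟨K, hK, hCK, hKU⟩ := exists_compact_between hC
    (hU.sdiff (ff.subset (sdiff_subset (t := C))).isClosed)
    (fun x hx => ⟨hCU hx, fun h => h.2 hx⟩)
  have hKU' : K ⊆ U := fun x hx => (hKU hx).1
  have ff' : ({x ∈ U | f x = 0} ∩ C).Finite := ff.subset inter_subset_left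
  have fg' : ({x ∈ U | g x = 0} ∩ C).Finite := fg.subset inter_subset_left
  obtain ⟨μ, hμ, hdf⟩ := deg_sum hf hK ff'.toFinset
    (fun x hx h0 => by
      rw [Set.Finite.mem_toFinset]
      refine ⟨⟨hKU' hx, h0⟩, ?_⟩
      by_contra h
      exact (hKU hx).2 ⟨⟨hKU' hx, h0⟩, h⟩)
    (fun x hx => (ff'.mem_toFinset.1 hx).1.2) (fun x hx => hCK (ff'.mem_toFinset.1 hx).2)
    (fun x hx => rf x (ff'.mem_toFinset.1 hx).1.1 (ff'.mem_toFinset.1 hx).1.2)
  obtain ⟨ν, hν, hdg⟩ := deg_sum hg hK fg'.toFinset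
    (fun x hx h0 => by
      rw [Set.Finite.mem_toFinset]
      refine ⟨⟨hKU' hx, h0⟩, ?_⟩
      by_contra h
      exact (hKU hx).2 (hout ▸ ⟨⟨hKU' hx, h0⟩, h⟩))
    (fun x hx => (fg'.mem_toFinset.1 hx).1.2) (fun x hx => hCK (fg'.mem_toFinset.1 hx).2)
    (fun x hx => rg x (fg'.mem_toFinset.1 hx).1.1 (fg'.mem_toFinset.1 hx).1.2)
  obtain ⟨ρ, T, hρ⟩ := Sg.exists_dens (n := N) (lt_min hμ hν)
  have e1 := hdf ρ hρ.cont fun y hy => hρ.zero y ((min_le_left _ _).trans hy)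
  have e2 := hdg ρ hρ.cont fun y hy => hρ.zero y ((min_le_right _ _).trans hy)
  have hT : Differentiable ℝ T := hρ.smooth.differentiable one_ne_zero
  have hdet : ∀ {h : E N → E N}, ContDiff ℝ 1 h → ∀ x,
      (fderiv ℝ (T ∘ h) x).det = ρ (h x) * (fderiv ℝ h x).det := by
    intro h hh x
    rw [fderiv_comp x (hT _) (hh.differentiable one_ne_zero x), Sg.det_comp', hρ.det]
  have key := Sg.nl_compare hN hU (Sg.W.of_contDiff hN (hρ.smooth.comp hf))
    (Sg.W.of_contDiff hN (hρ.smooth.comp hg)) hK hKU' (l := fun _ => 1)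
    (fun x hx hxK => by
      have hxC : x ∉ C := fun h => hxK (interior_subset (hCK h))
      have : T ∘ f =ᶠ[𝓝 x] T ∘ g := by
        filter_upwards [(hU.sdiff hC.isClosed).mem_nhds ⟨hx, hxC⟩] with y hy
        simp only [Function.comp_apply, he y hy.1 hy.2]
      exact ⟨this.self_of_nhds, this.fderiv_eq⟩)
    (fun x _ => Eventually.of_forall fun _ => rfl)
  simp only [one_pow, one_mul, hdet hf, hdet hg] at key
  have hpos : 0 < ∫ y, ρ y := by
    refine hρ.cont.integral_pos_of_hasCompactSupport_nonneg_nonzero ?_ hρ.nonneg hρ.pos.ne'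
    refine HasCompactSupport.intro (isCompact_closedBall 0 (min μ ν)) fun y hy => hρ.zero y ?_
    rw [mem_closedBall_zero_iff, not_le] at hy
    exact hy.le
  have e3 := mul_right_cancel₀ hpos.ne' (e1.symm.trans (key.trans e2))
  obtain ⟨k, hk⟩ := par_sign ff'.toFinset fun x => 0 < (fderiv ℝ f x).det
  obtain ⟨k', hk'⟩ := par_sign fg'.toFinset fun x => 0 < (fderiv ℝ g x).det
  rw [hk, hk', ← Set.ncard_eq_toFinset_card _ ff', ← Set.ncard_eq_toFinset_card _ fg'] at e3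
  have e4 : ({x ∈ U | f x = 0} ∩ C).ncard + 2 * k' = ({x ∈ U | g x = 0} ∩ C).ncard + 2 * k := by
    have : (({x ∈ U | f x = 0} ∩ C).ncard : ℝ) + 2 * k' =
      ({x ∈ U | g x = 0} ∩ C).ncard + 2 * k := by linarith
    exact_mod_cast this
  rw [← Set.ncard_inter_add_ncard_sdiff_eq_ncard _ C ff,
    ← Set.ncard_inter_add_ncard_sdiff_eq_ncard _ C fg, hout]
  unfold Nat.ModEq
  omega

variable {V : Type} [NormedAddCommGroup V] [NormedSpace ℝ V] [FiniteDimensional ℝ V]

theorem parity_local {f g : V → V} (hf : ContDiff ℝ 1 f) (hg : ContDiff ℝ 1 g) {U C : Set V}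
    (hU : IsOpen U) (hC : IsCompact C) (hCU : C ⊆ U) (he : ∀ x ∈ U, x ∉ C → f x = g x)
    (ff : {x ∈ U | f x = 0}.Finite) (fg : {x ∈ U | g x = 0}.Finite)
    (rf : ∀ x ∈ U, f x = 0 → (fderiv ℝ f x).det ≠ 0)
    (rg : ∀ x ∈ U, g x = 0 → (fderiv ℝ g x).det ≠ 0) :
    {x ∈ U | f x = 0}.ncard ≡ {x ∈ U | g x = 0}.ncard [MOD 2] := by
  let e : V ≃L[ℝ] E (Module.finrank ℝ V) := ContinuousLinearEquiv.ofFinrankEq (by simp)
  have hz : ∀ h : V → V, {y ∈ e.symm ⁻¹' U | (e ∘ h ∘ e.symm) y = 0} = e '' {x ∈ U | h x = 0} := by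
    intro h
    ext y
    constructor
    · rintro ⟨h1, h2⟩
      exact ⟨e.symm y, ⟨h1, by simpa using h2⟩, e.apply_symm_apply y⟩
    · rintro ⟨x, ⟨h1, h2⟩, rfl⟩
      exact ⟨by simpa using h1, by simp [h2]⟩
  have hd : ∀ {h : V → V}, ContDiff ℝ 1 h → ∀ y,
      (fderiv ℝ (e ∘ h ∘ e.symm) y).det = (fderiv ℝ h (e.symm y)).det := by
    intro h hh y
    rw [(e.hasFDerivAt.comp y ((hh.differentiable one_ne_zero (e.symm y)).hasFDerivAt.comp y
      e.symm.hasFDerivAt)).fderiv]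
    exact LinearMap.det_conj (fderiv ℝ h (e.symm y) : V →ₗ[ℝ] V) e.toLinearEquiv
  have key := par_euclid (f := e ∘ f ∘ e.symm) (g := e ∘ g ∘ e.symm)
    (e.contDiff.comp (hf.comp e.symm.contDiff)) (e.contDiff.comp (hg.comp e.symm.contDiff))
    (U := e.symm ⁻¹' U) (C := e '' C) (hU.preimage e.symm.continuous) (hC.image e.continuous)
    (by
      rintro _ ⟨x, hx, rfl⟩
      simpa using hCU hx)
    (fun y hy hyC => by
      have := he (e.symm y) hy fun h => hyC ⟨_, h, e.apply_symm_apply y⟩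
      simp only [Function.comp_apply, this])
    (hz f ▸ ff.image _) (hz g ▸ fg.image _)
    (fun y hy h0 => by
      rw [hd hf]
      exact rf _ hy (by simpa using h0))
    (fun y hy h0 => by
      rw [hd hg]
      exact rg _ hy (by simpa using h0))
  rwa [hz, hz, Set.ncard_image_of_injective _ e.injective,
    Set.ncard_image_of_injective _ e.injective] at key

end Pool.Agent.P.MP_f791b6_an.One
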