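import Pool.Agent.P.MP_f791b6_an.K1Basic

/-! The profile and the pointwise bound for the energy density. -/

open MeasureTheory Set Metric Filter Topology
open scoped ContDiff RealInnerProductSpace ENNReal

namespace Pool.Agent.P.MP_f791b6_an.One

variable {n m : ℕ}

theorem exists_prof : ∃ γ, Prof γ := by
  let g : ℝ → ℝ := fun t => -1 / (3 * (max t 1 * √(max t 1)))
  have hm : ∀ t : ℝ, 0 < max t 1 := fun t => lt_of_lt_of_le one_pos (le_max_right _ _)
  have hg : Continuous g := by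
    refine continuous_const.div (by fun_prop) fun t => ?_
    have := hm t
    have := Real.sqrt_pos.2 (hm t)
    positivity
  have hd : ∀ s, HasDerivAt (fun s => 2 / 3 + ∫ t in (1 : ℝ)..s, g t) (g s) s := fun s =>
    ((hg.integral_hasStrictDerivAt 1 s).hasDerivAt).const_add _
  have hder : deriv (fun s => 2 / 3 + ∫ t in (1 : ℝ)..s, g t) = g := funext fun s => (hd s).deriv
  refine ⟨fun s => 2 / 3 + ∫ t in (1 : ℝ)..s, g t, ?_, fun s hs => ⟨?_, ?_⟩, fun s hs => ⟨?_, ?_⟩⟩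
  · rw [contDiff_one_iff_deriv, hder]
    exact ⟨fun s => (hd s).differentiableAt, hg⟩
  · have : ∫ t in (1 : ℝ)..s, g t = ∫ _t in (1 : ℝ)..s, (-1 / 3 : ℝ) := by
      refine intervalIntegral.integral_congr fun t ht => ?_
      rw [uIcc_of_ge hs] at ht
      simp only [g, max_eq_right ht.2, Real.sqrt_one]
      norm_num
    simp only [this, intervalIntegral.integral_const, smul_eq_mul]
    ring
  · rw [hder]
    simp only [g, max_eq_right hs, Real.sqrt_one]
    norm_num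
  · have : ∫ t in (1 : ℝ)..s, g t = 2 / (3 * √s) - 2 / (3 * √1) := by
      refine intervalIntegral.integral_eq_sub_of_hasDerivAt (f := fun t => 2 / (3 * √t))
        (fun t ht => ?_) (hg.intervalIntegrable _ _)
      rw [uIcc_of_le hs] at ht
      have ht0 : 0 < t := lt_of_lt_of_le one_pos ht.1
      have hs0 := Real.sqrt_pos.2 ht0
      have h1 := (Real.hasDerivAt_sqrt ht0.ne').const_mul 3
      have h2 := (hasDerivAt_const t (2 : ℝ)).div h1 (by positivity)
      refine h2.congr_deriv ?_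
      simp only [g, max_eq_left ht.1]
      have h3 : √t * √t = t := Real.mul_self_sqrt ht0.le
      field_simp
      nlinarith
    simp only [this, Real.sqrt_one]
    ring
  · rw [hder]
    simp only [g, max_eq_left hs]

theorem Prof.pos {γ : ℝ → ℝ} (hγ : Prof γ) (s : ℝ) : 0 < γ s := by
  rcases le_total s 1 with h | h
  · rw [(hγ.lo s h).1]
    linarith
  · rw [(hγ.hi s h).1]
    have := Real.sqrt_pos.2 (lt_of_lt_of_le one_pos h)
    positivity

theorem Pt_unit {D : E n →L[ℝ] W n m} (hD : ‖D‖ ≤ 1) {b : W n m} (hb : ‖b‖ = 1) :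
    ∑ j, ⟪b, D (EuclideanSpace.single j 1)⟫ ^ 2 ≤ 1 := by
  have h1 : ∀ j, ⟪b, D (EuclideanSpace.single j 1)⟫ = (ContinuousLinearMap.adjoint D b) j := by
    intro j
    rw [← ContinuousLinearMap.adjoint_inner_left, EuclideanSpace.inner_single_right]
    simp
  have h2 : ‖ContinuousLinearMap.adjoint D b‖ ≤ 1 := by
    have := (ContinuousLinearMap.adjoint D).le_opNorm b
    rw [LinearIsometryEquiv.norm_map, hb, mul_one] at this
    linarith
  have h3 := EuclideanSpace.real_norm_sq_eq (ContinuousLinearMap.adjoint D b)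
  simp only [h1]
  rw [← h3]
  have := norm_nonneg (ContinuousLinearMap.adjoint D b)
  nlinarith

theorem Pt_basis {a : Fin m → W n m} (ha : Adm a) {y : W n m} (hy : ‖y‖ = 1)
    (hya : ∀ i, ⟪y, a i⟫ = 0) (S : Set (Fin n)) (hS : S.Subsingleton) :
    ∃ b : OrthonormalBasis (Fin n ⊕ Fin m) ℝ (W n m),
      (∀ i, b (Sum.inr i) = a i) ∧ ∀ k ∈ S, b (Sum.inl k) = y := by
  have hon : Orthonormal ℝ ((Sum.inl '' S ∪ range Sum.inr : Set (Fin n ⊕ Fin m)).domRestrict
      (Sum.elim (fun _ => y) a)) := by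
    rw [orthonormal_iff_ite]
    rintro ⟨i, hi⟩ ⟨j, hj⟩
    rcases i with i | i <;> rcases j with j | j
    · have hi' : i ∈ S := by simpa using hi
      have hj' : j ∈ S := by simpa using hj
      have := hS hi' hj'
      subst this
      simp [hy]
    · simpa using hya j
    · simpa [real_inner_comm] using hya i
    · simpa using ha.2 i j
  obtain ⟨b, hb⟩ := hon.exists_orthonormalBasis_extension_of_card_eq (by simp)
  exact ⟨b, fun i => hb _ (Or.inr ⟨i, rfl⟩), fun k hk => hb _ (Or.inl ⟨k, hk, rfl⟩)⟩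

theorem trace_le {a : Fin m → W n m} (ha : Adm a) {D : E n →L[ℝ] W n m} (hD : ‖D‖ ≤ 1)
    (hDa : ∀ v i, ⟪D v, a i⟫ = 0) {y : W n m} (hy : ‖y‖ = 1) (hya : ∀ i, ⟪y, a i⟫ = 0) :
    ∑ j, ⟪y, D (EuclideanSpace.single j 1)⟫ ^ 2 ≤ 1 ∧
      ∑ j, (‖D (EuclideanSpace.single j 1)‖ ^ 2 - ⟪y, D (EuclideanSpace.single j 1)⟫ ^ 2) ≤
        (n : ℝ) - 1 := by
  refine ⟨Pt_unit hD hy, ?_⟩
  rcases n with _ | n
  · exfalso
    obtain ⟨b, hb, -⟩ := Pt_basis ha hy hya ∅ subsingleton_empty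
    have h := b.sum_sq_inner_right y
    rw [Fintype.sum_sum_type, hy] at h
    have h0 : ∀ i, ⟪b (Sum.inr i), y⟫ = 0 := fun i => by rw [hb, real_inner_comm]; exact hya i
    simp [h0] at h
  · obtain ⟨b, hb, hb0⟩ := Pt_basis ha hy hya {0} subsingleton_singleton
    have hv : ∀ v, ‖D v‖ ^ 2 - ⟪y, D v⟫ ^ 2 = ∑ k : Fin n, ⟪b (Sum.inl k.succ), D v⟫ ^ 2 := by
      intro v
      have h := b.sum_sq_inner_right (D v)
      rw [Fintype.sum_sum_type, Fin.sum_univ_succ, hb0 0 rfl] at h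
      have h0 : ∀ i, ⟪b (Sum.inr i), D v⟫ = 0 := fun i => by
        rw [hb, real_inner_comm]; exact hDa v i
      simp only [h0, ne_eq, OfNat.ofNat_ne_zero, not_false_eq_true, zero_pow,
        Finset.sum_const_zero, add_zero] at h
      linarith
    simp only [hv]
    rw [Finset.sum_comm]
    have : ∑ k : Fin n, ∑ j, ⟪b (Sum.inl k.succ), D (EuclideanSpace.single j 1)⟫ ^ 2 ≤
        ∑ _k : Fin n, (1 : ℝ) :=
      Finset.sum_le_sum fun k _ => Pt_unit hD (b.orthonormal.1 _)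
    simpa using this

theorem Pt_fderiv {γ : ℝ → ℝ} (hγ : Prof γ) (R : ℝ) {F : E n → W n m} {x : E n}
    {D : E n →L[ℝ] W n m} (hF : HasFDerivAt F D x) (A : W n m) (k : Fin n ⊕ Fin m) (v : E n) :
    fderiv ℝ (tst γ R F A k) x v = γ (‖F x - A‖ ^ 2 / R ^ 2) * (D v) k +
      deriv γ (‖F x - A‖ ^ 2 / R ^ 2) * (2 * ⟪F x - A, D v⟫ / R ^ 2) * (F x - A) k := by
  have h1 : HasFDerivAt (fun x => F x - A) D x := hF.sub_const A
  have h2 := (h1.norm_sq).mul_const ((R ^ 2)⁻¹)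
  have h3 : HasDerivAt γ (deriv γ (‖F x - A‖ ^ 2 / R ^ 2)) (‖F x - A‖ ^ 2 * (R ^ 2)⁻¹) :=
    ((hγ.smooth.differentiable one_ne_zero) _).hasDerivAt
  have h4 := h3.comp_hasFDerivAt x h2
  have h5 : HasFDerivAt (fun x => (F x - A) k) ((EuclideanSpace.proj k).comp D) x :=
    (EuclideanSpace.proj (𝕜 := ℝ) k).hasFDerivAt.comp x h1
  have h6 := h4.mul h5
  have e : tst γ R F A k =
      (γ ∘ fun x => ‖F x - A‖ ^ 2 * (R ^ 2)⁻¹) * fun x => (F x - A) k := rfl
  rw [e, h6.fderiv]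
  simp only [ContinuousLinearMap.add_apply, ContinuousLinearMap.smul_apply, smul_eq_mul,
    ContinuousLinearMap.comp_apply, Function.comp_apply, innerSL_apply_apply, nsmul_eq_mul,
    div_eq_mul_inv]
  simp
  ring

theorem Pt_sum (g c : ℝ) (v y : W n m) :
    ∑ k, (g * v k + c * y k) * (g * v k + c * y k) =
      g ^ 2 * ‖v‖ ^ 2 + 2 * g * c * ⟪y, v⟫ + c ^ 2 * ‖y‖ ^ 2 := by
  rw [EuclideanSpace.real_norm_sq_eq, EuclideanSpace.real_norm_sq_eq, PiLp.inner_apply,
    Finset.mul_sum, Finset.mul_sum, Finset.mul_sum, ← Finset.sum_add_distrib,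
    ← Finset.sum_add_distrib]
  refine Finset.sum_congr rfl fun k _ => ?_
  simp only [RCLike.inner_apply, conj_trivial]
  ring

theorem pointwise (hn : 1 ≤ n) {γ : ℝ → ℝ} (hγ : Prof γ) {R l ρ : ℝ} (hR : 0 < R)
    (hρ : l * R ^ 2 = ρ) (hρ' : (n : ℝ) - 1 ≤ ρ) {a : Fin m → W n m} (ha : Adm a)
    {F : E n → W n m} {x : E n} {D : E n →L[ℝ] W n m} (hF : HasFDerivAt F D x) (hD : ‖D‖ ≤ 1)
    (hDa : ∀ v i, ⟪D v, a i⟫ = 0) {A : W n m} (hy : ∀ i, ⟪F x - A, a i⟫ = 0) :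
    ∑ k, (∑ j : Fin n, fderiv ℝ (tst γ R F A k) x (EuclideanSpace.single j 1) *
        fderiv ℝ (tst γ R F A k) x (EuclideanSpace.single j 1) -
        l * (tst γ R F A k x * tst γ R F A k x)) ≤
      cap n ρ (‖F x - A‖ ^ 2 / R ^ 2) - 4 / 9 * (ρ - n + 1) := by
  have hn' : (0 : ℝ) ≤ (n : ℝ) - 1 := by
    have : (1 : ℝ) ≤ n := by exact_mod_cast hn
    linarith
  simp only [Pt_fderiv hγ R hF A, tst]
  generalize F x - A = y at hy ⊢
  rw [Finset.sum_sub_distrib, Finset.sum_comm]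
  simp only [Pt_sum]
  set s := ‖y‖ ^ 2 / R ^ 2 with hs
  have hs0 : 0 ≤ s := by positivity
  have hmass : ∑ k, l * (γ s * y k * (γ s * y k)) = ρ * (s * γ s ^ 2) := by
    have h1 : ∑ k, l * (γ s * y k * (γ s * y k)) = l * γ s ^ 2 * ‖y‖ ^ 2 := by
      rw [EuclideanSpace.real_norm_sq_eq, Finset.mul_sum]
      exact Finset.sum_congr rfl fun k _ => by ring
    have h2 : ‖y‖ ^ 2 = s * R ^ 2 := by rw [hs]; field_simp
    rw [h1, h2, ← hρ]
    ring
  rw [hmass]
  have hen : ∑ j : Fin n, (γ s ^ 2 * ‖D (EuclideanSpace.single j 1)‖ ^ 2 +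
      2 * γ s * (deriv γ s * (2 * ⟪y, D (EuclideanSpace.single j 1)⟫ / R ^ 2)) *
        ⟪y, D (EuclideanSpace.single j 1)⟫ +
      (deriv γ s * (2 * ⟪y, D (EuclideanSpace.single j 1)⟫ / R ^ 2)) ^ 2 * ‖y‖ ^ 2) ≤
      ((n : ℝ) - 1) * γ s ^ 2 + (γ s + 2 * s * deriv γ s) ^ 2 := by
    rcases eq_or_ne y 0 with h0 | h0
    · have e0 : s = 0 := by rw [hs, h0]; simp
      have hj : ∀ j : Fin n, ‖D (EuclideanSpace.single j 1)‖ ^ 2 ≤ 1 := by
        intro j
        have h1 := D.le_opNorm (EuclideanSpace.single j (1 : ℝ))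
        rw [EuclideanSpace.norm_single, norm_one, mul_one] at h1
        have := norm_nonneg (D (EuclideanSpace.single j 1))
        nlinarith
      have hsum : ∑ j : Fin n, γ s ^ 2 * ‖D (EuclideanSpace.single j 1)‖ ^ 2 ≤
          ∑ _j : Fin n, γ s ^ 2 :=
        Finset.sum_le_sum fun j _ => by nlinarith [hj j, sq_nonneg (γ s)]
      simp only [h0, inner_zero_left, mul_zero, zero_div, norm_zero, ne_eq, OfNat.ofNat_ne_zero,
        not_false_eq_true, zero_pow, add_zero]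
      simp only [Finset.sum_const, Finset.card_univ, Fintype.card_fin, nsmul_eq_mul] at hsum
      rw [e0] at hsum ⊢
      nlinarith
    · have ht : 0 < ‖y‖ := norm_pos_iff.2 h0
      have hu : ‖(‖y‖⁻¹ : ℝ) • y‖ = 1 := norm_smul_inv_norm h0
      obtain ⟨t1, t2⟩ := trace_le ha hD hDa hu (fun i => by rw [real_inner_smul_left, hy, mul_zero])
      have hterm : ∀ v : W n m, γ s ^ 2 * ‖v‖ ^ 2 +
          2 * γ s * (deriv γ s * (2 * ⟪y, v⟫ / R ^ 2)) * ⟪y, v⟫ +
          (deriv γ s * (2 * ⟪y, v⟫ / R ^ 2)) ^ 2 * ‖y‖ ^ 2 =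
          γ s ^ 2 * (‖v‖ ^ 2 - ⟪(‖y‖⁻¹ : ℝ) • y, v⟫ ^ 2) +
            (γ s + 2 * s * deriv γ s) ^ 2 * ⟪(‖y‖⁻¹ : ℝ) • y, v⟫ ^ 2 := by
        intro v
        rw [real_inner_smul_left]
        generalize γ s = g
        generalize deriv γ s = g'
        rw [hs]
        field_simp
        ring
      simp only [hterm]
      rw [Finset.sum_add_distrib, ← Finset.mul_sum, ← Finset.mul_sum]
      nlinarith [mul_le_mul_of_nonneg_left t2 (sq_nonneg (γ s)),
        mul_le_mul_of_nonneg_left t1 (sq_nonneg (γ s + 2 * s * deriv γ s))]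
  refine le_trans (sub_le_sub_right hen _) ?_
  rcases le_total s 1 with h | h
  · rw [cap, min_eq_left h, (hγ.lo s h).1, (hγ.lo s h).2]
    apply le_of_eq
    ring
  · rw [cap, min_eq_right h, (hγ.hi s h).1, (hγ.hi s h).2]
    have hs1 : 0 < s := lt_of_lt_of_le one_pos h
    have hq := Real.sqrt_pos.2 hs1
    have h3 : √s ^ 2 = s := Real.sq_sqrt hs1.le
    have e1 : 2 / (3 * √s) + 2 * s * (-1 / (3 * (s * √s))) = 0 := by
      field_simp
      ring
    have e2 : (2 / (3 * √s)) ^ 2 = 4 / (9 * s) := by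
      rw [div_pow, mul_pow, h3]
      norm_num
    have e3 : s * (4 / (9 * s)) = 4 / 9 := by field_simp
    have e4 : 4 / (9 * s) ≤ 4 / 9 := by
      apply div_le_div_of_nonneg_left <;> linarith
    rw [e1, e2, e3]
    nlinarith [mul_le_mul_of_nonneg_left e4 hn']

end Pool.Agent.P.MP_f791b6_an.One
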