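import Pool.Agent.P.MP_f791b6_an.Main

namespace Pool.Agent.P.MP_f791b6_an

open MeasureTheory Metric Filter
open scoped Real ContDiff Topology

variable {n : ℕ}

lemma GI_mono {Ω : Set (E n)} (hm : MeasurableSet Ω) (hf : volume Ω ≠ ⊤) {a : ℝ} (ha : 1 ≤ a) :
    GI (chi Ω) 1 ≤ pw n a * GI (chi Ω) a := by
  have ha0 : 0 < a := by linarith
  rw [GI_chi hm hf one_pos, GI_chi hm hf ha0, ← integral_const_mul]
  refine integral_mono (integrableOn_Gr hf one_pos) ((integrableOn_Gr hf ha0).const_mul _)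
    fun p => ?_
  simp only [Gr, pw]
  rw [← mul_assoc, ← Real.mul_rpow ha0.le (by positivity), show a * (π / a) = π / 1 by field_simp]
  refine mul_le_mul_of_nonneg_left (Real.exp_le_exp.mpr ?_) (by positivity)
  refine mul_le_mul_of_nonneg_right (neg_le_neg ?_) (by positivity)
  exact div_le_div_of_nonneg_left (by positivity) one_pos ha

lemma exists_scale (n : ℕ) {κ : ℝ} (hκ : 0 < κ) :
    ∃ a : ℝ, 1 ≤ a ∧ Real.exp (-((a - 1 / 8) * (4 / 25))) * pw n a ≤ κ := by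
  have h1 := tendsto_rpow_mul_exp_neg_mul_atTop_nhds_zero ((n : ℝ) / 2) (4 / 25) (by norm_num)
  have h2 := h1.const_mul (Real.exp (1 / 50))
  rw [mul_zero] at h2
  obtain ⟨a, h3, h4⟩ := ((h2.eventually (eventually_le_nhds hκ)).and (eventually_ge_atTop 1)).exists
  refine ⟨a, h4, le_trans (le_of_eq ?_) h3⟩
  rw [pw, mul_left_comm, ← Real.exp_add, mul_comm]
  congr 2; ring

theorem core_low (hn : 6 ≤ n) : ∃ c : ℝ, 0 < c ∧ ∀ Ω : Set (E n), MeasurableSet Ω →
    Bornology.IsBounded Ω → ∀ (L : Submodule ℂ (E n → ℂ)) (k m : ℕ), Module.finrank ℂ L = k →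
    1 ≤ k → (∀ u ∈ L, Test u) → (∀ u ∈ L, tsupport u ⊆ Ω) →
    (∀ u ∈ L, energy Ω u ≤ 4 * π ^ 2 * mass Ω u) →
    (m : ℝ) ≤ c * (k : ℝ) ^ (1 - 5 / (n : ℝ)) → NeuOK Ω (k + m) := by
  have hn' : (6 : ℝ) ≤ n := by exact_mod_cast hn
  have hom := om_pos (n := n)
  have hp := pw_pos (n := n) (show 0 < π / (4 * 1) by positivity)
  obtain ⟨C1, hC1⟩ : ∃ C1 : ℝ, C1 = Real.exp (4 * 1) * pw n (π / (4 * 1)) := ⟨_, rfl⟩
  have hC0 : 0 < C1 := by rw [hC1]; positivity
  obtain ⟨κ0, hκ0⟩ : ∃ κ0 : ℝ, κ0 = om n / (16 * n * C1) := ⟨_, rfl⟩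
  have hκ00 : 0 < κ0 := by rw [hκ0]; positivity
  obtain ⟨a, ha1, ha2⟩ := exists_scale n (show 0 < κ0 / 4 by positivity)
  have hpa := pw_pos (n := n) (show 0 < a by linarith)
  obtain ⟨κ, hκ⟩ : ∃ κ : ℝ, κ = κ0 / pw n a := ⟨_, rfl⟩
  have hκ1 : 0 < κ := by rw [hκ]; positivity
  obtain ⟨b, hb0, hbn⟩ : ∃ b : ℝ, 0 < b ∧ b ^ n = κ / (4 * om n) :=
    ⟨(κ / (4 * om n)) ^ ((n : ℝ)⁻¹), by positivity,
      Real.rpow_inv_natCast_pow (by positivity) (by omega)⟩
  obtain ⟨cn, hcn⟩ : ∃ cn : ℝ, cn = (n - 1 : ℝ) * om n * (979 / 1000) ^ (n - 2) / 8 := ⟨_, rfl⟩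
  have hcn0 : 0 < cn := by
    have : (0 : ℝ) < n - 1 := by linarith
    rw [hcn]; positivity
  have he0 : 0 < 1 - 5 / (n : ℝ) := by
    rw [sub_pos, div_lt_one (by linarith)]; linarith
  have he1 : 1 - 5 / (n : ℝ) ≤ 1 := by
    have : 0 ≤ 5 / (n : ℝ) := by positivity
    linarith
  refine ⟨min 1 (b * cn * κ / (1352 * π ^ 2) / C1 ^ (1 - 5 / (n : ℝ))), by positivity, ?_⟩
  intro Ω hm hb L k m hk hk1 hL hΩ hR hm1
  have : FiniteDimensional ℂ L := Module.finite_of_finrank_pos (by omega)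
  have hf : volume Ω ≠ ⊤ := hb.measure_lt_top.ne
  rcases Nat.eq_zero_or_pos m with rfl | hm0
  · rw [← hk]
    exact filonov hm hb L hL hΩ hR (fun _ : Fin 0 => 0) (fun _ => 0) (Or.inr fun f => f.elim0)
      (0 : (Fin 0 → ℂ) →ₗ[ℂ] (Fin 0 → ℂ)) fun a ha => absurd (Subsingleton.elim a 0) ha
  have hk' : (1 : ℝ) ≤ k := by exact_mod_cast hk1
  have hzero : ∀ g : E n → ℂ, tsupport g ⊆ Ω → ∀ x ∉ Ω, g x = 0 := fun g hg x hx =>
    image_eq_zero_of_notMem_tsupport fun h => hx (hg h)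
  have heat : k * Real.exp (-(4 * 1)) ≤ pw n (π / (4 * 1)) * GI (chi Ω) 1 := by
    refine heat_bound hm hf L hk hL (fun u hu => hzero u (hΩ u hu)) (fun u hu => ?_) one_pos
    have h1 := hR u hu
    rw [energy, mass, setIntegral_eq_integral_of_forall_compl_eq_zero,
      setIntegral_eq_integral_of_forall_compl_eq_zero] at h1
    · exact h1
    · intro x hx; simp [hzero u (hΩ u hu) x hx]
    · intro x hx
      refine Finset.sum_eq_zero fun j _ => ?_
      have := hzero (pd j u) ((tsupport_fderiv_apply_subset ℝ _).trans (hΩ u hu)) x hx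
      rw [pd] at this
      simp [this]
  have heat' : (k : ℝ) ≤ C1 * GI (chi Ω) 1 := by
    calc (k : ℝ) = Real.exp (4 * 1) * (k * Real.exp (-(4 * 1))) := by
          rw [mul_left_comm, ← Real.exp_add]; simp
      _ ≤ Real.exp (4 * 1) * (pw n (π / (4 * 1)) * GI (chi Ω) 1) := by gcongr
      _ = _ := by rw [hC1]; ring
  set V := volume.real Ω with hVd
  have hkV : (k : ℝ) ≤ C1 * V :=
    heat'.trans (mul_le_mul_of_nonneg_left (GI_chi_le hm hf one_pos) hC0.le)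
  have hV : 0 < V := (mul_pos_iff_of_pos_left hC0).mp (by linarith)
  by_cases hcase : 16 * n * (k : ℝ) ≤ om n * V
  · refine caseA hm hb hV (by omega) ?_
    have h1 : (m : ℝ) ≤ k := by
      calc (m : ℝ) ≤ _ := hm1
        _ ≤ 1 * (k : ℝ) ^ (1 : ℝ) :=
            mul_le_mul (min_le_left _ _) (Real.rpow_le_rpow_of_exponent_le hk' he1)
              (by positivity) one_pos.le
        _ = k := by simp
    push_cast; nlinarith
  push Not at hcase
  have hGI : κ * V ≤ GI (chi Ω) a := by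
    have h1 := GI_mono hm hf ha1
    have h2 : κ0 * V ≤ GI (chi Ω) 1 := by
      rw [hκ0, div_mul_eq_mul_div, div_le_iff₀ (by positivity)]
      calc om n * V ≤ 16 * n * k := hcase.le
        _ ≤ 16 * n * (C1 * GI (chi Ω) 1) := by gcongr
        _ = _ := by ring
    rw [hκ, div_mul_eq_mul_div, div_le_iff₀ hpa]
    linarith
  obtain ⟨t, ht0, htn⟩ : ∃ t : ℝ, 0 < t ∧ t ^ n = V :=
    ⟨V ^ ((n : ℝ)⁻¹), by positivity, Real.rpow_inv_natCast_pow hV.le (by omega)⟩
  have hmid : κ * V / 2 ≤ ∫ ζ in mid n (b / t), ‖ft (chi Ω) ζ‖ ^ 2 := by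
    have h1 := mid_mass hm hf (β := b / t) (by positivity) (a := a) (by linarith)
    rw [← hVd] at h1
    have h2 : V ^ 2 * ((b / t) ^ n * om n) = κ * V / 4 := by
      rw [div_pow, hbn, htn]; field_simp
    have h3 : Real.exp (-((a - 1 / 8) * (4 / 25))) * V ≤ κ / 4 * V := by
      refine mul_le_mul_of_nonneg_right ?_ hV.le
      rw [hκ, div_right_comm, le_div_iff₀ hpa]; exact ha2
    linarith
  rw [← hk]
  refine caseB hm hb hV (by omega) L hL hΩ hR (β := b / t) (by positivity) (τ := π * t ^ 2)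
    (by positivity) ?_ hm0 ?_
  · change pw n _ * V ≤ 1
    rw [show π / (π * t ^ 2) = (1 / t) ^ 2 by field_simp, pw_sq (by positivity), ← htn, ← mul_pow,
      one_div_mul_cancel ht0.ne', one_pow]
  · rw [← hcn]
    refine le_trans ?_ (mul_le_mul_of_nonneg_left hmid (by positivity))
    obtain ⟨j, rfl⟩ : ∃ j, n = j + 5 := ⟨n - 5, by omega⟩
    have h1 : (k : ℝ) ^ (1 - 5 / ((j + 5 : ℕ) : ℝ)) ≤ C1 ^ (1 - 5 / ((j + 5 : ℕ) : ℝ)) * t ^ j := by
      calc _ ≤ (C1 * V) ^ (1 - 5 / ((j + 5 : ℕ) : ℝ)) :=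
            Real.rpow_le_rpow (by positivity) hkV he0.le
        _ = _ := by
            rw [Real.mul_rpow hC0.le hV.le, ← htn, ← Real.rpow_natCast t (j + 5),
              ← Real.rpow_mul ht0.le, ← Real.rpow_natCast t j]
            congr 2
            push_cast; field_simp; ring
    have h2 : (m : ℝ) ≤ b * cn * κ / (1352 * π ^ 2) * t ^ j := by
      calc (m : ℝ) ≤ _ := hm1
        _ ≤ (b * cn * κ / (1352 * π ^ 2) / C1 ^ (1 - 5 / ((j + 5 : ℕ) : ℝ))) *
            (C1 ^ (1 - 5 / ((j + 5 : ℕ) : ℝ)) * t ^ j) :=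
            mul_le_mul (min_le_right _ _) h1 (by positivity) (by positivity)
        _ = _ := by field_simp
    calc 4 * (m * (13 * (π * t ^ 2)) ^ 2)
        ≤ 4 * (b * cn * κ / (1352 * π ^ 2) * t ^ j * (13 * (π * t ^ 2)) ^ 2) := by gcongr
      _ = _ := by rw [← htn]; field_simp; ring

theorem main_of_core {k m : ℕ} (core : ∀ Ω : Set (E n), MeasurableSet Ω →
    Bornology.IsBounded Ω → ∀ L : Submodule ℂ (E n → ℂ), Module.finrank ℂ L = k →
    (∀ u ∈ L, Test u) → (∀ u ∈ L, tsupport u ⊆ Ω) →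
    (∀ u ∈ L, energy Ω u ≤ 4 * π ^ 2 * mass Ω u) → NeuOK Ω (k + m))
    {Ω : Set (E n)} (ho : IsOpen Ω) (hb : Bornology.IsBounded Ω) :
    neumannEig Ω (k + m) ≤ dirichletEig Ω k := by
  have hm := ho.measurableSet
  refine le_iInf fun L => le_iInf fun hk => le_iInf fun hL => ?_
  refine le_of_forall_gt_imp_ge_of_dense fun t ht => ?_
  rcases eq_or_ne t ⊤ with rfl | htop
  · exact le_top
  have ht0 : t ≠ 0 := (lt_of_le_of_lt zero_le ht).ne'
  set l := t.toReal with hl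
  have hl0 : 0 < l := ENNReal.toReal_pos ht0 htop
  have htl : t = ENNReal.ofReal l := (ENNReal.ofReal_toReal htop).symm
  have hR : ∀ u ∈ L, energy Ω u ≤ l * mass Ω u := by
    intro u hu
    by_cases h0 : u = 0
    · simp [h0, energy, mass]
    have h1 : ENNReal.ofReal (energy Ω u / mass Ω u) ≤ ENNReal.ofReal l := by
      rw [← htl]
      refine le_trans ?_ ht.le
      unfold rayleighSup
      refine le_iSup_of_le u (le_iSup_of_le hu (le_iSup_of_le (show u ≠ 0 from h0) ?_))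
      exact le_rfl
    rw [ENNReal.ofReal_le_ofReal_iff hl0.le] at h1
    have hT : Test u := ⟨(hL u hu).1, (hL u hu).2.1⟩
    have hc := hT.smooth.continuous
    have h2 : 0 < mass Ω u := by
      rw [mass, setIntegral_eq_integral_of_forall_compl_eq_zero fun x hx => by
        simp [image_eq_zero_of_notMem_tsupport fun h => hx ((hL u hu).2.2 h)]]
      obtain ⟨x, hx⟩ := Function.ne_iff.mp h0
      exact integral_pos_of_integrable_nonneg_nonzero (x := x) (by fun_prop) hT.integrable_sq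
        (fun x => by positivity) (by simpa using hx)
    rwa [div_le_iff₀ h2] at h1
  set a := 2 * π / √l with ha
  have ha0 : 0 < a := by positivity
  have ha2 : a ^ 2 * l = 4 * π ^ 2 := by
    rw [ha, div_pow, Real.sq_sqrt hl0.le]; field_simp; ring
  set Ω' := (fun y => a • y) ⁻¹' Ω with hΩ'
  have hm' : MeasurableSet Ω' := measurable_const_smul a hm
  have hb' : Bornology.IsBounded Ω' := by
    obtain ⟨D, hD⟩ := hb.exists_norm_le
    refine isBounded_iff_forall_norm_le.mpr ⟨D / a, fun y hy => ?_⟩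
    have := hD _ hy
    rw [norm_smul, Real.norm_eq_abs, abs_of_pos ha0] at this
    rw [le_div_iff₀ ha0]; linarith
  have hcore := core Ω' hm' hb' (L.map (dil a)) ((finrank_dil ha0.ne' L).trans hk)
    (by
      rintro _ ⟨u, hu, rfl⟩
      exact ⟨contDiff_dil a (hL u hu).1,
        (hL u hu).2.1.comp_homeomorph (Homeomorph.smulOfNeZero a ha0.ne')⟩)
    (by
      rintro _ ⟨u, hu, rfl⟩
      exact (tsupport_comp_subset_preimage u (continuous_const_smul a)).trans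
        (Set.preimage_mono (hL u hu).2.2))
    (by
      rintro _ ⟨u, hu, rfl⟩
      rw [← ha2]
      exact dil_le hm ha0 (hL u hu).1 (hR u hu))
  obtain ⟨L', hk', hL'⟩ := hcore
  have hai : 0 < a⁻¹ := inv_pos.mpr ha0
  have hback : (fun y => a⁻¹ • y) ⁻¹' Ω' = Ω := by
    ext y; simp [hΩ', ha0.ne']
  refine iInf₂_le_of_le (L'.map (dil a⁻¹)) ((finrank_dil hai.ne' L').trans hk')
    (iInf_le_of_le ?_ ?_)
  · rintro _ ⟨w, hw, rfl⟩
    refine ⟨contDiff_dil _ (hL' w hw).1, fun h => ?_⟩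
    rw [(hL' w hw).2.1 fun y hy => ?_, map_zero]
    simpa [dil_apply, ha0.ne'] using h _ hy
  · refine iSup_le fun u => iSup_le fun hu => iSup_le fun _ => ?_
    obtain ⟨w, hw, rfl⟩ := hu
    have h1 := dil_le hm' hai (hL' w hw).1 (hL' w hw).2.2
    have h2 : a⁻¹ ^ 2 * (4 * π ^ 2) = l := by rw [← ha2]; field_simp
    rw [hback, h2] at h1
    rw [htl]
    exact ENNReal.ofReal_le_ofReal (div_le_of_le_mul₀ (mass_nonneg _ _) hl0.le h1)

theorem main_low (hn : 6 ≤ n) : ∃ c : ℝ, 0 < c ∧ ∀ Ω : Set (E n), IsOpen Ω →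
    Bornology.IsBounded Ω → ∀ k m : ℕ, 1 ≤ k → (m : ℝ) ≤ c * (k : ℝ) ^ (1 - 5 / (n : ℝ)) →
      neumannEig Ω (k + m) ≤ dirichletEig Ω k := by
  obtain ⟨c, hc, h⟩ := core_low hn
  exact ⟨c, hc, fun Ω ho hb k m hk hm => main_of_core
    (fun Ω' hm' hb' L hL h1 h2 h3 => h Ω' hm' hb' L k m hL hk h1 h2 h3 hm) ho hb⟩

end Pool.Agent.P.MP_f791b6_an
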