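import Pool.Agent.P.MP_f791b6_an.Core

namespace Pool.Agent.P.MP_f791b6_an

open MeasureTheory Metric
open scoped Real ContDiff

variable {n : ℕ}

/-- Dilation of functions. -/
noncomputable def dil (a : ℝ) : (E n → ℂ) →ₗ[ℂ] (E n → ℂ) := LinearMap.funLeft ℂ ℂ fun y => a • y

lemma dil_apply (a : ℝ) (u : E n → ℂ) (y : E n) : dil a u y = u (a • y) := rfl

lemma dil_injective {a : ℝ} (ha : a ≠ 0) : Function.Injective (dil (n := n) a) :=
  LinearMap.funLeft_injective_of_surjective _ _ _ fun y => ⟨a⁻¹ • y, by simp [ha]⟩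

lemma finrank_dil {a : ℝ} (ha : a ≠ 0) (L : Submodule ℂ (E n → ℂ)) :
    Module.finrank ℂ (L.map (dil a)) = Module.finrank ℂ L :=
  (Submodule.equivMapOfInjective _ (dil_injective ha) L).finrank_eq.symm

lemma contDiff_dil (a : ℝ) {u : E n → ℂ} (hu : ContDiff ℝ ∞ u) : ContDiff ℝ ∞ (dil a u) :=
  hu.comp (contDiff_id.const_smul a)

lemma setIntegral_dil {Ω : Set (E n)} (hm : MeasurableSet Ω) {a : ℝ} (ha : 0 < a) (f : E n → ℝ) :
    ∫ y in (fun y => a • y) ⁻¹' Ω, f (a • y) = (a ^ n)⁻¹ * ∫ x in Ω, f x := by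
  rw [← integral_indicator hm, ← integral_indicator (measurable_const_smul a hm)]
  have := Measure.integral_comp_smul (volume : Measure (E n)) (Ω.indicator f) a
  simp only [finrank_euclideanSpace, Fintype.card_fin, smul_eq_mul] at this
  rw [abs_of_pos (by positivity)] at this
  rw [← this]; rfl

lemma dil_le {Ω : Set (E n)} (hm : MeasurableSet Ω) {a t : ℝ} (ha : 0 < a) {u : E n → ℂ}
    (hu : ContDiff ℝ ∞ u) (h : energy Ω u ≤ t * mass Ω u) :
    energy ((fun y => a • y) ⁻¹' Ω) (dil a u) ≤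
      a ^ 2 * t * mass ((fun y => a • y) ⁻¹' Ω) (dil a u) := by
  have e1 : mass ((fun y => a • y) ⁻¹' Ω) (dil a u) = (a ^ n)⁻¹ * mass Ω u :=
    setIntegral_dil hm ha fun x => ‖u x‖ ^ 2
  have e2 : energy ((fun y => a • y) ⁻¹' Ω) (dil a u) = a ^ 2 * ((a ^ n)⁻¹ * energy Ω u) := by
    rw [energy, energy, ← setIntegral_dil hm ha, ← integral_const_mul]
    refine integral_congr_ae (Filter.Eventually.of_forall fun y => ?_)
    simp only [Finset.mul_sum]
    refine Finset.sum_congr rfl fun j _ => ?_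
    have h1 : HasFDerivAt (dil a u) ((fderiv ℝ u (a • y)).comp (a • ContinuousLinearMap.id ℝ _)) y :=
      (hu.differentiable (by simp) (a • y)).hasFDerivAt.comp y ((hasFDerivAt_id y).const_smul a)
    rw [h1.fderiv]
    simp [mul_pow]
  rw [e1, e2]
  calc a ^ 2 * ((a ^ n)⁻¹ * energy Ω u) ≤ a ^ 2 * ((a ^ n)⁻¹ * (t * mass Ω u)) := by gcongr
    _ = _ := by ring

theorem main (hn : 1000 ≤ n) {Ω : Set (E n)} (ho : IsOpen Ω) (hb : Bornology.IsBounded Ω)
    {k m : ℕ} (hk1 : 1 ≤ k) (hm1 : (m : ℝ) ≤ (101 / 100) ^ n) :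
    neumannEig Ω (k + m) ≤ dirichletEig Ω k := by
  have hm := ho.measurableSet
  refine le_iInf fun L => le_iInf fun hk => le_iInf fun hL => ?_
  refine le_of_forall_gt_imp_ge_of_dense fun t ht => ?_
  rcases eq_or_ne t ⊤ with rfl | htop
  · exact le_top
  have ht0 : t ≠ 0 := (lt_of_le_of_lt zero_le ht).ne'
  set l := t.toReal with hl
  have hl0 : 0 < l := ENNReal.toReal_pos ht0 htop
  have htl : t = ENNReal.ofReal l := (ENNReal.ofReal_toReal htop).symm
  have hR : ∀ u ∈ L, energy Ω u ≤ l * mass Ω u := by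
    intro u hu
    by_cases h0 : u = 0
    · simp [h0, energy, mass]
    have h1 : ENNReal.ofReal (energy Ω u / mass Ω u) ≤ ENNReal.ofReal l := by
      rw [← htl]
      refine le_trans ?_ ht.le
      unfold rayleighSup
      refine le_iSup_of_le u (le_iSup_of_le hu (le_iSup_of_le (show u ≠ 0 from h0) ?_))
      exact le_rfl
    rw [ENNReal.ofReal_le_ofReal_iff hl0.le] at h1
    have hT : Test u := ⟨(hL u hu).1, (hL u hu).2.1⟩
    have hc := hT.smooth.continuous
    have h2 : 0 < mass Ω u := by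
      rw [mass, setIntegral_eq_integral_of_forall_compl_eq_zero fun x hx => by
        simp [image_eq_zero_of_notMem_tsupport fun h => hx ((hL u hu).2.2 h)]]
      obtain ⟨x, hx⟩ := Function.ne_iff.mp h0
      exact integral_pos_of_integrable_nonneg_nonzero (x := x) (by fun_prop) hT.integrable_sq
        (fun x => by positivity) (by simpa using hx)
    rwa [div_le_iff₀ h2] at h1
  set a := 2 * π / √l with ha
  have ha0 : 0 < a := by positivity
  have ha2 : a ^ 2 * l = 4 * π ^ 2 := by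
    rw [ha, div_pow, Real.sq_sqrt hl0.le]; field_simp; ring
  set Ω' := (fun y => a • y) ⁻¹' Ω with hΩ'
  have hm' : MeasurableSet Ω' := measurable_const_smul a hm
  have hb' : Bornology.IsBounded Ω' := by
    obtain ⟨D, hD⟩ := hb.exists_norm_le
    refine isBounded_iff_forall_norm_le.mpr ⟨D / a, fun y hy => ?_⟩
    have := hD _ hy
    rw [norm_smul, Real.norm_eq_abs, abs_of_pos ha0] at this
    rw [le_div_iff₀ ha0]; linarith
  have hcore := core hm' hb' hn (L.map (dil a)) ((finrank_dil ha0.ne' L).trans hk) hk1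
    (by
      rintro _ ⟨u, hu, rfl⟩
      exact ⟨contDiff_dil a (hL u hu).1,
        (hL u hu).2.1.comp_homeomorph (Homeomorph.smulOfNeZero a ha0.ne')⟩)
    (by
      rintro _ ⟨u, hu, rfl⟩
      exact (tsupport_comp_subset_preimage u (continuous_const_smul a)).trans
        (Set.preimage_mono (hL u hu).2.2))
    (by
      rintro _ ⟨u, hu, rfl⟩
      rw [← ha2]
      exact dil_le hm ha0 (hL u hu).1 (hR u hu)) hm1
  obtain ⟨L', hk', hL'⟩ := hcore
  have hai : 0 < a⁻¹ := inv_pos.mpr ha0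
  have hback : (fun y => a⁻¹ • y) ⁻¹' Ω' = Ω := by
    ext y; simp [hΩ', ha0.ne']
  refine iInf₂_le_of_le (L'.map (dil a⁻¹)) ((finrank_dil hai.ne' L').trans hk')
    (iInf_le_of_le ?_ ?_)
  · rintro _ ⟨w, hw, rfl⟩
    refine ⟨contDiff_dil _ (hL' w hw).1, fun h => ?_⟩
    rw [(hL' w hw).2.1 fun y hy => ?_, map_zero]
    simpa [dil_apply, ha0.ne'] using h _ hy
  · refine iSup_le fun u => iSup_le fun hu => iSup_le fun _ => ?_
    obtain ⟨w, hw, rfl⟩ := hu
    have h1 := dil_le hm' hai (hL' w hw).1 (hL' w hw).2.2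
    have h2 : a⁻¹ ^ 2 * (4 * π ^ 2) = l := by rw [← ha2]; field_simp
    rw [hback, h2] at h1
    rw [htl]
    exact ENNReal.ofReal_le_ofReal (div_le_of_le_mul₀ (mass_nonneg _ _) hl0.le h1)

end Pool.Agent.P.MP_f791b6_an
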