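import Pool.Agent.P.MP_f791b6_an.N3Defs

namespace Pool.Agent.P.MP_f791b6_an

open MeasureTheory Complex Metric
open scoped ComplexConjugate Real RealInnerProductSpace ENNReal

lemma ah_cos {a : ℝ} (ha : 0 < a) : |(1 / 2) * ∫ s in (-1 : ℝ)..1, Real.cos (a * s)| ≤ 1 / a := by
  rw [intervalIntegral.integral_comp_mul_left (fun s => Real.cos s) ha.ne', integral_cos,
    smul_eq_mul, abs_le]
  have h1 := Real.sin_le_one (a * 1)
  have h2 := Real.neg_one_le_sin (a * 1)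
  have h3 := Real.sin_le_one (a * -1)
  have h4 := Real.neg_one_le_sin (a * -1)
  have h5 : 0 < a⁻¹ := inv_pos.2 ha
  rw [one_div a]
  constructor <;> nlinarith

lemma ah_sin {a : ℝ} (ha : 0 < a) : |(1 / 2) * ∫ s in (-1 : ℝ)..1, Real.sin (a * s)| ≤ 1 / a := by
  rw [intervalIntegral.integral_comp_mul_left (fun s => Real.sin s) ha.ne', integral_sin,
    smul_eq_mul, abs_le]
  have h1 := Real.cos_le_one (a * 1)
  have h2 := Real.neg_one_le_cos (a * 1)
  have h3 := Real.cos_le_one (a * -1)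
  have h4 := Real.neg_one_le_cos (a * -1)
  have h5 : 0 < a⁻¹ := inv_pos.2 ha
  rw [one_div a]
  constructor <;> nlinarith

lemma ah_int {φ : E 3 → ℝ} (hφ : Continuous φ) {C : ℝ} (h : ∀ ξ, |φ ξ| ≤ C) :
    Integrable φ sig :=
  Integrable.of_bound hφ.aestronglyMeasurable C (Filter.Eventually.of_forall h)

/-- Decay of the Fourier transform of the surface measure. -/
theorem sig_decay (x : E 3) : ‖∫ ξ, conj (ew ξ x) ∂sig‖ ≤ 2 / (1 + ‖x‖) := by
  have h0 : 0 ≤ ‖x‖ := norm_nonneg x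
  rcases le_or_gt ‖x‖ 1 with hr | hr
  · have h1 : ‖∫ ξ, conj (ew ξ x) ∂sig‖ ≤ 1 := by
      refine (norm_integral_le_integral_norm _).trans ?_
      simp
    refine h1.trans ?_
    rw [le_div_iff₀ (by linarith)]
    linarith
  · have hr0 : 0 < ‖x‖ := by linarith
    set ω : E 3 := ‖x‖⁻¹ • x with hω
    have hω1 : ‖ω‖ = 1 := by
      rw [hω, norm_smul, norm_inv, norm_norm, inv_mul_cancel₀ hr0.ne']
    set a : ℝ := 2 * π * ‖x‖ with ha
    have hπ : 3 < π := Real.pi_gt_three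
    have ha0 : 0 < a := by positivity
    have e1 : ∀ ξ : E 3, conj (ew ξ x) =
        ((Real.cos (a * ⟪ω, ξ⟫) : ℝ) : ℂ) - I * ((Real.sin (a * ⟪ω, ξ⟫) : ℝ) : ℂ) := by
      intro ξ
      have e2 : 2 * π * ⟪ξ, x⟫ = a * ⟪ω, ξ⟫ := by
        rw [hω, real_inner_smul_left, real_inner_comm, ha]
        field_simp
      rw [ew, e2, mul_comm I, Complex.exp_mul_I, ← ofReal_cos, ← ofReal_sin]
      simp only [map_add, map_mul, conj_ofReal, conj_I]
      ring
    have i1 : Integrable (fun ξ : E 3 => Real.cos (a * ⟪ω, ξ⟫)) sig :=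
      ah_int (by fun_prop) fun ξ => Real.abs_cos_le_one _
    have i2 : Integrable (fun ξ : E 3 => Real.sin (a * ⟪ω, ξ⟫)) sig :=
      ah_int (by fun_prop) fun ξ => Real.abs_sin_le_one _
    have j1 : Integrable (fun ξ : E 3 => ((Real.cos (a * ⟪ω, ξ⟫) : ℝ) : ℂ)) sig := i1.ofReal
    have j2 : Integrable (fun ξ : E 3 => ((Real.sin (a * ⟪ω, ξ⟫) : ℝ) : ℂ)) sig := i2.ofReal
    simp_rw [e1]
    rw [integral_sub j1 (j2.const_mul I), integral_const_mul, integral_complex_ofReal,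
      integral_complex_ofReal, sig_arch hω1 (φ := fun s => Real.cos (a * s)) (by fun_prop),
      sig_arch hω1 (φ := fun s => Real.sin (a * s)) (by fun_prop)]
    refine (norm_sub_le _ _).trans ?_
    rw [norm_mul, norm_I, one_mul, Complex.norm_real, Complex.norm_real, Real.norm_eq_abs,
      Real.norm_eq_abs]
    refine (add_le_add (ah_cos ha0) (ah_sin ha0)).trans ?_
    rw [← add_div, div_le_div_iff₀ ha0 (by linarith), ha]
    nlinarith

lemma ah_Gr {T : ℝ} (hT : 0 < T) (z : E 3) :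
    Gr 3 (π / T ^ 2) z = T ^ 3 * Real.exp (-(π * T ^ 2) * ‖z‖ ^ 2) := by
  have hπ := Real.pi_pos
  rw [Gr, show π / (π / T ^ 2) = T ^ 2 by field_simp,
    show π ^ 2 / (π / T ^ 2) = π * T ^ 2 by field_simp,
    ← Real.rpow_natCast T 2, ← Real.rpow_mul hT.le, ← Real.rpow_natCast T 3]
  norm_num

lemma ah_row {T : ℝ} (hT : 0 < T) {ξ : E 3} (hξ : ‖ξ‖ = 1) :
    ∫ η, Gr 3 (π / T ^ 2) (ξ - η) ∂sig ≤ T := by
  have hπ : 3 < π := Real.pi_gt_three
  set b : ℝ := 2 * π * T ^ 2 with hb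
  have hb0 : 0 < b := by positivity
  have e1 : ∫ η, Gr 3 (π / T ^ 2) (ξ - η) ∂sig =
      ∫ η, T ^ 3 * Real.exp (-b) * Real.exp (b * ⟪ξ, η⟫) ∂sig := by
    refine integral_congr_ae (sig_unit.mono fun η hη => ?_)
    simp only
    rw [ah_Gr hT, norm_sub_sq_real, hξ, hη, mul_assoc, ← Real.exp_add, hb]
    congr 2
    ring
  rw [e1, sig_arch hξ (φ := fun s => T ^ 3 * Real.exp (-b) * Real.exp (b * s)) (by fun_prop),
    intervalIntegral.integral_const_mul,
    intervalIntegral.integral_comp_mul_left (fun s => Real.exp s) hb0.ne', integral_exp,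
    smul_eq_mul, mul_one]
  have h1 : Real.exp (-b) * Real.exp b = 1 := by rw [← Real.exp_add]; simp
  have h2 : 0 ≤ Real.exp (-b) * Real.exp (b * -1) := by positivity
  have e2 : 1 / 2 * (T ^ 3 * Real.exp (-b) * (b⁻¹ * (Real.exp b - Real.exp (b * -1)))) =
      1 / 2 * (T ^ 3 * b⁻¹) *
        (Real.exp (-b) * Real.exp b - Real.exp (-b) * Real.exp (b * -1)) := by ring
  have e3 : T ^ 3 * b⁻¹ = T / (2 * π) := by rw [hb]; field_simp
  have h3 : T / (2 * π) ≤ T := div_le_self hT.le (by linarith)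
  have h4 : 0 ≤ T / (2 * π) := by positivity
  rw [e2, e3, h1]
  nlinarith

lemma ah_identity {f : E 3 → ℂ} (hf : Amp f) {T : ℝ} (hT : 0 < T) :
    ((∫ x, gw T x * ‖Ex f x‖ ^ 2 : ℝ) : ℂ) =
      ∫ p : E 3 × E 3, conj (f p.1) * f p.2 * (Gr 3 (π / T ^ 2) (p.1 - p.2) : ℝ)
        ∂(sig.prod sig) := by
  have ha : 0 < π / T ^ 2 := by have := Real.pi_pos; positivity
  have hb : 0 < ((π / T ^ 2 : ℝ) : ℂ).re := by rw [ofReal_re]; exact ha
  have hf' : Integrable (fun ξ => conj (f ξ)) sig := by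
    simpa using (Complex.conjCLE : ℂ →L[ℝ] ℂ).integrable_comp hf.integrable
  have h1 : ∀ x : E 3, ((gw T x * ‖Ex f x‖ ^ 2 : ℝ) : ℂ) =
      ∫ p : E 3 × E 3, cexp (-((π / T ^ 2 : ℝ) : ℂ) * ‖x‖ ^ 2) * (conj (f p.1) * f p.2) *
        conj (ew x (p.1 - p.2)) ∂(sig.prod sig) := by
    intro x
    have e0 : ((gw T x : ℝ) : ℂ) = cexp (-((π / T ^ 2 : ℝ) : ℂ) * ‖x‖ ^ 2) := by
      rw [gw, ofReal_exp]; push_cast; rfl
    rw [ofReal_mul, e0, ofReal_pow, ← Complex.conj_mul', Ex, ← integral_conj, ← integral_prod_mul,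
      ← integral_const_mul]
    refine integral_congr_ae (Filter.Eventually.of_forall fun p => ?_)
    simp only [map_mul]
    have : conj (ew x (p.1 - p.2)) = conj (ew p.1 x) * ew p.2 x := by
      rw [ew_comm x (p.1 - p.2), sub_eq_add_neg, ew_add, map_mul, conj_ew (-p.2), neg_neg]
    rw [this]; ring
  rw [← integral_complex_ofReal]
  simp_rw [h1]
  rw [integral_integral_swap]
  · refine integral_congr_ae (Filter.Eventually.of_forall fun p => ?_)
    simp only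
    rw [← Gc_ofReal ha, ← integral_gauss_ew hb, ← integral_const_mul]
    refine integral_congr_ae (Filter.Eventually.of_forall fun ξ => ?_)
    simp only; ring
  · have h2 := (integrable_cgauss (n := 3) hb).mul_prod (hf'.mul_prod hf.integrable)
    exact h2.mul_bdd (c := 1) (by fun_prop) (Filter.Eventually.of_forall fun x => by simp)

lemma ah_zero {f : E 3 → ℂ} (hf : Amp f) {T : ℝ} (hT : 0 < T) :
    ∫ x, gw T x * ‖Ex f x‖ ^ 2 ≤ T * nsq f := by
  have ha : 0 < π / T ^ 2 := by have := Real.pi_pos; positivity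
  have h1 : ∫ x, gw T x * ‖Ex f x‖ ^ 2 ≤ ‖((∫ x, gw T x * ‖Ex f x‖ ^ 2 : ℝ) : ℂ)‖ := by
    rw [Complex.norm_real]; exact le_abs_self _
  refine h1.trans ?_
  rw [ah_identity hf hT]
  have i1 : Integrable (fun p : E 3 × E 3 => ‖f p.1‖ ^ 2 * Gr 3 (π / T ^ 2) (p.1 - p.2))
      (sig.prod sig) := by
    have h2 : Integrable (fun p : E 3 × E 3 => ‖f p.1‖ ^ 2) (sig.prod sig) :=
      hf.integrable_sq.comp_fst sig
    refine h2.mul_bdd (c := (π / (π / T ^ 2)) ^ (((3 : ℕ) : ℝ) / 2)) (by fun_prop)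
      (Filter.Eventually.of_forall fun p => ?_)
    rw [Real.norm_eq_abs, abs_of_nonneg (Gr_nonneg ha _)]
    exact Gr_le ha _
  have i2 : Integrable (fun p : E 3 × E 3 => ‖f p.2‖ ^ 2 * Gr 3 (π / T ^ 2) (p.1 - p.2))
      (sig.prod sig) := by
    refine i1.swap.congr (Filter.Eventually.of_forall fun p => ?_)
    simp only [Function.comp, Prod.fst_swap, Prod.snd_swap]
    rw [← Gr_neg, neg_sub]
  have e1 : ∫ p : E 3 × E 3, ‖f p.1‖ ^ 2 * Gr 3 (π / T ^ 2) (p.1 - p.2) ∂(sig.prod sig) ≤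
      T * nsq f := by
    rw [integral_prod _ i1, nsq, ← integral_const_mul]
    refine integral_mono_ae i1.integral_prod_left (hf.integrable_sq.const_mul T)
      (sig_unit.mono fun ξ hξ => ?_)
    simp only
    rw [integral_const_mul, mul_comm]
    exact mul_le_mul_of_nonneg_right (ah_row hT hξ) (by positivity)
  have e2 : ∫ p : E 3 × E 3, ‖f p.2‖ ^ 2 * Gr 3 (π / T ^ 2) (p.1 - p.2) ∂(sig.prod sig) =
      ∫ p : E 3 × E 3, ‖f p.1‖ ^ 2 * Gr 3 (π / T ^ 2) (p.1 - p.2) ∂(sig.prod sig) := by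
    rw [← integral_prod_swap]
    refine integral_congr_ae (Filter.Eventually.of_forall fun p => ?_)
    simp only [Prod.fst_swap, Prod.snd_swap]
    rw [← Gr_neg, neg_sub]
  refine (norm_integral_le_of_norm_le ((i1.add i2).div_const 2)
    (Filter.Eventually.of_forall fun p => ?_)).trans ?_
  · simp only [norm_mul, Complex.norm_conj, Complex.norm_real, Real.norm_eq_abs,
      abs_of_nonneg (Gr_nonneg ha _), Pi.add_apply]
    have := Gr_nonneg ha (p.1 - p.2)
    nlinarith [mul_nonneg this (sq_nonneg (‖f p.1‖ - ‖f p.2‖))]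
  · rw [integral_div]
    simp only [Pi.add_apply]
    rw [integral_add i1 i2, e2]
    linarith

/-- Agmon-Hoermander bound. -/
theorem Amp.ah {f : E 3 → ℂ} (hf : Amp f) {T : ℝ} (hT : 0 < T) (c : E 3) :
    ∫ x, gw T (x - c) * ‖Ex f x‖ ^ 2 ≤ T * nsq f := by
  have e1 : ∫ x, gw T (x - c) * ‖Ex f x‖ ^ 2 =
      ∫ x, gw T x * ‖Ex (fun ξ => f ξ * ew ξ c) x‖ ^ 2 := by
    rw [← integral_add_right_eq_self (fun x => gw T (x - c) * ‖Ex f x‖ ^ 2) c]
    refine integral_congr_ae (Filter.Eventually.of_forall fun x => ?_)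
    simp only
    rw [add_sub_cancel_right, Ex_add]
  have e2 : nsq (fun ξ => f ξ * ew ξ c) = nsq f := by
    simp [nsq]
  rw [e1, ← e2]
  exact ah_zero (hf.mul (amp_ew c)) hT

end Pool.Agent.P.MP_f791b6_an
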