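import Pool.Agent.P.MP_f791b6_an.N3Defs

namespace Pool.Agent.P.MP_f791b6_an

open MeasureTheory Complex Metric
open scoped ComplexConjugate Real RealInnerProductSpace ENNReal

lemma geo_inner {e x y : E 3} {ε r : ℝ} (hε1 : ε ≤ 1 / 2) (hx : x ∈ Nb e ε r)
    (hy : y ∈ Nb e ε r) : |⟪x - y, e⟫| ≤ 2 * ε + r * ‖x - y‖ := by
  obtain ⟨hx1, hx2⟩ := hx
  obtain ⟨hy1, hy2⟩ := hy
  have h1 : ‖x‖ ^ 2 - ‖y‖ ^ 2 = 2 * ⟪x - y, e⟫ + ⟪x - y, x - e⟫ + ⟪x - y, y - e⟫ := by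
    simp only [nsq3, inner3, PiLp.sub_apply]
    ring
  have h2 := abs_le.1 ((abs_real_inner_le_norm (x - y) (x - e)).trans
    (mul_le_mul_of_nonneg_left hx2 (norm_nonneg _)))
  have h3 := abs_le.1 ((abs_real_inner_le_norm (x - y) (y - e)).trans
    (mul_le_mul_of_nonneg_left hy2 (norm_nonneg _)))
  obtain ⟨a1, a2⟩ := abs_le.1 hx1
  obtain ⟨b1, b2⟩ := abs_le.1 hy1
  have c1 : ‖x‖ ^ 2 ≤ (1 + ε) ^ 2 := pow_le_pow_left₀ (norm_nonneg _) (by linarith) 2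
  have c2 : ‖y‖ ^ 2 ≤ (1 + ε) ^ 2 := pow_le_pow_left₀ (norm_nonneg _) (by linarith) 2
  have c3 : (1 - ε) ^ 2 ≤ ‖x‖ ^ 2 := pow_le_pow_left₀ (by linarith) (by linarith) 2
  have c4 : (1 - ε) ^ 2 ≤ ‖y‖ ^ 2 := pow_le_pow_left₀ (by linarith) (by linarith) 2
  rw [abs_le]
  constructor <;> nlinarith [h2.1, h2.2, h3.1, h3.2]

lemma geo_diam {δ : ℝ} {e1 e2 : E 3} (he : Tv δ e1 e2) {ε : ℝ} (hε : 0 < ε)
    {a b : E 3} (ha : ‖a - e1‖ ≤ δ / 10) (hb : ‖b - e2‖ ≤ δ / 10) {d : E 3}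
    (h1 : |⟪d, e1⟫| ≤ 2 * ε + δ / 20 * ‖d‖) (h2 : |⟪d, e2⟫| ≤ 2 * ε + δ / 20 * ‖d‖)
    (h3 : |det3 a b d| ≤ ε) : ‖d‖ ≤ 10 * ε / δ := by
  have hδ := he.pos
  have hδ1 : δ ≤ 1 := he.lo.trans he.hi
  have hd := norm_nonneg d
  obtain ⟨t, ht⟩ : ∃ t, t = δ * ‖d‖ := ⟨_, rfl⟩
  have ht0 : 0 ≤ t := ht ▸ mul_nonneg hδ.le hd
  have hb1 : ‖b‖ ≤ 11 / 10 := by
    have := norm_add_le (b - e2) e2
    rw [sub_add_cancel, he.n2] at this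
    linarith
  have e0 : det3 a b d = det3 (a - e1) b d + (det3 e1 (b - e2) d + det3 e1 e2 d) := by
    rw [← det3_add2, sub_add_cancel, ← det3_add1, sub_add_cancel]
  have k1 : |det3 (a - e1) b d| ≤ 11 / 100 * t := by
    refine (abs_det3_le _ _ _).trans ?_
    calc ‖a - e1‖ * ‖b‖ * ‖d‖ ≤ δ / 10 * (11 / 10) * ‖d‖ := by gcongr
      _ = 11 / 100 * t := by rw [ht]; ring
  have k2 : |det3 e1 (b - e2) d| ≤ 1 / 10 * t := by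
    refine (abs_det3_le _ _ _).trans ?_
    rw [he.n1, one_mul]
    calc ‖b - e2‖ * ‖d‖ ≤ δ / 10 * ‖d‖ := by gcongr
      _ = 1 / 10 * t := by rw [ht]; ring
  have k3 : |det3 e1 e2 d| ≤ ε + 21 / 100 * t := by
    obtain ⟨a1, a2⟩ := abs_le.1 h3
    obtain ⟨b1, b2⟩ := abs_le.1 k1
    obtain ⟨c1, c2⟩ := abs_le.1 k2
    rw [abs_le]
    constructor <;> linarith
  have k4 : ‖⟪d, e2⟫ • e1 - ⟪d, e1⟫ • e2‖ ≤ 4 * ε + 1 / 10 * t := by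
    refine (norm_sub_le _ _).trans ?_
    rw [norm_smul, norm_smul, he.n1, he.n2, Real.norm_eq_abs, Real.norm_eq_abs, ht]
    linarith
  have k5 : 3 / 4 * δ ^ 2 ≤ 1 - ⟪e1, e2⟫ ^ 2 := by
    have s1 := norm_sub_sq_real e1 e2
    rw [he.n1, he.n2] at s1
    have s2 : δ ^ 2 ≤ ‖e1 - e2‖ ^ 2 := pow_le_pow_left₀ hδ.le he.lo 2
    have s3 : ‖e1 - e2‖ ^ 2 ≤ 1 ^ 2 := pow_le_pow_left₀ (norm_nonneg _) he.hi 2
    have s4 : δ ^ 2 / 2 ≤ 1 - ⟪e1, e2⟫ := by linarith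
    have s5 : 3 / 2 ≤ 1 + ⟪e1, e2⟫ := by linarith
    have := mul_le_mul s4 s5 (by norm_num) (le_trans (by positivity) s4)
    linarith
  have k6 := det3_sq e1 e2 d
  rw [he.n1, he.n2] at k6
  have k7 : det3 e1 e2 d ^ 2 ≤ (ε + 21 / 100 * t) ^ 2 := by
    rw [← sq_abs]
    exact pow_le_pow_left₀ (abs_nonneg _) k3 2
  have k8 := pow_le_pow_left₀ (norm_nonneg _) k4 2
  have k9 : 3 / 4 * t ^ 2 ≤ ‖d‖ ^ 2 * (1 - ⟪e1, e2⟫ ^ 2) := by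
    calc 3 / 4 * t ^ 2 = ‖d‖ ^ 2 * (3 / 4 * δ ^ 2) := by rw [ht]; ring
      _ ≤ _ := mul_le_mul_of_nonneg_left k5 (sq_nonneg _)
  have k10 : 3 / 4 * t ^ 2 ≤ (ε + 21 / 100 * t) ^ 2 + (4 * ε + 1 / 10 * t) ^ 2 := by
    simp only [one_pow, mul_one] at k6
    linarith
  have k11 : t ≤ 10 * ε := by
    by_contra hc
    push Not at hc
    nlinarith [mul_pos hε hε, mul_pos hε (sub_pos.2 hc), mul_pos (sub_pos.2 hc) (sub_pos.2 hc)]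
  rw [le_div_iff₀ hδ]
  linarith [mul_comm δ ‖d‖]

lemma geo_ball (x : E 3) {R : ℝ} (hR : 0 ≤ R) :
    volume (closedBall x R) ≤ ENNReal.ofReal (21 / 5 * R ^ 3) := by
  rw [EuclideanSpace.volume_closedBall_fin_three, ← ENNReal.ofReal_pow hR,
    ← ENNReal.ofReal_mul (by positivity)]
  refine ENNReal.ofReal_le_ofReal ?_
  have := Real.pi_lt_d2
  have h3 : 0 ≤ R ^ 3 := by positivity
  nlinarith

/-- Volume of the intersection of two transversal thickened caps inside a slab. -/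
theorem geo_vol {δ : ℝ} {e1 e2 : E 3} (he : Tv δ e1 e2) {ε L : ℝ} (hε : 0 < ε) (hεL : ε ≤ L)
    (hε1 : ε ≤ 1 / 2) {a b : E 3} (ha : ‖a - e1‖ ≤ δ / 10) (hb : ‖b - e2‖ ≤ δ / 10) (z : E 3) :
    volume {ζ : E 3 | (ζ ∈ Nb e1 ε (δ / 20) ∧ |det3 a b ζ| ≤ L) ∧ z - ζ ∈ Nb e2 ε (δ / 20)} ≤
      ENNReal.ofReal (13000 * L * ε ^ 2 / δ ^ 3) := by
  have hδ := he.pos
  have hL : 0 < L := hε.trans_le hεL
  let P : ℕ → Set (E 3) := fun k => {ζ | (ζ ∈ Nb e1 ε (δ / 20) ∧ z - ζ ∈ Nb e2 ε (δ / 20)) ∧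
    k * ε ≤ det3 a b ζ + L ∧ det3 a b ζ + L ≤ (k + 1) * ε}
  have hP : ∀ k, volume (P k) ≤ ENNReal.ofReal (21 / 5 * (10 * ε / δ) ^ 3) := fun k => by
    rcases (P k).eq_empty_or_nonempty with h0 | ⟨y, hy⟩
    · rw [h0, measure_empty]
      exact zero_le
    refine le_trans (measure_mono fun x hx => ?_) (geo_ball y (by positivity))
    rw [mem_closedBall, dist_eq_norm]
    refine geo_diam he hε ha hb (geo_inner hε1 hx.1.1 hy.1.1) ?_ ?_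
    · have := geo_inner hε1 hy.1.2 hx.1.2
      rwa [show z - y - (z - x) = x - y by abel] at this
    · rw [det3_sub3, abs_le]
      constructor <;> linarith [hx.2.1, hx.2.2, hy.2.1, hy.2.2]
  have hcov : {ζ : E 3 | (ζ ∈ Nb e1 ε (δ / 20) ∧ |det3 a b ζ| ≤ L) ∧ z - ζ ∈ Nb e2 ε (δ / 20)} ⊆
      ⋃ k ∈ Finset.range (⌊2 * L / ε⌋₊ + 1), P k := by
    rintro ζ ⟨⟨h1, h2⟩, h3⟩
    obtain ⟨a1, a2⟩ := abs_le.1 h2
    have h0 : 0 ≤ (det3 a b ζ + L) / ε := div_nonneg (by linarith) hε.le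
    refine Set.mem_biUnion (x := ⌊(det3 a b ζ + L) / ε⌋₊) ?_ ⟨⟨h1, h3⟩, ?_, ?_⟩
    · rw [Finset.mem_coe, Finset.mem_range, Nat.lt_succ_iff]
      exact Nat.floor_le_floor (div_le_div_of_nonneg_right (by linarith) hε.le)
    · exact (le_div_iff₀ hε).1 (Nat.floor_le h0)
    · exact (div_le_iff₀ hε).1 (Nat.lt_floor_add_one _).le
  refine (measure_mono hcov).trans ((measure_biUnion_finset_le _ _).trans ?_)
  refine (Finset.sum_le_sum fun k _ => hP k).trans ?_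
  rw [Finset.sum_const, Finset.card_range, nsmul_eq_mul, ← ENNReal.ofReal_natCast,
    ← ENNReal.ofReal_mul (Nat.cast_nonneg _)]
  refine ENNReal.ofReal_le_ofReal ?_
  have hK : ((⌊2 * L / ε⌋₊ + 1 : ℕ) : ℝ) ≤ 3 * L / ε := by
    have h1 : (⌊2 * L / ε⌋₊ : ℝ) ≤ 2 * L / ε := Nat.floor_le (by positivity)
    have h2 : 1 ≤ L / ε := (one_le_div hε).2 hεL
    have h3 : 3 * L / ε = 2 * L / ε + L / ε := by ring
    push_cast
    linarith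
  calc _ ≤ 3 * L / ε * (21 / 5 * (10 * ε / δ) ^ 3) :=
        mul_le_mul_of_nonneg_right hK (by positivity)
    _ = 12600 * L * ε ^ 2 / δ ^ 3 := by field_simp; ring
    _ ≤ _ := by gcongr; norm_num

end Pool.Agent.P.MP_f791b6_an
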