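import Pool.Agent.P.MP_f791b6_an.N3Conv
import Pool.Agent.P.MP_f791b6_an.N3Geo

namespace Pool.Agent.P.MP_f791b6_an

open MeasureTheory Complex Metric
open scoped ComplexConjugate Real RealInnerProductSpace ENNReal

lemma broad_bdd (e : E 3) (ε r : ℝ) : Bornology.IsBounded (Nb e ε r) :=
  (isBounded_closedBall (x := e) (r := r)).subset fun ζ hζ => by
    rw [mem_closedBall, dist_eq_norm]; exact hζ.2

lemma broad_intg {F : E 3 → ℂ} (hF : Amp F) {S : Set (E 3)} (hS : Bornology.IsBounded S)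
    (z : ∀ ζ, ζ ∉ S → F ζ = 0) : Integrable F ∧ Integrable (fun ζ => ‖F ζ‖ ^ 2) := by
  obtain ⟨C, hC⟩ := hF.bdd
  have hfin : volume S ≠ ⊤ := hS.measure_lt_top.ne
  constructor
  · exact (Measure.integrableOn_of_bounded hfin hF.meas.aestronglyMeasurable (M := C)
      (Filter.Eventually.of_forall hC)).integrable_of_forall_notMem_eq_zero z
  · refine (Measure.integrableOn_of_bounded hfin
      (hF.meas.norm.pow_const 2).aestronglyMeasurable (M := C ^ 2)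
      (Filter.Eventually.of_forall fun ξ => ?_)).integrable_of_forall_notMem_eq_zero ?_
    · rw [Real.norm_eq_abs, abs_of_nonneg (by positivity)]
      exact pow_le_pow_left₀ (norm_nonneg _) (hC ξ) 2
    · intro ζ hζ
      rw [z ζ hζ]; simp

lemma broad_cells {N : ℕ} {ind : E 3 → Fin N} (hm : Measurable ind) {g : E 3 → ℝ}
    (hg : Integrable g) (S : Fin N → Prop) [DecidablePred S] :
    ∫ ζ, (ind ⁻¹' {c | S c}).indicator g ζ = ∑ c, if S c then ∫ ζ in ind ⁻¹' {c}, g ζ else 0 := by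
  have hc : ∀ c : Fin N, MeasurableSet (ind ⁻¹' {c}) := fun c => hm (MeasurableSet.singleton c)
  have h1 : ∀ c : Fin N, (if S c then ∫ ζ in ind ⁻¹' {c}, g ζ else 0) =
      ∫ ζ, (if S c then (ind ⁻¹' {c}).indicator g ζ else 0) := by
    intro c
    by_cases h : S c
    · simp only [h, if_true]
      rw [integral_indicator (hc c)]
    · simp only [h, if_false, integral_zero]
  rw [Finset.sum_congr rfl fun c _ => h1 c, ← integral_finsetSum]
  · refine integral_congr_ae (Filter.Eventually.of_forall fun ζ => ?_)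
    simp only
    rw [Finset.sum_eq_single (ind ζ)]
    · by_cases h : S (ind ζ)
      · rw [if_pos h, Set.indicator_of_mem (by exact h), Set.indicator_of_mem (by simp)]
      · rw [if_neg h, Set.indicator_of_notMem (by exact h)]
    · intro c _ hne
      rw [Set.indicator_of_notMem (by simpa using hne.symm), ite_self]
    · intro h
      exact absurd (Finset.mem_univ _) h
  · intro c _
    by_cases h : S c
    · simp only [h, if_true]
      exact hg.indicator (hc c)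
    · simp only [h, if_false]
      exact integrable_zero _ _ _

lemma broad_total {N : ℕ} {ind : E 3 → Fin N} (hm : Measurable ind) {g : E 3 → ℝ}
    (hg : Integrable g) : ∫ ζ, g ζ = ∑ c, ∫ ζ in ind ⁻¹' {c}, g ζ := by
  have h := broad_cells hm hg (fun _ => True)
  simpa using h

lemma broad_ind_sq (F : E 3 → ℂ) (S : Set (E 3)) (ζ : E 3) :
    ‖S.indicator F ζ‖ ^ 2 = S.indicator (fun ζ => ‖F ζ‖ ^ 2) ζ := by
  by_cases h : ζ ∈ S
  · rw [Set.indicator_of_mem h, Set.indicator_of_mem h]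
  · rw [Set.indicator_of_notMem h, Set.indicator_of_notMem h]; simp

lemma broad_ind_le {F : E 3 → ℂ} (hF : Integrable (fun ζ => ‖F ζ‖ ^ 2)) {S : Set (E 3)}
    (hS : MeasurableSet S) : ∫ ζ, ‖S.indicator F ζ‖ ^ 2 ≤ ∫ ζ, ‖F ζ‖ ^ 2 := by
  simp only [broad_ind_sq]
  refine integral_mono (hF.indicator hS) hF fun ζ => ?_
  exact Set.indicator_le_self' (fun _ _ => by positivity) ζ

lemma broad_norm {δ ε : ℝ} (hδ : δ ≤ 1) {e ζ : E 3} (he : ‖e‖ = 1) (h : ζ ∈ Nb e ε (δ / 20)) :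
    ‖ζ‖ ≤ 21 / 20 := by
  have h1 := norm_le_insert' ζ e
  have h2 := h.2
  linarith

lemma broad_center {δ ε θ : ℝ} (hδ : δ ≤ 1) (hθδ : θ ≤ δ / 20) {e : E 3} (he : ‖e‖ = 1)
    {F : E 3 → ℂ} (z : ∀ ζ, ζ ∉ Nb e ε (δ / 20) → F ζ = 0) {N : ℕ} {ind : E 3 → Fin N}
    {p : Fin N → E 3} (hg : Grid θ ind p) {a : Fin N}
    (ha : 0 < ∫ ζ in ind ⁻¹' {a}, ‖F ζ‖ ^ 2) : ‖p a - e‖ ≤ δ / 10 := by
  by_contra hn
  refine ha.ne' (setIntegral_eq_zero_of_forall_eq_zero fun ζ hζ => ?_)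
  have hζa : ind ζ = a := hζ
  rw [z ζ fun hm => hn ?_]
  · simp
  · have h1 := hg.near ζ ((broad_norm hδ he hm).trans (by norm_num))
    rw [hζa, norm_sub_rev] at h1
    have h2 := norm_sub_le_norm_sub_add_norm_sub (p a) ζ e
    have h3 := hm.2
    linarith

lemma broad_min {N : ℕ} (p : Fin N → E 3) (w : ℝ) {m1 m2 : Fin N → ℝ} (n1 : ∀ a, 0 ≤ m1 a)
    (n2 : ∀ a, 0 ≤ m2 a) (h1 : ∑ a, m1 a ≠ 0) (h2 : ∑ a, m2 a ≠ 0) :
    ∃ a b, 0 < m1 a ∧ 0 < m2 b ∧ (∑ a, m1 a) * (∑ a, m2 a) *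
      (∑ c, if w < |det3 (p a) (p b) (p c)| then m1 c else 0) ≤ Tri p w m1 m2 := by
  obtain ⟨a0, -, ha0⟩ := Finset.exists_ne_zero_of_sum_ne_zero h1
  obtain ⟨b0, -, hb0⟩ := Finset.exists_ne_zero_of_sum_ne_zero h2
  obtain ⟨q, hq, hmin⟩ := Finset.exists_min_image
    (Finset.univ.filter fun q : Fin N × Fin N => 0 < m1 q.1 ∧ 0 < m2 q.2)
    (fun q => ∑ c, if w < |det3 (p q.1) (p q.2) (p c)| then m1 c else 0)
    ⟨(a0, b0), Finset.mem_filter.2 ⟨Finset.mem_univ _,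
      lt_of_le_of_ne (n1 a0) ha0.symm, lt_of_le_of_ne (n2 b0) hb0.symm⟩⟩
  have hq' := (Finset.mem_filter.1 hq).2
  refine ⟨q.1, q.2, hq'.1, hq'.2, ?_⟩
  rw [Finset.sum_mul_sum, Finset.sum_mul, Tri]
  refine Finset.sum_le_sum fun a _ => ?_
  rw [Finset.sum_mul]
  refine Finset.sum_le_sum fun b _ => ?_
  have e : (∑ c, if w < |det3 (p a) (p b) (p c)| then m1 a * m2 b * m1 c else 0) =
      m1 a * m2 b * ∑ c, if w < |det3 (p a) (p b) (p c)| then m1 c else 0 := by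
    rw [Finset.mul_sum]
    refine Finset.sum_congr rfl fun c _ => ?_
    split_ifs <;> simp
  rw [e]
  rcases (n1 a).eq_or_lt with ha | ha
  · rw [← ha]; simp
  rcases (n2 b).eq_or_lt with hb | hb
  · rw [← hb]; simp
  exact mul_le_mul_of_nonneg_left
    (hmin (a, b) (Finset.mem_filter.2 ⟨Finset.mem_univ _, ha, hb⟩)) (by positivity)

lemma broad_Tri_nonneg {N : ℕ} (p : Fin N → E 3) (w : ℝ) {m1 m2 : Fin N → ℝ} (n1 : ∀ a, 0 ≤ m1 a)
    (n2 : ∀ a, 0 ≤ m2 a) : 0 ≤ Tri p w m1 m2 := by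
  refine Finset.sum_nonneg fun a _ => Finset.sum_nonneg fun b _ => Finset.sum_nonneg fun c _ => ?_
  split_ifs
  · exact mul_nonneg (mul_nonneg (n1 a) (n2 b)) (n1 c)
  · exact le_rfl

lemma broad_root {J X : ℝ} (hJ : 0 ≤ J) (h : J ^ 4 ≤ X) : J ≤ X ^ (1 / 4 : ℝ) := by
  have h1 : (J ^ 4) ^ (1 / 4 : ℝ) = J := by
    have := Real.pow_rpow_inv_natCast hJ (n := 4) (by norm_num)
    rw [show (1 / 4 : ℝ) = ((4 : ℕ) : ℝ)⁻¹ by norm_num]
    exact this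
  rw [← h1]
  exact Real.rpow_le_rpow (by positivity) h (by norm_num)

/-- Narrow and broad parts. -/
theorem JJ_broad {δ : ℝ} {e1 e2 : E 3} (he : Tv δ e1 e2) {K : E 3 → ℝ} (hK : Wt K) {W : ℝ}
    (hW : ∫ x, K x ≤ W) {F1 F2 : E 3 → ℂ} (h1 : Amp F1) (h2 : Amp F2) {ε θ w : ℝ} (hε : 0 < ε)
    (hε1 : ε ≤ 1 / 2) (hεw : ε ≤ w) (hθ : 0 < θ) (hθw : 4 * θ ≤ w) (hθδ : θ ≤ δ / 20)
    (z1 : ∀ ζ, ζ ∉ Nb e1 ε (δ / 20) → F1 ζ = 0) (z2 : ∀ ζ, ζ ∉ Nb e2 ε (δ / 20) → F2 ζ = 0)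
    {N : ℕ} {ind : E 3 → Fin N} {p : Fin N → E 3} (hg : Grid θ ind p) :
    JJ K F1 F2 ≤ √(26000 / δ ^ 3 * ε ^ 2 * w * W * (∫ ζ, ‖F1 ζ‖ ^ 2) * ∫ ζ, ‖F2 ζ‖ ^ 2) +
      (130000 / δ ^ 3 * ε ^ 2 * W * (∫ ζ, ‖F2 ζ‖ ^ 2) *
        Tri p w (fun a => ∫ ζ in ind ⁻¹' {a}, ‖F1 ζ‖ ^ 2)
          (fun a => ∫ ζ in ind ⁻¹' {a}, ‖F2 ζ‖ ^ 2)) ^ (1 / 4 : ℝ) := by
  have hδ := he.pos
  have hδ1 : δ ≤ 1 := he.lo.trans he.hi
  have hw : 0 < w := by linarith
  have hW0 : 0 ≤ W := (integral_nonneg hK.nonneg).trans hW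
  obtain ⟨i1, i1'⟩ := broad_intg h1 (broad_bdd _ _ _) z1
  obtain ⟨i2, i2'⟩ := broad_intg h2 (broad_bdd _ _ _) z2
  have n1 : ∀ a, 0 ≤ ∫ ζ in ind ⁻¹' {a}, ‖F1 ζ‖ ^ 2 := fun a =>
    integral_nonneg fun ζ => by positivity
  have n2 : ∀ a, 0 ≤ ∫ ζ in ind ⁻¹' {a}, ‖F2 ζ‖ ^ 2 := fun a =>
    integral_nonneg fun ζ => by positivity
  have hT0 := broad_Tri_nonneg p w n1 n2
  have hM1 : 0 ≤ ∫ ζ, ‖F1 ζ‖ ^ 2 := integral_nonneg fun ζ => by positivity
  have hM2 : 0 ≤ ∫ ζ, ‖F2 ζ‖ ^ 2 := integral_nonneg fun ζ => by positivity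
  by_cases h0 : (∫ ζ, ‖F1 ζ‖ ^ 2) * ∫ ζ, ‖F2 ζ‖ ^ 2 = 0
  · have h := JJ_le hK i1 i1' i2 i2'
    rw [h0, Real.sqrt_zero] at h
    exact h.trans (add_nonneg (Real.sqrt_nonneg _) (Real.rpow_nonneg (by positivity) _))
  have t1 := broad_total hg.meas i1'
  have t2 := broad_total hg.meas i2'
  obtain ⟨a, b, ha, hb, hab⟩ := broad_min p w n1 n2 (t1 ▸ left_ne_zero_of_mul h0)
    (t2 ▸ right_ne_zero_of_mul h0)
  rw [← t1, ← t2] at hab
  have ca := broad_center hδ1 hθδ he.n1 z1 hg ha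
  have cb := broad_center hδ1 hθδ he.n2 z2 hg hb
  have na : ‖p a‖ ≤ 11 / 10 := by
    have := norm_le_insert' (p a) e1
    have := he.n1
    linarith
  have nb : ‖p b‖ ≤ 11 / 10 := by
    have := norm_le_insert' (p b) e2
    have := he.n2
    linarith
  have nab : ‖p a‖ * ‖p b‖ ≤ 2 :=
    (mul_le_mul na nb (norm_nonneg _) (by norm_num)).trans (by norm_num)
  obtain ⟨S, hS⟩ : ∃ S : Set (E 3), S = ind ⁻¹' {c | w < |det3 (p a) (p b) (p c)|} := ⟨_, rfl⟩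
  have mS : MeasurableSet S := by rw [hS]; exact hg.meas MeasurableSet.of_discrete
  have hdet : Continuous fun ζ : E 3 => |det3 (p a) (p b) ζ| := by
    unfold det3; fun_prop
  have mN : ∀ L : ℝ, MeasurableSet {ζ : E 3 | ζ ∈ Nb e1 ε (δ / 20) ∧ |det3 (p a) (p b) ζ| ≤ L} :=
    fun L => (measurableSet_Nb _ _ _).inter (isClosed_le hdet continuous_const).measurableSet
  have bN : ∀ L : ℝ,
      Bornology.IsBounded {ζ : E 3 | ζ ∈ Nb e1 ε (δ / 20) ∧ |det3 (p a) (p b) ζ| ≤ L} :=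
    fun L => (broad_bdd e1 ε (δ / 20)).subset fun ζ hζ => hζ.1
  have split : JJ K F1 F2 ≤ JJ K (Sᶜ.indicator F1) F2 + JJ K (S.indicator F1) F2 := by
    have h := JJ_add_left hK (i1.indicator mS.compl) (i1.indicator mS) i2
    have e : (fun ζ => Sᶜ.indicator F1 ζ + S.indicator F1 ζ) = F1 := by
      funext ζ
      rw [add_comm]
      exact Set.indicator_self_add_compl_apply S F1 ζ
    rwa [e] at h
  refine split.trans (add_le_add ?_ ?_)
  · have hz : ∀ ζ, ζ ∉ {ζ : E 3 | ζ ∈ Nb e1 ε (δ / 20) ∧ |det3 (p a) (p b) ζ| ≤ 2 * w} →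
        Sᶜ.indicator F1 ζ = 0 := by
      intro ζ hζ
      by_cases hs : ζ ∈ Sᶜ
      · rw [Set.indicator_of_mem hs]
        refine z1 ζ fun hm => hζ ⟨hm, ?_⟩
        have k1 : |det3 (p a) (p b) (p (ind ζ))| ≤ w := by
          rw [hS] at hs
          exact not_lt.1 hs
        have k2 := hg.near ζ ((broad_norm hδ1 he.n1 hm).trans (by norm_num))
        have k3 := abs_det3_le (p a) (p b) (ζ - p (ind ζ))
        have k4 : ‖p a‖ * ‖p b‖ * ‖ζ - p (ind ζ)‖ ≤ 2 * θ :=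
          mul_le_mul nab k2 (norm_nonneg _) (by norm_num)
        rw [det3_sub3] at k3
        have k5 := abs_sub_abs_le_abs_sub (det3 (p a) (p b) ζ) (det3 (p a) (p b) (p (ind ζ)))
        linarith
      · exact Set.indicator_of_notMem hs _
    have h := JJ_conv hK hW (h1.indicator mS.compl) h2 (mN (2 * w)) (measurableSet_Nb _ _ _)
      (bN _) (broad_bdd _ _ _) hz z2 (α := 13000 * (2 * w) * ε ^ 2 / δ ^ 3) (by positivity)
      (fun z => geo_vol he hε (by linarith) hε1 ca cb z)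
    refine h.trans (Real.sqrt_le_sqrt ?_)
    have k := broad_ind_le i1' mS.compl
    refine mul_le_mul_of_nonneg_right ?_ hM2
    have e : W * (13000 * (2 * w) * ε ^ 2 / δ ^ 3) = 26000 / δ ^ 3 * ε ^ 2 * w * W := by ring
    rw [e]
    exact mul_le_mul_of_nonneg_left k (by positivity)
  · have hz0 : ∀ ζ, ζ ∉ Nb e1 ε (δ / 20) → S.indicator F1 ζ = 0 := by
      intro ζ hζ
      by_cases hs : ζ ∈ S
      · rw [Set.indicator_of_mem hs]; exact z1 ζ hζ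
      · exact Set.indicator_of_notMem hs _
    have hz : ∀ ζ, ζ ∉ {ζ : E 3 | ζ ∈ Nb e1 ε (δ / 20) ∧ |det3 (p a) (p b) ζ| ≤ 10} →
        S.indicator F1 ζ = 0 := by
      intro ζ hζ
      refine hz0 ζ fun hm => hζ ⟨hm, ?_⟩
      have k1 := abs_det3_le (p a) (p b) ζ
      have k2 : ‖p a‖ * ‖p b‖ * ‖ζ‖ ≤ 2 * (21 / 20) :=
        mul_le_mul nab (broad_norm hδ1 he.n1 hm) (norm_nonneg _) (by norm_num)
      linarith
    obtain ⟨j1, j1'⟩ := broad_intg (h1.indicator mS) (broad_bdd _ _ _) hz0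
    have hA := JJ_conv hK hW (h1.indicator mS) h2 (mN 10) (measurableSet_Nb _ _ _)
      (bN _) (broad_bdd _ _ _) hz z2 (α := 13000 * 10 * ε ^ 2 / δ ^ 3) (by positivity)
      (fun z => geo_vol he hε (by linarith) hε1 ca cb z)
    have hB := JJ_le hK j1 j1' i2 i2'
    have k := broad_ind_le i1' mS
    have ho : ∫ ζ, ‖S.indicator F1 ζ‖ ^ 2 = ∑ c, if w < |det3 (p a) (p b) (p c)| then
        ∫ ζ in ind ⁻¹' {c}, ‖F1 ζ‖ ^ 2 else 0 := by
      simp only [broad_ind_sq]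
      rw [hS]
      exact broad_cells hg.meas i1' _
    rw [← ho] at hab
    have hJ : 0 ≤ JJ K (S.indicator F1) F2 := integral_nonneg fun x =>
      mul_nonneg (mul_nonneg (hK.nonneg x) (norm_nonneg _)) (norm_nonneg _)
    have ho0 : 0 ≤ ∫ ζ, ‖S.indicator F1 ζ‖ ^ 2 := integral_nonneg fun ζ => by positivity
    generalize ∫ ζ, ‖S.indicator F1 ζ‖ ^ 2 = o at *
    generalize JJ K (S.indicator F1) F2 = J at *
    generalize Tri p w (fun a => ∫ ζ in ind ⁻¹' {a}, ‖F1 ζ‖ ^ 2)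
      (fun a => ∫ ζ in ind ⁻¹' {a}, ‖F2 ζ‖ ^ 2) = T at *
    generalize ∫ ζ, ‖F1 ζ‖ ^ 2 = M1 at *
    generalize ∫ ζ, ‖F2 ζ‖ ^ 2 = M2 at *
    have hA' := (Real.le_sqrt hJ (by positivity)).1 hA
    have hB' := (Real.le_sqrt hJ (by positivity)).1 hB
    have hB2 : J ^ 2 ≤ M1 * M2 := hB'.trans (mul_le_mul_of_nonneg_right k hM2)
    refine broad_root hJ ?_
    calc J ^ 4 = J ^ 2 * J ^ 2 := by ring
      _ ≤ (M1 * M2) * (W * (13000 * 10 * ε ^ 2 / δ ^ 3) * o * M2) :=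
          mul_le_mul hB2 hA' (by positivity) (by positivity)
      _ = 130000 / δ ^ 3 * ε ^ 2 * W * M2 * (M1 * M2 * o) := by ring
      _ ≤ _ := mul_le_mul_of_nonneg_left hab (by positivity)

end Pool.Agent.P.MP_f791b6_an
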