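import Pool.Agent.P.MP_f791b6_an.N3TriInt

namespace Pool.Agent.P.MP_f791b6_an

open MeasureTheory Complex Metric
open scoped ComplexConjugate Real RealInnerProductSpace ENNReal

lemma broadInt_holder {A B Z : E 3 → ℝ≥0∞} (hA : Measurable A) (hB : Measurable B)
    (hZ : Measurable Z) : ∫⁻ x, A x ^ (1 / 4 : ℝ) * B x ^ (1 / 4 : ℝ) * Z x ^ (1 / 2 : ℝ) ≤
      (∫⁻ x, A x) ^ (1 / 4 : ℝ) * (∫⁻ x, B x) ^ (1 / 4 : ℝ) * (∫⁻ x, Z x) ^ (1 / 2 : ℝ) := by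
  have e : ∀ a b : ℝ≥0∞, (a ^ (1 / 2 : ℝ) * b ^ (1 / 2 : ℝ)) ^ (1 / 2 : ℝ) =
      a ^ (1 / 4 : ℝ) * b ^ (1 / 4 : ℝ) := fun a b => by
    rw [ENNReal.mul_rpow_of_nonneg _ _ (by norm_num), ← ENNReal.rpow_mul, ← ENNReal.rpow_mul]
    norm_num
  have h1 := ENNReal.lintegral_mul_norm_pow_le (μ := volume) hA.aemeasurable hB.aemeasurable
    (p := 1 / 2) (q := 1 / 2) (by norm_num) (by norm_num) (by norm_num)
  have h2 := ENNReal.lintegral_mul_norm_pow_le (μ := volume)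
    (f := fun x => A x ^ (1 / 2 : ℝ) * B x ^ (1 / 2 : ℝ))
    ((hA.pow_const _).mul (hB.pow_const _)).aemeasurable hZ.aemeasurable
    (p := 1 / 2) (q := 1 / 2) (by norm_num) (by norm_num) (by norm_num)
  simp only [e] at h2
  refine h2.trans ?_
  rw [← e]
  gcongr

lemma broadInt_pt {s W M R : ℝ} (hW : 0 ≤ W) (hM : 0 ≤ M) (hR : 0 ≤ R) :
    Real.exp (-(π / 2) * s ^ 2) * (W * M * R) ^ (1 / 4 : ℝ) ≤
      2 * (W ^ (1 / 4 : ℝ) * (Real.exp (-s ^ 2) * M) ^ (1 / 4 : ℝ) *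
        (Real.exp (-s) * √(Real.exp (-s ^ 2) ^ 3 * R)) ^ (1 / 2 : ℝ)) := by
  have h1 : Real.exp (-(π / 2) * s ^ 2) ≤ 2 * (Real.exp (-s ^ 2) * Real.exp (-s / 2)) := by
    rw [← Real.exp_add, ← Real.exp_log (show (0 : ℝ) < 2 by norm_num), ← Real.exp_add,
      Real.exp_log (show (0 : ℝ) < 2 by norm_num), Real.exp_le_exp]
    nlinarith [Real.log_two_gt_d9, Real.pi_gt_three, sq_nonneg (s - 1 / 2), sq_nonneg s]
  have h2 : W ^ (1 / 4 : ℝ) * (Real.exp (-s ^ 2) * M) ^ (1 / 4 : ℝ) *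
      (Real.exp (-s) * √(Real.exp (-s ^ 2) ^ 3 * R)) ^ (1 / 2 : ℝ) =
      Real.exp (-s ^ 2) * Real.exp (-s / 2) * (W * M * R) ^ (1 / 4 : ℝ) := by
    have a1 : Real.exp (-s ^ 2) ^ (1 / 4 : ℝ) * (Real.exp (-s ^ 2) ^ 3) ^ (1 / 4 : ℝ) =
        Real.exp (-s ^ 2) := by
      rw [← Real.exp_nat_mul, ← Real.exp_mul, ← Real.exp_mul, ← Real.exp_add]
      congr 1
      push_cast
      ring
    have a2 : Real.exp (-s) ^ (1 / 2 : ℝ) = Real.exp (-s / 2) := by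
      rw [← Real.exp_mul]; congr 1; ring
    rw [Real.mul_rpow (Real.exp_pos _).le hM, Real.mul_rpow (Real.exp_pos _).le (Real.sqrt_nonneg _),
      Real.sqrt_eq_rpow, ← Real.rpow_mul (by positivity), show (1 / 2 * (1 / 2) : ℝ) = 1 / 4 by norm_num,
      Real.mul_rpow (by positivity) hR, Real.mul_rpow (by positivity) hR, Real.mul_rpow hW hM, a2]
    calc _ = Real.exp (-s ^ 2) ^ (1 / 4 : ℝ) * (Real.exp (-s ^ 2) ^ 3) ^ (1 / 4 : ℝ) *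
          Real.exp (-s / 2) * (W ^ (1 / 4 : ℝ) * M ^ (1 / 4 : ℝ) * R ^ (1 / 4 : ℝ)) := by ring
      _ = _ := by rw [a1]
  rw [h2, ← mul_assoc]
  exact mul_le_mul_of_nonneg_right h1 (by positivity)

lemma broadInt_mass {f : E 3 → ℂ} (hf : Amp f) (τ : Set (E 3)) {ρ T : ℝ} (hρ : 0 < ρ)
    (hT : 0 < T) : ∫⁻ x, ENNReal.ofReal (Real.exp (-(‖x‖ / T) ^ 2) * Mc f ρ τ x) ≤
      ENNReal.ofReal (2 * T * ρ ^ 3 * nsq f) := by
  have hπ : 0 < √π := Real.sqrt_pos.2 Real.pi_pos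
  have h1 := hf.hus_mass hρ (b := π * ρ ^ 2) (by nlinarith [Real.pi_pos, sq_nonneg ρ])
    (T := √π * T) (by positivity)
  calc ∫⁻ x, ENNReal.ofReal (Real.exp (-(‖x‖ / T) ^ 2) * Mc f ρ τ x)
      ≤ ∫⁻ x, ENNReal.ofReal (ρ ^ 6) * (ENNReal.ofReal (gw (√π * T) x) *
          ∫⁻ ζ, ENNReal.ofReal (Hus f (π * ρ ^ 2) ζ x)) := by
        refine lintegral_mono fun x => ?_
        have e : gw (√π * T) x = Real.exp (-(‖x‖ / T) ^ 2) := by
          rw [gw, mul_pow, Real.sq_sqrt Real.pi_pos.le]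
          congr 1
          field_simp
        rw [e, ENNReal.ofReal_mul (Real.exp_pos _).le, mul_left_comm,
          ← lintegral_const_mul' _ _ ENNReal.ofReal_ne_top]
        gcongr
        refine (Real.ofReal_le_enorm _).trans ((enorm_integral_le_lintegral_enorm _).trans
          ((lintegral_mono' Measure.restrict_le_self le_rfl).trans (lintegral_mono fun ζ => ?_)))
        rw [Real.enorm_eq_ofReal (mul_nonneg (by positivity) (Hus_nonneg _ _ _ _)),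
          ENNReal.ofReal_mul (by positivity)]
    _ = ENNReal.ofReal (ρ ^ 6) * ∫⁻ x, ENNReal.ofReal (gw (√π * T) x) *
          ∫⁻ ζ, ENNReal.ofReal (Hus f (π * ρ ^ 2) ζ x) :=
        lintegral_const_mul' _ _ ENNReal.ofReal_ne_top
    _ ≤ ENNReal.ofReal (ρ ^ 6) * ENNReal.ofReal (√π * T / ρ ^ 3 * nsq f) := by gcongr
    _ ≤ _ := by
        rw [← ENNReal.ofReal_mul (by positivity)]
        refine ENNReal.ofReal_le_ofReal ?_
        have h2 : √π ≤ 2 := Real.sqrt_le_iff.2 ⟨by norm_num, by nlinarith [Real.pi_le_four]⟩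
        have h3 := nsq_nonneg f
        calc ρ ^ 6 * (√π * T / ρ ^ 3 * nsq f) = √π * (T * ρ ^ 3 * nsq f) := by field_simp
          _ ≤ 2 * (T * ρ ^ 3 * nsq f) := by gcongr
          _ = _ := by ring

lemma broadInt_num {w T ρ n1 n2 : ℝ} (hw : 0 < w) (hT : 0 < T) (hρ : 0 < ρ) (h1 : 0 ≤ n1)
    (h2 : 0 ≤ n2) (J : ℕ) : 2 * ((ρ ^ 3 * T ^ 2) ^ (1 / 4 : ℝ) * (2 * T * ρ ^ 3 * n2) ^ (1 / 4 : ℝ) *
      (100000 ^ J * 10 ^ 22 / w ^ 30 * ρ ^ 4 * √ρ * n1 * √n2) ^ (1 / 2 : ℝ)) ≤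
      1000 ^ J * 10 ^ 12 / w ^ 15 * T ^ (3 / 4 : ℝ) * ρ ^ (15 / 4 : ℝ) * √n1 * √n2 := by
  have p4 : ∀ (x : ℝ), 0 ≤ x → ∀ (r : ℝ) (k : ℕ), r * 4 = k → (x ^ r) ^ 4 = x ^ k :=
    fun x hx r k e => by
      rw [← Real.rpow_natCast (x ^ r) 4, ← Real.rpow_mul hx, ← Real.rpow_natCast, ← e]
      norm_num
  have s4 : ∀ x : ℝ, 0 ≤ x → √x ^ 4 = x ^ 2 := fun x hx => by
    rw [show 4 = 2 * 2 from rfl, pow_mul, Real.sq_sqrt hx]
  refine le_of_pow_le_pow_left₀ (n := 4) (by norm_num) (by positivity) ?_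
  have hJ : ((100000 : ℝ) ^ J) ^ 2 ≤ (1000 ^ J) ^ 4 := by
    rw [← pow_mul, ← pow_mul, mul_comm J, mul_comm J, pow_mul, pow_mul]
    exact pow_le_pow_left₀ (by norm_num) (by norm_num) J
  simp only [mul_pow (_ : ℝ) _ 4]
  rw [p4 _ (by positivity) _ 1 (by norm_num), p4 _ (by positivity) _ 1 (by norm_num),
    p4 _ (by positivity) _ 2 (by norm_num), p4 _ hT.le _ 3 (by norm_num),
    p4 _ hρ.le _ 15 (by norm_num), s4 _ h1, s4 _ h2]
  simp only [mul_pow (_ : ℝ) _ 2, Real.sq_sqrt hρ.le, Real.sq_sqrt h2]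
  calc _ = (100000 ^ J) ^ 2 * (32 * 10 ^ 44) * (T ^ 3 * ρ ^ 15 * n1 ^ 2 * n2 ^ 2 / w ^ 60) := by
        field_simp
        ring
    _ ≤ (1000 ^ J) ^ 4 * 10 ^ 48 * (T ^ 3 * ρ ^ 15 * n1 ^ 2 * n2 ^ 2 / w ^ 60) := by
        gcongr
        norm_num
    _ = _ := by field_simp

/-- The broad part, integrated over the centres. -/
theorem broad_int {f1 f2 : E 3 → ℂ} (h1 : Amp f1) (h2 : Amp f2) {N1 N2 : Set (E 3)}
    (m1 : MeasurableSet N1) (m2 : MeasurableSet N2) (s1 : ∀ ζ ∈ N1, 1 / 2 ≤ ‖ζ‖ ∧ ‖ζ‖ ≤ 2)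
    (s2 : ∀ ζ ∈ N2, 1 / 2 ≤ ‖ζ‖ ∧ ‖ζ‖ ≤ 2) {w T : ℝ} (hw : 0 < w) (hw1 : w ≤ 1 / 100) (hT : 0 < T)
    (J : ℕ) (hρ : T ≤ (w ^ J * T) ^ 2) {N : ℕ} {ind : E 3 → Fin N} {p : Fin N → E 3}
    (hg : Grid (w ^ 3) ind p) {H : E 3 → ℝ} (hH : Wt H) (hW : ∫ x, H x ≤ T ^ 2) :
    ∫⁻ x0, ENNReal.ofReal (Real.exp (-(π / 2) * ‖x0‖ ^ 2 / T ^ 2) *
        (W0 H (w ^ J * T) x0 * Mc f2 (w ^ J * T) N2 x0 *
          Tri p w (fun a => Mc f1 (w ^ J * T) (ind ⁻¹' {a} ∩ N1) x0)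
            (fun a => Mc f2 (w ^ J * T) (ind ⁻¹' {a} ∩ N2) x0)) ^ (1 / 4 : ℝ)) ≤
      ENNReal.ofReal (1000 ^ J * 10 ^ 12 / w ^ 15 * T ^ (3 / 4 : ℝ) * (w ^ J * T) ^ (15 / 4 : ℝ) *
        √(nsq f1) * √(nsq f2)) := by
  have hρ0 : 0 < w ^ J * T := by positivity
  obtain ⟨Z, hZ, hZ1, hZ2⟩ := tri_int h1 h2 m1 m2 s1 s2 hw hw1 hT J hρ hg
  generalize w ^ J * T = ρ at *
  obtain ⟨a1, a2, a3⟩ := hH.w0 hρ0
  have hA : Measurable fun x => ENNReal.ofReal (W0 H ρ x) := a1.ennreal_ofReal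
  have hB : Measurable fun x : E 3 => ENNReal.ofReal (Real.exp (-(‖x‖ / T) ^ 2) * Mc f2 ρ N2 x) :=
    ((by fun_prop : Continuous fun x : E 3 => Real.exp (-(‖x‖ / T) ^ 2)).measurable.mul
      (h2.measurable_Mc ρ N2)).ennreal_ofReal
  have n1 := nsq_nonneg f1
  have n2 := nsq_nonneg f2
  calc _ ≤ ∫⁻ x, 2 * (ENNReal.ofReal (W0 H ρ x) ^ (1 / 4 : ℝ) *
        ENNReal.ofReal (Real.exp (-(‖x‖ / T) ^ 2) * Mc f2 ρ N2 x) ^ (1 / 4 : ℝ) *
        Z x ^ (1 / 2 : ℝ)) := by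
        refine lintegral_mono fun x => ?_
        have hR : 0 ≤ Tri p w (fun a => Mc f1 ρ (ind ⁻¹' {a} ∩ N1) x)
            (fun a => Mc f2 ρ (ind ⁻¹' {a} ∩ N2) x) := by
          refine Finset.sum_nonneg fun a _ => Finset.sum_nonneg fun b _ =>
            Finset.sum_nonneg fun c _ => ?_
          split_ifs
          · exact mul_nonneg (mul_nonneg (Mc_nonneg _ _ _ _) (Mc_nonneg _ _ _ _))
              (Mc_nonneg _ _ _ _)
          · exact le_rfl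
        have hM := Mc_nonneg f2 ρ N2 x
        have hW0 := a2 x
        have k := broadInt_pt (s := ‖x‖ / T) hW0 hM hR
        have k2 := hZ1 x
        rw [neg_div T, neg_div (T ^ 2), ← div_pow] at k2
        rw [mul_div_assoc, ← div_pow]
        refine (ENNReal.ofReal_le_ofReal k).trans ?_
        rw [ENNReal.ofReal_mul (by norm_num), ENNReal.ofReal_mul (by positivity),
          ENNReal.ofReal_mul (by positivity), ← ENNReal.ofReal_rpow_of_nonneg hW0 (by norm_num),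
          ← ENNReal.ofReal_rpow_of_nonneg (by positivity) (by norm_num),
          ← ENNReal.ofReal_rpow_of_nonneg (by positivity) (by norm_num), ENNReal.ofReal_ofNat]
        gcongr
    _ ≤ 2 * ((∫⁻ x, ENNReal.ofReal (W0 H ρ x)) ^ (1 / 4 : ℝ) *
        (∫⁻ x, ENNReal.ofReal (Real.exp (-(‖x‖ / T) ^ 2) * Mc f2 ρ N2 x)) ^ (1 / 4 : ℝ) *
        (∫⁻ x, Z x) ^ (1 / 2 : ℝ)) := by
        rw [lintegral_const_mul' _ _ (by norm_num)]
        gcongr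
        exact broadInt_holder hA hB hZ
    _ ≤ 2 * (ENNReal.ofReal (ρ ^ 3 * T ^ 2) ^ (1 / 4 : ℝ) *
        ENNReal.ofReal (2 * T * ρ ^ 3 * nsq f2) ^ (1 / 4 : ℝ) *
        ENNReal.ofReal (100000 ^ J * 10 ^ 22 / w ^ 30 * ρ ^ 4 * √ρ * nsq f1 * √(nsq f2)) ^
          (1 / 2 : ℝ)) := by
        gcongr
        · rw [a3]
          gcongr
        · exact broadInt_mass h2 N2 hρ0 hT
    _ ≤ _ := by
        rw [ENNReal.ofReal_rpow_of_nonneg (by positivity) (by norm_num),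
          ENNReal.ofReal_rpow_of_nonneg (by positivity) (by norm_num),
          ENNReal.ofReal_rpow_of_nonneg (by positivity) (by norm_num),
          ← ENNReal.ofReal_mul (by positivity), ← ENNReal.ofReal_mul (by positivity),
          ← ENNReal.ofReal_ofNat 2, ← ENNReal.ofReal_mul (by norm_num)]
        exact ENNReal.ofReal_le_ofReal (broadInt_num hw hT hρ0 n1 n2 J)

end Pool.Agent.P.MP_f791b6_an
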