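import Pool.Agent.P.MP_f791b6_an.N3AH

namespace Pool.Agent.P.MP_f791b6_an

open MeasureTheory Complex Metric
open scoped ComplexConjugate Real RealInnerProductSpace ENNReal

open scoped FourierTransform SchwartzMap ContDiff in
lemma cap_inv {u : E 3 → ℂ} (hu : Test u) : ∃ Ψ : E 3 → ℂ, Integrable Ψ ∧
    Integrable (fun y => ‖y‖ * ‖Ψ y‖) ∧ ft Ψ = u := by
  set f := hu.cpt.toSchwartzMap hu.smooth with hf
  refine ⟨(𝓕⁻ f : 𝓢(E 3, ℂ)), (𝓕⁻ f : 𝓢(E 3, ℂ)).integrable, ?_, ?_⟩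
  · simpa using (𝓕⁻ f : 𝓢(E 3, ℂ)).integrable_pow_mul volume 1
  · rw [ft_eq, ← SchwartzMap.fourier_coe, FourierTransform.fourier_fourierInv_eq]
    rfl

lemma cap_frac (x y : E 3) : 2 / (1 + ‖x + y‖) ≤ 2 * (1 + ‖y‖) / (1 + ‖x‖) := by
  have h1 : ‖x‖ ≤ ‖x + y‖ + ‖y‖ := by
    simpa using norm_sub_le (x + y) y
  have h2 := norm_nonneg (x + y)
  have h3 := norm_nonneg y
  rw [div_le_div_iff₀ (by positivity) (by positivity)]
  nlinarith [mul_nonneg h2 h3]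

lemma cap_bound {Ψ : E 3 → ℂ} (h1 : Integrable Ψ) (h2 : Integrable fun y => ‖y‖ * ‖Ψ y‖)
    (e x : E 3) : ‖∫ ξ, ft Ψ (ξ - e) * conj (ew ξ x) ∂sig‖ ≤
      (2 * ∫ y, (‖Ψ y‖ + ‖y‖ * ‖Ψ y‖)) / (1 + ‖x‖) := by
  have e1 : ∀ ξ, ft Ψ (ξ - e) * conj (ew ξ x) =
      ∫ y, ew e y * conj (ew ξ (x + y)) * Ψ y := by
    intro ξ
    rw [ft, ← integral_mul_const]
    refine integral_congr_ae (Filter.Eventually.of_forall fun y => ?_)
    simp only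
    rw [ew_comm ξ (x + y), ew_add, map_mul, ew_comm x ξ, ew_comm y ξ, conj_ew (ξ - e), neg_sub,
      sub_eq_add_neg, ew_add, ← conj_ew ξ y]
    ring
  have hi : Integrable (Function.uncurry fun ξ y : E 3 => ew e y * conj (ew ξ (x + y)) * Ψ y)
      (sig.prod volume) := by
    refine (h1.comp_snd sig).bdd_mul (c := 1)
      (f := fun p : E 3 × E 3 => ew e p.2 * conj (ew p.1 (x + p.2)))
      (Continuous.aestronglyMeasurable (by fun_prop)) (Filter.Eventually.of_forall fun p => ?_)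
    simp
  simp only [e1]
  rw [integral_integral_swap hi, mul_comm 2, mul_div_assoc, ← integral_mul_const]
  refine norm_integral_le_of_norm_le ((h1.norm.add h2).mul_const _)
    (Filter.Eventually.of_forall fun y => ?_)
  rw [integral_mul_const, integral_const_mul, norm_mul, norm_mul, norm_ew, one_mul]
  calc _ ≤ 2 * (1 + ‖y‖) / (1 + ‖x‖) * ‖Ψ y‖ :=
        mul_le_mul_of_nonneg_right ((sig_decay _).trans (cap_frac x y)) (norm_nonneg _)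
    _ = _ := by ring

/-- Smooth cap weights with a decaying Fourier transform. -/
theorem exists_cap {r : ℝ} (hr : 0 < r) : ∃ D : ℝ, 0 < D ∧ ∀ e : E 3, ∃ ψ : E 3 → ℝ,
    Continuous ψ ∧ (∀ ξ, 0 ≤ ψ ξ) ∧ (∀ ξ, ψ ξ ≤ 1) ∧ (∀ ξ, ‖ξ - e‖ ≤ r → ψ ξ = 1) ∧
    (∀ ξ, 2 * r < ‖ξ - e‖ → ψ ξ = 0) ∧
    ∀ x : E 3, ‖∫ ξ, (ψ ξ : ℂ) * conj (ew ξ x) ∂sig‖ ≤ D / (1 + ‖x‖) := by
  let b : ContDiffBump (0 : E 3) := ⟨r, 2 * r, hr, by linarith⟩
  have hu : Test fun z => ((b z : ℝ) : ℂ) :=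
    ⟨Complex.ofRealCLM.contDiff.comp b.contDiff,
      b.hasCompactSupport.comp_left (g := fun t : ℝ => (t : ℂ)) Complex.ofReal_zero⟩
  obtain ⟨Ψ, h1, h2, h3⟩ := cap_inv hu
  have h0 : 0 ≤ ∫ y, (‖Ψ y‖ + ‖y‖ * ‖Ψ y‖) := integral_nonneg fun y => by positivity
  refine ⟨2 * (∫ y, (‖Ψ y‖ + ‖y‖ * ‖Ψ y‖)) + 1, by positivity, fun e =>
    ⟨fun ξ => b (ξ - e), b.continuous.comp (by fun_prop), fun ξ => b.nonneg, fun ξ => b.le_one,
      fun ξ h => b.one_of_mem_closedBall (mem_closedBall_zero_iff.2 h),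
      fun ξ h => b.zero_of_le_dist (by rw [dist_zero_right]; exact h.le), fun x => ?_⟩⟩
  have h4 := cap_bound h1 h2 e x
  rw [h3] at h4
  refine h4.trans ?_
  gcongr
  linarith

end Pool.Agent.P.MP_f791b6_an
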