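import Pool.Agent.P.MP_f791b6_an.N3Defs

namespace Pool.Agent.P.MP_f791b6_an

open MeasureTheory Complex Metric
open scoped ComplexConjugate Real RealInnerProductSpace ENNReal

lemma cells_unit : ∀ᵐ p ∂(sig.prod sig), ‖p.1‖ = 1 ∧ ‖p.2‖ = 1 :=
  ((Measure.quasiMeasurePreserving_fst (μ := sig) (ν := sig)).ae sig_unit).and
    ((Measure.quasiMeasurePreserving_snd (μ := sig) (ν := sig)).ae sig_unit)

lemma cells_int {f : E 3 → ℝ} (hf : Continuous f) :
    Integrable (fun p : E 3 × E 3 => f (p.1 - p.2)) (sig.prod sig) := by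
  obtain ⟨M, hM⟩ := (isCompact_closedBall (0 : E 3) 2).exists_bound_of_continuousOn hf.continuousOn
  refine Integrable.of_bound (hf.comp (continuous_fst.sub continuous_snd)).aestronglyMeasurable M
    (cells_unit.mono fun p hp => hM _ (mem_closedBall_zero_iff.2 ?_))
  have := norm_sub_le p.1 p.2
  linarith [hp.1, hp.2]

/-- Some pair of small cells carries a fixed fraction of an annulus integral. -/
theorem exists_cells {r : ℝ} (hr : 0 < r) : ∃ C : ℝ, 0 < C ∧ ∀ f : E 3 → ℝ, Continuous f →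
    (∀ z, 0 ≤ f z) → ∀ r1 r2 : ℝ, 4 * r < r1 → r1 ≤ r2 → r2 ≤ 2 →
    0 < ∫ z in closedBall (0 : E 3) r2 \ ball 0 r1, f z →
    ∃ (e1 e2 : E 3) (S1 S2 : Set (E 3)), ‖e1‖ = 1 ∧ ‖e2‖ = 1 ∧ MeasurableSet S1 ∧
      MeasurableSet S2 ∧ Disjoint S1 S2 ∧ (∀ ξ ∈ S1, ‖ξ - e1‖ ≤ r) ∧ (∀ ξ ∈ S2, ‖ξ - e2‖ ≤ r) ∧
      r1 - 2 * r ≤ ‖e1 - e2‖ ∧ ‖e1 - e2‖ ≤ r2 + 2 * r ∧
      ∫ z in closedBall (0 : E 3) r2 \ ball 0 r1, f z ≤
        C * ∫ p in S1 ×ˢ S2, f (p.1 - p.2) ∂(sig.prod sig) := by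
  obtain ⟨N, x, ind, hi, hxK, hx⟩ := exists_round (isCompact_sphere (0 : E 3) 1)
    (NormedSpace.sphere_nonempty.mpr zero_le_one) hr
  have hx1 : ∀ a, ‖x a‖ = 1 := fun a => mem_sphere_zero_iff_norm.mp (hxK a)
  refine ⟨16 * π * ((N + 1 : ℕ) * (N + 1 : ℕ)), by positivity, ?_⟩
  intro f hf hf0 r1 r2 h1 h2 h3 hpos
  set S : Fin (N + 1) → Set (E 3) := fun a => ind ⁻¹' {a} ∩ sphere 0 1 with hS
  have hSm : ∀ a, MeasurableSet (S a) := fun a =>
    (hi (measurableSet_singleton a)).inter isClosed_sphere.measurableSet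
  have hSn : ∀ a, ∀ ξ ∈ S a, ‖ξ - x a‖ ≤ r := fun a ξ hξ => by
    have h4 := hx ξ ξ hξ.2
    rw [dist_self, zero_add, show ind ξ = a from hξ.1] at h4
    exact h4
  set A : Set (E 3 × E 3) := {p | ‖p.1 - p.2‖ ∈ Set.Icc r1 r2} with hA
  have hAm : MeasurableSet A :=
    (measurable_fst.sub measurable_snd).norm measurableSet_Icc
  have hint := cells_int hf
  have hae := cells_unit
  set I : Fin (N + 1) × Fin (N + 1) → ℝ := fun q =>
    ∫ p in A ∩ S q.1 ×ˢ S q.2, f (p.1 - p.2) ∂(sig.prod sig) with hI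
  have hsum : ∫ p in A, f (p.1 - p.2) ∂(sig.prod sig) = ∑ q, I q := by
    have h4 : ∀ q : Fin (N + 1) × Fin (N + 1), MeasurableSet (A ∩ S q.1 ×ˢ S q.2) := fun q =>
      hAm.inter ((hSm _).prod (hSm _))
    simp only [hI, ← integral_indicator (h4 _), ← integral_indicator hAm]
    rw [← integral_finsetSum _ fun q _ => hint.indicator (h4 q)]
    refine integral_congr_ae (hae.mono fun p hp => ?_)
    show A.indicator _ p = ∑ q : Fin (N + 1) × Fin (N + 1), (A ∩ S q.1 ×ˢ S q.2).indicator _ p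
    rw [Finset.sum_eq_single (ind p.1, ind p.2)]
    · by_cases hpA : p ∈ A
      · rw [Set.indicator_of_mem hpA, Set.indicator_of_mem]
        exact ⟨hpA, ⟨rfl, mem_sphere_zero_iff_norm.2 hp.1⟩, ⟨rfl, mem_sphere_zero_iff_norm.2 hp.2⟩⟩
      · rw [Set.indicator_of_notMem hpA, Set.indicator_of_notMem fun h => hpA h.1]
    · intro q _ hq
      refine Set.indicator_of_notMem (fun h => hq ?_) _
      exact Prod.ext (Eq.symm h.2.1.1) (Eq.symm h.2.2.1)
    · intro h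
      exact absurd (Finset.mem_univ _) h
  obtain ⟨q, -, hq⟩ := Finset.exists_max_image Finset.univ I Finset.univ_nonempty
  have hle : ∑ q, I q ≤ ((N + 1 : ℕ) * (N + 1 : ℕ) : ℝ) * I q := by
    have h4 := Finset.sum_le_card_nsmul Finset.univ I (I q) hq
    rw [Finset.card_univ, Fintype.card_prod, Fintype.card_fin, nsmul_eq_mul, Nat.cast_mul] at h4
    exact h4
  have hhs := sig_hs hf hf0 (show 0 < r1 by linarith) h2 h3
  rw [← hA, hsum] at hhs
  have hmain : ∫ z in closedBall (0 : E 3) r2 \ ball 0 r1, f z ≤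
      16 * π * ((N + 1 : ℕ) * (N + 1 : ℕ)) * I q := by
    rw [mul_assoc (16 * π)]
    exact hhs.trans (mul_le_mul_of_nonneg_left hle (by positivity))
  have hne : (A ∩ S q.1 ×ˢ S q.2).Nonempty := by
    rw [Set.nonempty_iff_ne_empty]
    intro h
    have h4 : I q = 0 := by simp only [hI, h, Measure.restrict_empty, integral_zero_measure]
    rw [h4, mul_zero] at hmain
    linarith
  obtain ⟨p, hpA, hp1, hp2⟩ := hne
  have a1 := hSn _ _ hp1
  have a2 := hSn _ _ hp2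
  have b1 : ‖p.1 - p.2‖ ≤ ‖x q.1 - x q.2‖ + 2 * r := by
    have e : p.1 - p.2 = (x q.1 - x q.2) + ((p.1 - x q.1) - (p.2 - x q.2)) := by abel
    have := norm_add_le (x q.1 - x q.2) ((p.1 - x q.1) - (p.2 - x q.2))
    have := norm_sub_le (p.1 - x q.1) (p.2 - x q.2)
    rw [e]; linarith
  have b2 : ‖x q.1 - x q.2‖ ≤ ‖p.1 - p.2‖ + 2 * r := by
    have e : x q.1 - x q.2 = (p.1 - p.2) + ((p.2 - x q.2) - (p.1 - x q.1)) := by abel
    have := norm_add_le (p.1 - p.2) ((p.2 - x q.2) - (p.1 - x q.1))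
    have := norm_sub_le (p.2 - x q.2) (p.1 - x q.1)
    rw [e]; linarith
  have c1 : r1 ≤ ‖p.1 - p.2‖ := hpA.1
  have c2 : ‖p.1 - p.2‖ ≤ r2 := hpA.2
  have hab : q.1 ≠ q.2 := fun h => by
    rw [h, sub_self, norm_zero] at b1
    linarith
  refine ⟨x q.1, x q.2, S q.1, S q.2, hx1 _, hx1 _, hSm _, hSm _, ?_, hSn _, hSn _, by linarith,
    by linarith, hmain.trans (mul_le_mul_of_nonneg_left ?_ (by positivity))⟩
  · exact Set.disjoint_left.2 fun ξ g1 g2 => hab ((Eq.symm g1.1).trans g2.1)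
  · exact setIntegral_mono_set hint.integrableOn (Filter.Eventually.of_forall fun p => hf0 _)
      Set.inter_subset_right.eventuallyLE

end Pool.Agent.P.MP_f791b6_an
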