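import Pool.Agent.P.MP_f791b6_an.N3Defs

namespace Pool.Agent.P.MP_f791b6_an

open MeasureTheory Complex Metric
open scoped ComplexConjugate Real RealInnerProductSpace ENNReal

lemma conv_int_mul {f g : E 3 → ℝ} (mf : AEStronglyMeasurable f volume)
    (mg : AEStronglyMeasurable g volume) (hf : Integrable fun x => f x ^ 2)
    (hg : Integrable fun x => g x ^ 2) : Integrable fun x => f x * g x := by
  refine (hf.add hg).mono' (mf.mul mg) (Filter.Eventually.of_forall fun x => ?_)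
  rw [Real.norm_eq_abs, abs_le, Pi.add_apply]
  constructor
  · nlinarith [sq_nonneg (f x + g x), sq_nonneg (f x), sq_nonneg (g x)]
  · nlinarith [sq_nonneg (f x - g x), sq_nonneg (f x), sq_nonneg (g x)]

lemma conv_cs {f g : E 3 → ℝ} (mf : AEStronglyMeasurable f volume)
    (mg : AEStronglyMeasurable g volume) (hf : Integrable fun x => f x ^ 2)
    (hg : Integrable fun x => g x ^ 2) :
    ∫ x, f x * g x ≤ √((∫ x, f x ^ 2) * ∫ x, g x ^ 2) := by
  have hfg := conv_int_mul mf mg hf hg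
  have key : ∀ t : ℝ, 0 ≤ (∫ x, f x ^ 2) * (t * t) + (-2 * ∫ x, f x * g x) * t + ∫ x, g x ^ 2 := by
    intro t
    have h1 : 0 ≤ ∫ x, (t ^ 2 * f x ^ 2 - 2 * t * (f x * g x) + g x ^ 2) :=
      integral_nonneg fun x => by
        simp only [Pi.zero_apply]; nlinarith [sq_nonneg (t * f x - g x)]
    have i1 : Integrable fun x => t ^ 2 * f x ^ 2 - 2 * t * (f x * g x) :=
      (hf.const_mul _).sub (hfg.const_mul _)
    rw [integral_add i1 hg, integral_sub (hf.const_mul _) (hfg.const_mul _), integral_const_mul,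
      integral_const_mul] at h1
    nlinarith
  have h2 := discrim_le_zero key
  rw [discrim] at h2
  exact Real.le_sqrt_of_sq_le (by nlinarith)

lemma conv_ft_planch {F : E 3 → ℂ} (hF : Integrable F) (hF2 : Integrable (fun ζ => ‖F ζ‖ ^ 2)) :
    Integrable (fun x => ‖ft F x‖ ^ 2) ∧ ∫ x, ‖ft F x‖ ^ 2 ≤ ∫ ζ, ‖F ζ‖ ^ 2 := by
  have hc := continuous_ft hF
  have hM : 0 ≤ ∫ ζ, ‖F ζ‖ ^ 2 := integral_nonneg fun ζ => by positivity
  let u : ℕ → E 3 → ℝ≥0∞ := fun k ξ =>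
    ENNReal.ofReal (Real.exp (-(1 / ((k : ℝ) + 1)) * ‖ξ‖ ^ 2) * ‖ft F ξ‖ ^ 2)
  have hu : ∀ k, Measurable (u k) := fun k =>
    (by fun_prop : Continuous fun ξ : E 3 =>
      Real.exp (-(1 / ((k : ℝ) + 1)) * ‖ξ‖ ^ 2) * ‖ft F ξ‖ ^ 2).measurable.ennreal_ofReal
  have hb : ∀ k, ∫⁻ ξ, u k ξ ≤ ENNReal.ofReal (∫ ζ, ‖F ζ‖ ^ 2) := by
    intro k
    have ha : (0 : ℝ) < 1 / ((k : ℝ) + 1) := by positivity
    rw [← ofReal_integral_eq_lintegral_ofReal (integrable_GI hF ha)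
      (Filter.Eventually.of_forall fun ξ => by positivity)]
    exact ENNReal.ofReal_le_ofReal (GI_le hF hF2 ha)
  have hl : ∀ ξ, Filter.liminf (fun k => u k ξ) Filter.atTop = ENNReal.ofReal (‖ft F ξ‖ ^ 2) := by
    intro ξ
    refine Filter.Tendsto.liminf_eq (ENNReal.tendsto_ofReal ?_)
    have h1 : Filter.Tendsto (fun k : ℕ => 1 / ((k : ℝ) + 1)) Filter.atTop (nhds 0) :=
      tendsto_one_div_add_atTop_nhds_zero_nat
    have h2 : Continuous fun a : ℝ => Real.exp (-a * ‖ξ‖ ^ 2) * ‖ft F ξ‖ ^ 2 := by fun_prop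
    have h3 := (h2.tendsto 0).comp h1
    simpa [Function.comp_def] using h3
  have h4 : ∫⁻ ξ, ENNReal.ofReal (‖ft F ξ‖ ^ 2) ≤ ENNReal.ofReal (∫ ζ, ‖F ζ‖ ^ 2) := by
    simp_rw [← hl]
    exact (lintegral_liminf_le hu).trans
      (Filter.liminf_le_of_frequently_le' (Filter.Frequently.of_forall hb))
  have hi : Integrable fun x => ‖ft F x‖ ^ 2 :=
    (lintegral_ofReal_ne_top_iff_integrable (by fun_prop)
      (Filter.Eventually.of_forall fun ξ => by positivity)).1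
      (ne_top_of_le_ne_top ENNReal.ofReal_ne_top h4)
  refine ⟨hi, ?_⟩
  rw [← ofReal_integral_eq_lintegral_ofReal hi
    (Filter.Eventually.of_forall fun ξ => by positivity)] at h4
  exact (ENNReal.ofReal_le_ofReal_iff hM).1 h4

/-- One half of the Plancherel theorem. -/
theorem ift_planch {F : E 3 → ℂ} (hF : Integrable F) (hF2 : Integrable (fun ζ => ‖F ζ‖ ^ 2)) :
    Integrable (fun x => ‖ift F x‖ ^ 2) ∧ ∫ x, ‖ift F x‖ ^ 2 ≤ ∫ ζ, ‖F ζ‖ ^ 2 := by
  obtain ⟨h1, h2⟩ := conv_ft_planch hF hF2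
  simp_rw [ift_eq]
  exact ⟨h1.comp_neg, (integral_neg_eq_self (fun x => ‖ft F x‖ ^ 2) volume).trans_le h2⟩

lemma conv_cont {F : E 3 → ℂ} (hF : Integrable F) : Continuous (ift F) := by
  have : ift F = fun x => ft F (-x) := funext (ift_eq F)
  rw [this]
  exact (continuous_ft hF).comp continuous_neg

lemma conv_norm_le (F : E 3 → ℂ) (x : E 3) : ‖ift F x‖ ≤ ∫ ζ, ‖F ζ‖ := by
  rw [ift_eq]; exact norm_ft_le F _

lemma conv_int_ew {F : E 3 → ℂ} (hF : Integrable F) (x : E 3) :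
    Integrable fun ζ => F ζ * ew ζ x :=
  hF.mul_bdd (c := 1) (by fun_prop) (Filter.Eventually.of_forall fun ζ => by simp)

lemma conv_JJ_int {K : E 3 → ℝ} (hK : Wt K) {F1 F2 : E 3 → ℂ} (h1 : Integrable F1)
    (h2 : Integrable F2) : Integrable fun x => K x * ‖ift F1 x‖ * ‖ift F2 x‖ :=
  (hK.int.mul_bdd (c := ∫ ζ, ‖F1 ζ‖) (conv_cont h1).norm.aestronglyMeasurable
    (Filter.Eventually.of_forall fun x => by rw [norm_norm]; exact conv_norm_le _ _)).mul_bdd
    (c := ∫ ζ, ‖F2 ζ‖) (conv_cont h2).norm.aestronglyMeasurable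
    (Filter.Eventually.of_forall fun x => by rw [norm_norm]; exact conv_norm_le _ _)

theorem JJ_le {K : E 3 → ℝ} (hK : Wt K) {F1 F2 : E 3 → ℂ} (h1 : Integrable F1)
    (h1' : Integrable (fun ζ => ‖F1 ζ‖ ^ 2)) (h2 : Integrable F2)
    (h2' : Integrable (fun ζ => ‖F2 ζ‖ ^ 2)) :
    JJ K F1 F2 ≤ √((∫ ζ, ‖F1 ζ‖ ^ 2) * ∫ ζ, ‖F2 ζ‖ ^ 2) := by
  obtain ⟨a1, a2⟩ := ift_planch h1 h1'
  obtain ⟨b1, b2⟩ := ift_planch h2 h2'
  have m1 := (conv_cont h1).norm.aestronglyMeasurable (μ := volume)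
  have m2 := (conv_cont h2).norm.aestronglyMeasurable (μ := volume)
  have e1 : JJ K F1 F2 ≤ ∫ x, ‖ift F1 x‖ * ‖ift F2 x‖ := by
    refine integral_mono (conv_JJ_int hK h1 h2) (conv_int_mul m1 m2 a1 b1) fun x => ?_
    simp only [mul_assoc]
    exact mul_le_of_le_one_left (by positivity) (hK.le_one x)
  refine e1.trans ((conv_cs m1 m2 a1 b1).trans (Real.sqrt_le_sqrt ?_))
  exact mul_le_mul a2 b2 (integral_nonneg fun x => by positivity)
    (integral_nonneg fun x => by positivity)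

theorem JJ_add_left {K : E 3 → ℝ} (hK : Wt K) {F1 F1' F2 : E 3 → ℂ} (h1 : Integrable F1)
    (h1' : Integrable F1') (h2 : Integrable F2) :
    JJ K (fun ζ => F1 ζ + F1' ζ) F2 ≤ JJ K F1 F2 + JJ K F1' F2 := by
  unfold JJ
  rw [← integral_add (conv_JJ_int hK h1 h2) (conv_JJ_int hK h1' h2)]
  refine integral_mono (conv_JJ_int hK (h1.add h1') h2)
    ((conv_JJ_int hK h1 h2).add (conv_JJ_int hK h1' h2)) fun x => ?_
  have e : ift (fun ζ => F1 ζ + F1' ζ) x = ift F1 x + ift F1' x := by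
    unfold ift
    rw [← integral_add (conv_int_ew h1 x) (conv_int_ew h1' x)]
    simp only [add_mul]
  simp only [e]
  rw [← add_mul, ← mul_add]
  exact mul_le_mul_of_nonneg_right (mul_le_mul_of_nonneg_left (norm_add_le _ _) (hK.nonneg x))
    (norm_nonneg _)

theorem JJ_comm (K : E 3 → ℝ) (F1 F2 : E 3 → ℂ) : JJ K F1 F2 = JJ K F2 F1 := by
  unfold JJ
  simp only [mul_right_comm]

lemma conv_amp_int {F : E 3 → ℂ} (h : Amp F) {N : Set (E 3)} (m : MeasurableSet N)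
    (b : Bornology.IsBounded N) (z : ∀ ζ, ζ ∉ N → F ζ = 0) :
    Integrable F ∧ Integrable fun ζ => ‖F ζ‖ ^ 2 := by
  obtain ⟨C, hC⟩ := h.bdd
  have i1 : Integrable F := by
    have i0 : Integrable (N.indicator fun _ : E 3 => C) :=
      (integrable_indicator_iff m).2 (integrableOn_const b.measure_lt_top.ne)
    refine i0.mono' h.meas.aestronglyMeasurable (Filter.Eventually.of_forall fun ζ => ?_)
    by_cases hζ : ζ ∈ N
    · rw [Set.indicator_of_mem hζ]; exact hC ζ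
    · rw [Set.indicator_of_notMem hζ, z ζ hζ, norm_zero]
  refine ⟨i1, ?_⟩
  have := i1.norm.mul_bdd (c := C) h.meas.norm.aestronglyMeasurable
    (Filter.Eventually.of_forall fun ζ => by rw [norm_norm]; exact hC ζ)
  simpa only [sq] using this

lemma conv_prod_int {F1 F2 : E 3 → ℂ} (h1 : Integrable F1) (h2 : Integrable F2) :
    Integrable (fun p : E 3 × E 3 => F1 p.2 * F2 (p.1 - p.2)) (volume.prod volume) := by
  have := h1.convolution_integrand (ContinuousLinearMap.mul ℝ ℂ) h2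
  simpa using this

lemma conv_ift {F1 F2 : E 3 → ℂ} (h1 : Integrable F1) (h2 : Integrable F2) (x : E 3) :
    ift (fun z => ∫ ζ, F1 ζ * F2 (z - ζ)) x = ift F1 x * ift F2 x := by
  have i1 : Integrable (Function.uncurry fun z ζ : E 3 => F1 ζ * F2 (z - ζ) * ew z x)
      (volume.prod volume) :=
    (conv_prod_int h1 h2).mul_bdd (c := 1) (by fun_prop)
      (Filter.Eventually.of_forall fun p => by simp)
  unfold ift
  simp_rw [← integral_mul_const]
  rw [integral_integral_swap i1]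
  refine integral_congr_ae (Filter.Eventually.of_forall fun ζ => ?_)
  simp only
  rw [← integral_sub_right_eq_self (fun η => F2 η * ew η x) ζ, ← integral_const_mul]
  refine integral_congr_ae (Filter.Eventually.of_forall fun z => ?_)
  simp only
  have : ew z x = ew ζ x * ew (z - ζ) x := by rw [← ew_add]; congr 1; abel
  rw [this]; ring

/-- The bilinear convolution bound. -/
theorem JJ_conv {K : E 3 → ℝ} (hK : Wt K) {W : ℝ} (hW : ∫ x, K x ≤ W) {F1 F2 : E 3 → ℂ}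
    (h1 : Amp F1) (h2 : Amp F2) {N1 N2 : Set (E 3)} (m1 : MeasurableSet N1)
    (m2 : MeasurableSet N2) (b1 : Bornology.IsBounded N1) (b2 : Bornology.IsBounded N2)
    (z1 : ∀ ζ, ζ ∉ N1 → F1 ζ = 0) (z2 : ∀ ζ, ζ ∉ N2 → F2 ζ = 0) {α : ℝ} (hα : 0 ≤ α)
    (h : ∀ z : E 3, volume {ζ : E 3 | ζ ∈ N1 ∧ z - ζ ∈ N2} ≤ ENNReal.ofReal α) :
    JJ K F1 F2 ≤ √(W * α * (∫ ζ, ‖F1 ζ‖ ^ 2) * ∫ ζ, ‖F2 ζ‖ ^ 2) := by
  obtain ⟨i1, j1⟩ := conv_amp_int h1 m1 b1 z1
  obtain ⟨i2, j2⟩ := conv_amp_int h2 m2 b2 z2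
  obtain ⟨C, hC⟩ := h2.bdd
  set G : E 3 → ℂ := fun z => ∫ ζ, F1 ζ * F2 (z - ζ) with hG
  have iG : Integrable G := (conv_prod_int i1 i2).integral_prod_left
  have ip := integrable_mul_sub j1 j2
  have hGz : ∀ z, ‖G z‖ ^ 2 ≤ α * ∫ ζ, ‖F1 ζ‖ ^ 2 * ‖F2 (z - ζ)‖ ^ 2 := by
    intro z
    set S : Set (E 3) := {ζ | ζ ∈ N1 ∧ z - ζ ∈ N2} with hS
    have mz : Measurable fun ζ : E 3 => z - ζ := measurable_const.sub measurable_id
    have mS : MeasurableSet S := m1.inter (mz m2)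
    have fS : volume S ≠ ∞ := ne_top_of_le_ne_top ENNReal.ofReal_ne_top (h z)
    have e0 : ∀ ζ, (S.indicator (fun _ => (1 : ℝ)) ζ) ^ 2 = S.indicator (fun _ => (1 : ℝ)) ζ := by
      intro ζ
      by_cases hζ : ζ ∈ S
      · simp [Set.indicator_of_mem hζ]
      · simp [Set.indicator_of_notMem hζ]
    have iS : Integrable (S.indicator fun _ : E 3 => (1 : ℝ)) :=
      (integrable_indicator_iff mS).2 (integrableOn_const fS)
    have iq : Integrable fun ζ => ‖F1 ζ‖ ^ 2 * ‖F2 (z - ζ)‖ ^ 2 :=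
      j1.mul_bdd (c := C ^ 2) (((h2.meas.comp mz).norm.pow_const 2).aestronglyMeasurable)
        (Filter.Eventually.of_forall fun ζ => by
          rw [Real.norm_eq_abs, abs_of_nonneg (by positivity)]
          exact pow_le_pow_left₀ (norm_nonneg _) (hC _) 2)
    have cs := conv_cs (f := S.indicator fun _ => (1 : ℝ)) (g := fun ζ => ‖F1 ζ‖ * ‖F2 (z - ζ)‖)
      iS.aestronglyMeasurable (h1.meas.norm.mul (h2.meas.comp mz).norm).aestronglyMeasurable
      (by simpa only [e0] using iS) (by simpa only [mul_pow] using iq)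
    have e1 : ‖G z‖ ≤ ∫ ζ, S.indicator (fun _ => (1 : ℝ)) ζ * (‖F1 ζ‖ * ‖F2 (z - ζ)‖) := by
      refine (norm_integral_le_integral_norm _).trans (le_of_eq ?_)
      refine integral_congr_ae (Filter.Eventually.of_forall fun ζ => ?_)
      simp only
      by_cases hζ : ζ ∈ S
      · rw [Set.indicator_of_mem hζ, one_mul, norm_mul]
      · rw [Set.indicator_of_notMem hζ, zero_mul]
        by_cases hζ1 : ζ ∈ N1
        · rw [z2 _ fun h' => hζ ⟨hζ1, h'⟩, mul_zero, norm_zero]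
        · rw [z1 _ hζ1, zero_mul, norm_zero]
    have e2 : ∫ ζ, (S.indicator (fun _ => (1 : ℝ)) ζ) ^ 2 ≤ α := by
      simp only [e0]
      rw [integral_indicator mS, setIntegral_const, smul_eq_mul, mul_one]
      exact ENNReal.toReal_le_of_le_ofReal hα (h z)
    have e3 : 0 ≤ ∫ ζ, (‖F1 ζ‖ * ‖F2 (z - ζ)‖) ^ 2 := integral_nonneg fun ζ => by positivity
    have e4 := (Real.le_sqrt (norm_nonneg _)
      (mul_nonneg (integral_nonneg fun ζ => by positivity) e3)).1 (e1.trans cs)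
    refine e4.trans ?_
    simp only [← mul_pow]
    exact mul_le_mul_of_nonneg_right e2 e3
  have ib : Integrable fun z => α * ∫ ζ, ‖F1 ζ‖ ^ 2 * ‖F2 (z - ζ)‖ ^ 2 :=
    ip.integral_prod_left.const_mul α
  have jG : Integrable fun z => ‖G z‖ ^ 2 :=
    ib.mono' (iG.aestronglyMeasurable.norm.pow 2) (Filter.Eventually.of_forall fun z => by
      rw [Real.norm_eq_abs, abs_of_nonneg (by positivity)]; exact hGz z)
  have eG : ∫ z, ‖G z‖ ^ 2 ≤ α * ((∫ ζ, ‖F1 ζ‖ ^ 2) * ∫ ζ, ‖F2 ζ‖ ^ 2) := by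
    refine (integral_mono jG ib hGz).trans (le_of_eq ?_)
    rw [integral_const_mul, ← integral_mul_sub j1 j2, integral_prod _ ip]
  obtain ⟨p1, p2⟩ := ift_planch iG jG
  have iK : Integrable fun x => K x ^ 2 := by
    have := hK.int.mul_bdd (c := 1) hK.meas.aestronglyMeasurable
      (Filter.Eventually.of_forall fun x => by
        rw [Real.norm_eq_abs, abs_of_nonneg (hK.nonneg x)]; exact hK.le_one x)
    simpa only [sq] using this
  have eK : ∫ x, K x ^ 2 ≤ W :=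
    (integral_mono iK hK.int fun x => by
      have := hK.nonneg x; have := hK.le_one x; simp only; nlinarith).trans hW
  have e5 : JJ K F1 F2 = ∫ x, K x * ‖ift G x‖ := by
    unfold JJ
    refine integral_congr_ae (Filter.Eventually.of_forall fun x => ?_)
    simp only
    rw [hG, conv_ift i1 i2, norm_mul, mul_assoc]
  rw [e5]
  refine (conv_cs hK.meas.aestronglyMeasurable (conv_cont iG).norm.aestronglyMeasurable iK p1).trans
    (Real.sqrt_le_sqrt ?_)
  rw [mul_assoc, mul_assoc]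
  exact mul_le_mul eK (p2.trans eG) (integral_nonneg fun x => by positivity)
    ((integral_nonneg fun x => by positivity).trans eK)

end Pool.Agent.P.MP_f791b6_an
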