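import Pool.Agent.P.MP_f791b6_an.N3Neg

namespace Pool.Agent.P.MP_f791b6_an

open MeasureTheory Complex Metric
open scoped ComplexConjugate Real RealInnerProductSpace ENNReal

lemma disc_int {α G V : Type*} [MeasurableSpace α] [Fintype G] [MeasurableSpace G]
    [MeasurableSingletonClass G] [NormedAddCommGroup V] [NormedSpace ℝ V] [CompleteSpace V]
    (μ : Measure α) [IsFiniteMeasure μ] {T : α → G} (hT : Measurable T) (φ : G → V) :
    Integrable (fun a => φ (T a)) μ ∧ ∫ a, φ (T a) ∂μ = ∑ g, μ.real (T ⁻¹' {g}) • φ g := by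
  refine ⟨(Integrable.of_finite (μ := μ.map T) (f := φ)).comp_measurable hT, ?_⟩
  rw [← integral_map hT.aemeasurable (Integrable.of_finite (μ := μ.map T)).aestronglyMeasurable,
    integral_fintype Integrable.of_finite]
  refine Finset.sum_congr rfl fun f _ => ?_
  rw [map_measureReal_apply hT (measurableSet_singleton f)]

lemma disc_int2 {α G V : Type*} [MeasurableSpace α] [Fintype G] [MeasurableSpace G]
    [MeasurableSingletonClass G] [NormedAddCommGroup V] [NormedSpace ℝ V] [CompleteSpace V]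
    (μ : Measure α) [IsFiniteMeasure μ] {T : α → G} (hT : Measurable T) (φ : G → G → V) :
    Integrable (fun p : α × α => φ (T p.1) (T p.2)) (μ.prod μ) ∧
      ∫ p, φ (T p.1) (T p.2) ∂(μ.prod μ) =
        ∑ f, ∑ g, (μ.real (T ⁻¹' {f}) * μ.real (T ⁻¹' {g})) • φ f g := by
  obtain ⟨h1, h2⟩ := disc_int (μ.prod μ) (hT.prodMap hT) (fun q : G × G => φ q.1 q.2)
  refine ⟨h1, h2.trans ?_⟩
  rw [Fintype.sum_prod_type]
  refine Finset.sum_congr rfl fun f _ => Finset.sum_congr rfl fun g _ => ?_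
  rw [← measureReal_prod_prod, ← Set.singleton_prod_singleton, Set.preimage_prod_map_prod]

section form
variable {F : Type} [Fintype F] [MeasurableSpace F] [MeasurableSingletonClass F]
  {S : Set (E 3)} {J : E 3 → F}

/-- Square root of the mass of a cell. -/
noncomputable def discS (S : Set (E 3)) (J : E 3 → F) (f : F) : ℝ :=
  √((sig.restrict S).real (J ⁻¹' {f}))

/-- The step function with coefficients `c`. -/
noncomputable def discA (S : Set (E 3)) (J : E 3 → F) (c : F → ℂ) : E 3 → ℂ :=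
  S.indicator fun ξ => c (J ξ) / (discS S J (J ξ) : ℂ)

omit [Fintype F] [MeasurableSpace F] [MeasurableSingletonClass F] in
lemma discS_sq (f : F) : (sig.restrict S).real (J ⁻¹' {f}) = discS S J f * discS S J f :=
  (Real.mul_self_sqrt measureReal_nonneg).symm

lemma disc_amp (hS : MeasurableSet S) (hJ : Measurable J) (c : F → ℂ) : Amp (discA S J c) := by
  refine Amp.indicator ⟨(measurable_of_finite fun f => c f / (discS S J f : ℂ)).comp hJ,
    ∑ f, ‖c f / (discS S J f : ℂ)‖, fun ξ => ?_⟩ hS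
  exact Finset.single_le_sum (f := fun f => ‖c f / (discS S J f : ℂ)‖) (fun _ _ => norm_nonneg _)
    (Finset.mem_univ (J ξ))

lemma disc_nsq (hS : MeasurableSet S) (hJ : Measurable J) (c : F → ℂ) :
    nsq (discA S J c) ≤ ∑ f, ‖c f‖ ^ 2 := by
  have e : (fun ξ => ‖discA S J c ξ‖ ^ 2) =
      S.indicator fun ξ => ‖c (J ξ) / (discS S J (J ξ) : ℂ)‖ ^ 2 := by
    funext ξ; by_cases h : ξ ∈ S <;> simp [discA, h]
  rw [nsq, e, integral_indicator hS,
    (disc_int (sig.restrict S) hJ fun f => ‖c f / (discS S J f : ℂ)‖ ^ 2).2]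
  refine Finset.sum_le_sum fun f _ => ?_
  rw [discS_sq, smul_eq_mul, norm_div, Complex.norm_real, Real.norm_eq_abs, div_pow, sq_abs]
  by_cases h : discS S J f = 0
  · rw [h]; simp
  · exact le_of_eq (by field_simp)

omit [Fintype F] [MeasurableSpace F] [MeasurableSingletonClass F] in
lemma disc_pert {Ω : Set (E 3)} (hk : Continuous (kk Ω)) {a b : E 3 → ℂ} (ac : Amp a) (ad : Amp b)
    {K : E 3 × E 3 → ℂ} (m3 : Measurable K) {B : ℝ} (hB : ∀ p, ‖K p‖ ≤ B) {ε : ℝ} (hε : 0 ≤ ε)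
    (hae : ∀ᵐ p ∂(sig.prod sig), ‖K p - kk Ω (p.1 - p.2)‖ ≤ ε) :
    ‖∫ p, conj (a p.1) * K p * b p.2 ∂(sig.prod sig)‖ ≤
      ‖QQ Ω a b‖ + ε * √(nsq a) * √(nsq b) := by
  have ib : Integrable (fun p : E 3 × E 3 => ‖a p.1‖ * ‖b p.2‖)
      (sig.prod sig) := ac.integrable.norm.mul_prod ad.integrable.norm
  have m1 : Measurable fun p : E 3 × E 3 => conj (a p.1) :=
    Complex.continuous_conj.measurable.comp (ac.meas.comp measurable_fst)
  have m2 : Measurable fun p : E 3 × E 3 => b p.2 := ad.meas.comp measurable_snd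
  have m4 : Measurable fun p : E 3 × E 3 => kk Ω (p.1 - p.2) :=
    (hk.comp (continuous_fst.sub continuous_snd)).measurable
  have hb : ∀ᵐ p ∂(sig.prod sig), ‖conj (a p.1) * (K p - kk Ω (p.1 - p.2)) * b p.2‖ ≤
      ε * (‖a p.1‖ * ‖b p.2‖) := by
    filter_upwards [hae] with p hp
    rw [norm_mul, norm_mul, Complex.norm_conj]
    calc _ ≤ ‖a p.1‖ * ε * ‖b p.2‖ := by gcongr
      _ = _ := by ring
  have i2 : Integrable (fun p : E 3 × E 3 => conj (a p.1) * (K p - kk Ω (p.1 - p.2)) * b p.2)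
      (sig.prod sig) :=
    (ib.const_mul ε).mono' ((m1.mul (m3.sub m4)).mul m2).aestronglyMeasurable hb
  have i3 : Integrable (fun p : E 3 × E 3 => conj (a p.1) * K p * b p.2) (sig.prod sig) := by
    refine (ib.const_mul B).mono'
      ((m1.mul m3).mul m2).aestronglyMeasurable (Filter.Eventually.of_forall fun p => ?_)
    have := hB p
    rw [norm_mul, norm_mul, Complex.norm_conj]
    calc _ ≤ ‖a p.1‖ * B * ‖b p.2‖ := by gcongr
      _ = _ := by ring
  have e3 : QQ Ω a b = (∫ p, conj (a p.1) * K p * b p.2 ∂(sig.prod sig)) -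
      ∫ p, conj (a p.1) * (K p - kk Ω (p.1 - p.2)) * b p.2 ∂(sig.prod sig) := by
    rw [← integral_sub i3 i2, QQ]
    exact integral_congr_ae (Filter.Eventually.of_forall fun p => by ring)
  have h4 := norm_integral_le_of_norm_le (ib.const_mul ε) hb
  rw [integral_const_mul, integral_prod_mul (fun ξ => ‖a ξ‖) fun ξ => ‖b ξ‖] at h4
  have l1 := Real.le_sqrt_of_sq_le ac.l1_sq_le
  have l2 := Real.le_sqrt_of_sq_le ad.l1_sq_le
  have l3 : 0 ≤ ∫ ξ, ‖b ξ‖ ∂sig := integral_nonneg fun _ => norm_nonneg _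
  have l4 := mul_le_mul_of_nonneg_left (mul_le_mul l1 l2 l3 (Real.sqrt_nonneg _)) hε
  rw [sub_eq_iff_eq_add.1 e3.symm, mul_assoc]
  exact (norm_add_le _ _).trans (add_le_add le_rfl (h4.trans l4))

lemma disc_sum {Ω : Set (E 3)} (hS : MeasurableSet S) (hJ : Measurable J)
    (x : F → E 3) (c d : F → ℂ) :
    ∑ f, ∑ g, conj (c f) * (discS S J f * discS S J g * kk Ω (x f - x g)) * d g =
      ∫ p, conj (discA S J c p.1) * kk Ω (x (J p.1) - x (J p.2)) * discA S J d p.2
        ∂(sig.prod sig) := by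
  obtain ⟨i1, e1⟩ := disc_int2 (sig.restrict S) hJ fun f g =>
    conj (c f / (discS S J f : ℂ)) * kk Ω (x f - x g) * (d g / (discS S J g : ℂ))
  rw [Measure.prod_restrict, ← integral_indicator (hS.prod hS)] at e1
  refine Eq.trans ?_ (e1.symm.trans (integral_congr_ae (Filter.Eventually.of_forall fun p => ?_)))
  · refine Finset.sum_congr rfl fun f _ => Finset.sum_congr rfl fun g _ => ?_
    rw [discS_sq, discS_sq, Complex.real_smul, map_div₀, Complex.conj_ofReal]
    push_cast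
    by_cases h : (discS S J f : ℂ) = 0
    · simp [h]
    by_cases h' : (discS S J g : ℂ) = 0
    · simp [h']
    field_simp
  · by_cases h : p.1 ∈ S <;> by_cases h' : p.2 ∈ S <;> simp [discA, Set.indicator, h, h']

lemma disc_meas (hJ : Measurable J) (φ : F → F → ℂ) :
    Measurable (fun p : E 3 × E 3 => φ (J p.1) (J p.2)) ∧
      ∃ B : ℝ, ∀ p : E 3 × E 3, ‖φ (J p.1) (J p.2)‖ ≤ B :=
  ⟨(measurable_of_finite fun q : F × F => φ q.1 q.2).comp (hJ.prodMap hJ),
    ∑ q : F × F, ‖φ q.1 q.2‖, fun p => Finset.single_le_sum (f := fun q : F × F => ‖φ q.1 q.2‖)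
      (fun _ _ => norm_nonneg _) (Finset.mem_univ (J p.1, J p.2))⟩

lemma disc_form {Ω : Set (E 3)} (hk : Continuous (kk Ω)) (hS : MeasurableSet S) (hJ : Measurable J)
    (x : F → E 3) {ε : ℝ} (hε : 0 ≤ ε) (hae : ∀ᵐ p ∂(sig.prod sig),
      ‖kk Ω (x (J p.1) - x (J p.2)) - kk Ω (p.1 - p.2)‖ ≤ ε) (c d : F → ℂ) :
    ‖∑ f, ∑ g, conj (c f) * (discS S J f * discS S J g * kk Ω (x f - x g)) * d g‖ ≤
      ‖QQ Ω (discA S J c) (discA S J d)‖ +
        ε * √(nsq (discA S J c)) * √(nsq (discA S J d)) := by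
  obtain ⟨m3, B, hB⟩ := disc_meas hJ fun f g => kk Ω (x f - x g)
  rw [disc_sum hS hJ]
  exact disc_pert (K := fun p => kk Ω (x (J p.1) - x (J p.2))) hk (disc_amp hS hJ c)
    (disc_amp hS hJ d) m3 hB hε hae

end form

/-- Operator bounds for the form on two caps give negative directions. -/
theorem neu_of_bounds {Ω : Set (E 3)} (hm : MeasurableSet Ω) (hb : Bornology.IsBounded Ω)
    (L : Submodule ℂ (E 3 → ℂ)) [FiniteDimensional ℂ L] (hL : ∀ u ∈ L, Test u)
    (hΩ : ∀ u ∈ L, tsupport u ⊆ Ω) (hR : ∀ u ∈ L, energy Ω u ≤ 4 * π ^ 2 * mass Ω u)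
    {S1 S2 : Set (E 3)} (m1 : MeasurableSet S1) (m2 : MeasurableSet S2) (hd : Disjoint S1 S2)
    {τ β : ℝ} (hτ : 0 < τ) (hβ : 0 < β)
    (h1 : ∀ f : E 3 → ℂ, Amp f → (∀ ξ, ξ ∉ S1 ∪ S2 → f ξ = 0) → ‖QQ Ω f f‖ ≤ τ * nsq f)
    (h2 : ∀ f1 f2 : E 3 → ℂ, Amp f1 → Amp f2 → (∀ ξ, ξ ∉ S1 → f1 ξ = 0) → (∀ ξ, ξ ∉ S2 → f2 ξ = 0) →
      ‖QQ Ω f1 f2‖ ≤ β * √(nsq f1) * √(nsq f2))
    {m : ℕ} (hm1 : 1 ≤ m)
    (h : 16 * (m * (τ * β)) ≤ ∫ p in S1 ×ˢ S2, ‖kk Ω (p.1 - p.2)‖ ^ 2 ∂(sig.prod sig)) :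
    NeuOK Ω (Module.finrank ℂ L + m) := by
  classical
  have hk := continuous_kk hm hb.measure_lt_top.ne
  set X := ∫ p in S1 ×ˢ S2, ‖kk Ω (p.1 - p.2)‖ ^ 2 ∂(sig.prod sig) with hX
  have hX0 : 0 < X := lt_of_lt_of_le (by positivity) h
  have hk2 : Continuous fun z => ‖kk Ω z‖ ^ 2 := by fun_prop
  obtain ⟨δ1, hδ1, u1⟩ := Metric.uniformContinuousOn_iff.mp
    ((isCompact_closedBall (0 : E 3) 2).uniformContinuousOn_of_continuous hk.continuousOn)
    (min τ β) (lt_min hτ hβ)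
  obtain ⟨δ2, hδ2, u2⟩ := Metric.uniformContinuousOn_iff.mp
    ((isCompact_closedBall (0 : E 3) 2).uniformContinuousOn_of_continuous hk2.continuousOn)
    (X / 2) (by positivity)
  obtain ⟨N, y, ind, hi, hyK, hy⟩ := exists_round (isCompact_sphere (0 : E 3) 1)
    (NormedSpace.sphere_nonempty.mpr zero_le_one) (ε := min δ1 δ2 / 3) (by positivity)
  have hy1 : ∀ i, ‖y i‖ = 1 := fun i => mem_sphere_zero_iff_norm.mp (hyK i)
  have hS := m1.union m2
  let J : E 3 → Fin (N + 1) × Bool := fun ξ => (ind ξ, decide (ξ ∈ S1))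
  have hJ : Measurable J := hi.prodMk (measurable_to_countable' fun b => by
    cases b
    · convert m1.compl using 1; ext ξ; simp
    · convert m1 using 1; ext ξ; simp)
  let x : Fin (N + 1) × Bool → E 3 := fun f => y f.1
  have hunit : ∀ᵐ p ∂(sig.prod sig), ‖p.1‖ = 1 ∧ ‖p.2‖ = 1 :=
    (Measure.quasiMeasurePreserving_fst.ae sig_unit).and
      (Measure.quasiMeasurePreserving_snd.ae sig_unit)
  have hosc : ∀ᵐ p ∂(sig.prod sig), ‖kk Ω (x (J p.1) - x (J p.2)) - kk Ω (p.1 - p.2)‖ ≤ min τ β ∧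
      ‖p.1 - p.2‖ ≤ 2 ∧
      ‖kk Ω (p.1 - p.2)‖ ^ 2 - X / 2 ≤ ‖kk Ω (x (J p.1) - x (J p.2))‖ ^ 2 := by
    filter_upwards [hunit] with p hp
    have a1 := hy p.1 p.1 (mem_sphere_zero_iff_norm.mpr hp.1)
    have a2 := hy p.2 p.2 (mem_sphere_zero_iff_norm.mpr hp.2)
    rw [dist_self, zero_add] at a1 a2
    have a3 : ‖x (J p.1) - x (J p.2)‖ ≤ 2 := by
      have := norm_sub_le (y (ind p.1)) (y (ind p.2))
      rw [hy1, hy1] at this; linarith
    have a5 : ‖p.1 - p.2‖ ≤ 2 := by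
      have := norm_sub_le p.1 p.2
      rw [hp.1, hp.2] at this; linarith
    have a4 : dist (x (J p.1) - x (J p.2)) (p.1 - p.2) < min δ1 δ2 := by
      rw [dist_eq_norm]
      have : x (J p.1) - x (J p.2) - (p.1 - p.2) =
        (p.2 - y (ind p.2)) - (p.1 - y (ind p.1)) := by simp only [x, J]; abel
      rw [this]
      linarith [norm_sub_le (p.2 - y (ind p.2)) (p.1 - y (ind p.1)), lt_min hδ1 hδ2]
    have a6 := u1 _ (mem_closedBall_zero_iff.mpr a3) _ (mem_closedBall_zero_iff.mpr a5)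
      (a4.trans_le (min_le_left _ _))
    have a7 := u2 _ (mem_closedBall_zero_iff.mpr a3) _ (mem_closedBall_zero_iff.mpr a5)
      (a4.trans_le (min_le_right _ _))
    rw [dist_eq_norm] at a6
    rw [Real.dist_eq] at a7
    exact ⟨a6.le, a5, by linarith [(abs_lt.mp a7).1]⟩
  have hQ : ∀ f g, Qm Ω x (discS (S1 ∪ S2) J) f g =
      discS (S1 ∪ S2) J f * discS (S1 ∪ S2) J g * kk Ω (x f - x g) := by
    intro f g
    have : ⟪x f, x g⟫ - 1 = -(‖x f - x g‖ ^ 2 / 2) := by
      rw [norm_sub_sq_real, hy1, hy1]; ring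
    rw [Qm, Gm, kk, this]; ring
  have hform := disc_form hk hS hJ x (lt_min hτ hβ).le (hosc.mono fun p hp => hp.1)
  refine (exists_neg_block (Qm Ω x (discS (S1 ∪ S2) J)) (Qm_isHermitian hm _ _)
    (fun f => by rw [hQ]; simp [kk]) (fun f => f.2) (τ := 2 * τ) (β := β) (by positivity) hβ
    (m := m) (fun c => ?_) (fun c => ?_) ?_).elim fun Φ hΦ =>
      filonov hm hb L hL hΩ hR x _ (Or.inr fun f => hy1 _) Φ hΦ
  · rw [qf_eq]
    simp only [hQ]
    have a1 := hform c c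
    have a2 := h1 _ (disc_amp hS hJ c) fun ξ hξ => Set.indicator_of_notMem hξ _
    have a3 := disc_nsq hS hJ c
    have a4 := nsq_nonneg (discA (S1 ∪ S2) J c)
    rw [mul_assoc, Real.mul_self_sqrt a4] at a1
    have a5 := mul_le_mul_of_nonneg_right (min_le_left τ β) a4
    have a6 := mul_le_mul_of_nonneg_left a3 hτ.le
    refine le_trans ?_ (neg_le_of_abs_le (Complex.abs_re_le_norm _))
    linarith
  · let c1 : Fin (N + 1) × Bool → ℂ := fun f => if f.2 = true then c f else 0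
    let c2 : Fin (N + 1) × Bool → ℂ := fun f => if f.2 = false then c f else 0
    have e : (∑ f, ∑ g, if f.2 = true ∧ g.2 = false then
        conj (c f) * Qm Ω x (discS (S1 ∪ S2) J) f g * c g else 0) =
        ∑ f, ∑ g, conj (c1 f) * (discS (S1 ∪ S2) J f * discS (S1 ∪ S2) J g * kk Ω (x f - x g)) *
          c2 g := by
      refine Finset.sum_congr rfl fun f _ => Finset.sum_congr rfl fun g _ => ?_
      rw [hQ]
      by_cases a : f.2 = true <;> by_cases b : g.2 = false <;> simp [c1, c2, a, b]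
    rw [e]
    have a1 := hform c1 c2
    have a2 := h2 _ _ (disc_amp hS hJ c1) (disc_amp hS hJ c2)
      (fun ξ hξ => by by_cases a : ξ ∈ S1 ∪ S2 <;> simp [discA, Set.indicator, a, c1, J, hξ])
      (fun ξ hξ => by
        by_cases a : ξ ∈ S1 ∪ S2
        · simp [discA, Set.indicator, c2, J, a.resolve_right hξ]
        · simp [discA, Set.indicator, a])
    have a3 := disc_nsq hS hJ c1
    have a4 := disc_nsq hS hJ c2
    have a5 : ∑ f, ‖c1 f‖ ^ 2 + ∑ f, ‖c2 f‖ ^ 2 = ∑ f, ‖c f‖ ^ 2 := by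
      rw [← Finset.sum_add_distrib]
      refine Finset.sum_congr rfl fun f _ => ?_
      by_cases a : f.2 = true <;> simp [c1, c2, a]
    have b1 := Real.mul_self_sqrt (nsq_nonneg (discA (S1 ∪ S2) J c1))
    have b2 := Real.mul_self_sqrt (nsq_nonneg (discA (S1 ∪ S2) J c2))
    have b3 := Real.sqrt_nonneg (nsq (discA (S1 ∪ S2) J c1))
    have b4 := Real.sqrt_nonneg (nsq (discA (S1 ∪ S2) J c2))
    generalize √(nsq (discA (S1 ∪ S2) J c1)) = A at *
    generalize √(nsq (discA (S1 ∪ S2) J c2)) = B at *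
    have b5 : min τ β * A * B ≤ β * A * B := by gcongr; exact min_le_right _ _
    have b6 : 2 * (A * B) ≤ ∑ f, ‖c f‖ ^ 2 := by nlinarith [sq_nonneg (A - B)]
    have b7 := mul_le_mul_of_nonneg_left b6 hβ.le
    linarith
  · obtain ⟨i1, e1⟩ := disc_int2 (sig.restrict (S1 ∪ S2)) hJ fun f g =>
      if f.2 = true ∧ g.2 = false then ‖kk Ω (x f - x g)‖ ^ 2 else 0
    have e : (∑ f, ∑ g, if f.2 = true ∧ g.2 = false then
        ‖Qm Ω x (discS (S1 ∪ S2) J) f g‖ ^ 2 else 0) = _ := Eq.trans ?_ e1.symm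
    swap
    · refine Finset.sum_congr rfl fun f _ => Finset.sum_congr rfl fun g _ => ?_
      rw [hQ, discS_sq, discS_sq, smul_eq_mul]
      split_ifs
      · rw [norm_mul, norm_mul, Complex.norm_real, Complex.norm_real, mul_pow, mul_pow,
          Real.norm_eq_abs, Real.norm_eq_abs, sq_abs, sq_abs]; ring
      · rw [mul_zero]
    rw [e]
    rw [Measure.prod_restrict] at i1 ⊢
    have hsub : S1 ×ˢ S2 ⊆ (S1 ∪ S2) ×ˢ (S1 ∪ S2) :=
      Set.prod_mono Set.subset_union_left Set.subset_union_right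
    obtain ⟨B, hB⟩ := (isCompact_closedBall (0 : E 3) 2).exists_bound_of_continuousOn
      hk2.continuousOn
    have i2 : Integrable (fun p : E 3 × E 3 => ‖kk Ω (p.1 - p.2)‖ ^ 2) (sig.prod sig) :=
      Integrable.of_bound (hk2.comp (continuous_fst.sub continuous_snd)).aestronglyMeasurable B
        (hosc.mono fun p hp => hB _ (mem_closedBall_zero_iff.mpr hp.2.1))
    have a1 := setIntegral_mono_set i1 (Filter.Eventually.of_forall fun p => by
      simp only [Pi.zero_apply]; split_ifs <;> positivity) hsub.eventuallyLE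
    have a2 : ∫ p in S1 ×ˢ S2, (‖kk Ω (p.1 - p.2)‖ ^ 2 - X / 2) ∂(sig.prod sig) ≤
        ∫ p in S1 ×ˢ S2, (if (J p.1).2 = true ∧ (J p.2).2 = false then
          ‖kk Ω (x (J p.1) - x (J p.2))‖ ^ 2 else 0) ∂(sig.prod sig) := by
      refine integral_mono_ae (i2.sub (integrable_const _)).integrableOn
        (IntegrableOn.mono_set i1 hsub) ?_
      filter_upwards [ae_restrict_mem (m1.prod m2), ae_restrict_of_ae hosc] with p hp hq
      rw [if_pos ⟨decide_eq_true hp.1, decide_eq_false fun a => Set.disjoint_left.1 hd a hp.2⟩]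
      exact hq.2.2
    rw [integral_sub i2.integrableOn (integrable_const _), integral_const, smul_eq_mul] at a2
    have a3 : ((sig.prod sig).restrict (S1 ×ˢ S2)).real Set.univ ≤ 1 := by
      rw [measureReal_restrict_apply_univ]; exact measureReal_le_one
    have a4 := mul_le_mul_of_nonneg_right a3 (half_pos hX0).le
    have a5 : 0 ≤ m * (τ * β) := by positivity
    linarith

end Pool.Agent.P.MP_f791b6_an
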