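import Pool.Agent.P.MP_f791b6_an.N3Conv

namespace Pool.Agent.P.MP_f791b6_an

open MeasureTheory Complex Metric
open scoped ComplexConjugate Real RealInnerProductSpace ENNReal

lemma n3h_cut {s s' : ℝ} (hs : 0 < s) (hss : s < s') : ∃ A : E 3 → ℂ, Test A ∧
    (∀ z, ‖z‖ ≤ s → A z = ((-(‖z‖ ^ 2 / 2) : ℝ) : ℂ)) ∧ (∀ z, ‖A z‖ ≤ ‖z‖ ^ 2 / 2) ∧
    ∀ z, z ∉ closedBall (0 : E 3) s' → A z = 0 := by
  let ψ : ContDiffBump (0 : E 3) := ⟨s, s', hs, hss⟩
  refine ⟨fun z => ((-(‖z‖ ^ 2 / 2) * ψ z : ℝ) : ℂ), ⟨?_, ?_⟩, fun z hz => ?_, fun z => ?_,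
    fun z hz => ?_⟩
  · exact ofRealCLM.contDiff.comp (((contDiff_norm_sq ℝ).div_const 2).neg.mul ψ.contDiff)
  · exact (ψ.hasCompactSupport.mul_left).comp_left (g := fun r : ℝ => (r : ℂ)) ofReal_zero
  · have : ψ z = 1 := ψ.one_of_mem_closedBall (mem_closedBall_zero_iff.mpr hz)
    simp only [this, mul_one]
  · rw [Complex.norm_real, norm_mul, norm_neg, Real.norm_of_nonneg (by positivity),
      Real.norm_of_nonneg ψ.nonneg]
    exact mul_le_of_le_one_right (by positivity) ψ.le_one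
  · have : ψ z = 0 := ψ.zero_of_le_dist (le_of_lt (not_le.mp hz))
    simp only [this, mul_zero, ofReal_zero]

lemma n3h_int_ift {A : E 3 → ℂ} (hA : Test A) : Integrable (ift A) := by
  have h1 : Integrable (ft A) := by
    have := (FourierTransform.fourier (hA.cpt.toSchwartzMap hA.smooth)).integrable (μ := volume)
    rw [SchwartzMap.fourier_coe] at this
    rw [ft_eq]; exact this
  have h2 : ift A = fun x => ft A (-x) := funext (ift_eq A)
  rw [h2]; exact h1.comp_neg

lemma n3h_conv {A g : E 3 → ℂ} (hA : Integrable A) (hg : Integrable g) (x : E 3) :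
    ift (fun ζ => A ζ * ft g ζ) x = ∫ y, g y * ift A (x - y) := by
  have i1 : Integrable (Function.uncurry fun (ζ y : E 3) => A ζ * g y * ew ζ (x - y))
      (volume.prod volume) :=
    (hA.mul_prod hg).mul_bdd (c := 1) (by fun_prop) (Filter.Eventually.of_forall fun p => by simp)
  calc ift (fun ζ => A ζ * ft g ζ) x = ∫ ζ, ∫ y, A ζ * g y * ew ζ (x - y) := by
        refine integral_congr_ae (Filter.Eventually.of_forall fun ζ => ?_)
        simp only [ft]
        rw [← integral_const_mul, ← integral_mul_const]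
        refine integral_congr_ae (Filter.Eventually.of_forall fun y => ?_)
        simp only
        rw [ew_comm ζ (x - y), sub_eq_add_neg, ew_add, ← conj_ew, ew_comm x, ew_comm y]; ring
    _ = ∫ y, ∫ ζ, A ζ * g y * ew ζ (x - y) := integral_integral_swap i1
    _ = _ := by
        refine integral_congr_ae (Filter.Eventually.of_forall fun y => ?_)
        simp only [ift]
        rw [← integral_const_mul]
        exact integral_congr_ae (Filter.Eventually.of_forall fun ζ => by ring)

lemma n3h_inv {F : E 3 → ℂ} (hc : Continuous F) (hF : Integrable F) (hi : Integrable (ift F)) :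
    ft (ift F) = F := by
  have h1 : ift F = FourierTransformInv.fourierInv F := by
    funext x; rw [ift_eq, ft_eq, Real.fourierInv_eq_fourier_neg]
  have h2 : Integrable (FourierTransform.fourier F) := by
    refine hi.comp_neg.congr (Filter.Eventually.of_forall fun x => ?_)
    simp only [ift_eq, neg_neg, ft_eq]
  rw [h1, ft_eq]
  exact hc.fourier_fourierInv_eq hF h2

lemma n3h_P {g Ψ : E 3 → ℂ} (hg : Integrable g) (hΨ : Integrable Ψ) :
    Integrable (Function.uncurry fun x y : E 3 => g y * Ψ (x - y)) (volume.prod volume) :=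
  hg.convolution_integrand (ContinuousLinearMap.mul ℝ ℂ) hΨ

lemma n3h_sup {g Ψ : E 3 → ℂ} (hg : ∀ y, ‖g y‖ ≤ 1) (hΨ : Integrable Ψ) (x : E 3) :
    ‖∫ y, g y * Ψ (x - y)‖ ≤ ∫ y, ‖Ψ y‖ := by
  rw [← integral_sub_left_eq_self (fun y => ‖Ψ y‖) volume x]
  refine norm_integral_le_of_norm_le (hΨ.comp_sub_left x).norm
    (Filter.Eventually.of_forall fun y => ?_)
  rw [norm_mul]
  exact mul_le_of_le_one_left (norm_nonneg _) (hg y)

lemma n3h_l1 {g Ψ : E 3 → ℂ} (hg : Integrable g) (hΨ : Integrable Ψ) :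
    ∫ x, ‖∫ y, g y * Ψ (x - y)‖ ≤ (∫ y, ‖g y‖) * ∫ x, ‖Ψ x‖ := by
  have hP := n3h_P hg hΨ
  have i2 : Integrable (Function.uncurry fun x y : E 3 => ‖g y * Ψ (x - y)‖)
      (volume.prod volume) := hP.norm
  calc ∫ x, ‖∫ y, g y * Ψ (x - y)‖ ≤ ∫ x, ∫ y, ‖g y * Ψ (x - y)‖ :=
        integral_mono hP.integral_prod_left.norm i2.integral_prod_left
          fun x => norm_integral_le_integral_norm _
    _ = ∫ y, ∫ x, ‖g y * Ψ (x - y)‖ := integral_integral_swap i2
    _ = ∫ y, ‖g y‖ * ∫ x, ‖Ψ x‖ := by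
        refine integral_congr_ae (Filter.Eventually.of_forall fun y => ?_)
        simp only [norm_mul]
        rw [integral_const_mul, integral_sub_right_eq_self (fun x => ‖Ψ x‖) y]
    _ = _ := integral_mul_const _ _

lemma n3h_l2 {A T K : E 3 → ℂ} {r : ℝ} (hK : Continuous K) (h1 : ∀ z, ‖A z * T z‖ ≤ ‖K z‖)
    (h0 : ∀ z, z ∉ closedBall (0 : E 3) r → A z = 0)
    (hF2 : Integrable (fun ζ => ‖A ζ * T ζ‖ ^ 2)) :
    ∫ ζ, ‖A ζ * T ζ‖ ^ 2 ≤ ∫ z in closedBall (0 : E 3) r, ‖K z‖ ^ 2 := by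
  rw [← setIntegral_eq_integral_of_forall_compl_eq_zero (s := closedBall (0 : E 3) r)
    (fun z hz => by simp [h0 z hz])]
  exact setIntegral_mono hF2.integrableOn
    ((hK.norm.pow 2).continuousOn.integrableOn_compact (isCompact_closedBall _ _))
    fun z => pow_le_pow_left₀ (norm_nonneg _) (h1 z) 2

/-- A bounded function with prescribed Fourier transform on a ball. -/
theorem exists_h {s s' : ℝ} (hs : 0 < s) (hss : s < s') : ∃ C : ℝ, 1 ≤ C ∧ ∀ Ω : Set (E 3),
    MeasurableSet Ω → Bornology.IsBounded Ω → ∃ h : E 3 → ℂ, Measurable h ∧ Integrable h ∧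
      (∀ x, ‖h x‖ ≤ C) ∧ ∫ x, ‖h x‖ ≤ C * volume.real Ω ∧
      ∫ x, ‖h x‖ ^ 2 ≤ ∫ z in closedBall (0 : E 3) s', ‖kk Ω z‖ ^ 2 ∧
      ∀ z, ‖z‖ ≤ s → ft h z = kk Ω z := by
  obtain ⟨A, hA, hA1, hA2, hA3⟩ := n3h_cut hs hss
  have hΨ := n3h_int_ift hA
  have hJ : 0 ≤ ∫ x, ‖ift A x‖ := integral_nonneg fun x => norm_nonneg _
  refine ⟨1 + ∫ x, ‖ift A x‖, by linarith, fun Ω hm hb => ?_⟩
  have hf : volume Ω ≠ ⊤ := hb.measure_lt_top.ne
  have hχ := integrable_chi hm hf
  have hT : Continuous (ft (chi Ω)) := continuous_ft hχ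
  have hFc : Continuous (fun ζ => A ζ * ft (chi Ω) ζ) := hA.smooth.continuous.mul hT
  have hFs : HasCompactSupport (fun ζ => A ζ * ft (chi Ω) ζ) := hA.cpt.mul_right
  have hF : Integrable (fun ζ => A ζ * ft (chi Ω) ζ) := hFc.integrable_of_hasCompactSupport hFs
  have hF2 : Integrable (fun ζ => ‖A ζ * ft (chi Ω) ζ‖ ^ 2) := by
    have := (hFc.mul hFc).integrable_of_hasCompactSupport (μ := volume) hFs.mul_left
    simpa only [Pi.mul_apply, ← sq, norm_pow] using this.norm
  have hE : ift (fun ζ => A ζ * ft (chi Ω) ζ) = fun x => ∫ y, chi Ω y * ift A (x - y) :=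
    funext (n3h_conv hA.integrable hχ)
  have hI : Integrable (ift (fun ζ => A ζ * ft (chi Ω) ζ)) := by
    rw [hE]; exact (n3h_P hχ hΨ).integral_prod_left
  refine ⟨ift (fun ζ => A ζ * ft (chi Ω) ζ), ?_, hI, fun x => ?_, ?_, ?_, fun z hz => ?_⟩
  · have h2 : ift (fun ζ => A ζ * ft (chi Ω) ζ) = fun x => ft (fun ζ => A ζ * ft (chi Ω) ζ) (-x) :=
      funext (ift_eq _)
    rw [h2]; exact ((continuous_ft hF).comp continuous_neg).measurable
  · rw [hE]
    refine (n3h_sup (fun y => ?_) hΨ x).trans (by linarith)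
    by_cases hy : y ∈ Ω <;> simp [chi, hy]
  · rw [hE]
    refine (n3h_l1 hχ hΨ).trans ?_
    rw [integral_norm_chi hm, mul_comm]
    exact mul_le_mul_of_nonneg_right (by linarith) measureReal_nonneg
  · refine (ift_planch hF hF2).2.trans (n3h_l2 (continuous_kk hm hf) (fun z => ?_) hA3 hF2)
    rw [kk, norm_mul, norm_mul, Complex.norm_real, norm_neg, Real.norm_of_nonneg (by positivity)]
    exact mul_le_mul_of_nonneg_right (hA2 z) (norm_nonneg _)
  · rw [n3h_inv hFc hF hI, kk]
    simp only [hA1 z hz]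

/-- The form on amplitudes in physical space. -/
theorem QQ_eq {Ω : Set (E 3)} {h : E 3 → ℂ} (hi : Integrable h) {f g : E 3 → ℂ} (hf : Amp f)
    (hg : Amp g) (hk : ∀ ξ η, f ξ ≠ 0 → g η ≠ 0 → ft h (ξ - η) = kk Ω (ξ - η)) :
    QQ Ω f g = ∫ x, h x * (Ex g x * conj (Ex f x)) := by
  have hf' : Integrable (fun ξ => conj (f ξ)) sig := by
    simpa using (Complex.conjCLE : ℂ →L[ℝ] ℂ).integrable_comp hf.integrable
  have hG : Integrable (fun x => h x * Ex g x) :=
    hi.mul_bdd (c := √(nsq g)) hg.continuous_Ex.aestronglyMeasurable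
      (Filter.Eventually.of_forall hg.norm_Ex_le)
  have h1 : ∀ ξ, ft (fun x => h x * Ex g x) ξ = ∫ η, ft h (ξ - η) * g η ∂sig := by
    intro ξ
    have i1 : Integrable (Function.uncurry fun (x η : E 3) => h x * g η * conj (ew (ξ - η) x))
        (volume.prod sig) :=
      (hi.mul_prod hg.integrable).mul_bdd (c := 1) (by fun_prop)
        (Filter.Eventually.of_forall fun p => by simp)
    calc ft (fun x => h x * Ex g x) ξ = ∫ x, ∫ η, h x * g η * conj (ew (ξ - η) x) ∂sig := by
          refine integral_congr_ae (Filter.Eventually.of_forall fun x => ?_)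
          simp only [Ex]
          rw [← integral_const_mul, ← integral_const_mul]
          refine integral_congr_ae (Filter.Eventually.of_forall fun η => ?_)
          simp only
          rw [conj_ew (ξ - η), neg_sub, sub_eq_add_neg, ew_add, conj_ew]; ring
      _ = ∫ η, (∫ x, h x * g η * conj (ew (ξ - η) x)) ∂sig := integral_integral_swap i1
      _ = _ := by
          refine integral_congr_ae (Filter.Eventually.of_forall fun η => ?_)
          simp only [ft]
          rw [← integral_mul_const]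
          exact integral_congr_ae (Filter.Eventually.of_forall fun x => by ring)
  have hT := continuous_ft hi
  have i2 : Integrable (fun p : E 3 × E 3 => conj (f p.1) * g p.2 * ft h (p.1 - p.2))
      (sig.prod sig) :=
    (hf'.mul_prod hg.integrable).mul_bdd (c := ∫ x, ‖h x‖) (by fun_prop)
      (Filter.Eventually.of_forall fun p => norm_ft_le _ _)
  calc QQ Ω f g = ∫ p : E 3 × E 3, conj (f p.1) * g p.2 * ft h (p.1 - p.2) ∂(sig.prod sig) := by
        refine integral_congr_ae (Filter.Eventually.of_forall fun p => ?_)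
        simp only
        by_cases a1 : f p.1 = 0
        · simp [a1]
        by_cases a2 : g p.2 = 0
        · simp [a2]
        rw [hk _ _ a1 a2]; ring
    _ = ∫ ξ, (∫ η, conj (f ξ) * g η * ft h (ξ - η) ∂sig) ∂sig := integral_prod _ i2
    _ = ∫ ξ, conj (f ξ) * ft (fun x => h x * Ex g x) ξ ∂sig := by
        refine integral_congr_ae (Filter.Eventually.of_forall fun ξ => ?_)
        simp only
        rw [h1, ← integral_const_mul]
        exact integral_congr_ae (Filter.Eventually.of_forall fun η => by ring)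
    _ = ∫ x, h x * Ex g x * conj (Ex f x) := (hf.pair hG).symm
    _ = _ := by simp only [mul_assoc]

end Pool.Agent.P.MP_f791b6_an
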