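import Pool.Agent.P.MP_f791b6_an.N3Defs

namespace Pool.Agent.P.MP_f791b6_an

open MeasureTheory Complex Metric
open scoped ComplexConjugate Real RealInnerProductSpace ENNReal

/-- Kernel of the weighted restriction form. -/
noncomputable def loc_nu (ψ : E 3 → ℝ) (z : E 3) : ℂ := ∫ ξ, (ψ ξ : ℂ) * conj (ew ξ z) ∂sig

lemma loc_int_psi {ψ : E 3 → ℝ} (hψ : Continuous ψ) (hψ0 : ∀ ξ, 0 ≤ ψ ξ) (hψ1 : ∀ ξ, ψ ξ ≤ 1) :
    Integrable (fun ξ => (ψ ξ : ℂ)) sig := by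
  refine Integrable.of_bound (by fun_prop) 1 (Filter.Eventually.of_forall fun ξ => ?_)
  rw [Complex.norm_real, Real.norm_eq_abs, abs_of_nonneg (hψ0 ξ)]
  exact hψ1 ξ

lemma loc_nu_cont {ψ : E 3 → ℝ} (hψ : Continuous ψ) (hψ0 : ∀ ξ, 0 ≤ ψ ξ) (hψ1 : ∀ ξ, ψ ξ ≤ 1) :
    Continuous (loc_nu ψ) := by
  unfold loc_nu
  refine continuous_of_dominated (bound := fun ξ => ‖(ψ ξ : ℂ)‖)
    (fun x => (by fun_prop : Continuous fun ξ => (ψ ξ : ℂ) * conj (ew ξ x)).aestronglyMeasurable)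
    (fun x => Filter.Eventually.of_forall fun ξ => by simp) (loc_int_psi hψ hψ0 hψ1).norm
    (Filter.Eventually.of_forall fun ξ => by fun_prop)

lemma loc_ident {ψ : E 3 → ℝ} (hψ : Continuous ψ) (hψ0 : ∀ ξ, 0 ≤ ψ ξ) (hψ1 : ∀ ξ, ψ ξ ≤ 1)
    {g : E 3 → ℂ} (hg : Integrable g) :
    ((∫ ξ, ψ ξ * ‖ft g ξ‖ ^ 2 ∂sig : ℝ) : ℂ) =
      ∫ p : E 3 × E 3, g p.1 * conj (g p.2) * loc_nu ψ (p.1 - p.2) ∂(volume.prod volume) := by
  have hg' : Integrable (fun x => conj (g x)) := by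
    simpa using (Complex.conjCLE : ℂ →L[ℝ] ℂ).integrable_comp hg
  have h1 : ∀ ξ : E 3, ((ψ ξ * ‖ft g ξ‖ ^ 2 : ℝ) : ℂ) =
      ∫ p : E 3 × E 3, (ψ ξ : ℂ) * (g p.1 * conj (g p.2)) * conj (ew ξ (p.1 - p.2))
        ∂(volume.prod volume) := by
    intro ξ
    rw [ofReal_mul, ofReal_pow, ← Complex.mul_conj', ft, ← integral_conj, ← integral_prod_mul,
      ← integral_const_mul]
    refine integral_congr_ae (Filter.Eventually.of_forall fun p => ?_)
    simp only [map_mul, Complex.conj_conj]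
    have : conj (ew ξ (p.1 - p.2)) = conj (ew ξ p.1) * ew ξ p.2 := by
      rw [ew_comm ξ (p.1 - p.2), sub_eq_add_neg, ew_add, map_mul, conj_ew (-p.2), neg_neg,
        ew_comm p.1, ew_comm p.2]
    rw [this]; ring
  rw [← integral_complex_ofReal]
  simp_rw [h1]
  rw [integral_integral_swap]
  · refine integral_congr_ae (Filter.Eventually.of_forall fun p => ?_)
    simp only [loc_nu]
    rw [← integral_const_mul]
    refine integral_congr_ae (Filter.Eventually.of_forall fun ξ => ?_)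
    simp only; ring
  · have h2 := (loc_int_psi hψ hψ0 hψ1).mul_prod (hg.mul_prod hg')
    exact h2.mul_bdd (c := 1) (by fun_prop) (Filter.Eventually.of_forall fun x => by simp)

lemma loc_par (x y c : E 3) : ‖x - c‖ ^ 2 + ‖y - c‖ ^ 2 =
    2 * ‖c - (1 / 2 : ℝ) • (x + y)‖ ^ 2 + ‖x - y‖ ^ 2 / 2 := by
  simp only [nsq3, PiLp.sub_apply, PiLp.add_apply, PiLp.smul_apply, smul_eq_mul]
  ring

lemma loc_conv {T : ℝ} (hT : 0 < T) (x y : E 3) :
    ∫ c, gw T (x - c) * gw T (y - c) =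
      (T ^ 2 / 2) ^ ((3 : ℝ) / 2) * Real.exp (-(π / (2 * T ^ 2)) * ‖x - y‖ ^ 2) := by
  have h1 : ∀ c : E 3, gw T (x - c) * gw T (y - c) =
      Real.exp (-(2 * π / T ^ 2) * ‖c - (1 / 2 : ℝ) • (x + y)‖ ^ 2) *
        Real.exp (-(π / (2 * T ^ 2)) * ‖x - y‖ ^ 2) := by
    intro c
    rw [gw, gw, ← Real.exp_add, ← Real.exp_add, ← mul_add, loc_par]
    congr 1
    field_simp
    ring
  simp_rw [h1]
  rw [integral_mul_const,
    integral_sub_right_eq_self (fun c : E 3 => Real.exp (-(2 * π / T ^ 2) * ‖c‖ ^ 2)),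
    integral_gauss (by positivity), show π / (2 * π / T ^ 2) = T ^ 2 / 2 by field_simp]
  norm_num

lemma loc_kappa {T : ℝ} (hT : 0 < T) : T ^ 3 / 3 ≤ (T ^ 2 / 2) ^ ((3 : ℝ) / 2) := by
  have h0 : (0 : ℝ) ≤ T ^ 2 / 2 := by positivity
  refine abs_le_of_sq_le_sq' ?_ (by positivity) |>.2
  rw [← Real.rpow_natCast ((T ^ 2 / 2) ^ ((3 : ℝ) / 2)) 2, ← Real.rpow_mul h0,
    show (3 : ℝ) / 2 * ((2 : ℕ) : ℝ) = ((3 : ℕ) : ℝ) by norm_num, Real.rpow_natCast]
  have : 0 ≤ T ^ 6 := by positivity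
  nlinarith

lemma loc_exp {T : ℝ} (hT : 0 < T) {r : ℝ} (hr : 0 ≤ r) :
    1 - Real.exp (-(π / (2 * T ^ 2)) * r ^ 2) ≤ 2 * (r / T) := by
  set s := r / T with hs
  have hs0 : 0 ≤ s := by positivity
  have e : -(π / (2 * T ^ 2)) * r ^ 2 = -(π / 2 * s ^ 2) := by
    rw [hs]; field_simp
  rw [e]
  by_cases h : 1 / 2 ≤ s
  · have := Real.exp_pos (-(π / 2 * s ^ 2))
    linarith
  · have h1 := Real.add_one_le_exp (-(π / 2 * s ^ 2))
    have h2 : π * s ≤ 4 := by nlinarith [Real.pi_le_four, Real.pi_pos]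
    nlinarith [mul_le_mul_of_nonneg_right h2 hs0]

/-- Localisation of a restriction integral to balls of radius `T`. -/
theorem loc_bound {ψ : E 3 → ℝ} (hψ : Continuous ψ) (hψ0 : ∀ ξ, 0 ≤ ψ ξ) (hψ1 : ∀ ξ, ψ ξ ≤ 1)
    {D : ℝ} (hD : ∀ x : E 3, ‖∫ ξ, (ψ ξ : ℂ) * conj (ew ξ x) ∂sig‖ ≤ D / (1 + ‖x‖))
    {g : E 3 → ℂ} (hg : Integrable g) {T : ℝ} (hT : 0 < T) {φ : E 3 → ℝ} (hφ : Integrable φ)
    (h : ∀ c : E 3,
      ∫ ξ, ψ ξ * ‖ft (fun x => ((gw T (x - c) : ℝ) : ℂ) * g x) ξ‖ ^ 2 ∂sig ≤ φ c) :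
    ∫ ξ, ψ ξ * ‖ft g ξ‖ ^ 2 ∂sig ≤ 2 * D * (∫ x, ‖g x‖) ^ 2 / T + 3 / T ^ 3 * ∫ c, φ c := by
  have hD0 : 0 ≤ D := by simpa using (norm_nonneg _).trans (hD 0)
  have hnu : ∀ z, ‖loc_nu ψ z‖ ≤ D / (1 + ‖z‖) := hD
  have hnu1 : ∀ z, ‖loc_nu ψ z‖ ≤ D := fun z =>
    (hnu z).trans (div_le_self hD0 (by linarith [norm_nonneg z]))
  have hc := loc_nu_cont hψ hψ0 hψ1
  have hg' : Integrable (fun x => conj (g x)) := by
    simpa using (Complex.conjCLE : ℂ →L[ℝ] ℂ).integrable_comp hg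
  set G : E 3 × E 3 → ℂ := fun p => g p.1 * conj (g p.2) * loc_nu ψ (p.1 - p.2) with hG
  have iG : Integrable G (volume.prod volume) :=
    (hg.mul_prod hg').mul_bdd (c := D) (by fun_prop) (Filter.Eventually.of_forall fun p => hnu1 _)
  set κ : ℝ := (T ^ 2 / 2) ^ ((3 : ℝ) / 2) with hκ
  have hκT : T ^ 3 / 3 ≤ κ := loc_kappa hT
  have hκ0 : 0 < κ := lt_of_lt_of_le (by positivity) hκT
  set e : E 3 × E 3 → ℝ := fun p => Real.exp (-(π / (2 * T ^ 2)) * ‖p.1 - p.2‖ ^ 2) with he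
  have ec : Continuous e := by rw [he]; fun_prop
  have e0 : ∀ p, 0 < e p := fun p => Real.exp_pos _
  have e1 : ∀ p, e p ≤ 1 := fun p => by
    refine Real.exp_le_one_iff.mpr ?_
    have : 0 ≤ π / (2 * T ^ 2) * ‖p.1 - p.2‖ ^ 2 := by positivity
    linarith
  set L : E 3 → ℝ := fun c =>
    ∫ ξ, ψ ξ * ‖ft (fun x => ((gw T (x - c) : ℝ) : ℂ) * g x) ξ‖ ^ 2 ∂sig with hL
  have hL0 : ∀ c, 0 ≤ L c := fun c =>
    integral_nonneg fun ξ => mul_nonneg (hψ0 ξ) (by positivity)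
  have hLφ : ∫ c, L c ≤ ∫ c, φ c :=
    integral_mono_of_nonneg (Filter.Eventually.of_forall hL0) hφ (Filter.Eventually.of_forall h)
  have hLe : ∀ c, (L c : ℂ) = ∫ p : E 3 × E 3,
      G p * ((gw T (p.1 - c) * gw T (p.2 - c) : ℝ) : ℂ) ∂(volume.prod volume) := by
    intro c
    have ig : Integrable (fun x => ((gw T (x - c) : ℝ) : ℂ) * g x) := by
      refine hg.bdd_mul (c := 1) (by fun_prop) (Filter.Eventually.of_forall fun x => ?_)
      rw [Complex.norm_real, Real.norm_eq_abs, abs_of_pos (gw_pos _ _)]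
      exact gw_le_one _ _
    rw [hL, loc_ident hψ hψ0 hψ1 ig]
    refine integral_congr_ae (Filter.Eventually.of_forall fun p => ?_)
    simp only [hG, map_mul, conj_ofReal, ofReal_mul]
    ring
  have iw : ∀ p : E 3 × E 3, Integrable (fun c => gw T (p.1 - c) * gw T (p.2 - c)) := fun p => by
    refine ((integrable_gw hT).comp_sub_left p.1).mul_bdd (c := 1) (by fun_prop)
      (Filter.Eventually.of_forall fun c => ?_)
    rw [Real.norm_eq_abs, abs_of_pos (gw_pos _ _)]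
    exact gw_le_one _ _
  have iF : Integrable (Function.uncurry fun (p : E 3 × E 3) (c : E 3) =>
      G p * ((gw T (p.1 - c) * gw T (p.2 - c) : ℝ) : ℂ)) ((volume.prod volume).prod volume) := by
    have m2 : Continuous fun q : (E 3 × E 3) × E 3 =>
        ((gw T (q.1.1 - q.2) * gw T (q.1.2 - q.2) : ℝ) : ℂ) := by fun_prop
    refine (integrable_prod_iff
      (iG.aestronglyMeasurable.comp_fst.mul m2.aestronglyMeasurable)).2 ⟨?_, ?_⟩
    · exact Filter.Eventually.of_forall fun p => (iw p).ofReal.const_mul (G p)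
    · refine (iG.norm.mul_bdd (g := fun p => κ * e p) (c := κ) (by fun_prop)
        (Filter.Eventually.of_forall fun p => ?_)).congr (Filter.Eventually.of_forall fun p => ?_)
      · rw [Real.norm_eq_abs, abs_of_pos (mul_pos hκ0 (e0 p))]
        exact mul_le_of_le_one_right hκ0.le (e1 p)
      · simp only [Pi.mul_apply, norm_mul, Complex.norm_real, Real.norm_eq_abs,
          abs_of_pos (gw_pos _ _)]
        rw [integral_const_mul, loc_conv hT]
  have hLi : ((∫ c, L c : ℝ) : ℂ) = κ * ∫ p, G p * (e p : ℂ) ∂(volume.prod volume) := by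
    rw [← integral_complex_ofReal]
    simp_rw [hLe]
    rw [← integral_integral_swap iF, ← integral_const_mul]
    refine integral_congr_ae (Filter.Eventually.of_forall fun p => ?_)
    simp only
    rw [integral_const_mul, integral_complex_ofReal, loc_conv hT]
    simp only [he, ofReal_mul]
    ring
  have iGe : Integrable (fun p => G p * (e p : ℂ)) (volume.prod volume) := by
    refine iG.mul_bdd (c := 1) (by fun_prop) (Filter.Eventually.of_forall fun p => ?_)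
    rw [Complex.norm_real, Real.norm_eq_abs, abs_of_pos (e0 p)]
    exact e1 p
  set X := ∫ ξ, ψ ξ * ‖ft g ξ‖ ^ 2 ∂sig with hX
  have hdiff : ((X - κ⁻¹ * ∫ c, L c : ℝ) : ℂ) =
      ∫ p, (G p - G p * (e p : ℂ)) ∂(volume.prod volume) := by
    have hκc : (κ : ℂ) ≠ 0 := ofReal_ne_zero.2 hκ0.ne'
    rw [integral_sub iG iGe, ofReal_sub, ofReal_mul, hLi, hX, loc_ident hψ hψ0 hψ1 hg, ofReal_inv,
      inv_mul_cancel_left₀ hκc]
  have hb : X - κ⁻¹ * ∫ c, L c ≤ 2 * D * (∫ x, ‖g x‖) ^ 2 / T := by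
    refine (le_abs_self _).trans ?_
    rw [← Real.norm_eq_abs, ← Complex.norm_real, hdiff,
      show 2 * D * (∫ x, ‖g x‖) ^ 2 / T = 2 * D / T * ((∫ x, ‖g x‖) * ∫ x, ‖g x‖) by ring,
      ← integral_prod_mul, ← integral_const_mul]
    refine norm_integral_le_of_norm_le ((hg.norm.mul_prod hg.norm).const_mul _)
      (Filter.Eventually.of_forall fun p => ?_)
    have e2 : G p - G p * (e p : ℂ) = G p * ((1 - e p : ℝ) : ℂ) := by push_cast; ring
    rw [e2, norm_mul, Complex.norm_real, Real.norm_eq_abs, abs_of_nonneg (sub_nonneg.2 (e1 p))]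
    simp only [hG, norm_mul, Complex.norm_conj]
    rw [mul_assoc, mul_comm (2 * D / T)]
    refine mul_le_mul_of_nonneg_left ?_ (by positivity)
    have r0 := norm_nonneg (p.1 - p.2)
    calc ‖loc_nu ψ (p.1 - p.2)‖ * (1 - e p)
        ≤ D / (1 + ‖p.1 - p.2‖) * (2 * (‖p.1 - p.2‖ / T)) :=
          mul_le_mul (hnu _) (loc_exp hT r0) (sub_nonneg.2 (e1 p)) (by positivity)
      _ = 2 * D / T * (‖p.1 - p.2‖ / (1 + ‖p.1 - p.2‖)) := by field_simp
      _ ≤ 2 * D / T := mul_le_of_le_one_right (by positivity)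
          ((div_le_one (by positivity)).2 (by linarith))
  have hi : κ⁻¹ ≤ 3 / T ^ 3 := by
    rw [← inv_div]
    exact inv_anti₀ (by positivity) hκT
  have hI0 : 0 ≤ ∫ c, L c := integral_nonneg hL0
  have := mul_le_mul hi hLφ hI0 (by positivity)
  linarith

end Pool.Agent.P.MP_f791b6_an
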