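import Pool.Agent.P.MP_f791b6_an.N3AH
import Pool.Agent.P.MP_f791b6_an.N3Loc

namespace Pool.Agent.P.MP_f791b6_an

open MeasureTheory Complex Metric
open scoped ComplexConjugate Real RealInnerProductSpace ENNReal

/-- Weighted Cauchy-Schwarz inequality. -/
lemma rst_cs {X : Type*} [MeasurableSpace X] {μ : Measure X} {w a b : X → ℝ} (hw : ∀ x, 0 ≤ w x)
    (hm : AEStronglyMeasurable (fun x => w x * a x * b x) μ)
    (ha : Integrable (fun x => w x * a x ^ 2) μ) (hb : Integrable (fun x => w x * b x ^ 2) μ) :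
    ∫ x, w x * a x * b x ∂μ ≤ √(∫ x, w x * a x ^ 2 ∂μ) * √(∫ x, w x * b x ^ 2 ∂μ) := by
  have hab : Integrable (fun x => w x * a x * b x) μ := by
    refine (ha.add hb).mono' hm (Filter.Eventually.of_forall fun x => ?_)
    simp only [Pi.add_apply]
    rw [Real.norm_eq_abs, abs_le]
    constructor <;> nlinarith [mul_nonneg (hw x) (sq_nonneg (a x + b x)),
      mul_nonneg (hw x) (sq_nonneg (a x - b x)), mul_nonneg (hw x) (sq_nonneg (a x)),
      mul_nonneg (hw x) (sq_nonneg (b x))]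
  have h0 : 0 ≤ ∫ x, w x * a x ^ 2 ∂μ := integral_nonneg fun x => mul_nonneg (hw x) (sq_nonneg _)
  have h1 : ∀ t : ℝ, 0 ≤ (∫ x, w x * a x ^ 2 ∂μ) * (t * t) +
      (-2 * ∫ x, w x * a x * b x ∂μ) * t + ∫ x, w x * b x ^ 2 ∂μ := fun t => by
    have e : 0 ≤ ∫ x, (w x * a x ^ 2 * (t * t) + w x * a x * b x * (-2 * t) +
        w x * b x ^ 2) ∂μ := integral_nonneg fun x => by
      simp only [Pi.zero_apply]
      nlinarith [mul_nonneg (hw x) (sq_nonneg (t * a x - b x))]
    have i1 : Integrable (fun x => w x * a x ^ 2 * (t * t) + w x * a x * b x * (-2 * t)) μ :=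
      (ha.mul_const _).add (hab.mul_const _)
    rw [integral_add i1 hb, integral_add (ha.mul_const _) (hab.mul_const _), integral_mul_const,
      integral_mul_const] at e
    linarith
  have h2 := discrim_le_zero h1
  rw [discrim] at h2
  rw [← Real.sqrt_mul h0]
  exact Real.le_sqrt_of_sq_le (by nlinarith)

lemma rst_amp_ft {g : E 3 → ℂ} (hg : Integrable g) : Amp (ft g) :=
  ⟨(continuous_ft hg).measurable, _, norm_ft_le g⟩

lemma rst_le_sq {X A : ℝ} (hX : 0 ≤ X) (_hA : 0 ≤ A) (h : X ≤ A * √X) : X ≤ A ^ 2 := by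
  have h1 := Real.mul_self_sqrt hX
  have h2 := Real.sqrt_nonneg X
  nlinarith [sq_nonneg (A - √X)]

lemma rst_sq_le {f : E 3 → ℂ} (hf : Amp f) (x : E 3) : ‖Ex f x‖ ^ 2 ≤ nsq f := by
  have := pow_le_pow_left₀ (norm_nonneg _) (hf.norm_Ex_le x) 2
  rwa [Real.sq_sqrt (nsq_nonneg f)] at this

lemma rst_int {f : E 3 → ℂ} (hf : Amp f) {H : E 3 → ℝ} (hH : Integrable H) :
    Integrable (fun x => H x * ‖Ex f x‖ ^ 2) :=
  hH.mul_bdd (c := nsq f) (hf.continuous_Ex.norm.pow 2).aestronglyMeasurable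
    (Filter.Eventually.of_forall fun x => by
      rw [Real.norm_eq_abs, abs_of_nonneg (sq_nonneg _)]; exact rst_sq_le hf x)

/-- Duality. -/
theorem dual_bound {g : E 3 → ℂ} (hg : Integrable g) {S : Set (E 3)} (hS : MeasurableSet S)
    {A : ℝ} (hA : 0 ≤ A) (h : ∀ f : E 3 → ℂ, Amp f → (∀ ξ, ξ ∉ S → f ξ = 0) →
      ‖∫ x, g x * conj (Ex f x)‖ ≤ A * √(nsq f)) :
    ∫ ξ in S, ‖ft g ξ‖ ^ 2 ∂sig ≤ A ^ 2 := by
  have hf := (rst_amp_ft hg).indicator hS
  have h1 := h _ hf fun ξ hξ => Set.indicator_of_notMem hξ _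
  have e1 : nsq (S.indicator (ft g)) = ∫ ξ in S, ‖ft g ξ‖ ^ 2 ∂sig := by
    rw [nsq, ← integral_indicator hS]
    refine integral_congr_ae (Filter.Eventually.of_forall fun ξ => ?_)
    by_cases hξ : ξ ∈ S <;> simp [hξ]
  have e2 : ∫ ξ, conj (S.indicator (ft g) ξ) * ft g ξ ∂sig = (nsq (S.indicator (ft g)) : ℝ) := by
    rw [nsq, ← integral_complex_ofReal]
    refine integral_congr_ae (Filter.Eventually.of_forall fun ξ => ?_)
    by_cases hξ : ξ ∈ S <;> simp [hξ, Complex.conj_mul']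
  rw [hf.pair hg, e2, Complex.norm_real, Real.norm_eq_abs, abs_of_nonneg (nsq_nonneg _)] at h1
  rw [← e1]
  exact rst_le_sq (nsq_nonneg _) hA h1

/-- Near and far parts. -/
theorem near_far {g : E 3 → ℂ} (hg : Integrable g) (hg2 : Integrable (fun x => ‖g x‖ ^ 2))
    {T : ℝ} (hT : 0 < T) :
    ∫ ξ, ‖ft g ξ‖ ^ 2 ∂sig ≤ 3 * T * (∫ x, ‖g x‖ ^ 2) + 4 * (∫ x, ‖g x‖) ^ 2 / T := by
  have hev : ∀ x c : E 3, gw T (x - c) = gw T (c - x) := fun x c => by
    rw [gw, gw, norm_sub_rev]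
  have hi := integrable_mul_sub hg2 (integrable_gw hT)
  have hφ : Integrable (fun c : E 3 => T * ∫ x, ‖g x‖ ^ 2 * gw T (c - x)) :=
    hi.integral_prod_left.const_mul T
  have hI : ∫ c : E 3, T * ∫ x, ‖g x‖ ^ 2 * gw T (c - x) = T * ((∫ x, ‖g x‖ ^ 2) * T ^ 3) := by
    rw [integral_const_mul, ← integral_gw hT, ← integral_mul_sub hg2 (integrable_gw hT),
      integral_prod _ hi]
  have h1 := loc_bound (ψ := fun _ => 1) continuous_const (fun _ => zero_le_one)
    (fun _ => le_rfl) (D := 2) (fun x => by simpa using sig_decay x) hg hT hφ fun c => by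
    have hc : Continuous fun x : E 3 => gw T (x - c) := by fun_prop
    have hb : ∀ x : E 3, ‖gw T (x - c)‖ ≤ 1 := fun x => by
      rw [Real.norm_eq_abs, abs_of_pos (gw_pos _ _)]; exact gw_le_one _ _
    have hg' : Integrable fun x => ((gw T (x - c) : ℝ) : ℂ) * g x :=
      hg.bdd_mul (c := 1) (by fun_prop) (Filter.Eventually.of_forall fun x => by
        rw [Complex.norm_real]; exact hb x)
    have i1 : Integrable fun x => gw T (x - c) * ‖g x‖ ^ 2 :=
      hg2.bdd_mul (c := 1) hc.aestronglyMeasurable (Filter.Eventually.of_forall hb)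
    have p1 : 0 ≤ ∫ x, gw T (x - c) * ‖g x‖ ^ 2 :=
      integral_nonneg fun x => mul_nonneg (gw_pos _ _).le (sq_nonneg _)
    have h2 := dual_bound hg' MeasurableSet.univ
      (A := √(T * ∫ x, gw T (x - c) * ‖g x‖ ^ 2)) (Real.sqrt_nonneg _) fun f hf _ => by
      have h3 := rst_cs (μ := volume) (w := fun x => gw T (x - c)) (a := fun x => ‖g x‖)
        (b := fun x => ‖Ex f x‖) (fun x => (gw_pos _ _).le)
        ((hc.aestronglyMeasurable.mul hg.aestronglyMeasurable.norm).mul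
          hf.continuous_Ex.norm.aestronglyMeasurable) i1
        (rst_int hf ((integrable_gw hT).comp_sub_right c))
      refine (norm_integral_le_integral_norm _).trans ?_
      have e : ∀ x, ‖((gw T (x - c) : ℝ) : ℂ) * g x * conj (Ex f x)‖ =
          gw T (x - c) * ‖g x‖ * ‖Ex f x‖ := fun x => by
        rw [norm_mul, norm_mul, Complex.norm_conj, Complex.norm_real, Real.norm_eq_abs,
          abs_of_pos (gw_pos _ _)]
      simp only [e]
      refine h3.trans ((mul_le_mul_of_nonneg_left (Real.sqrt_le_sqrt (hf.ah hT c))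
        (Real.sqrt_nonneg _)).trans (le_of_eq ?_))
      rw [Real.sqrt_mul hT.le, Real.sqrt_mul hT.le]
      ring
    rw [Measure.restrict_univ, Real.sq_sqrt (mul_nonneg hT.le p1)] at h2
    simp only [one_mul, ← hev _ c, mul_comm (‖g _‖ ^ 2)]
    exact h2
  simp only [one_mul] at h1
  rw [hI] at h1
  refine h1.trans (le_of_eq ?_)
  field_simp
  ring

/-- Restricted Stein-Tomas bound. -/
theorem Amp.rst {f : E 3 → ℂ} (hf : Amp f) {H : E 3 → ℝ} (hH : Wt H) {W : ℝ}
    (hW : ∫ x, H x ≤ W) : ∫ x, H x * ‖Ex f x‖ ^ 2 ≤ 7 * √W * nsq f := by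
  have hu := hf.continuous_Ex
  have hn := nsq_nonneg f
  have hW0 : 0 ≤ W := (integral_nonneg hH.nonneg).trans hW
  have iX := rst_int hf hH.int
  set X := ∫ x, H x * ‖Ex f x‖ ^ 2 with hX
  have hX0 : 0 ≤ X := integral_nonneg fun x => mul_nonneg (hH.nonneg x) (sq_nonneg _)
  rcases hW0.eq_or_lt with rfl | hW1
  · have : X ≤ ∫ x, H x * nsq f := integral_mono iX (hH.int.mul_const _) fun x =>
      mul_le_mul_of_nonneg_left (rst_sq_le hf x) (hH.nonneg x)
    rw [integral_mul_const] at this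
    have h2 := mul_le_mul_of_nonneg_right hW hn
    simp only [Real.sqrt_zero, mul_zero, zero_mul] at h2 ⊢
    linarith
  have hT : 0 < √W := Real.sqrt_pos.2 hW1
  have hTT := Real.mul_self_sqrt hW0
  have hng : ∀ x, ‖(H x : ℂ) * Ex f x‖ = H x * ‖Ex f x‖ := fun x => by
    rw [norm_mul, Complex.norm_real, Real.norm_eq_abs, abs_of_nonneg (hH.nonneg x)]
  have hg : Integrable fun x => (H x : ℂ) * Ex f x :=
    hH.int.ofReal.mul_bdd (c := √(nsq f)) hu.aestronglyMeasurable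
      (Filter.Eventually.of_forall hf.norm_Ex_le)
  have hle : ∀ x, ‖(H x : ℂ) * Ex f x‖ ^ 2 ≤ H x * ‖Ex f x‖ ^ 2 := fun x => by
    rw [hng, mul_pow]
    refine mul_le_mul_of_nonneg_right ?_ (sq_nonneg _)
    nlinarith [hH.nonneg x, hH.le_one x]
  have hg2 : Integrable fun x => ‖(H x : ℂ) * Ex f x‖ ^ 2 :=
    iX.mono' (hg.aestronglyMeasurable.norm.pow 2) (Filter.Eventually.of_forall fun x => by
      rw [Real.norm_eq_abs, abs_of_nonneg (sq_nonneg _)]; exact hle x)
  have h1 := near_far hg hg2 hT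
  have h2 : ∫ x, ‖(H x : ℂ) * Ex f x‖ ^ 2 ≤ X := integral_mono hg2 iX hle
  have h3 : (∫ x, ‖(H x : ℂ) * Ex f x‖) ^ 2 ≤ W * X := by
    have h4 := rst_cs (μ := volume) (w := H) (a := fun _ => 1) (b := fun x => ‖Ex f x‖) hH.nonneg
      ((hH.meas.aestronglyMeasurable.mul aestronglyMeasurable_const).mul
        hu.norm.aestronglyMeasurable) (by simpa using hH.int) iX
    simp only [mul_one, one_pow] at h4
    simp only [hng]
    refine (pow_le_pow_left₀ (integral_nonneg fun x => mul_nonneg (hH.nonneg x) (norm_nonneg _))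
      h4 2).trans ?_
    rw [mul_pow, Real.sq_sqrt (integral_nonneg hH.nonneg), Real.sq_sqrt hX0]
    exact mul_le_mul_of_nonneg_right hW hX0
  have h5 : nsq (ft fun x => (H x : ℂ) * Ex f x) ≤ 7 * √W * X := by
    refine h1.trans ?_
    have : 4 * (∫ x, ‖(H x : ℂ) * Ex f x‖) ^ 2 / √W ≤ 4 * √W * X := by
      rw [div_le_iff₀ hT]
      nlinarith
    nlinarith
  have hA := rst_amp_ft hg
  have h6 : X ≤ √(nsq f) * √(nsq (ft fun x => (H x : ℂ) * Ex f x)) := by
    have e : ((X : ℝ) : ℂ) = ∫ x, (H x : ℂ) * Ex f x * conj (Ex f x) := by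
      rw [hX, ← integral_complex_ofReal]
      refine integral_congr_ae (Filter.Eventually.of_forall fun x => ?_)
      simp [mul_assoc, Complex.mul_conj']
    have h7 := rst_cs (μ := sig) (w := fun _ => 1) (a := fun ξ => ‖f ξ‖)
      (b := fun ξ => ‖ft (fun x => (H x : ℂ) * Ex f x) ξ‖) (fun _ => zero_le_one)
      ((aestronglyMeasurable_const.mul hf.meas.norm.aestronglyMeasurable).mul
        hA.meas.norm.aestronglyMeasurable) (by simpa using hf.integrable_sq)
      (by simpa using hA.integrable_sq)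
    simp only [one_mul] at h7
    calc X = ‖((X : ℝ) : ℂ)‖ := by rw [Complex.norm_real, Real.norm_eq_abs, abs_of_nonneg hX0]
      _ ≤ _ := by
        rw [e, hf.pair hg]
        refine (norm_integral_le_integral_norm _).trans (le_trans (le_of_eq ?_) h7)
        simp only [norm_mul, Complex.norm_conj]
  have h8 : X ≤ √(7 * √W * nsq f) * √X := by
    refine h6.trans ((mul_le_mul_of_nonneg_left (Real.sqrt_le_sqrt h5)
      (Real.sqrt_nonneg _)).trans (le_of_eq ?_))
    rw [Real.sqrt_mul (by positivity) X, Real.sqrt_mul (by positivity) (nsq f)]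
    ring
  have h9 := rst_le_sq hX0 (Real.sqrt_nonneg _) h8
  rwa [Real.sq_sqrt (by positivity)] at h9

/-- Bilinear form of the restricted Stein-Tomas bound. -/
theorem Amp.rst2 {f1 f2 : E 3 → ℂ} (h1 : Amp f1) (h2 : Amp f2) {H : E 3 → ℝ} (hH : Wt H) {W : ℝ}
    (hW : ∫ x, H x ≤ W) :
    ∫ x, H x * ‖Ex f1 x‖ * ‖Ex f2 x‖ ≤ 7 * √W * √(nsq f1) * √(nsq f2) := by
  have h3 := rst_cs (μ := volume) (w := H) (a := fun x => ‖Ex f1 x‖) (b := fun x => ‖Ex f2 x‖)
    hH.nonneg ((hH.meas.aestronglyMeasurable.mul h1.continuous_Ex.norm.aestronglyMeasurable).mul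
      h2.continuous_Ex.norm.aestronglyMeasurable) (rst_int h1 hH.int) (rst_int h2 hH.int)
  refine h3.trans ((mul_le_mul (Real.sqrt_le_sqrt (h1.rst hH hW)) (Real.sqrt_le_sqrt (h2.rst hH hW))
    (Real.sqrt_nonneg _) (Real.sqrt_nonneg _)).trans (le_of_eq ?_))
  have h4 : 0 ≤ 7 * √W := by positivity
  have h5 := Real.mul_self_sqrt h4
  rw [Real.sqrt_mul h4, Real.sqrt_mul h4]
  linear_combination (√(nsq f1) * √(nsq f2)) * h5

end Pool.Agent.P.MP_f791b6_an
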