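import Pool.Agent.P.MP_f791b6_an.N3Level
import Pool.Agent.P.MP_f791b6_an.N3RST
import Pool.Agent.P.MP_f791b6_an.N3H
import Pool.Agent.P.MP_f791b6_an.N3Disc

namespace Pool.Agent.P.MP_f791b6_an

open MeasureTheory Complex Metric
open scoped ComplexConjugate Real RealInnerProductSpace ENNReal

lemma pigeon {a : ℕ → ℝ} {Λ : ℝ} (hΛ : 0 < Λ) {J : ℕ} (hJ : 1 ≤ J) (h : a J ≤ Λ ^ J * a 0) :
    ∃ j < J, a (j + 1) ≤ Λ * a j := by
  by_contra hc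
  push Not at hc
  have h1 : ∀ j, j < J → Λ ^ (j + 1) * a 0 < a (j + 1) := by
    intro j
    induction j with
    | zero => intro hj; simpa using hc 0 hj
    | succ i ih =>
      intro hj
      have := mul_lt_mul_of_pos_left (ih (by omega)) hΛ
      calc Λ ^ (i + 1 + 1) * a 0 = Λ * (Λ ^ (i + 1) * a 0) := by ring
        _ < Λ * a (i + 1) := this
        _ < _ := hc _ hj
  obtain ⟨i, rfl⟩ : ∃ i, J = i + 1 := ⟨J - 1, by omega⟩
  exact absurd h (not_le.mpr (h1 i (by omega)))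

lemma form_level {f g : E 3 → ℂ} (hf : Amp f) (hg : Amp g) {A γ : ℝ} (hA : 0 ≤ A) (hγ : 0 ≤ γ)
    (hγ1 : γ ≤ 1 / 2)
    (hyp : ∀ (h : E 3 → ℂ) (W : ℝ), Measurable h → (∀ x, ‖h x‖ ≤ 1) → Integrable h → 1 ≤ W →
      ∫ x, ‖h x‖ ≤ W → ‖∫ x, h x * (Ex g x * conj (Ex f x))‖ ≤ A * W ^ γ)
    {h : E 3 → ℂ} (hm : Measurable h) (hi : Integrable h) {C W V : ℝ} (hC : 1 ≤ C)
    (h1 : ∀ x, ‖h x‖ ≤ C) (hW : 1 ≤ W) (hV : 1 ≤ V) (h2 : ∫ x, ‖h x‖ ^ 2 ≤ W)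
    (h3 : ∫ x, ‖h x‖ ≤ C * V) {I : ℕ} (hI1 : 1 ≤ I) (hI : V ≤ 2 ^ I) :
    ‖∫ x, h x * (Ex g x * conj (Ex f x))‖ ≤ 2 * C * I * (2 * W) ^ γ * A := by
  have hC0 : 0 < C := by linarith
  have c1 := hf.continuous_Ex
  have c2 := hg.continuous_Ex
  have hn : ∀ x, ‖((C⁻¹ : ℝ) : ℂ) * h x‖ = C⁻¹ * ‖h x‖ := fun x => by
    rw [norm_mul, Complex.norm_real, Real.norm_eq_abs, abs_of_pos (inv_pos.mpr hC0)]
  have h4 := level_bound (φ := fun x => Ex g x * conj (Ex f x))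
    (by fun_prop : Continuous fun x => Ex g x * conj (Ex f x)).measurable
    (B := √(nsq g) * √(nsq f)) (fun x => by
      rw [norm_mul, Complex.norm_conj]
      exact mul_le_mul (hg.norm_Ex_le x) (hf.norm_Ex_le x) (norm_nonneg _) (Real.sqrt_nonneg _))
    hA hγ hγ1 hyp (h := fun x => ((C⁻¹ : ℝ) : ℂ) * h x) (hm.const_mul _)
    (fun x => by rw [hn, inv_mul_le_iff₀ hC0, mul_one]; exact h1 x) (hi.const_mul _) hW hV
    (by
      simp only [hn, mul_pow]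
      rw [integral_const_mul]
      have a1 : 0 ≤ ∫ x, ‖h x‖ ^ 2 := integral_nonneg fun x => by positivity
      have a2 : C⁻¹ ^ 2 ≤ 1 := pow_le_one₀ (by positivity) (inv_le_one_of_one_le₀ hC)
      nlinarith)
    (by simp only [hn]; rw [integral_const_mul, inv_mul_le_iff₀ hC0]; exact h3) hI
  simp only [mul_assoc ((C⁻¹ : ℝ) : ℂ)] at h4
  rw [integral_const_mul, norm_mul, Complex.norm_real, Real.norm_eq_abs,
    abs_of_pos (inv_pos.mpr hC0), inv_mul_le_iff₀ hC0] at h4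
  refine h4.trans ?_
  have a1 : (1 : ℝ) ≤ (2 * W) ^ γ := Real.one_le_rpow (by linarith) hγ
  have a2 : (1 : ℝ) ≤ I := by exact_mod_cast hI1
  have a3 : (1 : ℝ) ≤ I * (2 * W) ^ γ := one_le_mul_of_one_le_of_one_le a2 a1
  calc C * (A * (I * (2 * W) ^ γ + 1)) ≤ C * (A * (I * (2 * W) ^ γ + I * (2 * W) ^ γ)) := by gcongr
    _ = _ := by ring

/-- Negative directions from a bounded function representing the form on two caps. -/
theorem neu_of_h {Ω : Set (E 3)} (hm : MeasurableSet Ω) (hb : Bornology.IsBounded Ω)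
    (L : Submodule ℂ (E 3 → ℂ)) [FiniteDimensional ℂ L] (hL : ∀ u ∈ L, Test u)
    (hΩ : ∀ u ∈ L, tsupport u ⊆ Ω) (hR : ∀ u ∈ L, energy Ω u ≤ 4 * π ^ 2 * mass Ω u)
    {δ CG c : ℝ} (hCG : 0 < CG) (hc : 0 < c) (hc1 : c ≤ 1 / 2) (hG : GlobalEst δ CG c)
    {e1 e2 : E 3} (he : Tv δ e1 e2) {S1 S2 : Set (E 3)} (m1 : MeasurableSet S1)
    (m2 : MeasurableSet S2) (hd : Disjoint S1 S2) (s1 : ∀ ξ ∈ S1, ‖ξ - e1‖ ≤ δ / 80)
    (s2 : ∀ ξ ∈ S2, ‖ξ - e2‖ ≤ δ / 80)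
    {h : E 3 → ℂ} (hhm : Measurable h) (hi : Integrable h) {C W V : ℝ} (hC : 1 ≤ C)
    (h1 : ∀ x, ‖h x‖ ≤ C) (hW : 1 ≤ W) (hV : 1 ≤ V) (h2 : ∫ x, ‖h x‖ ^ 2 ≤ W)
    (h3 : ∫ x, ‖h x‖ ≤ C * V) {I : ℕ} (hI1 : 1 ≤ I) (hI : V ≤ 2 ^ I)
    (hk : ∀ ξ ∈ S1 ∪ S2, ∀ η ∈ S1 ∪ S2, ft h (ξ - η) = kk Ω (ξ - η)) {m : ℕ} (hm1 : 1 ≤ m)
    (hs : 448 * m * CG * C ^ 2 * I ^ 2 * (2 * W) ^ (1 - c) ≤
      ∫ p in S1 ×ˢ S2, ‖kk Ω (p.1 - p.2)‖ ^ 2 ∂(sig.prod sig)) :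
    NeuOK Ω (Module.finrank ℂ L + m) := by
  have hI0 : (0 : ℝ) < I := by exact_mod_cast hI1
  have hC0 : 0 < C := by linarith
  have hW0 : 0 < 2 * W := by linarith
  refine neu_of_bounds hm hb L hL hΩ hR m1 m2 hd (τ := 14 * C * I * (2 * W) ^ (1 / 2 : ℝ))
    (β := 2 * C * I * (2 * W) ^ (1 / 2 - c) * CG) (by positivity) (by positivity)
    (fun f hf hs => ?_) (fun f1 f2 hf1 hf2 t1 t2 => ?_) hm1 (le_trans (le_of_eq ?_) hs)
  · rw [QQ_eq hi hf hf fun ξ η a1 a2 => hk ξ (by_contra fun h => a1 (hs ξ h)) η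
      (by_contra fun h => a2 (hs η h))]
    refine (form_level hf hf (A := 7 * nsq f) (γ := 1 / 2) (by have := nsq_nonneg f; positivity)
      (by norm_num) le_rfl (fun h' W' b1 b2 b3 b4 b5 => ?_) hhm hi hC h1 hW hV h2 h3 hI1 hI).trans
      (le_of_eq (by ring))
    refine (norm_integral_le_integral_norm _).trans ?_
    have := hf.rst (H := fun x => ‖h' x‖) ⟨b1.norm, fun x => norm_nonneg _, b2, b3.norm⟩ b5
    rw [Real.sqrt_eq_rpow] at this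
    refine le_trans (le_of_eq ?_) (this.trans (le_of_eq (by ring)))
    simp only [norm_mul, Complex.norm_conj, sq]
  · rw [QQ_eq hi hf1 hf2 fun ξ η a1 a2 => hk ξ (Or.inl (by_contra fun h => a1 (t1 ξ h))) η
      (Or.inr (by_contra fun h => a2 (t2 η h)))]
    refine (form_level hf1 hf2 (A := CG * √(nsq f1) * √(nsq f2)) (γ := 1 / 2 - c) (by positivity)
      (by linarith) (by linarith) (fun h' W' b1 b2 b3 b4 b5 => ?_) hhm hi hC h1 hW hV h2 h3 hI1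
      hI).trans (le_of_eq (by ring))
    refine (hG e1 e2 he f1 f2 hf1 hf2 (fun ξ hξ => t1 ξ fun h => absurd (s1 ξ h) (not_le.mpr hξ))
      (fun ξ hξ => t2 ξ fun h => absurd (s2 ξ h) (not_le.mpr hξ)) W' b4 h' b1 b2 b3 b5).trans
      (le_of_eq (by ring))
  · have : (2 * W) ^ (1 - c) = (2 * W) ^ (1 / 2 : ℝ) * (2 * W) ^ (1 / 2 - c) := by
      rw [← Real.rpow_add hW0]; congr 1; ring
    rw [this]; ring

end Pool.Agent.P.MP_f791b6_an
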