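import Pool.Agent.P.MP_f791b6_an.N3Cap
import Pool.Agent.P.MP_f791b6_an.N3RST

namespace Pool.Agent.P.MP_f791b6_an

open MeasureTheory Complex Metric
open scoped ComplexConjugate Real RealInnerProductSpace ENNReal

lemma glob_cs {α : Type*} [MeasurableSpace α] {μ : Measure α} {p q r : α → ℝ}
    (hp : Integrable p μ) (hq : Integrable q μ) (hr : Integrable r μ) (p0 : ∀ x, 0 ≤ p x)
    (r0 : ∀ x, 0 ≤ r x) (h : ∀ x, q x ^ 2 ≤ p x * r x) :
    (∫ x, q x ∂μ) ^ 2 ≤ (∫ x, p x ∂μ) * ∫ x, r x ∂μ := by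
  have key : ∀ t : ℝ, 0 ≤ (∫ x, p x ∂μ) * (t * t) + (-2 * ∫ x, q x ∂μ) * t + ∫ x, r x ∂μ := by
    intro t
    have h1 : 0 ≤ ∫ x, (p x * (t * t) + (-2 * t) * q x + r x) ∂μ := integral_nonneg fun x => by
      have h3 : 0 ≤ p x * (t * t) + r x := add_nonneg (mul_nonneg (p0 x) (mul_self_nonneg t)) (r0 x)
      have h2 : |2 * t * q x| ≤ p x * (t * t) + r x := abs_le_of_sq_le_sq (by
        nlinarith [mul_le_mul_of_nonneg_left (h x) (sq_nonneg t),
          sq_nonneg (p x * (t * t) - r x)]) h3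
      have := le_abs_self (2 * t * q x)
      simp only [Pi.zero_apply]
      linarith
    have i1 : Integrable (fun x => p x * (t * t) + (-2 * t) * q x) μ :=
      (hp.mul_const _).add (hq.const_mul _)
    rw [integral_add i1 hr, integral_add (hp.mul_const _) (hq.const_mul _), integral_mul_const,
      integral_const_mul] at h1
    linarith
  have := discrim_le_zero key
  rw [discrim] at this
  nlinarith

lemma glob_conv {k : E 3 → ℝ} (hk : Integrable k) {T : ℝ} (hT : 0 < T) :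
    Integrable (fun c => ∫ x, gw T (x - c) * k x) ∧
      ∫ c, ∫ x, gw T (x - c) * k x = T ^ 3 * ∫ x, k x := by
  have e : (fun c => ∫ x, gw T (x - c) * k x) = fun c => ∫ x, k x * gw T (c - x) := by
    funext c
    refine integral_congr_ae (Filter.Eventually.of_forall fun x => ?_)
    simp only [gw]
    rw [norm_sub_rev, mul_comm]
  have i := integrable_mul_sub hk (integrable_gw hT)
  have j := integral_mul_sub hk (integrable_gw hT)
  rw [integral_prod _ i, integral_gw hT] at j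
  rw [e]
  exact ⟨i.integral_prod_left, j.trans (mul_comm _ _)⟩

lemma glob_int {f : E 3 → ℂ} (hf : Amp f) {H : E 3 → ℝ} (hH : Integrable H) (k : ℕ) :
    Integrable (fun x => H x * ‖Ex f x‖ ^ k) := by
  have := hf.continuous_Ex
  refine hH.mul_bdd (c := √(nsq f) ^ k) (by fun_prop) (Filter.Eventually.of_forall fun x => ?_)
  rw [Real.norm_eq_abs, abs_of_nonneg (by positivity)]
  exact pow_le_pow_left₀ (norm_nonneg _) (hf.norm_Ex_le x) k

lemma glob_l1 {f : E 3 → ℂ} (hf : Amp f) {H : E 3 → ℝ} (hH : Wt H) {W : ℝ} (hW : ∫ x, H x ≤ W) :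
    (∫ x, H x * ‖Ex f x‖) ^ 2 ≤ W * (7 * √W * nsq f) := by
  have i1 : Integrable (fun x => H x * ‖Ex f x‖) := by simpa using glob_int hf hH.int 1
  have h0 := hH.nonneg
  refine (glob_cs hH.int i1 (glob_int hf hH.int 2) h0
    (fun x => mul_nonneg (h0 x) (sq_nonneg _)) fun x => le_of_eq (by ring)).trans ?_
  exact mul_le_mul hW (hf.rst hH hW) (integral_nonneg fun x => mul_nonneg (h0 x) (sq_nonneg _))
    ((integral_nonneg h0).trans hW)

lemma glob_gw_int {G : Type*} [NormedAddCommGroup G] [NormedSpace ℝ G] {k : E 3 → G}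
    (hk : Integrable k) (T : ℝ) (c : E 3) : Integrable (fun x => gw T (x - c) • k x) :=
  hk.bdd_smul 1 (by fun_prop) (Filter.Eventually.of_forall fun x => by
    rw [Real.norm_eq_abs, abs_of_pos (gw_pos _ _)]; exact gw_le_one _ _)

lemma glob_wt {H : E 3 → ℝ} (hH : Wt H) (T : ℝ) (c : E 3) : Wt (fun x => gw T (x - c) * H x) :=
  ⟨(by fun_prop : Continuous fun x => gw T (x - c)).measurable.mul hH.meas,
    fun x => mul_nonneg (gw_pos _ _).le (hH.nonneg x),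
    fun x => mul_le_one₀ (gw_le_one _ _) (hH.nonneg x) (hH.le_one x), glob_gw_int hH.int T c⟩

lemma glob_sig_int {ψ : E 3 → ℝ} (hψ : Measurable ψ) (hψ0 : ∀ ξ, 0 ≤ ψ ξ) (hψ1 : ∀ ξ, ψ ξ ≤ 1)
    {g : E 3 → ℂ} (hg : Integrable g) : Integrable (fun ξ => ψ ξ * ‖ft g ξ‖ ^ 2) sig := by
  have := continuous_ft hg
  refine Integrable.of_bound (hψ.mul (by fun_prop : Continuous fun ξ =>
    ‖ft g ξ‖ ^ 2).measurable).aestronglyMeasurable ((∫ x, ‖g x‖) ^ 2)
    (Filter.Eventually.of_forall fun ξ => ?_)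
  rw [Real.norm_eq_abs, abs_of_nonneg (mul_nonneg (hψ0 ξ) (sq_nonneg _))]
  exact (mul_le_of_le_one_left (sq_nonneg _) (hψ1 ξ)).trans
    (pow_le_pow_left₀ (norm_nonneg _) (norm_ft_le g ξ) 2)

lemma glob_min {L a Wc n s Y C : ℝ} (ha : 0 ≤ a) (hW : 0 ≤ Wc) (hn : 0 ≤ n) (hs : 0 < s)
    (hY : 1 ≤ Y) (hC : 0 ≤ C) (h1 : L ≤ (C * (s / Y ^ 3) * √n) ^ 2)
    (h2 : L ≤ a + 4 * (Wc * (7 * √Wc * n)) / (s / Y)) : L ≤ a + 10 * (1 + C) * n / Y * Wc := by
  by_contra hc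
  have hY0 : 0 < Y := by linarith
  set m := L - a with hm
  have z0 : 0 ≤ 10 * (1 + C) * n / Y * Wc := by positivity
  have m1 : 10 * (1 + C) * n / Y * Wc < m := by linarith [not_le.1 hc]
  have m0 : 0 ≤ m := z0.trans m1.le
  have m2 : m ≤ C ^ 2 * s ^ 2 * n / Y ^ 6 := by
    have : (C * (s / Y ^ 3) * √n) ^ 2 = C ^ 2 * s ^ 2 * n / Y ^ 6 := by
      rw [mul_pow, Real.sq_sqrt hn]; field_simp
    linarith
  have m3 : m ^ 2 ≤ 784 * Wc ^ 3 * n ^ 2 * Y ^ 2 / s ^ 2 := by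
    have e : (4 * (Wc * (7 * √Wc * n)) / (s / Y)) ^ 2 = 784 * Wc ^ 3 * n ^ 2 * Y ^ 2 / s ^ 2 := by
      have : (4 * (Wc * (7 * √Wc * n)) / (s / Y)) ^ 2 =
          784 * (Wc ^ 2 * √Wc ^ 2) * n ^ 2 * Y ^ 2 / s ^ 2 := by field_simp; ring
      rw [this, Real.sq_sqrt hW]; ring
    rw [← e]
    exact pow_le_pow_left₀ m0 (by linarith) 2
  have m4 : m ^ 2 * m ≤ 784 * C ^ 2 / Y * (n / Y * Wc) ^ 3 :=
    (mul_le_mul m3 m2 m0 (by positivity)).trans (le_of_eq (by field_simp))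
  have m5 : 784 * C ^ 2 / Y ≤ (10 * (1 + C)) ^ 3 :=
    (div_le_self (by positivity) hY).trans (by nlinarith [pow_nonneg hC 3, sq_nonneg C])
  have m6 := pow_lt_pow_left₀ m1 z0 (n := 3) (by norm_num)
  have m7 := mul_le_mul_of_nonneg_right m5 (show 0 ≤ (n / Y * Wc) ^ 3 by positivity)
  have e : (10 * (1 + C) * n / Y * Wc) ^ 3 = (10 * (1 + C)) ^ 3 * (n / Y * Wc) ^ 3 := by ring
  nlinarith

lemma glob_g {f : E 3 → ℂ} (hf : Amp f) {h : E 3 → ℂ} (hi : Integrable h) :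
    Integrable (fun x => h x * Ex f x) :=
  hi.mul_bdd (c := √(nsq f)) hf.continuous_Ex.aestronglyMeasurable
    (Filter.Eventually.of_forall hf.norm_Ex_le)

lemma glob_g2 {f : E 3 → ℂ} (hf : Amp f) {h : E 3 → ℂ} (hi : Integrable h)
    (h1 : ∀ x, ‖h x‖ ≤ 1) : Integrable (fun x => ‖h x * Ex f x‖ ^ 2) ∧
      ∫ x, ‖h x * Ex f x‖ ^ 2 ≤ ∫ x, ‖h x‖ * ‖Ex f x‖ ^ 2 := by
  have hle : ∀ x, ‖h x * Ex f x‖ ^ 2 ≤ ‖h x‖ * ‖Ex f x‖ ^ 2 := fun x => by
    rw [norm_mul, mul_pow]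
    exact mul_le_mul_of_nonneg_right (by nlinarith [norm_nonneg (h x), h1 x]) (sq_nonneg _)
  have i : Integrable (fun x => ‖h x * Ex f x‖ ^ 2) :=
    (glob_int hf hi.norm 2).mono' ((glob_g hf hi).aestronglyMeasurable.norm.pow 2)
      (Filter.Eventually.of_forall fun x => by
        rw [Real.norm_eq_abs, abs_of_nonneg (sq_nonneg _)]; exact hle x)
  exact ⟨i, integral_mono i (glob_int hf hi.norm 2) hle⟩

lemma glob_loc {δ C c : ℝ} (hC : 0 ≤ C) (hL : LocalEst δ C c) {e1 e2 : E 3} (hT : Tv δ e1 e2)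
    {f : E 3 → ℂ} (hf : Amp f) (hs : ∀ ξ, δ / 40 < ‖ξ - e2‖ → f ξ = 0) {h : E 3 → ℂ}
    (hm : Measurable h) (h1 : ∀ x, ‖h x‖ ≤ 1) (hi : Integrable h) {s Y : ℝ} (s1 : 1 ≤ s)
    (Y1 : 1 ≤ Y) (hW : ∫ x, ‖h x‖ ≤ s ^ 2) (hp : (s * Y) ^ (1 - c) ≤ s / Y ^ 3) {ψ : E 3 → ℝ}
    (hψ : Continuous ψ) (hψ0 : ∀ ξ, 0 ≤ ψ ξ) (hψ1 : ∀ ξ, ψ ξ ≤ 1)
    (hψ2 : ∀ ξ, δ / 40 < ‖ξ - e1‖ → ψ ξ = 0) (c0 : E 3) :
    ∫ ξ, ψ ξ * ‖ft (fun x => ((gw (s * Y) (x - c0) : ℝ) : ℂ) * (h x * Ex f x)) ξ‖ ^ 2 ∂sig ≤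
      ∫ x, gw (s * Y) (x - c0) *
        (3 * (s / Y) * ‖h x * Ex f x‖ ^ 2 + 10 * (1 + C) * nsq f / Y * ‖h x‖) := by
  set T := s * Y with hTd
  have T1 : 1 ≤ T := one_le_mul_of_one_le_of_one_le s1 Y1
  have hH : Wt (fun x => ‖h x‖) := ⟨hm.norm, fun x => norm_nonneg _, h1, hi.norm⟩
  have hH' := glob_wt hH T c0
  set G : E 3 → ℂ := fun x => ((gw T (x - c0) : ℝ) : ℂ) * (h x * Ex f x) with hG
  have nG : ∀ x, ‖G x‖ = gw T (x - c0) * ‖h x * Ex f x‖ := fun x => by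
    rw [hG]
    simp only
    rw [norm_mul, Complex.norm_real, Real.norm_eq_abs, abs_of_pos (gw_pos _ _)]
  have iG : Integrable G := glob_gw_int (glob_g hf hi) T c0
  have i2 : Integrable (fun x => gw T (x - c0) * ‖h x * Ex f x‖ ^ 2) :=
    glob_gw_int (glob_g2 hf hi h1).1 T c0
  have l2 : ∀ x, ‖G x‖ ^ 2 ≤ gw T (x - c0) * ‖h x * Ex f x‖ ^ 2 := fun x => by
    rw [nG, mul_pow]
    exact mul_le_mul_of_nonneg_right
      (by nlinarith [gw_pos T (x - c0), gw_le_one T (x - c0)]) (sq_nonneg _)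
  have iG2 : Integrable (fun x => ‖G x‖ ^ 2) :=
    i2.mono' (iG.aestronglyMeasurable.norm.pow 2) (Filter.Eventually.of_forall fun x => by
      rw [Real.norm_eq_abs, abs_of_nonneg (sq_nonneg _)]; exact l2 x)
  have iF : Integrable (fun ξ => ‖ft G ξ‖ ^ 2) sig := by
    simpa using glob_sig_int (ψ := fun _ => 1) measurable_const (fun _ => zero_le_one)
      (fun _ => le_rfl) iG
  have iP := glob_sig_int hψ.measurable hψ0 hψ1 iG
  have hn := nsq_nonneg f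
  have sY : 0 < s / Y := by positivity
  have e : ∫ x, gw T (x - c0) *
      (3 * (s / Y) * ‖h x * Ex f x‖ ^ 2 + 10 * (1 + C) * nsq f / Y * ‖h x‖) =
      3 * (s / Y) * (∫ x, gw T (x - c0) * ‖h x * Ex f x‖ ^ 2) +
        10 * (1 + C) * nsq f / Y * ∫ x, gw T (x - c0) * ‖h x‖ := by
    rw [← integral_const_mul, ← integral_const_mul,
      ← integral_add (i2.const_mul _) (hH'.int.const_mul _)]
    exact integral_congr_ae (Filter.Eventually.of_forall fun x => by ring)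
  rw [e]
  refine glob_min (s := s) (mul_nonneg (by positivity) (integral_nonneg fun x =>
    mul_nonneg (gw_pos _ _).le (sq_nonneg _))) (integral_nonneg hH'.nonneg) hn (by linarith) Y1 hC
    ?_ ?_
  · refine le_trans ?_ (dual_bound iG (S := closedBall e1 (δ / 40)) measurableSet_closedBall
      (by positivity) fun f1 hf1 hs1 => ?_)
    · rw [← integral_indicator measurableSet_closedBall]
      refine integral_mono iP (iF.indicator measurableSet_closedBall) fun ξ => ?_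
      by_cases hξ : ξ ∈ closedBall e1 (δ / 40)
      · rw [Set.indicator_of_mem hξ]
        exact mul_le_of_le_one_left (sq_nonneg _) (hψ1 ξ)
      · rw [Set.indicator_of_notMem hξ]
        simp only
        rw [hψ2 ξ (by rwa [mem_closedBall, dist_eq_norm, not_le] at hξ), zero_mul]
    · have h2 := hL e1 e2 hT f1 f hf1 hf
        (fun ξ hξ => hs1 ξ (by rwa [mem_closedBall, dist_eq_norm, not_le])) hs T T1 _ hH
        (hW.trans (pow_le_pow_left₀ (by linarith) (le_mul_of_one_le_right (by linarith) Y1) 2)) c0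
      calc ‖∫ x, G x * conj (Ex f1 x)‖ ≤ ∫ x, ‖G x * conj (Ex f1 x)‖ :=
            norm_integral_le_integral_norm _
        _ = ∫ x, gw T (x - c0) * ‖h x‖ * ‖Ex f1 x‖ * ‖Ex f x‖ := by
            refine integral_congr_ae (Filter.Eventually.of_forall fun x => ?_)
            simp only
            rw [norm_mul, nG, norm_mul, Complex.norm_conj]; ring
        _ ≤ C * T ^ (1 - c) * √(nsq f1) * √(nsq f) := h2
        _ ≤ C * (s / Y ^ 3) * √(nsq f1) * √(nsq f) := by gcongr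
        _ = _ := by ring
  · have h2 : (∫ x, ‖G x‖) ^ 2 ≤ _ := le_of_eq_of_le (by
      congr 1
      refine integral_congr_ae (Filter.Eventually.of_forall fun x => ?_)
      simp only
      rw [nG, norm_mul, mul_assoc]) (glob_l1 hf hH' le_rfl)
    refine (integral_mono iP iF fun ξ => mul_le_of_le_one_left (sq_nonneg _) (hψ1 ξ)).trans
      ((near_far iG iG2 sY).trans ?_)
    have h3 := integral_mono iG2 i2 l2
    gcongr

/-- The local estimate implies the global one. -/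
theorem global_of_local {δ C c : ℝ} (hδ : 0 < δ) (hC : 0 ≤ C) (hc : 0 < c) (hc1 : c ≤ 1)
    (h : LocalEst δ C c) : ∃ C' : ℝ, 0 < C' ∧ GlobalEst δ C' (c / 16) := by
  obtain ⟨D, hD, hcap⟩ := exists_cap (r := δ / 80) (by positivity)
  refine ⟨14 * D + 63 + 30 * (1 + C), by positivity, ?_⟩
  intro e1 e2 hT f1 f2 hf1 hf2 hs1 hs2 W W1 k hm k1 hi hW
  obtain ⟨ψ, hψ, hψ0, hψ1, hψ2, hψ3, hψ4⟩ := hcap e1
  have W0 : 0 < W := by linarith
  have n1 := nsq_nonneg f1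
  have n2 := nsq_nonneg f2
  have hH : Wt (fun x => ‖k x‖) := ⟨hm.norm, fun x => norm_nonneg _, k1, hi.norm⟩
  have s1 : 1 ≤ √W := Real.one_le_sqrt.2 W1
  have Y1 : 1 ≤ W ^ (c / 8) := Real.one_le_rpow W1 (by positivity)
  have s2 : √W ^ 2 = W := Real.sq_sqrt W0.le
  have hp : (√W * W ^ (c / 8)) ^ (1 - c) ≤ √W / (W ^ (c / 8)) ^ 3 := by
    rw [Real.sqrt_eq_rpow, ← Real.rpow_add W0, ← Real.rpow_mul W0.le, ← Real.rpow_natCast,
      ← Real.rpow_mul W0.le, ← Real.rpow_sub W0]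
    exact Real.rpow_le_rpow_of_exponent_le W1 (by push_cast; nlinarith)
  have hq : (W ^ (1 / 2 - c / 16)) ^ 2 = √W ^ 2 / W ^ (c / 8) := by
    rw [s2, ← Real.rpow_natCast, ← Real.rpow_mul W0.le, eq_div_iff (by positivity),
      ← Real.rpow_add W0]
    conv_rhs => rw [← Real.rpow_one W]
    congr 1; push_cast; ring
  have l1 := glob_l1 hf2 hH hW
  have l2 := (glob_g2 hf2 hi k1).2.trans (hf2.rst hH hW)
  have ig := glob_g hf2 hi
  have ig2 := (glob_g2 hf2 hi k1).1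
  generalize W ^ (c / 8) = Y at Y1 hp hq
  rw [← s2] at hW
  nth_rewrite 1 [← s2] at l1
  generalize √W = s at s1 hp hq l1 l2 hW
  have s0 : 0 < s := by linarith
  have Y0 : 0 < Y := by linarith
  have ik : Integrable (fun x => 3 * (s / Y) * ‖k x * Ex f2 x‖ ^ 2 +
      10 * (1 + C) * nsq f2 / Y * ‖k x‖) := (ig2.const_mul _).add (hi.norm.const_mul _)
  obtain ⟨c1, c2⟩ := glob_conv ik (T := s * Y) (by positivity)
  have hb := loc_bound hψ hψ0 hψ1 hψ4 ig (T := s * Y) (by positivity) c1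
    (glob_loc hC h hT hf2 (fun ξ hξ => hs2 ξ (by linarith)) hm k1 hi s1 Y1 hW hp hψ hψ0 hψ1
      (fun ξ hξ => hψ3 ξ (by linarith)))
  rw [c2, integral_add (ig2.const_mul _) (hi.norm.const_mul _), integral_const_mul,
    integral_const_mul] at hb
  simp only [← norm_mul] at l1
  have hb2 : ∫ ξ, ψ ξ * ‖ft (fun x => k x * Ex f2 x) ξ‖ ^ 2 ∂sig ≤
      (14 * D + 63 + 30 * (1 + C)) * (s ^ 2 / Y) * nsq f2 := by
    refine hb.trans (le_trans (b := 2 * D * (s ^ 2 * (7 * s * nsq f2)) / (s * Y) + 3 / (s * Y) ^ 3 *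
      ((s * Y) ^ 3 * (3 * (s / Y) * (7 * s * nsq f2) + 10 * (1 + C) * nsq f2 / Y * s ^ 2)))
      (by gcongr) (le_of_eq ?_))
    field_simp
    ring
  have hF := continuous_ft ig
  have i1 : Integrable (fun ξ => ‖f1 ξ‖ * ‖ft (fun x => k x * Ex f2 x) ξ‖) sig :=
    hf1.integrable.norm.mul_bdd (c := ∫ x, ‖k x * Ex f2 x‖) (by fun_prop)
      (Filter.Eventually.of_forall fun ξ => by rw [norm_norm]; exact norm_ft_le _ ξ)
  have h3 := glob_cs hf1.integrable_sq i1 (glob_sig_int hψ.measurable hψ0 hψ1 ig)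
    (fun ξ => sq_nonneg _) (fun ξ => mul_nonneg (hψ0 ξ) (sq_nonneg _)) fun ξ => by
      by_cases hξ : ‖ξ - e1‖ ≤ δ / 80
      · rw [hψ2 ξ hξ, one_mul, mul_pow]
      · rw [hs1 ξ (not_le.1 hξ)]; simp
  have h4 : ‖∫ x, k x * (Ex f2 x * conj (Ex f1 x))‖ ≤
      ∫ ξ, ‖f1 ξ‖ * ‖ft (fun x => k x * Ex f2 x) ξ‖ ∂sig := by
    simp only [← mul_assoc]
    rw [hf1.pair ig]
    refine (norm_integral_le_integral_norm _).trans (le_of_eq ?_)
    simp only [norm_mul, Complex.norm_conj]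
  refine h4.trans (le_of_sq_le_sq (h3.trans ?_) (by positivity))
  set K := 14 * D + 63 + 30 * (1 + C) with hK
  have K1 : K ≤ K ^ 2 := by nlinarith
  rw [mul_pow, mul_pow, mul_pow, hq, Real.sq_sqrt n1, Real.sq_sqrt n2]
  calc _ ≤ nsq f1 * (K * (s ^ 2 / Y) * nsq f2) := mul_le_mul_of_nonneg_left hb2 n1
    _ ≤ nsq f1 * (K ^ 2 * (s ^ 2 / Y) * nsq f2) := by gcongr
    _ = _ := by ring

end Pool.Agent.P.MP_f791b6_an
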