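import Pool.Agent.P.MP_f791b6_an.N3Defs

namespace Pool.Agent.P.MP_f791b6_an

open MeasureTheory Complex Metric
open scoped ComplexConjugate Real RealInnerProductSpace ENNReal

/-- index of the cell of side `s` that contains `t` -/
noncomputable def grid_idx (s t : ℝ) : Fin (⌊4 / s⌋₊ + 1) :=
  ⟨min ⌊(t + 2) / s⌋₊ ⌊4 / s⌋₊, Nat.lt_succ_of_le (min_le_right _ _)⟩

lemma grid_idx_meas (s : ℝ) : Measurable (grid_idx s) := by
  have h : Measurable fun t : ℝ => ⌊(t + 2) / s⌋₊ :=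
    Nat.measurable_floor.comp ((measurable_id.add_const 2).div_const s)
  exact (measurable_of_countable (fun n : ℕ => (⟨min n ⌊4 / s⌋₊,
    Nat.lt_succ_of_le (min_le_right _ _)⟩ : Fin (⌊4 / s⌋₊ + 1)))).comp h

lemma grid_idx_near {s t : ℝ} (hs : 0 < s) (ht : |t| ≤ 2) :
    (t - ((grid_idx s t : ℕ) * s - 2)) ^ 2 ≤ s ^ 2 := by
  obtain ⟨h1, h2⟩ := abs_le.1 ht
  have h3 : ⌊(t + 2) / s⌋₊ ≤ ⌊4 / s⌋₊ :=
    Nat.floor_le_floor (div_le_div_of_nonneg_right (by linarith) hs.le)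
  have h4 : (grid_idx s t : ℕ) = ⌊(t + 2) / s⌋₊ := min_eq_left h3
  have h5 : (⌊(t + 2) / s⌋₊ : ℝ) ≤ (t + 2) / s := Nat.floor_le (div_nonneg (by linarith) hs.le)
  have h6 : (t + 2) / s < ⌊(t + 2) / s⌋₊ + 1 := Nat.lt_floor_add_one _
  rw [le_div_iff₀ hs] at h5
  rw [div_lt_iff₀ hs] at h6
  rw [h4]
  exact pow_le_pow_left₀ (by linarith) (by linarith) 2

theorem exists_grid {θ : ℝ} (hθ : 0 < θ) (hθ1 : θ ≤ 1) :
    ∃ (N : ℕ) (ind : E 3 → Fin N) (p : Fin N → E 3), Grid θ ind p := by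
  classical
  have hs : 0 < θ / 2 := by positivity
  set K : ℕ := ⌊4 / (θ / 2)⌋₊ + 1 with hK
  let e : (Fin 3 → Fin K) ≃ Fin (K ^ 3) := finFunctionFinEquiv
  let c : (Fin 3 → Fin K) → E 3 := fun a => WithLp.toLp 2 fun j => (a j : ℕ) * (θ / 2) - 2
  let i : E 3 → Fin 3 → Fin K := fun ζ j => grid_idx (θ / 2) (ζ j)
  have hn : ∀ ζ : E 3, ‖ζ‖ ≤ 2 → ‖ζ - c (i ζ)‖ ≤ θ := fun ζ hζ => by
    have h : ∀ j, ((ζ - c (i ζ)) j) ^ 2 ≤ (θ / 2) ^ 2 := fun j =>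
      grid_idx_near hs ((PiLp.norm_apply_le ζ j).trans hζ)
    refine (abs_le_of_sq_le_sq' ?_ hθ.le).2
    rw [nsq3]
    nlinarith [h 0, h 1, h 2, sq_nonneg θ]
  refine ⟨K ^ 3, fun ζ => e (i ζ), fun a => if ‖c (e.symm a)‖ ≤ 3 then c (e.symm a) else 0,
    ?_, fun ζ hζ => ?_, fun a => ?_, ?_⟩
  · refine (measurable_of_countable e).comp (measurable_pi_lambda _ fun j => ?_)
    exact (grid_idx_meas _).comp (by fun_prop : Continuous fun ζ : E 3 => ζ j).measurable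
  · have h1 := hn ζ hζ
    have h2 : ‖c (i ζ)‖ ≤ 3 := by
      have h3 := norm_sub_norm_le (c (i ζ)) ζ
      rw [norm_sub_rev] at h3
      linarith
    simp only [Equiv.symm_apply_apply, if_pos h2]
    exact h1
  · split_ifs with h
    · exact h
    · simp
  · have h1 : (K : ℝ) ≤ 9 / θ := by
      have h2 : (⌊4 / (θ / 2)⌋₊ : ℝ) ≤ 4 / (θ / 2) := Nat.floor_le (by positivity)
      have h3 : 4 / (θ / 2) = 8 / θ := by field_simp; norm_num
      have h4 : 1 ≤ 1 / θ := by rw [le_div_iff₀ hθ]; linarith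
      have h5 : 9 / θ = 8 / θ + 1 / θ := by ring
      rw [hK]
      push_cast
      linarith
    calc ((K ^ 3 : ℕ) : ℝ) = (K : ℝ) ^ 3 := by push_cast; rfl
      _ ≤ (9 / θ) ^ 3 := pow_le_pow_left₀ (Nat.cast_nonneg _) h1 3
      _ = 729 / θ ^ 3 := by rw [div_pow]; norm_num
      _ ≤ 1000 / θ ^ 3 := div_le_div_of_nonneg_right (by norm_num) (by positivity)

end Pool.Agent.P.MP_f791b6_an
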