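import Pool.Agent.P.MP_f791b6_an.N3Defs

namespace Pool.Agent.P.MP_f791b6_an

open MeasureTheory Complex Metric
open scoped ComplexConjugate Real RealInnerProductSpace ENNReal

lemma k2_int1 : ∫ x : E 3, Real.exp (-‖x‖) = 8 * π := by
  have h := measure_unitBall_eq_integral_div_gamma (E := E 3) (p := 1) volume one_pos
  rw [EuclideanSpace.volume_ball_fin_three] at h
  simp only [Real.rpow_one, finrank_euclideanSpace, Fintype.card_fin, div_one,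
    ENNReal.ofReal_one, one_pow, one_mul] at h
  have hG : Real.Gamma (((3 : ℕ) : ℝ) + 1) = 6 := by
    rw [Real.Gamma_nat_eq_factorial]; norm_num [Nat.factorial]
  rw [hG] at h
  have h0 : 0 ≤ ∫ x : E 3, Real.exp (-‖x‖) := integral_nonneg fun x => (Real.exp_pos _).le
  have h2 := (ENNReal.ofReal_eq_ofReal_iff (by positivity) (by positivity)).1 h
  linarith

lemma k2_int2 {l : ℝ} (hl : 0 < l) : ∫ x : E 3, Real.exp (-‖x‖ / l) = 8 * π * l ^ 3 := by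
  have h := Measure.integral_comp_inv_smul_of_nonneg (volume : Measure (E 3))
    (fun x : E 3 => Real.exp (-‖x‖)) hl.le
  rw [k2_int1] at h
  simp only [finrank_euclideanSpace, Fintype.card_fin, smul_eq_mul, norm_smul, norm_inv,
    Real.norm_eq_abs, abs_of_pos hl] at h
  rw [show 8 * π * l ^ 3 = l ^ 3 * (8 * π) by ring, ← h]
  refine integral_congr_ae (Filter.Eventually.of_forall fun x => ?_)
  simp only
  congr 1
  ring

lemma k2_int3 {l : ℝ} (hl : 0 < l) (c : E 3) :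
    ∫⁻ x : E 3, ENNReal.ofReal (Real.exp (-‖x - c‖ / l)) = ENNReal.ofReal (8 * π * l ^ 3) := by
  rw [lintegral_sub_right_eq_self (fun x : E 3 => ENNReal.ofReal (Real.exp (-‖x‖ / l))) c]
  have hi : Integrable (fun x : E 3 => Real.exp (-‖x‖ / l)) := by
    refine Integrable.of_integral_ne_zero ?_
    rw [k2_int2 hl]; positivity
  rw [← k2_int2 hl, ofReal_integral_eq_lintegral_ofReal hi
    (Filter.Eventually.of_forall fun x => (Real.exp_pos _).le)]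

lemma k2_sep {δ : ℝ} {e1 e2 : E 3} (he : Tv δ e1 e2) (t1 t2 : ℝ) :
    δ / 2 * (|t1| + |t2|) ≤ ‖t1 • e1 - t2 • e2‖ := by
  have hδ := he.pos
  have h1 : ‖e1 - e2‖ ^ 2 = 2 - 2 * ⟪e1, e2⟫ := by
    rw [norm_sub_sq_real, he.n1, he.n2]; ring
  have h2 : δ ^ 2 ≤ ‖e1 - e2‖ ^ 2 := pow_le_pow_left₀ hδ.le he.lo 2
  have h3 : ‖e1 - e2‖ ^ 2 ≤ 1 := pow_le_one₀ (norm_nonneg _) he.hi
  have h4 : ‖t1 • e1 - t2 • e2‖ ^ 2 = t1 ^ 2 + t2 ^ 2 - 2 * (t1 * t2) * ⟪e1, e2⟫ := by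
    rw [norm_sub_sq_real, norm_smul, norm_smul, he.n1, he.n2, real_inner_smul_left,
      real_inner_smul_right]
    simp only [Real.norm_eq_abs, mul_one, sq_abs]
    ring
  refine le_of_sq_le_sq ?_ (norm_nonneg _)
  rw [h4, ← sq_abs t1, ← sq_abs t2]
  have h5 : t1 * t2 ≤ |t1| * |t2| := by rw [← abs_mul]; exact le_abs_self _
  have h6 : 0 ≤ |t1| * |t2| := by positivity
  have hc0 : 0 ≤ ⟪e1, e2⟫ := by linarith
  have hc1 : ⟪e1, e2⟫ ≤ 1 - δ ^ 2 / 2 := by linarith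
  have h7 : t1 * t2 * ⟪e1, e2⟫ ≤ |t1| * |t2| * (1 - δ ^ 2 / 2) :=
    (mul_le_mul_of_nonneg_right h5 hc0).trans (mul_le_mul_of_nonneg_left hc1 h6)
  have h8 : δ ^ 2 * (|t1| - |t2|) ^ 2 ≤ 1 * (|t1| - |t2|) ^ 2 :=
    mul_le_mul_of_nonneg_right (h2.trans h3) (sq_nonneg _)
  nlinarith [sq_nonneg (|t1| - |t2|)]

lemma k2_dec (v z : E 3) : ∃ (a : E 3) (t : ℝ), ‖a‖ = ld v z ∧ v = a + t • z :=
  ⟨v - (⟪v, z⟫ / ‖z‖ ^ 2) • z, ⟪v, z⟫ / ‖z‖ ^ 2, rfl, by simp⟩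

lemma k2_ld_nonneg (v z : E 3) : 0 ≤ ld v z := norm_nonneg _

lemma k2_two {δ : ℝ} {e1 e2 : E 3} (he : Tv δ e1 e2) {z1 z2 : E 3} (h1 : ‖z1 - e1‖ ≤ δ / 20)
    (h2 : ‖z2 - e2‖ ≤ δ / 20) (y1 y2 x x' : E 3) :
    δ * ‖x - x'‖ ≤ 2 * ((ld (x - y1) z1 + ld (x - y2) z2) + (ld (x' - y1) z1 + ld (x' - y2) z2)) := by
  have hδ := he.pos
  have hδ1 : δ ≤ 1 := he.lo.trans he.hi
  obtain ⟨a1, s1, ha1, e1'⟩ := k2_dec (x - y1) z1
  obtain ⟨a2, s2, ha2, e2'⟩ := k2_dec (x - y2) z2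
  obtain ⟨b1, r1, hb1, f1⟩ := k2_dec (x' - y1) z1
  obtain ⟨b2, r2, hb2, f2⟩ := k2_dec (x' - y2) z2
  rw [← ha1, ← ha2, ← hb1, ← hb2]
  have g1 : x - x' = (a1 - b1) + (s1 - r1) • z1 := by
    rw [show x - x' = (x - y1) - (x' - y1) by abel, e1', f1, sub_smul]; abel
  have g2 : x - x' = (a2 - b2) + (s2 - r2) • z2 := by
    rw [show x - x' = (x - y2) - (x' - y2) by abel, e2', f2, sub_smul]; abel
  set t1 := s1 - r1
  set t2 := s2 - r2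
  have n1 : ‖a1 - b1‖ ≤ ‖a1‖ + ‖b1‖ := norm_sub_le _ _
  have n2 : ‖a2 - b2‖ ≤ ‖a2‖ + ‖b2‖ := norm_sub_le _ _
  have k1 : t1 • e1 - t2 • e2 = ((a2 - b2) - (a1 - b1)) - (t1 • (z1 - e1) - t2 • (z2 - e2)) := by
    have : t1 • z1 - t2 • z2 = (a2 - b2) - (a1 - b1) := by
      have := g1.symm.trans g2
      calc t1 • z1 - t2 • z2 = ((a1 - b1) + t1 • z1) - (a1 - b1) - t2 • z2 := by abel
        _ = _ := by rw [this]; abel
    rw [← this, smul_sub, smul_sub]; abel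
  have m1 : ‖t1 • (z1 - e1)‖ ≤ |t1| * (δ / 20) := by
    rw [norm_smul, Real.norm_eq_abs]; exact mul_le_mul_of_nonneg_left h1 (abs_nonneg _)
  have m2 : ‖t2 • (z2 - e2)‖ ≤ |t2| * (δ / 20) := by
    rw [norm_smul, Real.norm_eq_abs]; exact mul_le_mul_of_nonneg_left h2 (abs_nonneg _)
  have k2 : ‖t1 • e1 - t2 • e2‖ ≤ (‖a2 - b2‖ + ‖a1 - b1‖) + (|t1| * (δ / 20) + |t2| * (δ / 20)) := by
    rw [k1]
    exact (norm_sub_le _ _).trans (add_le_add (norm_sub_le _ _)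
      ((norm_sub_le _ _).trans (add_le_add m1 m2)))
  have k3 := k2_sep he t1 t2
  have z1n : ‖z1‖ ≤ 21 / 20 := by
    have := norm_add_le (z1 - e1) e1
    rw [sub_add_cancel, he.n1] at this; linarith
  have z2n : ‖z2‖ ≤ 21 / 20 := by
    have := norm_add_le (z2 - e2) e2
    rw [sub_add_cancel, he.n2] at this; linarith
  have p1 : ‖x - x'‖ ≤ ‖a1 - b1‖ + |t1| * (21 / 20) := by
    rw [g1]
    refine (norm_add_le _ _).trans (add_le_add le_rfl ?_)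
    rw [norm_smul, Real.norm_eq_abs]; exact mul_le_mul_of_nonneg_left z1n (abs_nonneg _)
  have p2 : ‖x - x'‖ ≤ ‖a2 - b2‖ + |t2| * (21 / 20) := by
    rw [g2]
    refine (norm_add_le _ _).trans (add_le_add le_rfl ?_)
    rw [norm_smul, Real.norm_eq_abs]; exact mul_le_mul_of_nonneg_left z2n (abs_nonneg _)
  have p3 : 2 * ‖x - x'‖ ≤ (‖a1 - b1‖ + ‖a2 - b2‖) + (|t1| + |t2|) * (21 / 20) := by linarith
  have p4 := mul_le_mul_of_nonneg_left p3 hδ.le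
  have p5 : δ * (‖a1 - b1‖ + ‖a2 - b2‖) ≤ 1 * (‖a1 - b1‖ + ‖a2 - b2‖) :=
    mul_le_mul_of_nonneg_right hδ1 (by positivity)
  have q1 := norm_nonneg (a1 - b1)
  have q2 := norm_nonneg (a2 - b2)
  nlinarith

lemma k2_pair {δ : ℝ} {e1 e2 : E 3} (he : Tv δ e1 e2) {ρ : ℝ} (hρ : 0 < ρ) {z1 z2 : E 3}
    (h1 : ‖z1 - e1‖ ≤ δ / 20) (h2 : ‖z2 - e2‖ ≤ δ / 20) (y1 y2 : E 3) :
    ∫⁻ x, ENNReal.ofReal (Real.exp (-(ld (x - y1) z1) / ρ)) *
      ENNReal.ofReal (Real.exp (-(ld (x - y2) z2) / ρ)) ≤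
      ENNReal.ofReal (100000 * ρ ^ 3 / δ ^ 3) := by
  have hδ := he.pos
  set φ : E 3 → ℝ := fun x => ld (x - y1) z1 + ld (x - y2) z2 with hφ
  have hφ0 : ∀ x, 0 ≤ φ x := fun x => add_nonneg (k2_ld_nonneg _ _) (k2_ld_nonneg _ _)
  have hb : BddBelow (Set.range φ) := ⟨0, by rintro _ ⟨x, rfl⟩; exact hφ0 x⟩
  obtain ⟨x', hx'⟩ : ∃ x', φ x' < (⨅ x, φ x) + ρ :=
    exists_lt_of_ciInf_lt (lt_add_of_pos_right _ hρ)
  have hl : 0 < 4 * ρ / δ := by positivity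
  have key : ∀ x, ENNReal.ofReal (Real.exp (-(ld (x - y1) z1) / ρ)) *
      ENNReal.ofReal (Real.exp (-(ld (x - y2) z2) / ρ)) ≤
      ENNReal.ofReal 3 * ENNReal.ofReal (Real.exp (-‖x - x'‖ / (4 * ρ / δ))) := by
    intro x
    rw [← ENNReal.ofReal_mul (Real.exp_pos _).le, ← ENNReal.ofReal_mul (by norm_num),
      ← Real.exp_add]
    refine ENNReal.ofReal_le_ofReal ?_
    have a1 : δ * ‖x - x'‖ ≤ 2 * (φ x + φ x') := k2_two he h1 h2 y1 y2 x x'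
    have a2 : (⨅ x, φ x) ≤ φ x := ciInf_le hb x
    have a3 : -(ld (x - y1) z1) / ρ + -(ld (x - y2) z2) / ρ ≤ 1 + -‖x - x'‖ / (4 * ρ / δ) := by
      have b1 : -(ld (x - y1) z1) / ρ + -(ld (x - y2) z2) / ρ = -(φ x) / ρ := by
        simp only [hφ]; ring
      have b2 : 1 + -‖x - x'‖ / (4 * ρ / δ) = (ρ - δ * ‖x - x'‖ / 4) / ρ := by
        field_simp; ring
      rw [b1, b2]
      exact div_le_div_of_nonneg_right (by linarith) hρ.le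
    refine (Real.exp_le_exp.mpr a3).trans ?_
    rw [Real.exp_add]
    exact mul_le_mul_of_nonneg_right (Real.exp_one_lt_d9.le.trans (by norm_num))
      (Real.exp_pos _).le
  refine (lintegral_mono key).trans ?_
  rw [lintegral_const_mul' _ _ ENNReal.ofReal_ne_top, k2_int3 hl,
    ← ENNReal.ofReal_mul (by norm_num)]
  refine ENNReal.ofReal_le_ofReal ?_
  have c1 : 3 * (8 * π * (4 * ρ / δ) ^ 3) = (1536 * π) * (ρ ^ 3 / δ ^ 3) := by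
    field_simp; ring
  rw [c1, mul_div_assoc]
  exact mul_le_mul_of_nonneg_right (by linarith [Real.pi_le_four]) (by positivity)

lemma k2_meas (ρ : ℝ) : Measurable (fun q : E 3 × E 3 × E 3 =>
    ENNReal.ofReal (Real.exp (-(ld (q.1 - q.2.2) q.2.1) / ρ))) := by
  have h1 : Measurable (fun q : E 3 × E 3 × E 3 => ld (q.1 - q.2.2) q.2.1) :=
    Measurable.comp (g := fun p : E 3 × E 3 => ld p.1 p.2)
      (f := fun q : E 3 × E 3 × E 3 => (q.1 - q.2.2, q.2.1)) measurable_ld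
      ((measurable_fst.sub measurable_snd.snd).prodMk measurable_snd.fst)
  exact (Real.measurable_exp.comp (h1.neg.div_const ρ)).ennreal_ofReal

lemma k2_swap {X Y : Type*} [MeasurableSpace X] [MeasurableSpace Y] (ν : Measure X) [SFinite ν]
    (μ1 μ2 : Measure Y) [SFinite μ1] [SFinite μ2] (k : X × Y → ℝ≥0∞) (hk : Measurable k)
    {P1 P2 : Y → Prop} (h1 : ∀ᵐ q ∂μ1, P1 q) (h2 : ∀ᵐ q ∂μ2, P2 q) {C : ℝ≥0∞}
    (hC : ∀ q1 q2, P1 q1 → P2 q2 → ∫⁻ x, k (x, q1) * k (x, q2) ∂ν ≤ C) :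
    ∫⁻ x, (∫⁻ q, k (x, q) ∂μ1) * (∫⁻ q, k (x, q) ∂μ2) ∂ν ≤ C * (μ1 Set.univ * μ2 Set.univ) := by
  have hkx : ∀ x, Measurable (fun q => k (x, q)) := fun x => by fun_prop
  have hm : Measurable (Function.uncurry fun (x : X) (q : Y × Y) => k (x, q.1) * k (x, q.2)) := by
    unfold Function.uncurry; fun_prop
  calc ∫⁻ x, (∫⁻ q, k (x, q) ∂μ1) * (∫⁻ q, k (x, q) ∂μ2) ∂ν
      = ∫⁻ x, ∫⁻ q, k (x, q.1) * k (x, q.2) ∂(μ1.prod μ2) ∂ν := by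
        refine lintegral_congr fun x => ?_
        rw [lintegral_prod_mul (hkx x).aemeasurable (hkx x).aemeasurable]
    _ = ∫⁻ q, (∫⁻ x, k (x, q.1) * k (x, q.2) ∂ν) ∂(μ1.prod μ2) :=
        lintegral_lintegral_swap hm.aemeasurable
    _ ≤ ∫⁻ _q, C ∂(μ1.prod μ2) := by
        refine lintegral_mono_ae ?_
        filter_upwards [Measure.quasiMeasurePreserving_fst.ae h1,
          Measure.quasiMeasurePreserving_snd.ae h2] with q a1 a2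
        exact hC q.1 q.2 a1 a2
    _ = _ := by
        rw [lintegral_const, ← Set.univ_prod_univ, Measure.prod_prod]

/-- Bilinear Kakeya bound. -/
theorem kakeya2 {δ : ℝ} {e1 e2 : E 3} (he : Tv δ e1 e2) {ρ : ℝ} (hρ : 0 < ρ)
    (μ1 μ2 : Measure (E 3 × E 3)) [IsFiniteMeasure μ1] [IsFiniteMeasure μ2]
    (h1 : ∀ᵐ q ∂μ1, ‖q.1 - e1‖ ≤ δ / 20) (h2 : ∀ᵐ q ∂μ2, ‖q.1 - e2‖ ≤ δ / 20) :
    ∫⁻ x, Tube μ1 ρ x * Tube μ2 ρ x ≤
      ENNReal.ofReal (100000 * ρ ^ 3 / δ ^ 3) * (μ1 Set.univ * μ2 Set.univ) :=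
  k2_swap volume μ1 μ2 (fun q : E 3 × E 3 × E 3 =>
    ENNReal.ofReal (Real.exp (-(ld (q.1 - q.2.2) q.2.1) / ρ))) (k2_meas ρ) h1 h2
    (fun q1 q2 a1 a2 => k2_pair he hρ a1 a2 q1.2 q2.2)

end Pool.Agent.P.MP_f791b6_an
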