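import Pool.Agent.P.MP_f791b6_an.N3Tube
import Pool.Agent.P.MP_f791b6_an.N3K2

namespace Pool.Agent.P.MP_f791b6_an

open MeasureTheory Complex Metric
open scoped ComplexConjugate Real RealInnerProductSpace ENNReal

lemma narrow_pt {a t W M1 M2 : ℝ} (hat : a ≤ t) (ht : 0 ≤ t) (hW : 0 ≤ W) (h1 : 0 ≤ M1)
    (h2 : 0 ≤ M2) : ENNReal.ofReal (a * √(W * M1 * M2)) ≤ ENNReal.ofReal W ^ (1 / 2 : ℝ) *
      (ENNReal.ofReal (t * M1) * ENNReal.ofReal (t * M2)) ^ (1 / 2 : ℝ) := by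
  rw [← ENNReal.mul_rpow_of_nonneg _ _ (by norm_num), ← ENNReal.ofReal_mul (by positivity),
    ← ENNReal.ofReal_mul hW, ENNReal.ofReal_rpow_of_nonneg (by positivity) (by norm_num),
    ← Real.sqrt_eq_rpow]
  refine ENNReal.ofReal_le_ofReal ?_
  rw [show W * (t * M1 * (t * M2)) = t ^ 2 * (W * M1 * M2) by ring,
    Real.sqrt_mul (sq_nonneg t), Real.sqrt_sq ht]
  exact mul_le_mul_of_nonneg_right hat (Real.sqrt_nonneg _)

lemma narrow_nb {e : E 3} {ε r : ℝ} (hε : ε ≤ 1 / 2) :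
    ∀ ζ ∈ Nb e ε r, 1 / 2 ≤ ‖ζ‖ ∧ ‖ζ‖ ≤ 2 := by
  intro ζ h
  have := abs_le.1 h.1
  constructor <;> linarith [this.1, this.2]

lemma narrow_ae (μ : Measure (E 3 × E 3)) (e : E 3) (ε r : ℝ) :
    ∀ᵐ q ∂(μ.restrict (Nb e ε r ×ˢ Set.univ)), ‖q.1 - e‖ ≤ r := by
  filter_upwards [ae_restrict_mem ((measurableSet_Nb e ε r).prod MeasurableSet.univ)] with q hq
  exact hq.1.2

/-- The narrow part, integrated over the centres. -/
theorem narrow_int {δ : ℝ} {e1 e2 : E 3} (he : Tv δ e1 e2) {f1 f2 : E 3 → ℂ} (h1 : Amp f1)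
    (h2 : Amp f2) {H : E 3 → ℝ} (hH : Wt H) {ρ T ε : ℝ} (hρ : 0 < ρ) (hρT : ρ ≤ T)
    (hT : T ≤ ρ ^ 2) (hW : ∫ x, H x ≤ T ^ 2) (hε1 : ε ≤ 1 / 2) :
    ∫⁻ x0, ENNReal.ofReal (Real.exp (-(π / 2) * ‖x0‖ ^ 2 / T ^ 2) *
        √(W0 H ρ x0 * Mc f1 ρ (Nb e1 ε (δ / 20)) x0 * Mc f2 ρ (Nb e2 ε (δ / 20)) x0)) ≤
      ENNReal.ofReal (10 ^ 7 / δ ^ 2 * T * ρ ^ 4 * √(nsq f1) * √(nsq f2)) := by
  obtain ⟨μ1, m1, t1⟩ := h1.tube_major hρ hρT hT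
  obtain ⟨μ2, m2, t2⟩ := h2.tube_major hρ hρT hT
  have f1' : IsFiniteMeasure μ1 := ⟨m1.trans_lt ENNReal.ofReal_lt_top⟩
  have f2' : IsFiniteMeasure μ2 := ⟨m2.trans_lt ENNReal.ofReal_lt_top⟩
  set ν1 := μ1.restrict (Nb e1 ε (δ / 20) ×ˢ Set.univ) with hν1
  set ν2 := μ2.restrict (Nb e2 ε (δ / 20) ×ˢ Set.univ) with hν2
  obtain ⟨w1, w2, w3⟩ := hH.w0 hρ
  have hδ := he.pos
  have hδ1 : δ ≤ 1 := he.lo.trans he.hi
  have hT0 : 0 < T := hρ.trans_le hρT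
  have n1 := nsq_nonneg f1
  have n2 := nsq_nonneg f2
  have k := kakeya2 he hρ ν1 ν2 (narrow_ae μ1 e1 ε _) (narrow_ae μ2 e2 ε _)
  have r1 : ν1 Set.univ ≤ ENNReal.ofReal (10000 * nsq f1) :=
    (Measure.restrict_apply_le _ _).trans m1
  have r2 : ν2 Set.univ ≤ ENNReal.ofReal (10000 * nsq f2) :=
    (Measure.restrict_apply_le _ _).trans m2
  have hm : Measurable fun x => Tube ν1 ρ x * Tube ν2 ρ x :=
    (measurable_Tube ν1 ρ).mul (measurable_Tube ν2 ρ)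
  have g : ∫⁻ x, ENNReal.ofReal (ρ ^ 2) * (Tube ν1 ρ x * Tube ν2 ρ x) ≤ ENNReal.ofReal
      (ρ ^ 2 * (100000 * ρ ^ 3 / δ ^ 3 * (10000 * nsq f1 * (10000 * nsq f2)))) := by
    rw [lintegral_const_mul _ hm, ENNReal.ofReal_mul (by positivity),
      ENNReal.ofReal_mul (by positivity), ENNReal.ofReal_mul (p := 10000 * nsq f1) (by positivity)]
    gcongr
    exact k.trans (by gcongr)
  have g' : ∫⁻ x0, ENNReal.ofReal (W0 H ρ x0) ≤ ENNReal.ofReal (ρ ^ 3 * T ^ 2) := by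
    rw [w3]; gcongr
  calc _ ≤ ∫⁻ x, ENNReal.ofReal (W0 H ρ x) ^ (1 / 2 : ℝ) *
        (ENNReal.ofReal (ρ ^ 2) * (Tube ν1 ρ x * Tube ν2 ρ x)) ^ (1 / 2 : ℝ) := by
        refine lintegral_mono fun x => ?_
        refine (narrow_pt (t := Real.exp (-‖x‖ ^ 2 / T ^ 2)) ?_ (Real.exp_pos _).le (w2 x)
          (Mc_nonneg _ _ _ _) (Mc_nonneg _ _ _ _)).trans ?_
        · refine Real.exp_le_exp.2 (div_le_div_of_nonneg_right ?_ (by positivity))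
          nlinarith [Real.pi_gt_three, sq_nonneg ‖x‖]
        · have a1 := t1 _ (measurableSet_Nb e1 ε (δ / 20)) (narrow_nb hε1) x
          have a2 := t2 _ (measurableSet_Nb e2 ε (δ / 20)) (narrow_nb hε1) x
          refine mul_le_mul' le_rfl (ENNReal.rpow_le_rpow ?_ (by norm_num))
          refine (mul_le_mul' a1 a2).trans (le_of_eq ?_)
          rw [pow_two, ENNReal.ofReal_mul hρ.le]; ring
    _ ≤ (∫⁻ x, ENNReal.ofReal (W0 H ρ x)) ^ (1 / 2 : ℝ) *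
        (∫⁻ x, ENNReal.ofReal (ρ ^ 2) * (Tube ν1 ρ x * Tube ν2 ρ x)) ^ (1 / 2 : ℝ) :=
        ENNReal.lintegral_mul_norm_pow_le w1.ennreal_ofReal.aemeasurable
          (hm.const_mul _).aemeasurable (by norm_num) (by norm_num) (by norm_num)
    _ ≤ ENNReal.ofReal (ρ ^ 3 * T ^ 2) ^ (1 / 2 : ℝ) * ENNReal.ofReal
        (ρ ^ 2 * (100000 * ρ ^ 3 / δ ^ 3 * (10000 * nsq f1 * (10000 * nsq f2)))) ^ (1 / 2 : ℝ) := by
        gcongr
    _ ≤ _ := by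
        rw [← ENNReal.mul_rpow_of_nonneg _ _ (by norm_num), ← ENNReal.ofReal_mul (by positivity),
          ENNReal.ofReal_rpow_of_nonneg (by positivity) (by norm_num), ← Real.sqrt_eq_rpow]
        refine ENNReal.ofReal_le_ofReal (Real.sqrt_le_iff.2 ⟨by positivity, ?_⟩)
        rw [mul_pow, mul_pow, Real.sq_sqrt n1, Real.sq_sqrt n2]
        have e : (10 ^ 7 / δ ^ 2 * T * ρ ^ 4) ^ 2 * nsq f1 * nsq f2 =
            (10 / δ) * (ρ ^ 3 * T ^ 2 * (ρ ^ 2 * (100000 * ρ ^ 3 / δ ^ 3 *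
              (10000 * nsq f1 * (10000 * nsq f2))))) := by
          field_simp; ring
        rw [e]
        refine le_mul_of_one_le_left (by positivity) ?_
        rw [le_div_iff₀ hδ]; linarith

end Pool.Agent.P.MP_f791b6_an
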