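import Pool.Agent.P.MP_f791b6_an.N3Husimi
import Pool.Agent.P.MP_f791b6_an.N3Broad
import Pool.Agent.P.MP_f791b6_an.N3Grid
import Pool.Agent.P.MP_f791b6_an.N3Narrow
import Pool.Agent.P.MP_f791b6_an.N3BroadInt
import Pool.Agent.P.MP_f791b6_an.N3RST

namespace Pool.Agent.P.MP_f791b6_an

open MeasureTheory Complex Metric
open scoped ComplexConjugate Real RealInnerProductSpace ENNReal

lemma loc_wt {H : E 3 → ℝ} (hH : Wt H) (ρ : ℝ) (x0 : E 3) :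
    Wt (fun x => H x * gw ρ (x - x0)) := by
  have hc : Continuous (fun x : E 3 => gw ρ (x - x0)) := by fun_prop
  refine ⟨hH.meas.mul hc.measurable, fun x => mul_nonneg (hH.nonneg x) (gw_pos _ _).le,
    fun x => mul_le_one₀ (hH.le_one x) (gw_pos _ _).le (gw_le_one _ _), ?_⟩
  refine hH.int.mul_bdd (c := 1) hc.aestronglyMeasurable (Filter.Eventually.of_forall fun x => ?_)
  rw [Real.norm_eq_abs, abs_of_pos (gw_pos _ _)]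
  exact gw_le_one _ _

lemma loc_mass (f : E 3 → ℂ) (ρ : ℝ) (x0 : E 3) {S : Set (E 3)} (hS : MeasurableSet S)
    (A : Set (E 3)) :
    ∫ ζ in A, ‖S.indicator (HF f ρ x0) ζ‖ ^ 2 = Mc f ρ (A ∩ S) x0 := by
  rw [Mc, ← setIntegral_indicator hS]
  refine integral_congr_ae (Filter.Eventually.of_forall fun ζ => ?_)
  by_cases h : ζ ∈ S
  · simp only [Set.indicator_of_mem h, norm_HF_sq]
  · simp [Set.indicator_of_notMem h]

lemma loc_mass' (f : E 3 → ℂ) (ρ : ℝ) (x0 : E 3) {S : Set (E 3)} (hS : MeasurableSet S) :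
    ∫ ζ, ‖S.indicator (HF f ρ x0) ζ‖ ^ 2 = Mc f ρ S x0 := by
  have := loc_mass f ρ x0 hS Set.univ
  rwa [Measure.restrict_univ, Set.univ_inter] at this

lemma loc_tri_nonneg {N : ℕ} (p : Fin N → E 3) (w : ℝ) {m1 m2 : Fin N → ℝ} (h1 : ∀ a, 0 ≤ m1 a)
    (h2 : ∀ a, 0 ≤ m2 a) : 0 ≤ Tri p w m1 m2 := by
  refine Finset.sum_nonneg fun a _ => Finset.sum_nonneg fun b _ => Finset.sum_nonneg fun c _ => ?_
  split_ifs
  · exact mul_nonneg (mul_nonneg (h1 a) (h2 b)) (h1 c)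
  · exact le_rfl

lemma loc_point {δ : ℝ} {e1 e2 : E 3} (he : Tv δ e1 e2) {f1 f2 : E 3 → ℂ} (h1 : Amp f1)
    (h2 : Amp f2) (s1 : ∀ ξ, δ / 40 < ‖ξ - e1‖ → f1 ξ = 0) (s2 : ∀ ξ, δ / 40 < ‖ξ - e2‖ → f2 ξ = 0)
    {H : E 3 → ℝ} (hH : Wt H) {ρ ε θ w : ℝ} (hρ : 0 < ρ) (hε : 0 < ε) (hε1 : ε ≤ 1 / 2)
    (hεw : ε ≤ w) (hεδ : ε ≤ δ / 40) (hθ : 0 < θ) (hθw : 4 * θ ≤ w) (hθδ : θ ≤ δ / 20)
    {N : ℕ} {ind : E 3 → Fin N} {p : Fin N → E 3} (hg : Grid θ ind p) (x0 : E 3) :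
    ∫ x, gw ρ (x - x0) ^ 3 * (H x * ‖Ex f1 x‖ * ‖Ex f2 x‖) ≤
      √(26000 / δ ^ 3 * ε ^ 2 * w) *
        √(W0 H ρ x0 * Mc f1 ρ (Nb e1 ε (δ / 20)) x0 * Mc f2 ρ (Nb e2 ε (δ / 20)) x0) +
      ((130000 / δ ^ 3 * ε ^ 2) ^ (1 / 4 : ℝ) * (W0 H ρ x0 * Mc f2 ρ (Nb e2 ε (δ / 20)) x0 *
          Tri p w (fun a => Mc f1 ρ (ind ⁻¹' {a} ∩ Nb e1 ε (δ / 20)) x0)
            (fun a => Mc f2 ρ (ind ⁻¹' {a} ∩ Nb e2 ε (δ / 20)) x0)) ^ (1 / 4 : ℝ) +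
      2 * Real.exp (-(π * ρ ^ 2 * ε ^ 2) / 2) * ρ ^ 3 * √(nsq f1) * √(nsq f2)) := by
  have hδ := he.pos
  have hw : 0 < w := hε.trans_le hεw
  have a1 := local_main h1 h2 hH hρ x0 hε hεδ s1 s2
  rw [show 2 * (δ / 40) = δ / 20 by ring] at a1
  have a2 := JJ_broad he (loc_wt hH ρ x0) (W := W0 H ρ x0) le_rfl
    ((h1.HF_facts hρ x0).1.indicator (measurableSet_Nb e1 ε (δ / 20)))
    ((h2.HF_facts hρ x0).1.indicator (measurableSet_Nb e2 ε (δ / 20))) hε hε1 hεw hθ hθw hθδ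
    (fun ζ h => Set.indicator_of_notMem h _) (fun ζ h => Set.indicator_of_notMem h _) hg
  simp only [loc_mass _ _ _ (measurableSet_Nb _ _ _), loc_mass' _ _ _ (measurableSet_Nb _ _ _)] at a2
  have hW := (hH.w0 hρ).2.1 x0
  have hM2 := Mc_nonneg f2 ρ (Nb e2 ε (δ / 20)) x0
  have hT := loc_tri_nonneg p w (fun a => Mc_nonneg f1 ρ (ind ⁻¹' {a} ∩ Nb e1 ε (δ / 20)) x0)
    (fun a => Mc_nonneg f2 ρ (ind ⁻¹' {a} ∩ Nb e2 ε (δ / 20)) x0)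
  rw [← Real.sqrt_mul (by positivity), ← Real.mul_rpow (by positivity) (by positivity),
    ← add_assoc]
  refine a1.trans (add_le_add (a2.trans (le_of_eq ?_)) le_rfl)
  congr 2 <;> ring

lemma loc_gauss {T c : ℝ} (hT : 0 < T) (hc : 0 ≤ c) :
    ∫⁻ x0 : E 3, ENNReal.ofReal (Real.exp (-(π / 2) * ‖x0‖ ^ 2 / T ^ 2) * c) ≤
      ENNReal.ofReal (8 * T ^ 3 * c) := by
  have h2 : 0 < 2 * T := by positivity
  have e : 8 * T ^ 3 * c = ∫ x : E 3, gw (2 * T) x * c := by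
    rw [integral_mul_const, integral_gw h2]; ring
  rw [e, ofReal_integral_eq_lintegral_ofReal ((integrable_gw h2).mul_const c)
    (Filter.Eventually.of_forall fun x => mul_nonneg (gw_pos _ _).le hc)]
  refine lintegral_mono fun x => ENNReal.ofReal_le_ofReal (mul_le_mul_of_nonneg_right ?_ hc)
  refine Real.exp_le_exp.2 ?_
  have h3 : 0 ≤ π * ‖x‖ ^ 2 / T ^ 2 := by positivity
  have e1 : -(π / 2) * ‖x‖ ^ 2 / T ^ 2 = -(1 / 2) * (π * ‖x‖ ^ 2 / T ^ 2) := by ring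
  have e2 : -(π / (2 * T) ^ 2) * ‖x‖ ^ 2 = -(1 / 4) * (π * ‖x‖ ^ 2 / T ^ 2) := by
    field_simp; ring
  rw [e1, e2]
  linarith

lemma loc_gen {δ : ℝ} {e1 e2 : E 3} (he : Tv δ e1 e2) {f1 f2 : E 3 → ℂ} (h1 : Amp f1)
    (h2 : Amp f2) (s1 : ∀ ξ, δ / 40 < ‖ξ - e1‖ → f1 ξ = 0) (s2 : ∀ ξ, δ / 40 < ‖ξ - e2‖ → f2 ξ = 0)
    {H : E 3 → ℝ} (hH : Wt H) {ρ ε w T : ℝ} (J : ℕ) (hρe : ρ = w ^ J * T) (hT : 0 < T)
    (hW : ∫ x, H x ≤ T ^ 2) (hρT : ρ ≤ T) (hTρ : T ≤ ρ ^ 2) (hε : 0 < ε) (hεw : ε ≤ w)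
    (hεδ : ε ≤ δ / 40) (hw1 : w ≤ 1 / 100) (hθδ : w ^ 3 ≤ δ / 20) :
    ∫ x, gw T x * (H x * ‖Ex f1 x‖ * ‖Ex f2 x‖) ≤ 8 / ρ ^ 3 *
      (√(26000 / δ ^ 3 * ε ^ 2 * w) * (10 ^ 7 / δ ^ 2 * T * ρ ^ 4 * √(nsq f1) * √(nsq f2)) +
      ((130000 / δ ^ 3 * ε ^ 2) ^ (1 / 4 : ℝ) * (1000 ^ J * 10 ^ 12 / w ^ 15 * T ^ (3 / 4 : ℝ) *
        ρ ^ (15 / 4 : ℝ) * √(nsq f1) * √(nsq f2)) +
      8 * T ^ 3 * (2 * Real.exp (-(π * ρ ^ 2 * ε ^ 2) / 2) * ρ ^ 3 * √(nsq f1) * √(nsq f2)))) := by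
  have hδ := he.pos
  have hw : 0 < w := hε.trans_le hεw
  have hρ : 0 < ρ := by rw [hρe]; positivity
  have hε1 : ε ≤ 1 / 2 := by linarith
  have hw2 : w ^ 2 ≤ 1 / 4 := by nlinarith
  have hθw : 4 * w ^ 3 ≤ w := by nlinarith
  obtain ⟨N, ind, p, hg⟩ := exists_grid (θ := w ^ 3) (by positivity) (by linarith)
  have hΦ : Integrable (fun x => H x * ‖Ex f1 x‖ * ‖Ex f2 x‖) :=
    (hH.int.mul_bdd (c := √(nsq f1)) h1.continuous_Ex.norm.aestronglyMeasurable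
      (Filter.Eventually.of_forall fun x => by simpa using h1.norm_Ex_le x)).mul_bdd
      (c := √(nsq f2)) h2.continuous_Ex.norm.aestronglyMeasurable
      (Filter.Eventually.of_forall fun x => by simpa using h2.norm_Ex_le x)
  have hnb : ∀ e : E 3, ∀ ζ ∈ Nb e ε (δ / 20), 1 / 2 ≤ ‖ζ‖ ∧ ‖ζ‖ ≤ 2 := fun e ζ h => by
    have := abs_le.1 h.1
    constructor <;> linarith [this.1, this.2]
  have b0 := gw_partition hΦ (fun x => by have := hH.nonneg x; positivity) hρ hρT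
  have b1 := narrow_int he h1 h2 hH hρ hρT hTρ hW hε1
  have b2 := broad_int h1 h2 (measurableSet_Nb e1 ε (δ / 20)) (measurableSet_Nb e2 ε (δ / 20))
    (hnb e1) (hnb e2) hw hw1 hT J (hρe ▸ hTρ) hg hH hW
  rw [← hρe] at b2
  obtain ⟨c, hc⟩ : ∃ c, c = 2 * Real.exp (-(π * ρ ^ 2 * ε ^ 2) / 2) * ρ ^ 3 * √(nsq f1) *
    √(nsq f2) := ⟨_, rfl⟩
  obtain ⟨a, ha⟩ : ∃ a, a = √(26000 / δ ^ 3 * ε ^ 2 * w) := ⟨_, rfl⟩
  obtain ⟨b, hb⟩ : ∃ b, b = (130000 / δ ^ 3 * ε ^ 2) ^ (1 / 4 : ℝ) := ⟨_, rfl⟩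
  have hc0 : 0 ≤ c := by rw [hc]; positivity
  have ha0 : 0 ≤ a := by rw [ha]; positivity
  have hb0 : 0 ≤ b := by rw [hb]; positivity
  have b3 := loc_gauss hT hc0
  have hp := loc_point he h1 h2 s1 s2 hH hρ hε hε1 hεw hεδ (by positivity) hθw hθδ hg
  rw [← hc, ← ha, ← hb] at hp ⊢
  have hE : Measurable fun x0 : E 3 => Real.exp (-(π / 2) * ‖x0‖ ^ 2 / T ^ 2) := by fun_prop
  have m1 : Measurable fun x0 : E 3 => ENNReal.ofReal a *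
      ENNReal.ofReal (Real.exp (-(π / 2) * ‖x0‖ ^ 2 / T ^ 2) *
        √(W0 H ρ x0 * Mc f1 ρ (Nb e1 ε (δ / 20)) x0 * Mc f2 ρ (Nb e2 ε (δ / 20)) x0)) :=
    (hE.mul (((hH.w0 hρ).1.mul (h1.measurable_Mc _ _)).mul
      (h2.measurable_Mc _ _)).sqrt).ennreal_ofReal.const_mul _
  have m3 : Measurable fun x0 : E 3 =>
      ENNReal.ofReal (Real.exp (-(π / 2) * ‖x0‖ ^ 2 / T ^ 2) * c) :=
    (hE.mul_const c).ennreal_ofReal
  rw [← ENNReal.ofReal_le_ofReal_iff (by positivity), ENNReal.ofReal_mul (by positivity)]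
  refine b0.trans (mul_le_mul_right ?_ _)
  rw [ENNReal.ofReal_add (by positivity) (by positivity),
    ENNReal.ofReal_add (by positivity) (by positivity), ENNReal.ofReal_mul ha0,
    ENNReal.ofReal_mul hb0]
  refine le_trans ?_ (add_le_add (mul_le_mul_right b1 _) (add_le_add (mul_le_mul_right b2 _) b3))
  rw [← lintegral_const_mul' _ _ ENNReal.ofReal_ne_top,
    ← lintegral_const_mul' _ _ ENNReal.ofReal_ne_top, ← lintegral_add_right _ m3,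
    ← lintegral_add_left m1]
  refine lintegral_mono fun x0 => ?_
  simp only
  rw [← ENNReal.ofReal_mul ha0, ← ENNReal.ofReal_mul hb0]
  refine le_trans (ENNReal.ofReal_le_ofReal ?_)
    (ENNReal.ofReal_add_le.trans (add_le_add le_rfl ENNReal.ofReal_add_le))
  refine (mul_le_mul_of_nonneg_left (hp x0) (Real.exp_pos _).le).trans (le_of_eq ?_)
  ring

lemma loc_rpow {y : ℝ} (hy : 0 ≤ y) (a b : ℕ) (s : ℝ) (h : (a : ℝ) * s = b) :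
    (y ^ a) ^ s = y ^ b := by
  rw [← Real.rpow_natCast, ← Real.rpow_mul hy, h, Real.rpow_natCast]

lemma local_exp (n : ℕ) : ∃ F : ℝ, 0 ≤ F ∧ ∀ y : ℝ,
    (y ^ 2) ^ n * Real.exp (-(π * y ^ 2) / 2) ≤ F := by
  refine ⟨n.factorial, by positivity, fun y => ?_⟩
  have h1 := Real.pow_div_factorial_le_exp (y ^ 2) (by positivity) n
  rw [div_le_iff₀ (by positivity)] at h1
  have h2 : Real.exp (y ^ 2) * Real.exp (-(π * y ^ 2) / 2) ≤ 1 := by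
    rw [← Real.exp_add, Real.exp_le_one_iff]
    nlinarith [Real.pi_gt_three, sq_nonneg y]
  calc (y ^ 2) ^ n * Real.exp (-(π * y ^ 2) / 2)
      ≤ Real.exp (y ^ 2) * n.factorial * Real.exp (-(π * y ^ 2) / 2) :=
        mul_le_mul_of_nonneg_right h1 (Real.exp_pos _).le
    _ = n.factorial * (Real.exp (y ^ 2) * Real.exp (-(π * y ^ 2) / 2)) := by ring
    _ ≤ n.factorial := mul_le_of_le_one_right (by positivity) h2

lemma loc_num {A B P Q F s y : ℝ} (hA : 0 ≤ A) (hB : 0 ≤ B) (hQ : 0 ≤ Q)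
    (hs : 0 ≤ s) (hy : 1 ≤ y) (hF : (y ^ 2) ^ 1500 * Real.exp (-(π * y ^ 2) / 2) ≤ F) :
    8 / (y ^ 504) ^ 3 * (√(A * (y ^ 503)⁻¹ ^ 2 * (y ^ 8)⁻¹) * (P * y ^ 1000 * (y ^ 504) ^ 4 * s) +
      ((B * (y ^ 503)⁻¹ ^ 2) ^ (1 / 4 : ℝ) * (Q / (y ^ 8)⁻¹ ^ 15 * (y ^ 1000) ^ (3 / 4 : ℝ) *
        (y ^ 504) ^ (15 / 4 : ℝ) * s) +
      8 * (y ^ 1000) ^ 3 * (2 * Real.exp (-(π * (y ^ 504) ^ 2 * (y ^ 503)⁻¹ ^ 2) / 2) *
        (y ^ 504) ^ 3 * s))) ≤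
      (8 * √A * P + 8 * B ^ (1 / 4 : ℝ) * Q + 128 * F) * y ^ 997 * s := by
  have hy0 : 0 < y := by linarith
  have e1 : √(A * (y ^ 503)⁻¹ ^ 2 * (y ^ 8)⁻¹) = √A * (y ^ 507)⁻¹ := by
    rw [show A * (y ^ 503)⁻¹ ^ 2 * (y ^ 8)⁻¹ = A * ((y ^ 507)⁻¹) ^ 2 by field_simp,
      Real.sqrt_mul hA, Real.sqrt_sq (by positivity)]
  have e2 : (B * (y ^ 503)⁻¹ ^ 2) ^ (1 / 4 : ℝ) ≤ B ^ (1 / 4 : ℝ) * (y ^ 251)⁻¹ := by
    rw [← inv_pow y 251, ← loc_rpow (y := y⁻¹) (by positivity) 1004 251 (1 / 4) (by norm_num),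
      ← Real.mul_rpow hB (by positivity)]
    refine Real.rpow_le_rpow (by positivity) (mul_le_mul_of_nonneg_left ?_ hB) (by norm_num)
    rw [← inv_pow, ← pow_mul]
    exact pow_le_pow_of_le_one (by positivity) (inv_le_one_of_one_le₀ hy) (by norm_num)
  have e3 : π * (y ^ 504) ^ 2 * (y ^ 503)⁻¹ ^ 2 = π * y ^ 2 := by field_simp
  have h997 : 1 ≤ y ^ 997 := one_le_pow₀ hy
  have hF0 : 0 ≤ F := le_trans (by positivity) hF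
  rw [e1, e3, loc_rpow hy0.le 1000 750 (3 / 4) (by norm_num),
    loc_rpow hy0.le 504 1890 (15 / 4) (by norm_num)]
  have t1 : 8 / (y ^ 504) ^ 3 * (√A * (y ^ 507)⁻¹ * (P * y ^ 1000 * (y ^ 504) ^ 4 * s)) =
      8 * √A * P * y ^ 997 * s := by field_simp
  have t2 : 8 / (y ^ 504) ^ 3 * (B ^ (1 / 4 : ℝ) * (y ^ 251)⁻¹ *
      (Q / (y ^ 8)⁻¹ ^ 15 * y ^ 750 * y ^ 1890 * s)) = 8 * B ^ (1 / 4 : ℝ) * Q * y ^ 997 * s := by
    field_simp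
  have t3 : 8 / (y ^ 504) ^ 3 * (8 * (y ^ 1000) ^ 3 * (2 * Real.exp (-(π * y ^ 2) / 2) *
      (y ^ 504) ^ 3 * s)) = 128 * ((y ^ 2) ^ 1500 * Real.exp (-(π * y ^ 2) / 2)) * 1 * s := by
    field_simp
    ring
  have u2 : 8 / (y ^ 504) ^ 3 * ((B * (y ^ 503)⁻¹ ^ 2) ^ (1 / 4 : ℝ) *
      (Q / (y ^ 8)⁻¹ ^ 15 * y ^ 750 * y ^ 1890 * s)) ≤ 8 * B ^ (1 / 4 : ℝ) * Q * y ^ 997 * s := by
    rw [← t2]
    exact mul_le_mul_of_nonneg_left (mul_le_mul_of_nonneg_right e2 (by positivity)) (by positivity)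
  have u3 : 128 * ((y ^ 2) ^ 1500 * Real.exp (-(π * y ^ 2) / 2)) * 1 * s ≤
      128 * F * y ^ 997 * s :=
    mul_le_mul_of_nonneg_right (mul_le_mul (by linarith) h997 zero_le_one (by positivity)) hs
  rw [mul_add, mul_add, t1, t3, add_mul, add_mul, add_mul, add_mul, add_assoc]
  exact add_le_add le_rfl (add_le_add u2 u3)

lemma loc_zero {δ : ℝ} (hδ : 0 < δ) : ∃ C : ℝ, 0 ≤ C ∧ ∀ e1 e2 : E 3, Tv δ e1 e2 →
    ∀ f1 f2 : E 3 → ℂ, Amp f1 → Amp f2 → (∀ ξ, δ / 40 < ‖ξ - e1‖ → f1 ξ = 0) →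
    (∀ ξ, δ / 40 < ‖ξ - e2‖ → f2 ξ = 0) → ∀ y : ℝ, 1 ≤ y → ∀ H : E 3 → ℝ, Wt H →
    ∫ x, H x ≤ (y ^ 1000) ^ 2 → ∫ x, gw (y ^ 1000) x * (H x * ‖Ex f1 x‖ * ‖Ex f2 x‖) ≤
      C * y ^ 997 * (√(nsq f1) * √(nsq f2)) := by
  obtain ⟨F, hF0, hF⟩ := local_exp 1500
  obtain ⟨J, hJ⟩ : ∃ J : ℕ, J = 62 := ⟨_, rfl⟩
  obtain ⟨y0, hy2, hyδ⟩ : ∃ y0 : ℝ, 2 ≤ y0 ∧ 40 / δ ≤ y0 :=
    ⟨max 2 (40 / δ), le_max_left _ _, le_max_right _ _⟩
  obtain ⟨C1, hC1⟩ : ∃ C1 : ℝ, C1 = 8 * √(26000 / δ ^ 3) * (10 ^ 7 / δ ^ 2) +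
    8 * (130000 / δ ^ 3) ^ (1 / 4 : ℝ) * (1000 ^ J * 10 ^ 12) + 128 * F := ⟨_, rfl⟩
  have hC0 : 0 ≤ C1 := by rw [hC1]; positivity
  have hy00 : 0 < y0 := by linarith
  refine ⟨C1 + 7 * y0 ^ 3, by positivity, fun e1 e2 he f1 f2 h1 h2 s1 s2 y hy H hH hW => ?_⟩
  have hy0 : 0 < y := by linarith
  have hs : 0 ≤ √(nsq f1) * √(nsq f2) := by positivity
  rcases le_total y y0 with hle | hle
  · have hK := loc_wt hH (y ^ 1000) 0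
    have hW' : ∫ x, H x * gw (y ^ 1000) (x - 0) ≤ (y ^ 1000) ^ 2 :=
      (integral_mono hK.int hH.int fun x =>
        mul_le_of_le_one_right (hH.nonneg x) (gw_le_one _ _)).trans hW
    have h3 := h1.rst2 h2 hK hW'
    rw [Real.sqrt_sq (by positivity)] at h3
    have e : ∫ x, gw (y ^ 1000) x * (H x * ‖Ex f1 x‖ * ‖Ex f2 x‖) =
        ∫ x, H x * gw (y ^ 1000) (x - 0) * ‖Ex f1 x‖ * ‖Ex f2 x‖ :=
      integral_congr_ae (Filter.Eventually.of_forall fun x => by simp only [sub_zero]; ring)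
    rw [e]
    refine h3.trans ?_
    rw [mul_assoc]
    refine mul_le_mul_of_nonneg_right ?_ hs
    have h4 : y ^ 3 ≤ y0 ^ 3 := pow_le_pow_left₀ hy0.le hle 3
    rw [show 7 * y ^ 1000 = 7 * y ^ 3 * y ^ 997 by ring]
    exact mul_le_mul_of_nonneg_right (by linarith) (by positivity)
  · have hinv : ∀ k : ℕ, k ≠ 0 → (y ^ k)⁻¹ ≤ δ / 40 := fun k hk => by
      rw [inv_le_comm₀ (by positivity) (by positivity), inv_div]
      exact (hyδ.trans hle).trans (le_self_pow₀ hy hk)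
    have hw1 : (y ^ 8)⁻¹ ≤ 1 / 100 := by
      rw [inv_le_comm₀ (by positivity) (by positivity)]
      have := pow_le_pow_left₀ (by norm_num) (hy2.trans hle) 8
      norm_num at this ⊢
      linarith
    have h3 := loc_gen he h1 h2 s1 s2 hH (ρ := y ^ 504) (ε := (y ^ 503)⁻¹) (w := (y ^ 8)⁻¹)
      (T := y ^ 1000) J (by rw [hJ]; field_simp) (by positivity) hW
      (pow_le_pow_right₀ hy (by norm_num))
      (by rw [← pow_mul]; exact pow_le_pow_right₀ hy (by norm_num)) (by positivity)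
      (inv_anti₀ (by positivity) (pow_le_pow_right₀ hy (by norm_num))) (hinv _ (by norm_num)) hw1
      (by rw [inv_pow, ← pow_mul]; linarith [hinv (8 * 3) (by norm_num)])
    have h4 := loc_num (A := 26000 / δ ^ 3) (B := 130000 / δ ^ 3) (P := 10 ^ 7 / δ ^ 2)
      (Q := 1000 ^ J * 10 ^ 12) (by positivity) (by positivity) (by positivity)
      hs hy (hF y)
    rw [← hC1] at h4
    simp only [← mul_assoc] at h3 h4 ⊢
    refine (h3.trans h4).trans ?_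
    rw [mul_assoc, mul_assoc (_ * _)]
    refine mul_le_mul_of_nonneg_right (mul_le_mul_of_nonneg_right ?_ (by positivity)) hs
    have : 0 ≤ 7 * y0 ^ 3 := by positivity
    linarith

/-- The local bilinear estimate. -/
theorem local_est {δ : ℝ} (hδ : 0 < δ) : ∃ C : ℝ, 0 ≤ C ∧ LocalEst δ C (3 / 1000) := by
  obtain ⟨C, hC, h⟩ := loc_zero hδ
  refine ⟨C, hC, fun e1 e2 he f1 f2 h1 h2 s1 s2 T hT H hH hW c0 => ?_⟩
  obtain ⟨y, hy, rfl⟩ : ∃ y : ℝ, 1 ≤ y ∧ T = y ^ 1000 :=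
    ⟨T ^ ((1000 : ℕ) : ℝ)⁻¹, Real.one_le_rpow hT (by positivity),
      (Real.rpow_inv_natCast_pow (by linarith) (by norm_num)).symm⟩
  have hn : ∀ f : E 3 → ℂ, nsq (fun ξ => f ξ * ew ξ c0) = nsq f := fun f => by
    simp [nsq]
  have hH' : Wt (fun x => H (x + c0)) :=
    ⟨hH.meas.comp (measurable_add_const c0), fun x => hH.nonneg _, fun x => hH.le_one _,
      hH.int.comp_add_right c0⟩
  have h3 := h e1 e2 he _ _ (h1.mul (amp_ew c0)) (h2.mul (amp_ew c0))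
    (fun ξ hξ => by simp [s1 ξ hξ]) (fun ξ hξ => by simp [s2 ξ hξ]) y hy _ hH'
    (by rwa [integral_add_right_eq_self])
  rw [hn, hn] at h3
  rw [loc_rpow (by linarith) 1000 997 (1 - 3 / 1000) (by norm_num), mul_assoc (_ * _),
    ← integral_add_right_eq_self _ c0]
  refine le_trans (le_of_eq ?_) h3
  refine integral_congr_ae (Filter.Eventually.of_forall fun x => ?_)
  simp only [add_sub_cancel_right, Ex_add]
  ring

end Pool.Agent.P.MP_f791b6_an
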