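import Pool.Agent.P.MP_f791b6_an.N3Sig
import Pool.Agent.P.MP_f791b6_an.Cases

namespace Pool.Agent.P.MP_f791b6_an

open MeasureTheory Complex Metric
open scoped ComplexConjugate Real RealInnerProductSpace ENNReal

/-- Normalised surface measure on the unit sphere. -/
noncomputable def sig : Measure (E 3) := exists_sig.choose

instance sig_prob : IsProbabilityMeasure sig := exists_sig.choose_spec.1

lemma sig_unit : ∀ᵐ ξ ∂sig, ‖ξ‖ = 1 := exists_sig.choose_spec.2.1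

lemma sig_arch {ω : E 3} (hω : ‖ω‖ = 1) {φ : ℝ → ℝ} (hφ : Continuous φ) :
    ∫ ξ, φ ⟪ω, ξ⟫ ∂sig = (1 / 2) * ∫ s in (-1 : ℝ)..1, φ s :=
  exists_sig.choose_spec.2.2.1 ω hω φ hφ

lemma sig_hs {f : E 3 → ℝ} (hf : Continuous f) (hf0 : ∀ z, 0 ≤ f z) {r1 r2 : ℝ} (h1 : 0 < r1)
    (h2 : r1 ≤ r2) (h3 : r2 ≤ 2) : ∫ z in closedBall (0 : E 3) r2 \ ball 0 r1, f z ≤
      16 * π * ∫ p in {p : E 3 × E 3 | ‖p.1 - p.2‖ ∈ Set.Icc r1 r2}, f (p.1 - p.2)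
        ∂(sig.prod sig) :=
  exists_sig.choose_spec.2.2.2 f hf hf0 r1 r2 h1 h2 h3

attribute [irreducible] sig

/-- Bounded measurable amplitudes. -/
structure Amp (f : E 3 → ℂ) : Prop where
  meas : Measurable f
  bdd : ∃ C : ℝ, ∀ ξ, ‖f ξ‖ ≤ C

/-- Extension operator. -/
noncomputable def Ex (f : E 3 → ℂ) (x : E 3) : ℂ := ∫ ξ, f ξ * ew ξ x ∂sig

/-- Squared norm on the sphere. -/
noncomputable def nsq (f : E 3 → ℂ) : ℝ := ∫ ξ, ‖f ξ‖ ^ 2 ∂sig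

/-- Gaussian weight of width `T`. -/
noncomputable def gw (T : ℝ) (x : E 3) : ℝ := Real.exp (-(π / T ^ 2) * ‖x‖ ^ 2)

/-- Inverse Fourier transform. -/
noncomputable def ift (F : E 3 → ℂ) (x : E 3) : ℂ := ∫ ζ, F ζ * ew ζ x

/-- Phase space density. -/
noncomputable def Hus (f : E 3 → ℂ) (b : ℝ) (ζ x : E 3) : ℝ :=
  ‖Ex (fun ξ => f ξ * ((Real.exp (-b * ‖ξ - ζ‖ ^ 2) : ℝ) : ℂ)) x‖ ^ 2

/-- Fourier transform of the localised wave `gw ρ (x - x0) * Ex f x`. -/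
noncomputable def HF (f : E 3 → ℂ) (ρ : ℝ) (x0 ζ : E 3) : ℂ :=
  ((ρ ^ 3 : ℝ) : ℂ) * conj (ew ζ x0) *
    Ex (fun ξ => f ξ * ((Real.exp (-(π * ρ ^ 2) * ‖ξ - ζ‖ ^ 2) : ℝ) : ℂ)) x0

/-- Local mass at `x0` with frequencies in `τ`. -/
noncomputable def Mc (f : E 3 → ℂ) (ρ : ℝ) (τ : Set (E 3)) (x0 : E 3) : ℝ :=
  ∫ ζ in τ, ρ ^ 6 * Hus f (π * ρ ^ 2) ζ x0

/-- Local size of a weight. -/
noncomputable def W0 (H : E 3 → ℝ) (ρ : ℝ) (x0 : E 3) : ℝ := ∫ x, H x * gw ρ (x - x0)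

/-- Distance of `v` to the line spanned by `ζ`. -/
noncomputable def ld (v ζ : E 3) : ℝ := ‖v - (⟪v, ζ⟫ / ‖ζ‖ ^ 2) • ζ‖

/-- Superposition of tubes; `p.1` is the direction and `p.2` a point of the axis. -/
noncomputable def Tube (μ : Measure (E 3 × E 3)) (ρ : ℝ) (x : E 3) : ℝ≥0∞ :=
  ∫⁻ p, ENNReal.ofReal (Real.exp (-(ld (x - p.2) p.1) / ρ)) ∂μ

/-- Determinant of three vectors. -/
def det3 (a b c : E 3) : ℝ :=
  a 0 * (b 1 * c 2 - b 2 * c 1) - a 1 * (b 0 * c 2 - b 2 * c 0) + a 2 * (b 0 * c 1 - b 1 * c 0)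

/-- Thickened spherical cap. -/
def Nb (e : E 3) (ε r : ℝ) : Set (E 3) := {ζ | |‖ζ‖ - 1| ≤ ε ∧ ‖ζ - e‖ ≤ r}

/-- Weighted bilinear functional. -/
noncomputable def JJ (K : E 3 → ℝ) (F1 F2 : E 3 → ℂ) : ℝ := ∫ x, K x * ‖ift F1 x‖ * ‖ift F2 x‖

/-- Weights with values in the unit interval. -/
structure Wt (H : E 3 → ℝ) : Prop where
  meas : Measurable H
  nonneg : ∀ x, 0 ≤ H x
  le_one : ∀ x, H x ≤ 1
  int : Integrable H

/-- Two transversal unit vectors. -/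
structure Tv (δ : ℝ) (e1 e2 : E 3) : Prop where
  pos : 0 < δ
  n1 : ‖e1‖ = 1
  n2 : ‖e2‖ = 1
  lo : δ ≤ ‖e1 - e2‖
  hi : ‖e1 - e2‖ ≤ 1

/-- Sum over transversal triples of cells. -/
noncomputable def Tri {N : ℕ} (p : Fin N → E 3) (w : ℝ) (m1 m2 : Fin N → ℝ) : ℝ :=
  ∑ a, ∑ b, ∑ c, if w < |det3 (p a) (p b) (p c)| then m1 a * m2 b * m1 c else 0

/-- A grid of mesh `θ` on the ball of radius two. -/
structure Grid (θ : ℝ) {N : ℕ} (ind : E 3 → Fin N) (p : Fin N → E 3) : Prop where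
  meas : Measurable ind
  near : ∀ ζ, ‖ζ‖ ≤ 2 → ‖ζ - p (ind ζ)‖ ≤ θ
  bd : ∀ a, ‖p a‖ ≤ 3
  card : (N : ℝ) ≤ 1000 / θ ^ 3

/-- Local bilinear estimate with a power gain. -/
def LocalEst (δ C c : ℝ) : Prop := ∀ e1 e2 : E 3, Tv δ e1 e2 → ∀ f1 f2 : E 3 → ℂ, Amp f1 → Amp f2 →
  (∀ ξ, δ / 40 < ‖ξ - e1‖ → f1 ξ = 0) → (∀ ξ, δ / 40 < ‖ξ - e2‖ → f2 ξ = 0) →
  ∀ T : ℝ, 1 ≤ T → ∀ H : E 3 → ℝ, Wt H → ∫ x, H x ≤ T ^ 2 → ∀ c0 : E 3,
    ∫ x, gw T (x - c0) * H x * ‖Ex f1 x‖ * ‖Ex f2 x‖ ≤ C * T ^ (1 - c) * √(nsq f1) * √(nsq f2)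

/-- Global bilinear estimate with a power gain. -/
def GlobalEst (δ C c : ℝ) : Prop := ∀ e1 e2 : E 3, Tv δ e1 e2 → ∀ f1 f2 : E 3 → ℂ, Amp f1 →
  Amp f2 → (∀ ξ, δ / 80 < ‖ξ - e1‖ → f1 ξ = 0) → (∀ ξ, δ / 80 < ‖ξ - e2‖ → f2 ξ = 0) →
  ∀ W : ℝ, 1 ≤ W → ∀ h : E 3 → ℂ, Measurable h → (∀ x, ‖h x‖ ≤ 1) → Integrable h →
    ∫ x, ‖h x‖ ≤ W →
    ‖∫ x, h x * (Ex f2 x * conj (Ex f1 x))‖ ≤ C * W ^ (1 / 2 - c) * √(nsq f1) * √(nsq f2)

/-- Kernel of the quadratic form on plane waves. -/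
noncomputable def kk (Ω : Set (E 3)) (z : E 3) : ℂ := ((-(‖z‖ ^ 2 / 2) : ℝ) : ℂ) * ft (chi Ω) z

/-- The form on amplitudes. -/
noncomputable def QQ (Ω : Set (E 3)) (f g : E 3 → ℂ) : ℂ :=
  ∫ p : E 3 × E 3, conj (f p.1) * kk Ω (p.1 - p.2) * g p.2 ∂(sig.prod sig)

/-- Tube in coordinates: `h` is the height, `q = (a, b, α, β)` the line `(a + α h, b + β h)`. -/
noncomputable def kt (ρ : ℝ) (q : ℝ × ℝ × ℝ × ℝ) (h u v : ℝ) : ℝ≥0∞ :=
  ENNReal.ofReal (Real.exp (-(|u - q.1 - q.2.2.1 * h| + |v - q.2.1 - q.2.2.2 * h|) / ρ))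

/-- Superposition of tubes in coordinates. -/
noncomputable def KT (ν : Measure (ℝ × ℝ × ℝ × ℝ)) (ρ h u v : ℝ) : ℝ≥0∞ := ∫⁻ q, kt ρ q h u v ∂ν

/-- The trilinear Kakeya functional. -/
noncomputable def KPhi (ν1 ν2 ν3 : Measure (ℝ × ℝ × ℝ × ℝ)) (T ρ : ℝ) : ℝ≥0∞ :=
  ∫⁻ s : ℝ × ℝ × ℝ, ENNReal.ofReal (Real.exp (-(|s.1| + |s.2.1| + |s.2.2|) / T)) *
    (KT ν1 ρ s.1 s.2.1 s.2.2 * KT ν2 ρ s.2.1 s.1 s.2.2 * KT ν3 ρ s.2.2 s.1 s.2.1) ^ (1 / 2 : ℝ)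

/-! Basic facts. -/

lemma Amp.integrable {f : E 3 → ℂ} (hf : Amp f) : Integrable f sig := by
  obtain ⟨C, hC⟩ := hf.bdd
  exact Integrable.of_bound hf.meas.aestronglyMeasurable C (Filter.Eventually.of_forall hC)

lemma Amp.integrable_sq {f : E 3 → ℂ} (hf : Amp f) : Integrable (fun ξ => ‖f ξ‖ ^ 2) sig := by
  obtain ⟨C, hC⟩ := hf.bdd
  refine Integrable.of_bound (hf.meas.norm.pow_const 2).aestronglyMeasurable (C ^ 2)
    (Filter.Eventually.of_forall fun ξ => ?_)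
  rw [Real.norm_eq_abs, abs_of_nonneg (by positivity)]
  exact pow_le_pow_left₀ (norm_nonneg _) (hC ξ) 2

lemma Amp.mul {f g : E 3 → ℂ} (hf : Amp f) (hg : Amp g) : Amp (fun ξ => f ξ * g ξ) := by
  obtain ⟨C, hC⟩ := hf.bdd
  obtain ⟨D, hD⟩ := hg.bdd
  refine ⟨hf.meas.mul hg.meas, C * D, fun ξ => ?_⟩
  rw [norm_mul]
  exact mul_le_mul (hC ξ) (hD ξ) (norm_nonneg _) ((norm_nonneg _).trans (hC ξ))

lemma amp_ew (x : E 3) : Amp (fun ξ => ew ξ x) :=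
  ⟨(by fun_prop : Continuous fun ξ : E 3 => ew ξ x).measurable, 1, fun ξ => by simp⟩

lemma amp_gauss {b : ℝ} (hb : 0 ≤ b) (ζ : E 3) :
    Amp (fun ξ => ((Real.exp (-b * ‖ξ - ζ‖ ^ 2) : ℝ) : ℂ)) := by
  refine ⟨(by fun_prop : Continuous fun ξ : E 3 =>
    ((Real.exp (-b * ‖ξ - ζ‖ ^ 2) : ℝ) : ℂ)).measurable, 1, fun ξ => ?_⟩
  rw [Complex.norm_real, Real.norm_eq_abs, abs_of_pos (Real.exp_pos _), Real.exp_le_one_iff]
  have : 0 ≤ b * ‖ξ - ζ‖ ^ 2 := by positivity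
  linarith

lemma Amp.indicator {f : E 3 → ℂ} (hf : Amp f) {S : Set (E 3)} (hS : MeasurableSet S) :
    Amp (S.indicator f) := by
  obtain ⟨C, hC⟩ := hf.bdd
  exact ⟨hf.meas.indicator hS, C, fun ξ => (norm_indicator_le_norm_self _ _).trans (hC ξ)⟩

lemma nsq_nonneg (f : E 3 → ℂ) : 0 ≤ nsq f := integral_nonneg fun ξ => by positivity

lemma Amp.l1_sq_le {f : E 3 → ℂ} (hf : Amp f) : (∫ ξ, ‖f ξ‖ ∂sig) ^ 2 ≤ nsq f := by
  set A := ∫ ξ, ‖f ξ‖ ∂sig with hA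
  have h1 : 0 ≤ ∫ ξ, (‖f ξ‖ ^ 2 - 2 * A * ‖f ξ‖ + A ^ 2) ∂sig :=
    integral_nonneg fun ξ => by simp only [Pi.zero_apply]; nlinarith [sq_nonneg (‖f ξ‖ - A)]
  have i1 : Integrable (fun ξ => ‖f ξ‖ ^ 2 - 2 * A * ‖f ξ‖) sig :=
    hf.integrable_sq.sub (hf.integrable.norm.const_mul _)
  rw [integral_add i1 (integrable_const _), integral_sub hf.integrable_sq
    (hf.integrable.norm.const_mul _), integral_const_mul, integral_const] at h1
  simp only [probReal_univ, smul_eq_mul, one_mul] at h1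
  rw [nsq]; nlinarith

lemma Amp.norm_Ex_le {f : E 3 → ℂ} (hf : Amp f) (x : E 3) : ‖Ex f x‖ ≤ √(nsq f) := by
  refine Real.le_sqrt_of_sq_le (le_trans ?_ hf.l1_sq_le)
  refine pow_le_pow_left₀ (norm_nonneg _) ((norm_integral_le_integral_norm _).trans ?_) 2
  simp

lemma Amp.continuous_Ex {f : E 3 → ℂ} (hf : Amp f) : Continuous (Ex f) := by
  unfold Ex
  refine continuous_of_dominated (bound := fun ξ => ‖f ξ‖)
    (fun x => (hf.mul (amp_ew x)).meas.aestronglyMeasurable)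
    (fun x => Filter.Eventually.of_forall fun ξ => by simp) hf.integrable.norm
    (Filter.Eventually.of_forall fun ξ => by fun_prop)

lemma Ex_add (f : E 3 → ℂ) (x c : E 3) : Ex f (x + c) = Ex (fun ξ => f ξ * ew ξ c) x := by
  unfold Ex
  refine integral_congr_ae (Filter.Eventually.of_forall fun ξ => ?_)
  simp only
  rw [ew_comm ξ (x + c), ew_add, ew_comm x, ew_comm c]; ring

/-- Duality between extension and restriction. -/
lemma Amp.pair {f : E 3 → ℂ} (hf : Amp f) {g : E 3 → ℂ} (hg : Integrable g) :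
    ∫ x, g x * conj (Ex f x) = ∫ ξ, conj (f ξ) * ft g ξ ∂sig := by
  have hf' : Integrable (fun ξ => conj (f ξ)) sig := by
    simpa using (Complex.conjCLE : ℂ →L[ℝ] ℂ).integrable_comp hf.integrable
  have i1 : Integrable (Function.uncurry fun (x ξ : E 3) => g x * conj (f ξ) * conj (ew ξ x))
      (volume.prod sig) :=
    (hg.mul_prod hf').mul_bdd (c := 1) (by fun_prop) (Filter.Eventually.of_forall fun p => by simp)
  calc ∫ x, g x * conj (Ex f x) = ∫ x, ∫ ξ, g x * conj (f ξ) * conj (ew ξ x) ∂sig := by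
        refine integral_congr_ae (Filter.Eventually.of_forall fun x => ?_)
        simp only [Ex]
        rw [← integral_conj, ← integral_const_mul]
        simp only [map_mul, mul_assoc]
    _ = ∫ ξ, (∫ x, g x * conj (f ξ) * conj (ew ξ x)) ∂sig := integral_integral_swap i1
    _ = _ := by
        refine integral_congr_ae (Filter.Eventually.of_forall fun ξ => ?_)
        simp only [ft]
        rw [← integral_const_mul]
        exact integral_congr_ae (Filter.Eventually.of_forall fun x => by ring)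

lemma Amp.continuous_Hus {f : E 3 → ℂ} (hf : Amp f) {b : ℝ} (hb : 0 ≤ b) :
    Continuous (fun p : E 3 × E 3 => Hus f b p.1 p.2) := by
  have h : Continuous (fun p : E 3 × E 3 => ∫ ξ, f ξ * ((Real.exp (-b * ‖ξ - p.1‖ ^ 2) : ℝ) : ℂ) *
      ew ξ p.2 ∂sig) := by
    refine continuous_of_dominated (bound := fun ξ => ‖f ξ‖)
      (fun p => ((hf.mul (amp_gauss hb p.1)).mul (amp_ew p.2)).meas.aestronglyMeasurable)
      (fun p => Filter.Eventually.of_forall fun ξ => ?_) hf.integrable.norm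
      (Filter.Eventually.of_forall fun ξ => by fun_prop)
    rw [norm_mul, norm_mul, norm_ew, mul_one, Complex.norm_real, Real.norm_eq_abs,
      abs_of_pos (Real.exp_pos _)]
    refine mul_le_of_le_one_right (norm_nonneg _) (Real.exp_le_one_iff.mpr ?_)
    have : 0 ≤ b * ‖ξ - p.1‖ ^ 2 := by positivity
    linarith
  exact h.norm.pow 2

lemma Hus_nonneg (f : E 3 → ℂ) (b : ℝ) (ζ x : E 3) : 0 ≤ Hus f b ζ x := by
  unfold Hus; positivity

lemma Amp.measurable_Mc {f : E 3 → ℂ} (hf : Amp f) (ρ : ℝ) (τ : Set (E 3)) :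
    Measurable (Mc f ρ τ) := by
  have h := (hf.continuous_Hus (b := π * ρ ^ 2) (by positivity)).comp continuous_swap
  have h2 : Continuous (fun p : E 3 × E 3 => ρ ^ 6 * Hus f (π * ρ ^ 2) p.2 p.1) :=
    continuous_const.mul h
  exact (h2.stronglyMeasurable.integral_prod_right' (ν := volume.restrict τ)).measurable

lemma Mc_nonneg (f : E 3 → ℂ) (ρ : ℝ) (τ : Set (E 3)) (x0 : E 3) : 0 ≤ Mc f ρ τ x0 :=
  integral_nonneg fun ζ => mul_nonneg (by positivity) (Hus_nonneg _ _ _ _)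

lemma norm_HF_sq (f : E 3 → ℂ) (ρ : ℝ) (x0 ζ : E 3) :
    ‖HF f ρ x0 ζ‖ ^ 2 = ρ ^ 6 * Hus f (π * ρ ^ 2) ζ x0 := by
  rw [HF, Hus, norm_mul, norm_mul, Complex.norm_conj, norm_ew, mul_one, mul_pow,
    Complex.norm_real, Real.norm_eq_abs, sq_abs]
  ring

lemma gw_pos (T : ℝ) (x : E 3) : 0 < gw T x := Real.exp_pos _

lemma gw_le_one (T : ℝ) (x : E 3) : gw T x ≤ 1 := by
  refine Real.exp_le_one_iff.mpr ?_
  have : 0 ≤ π / T ^ 2 * ‖x‖ ^ 2 := by positivity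
  linarith

@[fun_prop] lemma continuous_gw (T : ℝ) : Continuous (gw T) := by
  unfold gw; fun_prop

lemma integrable_gw {T : ℝ} (hT : 0 < T) : Integrable (gw T) := integrable_gauss (by positivity)

lemma integral_gw {T : ℝ} (hT : 0 < T) : ∫ x, gw T x = T ^ 3 := by
  unfold gw
  rw [integral_gauss (by positivity), show π / (π / T ^ 2) = T ^ 2 by field_simp,
    ← Real.rpow_natCast T 2, ← Real.rpow_mul hT.le, ← Real.rpow_natCast]
  norm_num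

lemma ift_eq (F : E 3 → ℂ) (x : E 3) : ift F x = ft F (-x) := by
  unfold ift ft
  refine integral_congr_ae (Filter.Eventually.of_forall fun ζ => ?_)
  simp only
  rw [conj_ew, neg_neg, ew_comm, mul_comm]

lemma measurableSet_Nb (e : E 3) (ε r : ℝ) : MeasurableSet (Nb e ε r) := by
  have h1 : IsClosed {ζ : E 3 | |‖ζ‖ - 1| ≤ ε} := isClosed_le (by fun_prop) continuous_const
  have h2 : IsClosed {ζ : E 3 | ‖ζ - e‖ ≤ r} := isClosed_le (by fun_prop) continuous_const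
  exact (h1.inter h2).measurableSet

lemma measurable_ld : Measurable (fun p : E 3 × E 3 => ld p.1 p.2) := by
  unfold ld
  have h1 : Measurable (fun p : E 3 × E 3 => ⟪p.1, p.2⟫ / ‖p.2‖ ^ 2) :=
    (by fun_prop : Continuous fun p : E 3 × E 3 => ⟪p.1, p.2⟫).measurable.div
      (by fun_prop : Continuous fun p : E 3 × E 3 => ‖p.2‖ ^ 2).measurable
  exact (measurable_fst.sub (h1.smul measurable_snd)).norm

lemma measurable_Tube (μ : Measure (E 3 × E 3)) [SFinite μ] (ρ : ℝ) : Measurable (Tube μ ρ) := by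
  unfold Tube
  refine Measurable.lintegral_prod_right (f := fun (x : E 3) (p : E 3 × E 3) =>
    ENNReal.ofReal (Real.exp (-(ld (x - p.2) p.1) / ρ))) ?_
  have h1 : Measurable (fun q : E 3 × E 3 × E 3 => ld (q.1 - q.2.2) q.2.1) :=
    Measurable.comp (g := fun p : E 3 × E 3 => ld p.1 p.2)
      (f := fun q : E 3 × E 3 × E 3 => (q.1 - q.2.2, q.2.1)) measurable_ld
      ((measurable_fst.sub measurable_snd.snd).prodMk measurable_snd.fst)
  exact (Real.measurable_exp.comp (h1.neg.div_const ρ)).ennreal_ofReal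

lemma nsq3 (a : E 3) : ‖a‖ ^ 2 = a 0 ^ 2 + a 1 ^ 2 + a 2 ^ 2 := by
  rw [EuclideanSpace.norm_sq_eq, Fin.sum_univ_three]; simp [sq_abs]

lemma inner3 (a b : E 3) : ⟪a, b⟫ = a 0 * b 0 + a 1 * b 1 + a 2 * b 2 := by
  rw [PiLp.inner_apply, Fin.sum_univ_three]; simp [mul_comm]

/-- Gram identity. -/
lemma det3_sq (a b c : E 3) : det3 a b c ^ 2 + ‖⟪c, b⟫ • a - ⟪c, a⟫ • b‖ ^ 2 =
    ‖c‖ ^ 2 * (‖a‖ ^ 2 * ‖b‖ ^ 2 - ⟪a, b⟫ ^ 2) := by
  simp only [nsq3, inner3, det3, PiLp.sub_apply, PiLp.smul_apply, smul_eq_mul]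
  ring

lemma abs_det3_le (a b c : E 3) : |det3 a b c| ≤ ‖a‖ * ‖b‖ * ‖c‖ := by
  refine abs_le_of_sq_le_sq ?_ (by positivity)
  have := det3_sq a b c
  nlinarith [sq_nonneg ‖⟪c, b⟫ • a - ⟪c, a⟫ • b‖, mul_nonneg (sq_nonneg ‖c‖) (sq_nonneg ⟪a, b⟫)]

lemma det3_add1 (a a' b c : E 3) : det3 (a + a') b c = det3 a b c + det3 a' b c := by
  simp only [det3, PiLp.add_apply]; ring

lemma det3_add2 (a b b' c : E 3) : det3 a (b + b') c = det3 a b c + det3 a b' c := by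
  simp only [det3, PiLp.add_apply]; ring

lemma det3_add3 (a b c c' : E 3) : det3 a b (c + c') = det3 a b c + det3 a b c' := by
  simp only [det3, PiLp.add_apply]; ring

lemma det3_sub3 (a b c c' : E 3) : det3 a b (c - c') = det3 a b c - det3 a b c' := by
  simp only [det3, PiLp.sub_apply]; ring

lemma continuous_kk {Ω : Set (E 3)} (hm : MeasurableSet Ω) (hf : volume Ω ≠ ⊤) :
    Continuous (kk Ω) := by
  have := continuous_ft (integrable_chi hm hf)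
  unfold kk; fun_prop

end Pool.Agent.P.MP_f791b6_an
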