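import Pool.Agent.P.MP_f791b6_an.N4Pairs
import Pool.Agent.P.MP_f791b6_an.N3Defs

namespace Pool.Agent.P.MP_f791b6_an

open MeasureTheory Complex Metric
open scoped ComplexConjugate Real RealInnerProductSpace

variable {n : ℕ}

/-- Average of a continuous function over all rotations. -/
theorem exists_avg2 (hn : 1 ≤ n) {f : E n → ℝ} (hf : Continuous f) (hf0 : ∀ z, 0 ≤ f z) :
    ∃ F : ℝ → ℝ, Continuous F ∧ (∀ r, 0 ≤ F r) ∧
      (∀ φ : ℝ → ℝ, Continuous φ → ∀ r1 r2 : ℝ, 0 < r1 → r1 ≤ r2 →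
        ∫ z in closedBall (0 : E n) r2 \ ball 0 r1, φ ‖z‖ * f z =
          n * om n * ∫ r in r1..r2, r ^ (n - 1) * (φ r * F r)) ∧
      ∀ (ι : Type) [Fintype ι] (w : ι → E n) (c : ι → ℝ), 0 < ∑ i, c i * F ‖w i‖ →
        ∃ ρ : E n ≃ₗᵢ[ℝ] E n, 0 < ∑ i, c i * f (ρ (w i)) := by
  have := avg_star (n := n)
  have := avg_compact (n := n)
  let : MeasurableSpace (avgG n) := borel _
  have : BorelSpace (avgG n) := ⟨rfl⟩
  let μ : Measure (avgG n) := (Measure.haarMeasure ⊤).inv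
  have : IsProbabilityMeasure (Measure.haarMeasure (⊤ : TopologicalSpace.PositiveCompacts
    (avgG n))) := ⟨by rw [← TopologicalSpace.PositiveCompacts.coe_top, Measure.haarMeasure_self]⟩
  have : IsProbabilityMeasure μ := ⟨by
    rw [Measure.inv_apply, Set.inv_univ, measure_univ]⟩
  have hc := avg_cont hf
  let fb : E n → ℝ := fun w => ∫ g : avgG n, f ((g : E n →L[ℝ] E n) w) ∂μ
  have hfb : Continuous fb := by
    have := continuous_parametric_integral_of_continuous (μ := μ)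
      (f := fun (w : E n) (g : avgG n) => f ((g : E n →L[ℝ] E n) w)) hc isCompact_univ
    simpa only [Measure.restrict_univ] using this
  have hinv : ∀ v w : E n, ‖v‖ = ‖w‖ → fb v = fb w := fun v w h => by
    let u : avgG n := Unitary.linearIsometryEquiv.symm (Submodule.reflection (ℝ ∙ (v - w))ᗮ)
    have hu : (u : E n →L[ℝ] E n) v = w := Submodule.reflection_sub h
    have := integral_mul_right_eq_self (μ := μ)
      (fun g : avgG n => f ((g : E n →L[ℝ] E n) v)) u
    refine this.symm.trans (integral_congr_ae (Filter.Eventually.of_forall fun g => ?_))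
    show f ((g : E n →L[ℝ] E n) ((u : E n →L[ℝ] E n) v)) = _
    rw [hu]
  let e : E n := EuclideanSpace.single ⟨0, hn⟩ 1
  have he : ‖e‖ = 1 := by simp [e]
  have hF : ∀ w, fb (‖w‖ • e) = fb w := fun w =>
    hinv _ _ (by rw [norm_smul, he, mul_one, norm_norm])
  have hi : ∀ w : E n, Integrable (fun g : avgG n => f ((g : E n →L[ℝ] E n) w)) μ := fun w =>
    (hc.comp (Continuous.prodMk_right w)).integrable_of_hasCompactSupport
      (HasCompactSupport.of_compactSpace _)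
  refine ⟨fun r => fb (r • e), hfb.comp (continuous_id.smul continuous_const),
    fun r => integral_nonneg fun g => hf0 _, fun φ hφ r1 r2 h1 h2 => ?_, fun ι _ w c h => ?_⟩
  · rw [← avg_radial hn (fun r => φ r * fb (r • e)) h1 h2]
    simp only [hF]
    set A := closedBall (0 : E n) r2 \ ball 0 r1 with hA
    have hK : IsCompact A := (isCompact_closedBall _ _).diff isOpen_ball
    have hint : Integrable (Function.uncurry fun (z : E n) (g : avgG n) =>
        φ ‖z‖ * f ((g : E n →L[ℝ] E n) z)) ((volume.restrict A).prod μ) := by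
      have h3 : IntegrableOn (fun p : E n × avgG n => φ ‖p.1‖ * f ((p.2 : E n →L[ℝ] E n) p.1))
          (A ×ˢ Set.univ) (volume.prod μ) :=
        ((hφ.comp continuous_fst.norm).mul hc).continuousOn.integrableOn_compact
          (hK.prod isCompact_univ)
      rw [IntegrableOn, ← Measure.prod_restrict, Measure.restrict_univ] at h3
      exact h3
    have hg : ∀ g : avgG n, ∫ z in A, φ ‖z‖ * f ((g : E n →L[ℝ] E n) z) =
        ∫ z in A, φ ‖z‖ * f z := fun g => by
      let ρ := Unitary.linearIsometryEquiv g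
      have h4 := ρ.measurePreserving.setIntegral_preimage_emb
        ρ.toHomeomorph.measurableEmbedding (fun z => φ ‖z‖ * f z) A
      have h5 : ρ ⁻¹' A = A := by
        ext z
        simp [hA]
      rw [h5] at h4
      simp only [ρ.norm_map] at h4
      exact h4
    simp only [fb, ← integral_const_mul]
    rw [integral_integral_swap hint]
    simp only [hg]
    simp
  · by_contra hcon
    simp only [not_exists, not_lt] at hcon
    simp only [hF] at h
    have e1 : ∑ i, c i * fb (w i) =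
        ∫ g : avgG n, ∑ i, c i * f ((g : E n →L[ℝ] E n) (w i)) ∂μ := by
      rw [integral_finsetSum _ fun i _ => (hi (w i)).const_mul (c i)]
      exact Finset.sum_congr rfl fun i _ => (integral_const_mul _ _).symm
    rw [e1] at h
    exact h.not_ge (integral_nonpos fun g => hcon (Unitary.linearIsometryEquiv g))

lemma norm_kk_sq (Ω : Set (E 3)) (z : E 3) :
    ‖kk Ω z‖ ^ 2 = ‖z‖ ^ 4 / 4 * ‖ft (chi Ω) z‖ ^ 2 := by
  rw [kk, norm_mul, mul_pow, Complex.norm_real, Real.norm_eq_abs, sq_abs]; ring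

/-- Either pairs of plane waves work, or the low frequencies are dominated by the unit scale. -/
theorem caseP {Ω : Set (E 3)} (hm : MeasurableSet Ω) (hb : Bornology.IsBounded Ω)
    (L : Submodule ℂ (E 3 → ℂ)) [FiniteDimensional ℂ L] (hL : ∀ u ∈ L, Test u)
    (hΩ : ∀ u ∈ L, tsupport u ⊆ Ω) (hR : ∀ u ∈ L, energy Ω u ≤ 4 * π ^ 2 * mass Ω u)
    {m : ℕ} (hm1 : 1 ≤ m) {β θ : ℝ} (hθ : θ = 1 / (20 * m)) (hβ : 0 < β) (hβ1 : β ≤ θ) :
    NeuOK Ω (Module.finrank ℂ L + m) ∨
      (∫ ζ in closedBall (0 : E 3) θ \ ball 0 β, ‖ft (chi Ω) ζ‖ ^ 2 ≤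
        1600 * (m : ℝ) ^ 4 / θ ^ 2 / β * ∫ ζ in mid 3 θ, ‖kk Ω ζ‖ ^ 2) ∧
      ∫ ζ in closedBall (0 : E 3) θ \ ball 0 β, ‖kk Ω ζ‖ ^ 2 ≤
        1600 * (m : ℝ) ^ 4 / θ ^ 2 * ∫ ζ in mid 3 θ, ‖kk Ω ζ‖ ^ 2 := by
  have hf : volume Ω ≠ ⊤ := hb.measure_lt_top.ne
  have hc := continuous_ft (integrable_chi hm hf)
  obtain ⟨F, hF, hF0, hann, hrot⟩ := exists_avg2 (n := 3) (by omega)
    (f := fun ζ => ‖ft (chi Ω) ζ‖ ^ 2) (by fun_prop) (fun ζ => by positivity)
  have hm' : (1 : ℝ) ≤ m := by exact_mod_cast hm1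
  have hθ0 : 0 < θ := hβ.trans_le hβ1
  have hθ1 : θ ≤ 1 / 20 := by rw [hθ]; gcongr; linarith
  set H : ℝ → ℝ := fun s => s ^ 4 * F s with hH
  have hHc : Continuous H := by fun_prop
  have hH0 : ∀ s, 0 ≤ H s := fun s => mul_nonneg (by positivity) (hF0 s)
  have hc0 : 0 < ((3 : ℕ) : ℝ) * om 3 := by
    have := om_pos (n := 3)
    positivity
  set B := ∫ s in θ..(2 / 5), H s with hB
  have hB0 : 0 ≤ B := intervalIntegral.integral_nonneg (by linarith) fun s _ => hH0 s
  by_cases hcon : ∃ r ∈ Set.Icc β θ, 400 * (m : ℝ) ^ 4 * B < H r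
  swap
  · right
    push Not at hcon
    have hk : ∀ r1 r2 : ℝ, 0 < r1 → r1 ≤ r2 →
        ∫ ζ in closedBall (0 : E 3) r2 \ ball 0 r1, ‖kk Ω ζ‖ ^ 2 =
          ((3 : ℕ) : ℝ) * om 3 * ∫ r in r1..r2, r ^ 2 * (r ^ 4 / 4 * F r) := fun r1 r2 h1 h2 => by
      simp only [norm_kk_sq]
      exact hann (fun r => r ^ 4 / 4) (by fun_prop) r1 r2 h1 h2
    have h1 : ((3 : ℕ) : ℝ) * om 3 * B ≤ 4 / θ ^ 2 * ∫ ζ in mid 3 θ, ‖kk Ω ζ‖ ^ 2 := by
      rw [mid, hk θ (2 / 5) hθ0 (by linarith), mul_left_comm (4 / θ ^ 2),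
        ← intervalIntegral.integral_const_mul (4 / θ ^ 2)]
      refine mul_le_mul_of_nonneg_left (intervalIntegral.integral_mono_on (by linarith)
        (hHc.intervalIntegrable _ _) ((by fun_prop : Continuous fun r : ℝ =>
          4 / θ ^ 2 * (r ^ 2 * (r ^ 4 / 4 * F r))).intervalIntegrable _ _) fun s hs => ?_) hc0.le
      have a1 : 1 ≤ s ^ 2 / θ ^ 2 := by
        rw [le_div_iff₀ (by positivity), one_mul]; exact pow_le_pow_left₀ hθ0.le hs.1 2
      calc H s ≤ s ^ 2 / θ ^ 2 * H s := le_mul_of_one_le_left (hH0 s) a1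
        _ = _ := by simp only [hH]; ring
    constructor
    · have e1 := hann (fun _ => 1) continuous_const β θ hβ hβ1
      simp only [one_mul] at e1
      rw [e1]
      have h2 : ∫ r in β..θ, r ^ (3 - 1) * F r ≤
          ∫ r in β..θ, 400 * (m : ℝ) ^ 4 * B * r ^ (-2 : ℤ) := by
        refine intervalIntegral.integral_mono_on hβ1 ((by fun_prop : Continuous fun r : ℝ =>
          r ^ (3 - 1) * F r).intervalIntegrable _ _) ?_ fun s hs => ?_
        · refine (ContinuousOn.intervalIntegrable ?_)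
          rw [Set.uIcc_of_le hβ1]
          exact continuousOn_const.mul (continuousOn_id.zpow₀ _
            fun s hs => Or.inl (hβ.trans_le hs.1).ne')
        · have hs0 : 0 < s := hβ.trans_le hs.1
          calc s ^ (3 - 1) * F s = H s * s ^ (-2 : ℤ) := by
                simp only [hH]; field_simp; try ring
            _ ≤ _ := mul_le_mul_of_nonneg_right (hcon s hs) (by positivity)
      rw [intervalIntegral.integral_const_mul, integral_zpow (Or.inr ⟨by norm_num,
        Set.notMem_uIcc_of_lt hβ hθ0⟩)] at h2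
      have h3 : (θ ^ (-2 + 1 : ℤ) - β ^ (-2 + 1 : ℤ)) / (((-2 : ℤ) : ℝ) + 1) ≤ 1 / β := by
        have : 0 < θ⁻¹ := by positivity
        norm_num
        linarith
      calc _ ≤ ((3 : ℕ) : ℝ) * om 3 * (400 * (m : ℝ) ^ 4 * B * (1 / β)) :=
            mul_le_mul_of_nonneg_left (h2.trans (by gcongr)) hc0.le
        _ = 400 * (m : ℝ) ^ 4 / β * (((3 : ℕ) : ℝ) * om 3 * B) := by ring
        _ ≤ 400 * (m : ℝ) ^ 4 / β * (4 / θ ^ 2 * ∫ ζ in mid 3 θ, ‖kk Ω ζ‖ ^ 2) := by gcongr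
        _ = _ := by ring
    · rw [hk β θ hβ hβ1]
      have h2 : ∫ r in β..θ, r ^ 2 * (r ^ 4 / 4 * F r) ≤ ∫ r in β..θ, 400 * (m : ℝ) ^ 4 * B := by
        refine intervalIntegral.integral_mono_on hβ1 ((by fun_prop : Continuous fun r : ℝ =>
          r ^ 2 * (r ^ 4 / 4 * F r)).intervalIntegrable _ _) intervalIntegrable_const
          fun s hs => ?_
        have hs0 : 0 < s := hβ.trans_le hs.1
        have a1 : s ^ 2 / 4 ≤ 1 := by nlinarith [hs.2]
        calc s ^ 2 * (s ^ 4 / 4 * F s) = s ^ 2 / 4 * H s := by simp only [hH]; ring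
          _ ≤ H s := mul_le_of_le_one_left (hH0 s) a1
          _ ≤ _ := hcon s hs
      rw [intervalIntegral.integral_const, smul_eq_mul] at h2
      have h3 : (θ - β) * (400 * (m : ℝ) ^ 4 * B) ≤ 400 * (m : ℝ) ^ 4 * B :=
        mul_le_of_le_one_left (by positivity) (by linarith)
      calc _ ≤ ((3 : ℕ) : ℝ) * om 3 * (400 * (m : ℝ) ^ 4 * B) :=
            mul_le_mul_of_nonneg_left (h2.trans h3) hc0.le
        _ = 400 * (m : ℝ) ^ 4 * (((3 : ℕ) : ℝ) * om 3 * B) := by ring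
        _ ≤ 400 * (m : ℝ) ^ 4 * (4 / θ ^ 2 * ∫ ζ in mid 3 θ, ‖kk Ω ζ‖ ^ 2) := by gcongr
        _ = _ := by ring
  left
  obtain ⟨r, hr, hrA⟩ := hcon
  subst hθ
  obtain ⟨z, x, hz, hx, hxz, hsum⟩ := exists_conf (n := 3) (by omega) hm1 hHc hH0
    (hβ.le.trans hr.1) hr.2 hrA
  obtain ⟨ρ, hρ⟩ := hrot (Option ((Fin m × Bool) × (Fin m × Bool)))
    (fun o => o.elim z fun p => x p.1 - x p.2)
    (fun o => o.elim (‖z‖ ^ 4) fun p => if p.1.1 = p.2.1 then 0 else -‖x p.1 - x p.2‖ ^ 4) (by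
      rw [Fintype.sum_option, Fintype.sum_prod_type]
      simp only [Option.elim_none, Option.elim_some, hz]
      have : ∀ p q : Fin m × Bool, (if p.1 = q.1 then 0 else -‖x p - x q‖ ^ 4) * F ‖x p - x q‖ =
          -(if p.1 = q.1 then 0 else H ‖x p - x q‖) := fun p q => by
        split_ifs <;> simp [hH]
      simp only [this, Finset.sum_neg_distrib]
      change 0 < H r + _
      linarith)
  rw [Fintype.sum_option, Fintype.sum_prod_type] at hρ
  simp only [Option.elim_none, Option.elim_some] at hρ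
  have hy : ∀ p, ‖ρ (x p)‖ = 1 := fun p => by rw [ρ.norm_map, hx]
  obtain ⟨Φ, hΦ⟩ := pairs_neg (Qm Ω (fun p => ρ (x p)) fun _ => 1)
    (((-(‖z‖ ^ 2 / 2) : ℝ) : ℂ) * ft (chi Ω) (ρ z))
    (fun p => by rw [Qm_unit Ω _ hy]; simp)
    (fun i => by rw [Qm_unit Ω _ hy, ← map_sub, hxz, ρ.norm_map])
    (fun i => by
      have := (Qm_isHermitian hm (fun p => ρ (x p)) fun _ => 1).apply (i, false) (i, true)
      rw [← this, Qm_unit Ω _ hy, ← map_sub, hxz, ρ.norm_map]; rfl)
    (by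
      have e1 : ∀ p q : Fin m × Bool,
          (if p.1 = q.1 then 0 else ‖Qm Ω (fun p => ρ (x p)) (fun _ => 1) p q‖ ^ 2) =
          -((if p.1 = q.1 then 0 else -‖x p - x q‖ ^ 4) *
            ‖ft (chi Ω) (ρ (x p - x q))‖ ^ 2) / 4 := fun p q => by
        split_ifs
        · simp
        · rw [norm_Qm_unit Ω _ hy, ← map_sub, ρ.norm_map]; ring
      simp only [e1, ← Finset.sum_div, Finset.sum_neg_distrib]
      rw [norm_mul, mul_pow, Complex.norm_real, Real.norm_eq_abs, sq_abs]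
      linarith)
  exact filonov hm hb L hL hΩ hR _ _ (Or.inr hy) Φ hΦ

end Pool.Agent.P.MP_f791b6_an
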