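import Pool.Agent.P.MP_f791b6_an.N4Main
import Pool.Agent.P.MP_f791b6_an.N3Pairs
import Pool.Agent.P.MP_f791b6_an.N3Form
import Pool.Agent.P.MP_f791b6_an.N3Cells
import Pool.Agent.P.MP_f791b6_an.N3Glob
import Pool.Agent.P.MP_f791b6_an.N3Local

namespace Pool.Agent.P.MP_f791b6_an

open MeasureTheory Metric Filter
open scoped Real

lemma setInt_le_add {f : E 3 → ℝ} (hf : Continuous f) (hf0 : ∀ z, 0 ≤ f z) {A A1 A2 : Set (E 3)}
    (b1 : Bornology.IsBounded A1) (b2 : Bornology.IsBounded A2) (h : A ⊆ A1 ∪ A2) :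
    ∫ z in A, f z ≤ (∫ z in A1, f z) + ∫ z in A2, f z := by
  have i1 : IntegrableOn f A1 := integrableOn_of_cont b1 hf
  have i2 : IntegrableOn f A2 := integrableOn_of_cont b2 hf
  rw [← integral_add_measure i1 i2]
  exact integral_mono_measure (le_trans (Measure.restrict_mono h le_rfl)
    (Measure.restrict_union_le _ _)) (Eventually.of_forall hf0) (Integrable.add_measure i1 i2)

lemma kk_top {Ω : Set (E 3)} (hm : MeasurableSet Ω) (hf : volume Ω ≠ ⊤) {S : Set (E 3)}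
    (hS : MeasurableSet S) (hS1 : ∀ ξ ∈ S, ‖ξ‖ ≤ 1) :
    ∫ ζ in S, ‖kk Ω ζ‖ ^ 2 ≤ volume.real Ω := by
  have hc := continuous_ft (integrable_chi hm hf)
  have hk := continuous_kk hm hf
  have hb : Bornology.IsBounded S := isBounded_iff_forall_norm_le.mpr ⟨1, hS1⟩
  have h1 := ball_bound (integrable_chi hm hf) (integrable_chi_sq hm hf) hS hS1
  simp only [norm_chi_sq] at h1
  rw [integral_norm_chi hm] at h1
  have h2 : ∫ ζ in S, ‖kk Ω ζ‖ ^ 2 ≤ ∫ ζ in S, 1 / 4 * ‖ft (chi Ω) ζ‖ ^ 2 := by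
    refine setIntegral_mono_on (integrableOn_of_cont hb (by fun_prop))
      (integrableOn_of_cont hb (by fun_prop)) hS fun ζ hζ => ?_
    rw [norm_kk_sq]
    have : ‖ζ‖ ^ 4 ≤ 1 := pow_le_one₀ (norm_nonneg _) (hS1 ζ hζ)
    gcongr
  rw [integral_const_mul] at h2
  have : 0 ≤ volume.real Ω := measureReal_nonneg
  linarith

lemma kk_mid {Ω : Set (E 3)} (hm : MeasurableSet Ω) (hf : volume Ω ≠ ⊤) {θ : ℝ} (hθ : 0 < θ) :
    ∫ ζ in mid 3 θ, ‖ft (chi Ω) ζ‖ ^ 2 ≤ 4 / θ ^ 4 * ∫ ζ in mid 3 θ, ‖kk Ω ζ‖ ^ 2 := by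
  have hc := continuous_ft (integrable_chi hm hf)
  have hk := continuous_kk hm hf
  rw [← integral_const_mul]
  refine setIntegral_mono_on (integrableOn_of_cont (isBounded_mid θ) (by fun_prop))
    (integrableOn_of_cont (isBounded_mid θ) (by fun_prop)) (measurableSet_mid θ) fun ζ hζ => ?_
  have h1 : θ ≤ ‖ζ‖ := by
    have := hζ.2; rwa [mem_ball_zero_iff, not_lt] at this
  have h2 : 1 ≤ ‖ζ‖ ^ 4 / θ ^ 4 := by
    rw [le_div_iff₀ (by positivity), one_mul]; exact pow_le_pow_left₀ hθ.le h1 4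
  rw [norm_kk_sq]
  calc ‖ft (chi Ω) ζ‖ ^ 2 ≤ ‖ζ‖ ^ 4 / θ ^ 4 * ‖ft (chi Ω) ζ‖ ^ 2 :=
        le_mul_of_one_le_left (by positivity) h2
    _ = _ := by ring

lemma kk_ball {Ω : Set (E 3)} (hm : MeasurableSet Ω) {β : ℝ} (hβ : 0 < β) :
    ∫ ζ in ball (0 : E 3) β, ‖kk Ω ζ‖ ^ 2 ≤ β ^ 7 * om 3 * volume.real Ω ^ 2 := by
  have h1 := norm_setIntegral_le_of_norm_le_const (μ := volume) (s := ball (0 : E 3) β)
    (f := fun ζ => ‖kk Ω ζ‖ ^ 2) (C := β ^ 4 * volume.real Ω ^ 2) measure_ball_lt_top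
    (fun ζ hζ => by
      rw [Real.norm_eq_abs, abs_of_nonneg (by positivity), norm_kk_sq]
      have a1 : ‖ζ‖ ^ 4 ≤ β ^ 4 := pow_le_pow_left₀ (norm_nonneg _) (mem_ball_zero_iff.mp hζ).le 4
      have a2 : ‖ft (chi Ω) ζ‖ ≤ volume.real Ω := by
        rw [← integral_norm_chi hm]; exact norm_ft_le _ _
      have a3 : ‖ζ‖ ^ 4 / 4 ≤ β ^ 4 := by have : 0 ≤ ‖ζ‖ ^ 4 := by positivity
                                          linarith
      gcongr)
  rw [vol_ball hβ] at h1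
  exact (le_abs_self _).trans (h1.trans (le_of_eq (by ring)))

lemma exists_level {x : ℝ} (hx : 1 ≤ x) (N : ℕ) (hN : 1 ≤ N) :
    ∃ I : ℕ, 1 ≤ I ∧ x ^ N ≤ 2 ^ I ∧ (I : ℝ) ≤ 3 * N * x := by
  obtain ⟨i, h1, h2⟩ := exists_nat_pow_near (one_le_pow₀ hx : 1 ≤ x ^ N) (by norm_num : (1 : ℝ) < 2)
  refine ⟨i + 1, by omega, h2.le, ?_⟩
  have h3 := Real.log_le_log (by positivity) h1
  rw [Real.log_pow, Real.log_pow] at h3
  have h4 := Real.log_two_gt_d9
  have h5 : Real.log x ≤ x := (Real.log_le_sub_one_of_pos (by linarith)).trans (by linarith)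
  have h6 : (N : ℝ) * Real.log x ≤ N * x := by gcongr
  have h7 : (1 : ℝ) ≤ N := by exact_mod_cast hN
  have h8 : (1 : ℝ) ≤ N * x := one_le_mul_of_one_le_of_one_le h7 hx
  have h9 : (0 : ℝ) ≤ i := Nat.cast_nonneg i
  push_cast
  nlinarith

theorem core3 {m : ℕ} (hm1 : 1 ≤ m) : ∃ K : ℕ, ∀ Ω : Set (E 3),
    MeasurableSet Ω → Bornology.IsBounded Ω → ∀ (L : Submodule ℂ (E 3 → ℂ)) (k : ℕ),
    Module.finrank ℂ L = k → K ≤ k → (∀ u ∈ L, Test u) → (∀ u ∈ L, tsupport u ⊆ Ω) →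
    (∀ u ∈ L, energy Ω u ≤ 4 * π ^ 2 * mass Ω u) → NeuOK Ω (k + m) := by
  have hm' : (1 : ℝ) ≤ m := by exact_mod_cast hm1
  have hom := om_pos (n := 3)
  obtain ⟨C1, κ, b, hC0, hκ, hb0, hpre⟩ := core_pre (n := 3) (by omega)
  obtain ⟨θ, hθ⟩ : ∃ θ : ℝ, θ = 1 / (20 * m) := ⟨_, rfl⟩
  have hθ0 : 0 < θ := by rw [hθ]; positivity
  have hθ1 : θ ≤ 1 / 20 := by rw [hθ]; gcongr; linarith
  obtain ⟨c, CG, hc, hc1, hCG, hG⟩ : ∃ c CG : ℝ, 0 < c ∧ c ≤ 1 / 2 ∧ 0 < CG ∧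
      GlobalEst (θ / 2) CG c := by
    obtain ⟨CL, h1, h2⟩ := local_est (δ := θ / 2) (by positivity)
    obtain ⟨CG, h3, h4⟩ := global_of_local (by positivity) h1 (by norm_num) (by norm_num) h2
    exact ⟨_, CG, by norm_num, by norm_num, h3, h4⟩
  obtain ⟨J, hJ⟩ := exists_nat_ge (2 / c)
  have hJc : 2 ≤ J * c := by rwa [div_le_iff₀ hc] at hJ
  have hJ1' : (1 : ℝ) ≤ J := by
    have := mul_le_mul_of_nonneg_left hc1 (Nat.cast_nonneg J : (0 : ℝ) ≤ J)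
    linarith only [this, hJc]
  have hJ1 : 1 ≤ J := by exact_mod_cast hJ1'
  obtain ⟨r, hr⟩ : ∃ r : ℝ, r = θ / (160 * J) := ⟨_, rfl⟩
  have hr0 : 0 < r := by rw [hr]; positivity
  have hrJ : r * J = θ / 160 := by rw [hr]; field_simp
  have hr1 : r ≤ θ / 160 := by
    have := mul_le_mul_of_nonneg_left hJ1' hr0.le
    linarith only [this, hrJ]
  obtain ⟨Cc, hCc, hcell⟩ := exists_cells hr0
  have hH := fun j : ℕ => exists_h (s := 2 / 5 + 5 * r * j + 4 * r) (s' := 2 / 5 + 5 * r * (j + 1 : ℕ))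
    (by positivity) (by push_cast; linarith)
  choose CH hCH1 hCH using hH
  obtain ⟨CS, hCS⟩ : ∃ CS : ℝ, CS = ∑ j ∈ Finset.range J, CH j := ⟨_, rfl⟩
  have hCS1 : ∀ j < J, CH j ≤ CS := fun j hj => by
    rw [hCS]
    exact Finset.single_le_sum (f := CH) (fun i _ => zero_le_one.trans (hCH1 i))
      (Finset.mem_range.mpr hj)
  obtain ⟨Cm, hCm⟩ : ∃ Cm : ℝ, Cm = 1600 * (m : ℝ) ^ 4 / θ ^ 2 := ⟨_, rfl⟩
  have hCm0 : 0 < Cm := by rw [hCm]; positivity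
  obtain ⟨c0, hc0⟩ : ∃ c0 : ℝ, c0 = κ / 2 / (Cm / b + 4 / θ ^ 4) := ⟨_, rfl⟩
  have hc00 : 0 < c0 := by rw [hc0]; positivity
  obtain ⟨C0, hC0'⟩ : ∃ C0 : ℝ, C0 = 1 + 1 / c0 := ⟨_, rfl⟩
  have q0 : 0 < 1 / c0 := by positivity
  obtain ⟨C4, hC4⟩ : ∃ C4 : ℝ, C4 = 1 + Cm + C0 := ⟨_, rfl⟩
  have hC41 : 1 ≤ C4 := by linarith
  obtain ⟨C8, hC8⟩ : ∃ C8 : ℝ,
    C8 = Cc * (448 * m * CG * CS ^ 2 * (18 * J) ^ 2 * (2 * C4)) / c0 ^ c := ⟨_, rfl⟩
  have hC80 : 0 ≤ C8 := by rw [hC8]; positivity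
  obtain ⟨X, hX⟩ : ∃ X : ℝ, X = 1 + b / θ + C8 + (b ^ 7 * om 3 + 1) / c0 := ⟨_, rfl⟩
  have p1 : 0 < b / θ := by positivity
  have p2 : 0 < (b ^ 7 * om 3 + 1) / c0 := by positivity
  obtain ⟨K, hK⟩ := exists_nat_ge (C1 * X ^ (6 * J))
  refine ⟨max K m, fun Ω hm hb L k hk hKk hL hΩ hR => ?_⟩
  have hmk : m ≤ k := le_trans (le_max_right _ _) hKk
  have hKk' : (K : ℝ) ≤ k := by exact_mod_cast le_trans (le_max_left _ _) hKk
  have : FiniteDimensional ℂ L := Module.finite_of_finrank_pos (by omega)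
  have hf : volume Ω ≠ ⊤ := hb.measure_lt_top.ne
  obtain ⟨hkV, hcase⟩ := hpre Ω hm hb L k hk (by omega) hL hΩ hR
  set V := volume.real Ω with hVd
  have hXV : X ^ (6 * J) ≤ V := le_of_mul_le_mul_left (by linarith) hC0
  have hV : 0 < V := lt_of_lt_of_le (by have : 0 < X := by linarith
                                        positivity) hXV
  rcases hcase with hcase | hcase
  · refine caseA hm hb hV (by omega) ?_
    have h1 : (m : ℝ) ≤ k := by exact_mod_cast hmk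
    push_cast at hcase ⊢; nlinarith
  obtain ⟨x, hx0, hxV⟩ : ∃ x : ℝ, 0 < x ∧ x ^ (6 * J) = V :=
    ⟨V ^ (((6 * J : ℕ) : ℝ)⁻¹), by positivity, Real.rpow_inv_natCast_pow hV.le (by omega)⟩
  have hXx : X ≤ x := by
    rw [← hxV] at hXV
    exact le_of_pow_le_pow_left₀ (by omega) hx0.le hXV
  have hx1 : 1 ≤ x := by linarith
  obtain ⟨t, ht⟩ : ∃ t : ℝ, t = x ^ (2 * J) := ⟨_, rfl⟩
  have hxt : x ≤ t := by rw [ht]; exact le_self_pow₀ hx1 (by omega)
  have ht1 : 1 ≤ t := hx1.trans hxt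
  have ht0 : 0 < t := by linarith
  have htV : t ^ 3 = V := by rw [ht, ← pow_mul, ← hxV]; congr 1; ring
  have hV1 : 1 ≤ V := by rw [← htV]; exact one_le_pow₀ ht1
  have hmid := hcase t ht0 htV
  have hβ : 0 < b / t := by positivity
  have hβθ : b / t ≤ θ := by
    rw [div_le_iff₀ ht0]
    have : b / θ ≤ t := by linarith
    rw [div_le_iff₀ hθ0] at this
    linarith
  rw [← hk]
  rcases caseP hm hb L hL hΩ hR hm1 hθ hβ hβθ with hP | ⟨hP1, hP2⟩
  · exact hP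
  rw [← hCm] at hP1 hP2
  have hc' := continuous_ft (integrable_chi hm hf)
  have hkc := continuous_kk hm hf
  set B : ℕ → ℝ := fun j =>
    ∫ ζ in closedBall (0 : E 3) (2 / 5 + 5 * r * j) \ ball 0 θ, ‖kk Ω ζ‖ ^ 2 with hB
  have hB0 : B 0 = ∫ ζ in mid 3 θ, ‖kk Ω ζ‖ ^ 2 := by simp [hB, mid]
  rw [← hB0] at hP1 hP2
  have hBn : 0 ≤ B 0 := integral_nonneg fun ζ => by positivity
  have hBm : ∀ j, B 0 ≤ B j := fun j => by
    refine setIntegral_mono_set (integrableOn_of_cont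
      (isBounded_closedBall.subset Set.sdiff_subset) (by fun_prop))
      (Eventually.of_forall fun ζ => by positivity) (LE.le.eventuallyLE ?_)
    refine Set.sdiff_subset_sdiff_left (closedBall_subset_closedBall ?_)
    have : 0 ≤ 5 * r * j := by positivity
    simp only [Nat.cast_zero, mul_zero, add_zero]; linarith
  have h1 : c0 * t ^ 2 ≤ B 0 := by
    have a1 := setInt_le_add (f := fun ζ => ‖ft (chi Ω) ζ‖ ^ 2) (by fun_prop)
      (fun ζ => by positivity) (A := mid 3 (b / t))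
      (isBounded_closedBall.subset Set.sdiff_subset :
        Bornology.IsBounded (closedBall (0 : E 3) θ \ ball 0 (b / t))) (isBounded_mid θ)
      (fun ζ hζ => by
        by_cases h : ζ ∈ ball (0 : E 3) θ
        · exact Or.inl ⟨ball_subset_closedBall h, hζ.2⟩
        · exact Or.inr ⟨hζ.1, h⟩)
    have a2 := kk_mid hm hf hθ0
    rw [← hB0] at a2
    have a3 : 4 / θ ^ 4 * B 0 ≤ t * (4 / θ ^ 4 * B 0) := le_mul_of_one_le_left (by positivity) ht1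
    have a4 : Cm / (b / t) * B 0 = t * (Cm / b * B 0) := by field_simp
    have a5 : t * (κ / 2 * t ^ 2) ≤ t * ((Cm / b + 4 / θ ^ 4) * B 0) := by
      rw [← htV] at hmid
      linarith only [hmid, a1, a2, a3, a4, hP1, hP2]
    have a6 := le_of_mul_le_mul_left a5 ht0
    rw [hc0, div_mul_eq_mul_div, div_le_iff₀ (by positivity)]
    linarith
  have hsJ : ∀ j ≤ J, 5 * r * (j : ℝ) ≤ 1 / 100 := fun j hj => by
    have a1 : (j : ℝ) ≤ J := by exact_mod_cast hj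
    have a2 := mul_le_mul_of_nonneg_left a1 hr0.le
    linarith only [a2, hrJ, hθ1]
  have h2 : B J ≤ (C0 * x ^ 2) ^ J * B 0 := by
    have a1 : B J ≤ V := kk_top hm hf (measurableSet_closedBall.diff measurableSet_ball)
      fun ξ hξ => by have := mem_closedBall_zero_iff.mp hξ.1; linarith [hsJ J le_rfl]
    have a2 : C0 ≤ C0 ^ J := le_self_pow₀ (by linarith) (by omega)
    have a3 : 1 ≤ C0 * c0 := by rw [hC0']; field_simp; linarith
    calc B J ≤ 1 * t ^ 3 := by rw [htV, one_mul]; exact a1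
      _ ≤ (C0 * c0) * t ^ 3 := by gcongr
      _ = C0 * t * (c0 * t ^ 2) := by ring
      _ ≤ C0 ^ J * t * B 0 := by
          have : 0 ≤ C0 ^ J := by have : 0 ≤ C0 := by linarith
                                  positivity
          gcongr
      _ = _ := by rw [mul_pow, ← pow_mul, ← ht]
  obtain ⟨j, hj, hBj⟩ := pigeon (by have : 0 < C0 := by linarith
                                    positivity) hJ1 h2
  have hj5 := hsJ j hj.le
  have hj0 : 0 ≤ 5 * r * (j : ℝ) := by positivity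
  have hBl : c0 * t ^ 2 ≤ B j := h1.trans (hBm j)
  have hBb : b ^ 7 * om 3 + 1 ≤ B j := by
    have a1 : (b ^ 7 * om 3 + 1) / c0 ≤ t ^ 2 := by
      linarith only [le_self_pow₀ ht1 two_ne_zero, hxt, hXx, hX, p1, hC80]
    rw [div_le_iff₀ hc00] at a1
    linarith
  have hb7 : 0 < b ^ 7 * om 3 := by positivity
  have hBp : 0 < B j := by linarith
  obtain ⟨e1, e2, S1, S2, n1, n2, m1, m2, hd, s1, s2, d1, d2, hcs⟩ :=
    hcell (fun ζ => ‖kk Ω ζ‖ ^ 2) (by fun_prop) (fun ζ => by positivity) θ (2 / 5 + 5 * r * j)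
      (by linarith) (by linarith) (by linarith) hBp
  obtain ⟨h, hhm, hi, hh1, hh2, hh3, hh4⟩ := hCH j Ω hm hb
  obtain ⟨I, hI1, hI2, hI3⟩ := exists_level hx1 (6 * J) (by omega)
  have hx2 : 1 ≤ x ^ 2 := one_le_pow₀ hx1
  have hW : ∫ y, ‖h y‖ ^ 2 ≤ C4 * x ^ 2 * B j := by
    have a1 := setInt_le_add (f := fun ζ => ‖kk Ω ζ‖ ^ 2) (by fun_prop) (fun ζ => by positivity)
      (A := closedBall (0 : E 3) (2 / 5 + 5 * r * (j + 1 : ℕ))) (A1 := closedBall (0 : E 3) θ)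
      (A2 := closedBall (0 : E 3) (2 / 5 + 5 * r * (j + 1 : ℕ)) \ ball 0 θ)
      isBounded_closedBall (isBounded_closedBall.subset Set.sdiff_subset)
      (fun ζ hζ => by
        by_cases h : ζ ∈ ball (0 : E 3) θ
        · exact Or.inl (ball_subset_closedBall h)
        · exact Or.inr ⟨hζ, h⟩)
    have a2 := setInt_le_add (f := fun ζ => ‖kk Ω ζ‖ ^ 2) (by fun_prop) (fun ζ => by positivity)
      (A := closedBall (0 : E 3) θ) (A1 := ball (0 : E 3) (b / t))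
      (A2 := closedBall (0 : E 3) θ \ ball 0 (b / t))
      isBounded_ball (isBounded_closedBall.subset Set.sdiff_subset)
      (fun ζ hζ => by
        by_cases h : ζ ∈ ball (0 : E 3) (b / t)
        · exact Or.inl h
        · exact Or.inr ⟨hζ, h⟩)
    have a3 := kk_ball hm hβ
    have a4 : (b / t) ^ 7 * om 3 * V ^ 2 ≤ b ^ 7 * om 3 := by
      rw [← htV, show (b / t) ^ 7 * om 3 * (t ^ 3) ^ 2 = b ^ 7 * om 3 / t by field_simp]
      exact div_le_self hb7.le ht1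
    have a5 : Cm * B 0 ≤ Cm * B j := by gcongr; exact hBm j
    have a6 : (1 + Cm) * B j ≤ x ^ 2 * ((1 + Cm) * B j) :=
      le_mul_of_one_le_left (by positivity) hx2
    have a7 : B (j + 1) = ∫ ζ in closedBall (0 : E 3) (2 / 5 + 5 * r * (j + 1 : ℕ)) \ ball 0 θ,
      ‖kk Ω ζ‖ ^ 2 := rfl
    rw [← hVd] at a3
    rw [hC4]
    linarith only [a1, a2, a3, a4, a5, a6, a7, hh3, hBj, hBb, hP1, hP2]
  have hW1 : 1 ≤ C4 * x ^ 2 * B j :=
    one_le_mul_of_one_le_of_one_le (one_le_mul_of_one_le_of_one_le hC41 hx2) (by linarith)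
  have near : ∀ ξ ∈ S1 ∪ S2, ∀ η ∈ S1 ∪ S2, ‖ξ - η‖ ≤ 2 / 5 + 5 * r * j + 4 * r := by
    have tri : ∀ ξ η u v : E 3, ‖ξ - u‖ ≤ r → ‖η - v‖ ≤ r → ‖ξ - η‖ ≤ ‖u - v‖ + 2 * r :=
      fun ξ η u v a1 a2 => by
        have e : ξ - η = (ξ - u) + (u - v) - (η - v) := by abel
        rw [e]
        linarith [norm_sub_le (ξ - u + (u - v)) (η - v), norm_add_le (ξ - u) (u - v)]
    rintro ξ (hξ | hξ) η (hη | hη)
    · have := tri ξ η e1 e1 (s1 ξ hξ) (s1 η hη); rw [sub_self, norm_zero] at this; linarith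
    · linarith [tri ξ η e1 e2 (s1 ξ hξ) (s2 η hη)]
    · have := tri ξ η e2 e1 (s2 ξ hξ) (s1 η hη); rw [norm_sub_rev e2] at this; linarith
    · have := tri ξ η e2 e2 (s2 ξ hξ) (s2 η hη); rw [sub_self, norm_zero] at this; linarith
  refine neu_of_h hm hb L hL hΩ hR hCG hc hc1 hG (e1 := e1) (e2 := e2)
    ⟨by positivity, n1, n2, by linarith, by linarith⟩ m1 m2 hd
    (fun ξ hξ => by linarith [s1 ξ hξ]) (fun ξ hξ => by linarith [s2 ξ hξ]) hhm hi (hCH1 j) hh1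
    hW1 hV1 hW hh2 hI1 (by rw [← hxV]; exact hI2) (fun ξ hξ η hη => hh4 _ (near ξ hξ η hη)) hm1 ?_
  refine le_of_mul_le_mul_left (le_trans ?_ hcs) hCc
  change _ ≤ B j
  have hBc : 0 < B j ^ c := Real.rpow_pos_of_pos hBp c
  have a1 : (2 * (C4 * x ^ 2 * B j)) ^ (1 - c) ≤ 2 * C4 * x ^ 2 * (B j / B j ^ c) := by
    have a0 : 1 ≤ 2 * C4 * x ^ 2 := one_le_mul_of_one_le_of_one_le (by linarith) hx2
    rw [show 2 * (C4 * x ^ 2 * B j) = 2 * C4 * x ^ 2 * B j by ring,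
      Real.mul_rpow (by positivity) hBp.le, Real.rpow_sub hBp, Real.rpow_one]
    refine mul_le_mul_of_nonneg_right ?_ (by positivity)
    exact (Real.rpow_le_rpow_of_exponent_le a0 (by linarith)).trans (le_of_eq (Real.rpow_one _))
  have a2 : c0 ^ c * x ^ 5 ≤ B j ^ c := by
    refine le_trans ?_ (Real.rpow_le_rpow (by positivity) hBl hc.le)
    rw [Real.mul_rpow hc00.le (by positivity)]
    refine mul_le_mul_of_nonneg_left ?_ (by positivity)
    rw [ht, ← pow_mul, ← Real.rpow_natCast x (2 * J * 2), ← Real.rpow_mul hx0.le,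
      ← Real.rpow_natCast x 5]
    refine Real.rpow_le_rpow_of_exponent_le hx1 ?_
    push_cast; linarith only [hJc]
  have a3 : (I : ℝ) ≤ 18 * J * x := by push_cast at hI3; linarith
  have a4 : C8 * c0 ^ c = Cc * (448 * m * CG * CS ^ 2 * (18 * J) ^ 2 * (2 * C4)) := by
    rw [hC8]; field_simp
  have a5 := hCS1 j hj
  have a6 := hCH1 j
  have a7 : 0 ≤ B j / B j ^ c := by positivity
  calc Cc * (448 * m * CG * CH j ^ 2 * I ^ 2 * (2 * (C4 * x ^ 2 * B j)) ^ (1 - c))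
      ≤ Cc * (448 * m * CG * CS ^ 2 * (18 * J * x) ^ 2 * (2 * C4 * x ^ 2 * (B j / B j ^ c))) := by
        gcongr
    _ = C8 * c0 ^ c * x ^ 4 * (B j / B j ^ c) := by rw [a4]; ring
    _ ≤ x * c0 ^ c * x ^ 4 * (B j / B j ^ c) := by gcongr; linarith
    _ = c0 ^ c * x ^ 5 * (B j / B j ^ c) := by ring
    _ ≤ B j ^ c * (B j / B j ^ c) := by gcongr
    _ = B j := by field_simp

theorem main3 (m : ℕ) : ∃ K : ℕ, ∀ Ω : Set (E 3), IsOpen Ω →
    Bornology.IsBounded Ω → ∀ k : ℕ, K ≤ k → neumannEig Ω (k + m) ≤ dirichletEig Ω k := by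
  rcases Nat.eq_zero_or_pos m with rfl | hm
  · refine ⟨1, fun Ω ho hb k hk => main_of_core (fun Ω' hm' hb' L hL h1 h2 h3 => ?_) ho hb⟩
    have : FiniteDimensional ℂ L := Module.finite_of_finrank_pos (by omega)
    rw [← hL]
    exact filonov hm' hb' L h1 h2 h3 (fun _ : Fin 0 => 0) (fun _ => 0) (Or.inr fun f => f.elim0)
      (0 : (Fin 0 → ℂ) →ₗ[ℂ] (Fin 0 → ℂ)) fun a ha => absurd (Subsingleton.elim a 0) ha
  obtain ⟨K, h⟩ := core3 hm
  exact ⟨K, fun Ω ho hb k hk => main_of_core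
    (fun Ω' hm' hb' L hL h1 h2 h3 => h Ω' hm' hb' L k hL hk h1 h2 h3) ho hb⟩

end Pool.Agent.P.MP_f791b6_an
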