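import Pool.Agent.P.MP_f791b6_an.N3Conv

namespace Pool.Agent.P.MP_f791b6_an

open MeasureTheory Complex Metric
open scoped ComplexConjugate Real RealInnerProductSpace ENNReal

lemma husimi_pow {ρ : ℝ} (hρ : 0 < ρ) : (π / (π * ρ ^ 2)) ^ (((3 : ℕ) : ℝ) / 2) = (ρ ^ 3)⁻¹ := by
  rw [show π / (π * ρ ^ 2) = ρ⁻¹ ^ 2 by field_simp, ← Real.rpow_natCast ρ⁻¹ 2,
    ← Real.rpow_mul (inv_pos.2 hρ).le, ← inv_pow, ← Real.rpow_natCast]
  norm_num

/-- The Gaussian average of the squared amplitude. -/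
noncomputable def husimiB (f : E 3 → ℂ) (ρ : ℝ) (ζ : E 3) : ℝ :=
  ∫ ξ, ‖f ξ‖ ^ 2 * Real.exp (-(π * ρ ^ 2) * ‖ξ - ζ‖ ^ 2) ∂sig

lemma husimi_B {f : E 3 → ℂ} (hf : Amp f) {ρ : ℝ} (hρ : 0 < ρ) :
    Integrable (husimiB f ρ) ∧ (∀ ζ, 0 ≤ husimiB f ρ ζ) ∧
      ∫ ζ, husimiB f ρ ζ = (ρ ^ 3)⁻¹ * nsq f := by
  have hb : 0 < π * ρ ^ 2 := by positivity
  have i1 : Integrable (Function.uncurry fun (ζ ξ : E 3) =>
      ‖f ξ‖ ^ 2 * Real.exp (-(π * ρ ^ 2) * ‖ξ - ζ‖ ^ 2)) (volume.prod sig) := by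
    refine (hf.integrable_sq.convolution_integrand (ContinuousLinearMap.mul ℝ ℝ)
      (integrable_gauss (n := 3) hb)).congr (Filter.Eventually.of_forall fun p => ?_)
    simp only [ContinuousLinearMap.mul_apply', Function.uncurry, norm_sub_rev p.1 p.2]
  refine ⟨i1.integral_prod_left, fun ζ => integral_nonneg fun ξ => by positivity, ?_⟩
  unfold husimiB
  rw [integral_integral_swap i1, nsq, ← integral_const_mul]
  refine integral_congr_ae (Filter.Eventually.of_forall fun ξ => ?_)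
  simp only
  rw [integral_const_mul, integral_sub_left_eq_self
    (fun η : E 3 => Real.exp (-(π * ρ ^ 2) * ‖η‖ ^ 2)) volume ξ, integral_gauss hb, husimi_pow hρ,
    mul_comm]

lemma husimi_sq_le {f : E 3 → ℂ} (hf : Amp f) (ρ : ℝ) (x0 ζ : E 3) {M : ℝ}
    (hM : ∀ᵐ ξ ∂sig, f ξ ≠ 0 → Real.exp (-(π * ρ ^ 2) * ‖ξ - ζ‖ ^ 2) ≤ M) :
    ‖HF f ρ x0 ζ‖ ^ 2 ≤ ρ ^ 6 * M * husimiB f ρ ζ := by
  have hb : 0 ≤ π * ρ ^ 2 := by positivity
  have ha := hf.mul (amp_gauss hb ζ)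
  rw [norm_HF_sq, mul_assoc]
  refine mul_le_mul_of_nonneg_left ?_ (by positivity)
  have h1 := pow_le_pow_left₀ (norm_nonneg _) (ha.norm_Ex_le x0) 2
  rw [Real.sq_sqrt (nsq_nonneg _)] at h1
  refine h1.trans ?_
  rw [nsq, husimiB, ← integral_const_mul]
  have i2 : Integrable (fun ξ => ‖f ξ‖ ^ 2 * Real.exp (-(π * ρ ^ 2) * ‖ξ - ζ‖ ^ 2)) sig := by
    refine hf.integrable_sq.mul_bdd (c := 1) (by fun_prop) (Filter.Eventually.of_forall fun ξ => ?_)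
    rw [Real.norm_eq_abs, abs_of_pos (Real.exp_pos _), Real.exp_le_one_iff]
    have : 0 ≤ π * ρ ^ 2 * ‖ξ - ζ‖ ^ 2 := by positivity
    linarith
  refine integral_mono_ae ha.integrable_sq (i2.const_mul M) (hM.mono fun ξ hξ => ?_)
  simp only
  rw [norm_mul, Complex.norm_real, Real.norm_eq_abs, abs_of_pos (Real.exp_pos _), mul_pow]
  by_cases h0 : f ξ = 0
  · simp [h0]
  · have h2 := hξ h0
    have h3 := Real.exp_pos (-(π * ρ ^ 2) * ‖ξ - ζ‖ ^ 2)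
    have h4 : 0 ≤ ‖f ξ‖ ^ 2 * Real.exp (-(π * ρ ^ 2) * ‖ξ - ζ‖ ^ 2) := by positivity
    nlinarith [mul_le_mul_of_nonneg_left h2 h4]

lemma husimi_int {f : E 3 → ℂ} (hf : Amp f) {ρ : ℝ} (hρ : 0 < ρ) (x0 : E 3) :
    Integrable (Function.uncurry fun (ζ ξ : E 3) =>
      f ξ * ((Real.exp (-(π * ρ ^ 2) * ‖ξ - ζ‖ ^ 2) : ℝ) : ℂ) * ew ξ x0) (volume.prod sig) := by
  have hb : 0 < π * ρ ^ 2 := by positivity
  refine ((hf.mul (amp_ew x0)).integrable.convolution_integrand (ContinuousLinearMap.mul ℝ ℂ)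
    (integrable_gauss (n := 3) hb).ofReal).congr (Filter.Eventually.of_forall fun p => ?_)
  simp only [ContinuousLinearMap.mul_apply', Function.uncurry, norm_sub_rev p.1 p.2]
  exact mul_right_comm _ _ _

lemma husimi_inner {ρ : ℝ} (hρ : 0 < ρ) (ξ y : E 3) :
    ∫ ζ : E 3, ((Real.exp (-(π * ρ ^ 2) * ‖ξ - ζ‖ ^ 2) : ℝ) : ℂ) * ew ζ y =
      ew ξ y * (((ρ ^ 3)⁻¹ * gw ρ y : ℝ) : ℂ) := by
  have hb : 0 < π * ρ ^ 2 := by positivity
  have h1 := integral_gauss_ew (n := 3) (b := ((π * ρ ^ 2 : ℝ) : ℂ)) (by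
    rw [Complex.ofReal_re]; exact hb) y
  rw [Gc_ofReal hb, Gr, husimi_pow hρ,
    show π ^ 2 / (π * ρ ^ 2) = π / ρ ^ 2 by field_simp] at h1
  rw [gw, ← h1, ← integral_const_mul, ← integral_sub_left_eq_self _ volume ξ]
  refine integral_congr_ae (Filter.Eventually.of_forall fun η => ?_)
  simp only
  rw [sub_sub_cancel, conj_ew, sub_eq_add_neg, ew_add]
  push_cast
  ring

theorem Amp.HF_facts {f : E 3 → ℂ} (hf : Amp f) {ρ : ℝ} (hρ : 0 < ρ) (x0 : E 3) :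
    Amp (HF f ρ x0) ∧ Integrable (HF f ρ x0) ∧ Integrable (fun ζ => ‖HF f ρ x0 ζ‖ ^ 2) ∧
      ∫ ζ, ‖HF f ρ x0 ζ‖ ^ 2 ≤ ρ ^ 3 * nsq f ∧
      ∀ x, ift (HF f ρ x0) x = ((gw ρ (x - x0) : ℝ) : ℂ) * Ex f x := by
  have hb : 0 ≤ π * ρ ^ 2 := by positivity
  have i1 := husimi_int hf hρ x0
  obtain ⟨b1, b2, b3⟩ := husimi_B hf hρ
  have hI : Integrable (HF f ρ x0) := by
    unfold HF Ex
    exact i1.integral_prod_left.bdd_mul (c := ‖((ρ ^ 3 : ℝ) : ℂ)‖) (by fun_prop)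
      (Filter.Eventually.of_forall fun ζ => by rw [norm_mul, Complex.norm_conj, norm_ew, mul_one])
  have hm : Measurable (HF f ρ x0) := by
    have h : Measurable (Function.uncurry fun (ζ ξ : E 3) =>
        f ξ * ((Real.exp (-(π * ρ ^ 2) * ‖ξ - ζ‖ ^ 2) : ℝ) : ℂ) * ew ξ x0) :=
      ((hf.meas.comp measurable_snd).mul (by fun_prop : Continuous fun p : E 3 × E 3 =>
        ((Real.exp (-(π * ρ ^ 2) * ‖p.2 - p.1‖ ^ 2) : ℝ) : ℂ)).measurable).mul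
        (by fun_prop : Continuous fun p : E 3 × E 3 => ew p.2 x0).measurable
    unfold HF Ex
    exact (by fun_prop : Continuous fun ζ : E 3 =>
      ((ρ ^ 3 : ℝ) : ℂ) * conj (ew ζ x0)).measurable.mul
      (h.stronglyMeasurable.integral_prod_right (ν := sig)).measurable
  have he : ∀ ξ ζ : E 3, Real.exp (-(π * ρ ^ 2) * ‖ξ - ζ‖ ^ 2) ≤ 1 := fun ξ ζ => by
    rw [Real.exp_le_one_iff]
    have : 0 ≤ π * ρ ^ 2 * ‖ξ - ζ‖ ^ 2 := by positivity
    linarith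
  have hle : ∀ ζ, ‖HF f ρ x0 ζ‖ ^ 2 ≤ ρ ^ 6 * 1 * husimiB f ρ ζ := fun ζ =>
    husimi_sq_le hf ρ x0 ζ (Filter.Eventually.of_forall fun ξ _ => he ξ ζ)
  have hI2 : Integrable (fun ζ => ‖HF f ρ x0 ζ‖ ^ 2) :=
    (b1.const_mul (ρ ^ 6 * 1)).mono' (hm.norm.pow_const 2).aestronglyMeasurable
      (Filter.Eventually.of_forall fun ζ => by
        rw [Real.norm_eq_abs, abs_of_nonneg (by positivity)]; exact hle ζ)
  refine ⟨⟨hm, ρ ^ 3 * ∫ ξ, ‖f ξ‖ ∂sig, fun ζ => ?_⟩, hI, hI2, ?_, fun x => ?_⟩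
  · rw [HF, norm_mul, norm_mul, Complex.norm_conj, norm_ew, mul_one, Complex.norm_real,
      Real.norm_eq_abs, abs_of_pos (by positivity)]
    refine mul_le_mul_of_nonneg_left (norm_integral_le_of_norm_le hf.integrable.norm
      (Filter.Eventually.of_forall fun ξ => ?_)) (by positivity)
    rw [norm_mul, norm_mul, norm_ew, mul_one, Complex.norm_real, Real.norm_eq_abs,
      abs_of_pos (Real.exp_pos _)]
    exact mul_le_of_le_one_right (norm_nonneg _) (he ξ ζ)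
  · refine (integral_mono hI2 (b1.const_mul _) hle).trans (le_of_eq ?_)
    rw [integral_const_mul, b3]
    field_simp
  · have i2 : Integrable (Function.uncurry fun (ζ ξ : E 3) => ew ζ (x - x0) *
        (f ξ * ((Real.exp (-(π * ρ ^ 2) * ‖ξ - ζ‖ ^ 2) : ℝ) : ℂ) * ew ξ x0)) (volume.prod sig) :=
      i1.bdd_mul (c := 1) (f := fun p : E 3 × E 3 => ew p.1 (x - x0)) (by fun_prop)
        (Filter.Eventually.of_forall fun p => by simp)
    calc ift (HF f ρ x0) x = ((ρ ^ 3 : ℝ) : ℂ) * ∫ ζ, ∫ ξ, ew ζ (x - x0) *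
          (f ξ * ((Real.exp (-(π * ρ ^ 2) * ‖ξ - ζ‖ ^ 2) : ℝ) : ℂ) * ew ξ x0) ∂sig := by
          rw [ift, ← integral_const_mul]
          refine integral_congr_ae (Filter.Eventually.of_forall fun ζ => ?_)
          simp only
          rw [integral_const_mul, HF, Ex, ew_comm ζ (x - x0), sub_eq_add_neg x, ew_add, ← conj_ew,
            ew_comm x, ew_comm x0]
          ring
      _ = ((ρ ^ 3 : ℝ) : ℂ) * ∫ ξ, (((ρ ^ 3)⁻¹ * gw ρ (x - x0) : ℝ) : ℂ) * (f ξ * ew ξ x) ∂sig := by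
          rw [integral_integral_swap i2]
          congr 1
          refine integral_congr_ae (Filter.Eventually.of_forall fun ξ => ?_)
          have e1 : ew ξ x = ew ξ x0 * ew ξ (x - x0) := by
            rw [ew_comm ξ x0, ew_comm ξ (x - x0), ← ew_add, add_sub_cancel, ew_comm]
          have e2 : ∀ ζ : E 3, ew ζ (x - x0) *
              (f ξ * ((Real.exp (-(π * ρ ^ 2) * ‖ξ - ζ‖ ^ 2) : ℝ) : ℂ) * ew ξ x0) =
              f ξ * ew ξ x0 * (((Real.exp (-(π * ρ ^ 2) * ‖ξ - ζ‖ ^ 2) : ℝ) : ℂ) *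
                ew ζ (x - x0)) := fun ζ => by ring
          simp only [e2]
          rw [integral_const_mul, husimi_inner hρ, e1]
          ring
      _ = _ := by
          rw [integral_const_mul, ← mul_assoc, ← Complex.ofReal_mul, ← mul_assoc,
            mul_inv_cancel₀ (by positivity), one_mul, Ex]

theorem Amp.HF_tail {f : E 3 → ℂ} (hf : Amp f) {ρ : ℝ} (hρ : 0 < ρ) (x0 : E 3) {e : E 3}
    {r ε : ℝ} (hε : 0 < ε) (hεr : ε ≤ r) (hs : ∀ ξ, r < ‖ξ - e‖ → f ξ = 0) :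
    ∫ ζ in (Nb e ε (2 * r))ᶜ, ‖HF f ρ x0 ζ‖ ^ 2 ≤
      Real.exp (-(π * ρ ^ 2 * ε ^ 2)) * ρ ^ 3 * nsq f := by
  obtain ⟨b1, b2, b3⟩ := husimi_B hf hρ
  have hI := (hf.HF_facts hρ x0).2.2.1
  have i1 := b1.const_mul (ρ ^ 6 * Real.exp (-(π * ρ ^ 2 * ε ^ 2)))
  refine (setIntegral_mono_on hI.integrableOn i1.integrableOn (measurableSet_Nb _ _ _).compl
    fun ζ hζ => husimi_sq_le hf ρ x0 ζ (sig_unit.mono fun ξ hξ h0 => ?_)).trans ?_
  · have h1 : ‖ξ - e‖ ≤ r := not_lt.1 fun h => h0 (hs ξ h)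
    have h2 : ε ≤ ‖ξ - ζ‖ := by
      by_contra h
      refine hζ ⟨?_, ?_⟩
      · have := abs_norm_sub_norm_le ζ ξ
        rw [hξ, norm_sub_rev] at this
        linarith
      · have := norm_sub_le_norm_sub_add_norm_sub ζ ξ e
        rw [norm_sub_rev ζ ξ] at this
        linarith
    refine Real.exp_le_exp.2 ?_
    have h3 := mul_le_mul_of_nonneg_left (pow_le_pow_left₀ hε.le h2 2)
      (by positivity : 0 ≤ π * ρ ^ 2)
    linarith
  · refine (setIntegral_le_integral i1 (Filter.Eventually.of_forall fun ζ =>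
      mul_nonneg (by positivity) (b2 ζ))).trans (le_of_eq ?_)
    rw [integral_const_mul, b3]
    field_simp

lemma husimi_ind {F : E 3 → ℂ} (hF : Integrable fun ζ => ‖F ζ‖ ^ 2) {S : Set (E 3)}
    (hS : MeasurableSet S) : Integrable (fun ζ => ‖S.indicator F ζ‖ ^ 2) ∧
      ∫ ζ, ‖S.indicator F ζ‖ ^ 2 = ∫ ζ in S, ‖F ζ‖ ^ 2 := by
  have e : (fun ζ => ‖S.indicator F ζ‖ ^ 2) = S.indicator fun ζ => ‖F ζ‖ ^ 2 := by
    funext ζ
    by_cases h : ζ ∈ S <;> simp [h]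
  rw [e]
  exact ⟨hF.indicator hS, integral_indicator hS⟩

lemma husimi_sqrt {A B a ρ n1 n2 : ℝ} (hρ : 0 < ρ) (h1 : 0 ≤ n1) (hB0 : 0 ≤ B)
    (hA : A ≤ Real.exp a * ρ ^ 3 * n1) (hB : B ≤ ρ ^ 3 * n2) :
    √(A * B) ≤ Real.exp (a / 2) * ρ ^ 3 * √n1 * √n2 := by
  have h2 : 0 ≤ n2 := nonneg_of_mul_nonneg_right (hB0.trans hB) (by positivity)
  refine Real.sqrt_le_iff.2 ⟨by positivity, ?_⟩
  have e : Real.exp (a / 2) ^ 2 = Real.exp a := by
    rw [sq, ← Real.exp_add, add_halves]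
  rw [mul_pow, mul_pow, mul_pow, Real.sq_sqrt h1, Real.sq_sqrt h2, e]
  refine (mul_le_mul hA hB hB0 (by positivity)).trans (le_of_eq ?_)
  ring

/-- Reduction of the local integral to the main parts of the Fourier transforms. -/
theorem local_main {f1 f2 : E 3 → ℂ} (h1 : Amp f1) (h2 : Amp f2) {H : E 3 → ℝ} (hH : Wt H)
    {ρ : ℝ} (hρ : 0 < ρ) (x0 : E 3) {e1 e2 : E 3} {r ε : ℝ} (hε : 0 < ε) (hεr : ε ≤ r)
    (s1 : ∀ ξ, r < ‖ξ - e1‖ → f1 ξ = 0) (s2 : ∀ ξ, r < ‖ξ - e2‖ → f2 ξ = 0) :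
    ∫ x, gw ρ (x - x0) ^ 3 * (H x * ‖Ex f1 x‖ * ‖Ex f2 x‖) ≤
      JJ (fun x => H x * gw ρ (x - x0)) ((Nb e1 ε (2 * r)).indicator (HF f1 ρ x0))
        ((Nb e2 ε (2 * r)).indicator (HF f2 ρ x0)) +
      2 * Real.exp (-(π * ρ ^ 2 * ε ^ 2) / 2) * ρ ^ 3 * √(nsq f1) * √(nsq f2) := by
  obtain ⟨-, a1, a2, a3, a4⟩ := h1.HF_facts hρ x0
  obtain ⟨-, c1, c2, c3, c4⟩ := h2.HF_facts hρ x0
  have t1 := h1.HF_tail hρ x0 hε hεr s1
  have t2 := h2.HF_tail hρ x0 hε hεr s2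
  have hK : Wt (fun x => H x * gw ρ (x - x0)) :=
    ⟨hH.meas.mul (by fun_prop : Continuous fun x => gw ρ (x - x0)).measurable,
      fun x => mul_nonneg (hH.nonneg x) (gw_pos _ _).le,
      fun x => mul_le_one₀ (hH.le_one x) (gw_pos _ _).le (gw_le_one _ _),
      hH.int.mul_bdd (c := 1) (by fun_prop) (Filter.Eventually.of_forall fun x => by
        rw [Real.norm_eq_abs, abs_of_pos (gw_pos _ _)]; exact gw_le_one _ _)⟩
  have m1 := measurableSet_Nb e1 ε (2 * r)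
  have m2 := measurableSet_Nb e2 ε (2 * r)
  have e0 : ∫ x, gw ρ (x - x0) ^ 3 * (H x * ‖Ex f1 x‖ * ‖Ex f2 x‖) =
      JJ (fun x => H x * gw ρ (x - x0)) (HF f1 ρ x0) (HF f2 ρ x0) := by
    refine integral_congr_ae (Filter.Eventually.of_forall fun x => ?_)
    simp only
    rw [a4, c4, norm_mul, norm_mul, Complex.norm_real, Real.norm_eq_abs, abs_of_pos (gw_pos _ _)]
    ring
  rw [e0]
  generalize HF f1 ρ x0 = F1 at *
  generalize HF f2 ρ x0 = F2 at *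
  generalize Nb e1 ε (2 * r) = N1 at *
  generalize Nb e2 ε (2 * r) = N2 at *
  have d1 : (fun ζ => N1.indicator F1 ζ + N1ᶜ.indicator F1 ζ) = F1 :=
    Set.indicator_self_add_compl N1 F1
  have d2 : (fun ζ => N2.indicator F2 ζ + N2ᶜ.indicator F2 ζ) = F2 :=
    Set.indicator_self_add_compl N2 F2
  have j1 := JJ_add_left hK (a1.indicator m1) (a1.indicator m1.compl) c1
  have j2 := JJ_add_left hK (c1.indicator m2) (c1.indicator m2.compl) (a1.indicator m1)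
  rw [d1] at j1
  rw [d2, JJ_comm _ F2, JJ_comm _ (N2.indicator F2)] at j2
  obtain ⟨p1, p2⟩ := husimi_ind a2 m1
  obtain ⟨q1, q2⟩ := husimi_ind a2 m1.compl
  obtain ⟨r1, r2⟩ := husimi_ind c2 m2.compl
  have j3 := (JJ_le hK (a1.indicator m1.compl) q1 c1 c2).trans
    (husimi_sqrt hρ (nsq_nonneg f1) (integral_nonneg fun ζ => by positivity) (q2.trans_le t1) c3)
  have j4 := (JJ_le hK (c1.indicator m2.compl) r1 (a1.indicator m1) p1).trans
    (husimi_sqrt hρ (nsq_nonneg f2) (integral_nonneg fun ζ => by positivity) (r2.trans_le t2)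
      (p2.trans_le ((setIntegral_le_integral a2 (Filter.Eventually.of_forall fun ζ => by
        positivity)).trans a3)))
  linarith

end Pool.Agent.P.MP_f791b6_an
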