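import Pool.Agent.P.MP_f791b6_an.N3KStep

namespace Pool.Agent.P.MP_f791b6_an

open MeasureTheory Complex Metric
open scoped ComplexConjugate Real RealInnerProductSpace ENNReal

/-- First Cramer coordinate. -/
noncomputable def k3_s1 (p1 p2 p3 : E 3) : E 3 →ₗ[ℝ] ℝ where
  toFun x := det3 x p2 p3 / det3 p1 p2 p3
  map_add' x y := by rw [det3_add1, add_div]
  map_smul' t x := by
    simp only [det3, PiLp.smul_apply, smul_eq_mul, RingHom.id_apply]; ring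

/-- Second Cramer coordinate. -/
noncomputable def k3_s2 (p1 p2 p3 : E 3) : E 3 →ₗ[ℝ] ℝ where
  toFun x := det3 p1 x p3 / det3 p1 p2 p3
  map_add' x y := by rw [det3_add2, add_div]
  map_smul' t x := by
    simp only [det3, PiLp.smul_apply, smul_eq_mul, RingHom.id_apply]; ring

/-- Third Cramer coordinate. -/
noncomputable def k3_s3 (p1 p2 p3 : E 3) : E 3 →ₗ[ℝ] ℝ where
  toFun x := det3 p1 p2 x / det3 p1 p2 p3
  map_add' x y := by rw [det3_add3, add_div]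
  map_smul' t x := by
    simp only [det3, PiLp.smul_apply, smul_eq_mul, RingHom.id_apply]; ring

lemma k3_s1_apply (p1 p2 p3 x : E 3) : k3_s1 p1 p2 p3 x = det3 x p2 p3 / det3 p1 p2 p3 := rfl
lemma k3_s2_apply (p1 p2 p3 x : E 3) : k3_s2 p1 p2 p3 x = det3 p1 x p3 / det3 p1 p2 p3 := rfl
lemma k3_s3_apply (p1 p2 p3 x : E 3) : k3_s3 p1 p2 p3 x = det3 p1 p2 x / det3 p1 p2 p3 := rfl

lemma k3_div_le {A D w n : ℝ} (hw : 0 < w) (hd : w ≤ |D|) (hn : 0 ≤ n) (hA : |A| ≤ 9 * n) :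
    |A / D| ≤ 9 * n / w := by
  rw [abs_div]
  exact div_le_div₀ (by positivity) hA hw hd

lemma k3_nine {a b n : ℝ} (ha0 : 0 ≤ a) (_hb0 : 0 ≤ b) (ha : a ≤ 3) (hb : b ≤ 3) (hn : 0 ≤ n) :
    n * a * b ≤ 9 * n := by
  have : a * b ≤ 9 := by nlinarith
  nlinarith

/-- Splitting three coordinates. -/
lemma k3_mp : MeasurePreserving (fun s : Fin 3 → ℝ => ((s 0, s 1, s 2) : ℝ × ℝ × ℝ)) := by
  have h1 := volume_preserving_piFinSuccAbove (fun _ : Fin 3 => ℝ) 0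
  have h2 := volume_preserving_finTwoArrow ℝ
  have h3 := (MeasurePreserving.id (volume : Measure ℝ)).prod h2
  exact h3.comp h1

lemma k3_cov0 {a b c d e f g h i D : ℝ} (hD : D ≠ 0)
    (hdet : a * e * i - a * f * h - b * d * i + b * f * g + c * d * h - c * e * g = D⁻¹)
    {Φ : ℝ × ℝ × ℝ → ℝ≥0∞} (hΦ : Measurable Φ) :
    ∫⁻ x : E 3, Φ (a * x 0 + b * x 1 + c * x 2, d * x 0 + e * x 1 + f * x 2,
      g * x 0 + h * x 1 + i * x 2) = ENNReal.ofReal |D| * ∫⁻ s, Φ s := by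
  let N : Matrix (Fin 3) (Fin 3) ℝ := !![a, b, c; d, e, f; g, h, i]
  have hN : N.det = D⁻¹ := by
    rw [Matrix.det_fin_three]; exact hdet
  have hN0 : N.det ≠ 0 := by rw [hN]; exact inv_ne_zero hD
  have hmap := Real.map_matrix_volume_pi_eq_smul_volume_pi hN0
  rw [hN, inv_inv] at hmap
  have hG : Measurable (fun s : Fin 3 → ℝ => Φ (s 0, s 1, s 2)) := hΦ.comp k3_mp.measurable
  have hL : Measurable (Matrix.toLin' N) :=
    (LinearMap.continuous_of_finiteDimensional _).measurable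
  have e1 : ∫⁻ s : Fin 3 → ℝ, Φ (s 0, s 1, s 2) = ∫⁻ s, Φ s := k3_mp.lintegral_comp hΦ
  have e2 : ∫⁻ x : Fin 3 → ℝ, Φ (Matrix.toLin' N x 0, Matrix.toLin' N x 1, Matrix.toLin' N x 2) =
      ENNReal.ofReal |D| * ∫⁻ s, Φ s := by
    rw [← lintegral_map hG hL, hmap, lintegral_smul_measure, e1, smul_eq_mul]
  have e3 := (PiLp.volume_preserving_ofLp (Fin 3)).lintegral_comp (hG.comp hL)
  rw [← e2]
  refine Eq.trans (lintegral_congr fun x => ?_) e3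
  have a0 : Matrix.toLin' N x.ofLp 0 = a * x 0 + b * x 1 + c * x 2 := by
    rw [Matrix.toLin'_apply, Matrix.mulVec, dotProduct, Fin.sum_univ_three]; rfl
  have a1 : Matrix.toLin' N x.ofLp 1 = d * x 0 + e * x 1 + f * x 2 := by
    rw [Matrix.toLin'_apply, Matrix.mulVec, dotProduct, Fin.sum_univ_three]; rfl
  have a2 : Matrix.toLin' N x.ofLp 2 = g * x 0 + h * x 1 + i * x 2 := by
    rw [Matrix.toLin'_apply, Matrix.mulVec, dotProduct, Fin.sum_univ_three]; rfl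
  simp only [Function.comp_apply, a0, a1, a2]

lemma k3_adj (x0 x1 x2 y0 y1 y2 z0 z1 z2 D : ℝ) (hD : D ≠ 0)
    (e : D = x0 * (y1 * z2 - y2 * z1) - x1 * (y0 * z2 - y2 * z0) + x2 * (y0 * z1 - y1 * z0)) :
    (y1 * z2 - y2 * z1) / D * ((z2 * x0 - z0 * x2) / D) * ((x0 * y1 - x1 * y0) / D) -
      (y1 * z2 - y2 * z1) / D * ((z0 * x1 - z1 * x0) / D) * ((x2 * y0 - x0 * y2) / D) -
      (y2 * z0 - y0 * z2) / D * ((z1 * x2 - z2 * x1) / D) * ((x0 * y1 - x1 * y0) / D) +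
      (y2 * z0 - y0 * z2) / D * ((z0 * x1 - z1 * x0) / D) * ((x1 * y2 - x2 * y1) / D) +
      (y0 * z1 - y1 * z0) / D * ((z1 * x2 - z2 * x1) / D) * ((x2 * y0 - x0 * y2) / D) -
      (y0 * z1 - y1 * z0) / D * ((z2 * x0 - z0 * x2) / D) * ((x1 * y2 - x2 * y1) / D) = D⁻¹ := by
  have h : (y1 * z2 - y2 * z1) * (z2 * x0 - z0 * x2) * (x0 * y1 - x1 * y0) -
      (y1 * z2 - y2 * z1) * (z0 * x1 - z1 * x0) * (x2 * y0 - x0 * y2) -
      (y2 * z0 - y0 * z2) * (z1 * x2 - z2 * x1) * (x0 * y1 - x1 * y0) +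
      (y2 * z0 - y0 * z2) * (z0 * x1 - z1 * x0) * (x1 * y2 - x2 * y1) +
      (y0 * z1 - y1 * z0) * (z1 * x2 - z2 * x1) * (x2 * y0 - x0 * y2) -
      (y0 * z1 - y1 * z0) * (z2 * x0 - z0 * x2) * (x1 * y2 - x2 * y1) = D ^ 2 := by
    rw [e]; ring
  have h2 : D⁻¹ = D ^ 2 / D ^ 3 := by field_simp
  rw [h2, ← h]; ring

/-- Change of variables to Cramer coordinates. -/
lemma k3_cov {p1 p2 p3 : E 3} (hd : det3 p1 p2 p3 ≠ 0) {Φ : ℝ × ℝ × ℝ → ℝ≥0∞}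
    (hΦ : Measurable Φ) :
    ∫⁻ x : E 3, Φ (k3_s1 p1 p2 p3 x, k3_s2 p1 p2 p3 x, k3_s3 p1 p2 p3 x) =
      ENNReal.ofReal |det3 p1 p2 p3| * ∫⁻ s, Φ s := by
  rw [← k3_cov0 hd (k3_adj (p1 0) (p1 1) (p1 2) (p2 0) (p2 1) (p2 2) (p3 0) (p3 1) (p3 2) _ hd rfl)
    hΦ]
  refine lintegral_congr fun x => ?_
  rw [k3_s1_apply, k3_s2_apply, k3_s3_apply]
  generalize det3 p1 p2 p3 = D
  have a0 : det3 x p2 p3 / D = (p2 1 * p3 2 - p2 2 * p3 1) / D * x 0 +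
      (p2 2 * p3 0 - p2 0 * p3 2) / D * x 1 + (p2 0 * p3 1 - p2 1 * p3 0) / D * x 2 := by
    rw [det3]; ring
  have a1 : det3 p1 x p3 / D = (p3 1 * p1 2 - p3 2 * p1 1) / D * x 0 +
      (p3 2 * p1 0 - p3 0 * p1 2) / D * x 1 + (p3 0 * p1 1 - p3 1 * p1 0) / D * x 2 := by
    rw [det3]; ring
  have a2 : det3 p1 p2 x / D = (p1 1 * p2 2 - p1 2 * p2 1) / D * x 0 +
      (p1 2 * p2 0 - p1 0 * p2 2) / D * x 1 + (p1 0 * p2 1 - p1 1 * p2 0) / D * x 2 := by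
    rw [det3]; ring
  rw [a0, a1, a2]

/-- Line parameters in coordinates. -/
noncomputable def k3_par (a b c : E 3 →ₗ[ℝ] ℝ) (q : E 3 × E 3) : ℝ × ℝ × ℝ × ℝ :=
  (b q.2 - b q.1 / a q.1 * a q.2, c q.2 - c q.1 / a q.1 * a q.2, b q.1 / a q.1, c q.1 / a q.1)

lemma k3_par_meas (a b c : E 3 →ₗ[ℝ] ℝ) : Measurable (k3_par a b c) := by
  have ha : Measurable a := (LinearMap.continuous_of_finiteDimensional a).measurable
  have hb : Measurable b := (LinearMap.continuous_of_finiteDimensional b).measurable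
  have hc : Measurable c := (LinearMap.continuous_of_finiteDimensional c).measurable
  have h1 : Measurable fun q : E 3 × E 3 => b q.1 / a q.1 :=
    (hb.comp measurable_fst).div (ha.comp measurable_fst)
  have h2 : Measurable fun q : E 3 × E 3 => c q.1 / a q.1 :=
    (hc.comp measurable_fst).div (ha.comp measurable_fst)
  exact ((hb.comp measurable_snd).sub (h1.mul (ha.comp measurable_snd))).prodMk
    (((hc.comp measurable_snd).sub (h2.mul (ha.comp measurable_snd))).prodMk (h1.prodMk h2))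

lemma k3_half {w : ℝ} (hw : 0 < w) (hw1 : w ≤ 1 / 100) {a : E 3 →ₗ[ℝ] ℝ}
    (ha : ∀ x, |a x| ≤ 9 * ‖x‖ / w) {p ζ : E 3} (hp : a p = 1) (hζ : ‖ζ - p‖ ≤ w ^ 3) :
    1 / 2 ≤ a ζ := by
  have h1 := ha (ζ - p)
  have h2 : 9 * ‖ζ - p‖ / w ≤ 9 * w ^ 2 := by
    rw [div_le_iff₀ hw]; nlinarith
  rw [map_sub, hp] at h1
  have h3 := (abs_le.mp (h1.trans h2)).1
  nlinarith

lemma k3_slope {w : ℝ} (hw : 0 < w) (hw1 : w ≤ 1 / 100) {a b : E 3 →ₗ[ℝ] ℝ}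
    (ha : ∀ x, |a x| ≤ 9 * ‖x‖ / w) (hb : ∀ x, |b x| ≤ 9 * ‖x‖ / w) {p ζ : E 3} (hp : a p = 1)
    (hq : b p = 0) (hζ : ‖ζ - p‖ ≤ w ^ 3) : |b ζ / a ζ| ≤ w := by
  have h0 := k3_half hw hw1 ha hp hζ
  have h1 := hb (ζ - p)
  have h2 : 9 * ‖ζ - p‖ / w ≤ 9 * w ^ 2 := by
    rw [div_le_iff₀ hw]; nlinarith
  rw [map_sub, hq, sub_zero] at h1
  rw [abs_div, abs_of_pos (by linarith : 0 < a ζ), div_le_iff₀ (by linarith : 0 < a ζ)]
  nlinarith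

lemma k3_coord {w : ℝ} (hw : 0 < w) (hw1 : w ≤ 1 / 100) {a b : E 3 →ₗ[ℝ] ℝ}
    (ha : ∀ x, |a x| ≤ 9 * ‖x‖ / w) (hb : ∀ x, |b x| ≤ 9 * ‖x‖ / w) {p ζ : E 3} (hp : a p = 1)
    (hq : b p = 0) (hζ : ‖ζ - p‖ ≤ w ^ 3) (x y : E 3) :
    |b x - (b y - b ζ / a ζ * a y) - b ζ / a ζ * a x| ≤ 27 / 2 * ld (x - y) ζ / w := by
  have h0 := k3_half hw hw1 ha hp hζ
  have hs := k3_slope hw hw1 ha hb hp hq hζ
  set t := ⟪x - y, ζ⟫ / ‖ζ‖ ^ 2 with ht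
  set l := x - y - t • ζ with hl
  have hld : ld (x - y) ζ = ‖l‖ := rfl
  have ha0 : a ζ ≠ 0 := by linarith
  have e : b x - (b y - b ζ / a ζ * a y) - b ζ / a ζ * a x = b l - b ζ / a ζ * a l := by
    rw [hl]; simp only [map_sub, map_smul, smul_eq_mul]; field_simp; ring
  rw [e, hld]
  have h1 := ha l
  have h2 := hb l
  have h3 : |b ζ / a ζ * a l| ≤ w * (9 * ‖l‖ / w) := by
    rw [abs_mul]; exact mul_le_mul hs h1 (abs_nonneg _) hw.le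
  have h4 : 0 ≤ ‖l‖ / w := by positivity
  have h5 := abs_sub (b l) (b ζ / a ζ * a l)
  have h6 : 9 * ‖l‖ / w = 9 * (‖l‖ / w) := by ring
  have h7 : 27 / 2 * ‖l‖ / w = 27 / 2 * (‖l‖ / w) := by ring
  rw [h6] at h2 h3
  rw [h7]
  nlinarith

lemma k3_kt_meas (ρ h u v : ℝ) : Measurable fun q : ℝ × ℝ × ℝ × ℝ => kt ρ q h u v := by
  unfold kt
  exact (by fun_prop : Continuous fun q : ℝ × ℝ × ℝ × ℝ =>
    Real.exp (-(|u - q.1 - q.2.2.1 * h| + |v - q.2.1 - q.2.2.2 * h|) / ρ)).measurable.ennreal_ofReal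

lemma k3_tube {w ρ : ℝ} (hw : 0 < w) (hw1 : w ≤ 1 / 100) (hρ : 0 < ρ) {a b c : E 3 →ₗ[ℝ] ℝ}
    (ha : ∀ x, |a x| ≤ 9 * ‖x‖ / w) (hb : ∀ x, |b x| ≤ 9 * ‖x‖ / w)
    (hc : ∀ x, |c x| ≤ 9 * ‖x‖ / w) {p : E 3} (hp : a p = 1) (hq : b p = 0) (hr : c p = 0)
    (μ : Measure (E 3 × E 3)) (h : ∀ᵐ q ∂μ, ‖q.1 - p‖ ≤ w ^ 3) (x : E 3) :
    Tube μ ρ x ≤ KT (μ.map (k3_par a b c)) (27 * ρ / w) (a x) (b x) (c x) := by
  unfold Tube KT
  rw [lintegral_map (k3_kt_meas _ _ _ _) (k3_par_meas a b c)]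
  refine lintegral_mono_ae (h.mono fun q hq' => ?_)
  unfold kt k3_par
  refine ENNReal.ofReal_le_ofReal (Real.exp_le_exp.mpr ?_)
  have h1 := k3_coord hw hw1 ha hb hp hq hq' x q.2
  have h2 := k3_coord hw hw1 ha hc hp hr hq' x q.2
  simp only
  rw [neg_div, neg_div, neg_le_neg_iff, div_le_iff₀ (by positivity)]
  have e : ld (x - q.2) q.1 / ρ * (27 * ρ / w) =
      27 / 2 * ld (x - q.2) q.1 / w + 27 / 2 * ld (x - q.2) q.1 / w := by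
    field_simp; ring
  rw [e]
  exact add_le_add h1 h2

lemma k3_ae {w : ℝ} (hw : 0 < w) (hw1 : w ≤ 1 / 100) {a b c : E 3 →ₗ[ℝ] ℝ}
    (ha : ∀ x, |a x| ≤ 9 * ‖x‖ / w) (hb : ∀ x, |b x| ≤ 9 * ‖x‖ / w)
    (hc : ∀ x, |c x| ≤ 9 * ‖x‖ / w) {p : E 3} (hp : a p = 1) (hq : b p = 0) (hr : c p = 0)
    (μ : Measure (E 3 × E 3)) (h : ∀ᵐ q ∂μ, ‖q.1 - p‖ ≤ w ^ 3) :
    ∀ᵐ q ∂(μ.map (k3_par a b c)), |q.2.2.1| ≤ w ∧ |q.2.2.2| ≤ w := by
  have m1 : MeasurableSet {q : ℝ × ℝ × ℝ × ℝ | |q.2.2.1| ≤ w} :=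
    (isClosed_le (by fun_prop) continuous_const).measurableSet
  have m2 : MeasurableSet {q : ℝ × ℝ × ℝ × ℝ | |q.2.2.2| ≤ w} :=
    (isClosed_le (by fun_prop) continuous_const).measurableSet
  refine (ae_map_iff (k3_par_meas a b c).aemeasurable (m1.inter m2)).mpr (h.mono fun q hq' => ?_)
  exact ⟨k3_slope hw hw1 ha hb hp hq hq', k3_slope hw hw1 ha hc hp hr hq'⟩

lemma k3_univ (a b c : E 3 →ₗ[ℝ] ℝ) (μ : Measure (E 3 × E 3)) :
    μ.map (k3_par a b c) Set.univ = μ Set.univ := by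
  rw [Measure.map_apply (k3_par_meas a b c) MeasurableSet.univ, Set.preimage_univ]

/-- Trilinear Kakeya bound. -/
theorem kakeya3 {w T : ℝ} (hw : 0 < w) (hw1 : w ≤ 1 / 100) (hT : 0 < T) {p1 p2 p3 : E 3}
    (b1 : ‖p1‖ ≤ 3) (b2 : ‖p2‖ ≤ 3) (b3 : ‖p3‖ ≤ 3) (hd : w ≤ |det3 p1 p2 p3|)
    (μ1 μ2 μ3 : Measure (E 3 × E 3)) [IsFiniteMeasure μ1] [IsFiniteMeasure μ2]
    [IsFiniteMeasure μ3] (h1 : ∀ᵐ q ∂μ1, ‖q.1 - p1‖ ≤ w ^ 3) (h2 : ∀ᵐ q ∂μ2, ‖q.1 - p2‖ ≤ w ^ 3)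
    (h3 : ∀ᵐ q ∂μ3, ‖q.1 - p3‖ ≤ w ^ 3) (J : ℕ) :
    ∫⁻ x, ENNReal.ofReal (Real.exp (-‖x‖ / T)) *
        (Tube μ1 (w ^ J * T) x * Tube μ2 (w ^ J * T) x * Tube μ3 (w ^ J * T) x) ^ (1 / 2 : ℝ) ≤
      ENNReal.ofReal (100000 ^ J * 10 ^ 7 * (w ^ J * T) ^ 3 / w ^ 3) *
        (μ1 Set.univ * μ2 Set.univ * μ3 Set.univ) ^ (1 / 2 : ℝ) := by
  have hD : det3 p1 p2 p3 ≠ 0 := by
    intro h; rw [h, abs_zero] at hd; linarith
  set a := k3_s1 p1 p2 p3 with ha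
  set b := k3_s2 p1 p2 p3 with hb
  set c := k3_s3 p1 p2 p3 with hc
  have n1 := norm_nonneg p1
  have n2 := norm_nonneg p2
  have n3 := norm_nonneg p3
  have ba : ∀ x, |a x| ≤ 9 * ‖x‖ / w := fun x =>
    k3_div_le hw hd (norm_nonneg x) ((abs_det3_le _ _ _).trans
      (k3_nine n2 n3 b2 b3 (norm_nonneg x)))
  have bb : ∀ x, |b x| ≤ 9 * ‖x‖ / w := fun x =>
    k3_div_le hw hd (norm_nonneg x) ((abs_det3_le _ _ _).trans
      (by rw [mul_comm ‖p1‖]; exact k3_nine n1 n3 b1 b3 (norm_nonneg x)))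
  have bc : ∀ x, |c x| ≤ 9 * ‖x‖ / w := fun x =>
    k3_div_le hw hd (norm_nonneg x) ((abs_det3_le _ _ _).trans
      (by rw [mul_comm _ ‖x‖, ← mul_assoc]; exact k3_nine n1 n2 b1 b2 (norm_nonneg x)))
  have a1 : a p1 = 1 := div_self hD
  have a2 : a p2 = 0 := by rw [ha, k3_s1_apply, div_eq_zero_iff]; left; rw [det3]; ring
  have a3 : a p3 = 0 := by rw [ha, k3_s1_apply, div_eq_zero_iff]; left; rw [det3]; ring
  have c1 : b p1 = 0 := by rw [hb, k3_s2_apply, div_eq_zero_iff]; left; rw [det3]; ring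
  have c2 : b p2 = 1 := div_self hD
  have c3 : b p3 = 0 := by rw [hb, k3_s2_apply, div_eq_zero_iff]; left; rw [det3]; ring
  have d1 : c p1 = 0 := by rw [hc, k3_s3_apply, div_eq_zero_iff]; left; rw [det3]; ring
  have d2 : c p2 = 0 := by rw [hc, k3_s3_apply, div_eq_zero_iff]; left; rw [det3]; ring
  have d3 : c p3 = 1 := div_self hD
  set ν1 := μ1.map (k3_par a b c) with hν1
  set ν2 := μ2.map (k3_par b a c) with hν2
  set ν3 := μ3.map (k3_par c a b) with hν3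
  set T' := 27 * T / w with hT'
  have hT0 : 0 < T' := by positivity
  have hρ : 0 < w ^ J * T := by positivity
  have eρ : 27 * (w ^ J * T) / w = w ^ J * T' := by rw [hT']; ring
  have key := KPhi_iter ν1 ν2 ν3 hT0 hw (by linarith) (k3_ae hw hw1 ba bb bc a1 c1 d1 μ1 h1)
    (k3_ae hw hw1 bb ba bc c2 a2 d2 μ2 h2) (k3_ae hw hw1 bc ba bb d3 a3 c3 μ3 h3) J
  rw [hν1, hν2, hν3, k3_univ, k3_univ, k3_univ, ← hν1, ← hν2, ← hν3] at key
  let Φ : ℝ × ℝ × ℝ → ℝ≥0∞ := fun s =>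
    ENNReal.ofReal (Real.exp (-(|s.1| + |s.2.1| + |s.2.2|) / T')) *
      (KT ν1 (w ^ J * T') s.1 s.2.1 s.2.2 * KT ν2 (w ^ J * T') s.2.1 s.1 s.2.2 *
        KT ν3 (w ^ J * T') s.2.2 s.1 s.2.1) ^ (1 / 2 : ℝ)
  have hΦ : Measurable Φ := by
    have m0 : Measurable fun s : ℝ × ℝ × ℝ =>
        ENNReal.ofReal (Real.exp (-(|s.1| + |s.2.1| + |s.2.2|) / T')) :=
      (by fun_prop : Continuous fun s : ℝ × ℝ × ℝ =>
        Real.exp (-(|s.1| + |s.2.1| + |s.2.2|) / T')).measurable.ennreal_ofReal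
    have m1 := measurable_KT ν1 (w ^ J * T')
    have m2 : Measurable fun s : ℝ × ℝ × ℝ => KT ν2 (w ^ J * T') s.2.1 s.1 s.2.2 :=
      Measurable.comp (g := fun s : ℝ × ℝ × ℝ => KT ν2 (w ^ J * T') s.1 s.2.1 s.2.2)
        (f := fun s : ℝ × ℝ × ℝ => (s.2.1, s.1, s.2.2)) (measurable_KT ν2 (w ^ J * T'))
        (measurable_snd.fst.prodMk (measurable_fst.prodMk measurable_snd.snd))
    have m3 : Measurable fun s : ℝ × ℝ × ℝ => KT ν3 (w ^ J * T') s.2.2 s.1 s.2.1 :=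
      Measurable.comp (g := fun s : ℝ × ℝ × ℝ => KT ν3 (w ^ J * T') s.1 s.2.1 s.2.2)
        (f := fun s : ℝ × ℝ × ℝ => (s.2.2, s.1, s.2.1)) (measurable_KT ν3 (w ^ J * T'))
        (measurable_snd.snd.prodMk (measurable_fst.prodMk measurable_snd.fst))
    exact m0.mul (((m1.mul m2).mul m3).pow_const _)
  have hDle : |det3 p1 p2 p3| ≤ 27 := by
    refine (abs_det3_le _ _ _).trans ?_
    have := k3_nine n2 n3 b2 b3 n1
    linarith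
  calc _ ≤ ∫⁻ x : E 3, Φ (a x, b x, c x) := by
        refine lintegral_mono fun x => ?_
        refine mul_le_mul' (ENNReal.ofReal_le_ofReal (Real.exp_le_exp.mpr ?_))
          (ENNReal.rpow_le_rpow (mul_le_mul' (mul_le_mul' ?_ ?_) ?_) (by norm_num))
        · simp only
          rw [neg_div, neg_div, neg_le_neg_iff, div_le_iff₀ hT0]
          have e : ‖x‖ / T * T' = 9 * ‖x‖ / w + 9 * ‖x‖ / w + 9 * ‖x‖ / w := by
            rw [hT']; field_simp; ring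
          rw [e]
          exact add_le_add (add_le_add (ba x) (bb x)) (bc x)
        · rw [← eρ]; exact k3_tube hw hw1 hρ ba bb bc a1 c1 d1 μ1 h1 x
        · rw [← eρ]; exact k3_tube hw hw1 hρ bb ba bc c2 a2 d2 μ2 h2 x
        · rw [← eρ]; exact k3_tube hw hw1 hρ bc ba bb d3 a3 c3 μ3 h3 x
    _ = ENNReal.ofReal |det3 p1 p2 p3| * KPhi ν1 ν2 ν3 T' (w ^ J * T') := k3_cov hD hΦ
    _ ≤ ENNReal.ofReal 27 * (ENNReal.ofReal (100000 ^ J * 8 * (w ^ J * T') ^ 3) *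
        (μ1 Set.univ * μ2 Set.univ * μ3 Set.univ) ^ (1 / 2 : ℝ)) :=
        mul_le_mul' (ENNReal.ofReal_le_ofReal hDle) key
    _ ≤ _ := by
        rw [← mul_assoc, ← ENNReal.ofReal_mul (by norm_num)]
        refine mul_le_mul' (ENNReal.ofReal_le_ofReal ?_) le_rfl
        rw [← eρ]
        have e : 27 * (100000 ^ J * 8 * (27 * (w ^ J * T) / w) ^ 3) =
            4251528 * (100000 ^ J * (w ^ J * T) ^ 3 / w ^ 3) := by
          field_simp; ring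
        have e' : 100000 ^ J * 10 ^ 7 * (w ^ J * T) ^ 3 / w ^ 3 =
            10000000 * (100000 ^ J * (w ^ J * T) ^ 3 / w ^ 3) := by ring
        rw [e, e']
        have : 0 ≤ 100000 ^ J * (w ^ J * T) ^ 3 / w ^ 3 := by positivity
        linarith

end Pool.Agent.P.MP_f791b6_an
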