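import Pool.Agent.P.MP_f791b6_an.N3LW

namespace Pool.Agent.P.MP_f791b6_an

open MeasureTheory Complex Metric
open scoped ComplexConjugate Real RealInnerProductSpace ENNReal

/-- The weight. -/
noncomputable def ks_w (T : ℝ) (s : ℝ × ℝ × ℝ) : ℝ≥0∞ :=
  ENNReal.ofReal (Real.exp (-(|s.1| + |s.2.1| + |s.2.2|) / T))

/-- The trilinear density. -/
noncomputable def ks_F (ν1 ν2 ν3 : Measure (ℝ × ℝ × ℝ × ℝ)) (ρ : ℝ) (s : ℝ × ℝ × ℝ) : ℝ≥0∞ :=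
  (KT ν1 ρ s.1 s.2.1 s.2.2 * KT ν2 ρ s.2.1 s.1 s.2.2 * KT ν3 ρ s.2.2 s.1 s.2.1) ^ (1 / 2 : ℝ)

/-- The cube of half side `R` about `c`. -/
def ks_B (R : ℝ) (c : ℝ × ℝ × ℝ) : Set (ℝ × ℝ × ℝ) :=
  Set.Icc (c.1 - R) (c.1 + R) ×ˢ Set.Icc (c.2.1 - R) (c.2.1 + R) ×ˢ Set.Icc (c.2.2 - R) (c.2.2 + R)

lemma ks_mem {R : ℝ} {c s : ℝ × ℝ × ℝ} :
    s ∈ ks_B R c ↔ |s.1 - c.1| ≤ R ∧ |s.2.1 - c.2.1| ≤ R ∧ |s.2.2 - c.2.2| ≤ R := by
  simp only [ks_B, Set.mem_prod, Set.mem_Icc, abs_le]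
  constructor
  · rintro ⟨⟨a, b⟩, ⟨c, d⟩, e, f⟩
    refine ⟨⟨?_, ?_⟩, ⟨?_, ?_⟩, ?_, ?_⟩ <;> linarith
  · rintro ⟨⟨a, b⟩, ⟨c, d⟩, e, f⟩
    refine ⟨⟨?_, ?_⟩, ⟨?_, ?_⟩, ?_, ?_⟩ <;> linarith

lemma ks_symm {R : ℝ} {c s : ℝ × ℝ × ℝ} : s ∈ ks_B R c ↔ c ∈ ks_B R s := by
  rw [ks_mem, ks_mem, abs_sub_comm s.1, abs_sub_comm s.2.1, abs_sub_comm s.2.2]

lemma ks_meas (R : ℝ) (c : ℝ × ℝ × ℝ) : MeasurableSet (ks_B R c) :=
  measurableSet_Icc.prod (measurableSet_Icc.prod measurableSet_Icc)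

lemma ks_vol {R : ℝ} (hR : 0 ≤ R) (c : ℝ × ℝ × ℝ) :
    volume (ks_B R c) = ENNReal.ofReal (8 * R ^ 3) := by
  rw [ks_B, Measure.volume_eq_prod, Measure.prod_prod, Measure.volume_eq_prod, Measure.prod_prod,
    Real.volume_Icc, Real.volume_Icc, Real.volume_Icc, ← ENNReal.ofReal_mul (by linarith),
    ← ENNReal.ofReal_mul (by linarith)]
  congr 1
  ring

lemma ks_w_meas (T : ℝ) : Measurable (ks_w T) := by
  unfold ks_w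
  exact (by fun_prop : Continuous fun s : ℝ × ℝ × ℝ =>
    Real.exp (-(|s.1| + |s.2.1| + |s.2.2|) / T)).measurable.ennreal_ofReal

lemma ks_F_meas (ν1 ν2 ν3 : Measure (ℝ × ℝ × ℝ × ℝ)) [SFinite ν1] [SFinite ν2] [SFinite ν3]
    (ρ : ℝ) : Measurable (ks_F ν1 ν2 ν3 ρ) := by
  unfold ks_F
  have h2 := (measurable_KT ν2 ρ).comp (f := fun s : ℝ × ℝ × ℝ => (s.2.1, s.1, s.2.2))
    (by fun_prop)
  have h3 := (measurable_KT ν3 ρ).comp (f := fun s : ℝ × ℝ × ℝ => (s.2.2, s.1, s.2.1))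
    (by fun_prop)
  exact (((measurable_KT ν1 ρ).mul h2).mul h3).pow_const _

/-- Averaging over cubes. -/
lemma ks_avg {R : ℝ} (hR : 0 ≤ R) {G : ℝ × ℝ × ℝ → ℝ≥0∞} (hG : Measurable G) :
    ENNReal.ofReal (8 * R ^ 3) * ∫⁻ s, G s = ∫⁻ c, ∫⁻ s, (ks_B R c).indicator G s := by
  have hS : MeasurableSet {p : (ℝ × ℝ × ℝ) × ℝ × ℝ × ℝ | p.2 ∈ ks_B R p.1} := by
    simp only [ks_mem]
    have h1 : IsClosed {p : (ℝ × ℝ × ℝ) × ℝ × ℝ × ℝ | |p.2.1 - p.1.1| ≤ R} :=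
      isClosed_le (by fun_prop) continuous_const
    have h2 : IsClosed {p : (ℝ × ℝ × ℝ) × ℝ × ℝ × ℝ | |p.2.2.1 - p.1.2.1| ≤ R} :=
      isClosed_le (by fun_prop) continuous_const
    have h3 : IsClosed {p : (ℝ × ℝ × ℝ) × ℝ × ℝ × ℝ | |p.2.2.2 - p.1.2.2| ≤ R} :=
      isClosed_le (by fun_prop) continuous_const
    exact (h1.inter (h2.inter h3)).measurableSet
  have hm : Measurable (Function.uncurry fun c s : ℝ × ℝ × ℝ => (ks_B R c).indicator G s) :=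
    (hG.comp measurable_snd).indicator hS
  rw [lintegral_lintegral_swap hm.aemeasurable, ← lintegral_const_mul _ hG]
  refine lintegral_congr fun s => ?_
  have : (fun c => (ks_B R c).indicator G s) = (ks_B R s).indicator fun _ => G s := by
    funext c
    by_cases h : s ∈ ks_B R c
    · rw [Set.indicator_of_mem h, Set.indicator_of_mem (ks_symm.1 h)]
    · rw [Set.indicator_of_notMem h, Set.indicator_of_notMem fun h' => h (ks_symm.1 h')]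
  rw [this, lintegral_indicator_const (ks_meas R s), ks_vol hR, mul_comm]

lemma ks_w_le {R T : ℝ} (hR : 0 < R) (hT : R ≤ T) {c s : ℝ × ℝ × ℝ} (h : s ∈ ks_B R c) :
    ks_w T s ≤ ENNReal.ofReal (Real.exp 3) * ks_w T c := by
  obtain ⟨h1, h2, h3⟩ := ks_mem.1 h
  have hT0 : 0 < T := hR.trans_le hT
  rw [ks_w, ks_w, ← ENNReal.ofReal_mul (Real.exp_pos _).le, ← Real.exp_add]
  refine ENNReal.ofReal_le_ofReal (Real.exp_le_exp.2 ?_)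
  have e1 := abs_sub_abs_le_abs_sub c.1 s.1
  have e2 := abs_sub_abs_le_abs_sub c.2.1 s.2.1
  have e3 := abs_sub_abs_le_abs_sub c.2.2 s.2.2
  rw [abs_sub_comm] at e1 e2 e3
  rw [show (3 : ℝ) + -(|c.1| + |c.2.1| + |c.2.2|) / T =
    (3 * T - (|c.1| + |c.2.1| + |c.2.2|)) / T by field_simp; ring]
  exact div_le_div_of_nonneg_right (by linarith) hT0.le

/-- The frozen tubes over a square. -/
noncomputable def ks_g (ν : Measure (ℝ × ℝ × ℝ × ℝ)) (ρ R h u v : ℝ) : ℝ × ℝ → ℝ≥0∞ :=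
  (Set.Icc (u - R) (u + R) ×ˢ Set.Icc (v - R) (v + R)).indicator
    fun q => ENNReal.ofReal (Real.exp 2) * KT ν ρ h q.1 q.2

lemma ks_KT_meas (ν : Measure (ℝ × ℝ × ℝ × ℝ)) [SFinite ν] (ρ h : ℝ) :
    Measurable fun q : ℝ × ℝ => KT ν ρ h q.1 q.2 :=
  (measurable_KT ν ρ).comp (f := fun q : ℝ × ℝ => (h, q.1, q.2)) (by fun_prop)

lemma ks_g_meas (ν : Measure (ℝ × ℝ × ℝ × ℝ)) [SFinite ν] (ρ R h u v : ℝ) :
    Measurable (ks_g ν ρ R h u v) :=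
  ((ks_KT_meas ν ρ h).const_mul _).indicator (measurableSet_Icc.prod measurableSet_Icc)

lemma ks_g_int (ν : Measure (ℝ × ℝ × ℝ × ℝ)) [SFinite ν] {ρ θ : ℝ} (hρ : 0 < ρ) (hθ : 0 < θ)
    (hθ1 : θ ≤ 1 / 2) (h u v : ℝ) : ∫⁻ q, ks_g ν ρ (ρ / θ) h u v q ≤
      ENNReal.ofReal (4 * Real.exp 2 * ρ) ^ 2 * KT ν (ρ / θ) h u v := by
  rw [ks_g, lintegral_indicator (measurableSet_Icc.prod measurableSet_Icc),
    lintegral_const_mul _ (ks_KT_meas ν ρ h)]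
  refine (mul_le_mul_right (KT_box ν hρ hθ hθ1 h u v) _).trans (le_of_eq ?_)
  rw [← mul_assoc, ← ENNReal.ofReal_mul (Real.exp_pos _).le, ← ENNReal.ofReal_pow (by positivity)]
  congr 2
  ring

lemma ks_g_le {ν : Measure (ℝ × ℝ × ℝ × ℝ)} {ρ θ : ℝ} (hρ : 0 < ρ) (hθ : 0 < θ)
    (hν : ∀ᵐ q ∂ν, |q.2.2.1| ≤ θ ∧ |q.2.2.2| ≤ θ) {h h' u u' v v' : ℝ} (hh : |h - h'| ≤ ρ / θ)
    (hu : |u - u'| ≤ ρ / θ) (hv : |v - v'| ≤ ρ / θ) :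
    KT ν ρ h u v ≤ ks_g ν ρ (ρ / θ) h' u' v' (u, v) := by
  rw [abs_le] at hu hv
  rw [ks_g, Set.indicator_of_mem (show (u, v) ∈ Set.Icc (u' - ρ / θ) (u' + ρ / θ) ×ˢ
    Set.Icc (v' - ρ / θ) (v' + ρ / θ) from ⟨⟨by linarith [hu.1], by linarith [hu.2]⟩,
      by linarith [hv.1], by linarith [hv.2]⟩)]
  exact KT_shift ν hρ hθ hν hh u v

lemma ks_root (A x y z : ℝ≥0∞) :
    (A ^ 2 * x * (A ^ 2 * y) * (A ^ 2 * z)) ^ (1 / 2 : ℝ) = A ^ 3 * (x * y * z) ^ (1 / 2 : ℝ) := by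
  rw [show A ^ 2 * x * (A ^ 2 * y) * (A ^ 2 * z) = (A ^ 3) ^ 2 * (x * y * z) by ring,
    ENNReal.mul_rpow_of_nonneg _ _ (by norm_num), ← ENNReal.rpow_natCast (A ^ 3) 2,
    ← ENNReal.rpow_mul]
  norm_num

/-- The estimate on one cube. -/
lemma ks_cube (ν1 ν2 ν3 : Measure (ℝ × ℝ × ℝ × ℝ)) [SFinite ν1] [SFinite ν2] [SFinite ν3]
    {T ρ θ : ℝ} (hρ : 0 < ρ) (hθ : 0 < θ) (hθ1 : θ ≤ 1 / 2) (hT : ρ / θ ≤ T)
    (h1 : ∀ᵐ q ∂ν1, |q.2.2.1| ≤ θ ∧ |q.2.2.2| ≤ θ) (h2 : ∀ᵐ q ∂ν2, |q.2.2.1| ≤ θ ∧ |q.2.2.2| ≤ θ)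
    (h3 : ∀ᵐ q ∂ν3, |q.2.2.1| ≤ θ ∧ |q.2.2.2| ≤ θ) (c : ℝ × ℝ × ℝ) :
    ∫⁻ s, (ks_B (ρ / θ) c).indicator (fun s => ks_w T s * ks_F ν1 ν2 ν3 ρ s) s ≤
      ENNReal.ofReal (64 * Real.exp 1 ^ 9 * ρ ^ 3) * (ks_w T c * ks_F ν1 ν2 ν3 (ρ / θ) c) := by
  set g1 := ks_g ν1 ρ (ρ / θ) c.1 c.2.1 c.2.2
  set g2 := ks_g ν2 ρ (ρ / θ) c.2.1 c.1 c.2.2
  set g3 := ks_g ν3 ρ (ρ / θ) c.2.2 c.1 c.2.1
  have hne : ENNReal.ofReal (Real.exp 3) * ks_w T c ≠ ∞ :=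
    ENNReal.mul_ne_top ENNReal.ofReal_ne_top ENNReal.ofReal_ne_top
  calc _ ≤ ∫⁻ s : ℝ × ℝ × ℝ, ENNReal.ofReal (Real.exp 3) * ks_w T c *
        (g1 (s.2.1, s.2.2) * g2 (s.1, s.2.2) * g3 (s.1, s.2.1)) ^ (1 / 2 : ℝ) := by
        refine lintegral_mono fun s => ?_
        by_cases h : s ∈ ks_B (ρ / θ) c
        · rw [Set.indicator_of_mem h]
          obtain ⟨a1, a2, a3⟩ := ks_mem.1 h
          refine mul_le_mul' (ks_w_le (by positivity) hT h) ?_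
          exact ENNReal.rpow_le_rpow (mul_le_mul' (mul_le_mul' (ks_g_le hρ hθ h1 a1 a2 a3)
            (ks_g_le hρ hθ h2 a2 a1 a3)) (ks_g_le hρ hθ h3 a3 a1 a2)) (by norm_num)
        · rw [Set.indicator_of_notMem h]
          exact zero_le
    _ ≤ ENNReal.ofReal (Real.exp 3) * ks_w T c *
        ((∫⁻ q, g1 q) * (∫⁻ q, g2 q) * ∫⁻ q, g3 q) ^ (1 / 2 : ℝ) := by
        rw [lintegral_const_mul' _ _ hne]
        exact mul_le_mul_right (loomis_whitney (ks_g_meas ..) (ks_g_meas ..) (ks_g_meas ..)) _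
    _ ≤ ENNReal.ofReal (Real.exp 3) * ks_w T c *
        (ENNReal.ofReal (4 * Real.exp 2 * ρ) ^ 3 * ks_F ν1 ν2 ν3 (ρ / θ) c) := by
        rw [ks_F, ← ks_root]
        exact mul_le_mul_right (ENNReal.rpow_le_rpow (mul_le_mul' (mul_le_mul'
          (ks_g_int ν1 hρ hθ hθ1 ..) (ks_g_int ν2 hρ hθ hθ1 ..)) (ks_g_int ν3 hρ hθ hθ1 ..))
          (by norm_num)) _
    _ = _ := by
        have e : 64 * Real.exp 1 ^ 9 * ρ ^ 3 = Real.exp 3 * (4 * Real.exp 2 * ρ) ^ 3 := by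
          rw [show (3 : ℝ) = (3 : ℕ) * 1 by norm_num, show (2 : ℝ) = (2 : ℕ) * 1 by norm_num,
            Real.exp_nat_mul, Real.exp_nat_mul]
          ring
        rw [e, ENNReal.ofReal_mul (Real.exp_pos _).le, ENNReal.ofReal_pow (by positivity)]
        ring

/-- One step of the induction on scales. -/
theorem KPhi_step (ν1 ν2 ν3 : Measure (ℝ × ℝ × ℝ × ℝ)) [SFinite ν1] [SFinite ν2] [SFinite ν3]
    {T ρ θ : ℝ} (hρ : 0 < ρ) (hθ : 0 < θ) (hθ1 : θ ≤ 1 / 2) (hT : ρ / θ ≤ T)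
    (h1 : ∀ᵐ q ∂ν1, |q.2.2.1| ≤ θ ∧ |q.2.2.2| ≤ θ) (h2 : ∀ᵐ q ∂ν2, |q.2.2.1| ≤ θ ∧ |q.2.2.2| ≤ θ)
    (h3 : ∀ᵐ q ∂ν3, |q.2.2.1| ≤ θ ∧ |q.2.2.2| ≤ θ) :
    KPhi ν1 ν2 ν3 T ρ ≤ ENNReal.ofReal (100000 * θ ^ 3) * KPhi ν1 ν2 ν3 T (ρ / θ) := by
  have hR : 0 < ρ / θ := by positivity
  have hm := fun r => (ks_w_meas T).mul (ks_F_meas ν1 ν2 ν3 r)
  have key : ENNReal.ofReal (8 * (ρ / θ) ^ 3) * KPhi ν1 ν2 ν3 T ρ ≤
      ENNReal.ofReal (64 * Real.exp 1 ^ 9 * ρ ^ 3) * KPhi ν1 ν2 ν3 T (ρ / θ) := by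
    refine (ks_avg hR.le (hm ρ)).le.trans ((lintegral_mono fun c =>
      ks_cube ν1 ν2 ν3 hρ hθ hθ1 hT h1 h2 h3 c).trans (le_of_eq ?_))
    exact lintegral_const_mul _ (hm _)
  refine (ENNReal.mul_le_mul_iff_right (a := ENNReal.ofReal (8 * (ρ / θ) ^ 3))
    (by simpa using by positivity) ENNReal.ofReal_ne_top).1 (key.trans ?_)
  rw [← mul_assoc, ← ENNReal.ofReal_mul (by positivity)]
  refine mul_le_mul_left (ENNReal.ofReal_le_ofReal ?_) _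
  have he : Real.exp 1 ^ 9 ≤ 3 ^ 9 * (10 / 11) ^ 9 := by
    rw [← mul_pow]
    exact pow_le_pow_left₀ (Real.exp_pos _).le (by linarith [Real.exp_one_lt_d9]) 9
  rw [show 8 * (ρ / θ) ^ 3 * (100000 * θ ^ 3) = 800000 * ρ ^ 3 by field_simp; ring]
  have h9 : (3 : ℝ) ^ 9 * (10 / 11) ^ 9 ≤ 12500 := by norm_num
  exact mul_le_mul_of_nonneg_right (by linarith) (by positivity)

lemma ks_one {T : ℝ} (hT : 0 < T) :
    ∫⁻ x : ℝ, ENNReal.ofReal (Real.exp (-|x| / T)) = ENNReal.ofReal (2 * T) := by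
  have h : ∫ x : ℝ, Real.exp (-|x| / T) = 2 * T := by
    rw [integral_comp_abs (f := fun x => Real.exp (-x / T))]
    have := integral_exp_mul_Ioi (a := -T⁻¹) (by simpa using hT) 0
    simp only [mul_zero, Real.exp_zero] at this
    rw [show (fun x : ℝ => Real.exp (-x / T)) = fun x => Real.exp (-T⁻¹ * x) by
      funext x; congr 1; ring, this]
    field_simp
  rw [← h, ofReal_integral_eq_lintegral_ofReal (Integrable.of_integral_ne_zero (by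
    rw [h]; positivity)) (Filter.Eventually.of_forall fun x => (Real.exp_pos _).le)]

lemma ks_w_int {T : ℝ} (hT : 0 < T) : ∫⁻ s, ks_w T s = ENNReal.ofReal (8 * T ^ 3) := by
  have hm : Measurable fun x : ℝ => ENNReal.ofReal (Real.exp (-|x| / T)) :=
    (by fun_prop : Continuous fun x : ℝ => Real.exp (-|x| / T)).measurable.ennreal_ofReal
  have e : ks_w T = fun s => ENNReal.ofReal (Real.exp (-|s.1| / T)) *
      (fun q : ℝ × ℝ => ENNReal.ofReal (Real.exp (-|q.1| / T)) *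
        ENNReal.ofReal (Real.exp (-|q.2| / T))) s.2 := by
    funext s
    simp only [ks_w]
    rw [← ENNReal.ofReal_mul (Real.exp_pos _).le, ← ENNReal.ofReal_mul (Real.exp_pos _).le,
      ← Real.exp_add, ← Real.exp_add]
    congr 2
    ring
  have hm2 : Measurable fun q : ℝ × ℝ => ENNReal.ofReal (Real.exp (-|q.1| / T)) *
      ENNReal.ofReal (Real.exp (-|q.2| / T)) :=
    (hm.comp measurable_fst).mul (hm.comp measurable_snd)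
  rw [e]
  refine (lintegral_prod_mul hm.aemeasurable hm2.aemeasurable).trans ?_
  rw [Measure.volume_eq_prod, lintegral_prod_mul hm.aemeasurable hm.aemeasurable, ks_one hT,
    ← ENNReal.ofReal_mul (by positivity), ← ENNReal.ofReal_mul (by positivity)]
  congr 1
  ring

lemma ks_KT_le (ν : Measure (ℝ × ℝ × ℝ × ℝ)) {ρ : ℝ} (hρ : 0 < ρ) (h u v : ℝ) :
    KT ν ρ h u v ≤ ν Set.univ := by
  rw [KT, ← lintegral_one]
  refine lintegral_mono fun q => ENNReal.ofReal_le_one.2 (Real.exp_le_one_iff.2 ?_)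
  exact div_nonpos_of_nonpos_of_nonneg (neg_nonpos.2 (by positivity)) hρ.le

/-- Trilinear Kakeya bound in coordinates. -/
theorem KPhi_iter (ν1 ν2 ν3 : Measure (ℝ × ℝ × ℝ × ℝ)) [SFinite ν1] [SFinite ν2] [SFinite ν3]
    {T θ : ℝ} (hT : 0 < T) (hθ : 0 < θ) (hθ1 : θ ≤ 1 / 2)
    (h1 : ∀ᵐ q ∂ν1, |q.2.2.1| ≤ θ ∧ |q.2.2.2| ≤ θ) (h2 : ∀ᵐ q ∂ν2, |q.2.2.1| ≤ θ ∧ |q.2.2.2| ≤ θ)
    (h3 : ∀ᵐ q ∂ν3, |q.2.2.1| ≤ θ ∧ |q.2.2.2| ≤ θ) (J : ℕ) :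
    KPhi ν1 ν2 ν3 T (θ ^ J * T) ≤ ENNReal.ofReal (100000 ^ J * 8 * (θ ^ J * T) ^ 3) *
      (ν1 Set.univ * ν2 Set.univ * ν3 Set.univ) ^ (1 / 2 : ℝ) := by
  induction J with
  | zero =>
    simp only [pow_zero, one_mul]
    rw [← ks_w_int hT, ← lintegral_mul_const _ (ks_w_meas T)]
    refine lintegral_mono fun s => mul_le_mul_right (ENNReal.rpow_le_rpow ?_ (by norm_num)) _
    exact mul_le_mul' (mul_le_mul' (ks_KT_le _ hT ..) (ks_KT_le _ hT ..)) (ks_KT_le _ hT ..)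
  | succ J ih =>
    have e : θ ^ (J + 1) * T / θ = θ ^ J * T := by field_simp; ring
    have hle : θ ^ (J + 1) * T / θ ≤ T := by
      rw [e]
      exact mul_le_of_le_one_left hT.le (pow_le_one₀ hθ.le (by linarith))
    refine (KPhi_step ν1 ν2 ν3 (by positivity) hθ hθ1 hle h1 h2 h3).trans ?_
    rw [e]
    refine (mul_le_mul_right ih _).trans (le_of_eq ?_)
    rw [← mul_assoc, ← ENNReal.ofReal_mul (by positivity)]
    congr 2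
    ring

end Pool.Agent.P.MP_f791b6_an
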