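import Pool.Agent.P.MP_f791b6_an.N3Defs

namespace Pool.Agent.P.MP_f791b6_an

open MeasureTheory Complex Metric
open scoped ComplexConjugate Real RealInnerProductSpace ENNReal

lemma lw_cs {α : Type*} [MeasurableSpace α] (μ : Measure α) {f g : α → ℝ≥0∞} (hf : Measurable f)
    (hg : Measurable g) : ∫⁻ a, (f a * g a) ^ (1 / 2 : ℝ) ∂μ ≤
      ((∫⁻ a, f a ∂μ) * ∫⁻ a, g a ∂μ) ^ (1 / 2 : ℝ) := by
  simp only [ENNReal.mul_rpow_of_nonneg _ _ (show (0 : ℝ) ≤ 1 / 2 by norm_num)]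
  exact ENNReal.lintegral_mul_norm_pow_le hf.aemeasurable hg.aemeasurable (by norm_num)
    (by norm_num) (by norm_num)

/-- Loomis-Whitney inequality. -/
theorem loomis_whitney {g1 g2 g3 : ℝ × ℝ → ℝ≥0∞} (h1 : Measurable g1) (h2 : Measurable g2)
    (h3 : Measurable g3) :
    ∫⁻ s : ℝ × ℝ × ℝ, (g1 (s.2.1, s.2.2) * g2 (s.1, s.2.2) * g3 (s.1, s.2.1)) ^ (1 / 2 : ℝ) ≤
      ((∫⁻ q, g1 q) * (∫⁻ q, g2 q) * ∫⁻ q, g3 q) ^ (1 / 2 : ℝ) := by
  have hm : Measurable fun s : ℝ × ℝ × ℝ =>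
      (g1 (s.2.1, s.2.2) * g2 (s.1, s.2.2) * g3 (s.1, s.2.1)) ^ (1 / 2 : ℝ) := by fun_prop
  have hA : Measurable fun y : ℝ => ∫⁻ z, g1 (y, z) := h1.lintegral_prod_right'
  have hB : Measurable fun x : ℝ => ∫⁻ z, g2 (x, z) := h2.lintegral_prod_right'
  have e1 : ∫⁻ q, g1 q = ∫⁻ y, ∫⁻ z, g1 (y, z) := lintegral_prod _ h1.aemeasurable
  have e2 : ∫⁻ q, g2 q = ∫⁻ y, ∫⁻ z, g2 (y, z) := lintegral_prod _ h2.aemeasurable
  have hF : Measurable fun q : ℝ × ℝ => (∫⁻ z, g2 (q.1, z)) * ∫⁻ z, g1 (q.2, z) :=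
    (hB.comp measurable_fst).mul (hA.comp measurable_snd)
  calc _ = ∫⁻ x, ∫⁻ p : ℝ × ℝ, (g1 (p.1, p.2) * g2 (x, p.2) * g3 (x, p.1)) ^ (1 / 2 : ℝ) :=
        lintegral_prod _ hm.aemeasurable
    _ ≤ ∫⁻ x, ∫⁻ y, (((∫⁻ z, g2 (x, z)) * ∫⁻ z, g1 (y, z)) * g3 (x, y)) ^ (1 / 2 : ℝ) := by
        refine lintegral_mono fun x => ?_
        have hx : Measurable fun p : ℝ × ℝ =>
            (g1 (p.1, p.2) * g2 (x, p.2) * g3 (x, p.1)) ^ (1 / 2 : ℝ) := by fun_prop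
        refine (lintegral_prod _ hx.aemeasurable).le.trans (lintegral_mono fun y => ?_)
        have := lw_cs volume (f := fun z => g1 (y, z)) (g := fun z => g2 (x, z) * g3 (x, y))
          (by fun_prop) (by fun_prop)
        rw [lintegral_mul_const _ (by fun_prop)] at this
        simp only [mul_assoc]
        refine this.trans (le_of_eq ?_)
        rw [mul_left_comm]
    _ = ∫⁻ q : ℝ × ℝ, (((∫⁻ z, g2 (q.1, z)) * ∫⁻ z, g1 (q.2, z)) * g3 q) ^ (1 / 2 : ℝ) :=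
        (lintegral_prod (fun q : ℝ × ℝ => (((∫⁻ z, g2 (q.1, z)) * ∫⁻ z, g1 (q.2, z)) * g3 q) ^
          (1 / 2 : ℝ)) ((hF.mul h3).pow_const _).aemeasurable).symm
    _ ≤ _ := by
        refine (lw_cs volume hF h3).trans (le_of_eq ?_)
        have := lintegral_prod_mul (μ := (volume : Measure ℝ)) (ν := (volume : Measure ℝ))
          hB.aemeasurable hA.aemeasurable
        rw [e1, e2, mul_comm (∫⁻ y, ∫⁻ z, g1 (y, z)), ← this]
        rfl

lemma lw_kt_meas (ρ : ℝ) : Measurable fun p : (ℝ × ℝ × ℝ) × ℝ × ℝ × ℝ × ℝ =>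
    kt ρ p.2 p.1.1 p.1.2.1 p.1.2.2 := by
  unfold kt
  fun_prop

theorem measurable_KT (ν : Measure (ℝ × ℝ × ℝ × ℝ)) [SFinite ν] (ρ : ℝ) :
    Measurable (fun s : ℝ × ℝ × ℝ => KT ν ρ s.1 s.2.1 s.2.2) :=
  (lw_kt_meas ρ).lintegral_prod_right'

lemma lw_exp {ρ : ℝ} (hρ : 0 < ρ) (a : ℝ) :
    ∫⁻ s : ℝ, ENNReal.ofReal (Real.exp (-|s - a| / (2 * ρ))) = ENNReal.ofReal (4 * ρ) := by
  have h1 : ∫ s : ℝ, Real.exp (-|s| / (2 * ρ)) = 4 * ρ := by
    have hn : -(2 * ρ)⁻¹ < 0 := by simp [hρ]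
    have h2 := integral_comp_abs (f := fun x => Real.exp (-(2 * ρ)⁻¹ * x))
    rw [integral_exp_mul_Ioi hn] at h2
    have h3 : ∀ s : ℝ, -|s| / (2 * ρ) = -(2 * ρ)⁻¹ * |s| := fun s => by ring
    simp only [h3, h2, mul_zero, Real.exp_zero]
    field_simp
    norm_num
  rw [lintegral_sub_right_eq_self (fun s => ENNReal.ofReal (Real.exp (-|s| / (2 * ρ)))) a, ← h1]
  exact (ofReal_integral_eq_lintegral_ofReal (Integrable.of_integral_ne_zero (by
    rw [h1]; positivity)) (Filter.Eventually.of_forall fun s => (Real.exp_pos _).le)).symm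

lemma lw_one {ρ θ : ℝ} (hρ : 0 < ρ) (hθ : 0 < θ) (hθ1 : θ ≤ 1 / 2) {u u' a b : ℝ}
    (hu : u' ∈ Set.Icc (u - ρ / θ) (u + ρ / θ)) :
    -|u' - a - b| / ρ ≤ 1 + -|u - a - b| / (ρ / θ) + -|u' - (a + b)| / (2 * ρ) := by
  have h1 : |u - a - b| ≤ |u' - a - b| + ρ / θ := by
    have := abs_sub_le (u - a - b) (u' - a - b) 0
    rw [sub_zero, sub_zero] at this
    have h2 : |u - a - b - (u' - a - b)| ≤ ρ / θ := abs_le.2 ⟨by linarith [hu.2], by linarith [hu.1]⟩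
    linarith
  have h2 : |u - a - b| / (ρ / θ) ≤ |u' - a - b| / (2 * ρ) + 1 := by
    have h3 : |u - a - b| / (ρ / θ) ≤ |u' - a - b| / (ρ / θ) + 1 := by
      rw [div_add_one (by positivity)]
      exact div_le_div_of_nonneg_right h1 (by positivity)
    have h4 : |u' - a - b| / (ρ / θ) ≤ |u' - a - b| / (2 * ρ) := by
      refine div_le_div_of_nonneg_left (abs_nonneg _) (by positivity) ?_
      rw [le_div_iff₀ hθ]
      nlinarith
    linarith
  have h5 : |u' - a - b| / ρ = 2 * (|u' - a - b| / (2 * ρ)) := by field_simp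
  rw [← sub_sub, neg_div, neg_div, neg_div, h5]
  linarith

/-- Mass of the tubes in a square of side `2 ρ / θ`. -/
theorem KT_box (ν : Measure (ℝ × ℝ × ℝ × ℝ)) [SFinite ν] {ρ θ : ℝ} (hρ : 0 < ρ) (hθ : 0 < θ)
    (hθ1 : θ ≤ 1 / 2) (h u v : ℝ) :
    ∫⁻ q in Set.Icc (u - ρ / θ) (u + ρ / θ) ×ˢ Set.Icc (v - ρ / θ) (v + ρ / θ), KT ν ρ h q.1 q.2 ≤
      ENNReal.ofReal (16 * Real.exp 2 * ρ ^ 2) * KT ν (ρ / θ) h u v := by
  unfold KT
  have hm : Measurable (Function.uncurry fun (q : ℝ × ℝ) (p : ℝ × ℝ × ℝ × ℝ) =>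
      kt ρ p h q.1 q.2) := by
    unfold kt Function.uncurry
    fun_prop
  rw [lintegral_lintegral_swap hm.aemeasurable,
    ← lintegral_const_mul' _ _ ENNReal.ofReal_ne_top]
  refine lintegral_mono fun p => ?_
  calc _ ≤ ∫⁻ q in Set.Icc (u - ρ / θ) (u + ρ / θ) ×ˢ Set.Icc (v - ρ / θ) (v + ρ / θ),
        (ENNReal.ofReal (Real.exp 2) * kt (ρ / θ) p h u v) *
          (ENNReal.ofReal (Real.exp (-|q.1 - (p.1 + p.2.2.1 * h)| / (2 * ρ))) *
            ENNReal.ofReal (Real.exp (-|q.2 - (p.2.1 + p.2.2.2 * h)| / (2 * ρ)))) := by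
        refine setLIntegral_mono' (measurableSet_Icc.prod measurableSet_Icc) fun q hq => ?_
        unfold kt
        rw [← ENNReal.ofReal_mul (Real.exp_pos _).le, ← ENNReal.ofReal_mul (Real.exp_pos _).le,
          ← ENNReal.ofReal_mul (by positivity), ← Real.exp_add, ← Real.exp_add, ← Real.exp_add]
        refine ENNReal.ofReal_le_ofReal (Real.exp_le_exp.2 ?_)
        have h1 := lw_one hρ hθ hθ1 (a := p.1) (b := p.2.2.1 * h) hq.1
        have h2 := lw_one hρ hθ hθ1 (a := p.2.1) (b := p.2.2.2 * h) hq.2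
        rw [neg_add, add_div, neg_add, add_div]
        linarith
    _ ≤ ∫⁻ q : ℝ × ℝ, (ENNReal.ofReal (Real.exp 2) * kt (ρ / θ) p h u v) *
          (ENNReal.ofReal (Real.exp (-|q.1 - (p.1 + p.2.2.1 * h)| / (2 * ρ))) *
            ENNReal.ofReal (Real.exp (-|q.2 - (p.2.1 + p.2.2.2 * h)| / (2 * ρ)))) :=
        setLIntegral_le_lintegral _ _
    _ = _ := by
        have := lintegral_prod_mul (μ := (volume : Measure ℝ)) (ν := (volume : Measure ℝ))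
          (f := fun s => ENNReal.ofReal (Real.exp (-|s - (p.1 + p.2.2.1 * h)| / (2 * ρ))))
          (g := fun s => ENNReal.ofReal (Real.exp (-|s - (p.2.1 + p.2.2.2 * h)| / (2 * ρ))))
          (by fun_prop) (by fun_prop)
        rw [lw_exp hρ, lw_exp hρ] at this
        rw [lintegral_const_mul _ (by fun_prop), Measure.volume_eq_prod, this,
          ← ENNReal.ofReal_mul (by positivity), mul_right_comm,
          ← ENNReal.ofReal_mul (by positivity)]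
        congr 2
        ring

lemma lw_shift {ρ θ : ℝ} (hθ : 0 < θ) {α h h' : ℝ} (hα : |α| ≤ θ) (hh : |h - h'| ≤ ρ / θ)
    (w : ℝ) : |w - α * h'| ≤ |w - α * h| + ρ := by
  have h1 : |α * (h - h')| ≤ ρ := by
    rw [abs_mul]
    calc _ ≤ θ * (ρ / θ) := mul_le_mul hα hh (abs_nonneg _) hθ.le
      _ = ρ := by field_simp
  have h2 : w - α * h' = (w - α * h) + α * (h - h') := by ring
  rw [h2]
  exact (abs_add_le _ _).trans (by linarith)

/-- Tubes with small slopes are almost vertical on the scale `ρ / θ`. -/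
theorem KT_shift (ν : Measure (ℝ × ℝ × ℝ × ℝ)) {ρ θ : ℝ} (hρ : 0 < ρ) (hθ : 0 < θ)
    (hν : ∀ᵐ q ∂ν, |q.2.2.1| ≤ θ ∧ |q.2.2.2| ≤ θ) {h h' : ℝ} (hh : |h - h'| ≤ ρ / θ) (u v : ℝ) :
    KT ν ρ h u v ≤ ENNReal.ofReal (Real.exp 2) * KT ν ρ h' u v := by
  unfold KT
  rw [← lintegral_const_mul' _ _ ENNReal.ofReal_ne_top]
  refine lintegral_mono_ae (hν.mono fun q hq => ?_)
  unfold kt
  rw [← ENNReal.ofReal_mul (Real.exp_pos _).le, ← Real.exp_add]
  refine ENNReal.ofReal_le_ofReal (Real.exp_le_exp.2 ?_)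
  have h1 := lw_shift hθ hq.1 hh (u - q.1)
  have h2 := lw_shift hθ hq.2 hh (v - q.2.1)
  rw [add_div' _ _ _ hρ.ne']
  exact div_le_div_of_nonneg_right (by linarith) hρ.le

end Pool.Agent.P.MP_f791b6_an
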