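import Pool.Agent.P.MP_f791b6_an.N3Defs

namespace Pool.Agent.P.MP_f791b6_an

open MeasureTheory Complex Metric
open scoped ComplexConjugate Real RealInnerProductSpace ENNReal

lemma lev_sq {h : E 3 → ℂ} (hm : Measurable h) (h1 : ∀ x, ‖h x‖ ≤ 1) (hi : Integrable h) :
    Integrable fun x => ‖h x‖ ^ 2 := by
  refine hi.norm.mono' (hm.norm.pow_const 2).aestronglyMeasurable
    (Filter.Eventually.of_forall fun x => ?_)
  rw [Real.norm_eq_abs, abs_of_nonneg (by positivity)]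
  nlinarith [h1 x, norm_nonneg (h x)]

lemma lev_mul {φ : E 3 → ℂ} (hφ : Measurable φ) {B : ℝ} (hB : ∀ x, ‖φ x‖ ≤ B) {h : E 3 → ℂ}
    (hi : Integrable h) : Integrable fun x => h x * φ x :=
  hi.mul_bdd hφ.aestronglyMeasurable (Filter.Eventually.of_forall hB)

lemma lev_ind {φ : E 3 → ℂ} (hφ : Measurable φ) {B : ℝ} (hB : ∀ x, ‖φ x‖ ≤ B) {A γ : ℝ}
    (hA : 0 ≤ A) (hγ1 : γ ≤ 1 / 2)
    (hyp : ∀ (h : E 3 → ℂ) (W : ℝ), Measurable h → (∀ x, ‖h x‖ ≤ 1) → Integrable h → 1 ≤ W →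
      ∫ x, ‖h x‖ ≤ W → ‖∫ x, h x * φ x‖ ≤ A * W ^ γ) (I : ℕ) :
    ∀ (h : E 3 → ℂ) (W V : ℝ), Measurable h → (∀ x, ‖h x‖ ≤ 1) → Integrable h → 1 ≤ W → 1 ≤ V →
      ∫ x, ‖h x‖ ^ 2 ≤ W → ∫ x, ‖h x‖ ≤ V →
      ‖∫ x, h x * φ x‖ ≤ A * (I * (2 * W) ^ γ + (2 ^ I)⁻¹ * (2 ^ I * V) ^ γ) := by
  induction I with
  | zero =>
    intro h W V hm h1 hi hW hV h2 h3
    simpa using hyp h V hm h1 hi hV h3
  | succ I ih =>
    intro h W V hm h1 hi hW hV h2 h3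
    have hS : MeasurableSet {x | 1 / 2 < ‖h x‖} := measurableSet_lt measurable_const hm.norm
    set g1 : E 3 → ℂ := {x | 1 / 2 < ‖h x‖}.indicator h with hg1
    set g2 : E 3 → ℂ := {x | 1 / 2 < ‖h x‖}ᶜ.indicator fun x => 2 * h x with hg2
    have m1 : Measurable g1 := hm.indicator hS
    have m2 : Measurable g2 := (hm.const_mul 2).indicator hS.compl
    have i1 : Integrable g1 := hi.indicator hS
    have i2 : Integrable g2 := (hi.const_mul 2).indicator hS.compl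
    have p : ∀ x, ‖g1 x‖ ≤ 1 ∧ ‖g1 x‖ ≤ 2 * ‖h x‖ ^ 2 ∧ ‖g2 x‖ ≤ 1 ∧ ‖g2 x‖ ≤ 2 * ‖h x‖ ∧
        h x = g1 x + 1 / 2 * g2 x := by
      intro x
      have hn := norm_nonneg (h x)
      by_cases hx : 1 / 2 < ‖h x‖
      · have e1 : g1 x = h x := Set.indicator_of_mem (s := {x | 1 / 2 < ‖h x‖}) hx _
        have e2 : g2 x = 0 :=
          Set.indicator_of_notMem (s := {x | 1 / 2 < ‖h x‖}ᶜ) (fun h' => h' hx) _
        rw [e1, e2, norm_zero]
        exact ⟨h1 x, by nlinarith, zero_le_one, by positivity, by ring⟩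
      · have e1 : g1 x = 0 := Set.indicator_of_notMem (s := {x | 1 / 2 < ‖h x‖}) hx _
        have e2 : g2 x = 2 * h x := Set.indicator_of_mem (s := {x | 1 / 2 < ‖h x‖}ᶜ) hx _
        rw [e1, e2, norm_zero, norm_mul, Complex.norm_two]
        exact ⟨zero_le_one, by positivity, by linarith [not_lt.1 hx], le_rfl, by ring⟩
    have b1 : ∫ x, ‖g1 x‖ ≤ 2 * W := by
      refine (integral_mono i1.norm ((lev_sq hm h1 hi).const_mul 2) fun x => (p x).2.1).trans ?_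
      rw [integral_const_mul]
      linarith
    have b2 : ∫ x, ‖g2 x‖ ^ 2 ≤ 4 * W := by
      refine (integral_mono (lev_sq m2 (fun x => (p x).2.2.1) i2)
        ((lev_sq hm h1 hi).const_mul 4) fun x => ?_).trans ?_
      · have := pow_le_pow_left₀ (norm_nonneg _) (p x).2.2.2.1 2
        show ‖g2 x‖ ^ 2 ≤ 4 * ‖h x‖ ^ 2
        linarith
      · rw [integral_const_mul]
        linarith
    have b3 : ∫ x, ‖g2 x‖ ≤ 2 * V := by
      refine (integral_mono i2.norm (hi.norm.const_mul 2) fun x => (p x).2.2.2.1).trans ?_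
      rw [integral_const_mul]
      linarith
    have c1 := hyp g1 (2 * W) m1 (fun x => (p x).1) i1 (by linarith) b1
    have c2 := ih g2 (4 * W) (2 * V) m2 (fun x => (p x).2.2.1) i2 (by linarith) (by linarith) b2 b3
    have e : ∫ x, h x * φ x = (∫ x, g1 x * φ x) + 1 / 2 * ∫ x, g2 x * φ x := by
      rw [← integral_const_mul, ← integral_add (lev_mul hφ hB i1) ((lev_mul hφ hB i2).const_mul _)]
      refine integral_congr_ae (Filter.Eventually.of_forall fun x => ?_)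
      show h x * φ x = g1 x * φ x + 1 / 2 * (g2 x * φ x)
      rw [(p x).2.2.2.2]
      ring
    have f1 : (2 * (4 * W)) ^ γ ≤ 2 * (2 * W) ^ γ := by
      rw [show 2 * (4 * W) = 4 * (2 * W) by ring, Real.mul_rpow (by norm_num) (by linarith)]
      refine mul_le_mul_of_nonneg_right ?_ (Real.rpow_nonneg (by linarith) _)
      refine (Real.rpow_le_rpow_of_exponent_le (by norm_num) hγ1).trans (le_of_eq ?_)
      rw [← Real.sqrt_eq_rpow, show (4 : ℝ) = 2 ^ 2 by norm_num, Real.sqrt_sq (by norm_num)]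
    have f2 : (I : ℝ) * (2 * (4 * W)) ^ γ ≤ I * (2 * (2 * W) ^ γ) :=
      mul_le_mul_of_nonneg_left f1 (Nat.cast_nonneg _)
    have f3 := mul_le_mul_of_nonneg_left f2 hA
    rw [e]
    refine (norm_add_le _ _).trans ?_
    rw [norm_mul, show ‖(1 / 2 : ℂ)‖ = 1 / 2 by simp,
      show (2 : ℝ) ^ (I + 1) * V = 2 ^ I * (2 * V) by ring, pow_succ, mul_inv]
    push_cast
    nlinarith

/-- Decomposition of a bounded function into level sets. -/
theorem level_bound {φ : E 3 → ℂ} (hφ : Measurable φ) {B : ℝ} (hB : ∀ x, ‖φ x‖ ≤ B) {A γ : ℝ}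
    (hA : 0 ≤ A) (hγ : 0 ≤ γ) (hγ1 : γ ≤ 1 / 2)
    (hyp : ∀ (h : E 3 → ℂ) (W : ℝ), Measurable h → (∀ x, ‖h x‖ ≤ 1) → Integrable h → 1 ≤ W →
      ∫ x, ‖h x‖ ≤ W → ‖∫ x, h x * φ x‖ ≤ A * W ^ γ)
    {h : E 3 → ℂ} (hm : Measurable h) (h1 : ∀ x, ‖h x‖ ≤ 1) (hi : Integrable h) {W V : ℝ}
    (hW : 1 ≤ W) (hV : 1 ≤ V) (h2 : ∫ x, ‖h x‖ ^ 2 ≤ W) (h3 : ∫ x, ‖h x‖ ≤ V) {I : ℕ}
    (hI : V ≤ 2 ^ I) : ‖∫ x, h x * φ x‖ ≤ A * (I * (2 * W) ^ γ + 1) := by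
  refine (lev_ind hφ hB hA hγ1 hyp I h W V hm h1 hi hW hV h2 h3).trans
    (mul_le_mul_of_nonneg_left (add_le_add_right ?_ _) hA)
  have hp : (0 : ℝ) < 2 ^ I := by positivity
  rw [inv_mul_le_iff₀ hp, mul_one]
  have k1 : (2 ^ I * V) ^ γ ≤ (2 ^ I * 2 ^ I : ℝ) ^ γ :=
    Real.rpow_le_rpow (by positivity) (mul_le_mul_of_nonneg_left hI hp.le) hγ
  have k2 : (1 : ℝ) ≤ 2 ^ I := hV.trans hI
  refine k1.trans ((Real.rpow_le_rpow_of_exponent_le (by nlinarith) hγ1).trans (le_of_eq ?_))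
  rw [← Real.sqrt_eq_rpow, Real.sqrt_mul_self hp.le]

end Pool.Agent.P.MP_f791b6_an
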