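import Pool.Agent.P.MP_f791b6_an.N4Main
import Pool.Agent.P.MP_f791b6_an.N3Core

namespace Pool.Agent.P.MP_f791b6_an

/-- Unbounded gain, uniform over all bounded open sets, in every dimension at least three. -/
theorem main_gain3 {n : ℕ} (hn : 3 ≤ n) (m : ℕ) : ∃ K : ℕ, ∀ Ω : Set (E n), IsOpen Ω →
    Bornology.IsBounded Ω → ∀ k : ℕ, K ≤ k → neumannEig Ω (k + m) ≤ dirichletEig Ω k := by
  rcases Nat.eq_or_lt_of_le hn with rfl | h4
  · exact main3 m
  · exact main_gain h4 m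

/-- Only finitely many pairs `(n, k)` with `3 ≤ n` can fail. -/
theorem main_finite3 (m : ℕ) : ∃ F : Finset (ℕ × ℕ), ∀ n k : ℕ, 3 ≤ n → 1 ≤ k → (n, k) ∉ F →
    ∀ Ω : Set (E n), IsOpen Ω → Bornology.IsBounded Ω →
      neumannEig Ω (k + n + m) ≤ dirichletEig Ω k := by
  obtain ⟨F, hF⟩ := main_finite m
  obtain ⟨K, hK⟩ := main3 (3 + m)
  refine ⟨F ∪ (Finset.range K).image fun k => (3, k), fun n k hn hk hn' Ω ho hb => ?_⟩
  rw [Finset.mem_union, not_or] at hn'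
  rcases Nat.eq_or_lt_of_le hn with rfl | h4
  · rw [add_assoc]
    refine hK Ω ho hb k ?_
    by_contra h2
    exact hn'.2 (Finset.mem_image.mpr ⟨k, Finset.mem_range.mpr (by omega), rfl⟩)
  · exact hF n k h4 hk hn'.1 Ω ho hb

end Pool.Agent.P.MP_f791b6_an
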