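import Pool.Agent.P.MP_f791b6_an.N3AH

namespace Pool.Agent.P.MP_f791b6_an

open MeasureTheory Complex Metric
open scoped ComplexConjugate Real RealInnerProductSpace ENNReal

lemma mass_lgw {T : ℝ} (hT : 0 < T) (x : E 3) :
    ∫⁻ y, ENNReal.ofReal (gw T (x - y)) = ENNReal.ofReal (T ^ 3) := by
  rw [lintegral_sub_left_eq_self (fun y => ENNReal.ofReal (gw T y)) x,
    ← ofReal_integral_eq_lintegral_ofReal (integrable_gw hT)
      (Filter.Eventually.of_forall fun y => (gw_pos T y).le), integral_gw hT]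

lemma mass_nsq {f : E 3 → ℂ} (hf : Amp f) :
    ENNReal.ofReal (nsq f) = ∫⁻ ξ, ENNReal.ofReal (‖f ξ‖ ^ 2) ∂sig :=
  ofReal_integral_eq_lintegral_ofReal hf.integrable_sq
    (Filter.Eventually.of_forall fun ξ => by positivity)

lemma mass_ah {f : E 3 → ℂ} (hf : Amp f) {T : ℝ} (hT : 0 < T) :
    ∫⁻ x, ENNReal.ofReal (gw T x) * ENNReal.ofReal (‖Ex f x‖ ^ 2) ≤
      ENNReal.ofReal T * ∫⁻ ξ, ENNReal.ofReal (‖f ξ‖ ^ 2) ∂sig := by
  have hc := hf.continuous_Ex
  have hi : Integrable fun x => gw T x * ‖Ex f x‖ ^ 2 := by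
    refine (integrable_gw hT).mul_bdd (c := √(nsq f) ^ 2) (by fun_prop)
      (Filter.Eventually.of_forall fun x => ?_)
    rw [Real.norm_eq_abs, abs_of_nonneg (by positivity)]
    exact pow_le_pow_left₀ (norm_nonneg _) (hf.norm_Ex_le x) 2
  have h := hf.ah hT 0
  simp only [sub_zero] at h
  simp only [← ENNReal.ofReal_mul (gw_pos T _).le]
  rw [← ofReal_integral_eq_lintegral_ofReal hi (Filter.Eventually.of_forall fun x =>
    mul_nonneg (gw_pos T x).le (by positivity)), ← mass_nsq hf, ← ENNReal.ofReal_mul hT.le]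
  exact ENNReal.ofReal_le_ofReal h

lemma mass_split {ρ T : ℝ} (hρ : 0 < ρ) (hρT : ρ ≤ T) (x x0 : E 3) :
    gw T x * gw (ρ / 2) (x - x0) ≤
      Real.exp (-(π / 2) * ‖x0‖ ^ 2 / T ^ 2) * gw ρ (x - x0) ^ 3 := by
  have hT : 0 < T := hρ.trans_le hρT
  simp only [gw, ← Real.exp_nat_mul, ← Real.exp_add]
  refine Real.exp_le_exp.2 ?_
  have h1 : ‖x0‖ ≤ ‖x‖ + ‖x - x0‖ := by
    have := norm_sub_le x (x - x0)
    rwa [sub_sub_cancel] at this
  have h2 : ‖x0‖ ^ 2 ≤ 2 * ‖x‖ ^ 2 + 2 * ‖x - x0‖ ^ 2 := by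
    nlinarith [pow_le_pow_left₀ (norm_nonneg _) h1 2, sq_nonneg (‖x‖ - ‖x - x0‖)]
  have h3 : π / T ^ 2 ≤ π / ρ ^ 2 :=
    div_le_div_of_nonneg_left Real.pi_pos.le (by positivity) (pow_le_pow_left₀ hρ.le hρT 2)
  have h4 : π / (ρ / 2) ^ 2 = 4 * (π / ρ ^ 2) := by field_simp; norm_num
  have h5 : -(π / 2) * ‖x0‖ ^ 2 / T ^ 2 = -(π / T ^ 2 * ‖x0‖ ^ 2 / 2) := by ring
  have h6 := mul_le_mul_of_nonneg_left h2 (show 0 ≤ π / T ^ 2 by positivity)
  have h7 := mul_le_mul_of_nonneg_right h3 (sq_nonneg ‖x - x0‖)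
  rw [h4, h5]
  push_cast
  linarith

/-- Total phase space mass in a ball of radius `T`. -/
theorem Amp.hus_mass {f : E 3 → ℂ} (hf : Amp f) {ρ b T : ℝ} (hρ : 0 < ρ) (hb : π * ρ ^ 2 / 2 ≤ b)
    (hT : 0 < T) : ∫⁻ x, ENNReal.ofReal (gw T x) * ∫⁻ ζ, ENNReal.ofReal (Hus f b ζ x) ≤
      ENNReal.ofReal (T / ρ ^ 3 * nsq f) := by
  have hb0 : 0 ≤ b := le_trans (by positivity) hb
  have hH := hf.continuous_Hus hb0
  have hm : Measurable fun p : E 3 × E 3 =>
      ENNReal.ofReal (gw T p.1) * ENNReal.ofReal (Hus f b p.2 p.1) :=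
    ((continuous_gw T).comp continuous_fst).measurable.ennreal_ofReal.mul
      (hH.comp continuous_swap).measurable.ennreal_ofReal
  have hf2 : Measurable fun ξ => ENNReal.ofReal (‖f ξ‖ ^ 2) :=
    (hf.meas.norm.pow_const 2).ennreal_ofReal
  have hm2 : Measurable fun p : E 3 × E 3 =>
      ENNReal.ofReal (‖f p.2‖ ^ 2) * ENNReal.ofReal (gw ρ⁻¹ (p.2 - p.1)) :=
    (hf2.comp measurable_snd).mul
      (by fun_prop : Continuous fun p : E 3 × E 3 => gw ρ⁻¹ (p.2 - p.1)).measurable.ennreal_ofReal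
  calc _ = ∫⁻ x, ∫⁻ ζ, ENNReal.ofReal (gw T x) * ENNReal.ofReal (Hus f b ζ x) :=
        lintegral_congr fun x => (lintegral_const_mul' _ _ ENNReal.ofReal_ne_top).symm
    _ = ∫⁻ ζ, ∫⁻ x, ENNReal.ofReal (gw T x) * ENNReal.ofReal (Hus f b ζ x) :=
        lintegral_lintegral_swap hm.aemeasurable
    _ ≤ ∫⁻ ζ, ENNReal.ofReal T *
          ∫⁻ ξ, ENNReal.ofReal (‖f ξ‖ ^ 2) * ENNReal.ofReal (gw ρ⁻¹ (ξ - ζ)) ∂sig := by
        refine lintegral_mono fun ζ => (mass_ah (hf.mul (amp_gauss hb0 ζ)) hT).trans ?_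
        refine mul_le_mul_right (lintegral_mono fun ξ => ?_) _
        rw [← ENNReal.ofReal_mul (by positivity)]
        refine ENNReal.ofReal_le_ofReal ?_
        rw [norm_mul, mul_pow, Complex.norm_real, Real.norm_eq_abs, sq_abs, ← Real.exp_nat_mul, gw]
        refine mul_le_mul_of_nonneg_left (Real.exp_le_exp.2 ?_) (by positivity)
        have e : π / ρ⁻¹ ^ 2 = π * ρ ^ 2 := by field_simp
        have := mul_le_mul_of_nonneg_right hb (sq_nonneg ‖ξ - ζ‖)
        rw [e]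
        push_cast
        linarith
    _ = ENNReal.ofReal T * ∫⁻ ξ, ∫⁻ ζ,
          ENNReal.ofReal (‖f ξ‖ ^ 2) * ENNReal.ofReal (gw ρ⁻¹ (ξ - ζ)) ∂volume ∂sig := by
        rw [lintegral_const_mul' _ _ ENNReal.ofReal_ne_top,
          lintegral_lintegral_swap hm2.aemeasurable]
    _ = ENNReal.ofReal T * (ENNReal.ofReal (nsq f) * ENNReal.ofReal (ρ⁻¹ ^ 3)) := by
        rw [mass_nsq hf, ← lintegral_mul_const _ hf2]
        congr 1
        refine lintegral_congr fun ξ => ?_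
        rw [lintegral_const_mul' _ _ ENNReal.ofReal_ne_top, mass_lgw (inv_pos.2 hρ)]
    _ = _ := by
        rw [← ENNReal.ofReal_mul (nsq_nonneg f), ← ENNReal.ofReal_mul hT.le]
        congr 1
        field_simp

/-- Total size of the local weights. -/
theorem Wt.w0 {H : E 3 → ℝ} (hH : Wt H) {ρ : ℝ} (hρ : 0 < ρ) :
    Measurable (W0 H ρ) ∧ (∀ x0, 0 ≤ W0 H ρ x0) ∧
      ∫⁻ x0, ENNReal.ofReal (W0 H ρ x0) = ENNReal.ofReal (ρ ^ 3 * ∫ x, H x) := by
  have hm : Measurable fun p : E 3 × E 3 => H p.2 * gw ρ (p.2 - p.1) :=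
    (hH.meas.comp measurable_snd).mul
      (by fun_prop : Continuous fun p : E 3 × E 3 => gw ρ (p.2 - p.1)).measurable
  refine ⟨(hm.stronglyMeasurable.integral_prod_right' (ν := volume)).measurable,
    fun x0 => integral_nonneg fun x => mul_nonneg (hH.nonneg x) (gw_pos _ _).le, ?_⟩
  have hi : ∀ x0, Integrable fun x => H x * gw ρ (x - x0) := fun x0 =>
    hH.int.mul_bdd (c := 1) (by fun_prop) (Filter.Eventually.of_forall fun x => by
      rw [Real.norm_eq_abs, abs_of_pos (gw_pos _ _)]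
      exact gw_le_one _ _)
  calc _ = ∫⁻ x0, ∫⁻ x, ENNReal.ofReal (H x * gw ρ (x - x0)) :=
        lintegral_congr fun x0 => ofReal_integral_eq_lintegral_ofReal (hi x0)
          (Filter.Eventually.of_forall fun x => mul_nonneg (hH.nonneg x) (gw_pos _ _).le)
    _ = ∫⁻ x, ∫⁻ x0, ENNReal.ofReal (H x * gw ρ (x - x0)) :=
        lintegral_lintegral_swap hm.ennreal_ofReal.aemeasurable
    _ = ∫⁻ x, ENNReal.ofReal (ρ ^ 3) * ENNReal.ofReal (H x) := by
        refine lintegral_congr fun x => ?_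
        simp only [ENNReal.ofReal_mul (hH.nonneg x)]
        rw [lintegral_const_mul' _ _ ENNReal.ofReal_ne_top, mass_lgw hρ, mul_comm]
    _ = _ := by
        rw [lintegral_const_mul' _ _ ENNReal.ofReal_ne_top, ENNReal.ofReal_mul (by positivity),
          ofReal_integral_eq_lintegral_ofReal hH.int (Filter.Eventually.of_forall hH.nonneg)]

/-- Partition of unity by Gaussians of width `ρ`. -/
theorem gw_partition {Φ : E 3 → ℝ} (hΦ : Integrable Φ) (hΦ0 : ∀ x, 0 ≤ Φ x) {ρ T : ℝ}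
    (hρ : 0 < ρ) (hρT : ρ ≤ T) : ENNReal.ofReal (∫ x, gw T x * Φ x) ≤
      ENNReal.ofReal (8 / ρ ^ 3) * ∫⁻ x0, ENNReal.ofReal
        (Real.exp (-(π / 2) * ‖x0‖ ^ 2 / T ^ 2) * ∫ x, gw ρ (x - x0) ^ 3 * Φ x) := by
  have hi : ∀ g : E 3 → ℝ, Continuous g → (∀ x, 0 ≤ g x) → (∀ x, g x ≤ 1) →
      ENNReal.ofReal (∫ x, g x * Φ x) = ∫⁻ x, ENNReal.ofReal (g x * Φ x) := fun g hg g0 g1 =>
    ofReal_integral_eq_lintegral_ofReal (hΦ.bdd_mul (c := 1) hg.aestronglyMeasurable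
      (Filter.Eventually.of_forall fun x => by rw [Real.norm_eq_abs, abs_of_nonneg (g0 x)]; exact g1 x))
      (Filter.Eventually.of_forall fun x => mul_nonneg (g0 x) (hΦ0 x))
  have hm : AEMeasurable (fun p : E 3 × E 3 => ENNReal.ofReal
      (Real.exp (-(π / 2) * ‖p.2‖ ^ 2 / T ^ 2) * (gw ρ (p.1 - p.2) ^ 3 * Φ p.1)))
      (volume.prod volume) := by
    have h1 : Continuous fun p : E 3 × E 3 => Real.exp (-(π / 2) * ‖p.2‖ ^ 2 / T ^ 2) := by
      fun_prop
    have h2 : Continuous fun p : E 3 × E 3 => gw ρ (p.1 - p.2) ^ 3 := by fun_prop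
    exact (h1.measurable.aemeasurable.mul
      (h2.measurable.aemeasurable.mul hΦ.aemeasurable.comp_fst)).ennreal_ofReal
  calc _ = ∫⁻ x, ENNReal.ofReal (gw T x * Φ x) :=
        hi _ (continuous_gw T) (fun x => (gw_pos _ _).le) (gw_le_one T)
    _ ≤ ∫⁻ x, ENNReal.ofReal (8 / ρ ^ 3) * ∫⁻ x0, ENNReal.ofReal
          (Real.exp (-(π / 2) * ‖x0‖ ^ 2 / T ^ 2) * (gw ρ (x - x0) ^ 3 * Φ x)) := by
        refine lintegral_mono fun x => ?_
        have h0 : 0 ≤ gw T x * Φ x := mul_nonneg (gw_pos _ _).le (hΦ0 x)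
        have e : ENNReal.ofReal (gw T x * Φ x) = ENNReal.ofReal (8 / ρ ^ 3) *
            ∫⁻ x0, ENNReal.ofReal (gw T x * Φ x) * ENNReal.ofReal (gw (ρ / 2) (x - x0)) := by
          rw [lintegral_const_mul' _ _ ENNReal.ofReal_ne_top, mass_lgw (half_pos hρ),
            ← ENNReal.ofReal_mul h0, ← ENNReal.ofReal_mul (by positivity)]
          congr 1
          field_simp
          norm_num
        simp only
        rw [e]
        refine mul_le_mul_right (lintegral_mono fun x0 => ?_) _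
        rw [← ENNReal.ofReal_mul h0]
        refine ENNReal.ofReal_le_ofReal ?_
        have := mul_le_mul_of_nonneg_right (mass_split hρ hρT x x0) (hΦ0 x)
        linarith
    _ = _ := by
        rw [lintegral_const_mul' _ _ ENNReal.ofReal_ne_top, lintegral_lintegral_swap hm]
        congr 1
        refine lintegral_congr fun x0 => ?_
        rw [ENNReal.ofReal_mul (Real.exp_pos _).le, hi _ (by fun_prop)
          (fun x => pow_nonneg (gw_pos _ _).le 3)
          (fun x => pow_le_one₀ (gw_pos _ _).le (gw_le_one _ _)),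
          ← lintegral_const_mul' _ _ ENNReal.ofReal_ne_top]
        simp only [ENNReal.ofReal_mul (Real.exp_pos _).le]

end Pool.Agent.P.MP_f791b6_an
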