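import Pool.Agent.P.MP_f791b6_an.N3Defs

namespace Pool.Agent.P.MP_f791b6_an

open MeasureTheory Complex Metric
open scoped ComplexConjugate Real RealInnerProductSpace ENNReal

/-- Trace count with an off-diagonal block: `sd` marks the two sides. -/
theorem exists_neg_block {F : Type*} [Fintype F] [DecidableEq F] (Q : Matrix F F ℂ)
    (hQ : Q.IsHermitian) (hd : ∀ f, Q f f = 0) (sd : F → Bool) {τ β : ℝ} (hτ : 0 < τ) (hβ : 0 < β)
    {m : ℕ} (h1 : ∀ c : F → ℂ, -(τ * ∑ f, ‖c f‖ ^ 2) ≤ qf Q c)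
    (h2 : ∀ c : F → ℂ, ‖∑ f, ∑ g, if sd f = true ∧ sd g = false then conj (c f) * Q f g * c g else 0‖ ≤
      β * ∑ f, ‖c f‖ ^ 2)
    (h : 2 * (m * (τ * β)) ≤ ∑ f, ∑ g, if sd f = true ∧ sd g = false then ‖Q f g‖ ^ 2 else 0) :
    ∃ Φ : (Fin m → ℂ) →ₗ[ℂ] (F → ℂ), ∀ a, a ≠ 0 → qf Q (Φ a) < 0 := by
  set B : Matrix F F ℂ := Matrix.of fun f g =>
    (if f = g then (β : ℂ) else 0) - if sd f = true ∧ sd g = false then Q f g else 0 with hB
  have hq : ∀ c : F → ℂ, qf B c = β * ∑ f, ‖c f‖ ^ 2 -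
      (∑ f, ∑ g, if sd f = true ∧ sd g = false then conj (c f) * Q f g * c g else 0).re := by
    intro c
    rw [qf_eq, Finset.mul_sum, Complex.re_sum, Complex.re_sum, ← Finset.sum_sub_distrib]
    refine Finset.sum_congr rfl fun f _ => ?_
    simp only [hB, Matrix.of_apply, mul_sub, sub_mul, Finset.sum_sub_distrib, mul_ite, ite_mul,
      mul_zero, zero_mul, Finset.sum_ite_eq, Finset.mem_univ, if_true, Complex.sub_re]
    congr 1
    rw [mul_right_comm, Complex.conj_mul', ← Complex.ofReal_pow, ← Complex.ofReal_mul,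
      Complex.ofReal_re, mul_comm]
  refine exists_neg_space Q B hQ τ (2 * β) m hτ (by positivity) h1 (fun c => ?_) (fun c => ?_) ?_
  · rw [hq]
    linarith [(Complex.re_le_norm _).trans (h2 c)]
  · rw [hq]
    linarith [(abs_le.1 ((Complex.abs_re_le_norm _).trans (h2 c))).1]
  · have e : (Matrix.trace (Q * B)).re =
        -∑ f, ∑ g, if sd f = true ∧ sd g = false then ‖Q f g‖ ^ 2 else 0 := by
      rw [Matrix.trace_mul_comm, Matrix.trace, Complex.re_sum, ← Finset.sum_neg_distrib]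
      refine Finset.sum_congr rfl fun f _ => ?_
      simp only [Matrix.diag, Matrix.mul_apply, hB, Matrix.of_apply, sub_mul,
        Finset.sum_sub_distrib, ite_mul, zero_mul, Finset.sum_ite_eq, Finset.mem_univ, if_true, hd,
        mul_zero, zero_sub, Complex.neg_re, Complex.re_sum]
      congr 1
      refine Finset.sum_congr rfl fun g _ => ?_
      split_ifs
      · rw [← hQ.apply g f, RCLike.star_def, Complex.mul_conj', ← Complex.ofReal_pow,
          Complex.ofReal_re]
      · rfl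
    rw [e]
    linarith

end Pool.Agent.P.MP_f791b6_an
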