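import Pool.Agent.P.MP_f791b6_an.Vol

namespace Pool.Agent.P.MP_f791b6_an

open MeasureTheory Metric
open scoped Real RealInnerProductSpace

theorem om_three : om 3 = 4 * π / 3 := by
  unfold om
  rw [Measure.real, EuclideanSpace.volume_ball_fin_three]
  rw [ENNReal.ofReal_one, one_pow, one_mul, ENNReal.toReal_ofReal (by positivity)]
  ring

/-- Height and horizontal part as coordinates of space. -/
noncomputable def sliceEq : ℝ × E 2 ≃ᵐ E 3 :=
  ((MeasurableEquiv.refl ℝ).prodCongr (MeasurableEquiv.toLp 2 (Fin 2 → ℝ)).symm).trans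
    ((MeasurableEquiv.piFinSuccAbove (fun _ : Fin 3 => ℝ) 0).symm.trans
      (MeasurableEquiv.toLp 2 (Fin 3 → ℝ)))

lemma slice_mp : MeasurePreserving sliceEq := by
  have h1 : MeasurePreserving
      ((MeasurableEquiv.refl ℝ).prodCongr (MeasurableEquiv.toLp 2 (Fin 2 → ℝ)).symm) :=
    (MeasurePreserving.id (volume : Measure ℝ)).prod (PiLp.volume_preserving_ofLp (Fin 2))
  have h2 : MeasurePreserving (MeasurableEquiv.piFinSuccAbove (fun _ : Fin 3 => ℝ) 0).symm :=
    (volume_preserving_piFinSuccAbove (fun _ : Fin 3 => ℝ) 0).symm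
  have h3 : MeasurePreserving (MeasurableEquiv.toLp 2 (Fin 3 → ℝ)) :=
    PiLp.volume_preserving_toLp (Fin 3)
  exact h1.trans (h2.trans h3)

lemma slice_zero (p : ℝ × E 2) : sliceEq p 0 = p.1 := rfl

lemma slice_one (p : ℝ × E 2) : sliceEq p 1 = p.2 0 := rfl

lemma slice_two (p : ℝ × E 2) : sliceEq p 2 = p.2 1 := rfl

lemma slice_norm (p : ℝ × E 2) : ‖sliceEq p‖ ^ 2 = p.1 ^ 2 + ‖p.2‖ ^ 2 := by
  rw [EuclideanSpace.norm_sq_eq, EuclideanSpace.norm_sq_eq, Fin.sum_univ_three, Fin.sum_univ_two,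
    slice_zero, slice_one, slice_two]
  simp only [Real.norm_eq_abs, sq_abs]
  ring

lemma slice_mem {R : ℝ} (hR : 0 < R) (s : ℝ) (y : E 2) :
    sliceEq (s, y) ∈ closedBall (0 : E 3) R ↔ s ^ 2 + ‖y‖ ^ 2 ≤ R ^ 2 := by
  rw [mem_closedBall_zero_iff, ← slice_norm (s, y)]
  exact (pow_le_pow_iff_left₀ (norm_nonneg _) hR.le two_ne_zero).symm

lemma slice_inner {R : ℝ} (hR : 0 < R) (φ : ℝ → ℝ) (s : ℝ) :
    ∫ y : E 2, (closedBall (0 : E 3) R).indicator (fun z : E 3 => φ (z 0)) (sliceEq (s, y)) =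
      (Set.Icc (-R) R).indicator (fun s => π * (R ^ 2 - s ^ 2) * φ s) s := by
  by_cases hs : s ∈ Set.Icc (-R) R
  · have h0 : 0 ≤ R ^ 2 - s ^ 2 := by nlinarith [hs.1, hs.2]
    have h1 : ∀ y : E 2, (closedBall (0 : E 3) R).indicator (fun z : E 3 => φ (z 0))
        (sliceEq (s, y)) =
        (closedBall (0 : E 2) √(R ^ 2 - s ^ 2)).indicator (fun _ => φ s) y := fun y => by
      have h2 : sliceEq (s, y) ∈ closedBall (0 : E 3) R ↔
          y ∈ closedBall (0 : E 2) √(R ^ 2 - s ^ 2) := by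
        rw [slice_mem hR, mem_closedBall_zero_iff, Real.le_sqrt (norm_nonneg _) h0]
        constructor <;> intro h <;> linarith
      by_cases hy : y ∈ closedBall (0 : E 2) √(R ^ 2 - s ^ 2)
      · rw [Set.indicator_of_mem hy, Set.indicator_of_mem (h2.2 hy), slice_zero]
      · rw [Set.indicator_of_notMem hy, Set.indicator_of_notMem fun h => hy (h2.1 h)]
    simp only [h1]
    rw [integral_indicator measurableSet_closedBall, setIntegral_const, Set.indicator_of_mem hs,
      Measure.real, EuclideanSpace.volume_closedBall_fin_two, ENNReal.toReal_mul,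
      ENNReal.toReal_pow, ENNReal.toReal_ofReal (Real.sqrt_nonneg _),
      ENNReal.toReal_ofReal Real.pi_pos.le, Real.sq_sqrt h0, smul_eq_mul]
    ring
  · have h1 : ∀ y : E 2, (closedBall (0 : E 3) R).indicator (fun z : E 3 => φ (z 0))
        (sliceEq (s, y)) = 0 := fun y => by
      refine Set.indicator_of_notMem (fun h => hs ?_) _
      rw [slice_mem hR] at h
      have h2 : s ^ 2 ≤ R ^ 2 := by nlinarith [sq_nonneg ‖y‖]
      exact abs_le.1 (abs_le_of_sq_le_sq h2 hR.le)
    simp only [h1]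
    rw [integral_zero, Set.indicator_of_notMem hs]

lemma slice_axis {φ : ℝ → ℝ} (hφ : Continuous φ) {R : ℝ} (hR : 0 < R) :
    ∫ z in closedBall (0 : E 3) R, φ (z 0) = ∫ s in (-R)..R, π * (R ^ 2 - s ^ 2) * φ s := by
  have hc : Continuous fun z : E 3 => φ (z 0) := hφ.comp (by fun_prop)
  have hi : Integrable ((closedBall (0 : E 3) R).indicator fun z : E 3 => φ (z 0)) :=
    (integrable_indicator_iff measurableSet_closedBall).2
      (hc.continuousOn.integrableOn_compact (isCompact_closedBall _ _))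
  have hi2 : Integrable (fun p : ℝ × E 2 =>
      (closedBall (0 : E 3) R).indicator (fun z : E 3 => φ (z 0)) (sliceEq p))
      ((volume : Measure ℝ).prod (volume : Measure (E 2))) :=
    (slice_mp.integrable_comp_emb sliceEq.measurableEmbedding).2 hi
  rw [← integral_indicator measurableSet_closedBall, ← slice_mp.integral_comp' ,
    Measure.volume_eq_prod, integral_prod _ hi2]
  simp only [slice_inner hR]
  rw [integral_indicator measurableSet_Icc, integral_Icc_eq_integral_Ioc,
    intervalIntegral.integral_of_le (by linarith)]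

/-- Slicing a ball by planes orthogonal to a unit vector. -/
theorem ball_slice {ω : E 3} (hω : ‖ω‖ = 1) {φ : ℝ → ℝ} (hφ : Continuous φ) {R : ℝ} (hR : 0 < R) :
    ∫ z in closedBall (0 : E 3) R, φ ⟪ω, z⟫ = ∫ s in (-R)..R, π * (R ^ 2 - s ^ 2) * φ s := by
  let e : E 3 := EuclideanSpace.single 0 1
  have he : ‖e‖ = ‖ω‖ := by simp [e, hω]
  let T : E 3 ≃ₗᵢ[ℝ] E 3 := Submodule.reflection (ℝ ∙ (e - ω))ᗮ
  have hT : T e = ω := Submodule.reflection_sub he
  have h1 : ∀ z : E 3, ⟪ω, T z⟫ = z 0 := fun z => by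
    rw [← hT, T.inner_map_map]
    simp [e, EuclideanSpace.inner_single_left]
  have h2 : T ⁻¹' closedBall (0 : E 3) R = closedBall (0 : E 3) R := by
    ext z
    simp
  rw [← slice_axis hφ hR,
    ← T.measurePreserving.setIntegral_preimage_emb T.toHomeomorph.measurableEmbedding, h2]
  simp only [h1]

end Pool.Agent.P.MP_f791b6_an
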