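import Pool.Agent.P.MP_f791b6_an.N3Sig0
import Pool.Agent.P.MP_f791b6_an.N3Slice

namespace Pool.Agent.P.MP_f791b6_an

open MeasureTheory Metric
open scoped Real RealInnerProductSpace

lemma sg_cont {σ : Measure (E 3)} [IsProbabilityMeasure σ] (hu : ∀ᵐ ξ ∂σ, ‖ξ‖ = 1)
    {f : E 3 → ℝ} (hf : Continuous f) : Continuous fun r : ℝ => ∫ ξ, f (r • ξ) ∂σ := by
  have h1 : σ.restrict (closedBall (0 : E 3) 1) = σ :=
    Measure.restrict_eq_self_of_ae_mem (hu.mono fun ξ h => by simp [h])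
  have h2 : Continuous fun r : ℝ => ∫ ξ in closedBall (0 : E 3) 1, f (r • ξ) ∂σ :=
    continuous_parametric_integral_of_continuous (f := fun (r : ℝ) (ξ : E 3) => f (r • ξ))
      (hf.comp (continuous_fst.smul continuous_snd)) (isCompact_closedBall _ _)
  rwa [h1] at h2

lemma sg_deriv {g : ℝ → ℝ} (hg : Continuous g) :
    HasDerivAt (fun R : ℝ => ∫ s in (-R)..R, g s) (g 1 + g (-1)) 1 := by
  have h1 := (hg.integral_hasStrictDerivAt 0 1).hasDerivAt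
  have h2 := ((hg.integral_hasStrictDerivAt 0 (-1)).hasDerivAt).comp (1 : ℝ)
    (hasDerivAt_neg (1 : ℝ))
  have h3 := h1.fun_sub h2
  have h4 : (fun R : ℝ => ∫ s in (-R)..R, g s) =
      fun R : ℝ => (∫ s in (0 : ℝ)..R, g s) - ∫ s in (0 : ℝ)..(-R), g s := by
    funext R
    exact (intervalIntegral.integral_interval_sub_left (hg.intervalIntegrable _ _)
      (hg.intervalIntegrable _ _)).symm
  have h5 : g 1 + g (-1) = g 1 - g (-1) * -1 := by ring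
  rw [h4, h5]
  exact h3

lemma sg_arch {σ : Measure (E 3)} [IsProbabilityMeasure σ] (hu : ∀ᵐ ξ ∂σ, ‖ξ‖ = 1)
    (hp : ∀ f : E 3 → ℝ, Continuous f → ∀ r1 r2 : ℝ, 0 < r1 → r1 ≤ r2 →
      ∫ z in closedBall (0 : E 3) r2 \ ball 0 r1, f z =
        3 * om 3 * ∫ r in r1..r2, r ^ 2 * ∫ ξ, f (r • ξ) ∂σ)
    {ω : E 3} (hω : ‖ω‖ = 1) {φ : ℝ → ℝ} (hφ : Continuous φ) :
    ∫ ξ, φ ⟪ω, ξ⟫ ∂σ = (1 / 2) * ∫ s in (-1 : ℝ)..1, φ s := by
  have hf : Continuous fun z : E 3 => φ ⟪ω, z⟫ := hφ.comp (continuous_const.inner continuous_id)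
  have hA := sg_cont hu hf
  have hA2 : Continuous fun r : ℝ => r ^ 2 * ∫ ξ, φ ⟪ω, r • ξ⟫ ∂σ := (continuous_pow 2).mul hA
  have hφ2 : Continuous fun s : ℝ => s ^ 2 * φ s := (continuous_pow 2).mul hφ
  have d1 := (((hasDerivAt_pow 2 (1 : ℝ)).fun_mul (sg_deriv hφ)).fun_sub
    (sg_deriv hφ2)).const_mul π
  have d2 := (((hA2.integral_hasStrictDerivAt (1 / 2) 1).hasDerivAt).const_mul
    (3 * om 3)).const_add (∫ z in ball (0 : E 3) (1 / 2), φ ⟪ω, z⟫)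
  have e : (fun R : ℝ => π * (R ^ 2 * (∫ s in (-R)..R, φ s) - ∫ s in (-R)..R, s ^ 2 * φ s)) =ᶠ[nhds 1]
      fun R : ℝ => (∫ z in ball (0 : E 3) (1 / 2), φ ⟪ω, z⟫) +
        3 * om 3 * ∫ r in (1 / 2 : ℝ)..R, r ^ 2 * ∫ ξ, φ ⟪ω, r • ξ⟫ ∂σ := by
    filter_upwards [lt_mem_nhds (show (1 / 2 : ℝ) < 1 by norm_num)] with R hR
    have h1 := hp _ hf (1 / 2) R (by norm_num) hR.le
    rw [setIntegral_sdiff measurableSet_ball
      (hf.continuousOn.integrableOn_compact (isCompact_closedBall _ _))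
      (ball_subset_closedBall.trans (closedBall_subset_closedBall hR.le)),
      ball_slice hω hφ (by linarith)] at h1
    have hφ3 : Continuous fun s : ℝ => R ^ 2 * φ s := continuous_const.mul hφ
    rw [← h1, ← intervalIntegral.integral_const_mul, ← intervalIntegral.integral_sub
      (hφ3.intervalIntegrable _ _) (hφ2.intervalIntegrable _ _),
      ← intervalIntegral.integral_const_mul, add_sub_cancel]
    refine intervalIntegral.integral_congr fun s _ => ?_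
    ring
  have h2 := (d2.congr_of_eventuallyEq e).unique d1
  rw [om_three] at h2
  simp only [one_smul] at h2
  have h3 : π * (4 * ∫ ξ, φ ⟪ω, ξ⟫ ∂σ) = π * (2 * ∫ s in (-1 : ℝ)..1, φ s) := by
    push_cast at h2
    linear_combination h2
  have h4 := mul_left_cancel₀ Real.pi_ne_zero h3
  linarith

lemma sg_meas {σ : Measure (E 3)} [IsProbabilityMeasure σ] {ω : E 3}
    (h : ∀ φ : ℝ → ℝ, Continuous φ → ∫ ξ, φ ⟪ω, ξ⟫ ∂σ = (1 / 2) * ∫ s in (-1 : ℝ)..1, φ s)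
    {g : ℝ → ℝ} (hg : Measurable g) :
    ∫ ξ, g ⟪ω, ξ⟫ ∂σ = (1 / 2) * ∫ s in Set.Icc (-1 : ℝ) 1, g s := by
  have hm : Measurable fun ξ : E 3 => ⟪ω, ξ⟫ := (continuous_const.inner continuous_id).measurable
  have h0 : ∀ k : ℝ → ℝ, ∫ s, k s ∂((1 / 2 : NNReal) • volume.restrict (Set.Icc (-1 : ℝ) 1)) =
      (1 / 2) * ∫ s in Set.Icc (-1 : ℝ) 1, k s := by
    intro k
    rw [integral_smul_nnreal_measure]
    simp [NNReal.smul_def]
  have h1 : σ.map (fun ξ : E 3 => ⟪ω, ξ⟫) =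
      (1 / 2 : NNReal) • volume.restrict (Set.Icc (-1 : ℝ) 1) := by
    refine ext_of_forall_integral_eq_of_IsFiniteMeasure fun φ => ?_
    rw [integral_map hm.aemeasurable φ.continuous.aestronglyMeasurable, h0, h _ φ.continuous,
      intervalIntegral.integral_of_le (by norm_num), integral_Icc_eq_integral_Ioc]
  rw [← h0, ← h1, integral_map hm.aemeasurable hg.aestronglyMeasurable]

lemma sg_subst {F : ℝ → ℝ} (hF : Continuous F) {r1 r2 : ℝ} (h1 : 0 < r1) (h2 : r1 ≤ r2)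
    (h3 : r2 ≤ 2) :
    ∫ s in Set.Icc (-1 : ℝ) 1, (Set.Icc r1 r2).indicator F (√(2 - 2 * s)) =
      ∫ r in r1..r2, r * F r := by
  have hh : Continuous fun s : ℝ => F (√(2 - 2 * s)) := by fun_prop
  have e1 : (fun s : ℝ => (Set.Icc r1 r2).indicator F (√(2 - 2 * s))) =
      (Set.Icc (1 - r2 ^ 2 / 2) (1 - r1 ^ 2 / 2)).indicator fun s => F (√(2 - 2 * s)) := by
    funext s
    have e2 : √(2 - 2 * s) ∈ Set.Icc r1 r2 ↔ s ∈ Set.Icc (1 - r2 ^ 2 / 2) (1 - r1 ^ 2 / 2) := by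
      rw [Set.mem_Icc, Set.mem_Icc, Real.le_sqrt' h1, Real.sqrt_le_iff]
      constructor
      · rintro ⟨a, -, b⟩
        constructor <;> linarith
      · rintro ⟨a, b⟩
        exact ⟨by linarith, by linarith, by linarith⟩
    by_cases hs : s ∈ Set.Icc (1 - r2 ^ 2 / 2) (1 - r1 ^ 2 / 2)
    · rw [Set.indicator_of_mem hs, Set.indicator_of_mem (e2.2 hs)]
    · rw [Set.indicator_of_notMem hs, Set.indicator_of_notMem (fun h => hs (e2.1 h))]
  have hsub : Set.Icc (1 - r2 ^ 2 / 2) (1 - r1 ^ 2 / 2) ⊆ Set.Icc (-1 : ℝ) 1 :=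
    Set.Icc_subset_Icc (by nlinarith) (by nlinarith)
  have hab : 1 - r2 ^ 2 / 2 ≤ 1 - r1 ^ 2 / 2 := by nlinarith
  rw [e1, setIntegral_indicator measurableSet_Icc, Set.inter_eq_right.2 hsub,
    integral_Icc_eq_integral_Ioc, ← intervalIntegral.integral_of_le hab]
  have hd : ∀ x ∈ Set.uIcc r1 r2, HasDerivAt (fun r : ℝ => 1 - r ^ 2 / 2) (-x) x := by
    intro x _
    have := ((hasDerivAt_pow 2 x).div_const 2).const_sub 1
    have e : -(((2 : ℕ) : ℝ) * x ^ (2 - 1) / 2) = -x := by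
      push_cast
      ring
    rwa [e] at this
  have h4 := intervalIntegral.integral_comp_mul_deriv hd continuous_neg.continuousOn hh
  rw [intervalIntegral.integral_symm, ← h4, ← intervalIntegral.integral_neg]
  refine intervalIntegral.integral_congr fun r hr => ?_
  rw [Set.uIcc_of_le h2] at hr
  have e : 2 - 2 * (1 - r ^ 2 / 2) = r ^ 2 := by ring
  simp only [Function.comp, e, Real.sqrt_sq (h1.le.trans hr.1)]
  ring

lemma sg_pair {σ : Measure (E 3)} [IsProbabilityMeasure σ] (hu : ∀ᵐ ξ ∂σ, ‖ξ‖ = 1)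
    (h : ∀ ω : E 3, ‖ω‖ = 1 → ∀ φ : ℝ → ℝ, Continuous φ →
      ∫ ξ, φ ⟪ω, ξ⟫ ∂σ = (1 / 2) * ∫ s in (-1 : ℝ)..1, φ s)
    {F : ℝ → ℝ} (hF : Continuous F) {r1 r2 : ℝ} (h1 : 0 < r1) (h2 : r1 ≤ r2) (h3 : r2 ≤ 2) :
    ∫ p in {p : E 3 × E 3 | ‖p.1 - p.2‖ ∈ Set.Icc r1 r2}, F ‖p.1 - p.2‖ ∂(σ.prod σ) =
      (1 / 2) * ∫ r in r1..r2, r * F r := by
  have hn : Measurable fun p : E 3 × E 3 => ‖p.1 - p.2‖ :=
    (continuous_fst.sub continuous_snd).norm.measurable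
  have hI : Measurable ((Set.Icc r1 r2).indicator F) := hF.measurable.indicator measurableSet_Icc
  have hS : MeasurableSet {p : E 3 × E 3 | ‖p.1 - p.2‖ ∈ Set.Icc r1 r2} := hn measurableSet_Icc
  have e1 : ({p : E 3 × E 3 | ‖p.1 - p.2‖ ∈ Set.Icc r1 r2}.indicator fun p => F ‖p.1 - p.2‖) =
      fun p => (Set.Icc r1 r2).indicator F ‖p.1 - p.2‖ := by
    funext p
    by_cases hp : ‖p.1 - p.2‖ ∈ Set.Icc r1 r2
    · rw [Set.indicator_of_mem hp, Set.indicator_of_mem (by exact hp)]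
    · rw [Set.indicator_of_notMem hp, Set.indicator_of_notMem (by exact hp)]
  obtain ⟨C, hC⟩ := isCompact_Icc.exists_bound_of_continuousOn
    (hF.continuousOn (s := Set.Icc r1 r2))
  have hint : Integrable (fun p : E 3 × E 3 => (Set.Icc r1 r2).indicator F ‖p.1 - p.2‖)
      (σ.prod σ) := by
    refine Integrable.of_bound (hI.comp hn).aestronglyMeasurable (max C 0)
      (Filter.Eventually.of_forall fun p => ?_)
    by_cases hp : ‖p.1 - p.2‖ ∈ Set.Icc r1 r2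
    · rw [Set.indicator_of_mem hp]
      exact (hC _ hp).trans (le_max_left _ _)
    · rw [Set.indicator_of_notMem hp, norm_zero]
      exact le_max_right _ _
  rw [← integral_indicator hS, e1, integral_prod _ hint]
  have e2 : ∀ᵐ ξ ∂σ, ∫ η, (Set.Icc r1 r2).indicator F ‖ξ - η‖ ∂σ =
      (1 / 2) * ∫ r in r1..r2, r * F r := by
    filter_upwards [hu] with ξ hξ
    have hg : Measurable fun s : ℝ => (Set.Icc r1 r2).indicator F (√(2 - 2 * s)) :=
      hI.comp (by fun_prop)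
    rw [← sg_subst hF h1 h2 h3, ← sg_meas (h ξ hξ) hg]
    refine integral_congr_ae ?_
    filter_upwards [hu] with η hη
    have e3 : 2 - 2 * ⟪ξ, η⟫ = ‖ξ - η‖ ^ 2 := by
      rw [norm_sub_sq_real, hξ, hη]
      ring
    rw [e3, Real.sqrt_sq (norm_nonneg _)]
  rw [integral_congr_ae e2]
  simp

/-- Surface measure on the sphere: Archimedes formula and a lower bound for the law of the
difference of two independent points. -/
theorem exists_sig : ∃ σ : Measure (E 3), IsProbabilityMeasure σ ∧ (∀ᵐ ξ ∂σ, ‖ξ‖ = 1) ∧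
    (∀ ω : E 3, ‖ω‖ = 1 → ∀ φ : ℝ → ℝ, Continuous φ →
      ∫ ξ, φ ⟪ω, ξ⟫ ∂σ = (1 / 2) * ∫ s in (-1 : ℝ)..1, φ s) ∧
    ∀ f : E 3 → ℝ, Continuous f → (∀ z, 0 ≤ f z) → ∀ r1 r2 : ℝ, 0 < r1 → r1 ≤ r2 → r2 ≤ 2 →
      ∫ z in closedBall (0 : E 3) r2 \ ball 0 r1, f z ≤
        16 * π * ∫ p in {p : E 3 × E 3 | ‖p.1 - p.2‖ ∈ Set.Icc r1 r2}, f (p.1 - p.2)
          ∂(σ.prod σ) := by
  obtain ⟨σ, hσ, hu, hp, hq⟩ := exists_sig0
  have ha : ∀ ω : E 3, ‖ω‖ = 1 → ∀ φ : ℝ → ℝ, Continuous φ →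
      ∫ ξ, φ ⟪ω, ξ⟫ ∂σ = (1 / 2) * ∫ s in (-1 : ℝ)..1, φ s :=
    fun ω hω φ hφ => sg_arch hu hp hω hφ
  refine ⟨σ, hσ, hu, ha, fun f hf hf0 r1 r2 h1 h2 h3 => ?_⟩
  have hF := sg_cont hu hf
  rw [hp f hf r1 r2 h1 h2, hq f hf _ measurableSet_Icc, sg_pair hu ha hF h1 h2 h3, om_three]
  have h4 : ∫ r in r1..r2, r ^ 2 * ∫ ξ, f (r • ξ) ∂σ ≤
      ∫ r in r1..r2, 2 * (r * ∫ ξ, f (r • ξ) ∂σ) := by
    refine intervalIntegral.integral_mono_on h2
      (((continuous_pow 2).mul hF).intervalIntegrable _ _)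
      ((continuous_const.mul (continuous_id.mul hF)).intervalIntegrable _ _) fun r hr => ?_
    have h5 : 0 ≤ ∫ ξ, f (r • ξ) ∂σ := integral_nonneg fun ξ => hf0 _
    have h6 : 0 ≤ r * ∫ ξ, f (r • ξ) ∂σ := mul_nonneg (h1.le.trans hr.1) h5
    have h7 : r ≤ 2 := hr.2.trans h3
    nlinarith
  rw [intervalIntegral.integral_const_mul] at h4
  have := Real.pi_pos
  nlinarith

end Pool.Agent.P.MP_f791b6_an
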