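import Pool.Agent.P.MP_f791b6_an.N4Avg

namespace Pool.Agent.P.MP_f791b6_an

open MeasureTheory Metric

theorem sig0_mu (n : ℕ) : ∃ μ : Measure (avgG n), IsProbabilityMeasure μ ∧
    μ.IsMulLeftInvariant ∧ μ.IsMulRightInvariant := by
  have := avg_star (n := n)
  have := avg_compact (n := n)
  let μ : Measure (avgG n) := Measure.haarMeasure ⊤
  have hp : IsProbabilityMeasure μ :=
    ⟨by rw [← TopologicalSpace.PositiveCompacts.coe_top, Measure.haarMeasure_self]⟩
  refine ⟨μ, hp, inferInstance, ⟨fun u => ?_⟩⟩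
  have : IsProbabilityMeasure (μ.map (· * u)) :=
    Measure.isProbabilityMeasure_map (measurable_mul_const u).aemeasurable
  exact Measure.isHaarMeasure_eq_of_isProbabilityMeasure _ _

theorem sig0_ev {n : ℕ} (w : E n) : Continuous fun g : avgG n => (g : E n →L[ℝ] E n) w :=
  continuous_subtype_val.clm_apply continuous_const

theorem sig0_inv {n : ℕ} (μ : Measure (avgG n)) [μ.IsMulRightInvariant] (f : E n → ℝ)
    {v w : E n} (h : ‖v‖ = ‖w‖) : ∫ g : avgG n, f ((g : E n →L[ℝ] E n) v) ∂μ =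
      ∫ g : avgG n, f ((g : E n →L[ℝ] E n) w) ∂μ := by
  have := avg_star (n := n)
  let u : avgG n := Unitary.linearIsometryEquiv.symm (Submodule.reflection (ℝ ∙ (v - w))ᗮ)
  have hu : (u : E n →L[ℝ] E n) v = w := Submodule.reflection_sub h
  have := integral_mul_right_eq_self (μ := μ)
    (fun g : avgG n => f ((g : E n →L[ℝ] E n) v)) u
  refine this.symm.trans (integral_congr_ae (Filter.Eventually.of_forall fun g => ?_))
  show f ((g : E n →L[ℝ] E n) ((u : E n →L[ℝ] E n) v)) = _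
  rw [hu]

theorem sig0_polar {n : ℕ} (μ : Measure (avgG n)) [IsProbabilityMeasure μ] {f : E n → ℝ}
    (hf : Continuous f) (r1 r2 : ℝ) : ∫ z in closedBall (0 : E n) r2 \ ball 0 r1, f z =
      ∫ z in closedBall (0 : E n) r2 \ ball 0 r1, ∫ g : avgG n, f ((g : E n →L[ℝ] E n) z) ∂μ := by
  have : SFinite μ := inferInstance
  have := avg_compact (n := n)
  have hc := avg_cont hf
  set A := closedBall (0 : E n) r2 \ ball 0 r1 with hA
  have hK : IsCompact A := (isCompact_closedBall _ _).diff isOpen_ball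
  have hint : Integrable (Function.uncurry fun (z : E n) (g : avgG n) =>
      f ((g : E n →L[ℝ] E n) z)) ((volume.restrict A).prod μ) := by
    have h3 : IntegrableOn (fun p : E n × avgG n => f ((p.2 : E n →L[ℝ] E n) p.1))
        (A ×ˢ Set.univ) (volume.prod μ) :=
      hc.continuousOn.integrableOn_compact (hK.prod isCompact_univ)
    rw [IntegrableOn, ← Measure.prod_restrict, Measure.restrict_univ] at h3
    exact h3
  have hg : ∀ g : avgG n, ∫ z in A, f ((g : E n →L[ℝ] E n) z) = ∫ z in A, f z := fun g => by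
    let ρ := Unitary.linearIsometryEquiv g
    have h4 := ρ.measurePreserving.setIntegral_preimage_emb
      ρ.toHomeomorph.measurableEmbedding f A
    have h5 : ρ ⁻¹' A = A := by
      ext z
      simp [hA]
    rw [h5] at h4
    exact h4
  rw [integral_integral_swap hint]
  simp only [hg]
  simp

theorem sig0_pair {n : ℕ} (μ : Measure (avgG n)) [IsProbabilityMeasure μ] (σ : Measure (E n))
    [IsProbabilityMeasure σ] (h1 : ∀ᵐ ξ ∂σ, ‖ξ‖ = 1)
    (hσ : ∀ g : avgG n, MeasurePreserving (g : E n →L[ℝ] E n) σ σ) {f : E n → ℝ}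
    (hf : Continuous f) (A : Set ℝ) :
    ∫ p in {p : E n × E n | ‖p.1 - p.2‖ ∈ A}, f (p.1 - p.2) ∂(σ.prod σ) =
      ∫ p in {p : E n × E n | ‖p.1 - p.2‖ ∈ A},
        (∫ g : avgG n, f ((g : E n →L[ℝ] E n) (p.1 - p.2)) ∂μ) ∂(σ.prod σ) := by
  set S := {p : E n × E n | ‖p.1 - p.2‖ ∈ A} with hS
  obtain ⟨C, hC⟩ := (isCompact_closedBall (0 : E n) 2).exists_bound_of_continuousOn
    hf.continuousOn
  have hb : ∀ᵐ p ∂(σ.prod σ), ‖p.1 - p.2‖ ≤ 2 := by
    filter_upwards [Measure.quasiMeasurePreserving_fst.ae h1,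
      Measure.quasiMeasurePreserving_snd.ae h1] with p a1 a2
    linarith [norm_sub_le p.1 p.2]
  have hint : Integrable (Function.uncurry fun (p : E n × E n) (g : avgG n) =>
      f ((g : E n →L[ℝ] E n) (p.1 - p.2))) (((σ.prod σ).restrict S).prod μ) := by
    have hc : Continuous fun q : (E n × E n) × avgG n =>
        f ((q.2 : E n →L[ℝ] E n) (q.1.1 - q.1.2)) :=
      (avg_cont hf).comp (f := fun q : (E n × E n) × avgG n => (q.1.1 - q.1.2, q.2)) (by fun_prop)
    refine Integrable.of_bound hc.aestronglyMeasurable C ?_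
    filter_upwards [Measure.quasiMeasurePreserving_fst.ae (ae_restrict_of_ae (s := S) hb)]
      with q hq
    refine hC _ ?_
    rw [mem_closedBall_zero_iff, ContinuousLinearMap.norm_map_of_mem_unitary q.2.2]
    exact hq
  have hg : ∀ g : avgG n, ∫ p in S, f ((g : E n →L[ℝ] E n) (p.1 - p.2)) ∂(σ.prod σ) =
      ∫ p in S, f (p.1 - p.2) ∂(σ.prod σ) := fun g => by
    let ρ := Unitary.linearIsometryEquiv g
    have h4 := ((hσ g).prod (hσ g)).setIntegral_preimage_emb
      (ρ.toHomeomorph.prodCongr ρ.toHomeomorph).measurableEmbedding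
      (fun p => f (p.1 - p.2)) S
    have h5 : Prod.map (g : E n →L[ℝ] E n) (g : E n →L[ℝ] E n) ⁻¹' S = S := by
      ext p
      simp only [hS, Set.mem_preimage, Set.mem_ofPred_eq, Prod.map_fst, Prod.map_snd, ← map_sub,
        ContinuousLinearMap.norm_map_of_mem_unitary g.2]
    rw [h5] at h4
    simpa only [Prod.map_fst, Prod.map_snd, ← map_sub] using h4
  rw [integral_integral_swap hint]
  simp only [hg]
  simp

/-- The rotation invariant probability measure on the unit sphere: polar coordinates and the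
law of the difference of two independent points. -/
theorem exists_sig0 : ∃ σ : Measure (E 3), IsProbabilityMeasure σ ∧ (∀ᵐ ξ ∂σ, ‖ξ‖ = 1) ∧
    (∀ f : E 3 → ℝ, Continuous f → ∀ r1 r2 : ℝ, 0 < r1 → r1 ≤ r2 →
      ∫ z in closedBall (0 : E 3) r2 \ ball 0 r1, f z =
        3 * om 3 * ∫ r in r1..r2, r ^ 2 * ∫ ξ, f (r • ξ) ∂σ) ∧
    ∀ f : E 3 → ℝ, Continuous f → ∀ A : Set ℝ, MeasurableSet A →
      ∫ p in {p : E 3 × E 3 | ‖p.1 - p.2‖ ∈ A}, f (p.1 - p.2) ∂(σ.prod σ) =
        ∫ p in {p : E 3 × E 3 | ‖p.1 - p.2‖ ∈ A}, (∫ ω, f (‖p.1 - p.2‖ • ω) ∂σ) ∂(σ.prod σ) := by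
  have := avg_star (n := 3)
  obtain ⟨μ, _, _, _⟩ := sig0_mu 3
  obtain ⟨e, he⟩ : ∃ e : E 3, ‖e‖ = 1 := ⟨EuclideanSpace.single 0 1, by simp⟩
  have hm := (sig0_ev e).measurable
  obtain ⟨σ, hσ⟩ : ∃ σ : Measure (E 3), σ = μ.map fun g : avgG 3 => (g : E 3 →L[ℝ] E 3) e :=
    ⟨_, rfl⟩
  have hp : IsProbabilityMeasure σ := hσ ▸ Measure.isProbabilityMeasure_map hm.aemeasurable
  have h1 : ∀ᵐ ξ ∂σ, ‖ξ‖ = 1 := by
    rw [hσ, ae_map_iff hm.aemeasurable (isClosed_eq continuous_norm continuous_const).measurableSet]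
    exact Filter.Eventually.of_forall fun g =>
      (ContinuousLinearMap.norm_map_of_mem_unitary g.2 e).trans he
  have hF : ∀ f : E 3 → ℝ, Continuous f → ∀ w : E 3,
      ∫ g : avgG 3, f ((g : E 3 →L[ℝ] E 3) w) ∂μ = ∫ ω, f (‖w‖ • ω) ∂σ := fun f hf w => by
    rw [hσ, integral_map hm.aemeasurable (Continuous.aestronglyMeasurable (by fun_prop)),
      sig0_inv μ f (w := ‖w‖ • e) (by rw [norm_smul, he, mul_one, norm_norm])]
    simp only [map_smul]
  have hi : ∀ u : avgG 3, MeasurePreserving (u : E 3 →L[ℝ] E 3) σ σ := fun u => by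
    have hu := (u : E 3 →L[ℝ] E 3).continuous.measurable
    refine ⟨hu, ?_⟩
    rw [hσ, Measure.map_map hu hm]
    conv_rhs => rw [← map_mul_left_eq_self μ u, Measure.map_map hm (measurable_const_mul u)]
    rfl
  refine ⟨σ, hp, h1, fun f hf r1 r2 a1 a2 => ?_, fun f hf A _ => ?_⟩
  · rw [sig0_polar μ hf]
    simp only [hF f hf]
    exact_mod_cast avg_radial (n := 3) (by norm_num) (fun r => ∫ ξ, f (r • ξ) ∂σ) a1 a2
  · rw [sig0_pair μ σ h1 hi hf]
    simp only [hF f hf]

end Pool.Agent.P.MP_f791b6_an
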