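import Pool.Agent.P.MP_f791b6_an.N3Defs

namespace Pool.Agent.P.MP_f791b6_an

open MeasureTheory Complex Metric
open scoped ComplexConjugate Real RealInnerProductSpace ENNReal

lemma trans_cs {w g : E 3 → ℝ} (hw0 : ∀ z, 0 ≤ w z) (i0 : Integrable w)
    (i1 : Integrable fun z => w z * g z) (i2 : Integrable fun z => w z * g z ^ 2) :
    (∫ z, w z * g z) ^ 2 ≤ (∫ z, w z) * ∫ z, w z * g z ^ 2 := by
  have h := discrim_le_zero (a := ∫ z, w z) (b := 2 * ∫ z, w z * g z) (c := ∫ z, w z * g z ^ 2)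
    fun s => by
      have j0 : Integrable fun z => w z * (s * s) := i0.mul_const _
      have j1 : Integrable fun z => 2 * (w z * g z) * s := (i1.const_mul 2).mul_const s
      have j2 : Integrable fun z => w z * (s * s) + 2 * (w z * g z) * s := j0.add j1
      rw [← integral_mul_const, ← integral_const_mul, ← integral_mul_const, ← integral_add j0 j1,
        ← integral_add j2 i2]
      refine integral_nonneg fun z => ?_
      have := mul_nonneg (hw0 z) (sq_nonneg (s + g z))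
      simp only [Pi.zero_apply]
      linarith
  rw [discrim] at h
  linarith

lemma trans_ew (ζ ξ y z : E 3) : ew ζ z * ew ξ (y - z) = ew ξ y * conj (ew z (ξ - ζ)) := by
  rw [conj_ew, ew, ew, ew, ew, ← Complex.exp_add, ← Complex.exp_add, inner_neg_left,
    inner_sub_right, inner_sub_right, real_inner_comm ξ z, real_inner_comm ζ z]
  congr 1
  push_cast
  ring

lemma trans_conv {g : E 3 → ℂ} (hg : Amp g) {β : ℂ} (hβ : 0 < β.re) (ζ y : E 3) :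
    ∫ ξ, g ξ * Gc 3 β (ξ - ζ) * ew ξ y ∂sig =
      ∫ z, cexp (-β * ‖z‖ ^ 2) * ew ζ z * Ex g (y - z) := by
  have i1 : Integrable (Function.uncurry fun (z ξ : E 3) =>
      cexp (-β * ‖z‖ ^ 2) * g ξ * (ew ζ z * ew ξ (y - z))) (volume.prod sig) :=
    ((integrable_cgauss hβ).mul_prod hg.integrable).mul_bdd (c := 1) (by fun_prop)
      (Filter.Eventually.of_forall fun p => by simp)
  symm
  calc _ = ∫ z, ∫ ξ, cexp (-β * ‖z‖ ^ 2) * g ξ * (ew ζ z * ew ξ (y - z)) ∂sig := by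
        refine integral_congr_ae (Filter.Eventually.of_forall fun z => ?_)
        simp only [Ex]
        rw [← integral_const_mul]
        exact integral_congr_ae (Filter.Eventually.of_forall fun ξ => by ring)
    _ = ∫ ξ, (∫ z, cexp (-β * ‖z‖ ^ 2) * g ξ * (ew ζ z * ew ξ (y - z))) ∂sig :=
        integral_integral_swap i1
    _ = _ := by
        refine integral_congr_ae (Filter.Eventually.of_forall fun ξ => ?_)
        simp only [trans_ew]
        rw [← integral_gauss_ew hβ, ← integral_const_mul, ← integral_mul_const]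
        exact integral_congr_ae (Filter.Eventually.of_forall fun z => by ring)

lemma trans_norm {g : E 3 → ℂ} (hg : Amp g) {β : ℂ} {a : ℝ} (ha : 0 < a) (hβ : a ≤ β.re)
    (ζ y : E 3) : ‖∫ ξ, g ξ * Gc 3 β (ξ - ζ) * ew ξ y ∂sig‖ ^ 2 ≤
      (π / a) ^ ((3 : ℝ) / 2) * ∫ z, Real.exp (-a * ‖z‖ ^ 2) * ‖Ex g (y - z)‖ ^ 2 := by
  have hc : Continuous fun z => ‖Ex g (y - z)‖ :=
    (hg.continuous_Ex.comp (continuous_const.sub continuous_id)).norm
  have i0 := integrable_gauss (n := 3) ha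
  have i1 : Integrable fun z => Real.exp (-a * ‖z‖ ^ 2) * ‖Ex g (y - z)‖ :=
    i0.mul_bdd (c := √(nsq g)) hc.aestronglyMeasurable
      (Filter.Eventually.of_forall fun z => by rw [norm_norm]; exact hg.norm_Ex_le _)
  have i2 : Integrable fun z => Real.exp (-a * ‖z‖ ^ 2) * ‖Ex g (y - z)‖ ^ 2 :=
    i0.mul_bdd (c := √(nsq g) ^ 2) (hc.pow 2).aestronglyMeasurable
      (Filter.Eventually.of_forall fun z => by
        rw [norm_pow, norm_norm]
        exact pow_le_pow_left₀ (norm_nonneg _) (hg.norm_Ex_le _) 2)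
  have h := trans_cs (fun z => (Real.exp_pos _).le) i0 i1 i2
  rw [integral_gauss ha, Nat.cast_ofNat] at h
  refine le_trans (pow_le_pow_left₀ (norm_nonneg _) ?_ 2) h
  rw [trans_conv hg (ha.trans_le hβ)]
  refine norm_integral_le_of_norm_le i1 (Filter.Eventually.of_forall fun z => ?_)
  rw [norm_mul, norm_mul, norm_ew, mul_one, Complex.norm_exp, ← ofReal_pow, mul_comm (-β),
    re_ofReal_mul, neg_re]
  refine mul_le_mul_of_nonneg_right (Real.exp_le_exp.2 ?_) (norm_nonneg _)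
  nlinarith [sq_nonneg ‖z‖]

lemma trans_phase {ξ : E 3} (hξ : ‖ξ‖ = 1) (b t : ℝ) (ζ x : E 3) :
    ((Real.exp (-b * ‖ξ - ζ‖ ^ 2) : ℝ) : ℂ) * ew ξ x =
      cexp (I * ((-(π * t * (1 + ‖ζ‖ ^ 2)) : ℝ) : ℂ)) *
        (((Real.exp (-(b / 2) * ‖ξ - ζ‖ ^ 2) : ℝ) : ℂ) *
          cexp (-(((b / 2 : ℝ) : ℂ) - I * ((π * t : ℝ) : ℂ)) * ‖ξ - ζ‖ ^ 2) * ew ξ (x + t • ζ)) := by
  have h : ⟪ξ, ζ⟫ = (1 + ‖ζ‖ ^ 2 - ‖ξ - ζ‖ ^ 2) / 2 := by
    rw [norm_sub_sq_real, hξ]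
    ring
  rw [ew, ew, ofReal_exp, ofReal_exp, ← Complex.exp_add, ← Complex.exp_add, ← Complex.exp_add,
    ← Complex.exp_add, inner_add_right, real_inner_smul_right, h]
  congr 1
  push_cast
  ring

lemma trans_pow {x : ℝ} (hx : 0 ≤ x) : (x ^ ((3 : ℝ) / 2)) ^ 2 = x ^ 3 := by
  rw [← Real.rpow_natCast, ← Real.rpow_mul hx, ← Real.rpow_natCast]
  norm_num

/-- Transport of the phase space density along its frequency. -/
theorem Amp.transport {f : E 3 → ℂ} (hf : Amp f) {ρ t : ℝ} (hρ : 0 < ρ) (ht : |t| ≤ ρ ^ 2)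
    (ζ x : E 3) : Hus f (π * ρ ^ 2) ζ x ≤ 32 / ρ ^ 3 *
      ∫ y, Real.exp (-‖x + t • ζ - y‖ ^ 2 / ρ ^ 2) * Hus f (π * ρ ^ 2 / 2) ζ y := by
  have hπ := Real.pi_pos
  have hg := hf.mul (amp_gauss (b := π * ρ ^ 2 / 2) (by positivity) ζ)
  obtain ⟨c, hc⟩ : ∃ c : ℂ, c = ((π * ρ ^ 2 / 2 : ℝ) : ℂ) - I * ((π * t : ℝ) : ℂ) := ⟨_, rfl⟩
  have hre : c.re = π * ρ ^ 2 / 2 := by
    rw [hc, sub_re, ofReal_re, I_mul_re, ofReal_im, neg_zero, sub_zero]
  have him : c.im = -(π * t) := by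
    rw [hc, sub_im, ofReal_im, I_mul_im, ofReal_re, zero_sub]
  have hc0 : c ≠ 0 := fun h => by
    rw [h, zero_re] at hre
    exact absurd hre (by positivity)
  have hπc : (π : ℂ) ≠ 0 := ofReal_ne_zero.2 hπ.ne'
  have hβ : 2 * π / (5 * ρ ^ 2) ≤ ((π : ℂ) ^ 2 / c).re := by
    have ht2 : t ^ 2 ≤ (ρ ^ 2) ^ 2 := by
      rw [← sq_abs t]
      exact pow_le_pow_left₀ (abs_nonneg _) ht 2
    rw [← ofReal_pow, div_eq_mul_inv (_ : ℂ), re_ofReal_mul, inv_re, ← mul_div_assoc,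
      div_le_div_iff₀ (by positivity) (normSq_pos.2 hc0), normSq_apply, hre, him]
    nlinarith [mul_le_mul_of_nonneg_left ht2 (pow_pos hπ 3).le]
  have h1 := trans_norm hg (by positivity) hβ ζ (x + t • ζ)
  have h2 : ∫ ξ, f ξ * ((Real.exp (-(π * ρ ^ 2 / 2) * ‖ξ - ζ‖ ^ 2) : ℝ) : ℂ) *
      Gc 3 ((π : ℂ) ^ 2 / c) (ξ - ζ) * ew ξ (x + t • ζ) ∂sig =
      (c / π) ^ (((3 : ℕ) : ℂ) / 2) * cexp (I * ((π * t * (1 + ‖ζ‖ ^ 2) : ℝ) : ℂ)) *
        Ex (fun ξ => f ξ * ((Real.exp (-(π * ρ ^ 2) * ‖ξ - ζ‖ ^ 2) : ℝ) : ℂ)) x := by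
    rw [Ex, ← integral_const_mul]
    refine integral_congr_ae (sig_unit.mono fun ξ hξ => ?_)
    have e1 : (π : ℂ) / ((π : ℂ) ^ 2 / c) = c / π := by field_simp
    have e2 : -(π : ℂ) ^ 2 * (‖ξ - ζ‖ : ℂ) ^ 2 / ((π : ℂ) ^ 2 / c) = -c * (‖ξ - ζ‖ : ℂ) ^ 2 := by
      field_simp
    have e3 : cexp (I * ((π * t * (1 + ‖ζ‖ ^ 2) : ℝ) : ℂ)) *
        cexp (I * ((-(π * t * (1 + ‖ζ‖ ^ 2)) : ℝ) : ℂ)) = 1 := by
      rw [← Complex.exp_add, ofReal_neg, mul_neg, add_neg_cancel, Complex.exp_zero]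
    simp only
    rw [mul_assoc (f ξ) _ (ew ξ x), trans_phase hξ _ t ζ x, ← hc, Gc, e1, e2]
    linear_combination (-(c / π) ^ (((3 : ℕ) : ℂ) / 2) * f ξ *
      ((Real.exp (-(π * ρ ^ 2 / 2) * ‖ξ - ζ‖ ^ 2) : ℝ) : ℂ) * cexp (-c * (‖ξ - ζ‖ : ℂ) ^ 2) *
      ew ξ (x + t • ζ)) * e3
  have h3 : ‖(c / π) ^ (((3 : ℕ) : ℂ) / 2)‖ = (‖c‖ / π) ^ ((3 : ℝ) / 2) := by
    have : (((3 : ℕ) : ℂ) / 2) = (((3 : ℝ) / 2 : ℝ) : ℂ) := by push_cast; ring
    rw [this, Complex.norm_cpow_real, norm_div, Complex.norm_real, Real.norm_eq_abs,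
      abs_of_pos hπ]
  have h4 : ρ ^ 2 / 2 ≤ ‖c‖ / π := by
    rw [le_div_iff₀ hπ]
    linarith [Complex.re_le_norm c]
  have h5 : (π / (2 * π / (5 * ρ ^ 2))) ^ ((3 : ℝ) / 2) ≤ 4 * ρ ^ 3 := by
    refine (pow_le_pow_iff_left₀ (by positivity) (by positivity) two_ne_zero).1 ?_
    rw [trans_pow (by positivity), show π / (2 * π / (5 * ρ ^ 2)) = 5 * ρ ^ 2 / 2 by field_simp]
    nlinarith [pow_pos hρ 6]
  rw [h2, norm_mul, norm_mul, Complex.norm_exp_I_mul_ofReal, mul_one, h3, mul_pow,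
    trans_pow (by positivity)] at h1
  have hH : Continuous fun z => Hus f (π * ρ ^ 2 / 2) ζ (x + t • ζ - z) :=
    (hg.continuous_Ex.comp (continuous_const.sub continuous_id)).norm.pow 2
  have i2 : Integrable fun z : E 3 => Real.exp (-(1 / ρ ^ 2) * ‖z‖ ^ 2) *
      Hus f (π * ρ ^ 2 / 2) ζ (x + t • ζ - z) :=
    (integrable_gauss (by positivity)).mul_bdd (c := √(nsq _) ^ 2) hH.aestronglyMeasurable
      (Filter.Eventually.of_forall fun z => by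
        rw [Real.norm_of_nonneg (Hus_nonneg _ _ _ _)]
        exact pow_le_pow_left₀ (norm_nonneg _) (hg.norm_Ex_le _) 2)
  have h6 : ∫ z : E 3, Real.exp (-(2 * π / (5 * ρ ^ 2)) * ‖z‖ ^ 2) *
      Hus f (π * ρ ^ 2 / 2) ζ (x + t • ζ - z) ≤
      ∫ y, Real.exp (-‖x + t • ζ - y‖ ^ 2 / ρ ^ 2) * Hus f (π * ρ ^ 2 / 2) ζ y := by
    rw [← integral_sub_left_eq_self (fun y => Real.exp (-‖x + t • ζ - y‖ ^ 2 / ρ ^ 2) *
      Hus f (π * ρ ^ 2 / 2) ζ y) volume (x + t • ζ)]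
    have e : ∀ z : E 3, -‖x + t • ζ - (x + t • ζ - z)‖ ^ 2 / ρ ^ 2 = -(1 / ρ ^ 2) * ‖z‖ ^ 2 :=
      fun z => by rw [sub_sub_cancel]; ring
    simp only [e]
    refine integral_mono_of_nonneg (Filter.Eventually.of_forall fun z =>
      mul_nonneg (Real.exp_pos _).le (Hus_nonneg _ _ _ _)) i2
      (Filter.Eventually.of_forall fun z => ?_)
    refine mul_le_mul_of_nonneg_right (Real.exp_le_exp.2 (mul_le_mul_of_nonneg_right
      (neg_le_neg ?_) (sq_nonneg _))) (Hus_nonneg _ _ _ _)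
    rw [div_le_div_iff₀ (by positivity) (by positivity)]
    nlinarith [Real.pi_gt_three, pow_pos hρ 2]
  have h7 := h1.trans (mul_le_mul h5 h6 (integral_nonneg fun z =>
    mul_nonneg (Real.exp_pos _).le (Hus_nonneg _ _ _ _)) (by positivity))
  have h8 := (mul_le_mul_of_nonneg_right (pow_le_pow_left₀ (by positivity) h4 3)
    (Hus_nonneg f (π * ρ ^ 2) ζ x)).trans h7
  rw [div_mul_eq_mul_div, le_div_iff₀ (by positivity)]
  refine le_of_mul_le_mul_left ?_ (pow_pos hρ 3)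
  nlinarith

end Pool.Agent.P.MP_f791b6_an
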