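import Pool.Agent.P.MP_f791b6_an.N3Tube
import Pool.Agent.P.MP_f791b6_an.N3K3

namespace Pool.Agent.P.MP_f791b6_an

open MeasureTheory Complex Metric
open scoped ComplexConjugate Real RealInnerProductSpace ENNReal

lemma triint_sqrt_sum {ι : Type} (s : Finset ι) (f : ι → ℝ) (hf : ∀ i, 0 ≤ f i) :
    √(∑ i ∈ s, f i) ≤ ∑ i ∈ s, √(f i) := by
  refine Real.sqrt_le_iff.2 ⟨Finset.sum_nonneg fun i _ => Real.sqrt_nonneg _, ?_⟩
  calc ∑ i ∈ s, f i = ∑ i ∈ s, √(f i) ^ 2 :=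
        Finset.sum_congr rfl fun i _ => (Real.sq_sqrt (hf i)).symm
    _ ≤ _ := Finset.sum_sq_le_sq_sum_of_nonneg fun i _ => Real.sqrt_nonneg _

lemma triint_ofReal_sqrt {x : ℝ} (hx : 0 ≤ x) :
    ENNReal.ofReal (√x) = ENNReal.ofReal x ^ (1 / 2 : ℝ) := by
  rw [Real.sqrt_eq_rpow, ENNReal.ofReal_rpow_of_nonneg hx (by norm_num)]

lemma triint_three {a b c ρ : ℝ} (ha : 0 ≤ a) (hb : 0 ≤ b) (hc : 0 ≤ c) (hρ : 0 ≤ ρ)
    {A B C : ℝ≥0∞} (h1 : ENNReal.ofReal a ≤ ENNReal.ofReal ρ * A)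
    (h2 : ENNReal.ofReal b ≤ ENNReal.ofReal ρ * B) (h3 : ENNReal.ofReal c ≤ ENNReal.ofReal ρ * C) :
    ENNReal.ofReal (√(a * b * c)) ≤ ENNReal.ofReal (ρ * √ρ) * (A * B * C) ^ (1 / 2 : ℝ) := by
  have e : ρ * √ρ = √(ρ * ρ * ρ) := by
    rw [Real.sqrt_mul (mul_nonneg hρ hρ), Real.sqrt_mul_self hρ]
  rw [e, triint_ofReal_sqrt (by positivity), triint_ofReal_sqrt (by positivity),
    ← ENNReal.mul_rpow_of_nonneg _ _ (by norm_num : (0 : ℝ) ≤ 1 / 2)]
  refine ENNReal.rpow_le_rpow ?_ (by norm_num)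
  rw [ENNReal.ofReal_mul (mul_nonneg ha hb), ENNReal.ofReal_mul ha,
    ENNReal.ofReal_mul (mul_nonneg hρ hρ), ENNReal.ofReal_mul hρ]
  calc ENNReal.ofReal a * ENNReal.ofReal b * ENNReal.ofReal c
      ≤ (ENNReal.ofReal ρ * A) * (ENNReal.ofReal ρ * B) * (ENNReal.ofReal ρ * C) := by
        gcongr
    _ = _ := by ring

lemma triint_near {θ : ℝ} {N : ℕ} {ind : E 3 → Fin N} {p : Fin N → E 3} (hg : Grid θ ind p)
    {M : Set (E 3)} (m : MeasurableSet M) (s : ∀ ζ ∈ M, 1 / 2 ≤ ‖ζ‖ ∧ ‖ζ‖ ≤ 2)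
    (μ : Measure (E 3 × E 3)) (a : Fin N) :
    ∀ᵐ q ∂(μ.restrict ((ind ⁻¹' {a} ∩ M) ×ˢ Set.univ)), ‖q.1 - p a‖ ≤ θ := by
  have hm : MeasurableSet ((ind ⁻¹' {a} ∩ M) ×ˢ (Set.univ : Set (E 3))) :=
    ((hg.meas (measurableSet_singleton a)).inter m).prod MeasurableSet.univ
  filter_upwards [ae_restrict_mem hm] with q hq
  have h1 : ind q.1 = a := hq.1.1
  rw [← h1]
  exact hg.near _ (s _ hq.1.2).2

/-- The trilinear sum, integrated over the centres. -/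
theorem tri_int {f1 f2 : E 3 → ℂ} (h1 : Amp f1) (h2 : Amp f2) {N1 N2 : Set (E 3)}
    (m1 : MeasurableSet N1) (m2 : MeasurableSet N2) (s1 : ∀ ζ ∈ N1, 1 / 2 ≤ ‖ζ‖ ∧ ‖ζ‖ ≤ 2)
    (s2 : ∀ ζ ∈ N2, 1 / 2 ≤ ‖ζ‖ ∧ ‖ζ‖ ≤ 2) {w T : ℝ} (hw : 0 < w) (hw1 : w ≤ 1 / 100) (hT : 0 < T)
    (J : ℕ) (hρ : T ≤ (w ^ J * T) ^ 2) {N : ℕ} {ind : E 3 → Fin N} {p : Fin N → E 3}
    (hg : Grid (w ^ 3) ind p) : ∃ Z : E 3 → ℝ≥0∞, Measurable Z ∧
      (∀ x0, ENNReal.ofReal (Real.exp (-‖x0‖ / T) * √(Real.exp (-‖x0‖ ^ 2 / T ^ 2) ^ 3 *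
        Tri p w (fun a => Mc f1 (w ^ J * T) (ind ⁻¹' {a} ∩ N1) x0)
          (fun a => Mc f2 (w ^ J * T) (ind ⁻¹' {a} ∩ N2) x0))) ≤ Z x0) ∧
      ∫⁻ x0, Z x0 ≤ ENNReal.ofReal (100000 ^ J * 10 ^ 22 / w ^ 30 * (w ^ J * T) ^ 4 *
        √(w ^ J * T) * nsq f1 * √(nsq f2)) := by
  have hρ0 : 0 < w ^ J * T := by positivity
  have hρT : w ^ J * T ≤ T :=
    mul_le_of_le_one_left hT.le (pow_le_one₀ hw.le (by linarith))
  have hK := fun (p1 p2 p3 : E 3) b1 b2 b3 hd μ1 μ2 μ3 i1 i2 i3 g1 g2 g3 =>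
    @kakeya3 w T hw hw1 hT p1 p2 p3 b1 b2 b3 hd μ1 μ2 μ3 i1 i2 i3 g1 g2 g3 J
  generalize w ^ J * T = ρ at *
  obtain ⟨μ1, M1, H1⟩ := h1.tube_major hρ0 hρT hρ
  obtain ⟨μ2, M2, H2⟩ := h2.tube_major hρ0 hρT hρ
  have f1' : IsFiniteMeasure μ1 := ⟨M1.trans_lt ENNReal.ofReal_lt_top⟩
  have f2' : IsFiniteMeasure μ2 := ⟨M2.trans_lt ENNReal.ofReal_lt_top⟩
  set ν1 : Fin N → Measure (E 3 × E 3) := fun a => μ1.restrict ((ind ⁻¹' {a} ∩ N1) ×ˢ Set.univ)
    with hν1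
  set ν2 : Fin N → Measure (E 3 × E 3) := fun a => μ2.restrict ((ind ⁻¹' {a} ∩ N2) ×ˢ Set.univ)
    with hν2
  set G : Fin N → Fin N → Fin N → E 3 → ℝ≥0∞ := fun a b c x =>
    if w < |det3 (p a) (p b) (p c)| then ENNReal.ofReal (ρ * √ρ) *
      (ENNReal.ofReal (Real.exp (-‖x‖ / T)) *
        (Tube (ν1 a) ρ x * Tube (ν2 b) ρ x * Tube (ν1 c) ρ x) ^ (1 / 2 : ℝ)) else 0 with hG
  have hme : ∀ a b c, Measurable fun x : E 3 => ENNReal.ofReal (Real.exp (-‖x‖ / T)) *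
      (Tube (ν1 a) ρ x * Tube (ν2 b) ρ x * Tube (ν1 c) ρ x) ^ (1 / 2 : ℝ) := fun a b c =>
    (by fun_prop : Continuous fun x : E 3 => Real.exp (-‖x‖ / T)).measurable.ennreal_ofReal.mul
      ((((measurable_Tube _ ρ).mul (measurable_Tube _ ρ)).mul (measurable_Tube _ ρ)).pow_const _)
  have hGm : ∀ a b c, Measurable (G a b c) := by
    intro a b c
    by_cases h : w < |det3 (p a) (p b) (p c)|
    · simp only [hG, if_pos h]
      exact (hme a b c).const_mul _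
    · simp only [hG, if_neg h]
      exact measurable_const
  refine ⟨fun x => ∑ a, ∑ b, ∑ c, G a b c x, ?_, ?_, ?_⟩
  · exact Finset.measurable_sum _ fun a _ => Finset.measurable_sum _ fun b _ =>
      Finset.measurable_sum _ fun c _ => hGm a b c
  · intro x
    set e := Real.exp (-‖x‖ ^ 2 / T ^ 2) with he
    have he0 : 0 ≤ e := (Real.exp_pos _).le
    set A : Fin N → ℝ := fun a => e * Mc f1 ρ (ind ⁻¹' {a} ∩ N1) x with hA
    set B : Fin N → ℝ := fun a => e * Mc f2 ρ (ind ⁻¹' {a} ∩ N2) x with hB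
    have hA0 : ∀ a, 0 ≤ A a := fun a => mul_nonneg he0 (Mc_nonneg _ _ _ _)
    have hB0 : ∀ a, 0 ≤ B a := fun a => mul_nonneg he0 (Mc_nonneg _ _ _ _)
    have hAT : ∀ a, ENNReal.ofReal (A a) ≤ ENNReal.ofReal ρ * Tube (ν1 a) ρ x := fun a =>
      H1 _ ((hg.meas (measurableSet_singleton a)).inter m1) (fun ζ hζ => s1 ζ hζ.2) x
    have hBT : ∀ a, ENNReal.ofReal (B a) ≤ ENNReal.ofReal ρ * Tube (ν2 a) ρ x := fun a =>
      H2 _ ((hg.meas (measurableSet_singleton a)).inter m2) (fun ζ hζ => s2 ζ hζ.2) x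
    set t : Fin N → Fin N → Fin N → ℝ := fun a b c =>
      if w < |det3 (p a) (p b) (p c)| then A a * B b * A c else 0 with ht
    have ht0 : ∀ a b c, 0 ≤ t a b c := fun a b c => by
      simp only [ht]
      split_ifs
      · exact mul_nonneg (mul_nonneg (hA0 a) (hB0 b)) (hA0 c)
      · exact le_rfl
    have e1 : e ^ 3 * Tri p w (fun a => Mc f1 ρ (ind ⁻¹' {a} ∩ N1) x)
        (fun a => Mc f2 ρ (ind ⁻¹' {a} ∩ N2) x) = ∑ a, ∑ b, ∑ c, t a b c := by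
      simp only [Tri, Finset.mul_sum, ht, hA, hB]
      refine Finset.sum_congr rfl fun a _ => Finset.sum_congr rfl fun b _ =>
        Finset.sum_congr rfl fun c _ => ?_
      split_ifs <;> ring
    have e2 : √(∑ a, ∑ b, ∑ c, t a b c) ≤ ∑ a, ∑ b, ∑ c, √(t a b c) := by
      refine (triint_sqrt_sum _ _ fun a => Finset.sum_nonneg fun b _ =>
        Finset.sum_nonneg fun c _ => ht0 a b c).trans (Finset.sum_le_sum fun a _ => ?_)
      refine (triint_sqrt_sum _ _ fun b => Finset.sum_nonneg fun c _ => ht0 a b c).trans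
        (Finset.sum_le_sum fun b _ => ?_)
      exact triint_sqrt_sum _ _ fun c => ht0 a b c
    rw [e1, ENNReal.ofReal_mul (Real.exp_pos _).le]
    refine (mul_le_mul_right (ENNReal.ofReal_le_ofReal e2) _).trans ?_
    rw [ENNReal.ofReal_sum_of_nonneg fun a _ => Finset.sum_nonneg fun b _ =>
      Finset.sum_nonneg fun c _ => Real.sqrt_nonneg _, Finset.mul_sum]
    refine Finset.sum_le_sum fun a _ => ?_
    rw [ENNReal.ofReal_sum_of_nonneg fun b _ => Finset.sum_nonneg fun c _ => Real.sqrt_nonneg _,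
      Finset.mul_sum]
    refine Finset.sum_le_sum fun b _ => ?_
    rw [ENNReal.ofReal_sum_of_nonneg fun c _ => Real.sqrt_nonneg _, Finset.mul_sum]
    refine Finset.sum_le_sum fun c _ => ?_
    by_cases h : w < |det3 (p a) (p b) (p c)|
    · simp only [hG, ht, if_pos h]
      exact (mul_le_mul_right
        (triint_three (hA0 a) (hB0 b) (hA0 c) hρ0.le (hAT a) (hBT b) (hAT c)) _).trans
        (le_of_eq (mul_left_comm _ _ _))
    · simp [hG, ht, if_neg h]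
  · set K : ℝ := ρ * √ρ * (100000 ^ J * 10 ^ 7 * ρ ^ 3 / w ^ 3 *
      (10 ^ 6 * nsq f1 * √(nsq f2))) with hKd
    have n1 := nsq_nonneg f1
    have n2 := nsq_nonneg f2
    have hK0 : 0 ≤ K := by positivity
    have hint : ∀ a b c, ∫⁻ x, G a b c x ≤ ENNReal.ofReal K := by
      intro a b c
      by_cases h : w < |det3 (p a) (p b) (p c)|
      · simp only [hG, if_pos h]
        rw [lintegral_const_mul _ (hme a b c), hKd,
          ENNReal.ofReal_mul (p := ρ * √ρ) (by positivity)]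
        refine mul_le_mul_right ?_ _
        refine (hK (p a) (p b) (p c) (hg.bd a) (hg.bd b) (hg.bd c) h.le (ν1 a) (ν2 b) (ν1 c)
          inferInstance inferInstance inferInstance (triint_near hg m1 s1 μ1 a)
          (triint_near hg m2 s2 μ2 b) (triint_near hg m1 s1 μ1 c)).trans ?_
        rw [ENNReal.ofReal_mul (p := 100000 ^ J * 10 ^ 7 * ρ ^ 3 / w ^ 3) (by positivity)]
        refine mul_le_mul_right ?_ _
        have r1 : ∀ a, ν1 a Set.univ ≤ ENNReal.ofReal (10000 * nsq f1) := fun a =>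
          (Measure.restrict_apply_le _ _).trans M1
        have r2 : ν2 b Set.univ ≤ ENNReal.ofReal (10000 * nsq f2) :=
          (Measure.restrict_apply_le _ _).trans M2
        have e : 10 ^ 6 * nsq f1 * √(nsq f2) =
            √(10000 * nsq f1 * (10000 * nsq f2) * (10000 * nsq f1)) := by
          rw [show 10000 * nsq f1 * (10000 * nsq f2) * (10000 * nsq f1) =
            (10 ^ 6 * nsq f1) * (10 ^ 6 * nsq f1) * nsq f2 by ring,
            Real.sqrt_mul (by positivity), Real.sqrt_mul_self (by positivity)]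
        rw [e, triint_ofReal_sqrt (by positivity)]
        refine ENNReal.rpow_le_rpow ?_ (by norm_num)
        rw [ENNReal.ofReal_mul (by positivity), ENNReal.ofReal_mul (by positivity)]
        exact mul_le_mul' (mul_le_mul' (r1 a) r2) (r1 c)
      · simp [hG, if_neg h]
    rw [lintegral_finsetSum _ fun a _ => Finset.measurable_sum _ fun b _ =>
      Finset.measurable_sum _ fun c _ => hGm a b c]
    have s3 : ∀ a, ∫⁻ x, ∑ b, ∑ c, G a b c x ≤ ∑ _b : Fin N, ∑ _c : Fin N, ENNReal.ofReal K := by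
      intro a
      rw [lintegral_finsetSum _ fun b _ => Finset.measurable_sum _ fun c _ => hGm a b c]
      refine Finset.sum_le_sum fun b _ => ?_
      rw [lintegral_finsetSum _ fun c _ => hGm a b c]
      exact Finset.sum_le_sum fun c _ => hint a b c
    refine (Finset.sum_le_sum fun a _ => s3 a).trans ?_
    rw [← ENNReal.ofReal_sum_of_nonneg fun _ _ => hK0,
      ← ENNReal.ofReal_sum_of_nonneg fun _ _ => Finset.sum_nonneg fun _ _ => hK0,
      ← ENNReal.ofReal_sum_of_nonneg fun _ _ => Finset.sum_nonneg fun _ _ =>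
        Finset.sum_nonneg fun _ _ => hK0]
    refine ENNReal.ofReal_le_ofReal ?_
    simp only [Finset.sum_const, Finset.card_univ, Fintype.card_fin, nsmul_eq_mul]
    have hN : (N : ℝ) ^ 3 ≤ (1000 / (w ^ 3) ^ 3) ^ 3 :=
      pow_le_pow_left₀ (Nat.cast_nonneg _) hg.card 3
    calc (N : ℝ) * (N * (N * K)) = (N : ℝ) ^ 3 * K := by ring
      _ ≤ (1000 / (w ^ 3) ^ 3) ^ 3 * K := mul_le_mul_of_nonneg_right hN hK0
      _ = _ := by
        rw [hKd]
        field_simp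
        ring

end Pool.Agent.P.MP_f791b6_an
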