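import Pool.Agent.P.MP_f791b6_an.N3Trans
import Pool.Agent.P.MP_f791b6_an.N3Mass

namespace Pool.Agent.P.MP_f791b6_an

open MeasureTheory Complex Metric
open scoped ComplexConjugate Real RealInnerProductSpace ENNReal

lemma tube_ofReal {X : Type*} [MeasurableSpace X] {μ : Measure X} {g : X → ℝ} (hg : ∀ x, 0 ≤ g x) :
    ENNReal.ofReal (∫ x, g x ∂μ) ≤ ∫⁻ x, ENNReal.ofReal (g x) ∂μ := by
  by_cases h : Integrable g μ
  · rw [ofReal_integral_eq_lintegral_ofReal h (Filter.Eventually.of_forall hg)]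
  · rw [integral_undef h]; simp

lemma tube_ld (w ζ : E 3) (hζ : ζ ≠ 0) (t : ℝ) :
    ‖w + t • ζ‖ ^ 2 = ld w ζ ^ 2 + ‖ζ‖ ^ 2 * (t + ⟪w, ζ⟫ / ‖ζ‖ ^ 2) ^ 2 := by
  have h0 : ‖ζ‖ ≠ 0 := norm_ne_zero_iff.2 hζ
  rw [ld, norm_add_sq_real, norm_sub_sq_real, inner_smul_right, inner_smul_right, norm_smul,
    norm_smul, mul_pow, mul_pow, Real.norm_eq_abs, Real.norm_eq_abs, sq_abs, sq_abs]
  field_simp
  ring

lemma tube_pt {ρ T t : ℝ} (hρ : 0 < ρ) (hρT : ρ ≤ T) (ht : t ∈ Set.Icc 0 T) {ζ : E 3}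
    (h1 : 1 / 2 ≤ ‖ζ‖) (h2 : ‖ζ‖ ≤ 2) (x y : E 3) :
    Real.exp (-‖x‖ ^ 2 / T ^ 2) * Real.exp (-‖x + t • ζ - y‖ ^ 2 / ρ ^ 2) ≤
      gw (5 * T) y * Real.exp (-(ld (x - y) ζ) / ρ) * Real.exp 2 *
        Real.exp (-(1 / (8 * ρ ^ 2)) * (t + ⟪x - y, ζ⟫ / ‖ζ‖ ^ 2) ^ 2) := by
  have hT : 0 < T := hρ.trans_le hρT
  have hζ : ζ ≠ 0 := by rintro rfl; rw [norm_zero] at h1; linarith
  have e := tube_ld (x - y) ζ hζ t
  rw [show x - y + t • ζ = x + t • ζ - y by abel] at e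
  have hy : ‖y‖ ≤ ‖x‖ + 2 * T + ‖x + t • ζ - y‖ := by
    have h3 : ‖t • ζ‖ ≤ 2 * T := by
      rw [norm_smul, Real.norm_eq_abs, abs_of_nonneg ht.1]
      nlinarith [ht.1, ht.2, norm_nonneg ζ]
    calc ‖y‖ = ‖x + t • ζ - (x + t • ζ - y)‖ := by congr 1; abel
      _ ≤ ‖x + t • ζ‖ + ‖x + t • ζ - y‖ := norm_sub_le _ _
      _ ≤ _ := by linarith [norm_add_le x (t • ζ)]
  generalize ‖x + t • ζ - y‖ = V at e hy
  generalize t + ⟪x - y, ζ⟫ / ‖ζ‖ ^ 2 = s at e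
  generalize ld (x - y) ζ = l at e
  have hy2 : ‖y‖ ^ 2 ≤ 7 * ‖x‖ ^ 2 + 8 * T ^ 2 + 3 * V ^ 2 := by
    have := pow_le_pow_left₀ (norm_nonneg y) hy 2
    nlinarith [sq_nonneg (3 * ‖x‖ - 2 * T), sq_nonneg (2 * ‖x‖ - V), sq_nonneg (4 * T - 3 * V),
      sq_nonneg ‖x‖, sq_nonneg T, sq_nonneg V]
  rw [gw, ← Real.exp_add, ← Real.exp_add, ← Real.exp_add, ← Real.exp_add, Real.exp_le_exp]
  have a1 : π / (5 * T) ^ 2 * ‖y‖ ^ 2 ≤ ‖x‖ ^ 2 / T ^ 2 + 8 / 7 + V ^ 2 / ρ ^ 2 / 2 := by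
    have b1 : π / (5 * T) ^ 2 * ‖y‖ ^ 2 ≤ 1 / 7 * (‖y‖ ^ 2 / T ^ 2) := by
      rw [show π / (5 * T) ^ 2 * ‖y‖ ^ 2 = π / 25 * (‖y‖ ^ 2 / T ^ 2) by field_simp; ring]
      exact mul_le_mul_of_nonneg_right (by linarith [Real.pi_lt_d2]) (by positivity)
    have b2 : ‖y‖ ^ 2 / T ^ 2 ≤ 7 * (‖x‖ ^ 2 / T ^ 2) + 8 + 3 * (V ^ 2 / T ^ 2) := by
      rw [div_le_iff₀ (by positivity)]
      refine hy2.trans (le_of_eq ?_)
      field_simp
    have b3 : V ^ 2 / T ^ 2 ≤ V ^ 2 / ρ ^ 2 :=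
      div_le_div_of_nonneg_left (sq_nonneg V) (by positivity) (pow_le_pow_left₀ hρ.le hρT 2)
    have b4 : 0 ≤ V ^ 2 / ρ ^ 2 := by positivity
    linarith
  have a2 : l / ρ - 1 / 2 + 1 / (8 * ρ ^ 2) * s ^ 2 ≤ V ^ 2 / ρ ^ 2 / 2 := by
    have b1 : 1 / 4 * s ^ 2 ≤ ‖ζ‖ ^ 2 * s ^ 2 :=
      mul_le_mul_of_nonneg_right (by nlinarith) (sq_nonneg s)
    have b2 : (l ^ 2 + 1 / 4 * s ^ 2) / ρ ^ 2 ≤ V ^ 2 / ρ ^ 2 :=
      div_le_div_of_nonneg_right (by linarith) (by positivity)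
    have b3 : (l ^ 2 + 1 / 4 * s ^ 2) / ρ ^ 2 = (l / ρ) ^ 2 + 2 * (1 / (8 * ρ ^ 2) * s ^ 2) := by
      field_simp; ring
    nlinarith [sq_nonneg (l / ρ - 1)]
  simp only [neg_div, neg_mul]
  linarith

lemma tube_time {ρ T : ℝ} (hρ : 0 < ρ) (hρT : ρ ≤ T) {ζ : E 3}
    (h1 : 1 / 2 ≤ ‖ζ‖) (h2 : ‖ζ‖ ≤ 2) (x y : E 3) {c : ℝ} (hc : 0 ≤ c) :
    ∫⁻ t in Set.Icc 0 T, ENNReal.ofReal
      (c * (Real.exp (-‖x‖ ^ 2 / T ^ 2) * Real.exp (-‖x + t • ζ - y‖ ^ 2 / ρ ^ 2))) ≤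
      ENNReal.ofReal (c * (48 * ρ * (gw (5 * T) y * Real.exp (-(ld (x - y) ζ) / ρ)))) := by
  set B := gw (5 * T) y * Real.exp (-(ld (x - y) ζ) / ρ) with hB
  have hB0 : 0 ≤ B := mul_nonneg (gw_pos _ _).le (Real.exp_pos _).le
  set t0 := ⟪x - y, ζ⟫ / ‖ζ‖ ^ 2
  have hb : 0 < 1 / (8 * ρ ^ 2) := by positivity
  have hi : Integrable fun t : ℝ => c * (B * Real.exp 2 *
      Real.exp (-(1 / (8 * ρ ^ 2)) * (t + t0) ^ 2)) :=
    (((integrable_exp_neg_mul_sq hb).comp_add_right t0).const_mul _).const_mul _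
  calc _ ≤ ∫⁻ t in Set.Icc 0 T, ENNReal.ofReal (c * (B * Real.exp 2 *
        Real.exp (-(1 / (8 * ρ ^ 2)) * (t + t0) ^ 2))) :=
        setLIntegral_mono' measurableSet_Icc fun t ht => ENNReal.ofReal_le_ofReal
          (mul_le_mul_of_nonneg_left (tube_pt hρ hρT ht h1 h2 x y) hc)
    _ ≤ ∫⁻ t, ENNReal.ofReal (c * (B * Real.exp 2 *
        Real.exp (-(1 / (8 * ρ ^ 2)) * (t + t0) ^ 2))) := setLIntegral_le_lintegral _ _
    _ = ENNReal.ofReal (c * (B * Real.exp 2 * √(π / (1 / (8 * ρ ^ 2))))) := by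
        rw [← ofReal_integral_eq_lintegral_ofReal hi
          (Filter.Eventually.of_forall fun t => by positivity), integral_const_mul,
          integral_const_mul, integral_add_right_eq_self
            (fun t : ℝ => Real.exp (-(1 / (8 * ρ ^ 2)) * t ^ 2)) t0, integral_gaussian]
    _ ≤ _ := by
        refine ENNReal.ofReal_le_ofReal (mul_le_mul_of_nonneg_left ?_ hc)
        have e2 : Real.exp 2 ≤ 8 := by
          rw [show (2 : ℝ) = 1 + 1 by norm_num, Real.exp_add]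
          nlinarith [Real.exp_one_lt_d9, Real.exp_pos 1]
        have e3 : √(π / (1 / (8 * ρ ^ 2))) ≤ 6 * ρ := by
          refine Real.sqrt_le_iff.2 ⟨by positivity, ?_⟩
          rw [div_div_eq_mul_div, div_one]
          nlinarith [Real.pi_lt_d2, sq_nonneg ρ]
        calc B * Real.exp 2 * √(π / (1 / (8 * ρ ^ 2))) ≤ B * 8 * (6 * ρ) := by gcongr
          _ = _ := by ring

lemma tube_fix {H : E 3 → ℝ} (hH : Continuous H) (hH0 : ∀ y, 0 ≤ H y) {ρ T a : ℝ} (hρ : 0 < ρ)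
    (hρT : ρ ≤ T) {ζ : E 3} (h1 : 1 / 2 ≤ ‖ζ‖) (h2 : ‖ζ‖ ≤ 2) (x : E 3)
    (ha : ∀ t ∈ Set.Icc 0 T,
      a ≤ 32 / ρ ^ 3 * ∫ y, Real.exp (-‖x + t • ζ - y‖ ^ 2 / ρ ^ 2) * H y) :
    ENNReal.ofReal (Real.exp (-‖x‖ ^ 2 / T ^ 2) * (ρ ^ 6 * a)) ≤
      ENNReal.ofReal ρ * ∫⁻ y, ENNReal.ofReal (2000 * ρ ^ 3 / T * (gw (5 * T) y * H y)) *
        ENNReal.ofReal (Real.exp (-(ld (x - y) ζ) / ρ)) := by
  have hT0 : 0 < T := hρ.trans_le hρT
  have hG : Measurable fun p : ℝ × E 3 => ENNReal.ofReal (32 * ρ ^ 3 * H p.2 *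
      (Real.exp (-‖x‖ ^ 2 / T ^ 2) * Real.exp (-‖x + p.1 • ζ - p.2‖ ^ 2 / ρ ^ 2))) :=
    Measurable.ennreal_ofReal (Continuous.measurable (by fun_prop))
  have hpt : ∀ t ∈ Set.Icc 0 T, ENNReal.ofReal (Real.exp (-‖x‖ ^ 2 / T ^ 2) * (ρ ^ 6 * a)) ≤
      ∫⁻ y, ENNReal.ofReal (32 * ρ ^ 3 * H y *
        (Real.exp (-‖x‖ ^ 2 / T ^ 2) * Real.exp (-‖x + t • ζ - y‖ ^ 2 / ρ ^ 2))) := by
    intro t ht
    refine le_trans (ENNReal.ofReal_le_ofReal ?_) (tube_ofReal fun y => by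
      have := hH0 y; positivity)
    refine (mul_le_mul_of_nonneg_left (mul_le_mul_of_nonneg_left (ha t ht) (by positivity))
      (Real.exp_pos _).le).trans (le_of_eq ?_)
    rw [← integral_const_mul, ← integral_const_mul, ← integral_const_mul]
    refine integral_congr_ae (Filter.Eventually.of_forall fun y => ?_)
    simp only
    field_simp
  have hne : ENNReal.ofReal T ≠ 0 := by simpa using hT0
  refine (ENNReal.mul_le_mul_iff_left hne ENNReal.ofReal_ne_top).1 ?_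
  calc _ = ∫⁻ _ in Set.Icc 0 T, ENNReal.ofReal (Real.exp (-‖x‖ ^ 2 / T ^ 2) * (ρ ^ 6 * a)) := by
        rw [setLIntegral_const, Real.volume_Icc, sub_zero]
    _ ≤ ∫⁻ t in Set.Icc 0 T, ∫⁻ y, ENNReal.ofReal (32 * ρ ^ 3 * H y *
        (Real.exp (-‖x‖ ^ 2 / T ^ 2) * Real.exp (-‖x + t • ζ - y‖ ^ 2 / ρ ^ 2))) :=
        setLIntegral_mono' measurableSet_Icc hpt
    _ = ∫⁻ y, ∫⁻ t in Set.Icc 0 T, ENNReal.ofReal (32 * ρ ^ 3 * H y *
        (Real.exp (-‖x‖ ^ 2 / T ^ 2) * Real.exp (-‖x + t • ζ - y‖ ^ 2 / ρ ^ 2))) :=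
        lintegral_lintegral_swap hG.aemeasurable
    _ ≤ ∫⁻ y, (ENNReal.ofReal T * ENNReal.ofReal ρ) * (ENNReal.ofReal (2000 * ρ ^ 3 / T *
        (gw (5 * T) y * H y)) * ENNReal.ofReal (Real.exp (-(ld (x - y) ζ) / ρ))) := by
        refine lintegral_mono fun y => ?_
        have h4 := hH0 y
        have h5 := (gw_pos (5 * T) y).le
        refine (tube_time hρ hρT h1 h2 x y (by positivity)).trans ?_
        rw [← ENNReal.ofReal_mul hT0.le, ← ENNReal.ofReal_mul (by positivity),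
          ← ENNReal.ofReal_mul (by positivity)]
        refine ENNReal.ofReal_le_ofReal ?_
        have h7 := (Real.exp_pos (-(ld (x - y) ζ) / ρ)).le
        generalize Real.exp (-(ld (x - y) ζ) / ρ) = u at h7 ⊢
        generalize gw (5 * T) y = g at h5 ⊢
        generalize H y = k at h4 ⊢
        have h6 : 0 ≤ ρ ^ 4 * (g * k * u) := by positivity
        have e : T * ρ * (2000 * ρ ^ 3 / T * (g * k) * u) = 2000 * (ρ ^ 4 * (g * k * u)) := by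
          field_simp
        rw [e]
        linarith
    _ = _ := by
        rw [lintegral_const_mul' _ _ (ENNReal.mul_ne_top ENNReal.ofReal_ne_top
          ENNReal.ofReal_ne_top)]
        ring

/-- The local masses are dominated by a superposition of tubes. -/
theorem Amp.tube_major {f : E 3 → ℂ} (hf : Amp f) {ρ T : ℝ} (hρ : 0 < ρ) (hρT : ρ ≤ T)
    (hT : T ≤ ρ ^ 2) : ∃ μ : Measure (E 3 × E 3),
      μ Set.univ ≤ ENNReal.ofReal (10000 * nsq f) ∧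
      ∀ τ : Set (E 3), MeasurableSet τ → (∀ ζ ∈ τ, 1 / 2 ≤ ‖ζ‖ ∧ ‖ζ‖ ≤ 2) → ∀ x : E 3,
        ENNReal.ofReal (Real.exp (-‖x‖ ^ 2 / T ^ 2) * Mc f ρ τ x) ≤
          ENNReal.ofReal ρ * Tube (μ.restrict (τ ×ˢ Set.univ)) ρ x := by
  have hT0 : 0 < T := hρ.trans_le hρT
  have hH := hf.continuous_Hus (b := π * ρ ^ 2 / 2) (by positivity)
  let D : E 3 × E 3 → ℝ≥0∞ := fun p =>
    ENNReal.ofReal (2000 * ρ ^ 3 / T * (gw (5 * T) p.2 * Hus f (π * ρ ^ 2 / 2) p.1 p.2))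
  have hD : Measurable D := Measurable.ennreal_ofReal (Continuous.measurable
    (continuous_const.mul (((continuous_gw _).comp continuous_snd).mul hH)))
  refine ⟨(volume.prod volume).withDensity D, ?_, fun τ hτ hn x => ?_⟩
  · rw [withDensity_apply _ MeasurableSet.univ, Measure.restrict_univ,
      lintegral_prod_symm' _ hD]
    have h1 := hf.hus_mass hρ (b := π * ρ ^ 2 / 2) le_rfl (T := 5 * T) (by positivity)
    have e : ∀ y, ∫⁻ ζ, D (ζ, y) = ENNReal.ofReal (2000 * ρ ^ 3 / T) * (ENNReal.ofReal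
        (gw (5 * T) y) * ∫⁻ ζ, ENNReal.ofReal (Hus f (π * ρ ^ 2 / 2) ζ y)) := fun y => by
      rw [← lintegral_const_mul' _ _ ENNReal.ofReal_ne_top,
        ← lintegral_const_mul' _ _ ENNReal.ofReal_ne_top]
      refine lintegral_congr fun ζ => ?_
      simp only [D]
      rw [ENNReal.ofReal_mul (by positivity), ENNReal.ofReal_mul (gw_pos _ _).le]
    simp only [e]
    rw [lintegral_const_mul' _ _ ENNReal.ofReal_ne_top]
    refine (mul_le_mul_right h1 _).trans (le_of_eq ?_)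
    rw [← ENNReal.ofReal_mul (by positivity)]
    congr 1
    field_simp
    ring
  · have hk : Measurable fun p : E 3 × E 3 =>
        ENNReal.ofReal (Real.exp (-(ld (x - p.2) p.1) / ρ)) := by
      have h1 : Measurable (fun p : E 3 × E 3 => ld (x - p.2) p.1) :=
        Measurable.comp (g := fun p : E 3 × E 3 => ld p.1 p.2)
          (f := fun p : E 3 × E 3 => (x - p.2, p.1)) measurable_ld
          ((measurable_const.sub measurable_snd).prodMk measurable_fst)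
      exact (Real.measurable_exp.comp (h1.neg.div_const ρ)).ennreal_ofReal
    rw [Tube, setLIntegral_withDensity_eq_setLIntegral_mul _ hD hk (hτ.prod MeasurableSet.univ),
      ← Measure.restrict_prod_eq_prod_univ, lintegral_prod _ (hD.mul hk).aemeasurable,
      ← lintegral_const_mul' _ _ ENNReal.ofReal_ne_top, Mc, ← integral_const_mul]
    refine (tube_ofReal fun ζ => by have := Hus_nonneg f (π * ρ ^ 2) ζ x; positivity).trans ?_
    refine setLIntegral_mono' hτ fun ζ hζ => ?_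
    have hc : Continuous (Hus f (π * ρ ^ 2 / 2) ζ) :=
      Continuous.comp (g := fun p : E 3 × E 3 => Hus f (π * ρ ^ 2 / 2) p.1 p.2)
        (f := fun y : E 3 => (ζ, y)) hH (Continuous.prodMk_right ζ)
    exact tube_fix hc
      (Hus_nonneg f _ ζ) hρ hρT (hn ζ hζ).1 (hn ζ hζ).2 x fun t ht =>
        hf.transport hρ (by rw [abs_of_nonneg ht.1]; exact ht.2.trans hT) ζ x

end Pool.Agent.P.MP_f791b6_an
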