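import Pool.Agent.P.MP_f791b6_an.Vol

namespace Pool.Agent.P.MP_f791b6_an

open MeasureTheory Metric

variable {n : ℕ}

/-- The group of rotations. -/
noncomputable abbrev avgG (n : ℕ) := unitary (E n →L[ℝ] E n)

theorem avg_star : ContinuousStar (E n →L[ℝ] E n) :=
  ⟨(ContinuousLinearMap.adjoint (𝕜 := ℝ) (E := E n) (F := E n)).continuous⟩

theorem avg_compact : CompactSpace (avgG n) := by
  have := avg_star (n := n)
  refine isCompact_iff_compactSpace.1 (isCompact_of_isClosed_isBounded isClosed_unitary ?_)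
  refine (isBounded_closedBall (x := (0 : E n →L[ℝ] E n)) (r := 1)).subset fun u hu => ?_
  rw [mem_closedBall_zero_iff]
  exact ContinuousLinearMap.opNorm_le_bound _ zero_le_one fun x => by
    rw [ContinuousLinearMap.norm_map_of_mem_unitary hu, one_mul]

theorem avg_cont {f : E n → ℝ} (hf : Continuous f) :
    Continuous fun p : E n × avgG n => f ((p.2 : E n →L[ℝ] E n) p.1) :=
  hf.comp ((continuous_subtype_val.comp continuous_snd).clm_apply continuous_fst)

theorem avg_radial (hn : 1 ≤ n) (F : ℝ → ℝ) {r1 r2 : ℝ} (h1 : 0 < r1) (h2 : r1 ≤ r2) :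
    ∫ z in closedBall (0 : E n) r2 \ ball 0 r1, F ‖z‖ =
      n * om n * ∫ r in r1..r2, r ^ (n - 1) * F r := by
  have : Nonempty (Fin n) := ⟨⟨0, hn⟩⟩
  have e : ∫ z in closedBall (0 : E n) r2 \ ball 0 r1, F ‖z‖ =
      ∫ z : E n, (Set.Icc r1 r2).indicator F ‖z‖ := by
    rw [← integral_indicator (measurableSet_closedBall.diff measurableSet_ball)]
    refine integral_congr_ae (Filter.Eventually.of_forall fun z => ?_)
    have : z ∈ closedBall (0 : E n) r2 \ ball 0 r1 ↔ ‖z‖ ∈ Set.Icc r1 r2 := by
      simp [and_comm]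
    by_cases h : ‖z‖ ∈ Set.Icc r1 r2
    · simp only [Set.indicator_of_mem h, Set.indicator_of_mem (this.2 h)]
    · simp only [Set.indicator_of_notMem h, Set.indicator_of_notMem (mt this.1 h)]
  have e2 : ∫ y in Set.Ioi (0 : ℝ), y ^ (n - 1) • (Set.Icc r1 r2).indicator F y =
      ∫ r in r1..r2, r ^ (n - 1) * F r := by
    have : ∀ y : ℝ, y ^ (n - 1) • (Set.Icc r1 r2).indicator F y =
        (Set.Icc r1 r2).indicator (fun r => r ^ (n - 1) * F r) y := fun y => by
      by_cases h : y ∈ Set.Icc r1 r2
      · simp only [Set.indicator_of_mem h, smul_eq_mul]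
      · simp only [Set.indicator_of_notMem h, smul_zero]
    simp only [this]
    have hs : Set.Icc r1 r2 ⊆ Set.Ioi 0 := fun y hy => h1.trans_le hy.1
    rw [setIntegral_indicator measurableSet_Icc, Set.inter_eq_right.2 hs,
      intervalIntegral.integral_of_le h2, integral_Icc_eq_integral_Ioc]
  rw [e, integral_fun_norm_addHaar, finrank_euclideanSpace_fin, e2, smul_eq_mul, nsmul_eq_mul,
    mul_assoc]
  rfl

/-- Average of a continuous function over all rotations. -/
theorem exists_avg (hn : 1 ≤ n) {f : E n → ℝ} (hf : Continuous f) (hf0 : ∀ z, 0 ≤ f z) :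
    ∃ F : ℝ → ℝ, Continuous F ∧ (∀ r, 0 ≤ F r) ∧
      (∀ r1 r2 : ℝ, 0 < r1 → r1 ≤ r2 →
        ∫ z in closedBall (0 : E n) r2 \ ball 0 r1, f z =
          n * om n * ∫ r in r1..r2, r ^ (n - 1) * F r) ∧
      ∀ (ι : Type) [Fintype ι] (w : ι → E n) (c : ι → ℝ), 0 < ∑ i, c i * F ‖w i‖ →
        ∃ ρ : E n ≃ₗᵢ[ℝ] E n, 0 < ∑ i, c i * f (ρ (w i)) := by
  have := avg_star (n := n)
  have := avg_compact (n := n)
  let : MeasurableSpace (avgG n) := borel _
  have : BorelSpace (avgG n) := ⟨rfl⟩
  let μ : Measure (avgG n) := (Measure.haarMeasure ⊤).inv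
  have : IsProbabilityMeasure (Measure.haarMeasure (⊤ : TopologicalSpace.PositiveCompacts
    (avgG n))) := ⟨by rw [← TopologicalSpace.PositiveCompacts.coe_top, Measure.haarMeasure_self]⟩
  have : IsProbabilityMeasure μ := ⟨by
    rw [Measure.inv_apply, Set.inv_univ, measure_univ]⟩
  have hc := avg_cont hf
  let fb : E n → ℝ := fun w => ∫ g : avgG n, f ((g : E n →L[ℝ] E n) w) ∂μ
  have hfb : Continuous fb := by
    have := continuous_parametric_integral_of_continuous (μ := μ)
      (f := fun (w : E n) (g : avgG n) => f ((g : E n →L[ℝ] E n) w)) hc isCompact_univ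
    simpa only [Measure.restrict_univ] using this
  have hinv : ∀ v w : E n, ‖v‖ = ‖w‖ → fb v = fb w := fun v w h => by
    let u : avgG n := Unitary.linearIsometryEquiv.symm (Submodule.reflection (ℝ ∙ (v - w))ᗮ)
    have hu : (u : E n →L[ℝ] E n) v = w := Submodule.reflection_sub h
    have := integral_mul_right_eq_self (μ := μ)
      (fun g : avgG n => f ((g : E n →L[ℝ] E n) v)) u
    refine this.symm.trans (integral_congr_ae (Filter.Eventually.of_forall fun g => ?_))
    show f ((g : E n →L[ℝ] E n) ((u : E n →L[ℝ] E n) v)) = _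
    rw [hu]
  let e : E n := EuclideanSpace.single ⟨0, hn⟩ 1
  have he : ‖e‖ = 1 := by simp [e]
  have hF : ∀ w, fb (‖w‖ • e) = fb w := fun w =>
    hinv _ _ (by rw [norm_smul, he, mul_one, norm_norm])
  have hi : ∀ w : E n, Integrable (fun g : avgG n => f ((g : E n →L[ℝ] E n) w)) μ := fun w =>
    (hc.comp (Continuous.prodMk_right w)).integrable_of_hasCompactSupport
      (HasCompactSupport.of_compactSpace _)
  refine ⟨fun r => fb (r • e), hfb.comp (continuous_id.smul continuous_const),
    fun r => integral_nonneg fun g => hf0 _, fun r1 r2 h1 h2 => ?_, fun ι _ w c h => ?_⟩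
  · rw [← avg_radial hn (fun r => fb (r • e)) h1 h2]
    simp only [hF]
    set A := closedBall (0 : E n) r2 \ ball 0 r1 with hA
    have hK : IsCompact A := (isCompact_closedBall _ _).diff isOpen_ball
    have hint : Integrable (Function.uncurry fun (z : E n) (g : avgG n) =>
        f ((g : E n →L[ℝ] E n) z)) ((volume.restrict A).prod μ) := by
      have h3 : IntegrableOn (fun p : E n × avgG n => f ((p.2 : E n →L[ℝ] E n) p.1))
          (A ×ˢ Set.univ) (volume.prod μ) :=
        hc.continuousOn.integrableOn_compact (hK.prod isCompact_univ)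
      rw [IntegrableOn, ← Measure.prod_restrict, Measure.restrict_univ] at h3
      exact h3
    have hg : ∀ g : avgG n, ∫ z in A, f ((g : E n →L[ℝ] E n) z) = ∫ z in A, f z := fun g => by
      let ρ := Unitary.linearIsometryEquiv g
      have h4 := ρ.measurePreserving.setIntegral_preimage_emb
        ρ.toHomeomorph.measurableEmbedding f A
      have h5 : ρ ⁻¹' A = A := by
        ext z
        simp [hA]
      rw [h5] at h4
      exact h4
    rw [integral_integral_swap hint]
    simp only [hg]
    simp
  · by_contra hcon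
    simp only [not_exists, not_lt] at hcon
    simp only [hF] at h
    have e1 : ∑ i, c i * fb (w i) =
        ∫ g : avgG n, ∑ i, c i * f ((g : E n →L[ℝ] E n) (w i)) ∂μ := by
      rw [integral_finsetSum _ fun i _ => (hi (w i)).const_mul (c i)]
      exact Finset.sum_congr rfl fun i _ => (integral_const_mul _ _).symm
    rw [e1] at h
    exact h.not_ge (integral_nonpos fun g => hcon (Unitary.linearIsometryEquiv g))

end Pool.Agent.P.MP_f791b6_an
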