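import Pool.Agent.P.MP_f791b6_an.Cases

namespace Pool.Agent.P.MP_f791b6_an

open MeasureTheory Complex Metric Filter Topology
open scoped ComplexConjugate Real FourierTransform RealInnerProductSpace ContDiff

variable {n : ℕ}

/-- The trace count with an arbitrary restriction bound on thin shells. -/
theorem caseG {Ω : Set (E n)} (hm : MeasurableSet Ω) (hb : Bornology.IsBounded Ω)
    (hV : 0 < volume.real Ω) (hn : 2 ≤ n)
    (L : Submodule ℂ (E n → ℂ)) [FiniteDimensional ℂ L] (hL : ∀ u ∈ L, Test u)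
    (hΩ : ∀ u ∈ L, tsupport u ⊆ Ω) (hR : ∀ u ∈ L, energy Ω u ≤ 4 * π ^ 2 * mass Ω u)
    {β τ η0 : ℝ} (hβ : 0 < β) (hτ : 0 < τ) (hη0 : 0 < η0)
    (hsh : ∀ η : ℝ, 0 < η → η ≤ η0 → ∀ g : E n → ℂ, Integrable g →
      Integrable (fun y => ‖g y‖ ^ 2) → (∫ x, ‖g x‖) ^ 2 ≤ volume.real Ω * ∫ x, ‖g x‖ ^ 2 →
      ∫ ξ in shell n η, ‖ft g ξ‖ ^ 2 ≤ η * (2 * π * τ) * ∫ x, ‖g x‖ ^ 2)
    {m : ℕ} (hm1 : 1 ≤ m) (h : 4 * (m * (13 * τ) ^ 2) ≤
      β * ((n - 1 : ℝ) * om n * (979 / 1000) ^ (n - 2) / 8) *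
        ∫ ζ in mid n β, ‖ft (chi Ω) ζ‖ ^ 2) :
    NeuOK Ω (Module.finrank ℂ L + m) := by
  obtain ⟨D, hD⟩ := hb.exists_norm_le
  have hf : volume Ω ≠ ⊤ := hb.measure_lt_top.ne
  have hc := continuous_ft (integrable_chi hm hf)
  set X := β * ((n - 1 : ℝ) * om n * (979 / 1000) ^ (n - 2) / 8) *
    ∫ ζ in mid n β, ‖ft (chi Ω) ζ‖ ^ 2 with hX
  have hX0 : 0 < X := lt_of_lt_of_le (by positivity) h
  set C := 2 * n * 2 ^ (n - 1) * om n with hC
  have hC0 : 0 < C := by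
    have := om_pos (n := n)
    have : 0 < n := by omega
    positivity
  set Φ : E n → ℝ := fun ζ => ‖ζ‖ ^ 2 * ‖ft (chi Ω) ζ‖ ^ 2 with hΦ
  have hΦc : Continuous Φ := by fun_prop
  obtain ⟨δ, hδ0, hδ⟩ := Metric.uniformContinuousOn_iff.mp
    ((isCompact_closedBall (0 : E n) 4).uniformContinuousOn_of_continuous hΦc.continuousOn)
    (X / (2 * C ^ 2)) (by positivity)
  obtain ⟨η, hη, hη2, hη1, hηβ, hηδ, hητ⟩ : ∃ η : ℝ, 0 < η ∧ η ≤ η0 ∧ η ≤ 1 / 1000 ∧
      η ≤ 2 * β ^ 2 ∧ 4 * η < δ ∧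
      2 * (C * ((2 * π * (2 * η) * D) ^ 2 * volume.real Ω)) < 2 / 5 * τ := by
    have e0 : ∀ᶠ η : ℝ in 𝓝 0, η ≤ η0 := eventually_le_nhds hη0
    have e1 : ∀ᶠ η : ℝ in 𝓝 0, η ≤ 1 / 1000 := eventually_le_nhds (by norm_num)
    have e2 : ∀ᶠ η : ℝ in 𝓝 0, η ≤ 2 * β ^ 2 := eventually_le_nhds (by positivity)
    have e3 : ∀ᶠ η : ℝ in 𝓝 0, 4 * η < δ :=
      (by fun_prop : Continuous fun η : ℝ => 4 * η).continuousAt.eventually_lt
        continuousAt_const (by simpa using hδ0)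
    have e4 : ∀ᶠ η : ℝ in 𝓝 0,
        2 * (C * ((2 * π * (2 * η) * D) ^ 2 * volume.real Ω)) < 2 / 5 * τ :=
      (by fun_prop : Continuous fun η : ℝ =>
        2 * (C * ((2 * π * (2 * η) * D) ^ 2 * volume.real Ω))).continuousAt.eventually_lt
        continuousAt_const (by simpa using hτ)
    obtain ⟨η, h1, h2⟩ := (eventually_mem_nhdsWithin.and
      (((e0.and (e1.and (e2.and (e3.and e4))))).filter_mono nhdsWithin_le_nhds)).exists (f := 𝓝[>] (0 : ℝ))
    exact ⟨η, h1, h2⟩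
  set ν : Measure (E n) := volume.restrict (shell n η) with hν
  have : IsFiniteMeasure ν := ⟨by simpa [hν] using (shell_finite hη (by linarith)).lt_top⟩
  have hM : ν.real Set.univ ≤ η * C := by
    rw [hν, measureReal_restrict_apply_univ]; exact vol_shell_le hη (by linarith)
  have : Nontrivial (E n) := by
    have : Nonempty (Fin n) := ⟨⟨0, by omega⟩⟩
    infer_instance
  obtain ⟨N, x, ind, hi, hxK, hx⟩ := exists_round (isCompact_sphere (0 : E n) 1)
    (NormedSpace.sphere_nonempty.mpr zero_le_one) hη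
  have hx1 : ∀ f, ‖x f‖ = 1 := fun f => mem_sphere_zero_iff_norm.mp (hxK f)
  have hnear : ∀ ξ ∈ shell n η, ‖ξ - x (ind ξ)‖ ≤ 2 * η := fun ξ hξ => by
    obtain ⟨y, hy, hξy⟩ := shell_near (by linarith) hξ
    linarith [hx ξ y hy]
  have hG := gram_le hm hb hV hD ν x hi (δ := 2 * η) (τ := η * (2 * π * τ)) (τ' := η * (13 * τ))
    (by
      rw [hν, ae_restrict_iff' (measurableSet_shell η)]
      exact Eventually.of_forall hnear)
    (fun g hg hg2 hl => hsh η hη hη2 g hg hg2 hl)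
    (by
      have e1 : ν.real Set.univ * ((2 * π * (2 * η) * D) ^ 2 * volume.real Ω) ≤
          η * C * ((2 * π * (2 * η) * D) ^ 2 * volume.real Ω) := by gcongr
      have e2 := mul_le_mul_of_nonneg_left hητ.le hη.le
      have e3 : η * τ * π ≤ η * τ * 3.15 := by gcongr; exact Real.pi_lt_d2.le
      linarith)
    (by positivity)
  refine neu_sphere hm hb L hL hΩ hR x (fun f => ν.real (ind ⁻¹' {f}))
    (fun f => measureReal_nonneg) (by positivity) hG hx1 ?_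
  obtain ⟨i1, e1⟩ := integral_ind_prod ν hi (fun f g => Φ (x f - x g))
  obtain ⟨i2, e2⟩ := shell_conv (n := n) (by omega) (Ψ := fun ζ => ‖ft (chi Ω) ζ‖ ^ 2)
    (by fun_prop) (fun ζ => by positivity) hβ hη hη1 hηβ
  rw [← e1]
  have h1 : ∫ p : E n × E n, ((mid n β).indicator Φ (p.1 - p.2) - X / (2 * C ^ 2)) ∂(ν.prod ν) ≤
      ∫ p, Φ (x (ind p.1) - x (ind p.2)) ∂(ν.prod ν) := by
    refine integral_mono_ae (i2.sub (integrable_const _)) i1 ?_
    rw [hν, Measure.prod_restrict]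
    filter_upwards [ae_restrict_mem ((measurableSet_shell η).prod (measurableSet_shell η))]
      with p hp
    have a1 := hnear _ hp.1
    have a2 := hnear _ hp.2
    have a3 : ‖x (ind p.1) - x (ind p.2)‖ ≤ 2 := by
      have := norm_sub_le (x (ind p.1)) (x (ind p.2))
      rw [hx1, hx1] at this; linarith
    have a4 : dist (p.1 - p.2) (x (ind p.1) - x (ind p.2)) ≤ 4 * η := by
      rw [dist_eq_norm]
      have : p.1 - p.2 - (x (ind p.1) - x (ind p.2)) =
        (p.1 - x (ind p.1)) - (p.2 - x (ind p.2)) := by abel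
      rw [this]
      linarith [norm_sub_le (p.1 - x (ind p.1)) (p.2 - x (ind p.2))]
    have a5 : ‖p.1 - p.2‖ ≤ 4 := by
      have := norm_le_norm_add_norm_sub' (p.1 - p.2) (x (ind p.1) - x (ind p.2))
      rw [dist_eq_norm] at a4
      linarith
    have a6 := hδ _ (mem_closedBall_zero_iff.mpr a5) _
      (mem_closedBall_zero_iff.mpr (a3.trans (by norm_num))) (a4.trans_lt hηδ)
    have a7 : (mid n β).indicator Φ (p.1 - p.2) ≤ Φ (p.1 - p.2) :=
      Set.indicator_le_self' (fun _ _ => by positivity) _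
    rw [Real.dist_eq] at a6
    linarith [(abs_lt.mp a6).2]
  rw [integral_sub i2 (integrable_const _), integral_const, smul_eq_mul] at h1
  have h2 : (ν.prod ν).real Set.univ * (X / (2 * C ^ 2)) ≤ η ^ 2 * X / 2 := by
    rw [← Set.univ_prod_univ, measureReal_prod_prod]
    calc ν.real Set.univ * ν.real Set.univ * (X / (2 * C ^ 2))
        ≤ (η * C) * (η * C) * (X / (2 * C ^ 2)) := by gcongr
      _ = _ := by field_simp
  have h3 := mul_le_mul_of_nonneg_left h (sq_nonneg η)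
  have h4 : η ^ 2 * X ≤
    ∫ p : E n × E n, (mid n β).indicator Φ (p.1 - p.2) ∂(ν.prod ν) := e2
  linarith

end Pool.Agent.P.MP_f791b6_an
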