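import Pool.Agent.P.MP_f791b6_an.Defs

namespace Pool.Agent.P.MP_f791b6_an

open MeasureTheory

variable {n : ℕ}

theorem conf_range {l t ρ c θ : ℝ} (ht : 0 < t) (hl : 1 ≤ l) (hlt : l * t ≤ 1 / 10)
    (hρ0 : 99 / 100 ≤ ρ) (hρ1 : ρ ≤ 1) (hc0 : 0 ≤ c) (hc1 : c ≤ 1 / 400) (h1 : t ≤ θ)
    (h2 : θ ≤ 2 * t) :
    t / 2 ≤ √(ρ * (2 - 2 * Real.cos (l * θ)) + c) ∧ √(ρ * (2 - 2 * Real.cos (l * θ)) + c) ≤ 2 / 5 ∧
      t * (2 * (2 / 5)) ≤ ρ * (2 * (Real.sin (l * θ) * l)) := by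
  have hθ : 0 < θ := by linarith
  have a1 : t ≤ l * θ := h1.trans (le_mul_of_one_le_left hθ.le hl)
  have a2 : l * θ ≤ 1 / 5 := by
    have := mul_le_mul_of_nonneg_left h2 (zero_le_one.trans hl)
    linarith
  generalize l * θ = x at a1 a2
  have hx : 0 < x := by linarith
  have b1 := Real.one_sub_sq_div_two_le_cos (x := x)
  have b2 : Real.cos x ≤ 1 - x ^ 2 / 5 := by
    have h3 := Real.cos_le_one_sub_mul_cos_sq (x := x) (by
      rw [abs_of_pos hx]
      linarith [Real.pi_gt_three])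
    have h4 : Real.pi ^ 2 ≤ 10 := by
      have := Real.pi_lt_d2
      have := Real.pi_pos
      nlinarith
    have h5 : 1 / 5 ≤ 2 / Real.pi ^ 2 := by
      rw [le_div_iff₀ (by positivity)]
      linarith
    nlinarith [sq_nonneg x]
  have b3 : x / 2 ≤ Real.sin x := by
    have h3 := Real.mul_le_sin hx.le (by linarith [Real.pi_gt_three])
    have h5 : 1 / 2 ≤ 2 / Real.pi := by
      rw [le_div_iff₀ Real.pi_pos]
      linarith [Real.pi_le_four]
    nlinarith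
  have b4 := Real.cos_le_one x
  have b5 : t ^ 2 ≤ x ^ 2 := pow_le_pow_left₀ ht.le a1 2
  have b6 : x ^ 2 ≤ (1 / 5) ^ 2 := pow_le_pow_left₀ hx.le a2 2
  refine ⟨Real.le_sqrt_of_sq_le ?_, Real.sqrt_le_iff.2 ⟨by norm_num, ?_⟩, ?_⟩
  · have := mul_le_mul_of_nonneg_right hρ0 (show 0 ≤ 2 - 2 * Real.cos x by linarith)
    nlinarith [sq_nonneg t]
  · have := mul_le_mul_of_nonneg_right hρ1 (show 0 ≤ 2 - 2 * Real.cos x by linarith)
    nlinarith
  · have h3 : Real.sin x ≤ Real.sin x * l := le_mul_of_one_le_right (by linarith) hl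
    have := mul_le_mul_of_nonneg_right hρ0 (show 0 ≤ 2 * (Real.sin x * l) by linarith)
    linarith

theorem conf_int {H : ℝ → ℝ} (hH : Continuous H) (hH0 : ∀ s, 0 ≤ H s) {l t ρ c : ℝ} (ht : 0 < t)
    (hl : 1 ≤ l) (hlt : l * t ≤ 1 / 10) (hρ0 : 99 / 100 ≤ ρ) (hρ1 : ρ ≤ 1) (hc0 : 0 ≤ c)
    (hc1 : c ≤ 1 / 400) :
    t * ∫ θ in t..2 * t, H √(ρ * (2 - 2 * Real.cos (l * θ)) + c) ≤
      ∫ s in (t / 2)..(2 / 5), H s := by
  have h2t : t ≤ 2 * t := by linarith
  have hr := fun θ (h : θ ∈ Set.Icc t (2 * t)) =>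
    conf_range ht hl hlt hρ0 hρ1 hc0 hc1 h.1 h.2
  have hD : Continuous fun θ : ℝ => √(ρ * (2 - 2 * Real.cos (l * θ)) + c) := by fun_prop
  have hne : ∀ θ ∈ Set.Icc t (2 * t), 0 < √(ρ * (2 - 2 * Real.cos (l * θ)) + c) := fun θ h =>
    lt_of_lt_of_le (by linarith) (hr θ h).1
  have hd : ∀ θ ∈ Set.uIcc t (2 * t),
      HasDerivAt (fun θ : ℝ => √(ρ * (2 - 2 * Real.cos (l * θ)) + c))
        (ρ * (2 * (Real.sin (l * θ) * l)) / (2 * √(ρ * (2 - 2 * Real.cos (l * θ)) + c))) θ := by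
    intro θ h
    rw [Set.uIcc_of_le h2t] at h
    refine HasDerivAt.sqrt ?_ (Real.sqrt_pos.1 (hne θ h)).ne'
    have h1 : HasDerivAt (fun θ : ℝ => l * θ) l θ := by
      simpa using (hasDerivAt_id θ).const_mul l
    have h2 := (((h1.cos.const_mul 2).const_sub 2).const_mul ρ).add_const c
    refine h2.congr_deriv ?_
    ring
  have hc : ContinuousOn (fun θ : ℝ =>
      ρ * (2 * (Real.sin (l * θ) * l)) / (2 * √(ρ * (2 - 2 * Real.cos (l * θ)) + c)))
      (Set.uIcc t (2 * t)) := by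
    refine ContinuousOn.div (by fun_prop) (by fun_prop) fun θ h => ?_
    rw [Set.uIcc_of_le h2t] at h
    exact mul_ne_zero two_ne_zero (hne θ h).ne'
  have h1 := intervalIntegral.integral_comp_mul_deriv hd hc hH
  have h2 : √(ρ * (2 - 2 * Real.cos (l * t)) + c) ≤ √(ρ * (2 - 2 * Real.cos (l * (2 * t))) + c) := by
    refine Real.sqrt_le_sqrt ?_
    have h3 : 0 < l * t := by positivity
    have h4 := Real.cos_le_cos_of_nonneg_of_le_pi (x := l * t) (y := l * (2 * t)) h3.le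
      (by linarith [Real.pi_gt_three]) (by linarith)
    have := mul_le_mul_of_nonneg_left h4 (show 0 ≤ ρ by linarith)
    linarith
  refine le_trans ?_ (h1.le.trans (intervalIntegral.integral_mono_interval
    (hr t ⟨le_rfl, h2t⟩).1 h2 (hr _ ⟨h2t, le_rfl⟩).2.1
    (Filter.Eventually.of_forall hH0) (hH.intervalIntegrable _ _)))
  rw [← intervalIntegral.integral_const_mul]
  refine intervalIntegral.integral_mono_on h2t
    ((continuous_const.mul (hH.comp hD)).intervalIntegrable _ _)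
    (((hH.comp hD).continuousOn.mul hc).intervalIntegrable) fun θ h => ?_
  rw [mul_comm]
  refine mul_le_mul_of_nonneg_left ?_ (hH0 _)
  rw [le_div_iff₀ (mul_pos two_pos (hne θ h))]
  refine le_trans ?_ (hr θ h).2.2
  have := (hr θ h).2.1
  gcongr

/-- A vector supported on the first three coordinates. -/
noncomputable def confV (k : ℕ) (a b c : ℝ) : E (k + 3) :=
  WithLp.toLp 2 (Matrix.vecCons a (Matrix.vecCons b (Matrix.vecCons c 0)))

theorem conf_norm (k : ℕ) (a b c : ℝ) : ‖confV k a b c‖ = √(a ^ 2 + b ^ 2 + c ^ 2) := by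
  rw [EuclideanSpace.norm_eq]
  simp [confV, Fin.sum_univ_succ, add_assoc]

theorem conf_sub (k : ℕ) (a b c a' b' c' : ℝ) :
    confV k a b c - confV k a' b' c' = confV k (a - a') (b - b') (c - c') := by
  ext i
  refine Fin.cases ?_ (fun i => Fin.cases ?_ (fun i => Fin.cases ?_ (fun i => ?_) i) i) i <;>
    simp [confV]

/-- Pairs of unit vectors with a common difference and well spread cross distances. -/
theorem exists_conf (hn : 3 ≤ n) {m : ℕ} (hm : 1 ≤ m) {H : ℝ → ℝ} (hH : Continuous H)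
    (hH0 : ∀ s, 0 ≤ H s) {r A : ℝ} (hr0 : 0 ≤ r) (hr : r ≤ 1 / (20 * m))
    (h : 400 * (m : ℝ) ^ 4 * ∫ s in (1 / (20 * m) : ℝ)..(2 / 5), H s < A) :
    ∃ (z : E n) (x : Fin m × Bool → E n), ‖z‖ = r ∧ (∀ p, ‖x p‖ = 1) ∧
      (∀ i, x (i, true) - x (i, false) = z) ∧
      ∑ p : Fin m × Bool, ∑ q : Fin m × Bool, (if p.1 = q.1 then 0 else H ‖x p - x q‖) < A := by
  obtain ⟨k, rfl⟩ : ∃ k, n = k + 3 := ⟨n - 3, by omega⟩
  have hm1 : (1 : ℝ) ≤ m := by exact_mod_cast hm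
  have hr1 : r ≤ 1 / 20 := hr.trans (one_div_le_one_div_of_le (by norm_num) (by linarith))
  have hr2 : r ^ 2 ≤ 1 / 400 := by nlinarith
  obtain ⟨t, ht⟩ : ∃ t : ℝ, t = 1 / (10 * m) := ⟨_, rfl⟩
  have ht0 : 0 < t := by rw [ht]; positivity
  have ht1 : m * t = 1 / 10 := by rw [ht]; field_simp
  rw [show (1 / (20 * m) : ℝ) = t / 2 by rw [ht]; field_simp; norm_num] at h
  obtain ⟨B, hB⟩ : ∃ B, B = ∫ s in (t / 2)..(2 / 5), H s := ⟨_, rfl⟩
  have hB0 : 0 ≤ B := by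
    rw [hB]
    exact intervalIntegral.integral_nonneg (by nlinarith) fun u _ => hH0 u
  have hρ : 0 ≤ 1 - r ^ 2 / 4 := by linarith
  obtain ⟨σ, hσ⟩ : ∃ σ : Bool → ℝ, σ = fun s => if s then r / 2 else -(r / 2) := ⟨_, rfl⟩
  have hσ1 : ∀ s, σ s ^ 2 = r ^ 2 / 4 := fun s => by cases s <;> simp [hσ] <;> ring
  have hσ2 : ∀ s s', (σ s - σ s') ^ 2 ≤ 1 / 400 := fun s s' => by
    cases s <;> cases s' <;> simp [hσ] <;> linarith
  obtain ⟨F, hF⟩ : ∃ F : Fin m × Bool → Fin m × Bool → ℝ → ℝ, F = fun p q θ =>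
      if p.1 = q.1 then 0 else H √((1 - r ^ 2 / 4) *
        (2 - 2 * Real.cos (|((p.1 : ℕ) : ℝ) - (q.1 : ℕ)| * θ)) + (σ p.2 - σ q.2) ^ 2) := ⟨_, rfl⟩
  have hFc : ∀ p q, Continuous (F p q) := fun p q => by
    rw [hF]
    by_cases hpq : p.1 = q.1
    · simp only [if_pos hpq]
      exact continuous_const
    · simp only [if_neg hpq]
      fun_prop
  have hFi : ∀ p q, t * ∫ θ in t..2 * t, F p q θ ≤ B := fun p q => by
    rw [hF]
    by_cases hpq : p.1 = q.1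
    · simpa [hpq] using hB0
    · simp only [if_neg hpq]
      rw [hB]
      refine conf_int hH hH0 ht0 ?_ ?_ (by linarith) (by nlinarith) (sq_nonneg _) (hσ2 _ _)
      · have : ((p.1 : ℕ) : ℤ) - (q.1 : ℕ) ≠ 0 := fun h0 => hpq (Fin.ext (by omega))
        exact_mod_cast Int.one_le_abs this
      · rw [← ht1]
        refine mul_le_mul_of_nonneg_right ?_ ht0.le
        have a1 : ((p.1 : ℕ) : ℝ) ≤ m := by exact_mod_cast p.1.2.le
        have a2 : ((q.1 : ℕ) : ℝ) ≤ m := by exact_mod_cast q.1.2.le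
        have a3 : (0 : ℝ) ≤ (p.1 : ℕ) := Nat.cast_nonneg _
        have a4 : (0 : ℝ) ≤ (q.1 : ℕ) := Nat.cast_nonneg _
        rw [abs_le]
        constructor <;> linarith
  obtain ⟨θ, hθ⟩ : ∃ θ, ∑ p, ∑ q, F p q θ < A := by
    by_contra hcon
    simp only [not_exists, not_lt] at hcon
    have h1 : ∫ _ in t..2 * t, A ≤ ∫ θ in t..2 * t, ∑ p, ∑ q, F p q θ :=
      intervalIntegral.integral_mono_on (by linarith) (continuous_const.intervalIntegrable _ _)
        (Continuous.intervalIntegrable (by fun_prop) _ _) fun θ _ => hcon θ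
    rw [intervalIntegral.integral_const, intervalIntegral.integral_finsetSum fun p _ =>
      Continuous.intervalIntegrable (by fun_prop) _ _] at h1
    have h2 : t * ∑ p, ∫ θ in t..2 * t, ∑ q, F p q θ ≤
        ∑ _p : Fin m × Bool, ∑ _q : Fin m × Bool, B := by
      rw [Finset.mul_sum]
      refine Finset.sum_le_sum fun p _ => ?_
      rw [intervalIntegral.integral_finsetSum fun q _ => (hFc p q).intervalIntegrable _ _,
        Finset.mul_sum]
      exact Finset.sum_le_sum fun q _ => hFi p q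
    simp only [Finset.sum_const, Finset.card_univ, Fintype.card_prod, Fintype.card_fin,
      Fintype.card_bool, nsmul_eq_mul, Nat.cast_mul, Nat.cast_ofNat] at h2
    rw [smul_eq_mul, show 2 * t - t = t by ring] at h1
    have h3 := (mul_le_mul_of_nonneg_left h1 ht0.le).trans h2
    have h4 := mul_le_mul_of_nonneg_left h3 (show (0 : ℝ) ≤ 100 * m ^ 2 by positivity)
    have h5 : 100 * (m : ℝ) ^ 2 * (t * (t * A)) = 100 * (m * t) ^ 2 * A := by ring
    rw [h5, ht1] at h4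
    rw [← hB] at h
    linarith
  refine ⟨confV k r 0 0, fun p => confV k (σ p.2) (√(1 - r ^ 2 / 4) * Real.cos ((p.1 : ℕ) * θ))
    (√(1 - r ^ 2 / 4) * Real.sin ((p.1 : ℕ) * θ)), ?_, fun p => ?_, fun i => ?_, ?_⟩
  · rw [conf_norm]
    simpa using Real.sqrt_sq hr0
  · rw [conf_norm, Real.sqrt_eq_one, hσ1, mul_pow, mul_pow, Real.sq_sqrt hρ, add_assoc, ← mul_add,
      Real.cos_sq_add_sin_sq]
    ring
  · rw [conf_sub]
    simp [hσ]
  · refine lt_of_eq_of_lt ?_ hθ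
    refine Finset.sum_congr rfl fun p _ => Finset.sum_congr rfl fun q _ => ?_
    rw [hF, conf_sub, conf_norm]
    have e1 : Real.cos (|((p.1 : ℕ) : ℝ) - (q.1 : ℕ)| * θ) =
        Real.cos ((p.1 : ℕ) * θ - (q.1 : ℕ) * θ) := by
      rcases abs_choice (((p.1 : ℕ) : ℝ) - (q.1 : ℕ)) with e | e <;> rw [e]
      · rw [sub_mul]
      · rw [neg_mul, Real.cos_neg, sub_mul]
    simp only [e1, Real.cos_sub]
    congr 3
    rw [← mul_sub, ← mul_sub, mul_pow, mul_pow, Real.sq_sqrt hρ]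
    have a1 := Real.cos_sq_add_sin_sq ((p.1 : ℕ) * θ)
    have a2 := Real.cos_sq_add_sin_sq ((q.1 : ℕ) * θ)
    linear_combination (1 - r ^ 2 / 4) * (a1 + a2)

end Pool.Agent.P.MP_f791b6_an
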