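import Pool.Agent.P.MP_f791b6_an.LinAlg

namespace Pool.Agent.P.MP_f791b6_an

open scoped ComplexConjugate

lemma lin_cross {F : Type*} [Fintype F] (R : F → F → ℂ) (c : F → ℂ) :
    (∑ p, ∑ q, conj (c p) * R p q * c q).re ≤
      Real.sqrt (∑ p, ∑ q, ‖R p q‖ ^ 2) * ∑ p, ‖c p‖ ^ 2 := by
  classical
  have h1 : (∑ p, ∑ q, conj (c p) * R p q * c q).re ≤
      ∑ x : F × F, ‖R x.1 x.2‖ * (‖c x.1‖ * ‖c x.2‖) := by
    rw [Fintype.sum_prod_type]
    refine (Complex.re_le_norm _).trans ((norm_sum_le _ _).trans ?_)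
    refine Finset.sum_le_sum fun p _ => (norm_sum_le _ _).trans ?_
    refine Finset.sum_le_sum fun q _ => le_of_eq ?_
    rw [norm_mul, norm_mul, Complex.norm_conj]; ring
  have h2 := Finset.sum_mul_sq_le_sq_mul_sq (Finset.univ : Finset (F × F))
    (fun x => ‖R x.1 x.2‖) (fun x => ‖c x.1‖ * ‖c x.2‖)
  have h3 : ∑ x : F × F, (‖c x.1‖ * ‖c x.2‖) ^ 2 = (∑ p, ‖c p‖ ^ 2) ^ 2 := by
    rw [Fintype.sum_prod_type, sq (∑ p, ‖c p‖ ^ 2), Finset.sum_mul_sum]
    exact Finset.sum_congr rfl fun p _ => Finset.sum_congr rfl fun q _ => by ring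
  have h4 : ∑ x : F × F, ‖R x.1 x.2‖ ^ 2 = ∑ p, ∑ q, ‖R p q‖ ^ 2 := by
    rw [Fintype.sum_prod_type]
  rw [h3, h4] at h2
  refine h1.trans ?_
  have hS : 0 ≤ ∑ p, ‖c p‖ ^ 2 := Finset.sum_nonneg fun _ _ => sq_nonneg _
  have hX : 0 ≤ ∑ p, ∑ q, ‖R p q‖ ^ 2 :=
    Finset.sum_nonneg fun _ _ => Finset.sum_nonneg fun _ _ => sq_nonneg _
  refine le_trans (le_abs_self _) (abs_le_of_sq_le_sq ?_ (by positivity))
  rw [mul_pow, Real.sq_sqrt hX]
  exact h2

/-- Block diagonally dominant matrices with blocks `[[0, κ], [conj κ, 0]]` have a negative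
direction for each block. -/
theorem pairs_neg {m : ℕ} (Q : Matrix (Fin m × Bool) (Fin m × Bool) ℂ) (κ : ℂ)
    (hd : ∀ p, Q p p = 0) (h1 : ∀ i, Q (i, true) (i, false) = κ)
    (h2 : ∀ i, Q (i, false) (i, true) = conj κ)
    (h : ∑ p : Fin m × Bool, ∑ q : Fin m × Bool, (if p.1 = q.1 then 0 else ‖Q p q‖ ^ 2) <
      ‖κ‖ ^ 2) :
    ∃ Φ : (Fin m → ℂ) →ₗ[ℂ] (Fin m × Bool → ℂ), ∀ a, a ≠ 0 → qf Q (Φ a) < 0 := by
  classical
  set X := ∑ p : Fin m × Bool, ∑ q : Fin m × Bool,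
    (if p.1 = q.1 then (0 : ℝ) else ‖Q p q‖ ^ 2) with hXdef
  have hX0 : 0 ≤ X := Finset.sum_nonneg fun _ _ => Finset.sum_nonneg fun _ _ => by
    split_ifs <;> positivity
  have hk : 0 < ‖κ‖ := by
    rcases (norm_nonneg κ).lt_or_eq with h0 | h0
    · exact h0
    · rw [← h0] at h; linarith [h, hX0, (by norm_num : (0 : ℝ) ^ 2 = 0)]
  have hkc : (‖κ‖ : ℂ) ≠ 0 := by exact_mod_cast hk.ne'
  set om : ℂ := conj κ / (‖κ‖ : ℂ) with hom
  have hom1 : ‖om‖ = 1 := by
    rw [hom, norm_div, Complex.norm_conj, Complex.norm_real, Real.norm_eq_abs, abs_of_pos hk,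
      div_self hk.ne']
  have hko : κ * om = (‖κ‖ : ℂ) := by
    rw [hom, ← mul_div_assoc, Complex.mul_conj', div_eq_iff hkc]; ring
  have hko' : conj om * conj κ = (‖κ‖ : ℂ) := by
    rw [← map_mul, mul_comm, hko, Complex.conj_ofReal]
  let w : Bool → ℂ := fun b => if b then 1 else -om
  let Φ : (Fin m → ℂ) →ₗ[ℂ] (Fin m × Bool → ℂ) :=
    { toFun := fun a p => w p.2 * a p.1
      map_add' := fun a b => by ext p; simp [mul_add]
      map_smul' := fun t a => by ext p; simp; ring }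
  have hΦ : ∀ a p, Φ a p = w p.2 * a p.1 := fun _ _ => rfl
  refine ⟨Φ, fun a ha => ?_⟩
  set S := ∑ i, ‖a i‖ ^ 2 with hS
  have hSpos : 0 < S := by
    obtain ⟨j0, hj0⟩ : ∃ j, a j ≠ 0 := by
      by_contra hh; push Not at hh; exact ha (funext hh)
    exact Finset.sum_pos' (fun _ _ => sq_nonneg _) ⟨j0, Finset.mem_univ _, by positivity⟩
  have hn : ∑ p, ‖Φ a p‖ ^ 2 = 2 * S := by
    rw [Fintype.sum_prod_type, hS, Finset.mul_sum]
    refine Finset.sum_congr rfl fun i _ => ?_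
    simp only [Fintype.sum_bool, hΦ, w, if_true, Bool.false_eq_true, if_false, norm_mul, norm_neg,
      hom1, norm_one]
    ring
  let R : Fin m × Bool → Fin m × Bool → ℂ := fun p q => if p.1 = q.1 then 0 else Q p q
  let D : Fin m × Bool → Fin m × Bool → ℂ := fun p q => if p.1 = q.1 then Q p q else 0
  have hsplit : ∑ p, ∑ q, conj (Φ a p) * Q p q * Φ a q =
      ∑ p, ∑ q, conj (Φ a p) * D p q * Φ a q + ∑ p, ∑ q, conj (Φ a p) * R p q * Φ a q := by
    rw [← Finset.sum_add_distrib]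
    refine Finset.sum_congr rfl fun p _ => ?_
    rw [← Finset.sum_add_distrib]
    refine Finset.sum_congr rfl fun q _ => ?_
    simp only [R, D]
    split_ifs <;> ring
  have hD : ∑ p, ∑ q, conj (Φ a p) * D p q * Φ a q = ((-(2 * ‖κ‖ * S) : ℝ) : ℂ) := by
    rw [Fintype.sum_prod_type, hS, Finset.mul_sum, ← Finset.sum_neg_distrib, Complex.ofReal_sum]
    refine Finset.sum_congr rfl fun i _ => ?_
    have e : ∀ b : Bool, ∑ q : Fin m × Bool, conj (Φ a (i, b)) * D (i, b) q * Φ a q =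
        ∑ b' : Bool, conj (Φ a (i, b)) * Q (i, b) (i, b') * Φ a (i, b') := by
      intro b
      rw [Fintype.sum_prod_type, Finset.sum_eq_single i]
      · simp only [D, if_true]
      · intro j _ hj
        refine Finset.sum_eq_zero fun b' _ => ?_
        simp only [D, if_neg (Ne.symm hj), mul_zero, zero_mul]
      · simp
    rw [Finset.sum_congr rfl fun b _ => e b]
    simp only [Fintype.sum_bool, hd, h1, h2, hΦ, w, if_true, Bool.false_eq_true, if_false,
      mul_zero, zero_mul, zero_add, add_zero, one_mul, map_mul, map_neg, map_one]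
    have e2 : conj (a i) * a i = ((‖a i‖ ^ 2 : ℝ) : ℂ) := by
      rw [Complex.conj_mul']; push_cast; ring
    have e3 : conj (a i) * κ * (-om * a i) + -conj om * conj (a i) * conj κ * a i =
        -((κ * om) + (conj om * conj κ)) * (conj (a i) * a i) := by ring
    rw [e3, hko, hko', e2]; push_cast; ring
  have hR := lin_cross R (Φ a)
  have hRX : ∑ p, ∑ q, ‖R p q‖ ^ 2 = X := by
    rw [hXdef]
    refine Finset.sum_congr rfl fun p _ => Finset.sum_congr rfl fun q _ => ?_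
    simp only [R]
    split_ifs <;> simp
  rw [hRX, hn] at hR
  have hsq : Real.sqrt X < ‖κ‖ := by
    rw [Real.sqrt_lt' hk]; exact h
  rw [qf_eq, hsplit, Complex.add_re, hD, Complex.ofReal_re]
  nlinarith [mul_lt_mul_of_pos_right hsq hSpos]

end Pool.Agent.P.MP_f791b6_an
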