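import Pool.Agent.P.MP_f791b6_an.Cases
import Pool.Agent.P.MP_f791b6_an.N4Avg
import Pool.Agent.P.MP_f791b6_an.N4Lin
import Pool.Agent.P.MP_f791b6_an.N4Conf

namespace Pool.Agent.P.MP_f791b6_an

open MeasureTheory Complex Metric
open scoped ComplexConjugate Real RealInnerProductSpace

variable {n : ℕ}

lemma Qm_unit {F : Type*} (Ω : Set (E n)) (x : F → E n) (hx : ∀ f, ‖x f‖ = 1) (f g : F) :
    Qm Ω x (fun _ => 1) f g = ((-(‖x f - x g‖ ^ 2 / 2) : ℝ) : ℂ) * ft (chi Ω) (x f - x g) := by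
  have : ⟪x f, x g⟫ - 1 = -(‖x f - x g‖ ^ 2 / 2) := by
    rw [norm_sub_sq_real, hx, hx]; ring
  simp only [Qm, Gm, this, ofReal_one, one_mul]

lemma norm_Qm_unit {F : Type*} (Ω : Set (E n)) (x : F → E n) (hx : ∀ f, ‖x f‖ = 1) (f g : F) :
    ‖Qm Ω x (fun _ => 1) f g‖ ^ 2 = ‖x f - x g‖ ^ 4 * ‖ft (chi Ω) (x f - x g)‖ ^ 2 / 4 := by
  rw [Qm_unit Ω x hx, norm_mul, mul_pow, Complex.norm_real, Real.norm_eq_abs, sq_abs]; ring

/-- Pairs of plane waves with a common difference of frequencies. -/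
theorem caseC {Ω : Set (E n)} (hm : MeasurableSet Ω) (hb : Bornology.IsBounded Ω)
    (hn : 4 ≤ n) (hn5 : n ≤ 5)
    (L : Submodule ℂ (E n → ℂ)) [FiniteDimensional ℂ L] (hL : ∀ u ∈ L, Test u)
    (hΩ : ∀ u ∈ L, tsupport u ⊆ Ω) (hR : ∀ u ∈ L, energy Ω u ≤ 4 * π ^ 2 * mass Ω u)
    {m : ℕ} (hm1 : 1 ≤ m) {β : ℝ} (hβ : 0 < β) (hβ1 : β ≤ 1 / (20 * m))
    (h : 400 * (m : ℝ) ^ 4 * Real.log (1 / β) * ∫ ζ in mid n (1 / (20 * m)), ‖ft (chi Ω) ζ‖ ^ 2 <
      ∫ ζ in closedBall (0 : E n) (1 / (20 * m)) \ ball 0 β, ‖ft (chi Ω) ζ‖ ^ 2) :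
    NeuOK Ω (Module.finrank ℂ L + m) := by
  have hf : volume Ω ≠ ⊤ := hb.measure_lt_top.ne
  have hc := continuous_ft (integrable_chi hm hf)
  obtain ⟨F, hF, hF0, hann, hrot⟩ := exists_avg (n := n) (by omega)
    (f := fun ζ => ‖ft (chi Ω) ζ‖ ^ 2) (by fun_prop) (fun ζ => by positivity)
  have hm' : (1 : ℝ) ≤ m := by exact_mod_cast hm1
  set θ : ℝ := 1 / (20 * m) with hθ
  have hθ0 : 0 < θ := by positivity
  have hθ1 : θ ≤ 1 / 20 := by rw [hθ]; gcongr; linarith
  set H : ℝ → ℝ := fun s => s ^ 4 * F s with hH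
  have hHc : Continuous H := by fun_prop
  have hH0 : ∀ s, 0 ≤ H s := fun s => mul_nonneg (by positivity) (hF0 s)
  have hc0 : 0 < n * om n := by
    have := om_pos (n := n)
    have : 0 < n := by omega
    positivity
  set B := ∫ s in θ..(2 / 5), H s with hB
  have hB0 : 0 ≤ B := intervalIntegral.integral_nonneg (by linarith) fun s _ => hH0 s
  have hlog : 0 ≤ Real.log (1 / β) := Real.log_nonneg (by rw [le_div_iff₀ hβ]; linarith)
  have h1 : n * om n * B ≤ ∫ ζ in mid n θ, ‖ft (chi Ω) ζ‖ ^ 2 := by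
    rw [mid, hann θ (2 / 5) hθ0 (by linarith)]
    refine mul_le_mul_of_nonneg_left (intervalIntegral.integral_mono_on (by linarith)
      (hHc.intervalIntegrable _ _) ((by fun_prop : Continuous fun r : ℝ =>
        r ^ (n - 1) * F r).intervalIntegrable _ _) fun s hs => ?_) hc0.le
    exact mul_le_mul_of_nonneg_right (pow_le_pow_of_le_one (by linarith [hs.1])
      (by linarith [hs.2]) (by omega)) (hF0 s)
  obtain ⟨r, hr, hrA⟩ : ∃ r ∈ Set.Icc β θ, 400 * (m : ℝ) ^ 4 * B < H r := by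
    by_contra hcon
    push Not at hcon
    rw [hann β θ hβ hβ1] at h
    have h2 : ∫ r in β..θ, r ^ (n - 1) * F r ≤ ∫ r in β..θ, 400 * (m : ℝ) ^ 4 * B * r⁻¹ := by
      refine intervalIntegral.integral_mono_on hβ1 ((by fun_prop : Continuous fun r : ℝ =>
        r ^ (n - 1) * F r).intervalIntegrable _ _) ?_ fun s hs => ?_
      · refine (ContinuousOn.intervalIntegrable ?_)
        rw [Set.uIcc_of_le hβ1]
        exact continuousOn_const.mul (continuousOn_id.inv₀ fun s hs => (hβ.trans_le hs.1).ne')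
      · have hs0 : 0 < s := hβ.trans_le hs.1
        calc s ^ (n - 1) * F s ≤ s ^ 3 * F s :=
              mul_le_mul_of_nonneg_right (pow_le_pow_of_le_one hs0.le
                (by linarith [hs.2]) (by omega)) (hF0 s)
          _ = H s * s⁻¹ := by simp only [hH]; field_simp
          _ ≤ _ := mul_le_mul_of_nonneg_right (hcon s hs) (by positivity)
    rw [intervalIntegral.integral_const_mul, integral_inv_of_pos hβ hθ0] at h2
    have h3 : Real.log (θ / β) ≤ Real.log (1 / β) :=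
      Real.log_le_log (by positivity) (by gcongr; linarith)
    have h4 : n * om n * ∫ r in β..θ, r ^ (n - 1) * F r ≤
        400 * (m : ℝ) ^ 4 * Real.log (1 / β) * (n * om n * B) := by
      calc _ ≤ n * om n * (400 * (m : ℝ) ^ 4 * B * Real.log (1 / β)) :=
            mul_le_mul_of_nonneg_left (h2.trans (by gcongr)) hc0.le
        _ = _ := by ring
    have h5 : 400 * (m : ℝ) ^ 4 * Real.log (1 / β) * (n * om n * B) ≤
        400 * (m : ℝ) ^ 4 * Real.log (1 / β) * ∫ ζ in mid n θ, ‖ft (chi Ω) ζ‖ ^ 2 := by gcongr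
    linarith
  obtain ⟨z, x, hz, hx, hxz, hsum⟩ := exists_conf (n := n) (by omega) hm1 hHc hH0
    (hβ.le.trans hr.1) hr.2 hrA
  obtain ⟨ρ, hρ⟩ := hrot (Option ((Fin m × Bool) × (Fin m × Bool)))
    (fun o => o.elim z fun p => x p.1 - x p.2)
    (fun o => o.elim (‖z‖ ^ 4) fun p => if p.1.1 = p.2.1 then 0 else -‖x p.1 - x p.2‖ ^ 4) (by
      rw [Fintype.sum_option, Fintype.sum_prod_type]
      simp only [Option.elim_none, Option.elim_some, hz]
      have : ∀ p q : Fin m × Bool, (if p.1 = q.1 then 0 else -‖x p - x q‖ ^ 4) * F ‖x p - x q‖ =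
          -(if p.1 = q.1 then 0 else H ‖x p - x q‖) := fun p q => by
        split_ifs <;> simp [hH]
      simp only [this, Finset.sum_neg_distrib]
      change 0 < H r + _
      linarith)
  rw [Fintype.sum_option, Fintype.sum_prod_type] at hρ
  simp only [Option.elim_none, Option.elim_some] at hρ
  have hy : ∀ p, ‖ρ (x p)‖ = 1 := fun p => by rw [ρ.norm_map, hx]
  obtain ⟨Φ, hΦ⟩ := pairs_neg (Qm Ω (fun p => ρ (x p)) fun _ => 1)
    (((-(‖z‖ ^ 2 / 2) : ℝ) : ℂ) * ft (chi Ω) (ρ z))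
    (fun p => by rw [Qm_unit Ω _ hy]; simp)
    (fun i => by rw [Qm_unit Ω _ hy, ← map_sub, hxz, ρ.norm_map])
    (fun i => by
      have := (Qm_isHermitian hm (fun p => ρ (x p)) fun _ => 1).apply (i, false) (i, true)
      rw [← this, Qm_unit Ω _ hy, ← map_sub, hxz, ρ.norm_map]; rfl)
    (by
      have e1 : ∀ p q : Fin m × Bool,
          (if p.1 = q.1 then 0 else ‖Qm Ω (fun p => ρ (x p)) (fun _ => 1) p q‖ ^ 2) =
          -((if p.1 = q.1 then 0 else -‖x p - x q‖ ^ 4) *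
            ‖ft (chi Ω) (ρ (x p - x q))‖ ^ 2) / 4 := fun p q => by
        split_ifs
        · simp
        · rw [norm_Qm_unit Ω _ hy, ← map_sub, ρ.norm_map]; ring
      simp only [e1, ← Finset.sum_div, Finset.sum_neg_distrib]
      rw [norm_mul, mul_pow, Complex.norm_real, Real.norm_eq_abs, sq_abs]
      linarith)
  exact filonov hm hb L hL hΩ hR _ _ (Or.inr hy) Φ hΦ

end Pool.Agent.P.MP_f791b6_an
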