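import Pool.Agent.P.MP_f791b6_an.N4Far

namespace Pool.Agent.P.MP_f791b6_an

open MeasureTheory Complex
open scoped ComplexConjugate Real

/-- The time dependent integrand of the shell kernel. -/
noncomputable def sh4_A {n : ℕ} (g : E n → ℂ) (η t : ℝ) : ℂ :=
  cexp (-((η ^ 2 : ℝ) : ℂ) * t ^ 2) * cexp (I * ((-t : ℝ) : ℂ)) *
    ∫ ξ : E n, cexp (-(((1 / 8 : ℝ) : ℂ) - I * t) * ‖ξ‖ ^ 2) * ((‖ft g ξ‖ ^ 2 : ℝ) : ℂ)

lemma sh4_pre {n : ℕ} {g : E n → ℂ} (hg : Integrable g) {η : ℝ} (hη : 0 < η) (hη1 : η ≤ 1) :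
    Integrable (sh4_A g η) ∧
      ∫ ξ in shell n η, ‖ft g ξ‖ ^ 2 ≤ η * ‖∫ t : ℝ, sh4_A g η t‖ := by
  have hc := continuous_ft hg
  set w : E n → ℝ := fun ξ => Real.exp (-(1 / 8) * ‖ξ‖ ^ 2) * ‖ft g ξ‖ ^ 2 *
    (√π / η * Real.exp (-(‖ξ‖ ^ 2 - 1) ^ 2 / (4 * η ^ 2))) with hw
  have iG := integrable_GI hg (a := 1 / 8) (by norm_num)
  have iw : Integrable w := by
    refine iG.mul_bdd (c := √π / η) (by fun_prop) (Filter.Eventually.of_forall fun ξ => ?_)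
    rw [Real.norm_eq_abs, abs_of_nonneg (by positivity)]
    refine mul_le_of_le_one_right (by positivity) (Real.exp_le_one_iff.mpr ?_)
    have : 0 ≤ (‖ξ‖ ^ 2 - 1) ^ 2 / (4 * η ^ 2) := by positivity
    rw [neg_div]; linarith
  have step1 : ∫ ξ in shell n η, ‖ft g ξ‖ ^ 2 ≤ η * ∫ ξ, w ξ := by
    rw [← integral_indicator (measurableSet_shell η), ← integral_const_mul]
    refine integral_mono_of_nonneg (Filter.Eventually.of_forall fun ξ => ?_) (iw.const_mul _)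
      (Filter.Eventually.of_forall fun ξ => ?_)
    · exact Set.indicator_nonneg (fun _ _ => by positivity) _
    · by_cases hξ : ξ ∈ shell n η
      · simp only [Set.indicator_of_mem hξ, hw]
        have h1 : |‖ξ‖ ^ 2 - 1| ≤ η := hξ
        have h2 : (‖ξ‖ ^ 2 - 1) ^ 2 ≤ η ^ 2 := by
          rw [← sq_abs]; exact pow_le_pow_left₀ (abs_nonneg _) h1 2
        have h3 : -(1 / 4 : ℝ) ≤ -(‖ξ‖ ^ 2 - 1) ^ 2 / (4 * η ^ 2) := by
          rw [le_div_iff₀ (by positivity)]; linarith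
        have h4 : -(1 / 4 : ℝ) ≤ -(1 / 8) * ‖ξ‖ ^ 2 := by
          have := (abs_le.mp h1).2; linarith
        have h5 : Real.exp (1 / 2) ≤ √π := by
          refine Real.le_sqrt_of_sq_le ?_
          rw [← Real.exp_nat_mul]
          have := Real.exp_one_lt_d9
          have := Real.pi_gt_three
          norm_num; linarith
        have h6 : 1 ≤ Real.exp (-(1 / 8) * ‖ξ‖ ^ 2) * √π *
            Real.exp (-(‖ξ‖ ^ 2 - 1) ^ 2 / (4 * η ^ 2)) := by
          calc (1 : ℝ) = Real.exp (-(1 / 4)) * Real.exp (1 / 2) * Real.exp (-(1 / 4)) := by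
                rw [← Real.exp_add, ← Real.exp_add]; norm_num
            _ ≤ _ := by gcongr
        calc ‖ft g ξ‖ ^ 2 ≤ (Real.exp (-(1 / 8) * ‖ξ‖ ^ 2) * √π *
            Real.exp (-(‖ξ‖ ^ 2 - 1) ^ 2 / (4 * η ^ 2))) * ‖ft g ξ‖ ^ 2 :=
              le_mul_of_one_le_left (by positivity) h6
          _ = _ := by field_simp
      · simp only [Set.indicator_of_notMem hξ, hw]; positivity
  set F : E n → ℝ → ℂ := fun ξ t => ((Real.exp (-(1 / 8) * ‖ξ‖ ^ 2) * ‖ft g ξ‖ ^ 2 : ℝ) : ℂ) *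
    cexp (-((η ^ 2 : ℝ) : ℂ) * t ^ 2) * cexp (I * ((‖ξ‖ ^ 2 - 1 : ℝ) : ℂ) * t) with hF
  have iF : Integrable (Function.uncurry F) (volume.prod volume) := by
    have i1 : Integrable (fun t : ℝ => cexp (-((η ^ 2 : ℝ) : ℂ) * t ^ 2)) :=
      integrable_cexp_neg_mul_sq (by rw [ofReal_re]; positivity)
    refine (iG.ofReal.mul_prod i1).mul_bdd (c := 1) (by fun_prop)
      (Filter.Eventually.of_forall fun p => ?_)
    rw [mul_assoc, ← ofReal_mul, Complex.norm_exp_I_mul_ofReal]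
  have step2 : ((∫ ξ, w ξ : ℝ) : ℂ) = ∫ t : ℝ, ∫ ξ, F ξ t := by
    rw [← integral_integral_swap iF, ← integral_complex_ofReal]
    refine integral_congr_ae (Filter.Eventually.of_forall fun ξ => ?_)
    simp only [hw, hF]
    rw [ofReal_mul, ← gauss_one_dim hη, ← integral_const_mul]
    refine integral_congr_ae (Filter.Eventually.of_forall fun t => ?_)
    simp only; ring
  have e1 : ∀ t : ℝ, ∫ ξ, F ξ t = sh4_A g η t := by
    intro t
    rw [sh4_A, ← integral_const_mul]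
    refine integral_congr_ae (Filter.Eventually.of_forall fun ξ => ?_)
    simp only [hF]
    have : cexp (I * ((-t : ℝ) : ℂ)) * cexp (-(((1 / 8 : ℝ) : ℂ) - I * t) * ‖ξ‖ ^ 2) =
        ((Real.exp (-(1 / 8) * ‖ξ‖ ^ 2) : ℝ) : ℂ) * cexp (I * ((‖ξ‖ ^ 2 - 1 : ℝ) : ℂ) * t) := by
      rw [ofReal_exp, ← Complex.exp_add, ← Complex.exp_add]
      congr 1; push_cast; ring
    rw [ofReal_mul]
    linear_combination (-cexp (-((η ^ 2 : ℝ) : ℂ) * t ^ 2) * ((‖ft g ξ‖ ^ 2 : ℝ) : ℂ)) * this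
  refine ⟨iF.integral_prod_right.congr (Filter.Eventually.of_forall fun t => e1 t), ?_⟩
  refine step1.trans (mul_le_mul_of_nonneg_left ?_ hη.le)
  have h1 : ∫ ξ, w ξ ≤ ‖((∫ ξ, w ξ : ℝ) : ℂ)‖ := by
    rw [Complex.norm_real]; exact le_abs_self _
  refine h1.trans (le_of_eq ?_)
  rw [step2]
  simp only [e1]

lemma sh4_Gc (b : ℂ) (x : E 4) :
    Gc 4 b x = (π : ℂ) ^ 2 * ((b⁻¹) ^ 2 * cexp (-(((π * ‖x‖ : ℝ) : ℂ) ^ 2) / b)) := by
  have h : (((4 : ℕ) : ℂ) / 2) = ((2 : ℕ) : ℂ) := by push_cast; norm_num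
  rw [Gc, h, cpow_natCast, div_eq_mul_inv (π : ℂ), mul_pow, mul_assoc]
  congr 3
  push_cast; ring

lemma sh4_exp (η t : ℝ) :
    cexp (-((η ^ 2 : ℝ) : ℂ) * t ^ 2) = ((Real.exp (-(η ^ 2) * t ^ 2) : ℝ) : ℂ) := by
  rw [ofReal_exp]; congr 1; push_cast; ring

lemma sh4_far {g : E 4 → ℂ} (hg : Integrable g) {w η : ℝ} (hw : 1 ≤ w) (hη : 0 < η)
    (hηw : η * w ^ 6 ≤ 1) :
    ‖∫ t : ℝ, sh4_A g η t * ((t ^ 2 / (t ^ 2 + w ^ 12) : ℝ) : ℂ)‖ ≤
      π ^ 2 * (8 * π / w ^ 8) * (∫ x, ‖g x‖) ^ 2 := by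
  have hw0 : 0 < w := by linarith
  have hg' : Integrable (fun x => conj (g x)) := by
    simpa using (Complex.conjCLE : ℂ →L[ℝ] ℂ).integrable_comp hg
  have hbre : ∀ t : ℝ, (((1 / 8 : ℝ) : ℂ) - I * t).re = 1 / 8 := fun t => by simp
  set K : ℝ → E 4 × E 4 → ℂ := fun t p =>
    cexp (-((η ^ 2 : ℝ) : ℂ) * t ^ 2) * (g p.1 * conj (g p.2)) *
      (((t ^ 2 / (t ^ 2 + w ^ 12) : ℝ) : ℂ) * cexp (I * ((-t : ℝ) : ℂ)) *
        Gc 4 (((1 / 8 : ℝ) : ℂ) - I * t) (p.1 - p.2)) with hK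
  have e1 : ∀ t : ℝ, sh4_A g η t * ((t ^ 2 / (t ^ 2 + w ^ 12) : ℝ) : ℂ) =
      ∫ p : E 4 × E 4, K t p ∂(volume.prod volume) := by
    intro t
    rw [sh4_A, gauss_identity hg (by rw [hbre]; norm_num), ← integral_const_mul,
      ← integral_mul_const]
    refine integral_congr_ae (Filter.Eventually.of_forall fun p => ?_)
    simp only [hK]; ring
  have iK : Integrable (Function.uncurry K) (volume.prod (volume.prod volume)) := by
    have i1 : Integrable (fun t : ℝ => cexp (-((η ^ 2 : ℝ) : ℂ) * t ^ 2)) :=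
      integrable_cexp_neg_mul_sq (by rw [ofReal_re]; positivity)
    refine (i1.mul_prod (hg.mul_prod hg')).mul_bdd (c := (8 * π) ^ 2) ?_
      (Filter.Eventually.of_forall fun p => ?_)
    · refine Measurable.aestronglyMeasurable ?_
      simp only [sh4_Gc]
      fun_prop
    · rw [norm_mul, norm_mul, Complex.norm_exp_I_mul_ofReal, mul_one, Complex.norm_real,
        Real.norm_eq_abs, abs_of_nonneg (by positivity)]
      have h1 : p.1 ^ 2 / (p.1 ^ 2 + w ^ 12) ≤ 1 := by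
        rw [div_le_one (by positivity)]
        have : 0 ≤ w ^ 12 := by positivity
        linarith
      refine (mul_le_of_le_one_left (norm_nonneg _) h1).trans ?_
      refine (norm_Gc_le (by rw [hbre]; norm_num) _).trans ?_
      have h2 : (1 / 8 : ℝ) ≤ ‖((1 / 8 : ℝ) : ℂ) - I * (p.1 : ℝ)‖ := by
        have := Complex.re_le_norm (((1 / 8 : ℝ) : ℂ) - I * (p.1 : ℝ))
        rwa [hbre] at this
      have h3 : (((4 : ℕ) : ℝ) / 2) = ((2 : ℕ) : ℝ) := by push_cast; norm_num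
      rw [h3, Real.rpow_natCast]
      refine pow_le_pow_left₀ (by positivity) ?_ 2
      rw [div_le_iff₀ (by linarith)]
      nlinarith [Real.pi_pos]
  simp only [e1]
  rw [integral_integral_swap iK, sq (∫ x, ‖g x‖), ← integral_prod_mul, ← integral_const_mul]
  refine norm_integral_le_of_norm_le ((hg.norm.mul_prod hg.norm).const_mul _)
    (Filter.Eventually.of_forall fun p => ?_)
  have e2 : ∫ t : ℝ, K t p = (g p.1 * conj (g p.2) * (π : ℂ) ^ 2) *
      ∫ t : ℝ, ((Real.exp (-(η ^ 2) * t ^ 2) * (t ^ 2 / (t ^ 2 + w ^ 12)) : ℝ) : ℂ) *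
        cexp (I * ((-t : ℝ) : ℂ)) * (((((1 / 8 : ℝ) : ℂ) - I * t)⁻¹) ^ 2 *
          cexp (-(((π * ‖p.1 - p.2‖ : ℝ) : ℂ) ^ 2) / (((1 / 8 : ℝ) : ℂ) - I * t))) := by
    rw [← integral_const_mul]
    refine integral_congr_ae (Filter.Eventually.of_forall fun t => ?_)
    simp only [hK]
    rw [sh4_Gc, sh4_exp, ofReal_mul (Real.exp _)]
    ring
  rw [e2, norm_mul, norm_mul, norm_mul, Complex.norm_conj, norm_pow, Complex.norm_real,
    Real.norm_eq_abs, abs_of_pos Real.pi_pos]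
  have := far_bound (π * ‖p.1 - p.2‖) hw hη hηw
  calc _ ≤ ‖g p.1‖ * ‖g p.2‖ * π ^ 2 * (8 * π / w ^ 8) := by gcongr
    _ = _ := by ring

/-- Improved restriction bound on thin shells in dimension four. -/
theorem shell_bound4 {g : E 4 → ℂ} (hg : Integrable g) (hg2 : Integrable (fun x => ‖g x‖ ^ 2))
    {V w η : ℝ} (hV : (∫ x, ‖g x‖) ^ 2 ≤ V * ∫ x, ‖g x‖ ^ 2) (hw : 1 ≤ w) (hwV : V ≤ w ^ 14)
    (hη : 0 < η) (hηw : η * w ^ 6 ≤ 1) :
    ∫ ξ in shell 4 η, ‖ft g ξ‖ ^ 2 ≤ η * (2 * π * (41 * w ^ 6)) * ∫ x, ‖g x‖ ^ 2 := by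
  have hw0 : 0 < w := by linarith
  have hw6 : 1 ≤ w ^ 6 := one_le_pow₀ hw
  have hη1 : η ≤ 1 := by nlinarith
  obtain ⟨iA, h0⟩ := sh4_pre hg hη hη1
  set M := ∫ x, ‖g x‖ ^ 2 with hM
  have hM0 : 0 ≤ M := integral_nonneg fun x => by positivity
  have hw12 : 0 < w ^ 12 := by positivity
  have iN : Integrable (fun t : ℝ => sh4_A g η t * ((w ^ 12 / (t ^ 2 + w ^ 12) : ℝ) : ℂ)) := by
    refine iA.mul_bdd (c := 1) (Measurable.aestronglyMeasurable (by fun_prop))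
      (Filter.Eventually.of_forall fun t => ?_)
    rw [Complex.norm_real, Real.norm_eq_abs, abs_of_nonneg (by positivity),
      div_le_one (by positivity)]
    nlinarith [sq_nonneg t]
  have iF : Integrable (fun t : ℝ => sh4_A g η t * ((t ^ 2 / (t ^ 2 + w ^ 12) : ℝ) : ℂ)) := by
    refine iA.mul_bdd (c := 1) (Measurable.aestronglyMeasurable (by fun_prop))
      (Filter.Eventually.of_forall fun t => ?_)
    rw [Complex.norm_real, Real.norm_eq_abs, abs_of_nonneg (by positivity),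
      div_le_one (by positivity)]
    linarith
  have split : ∫ t : ℝ, sh4_A g η t =
      (∫ t : ℝ, sh4_A g η t * ((w ^ 12 / (t ^ 2 + w ^ 12) : ℝ) : ℂ)) +
        ∫ t : ℝ, sh4_A g η t * ((t ^ 2 / (t ^ 2 + w ^ 12) : ℝ) : ℂ) := by
    rw [← integral_add iN iF]
    refine integral_congr_ae (Filter.Eventually.of_forall fun t => ?_)
    simp only
    rw [← mul_add, ← ofReal_add]
    have : w ^ 12 / (t ^ 2 + w ^ 12) + t ^ 2 / (t ^ 2 + w ^ 12) = 1 := by
      field_simp; ring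
    rw [this, ofReal_one, mul_one]
  have near : ‖∫ t : ℝ, sh4_A g η t * ((w ^ 12 / (t ^ 2 + w ^ 12) : ℝ) : ℂ)‖ ≤
      M * (w ^ 6 * π) := by
    have hT : 0 < w ^ 6 := by positivity
    rw [← (integral_lorentz hT).2, ← integral_const_mul]
    refine norm_integral_le_of_norm_le ((integral_lorentz hT).1.const_mul _)
      (Filter.Eventually.of_forall fun t => ?_)
    have h1 : w ^ 12 / (t ^ 2 + w ^ 12) = (1 + (t / w ^ 6) ^ 2)⁻¹ := by
      field_simp; ring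
    rw [norm_mul, Complex.norm_real, Real.norm_eq_abs, abs_of_nonneg (by positivity), h1]
    refine mul_le_mul_of_nonneg_right ?_ (by positivity)
    rw [sh4_A, norm_mul, norm_mul, Complex.norm_exp_I_mul_ofReal, mul_one, sh4_exp,
      Complex.norm_real, Real.norm_eq_abs, abs_of_pos (Real.exp_pos _)]
    have e2 : Real.exp (-(η ^ 2) * t ^ 2) ≤ 1 := by
      rw [Real.exp_le_one_iff]
      have : 0 ≤ η ^ 2 * t ^ 2 := by positivity
      linarith
    refine (mul_le_of_le_one_left (norm_nonneg _) e2).trans ?_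
    exact (norm_gauss_le' g _).trans (GI_le hg hg2 (by simp))
  have far := sh4_far hg hw hη hηw
  have h2 : (∫ x, ‖g x‖) ^ 2 ≤ w ^ 14 * M := hV.trans (mul_le_mul_of_nonneg_right hwV hM0)
  have h3 : π ^ 2 * (8 * π / w ^ 8) * (∫ x, ‖g x‖) ^ 2 ≤ 81 * π * w ^ 6 * M := by
    have hπ : π ^ 2 ≤ 10 := by nlinarith [Real.pi_lt_d2, Real.pi_pos]
    calc _ ≤ 10 * (8 * π / w ^ 8) * (w ^ 14 * M) := by gcongr
      _ = 80 * π * w ^ 6 * M := by field_simp; ring
      _ ≤ _ := by gcongr; norm_num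
  refine h0.trans ?_
  rw [split, mul_assoc η]
  refine mul_le_mul_of_nonneg_left ((norm_add_le _ _).trans ?_) hη.le
  calc _ ≤ M * (w ^ 6 * π) + 81 * π * w ^ 6 * M := add_le_add near (far.trans h3)
    _ = _ := by ring

end Pool.Agent.P.MP_f791b6_an
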