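import Pool.Agent.P.MP_f791b6_an.Low
import Pool.Agent.P.MP_f791b6_an.N4Pairs
import Pool.Agent.P.MP_f791b6_an.N4CaseG
import Pool.Agent.P.MP_f791b6_an.N4Shell

namespace Pool.Agent.P.MP_f791b6_an

open MeasureTheory Metric Filter
open scoped Real ContDiff Topology

variable {n : ℕ}

/-- Either the volume is large compared with `k`, or the indicator has much middle frequency mass. -/
theorem core_pre (hn : 1 ≤ n) : ∃ C1 κ b : ℝ, 0 < C1 ∧ 0 < κ ∧ 0 < b ∧ ∀ Ω : Set (E n),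
    MeasurableSet Ω → Bornology.IsBounded Ω → ∀ (L : Submodule ℂ (E n → ℂ)) (k : ℕ),
    Module.finrank ℂ L = k → 1 ≤ k → (∀ u ∈ L, Test u) → (∀ u ∈ L, tsupport u ⊆ Ω) →
    (∀ u ∈ L, energy Ω u ≤ 4 * π ^ 2 * mass Ω u) →
    (k : ℝ) ≤ C1 * volume.real Ω ∧ (16 * n * (k : ℝ) ≤ om n * volume.real Ω ∨
      ∀ t : ℝ, 0 < t → t ^ n = volume.real Ω →
        κ * volume.real Ω / 2 ≤ ∫ ζ in mid n (b / t), ‖ft (chi Ω) ζ‖ ^ 2) := by
  have hn' : (1 : ℝ) ≤ n := by exact_mod_cast hn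
  have hom := om_pos (n := n)
  have hp := pw_pos (n := n) (show 0 < π / (4 * 1) by positivity)
  obtain ⟨C1, hC1⟩ : ∃ C1 : ℝ, C1 = Real.exp (4 * 1) * pw n (π / (4 * 1)) := ⟨_, rfl⟩
  have hC0 : 0 < C1 := by rw [hC1]; positivity
  obtain ⟨κ0, hκ0⟩ : ∃ κ0 : ℝ, κ0 = om n / (16 * n * C1) := ⟨_, rfl⟩
  have hκ00 : 0 < κ0 := by rw [hκ0]; positivity
  obtain ⟨a, ha1, ha2⟩ := exists_scale n (show 0 < κ0 / 4 by positivity)
  have hpa := pw_pos (n := n) (show 0 < a by linarith)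
  obtain ⟨κ, hκ⟩ : ∃ κ : ℝ, κ = κ0 / pw n a := ⟨_, rfl⟩
  have hκ1 : 0 < κ := by rw [hκ]; positivity
  obtain ⟨b, hb0, hbn⟩ : ∃ b : ℝ, 0 < b ∧ b ^ n = κ / (4 * om n) :=
    ⟨(κ / (4 * om n)) ^ ((n : ℝ)⁻¹), by positivity,
      Real.rpow_inv_natCast_pow (by positivity) (by omega)⟩
  refine ⟨C1, κ, b, hC0, hκ1, hb0, ?_⟩
  intro Ω hm hb L k hk hk1 hL hΩ hR
  have : FiniteDimensional ℂ L := Module.finite_of_finrank_pos (by omega)
  have hf : volume Ω ≠ ⊤ := hb.measure_lt_top.ne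
  have hk' : (1 : ℝ) ≤ k := by exact_mod_cast hk1
  have hzero : ∀ g : E n → ℂ, tsupport g ⊆ Ω → ∀ x ∉ Ω, g x = 0 := fun g hg x hx =>
    image_eq_zero_of_notMem_tsupport fun h => hx (hg h)
  have heat : k * Real.exp (-(4 * 1)) ≤ pw n (π / (4 * 1)) * GI (chi Ω) 1 := by
    refine heat_bound hm hf L hk hL (fun u hu => hzero u (hΩ u hu)) (fun u hu => ?_) one_pos
    have h1 := hR u hu
    rw [energy, mass, setIntegral_eq_integral_of_forall_compl_eq_zero,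
      setIntegral_eq_integral_of_forall_compl_eq_zero] at h1
    · exact h1
    · intro x hx; simp [hzero u (hΩ u hu) x hx]
    · intro x hx
      refine Finset.sum_eq_zero fun j _ => ?_
      have := hzero (pd j u) ((tsupport_fderiv_apply_subset ℝ _).trans (hΩ u hu)) x hx
      rw [pd] at this
      simp [this]
  have heat' : (k : ℝ) ≤ C1 * GI (chi Ω) 1 := by
    calc (k : ℝ) = Real.exp (4 * 1) * (k * Real.exp (-(4 * 1))) := by
          rw [mul_left_comm, ← Real.exp_add]; simp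
      _ ≤ Real.exp (4 * 1) * (pw n (π / (4 * 1)) * GI (chi Ω) 1) := by gcongr
      _ = _ := by rw [hC1]; ring
  set V := volume.real Ω with hVd
  have hkV : (k : ℝ) ≤ C1 * V :=
    heat'.trans (mul_le_mul_of_nonneg_left (GI_chi_le hm hf one_pos) hC0.le)
  have hV : 0 < V := (mul_pos_iff_of_pos_left hC0).mp (by linarith)
  refine ⟨hkV, ?_⟩
  by_cases hcase : 16 * n * (k : ℝ) ≤ om n * V
  · exact Or.inl hcase
  push Not at hcase
  refine Or.inr fun t ht0 htn => ?_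
  have hGI : κ * V ≤ GI (chi Ω) a := by
    have h1 := GI_mono hm hf ha1
    have h2 : κ0 * V ≤ GI (chi Ω) 1 := by
      rw [hκ0, div_mul_eq_mul_div, div_le_iff₀ (by positivity)]
      calc om n * V ≤ 16 * n * k := hcase.le
        _ ≤ 16 * n * (C1 * GI (chi Ω) 1) := by gcongr
        _ = _ := by ring
    rw [hκ, div_mul_eq_mul_div, div_le_iff₀ hpa]
    linarith
  have h1 := mid_mass hm hf (β := b / t) (by positivity) (a := a) (by linarith)
  rw [← hVd] at h1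
  have h2 : V ^ 2 * ((b / t) ^ n * om n) = κ * V / 4 := by
    rw [div_pow, hbn, htn]; field_simp
  have h3 : Real.exp (-((a - 1 / 8) * (4 / 25))) * V ≤ κ / 4 * V := by
    refine mul_le_mul_of_nonneg_right ?_ hV.le
    rw [hκ, div_right_comm, le_div_iff₀ hpa]; exact ha2
  linarith

lemma shell45 (hn : n = 4 ∨ n = 5) : ∃ q s : ℕ, 1 ≤ q ∧ q ≤ 7 ∧ q * n = 2 * s + 2 ∧
    ∀ y : ℝ, 1 ≤ y → ∃ η0 : ℝ, 0 < η0 ∧ ∀ η : ℝ, 0 < η → η ≤ η0 → ∀ g : E n → ℂ, Integrable g →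
      Integrable (fun y => ‖g y‖ ^ 2) →
      (∫ x, ‖g x‖) ^ 2 ≤ y ^ (2 * s + 2) * ∫ x, ‖g x‖ ^ 2 →
      ∫ ξ in shell n η, ‖ft g ξ‖ ^ 2 ≤ η * (2 * π * (41 * y ^ s)) * ∫ x, ‖g x‖ ^ 2 := by
  rcases hn with rfl | rfl
  · refine ⟨7, 13, by norm_num, le_rfl, by norm_num, fun y hy => ⟨1 / (y ^ 2) ^ 6, by positivity,
      fun η hη hη0 g hg hg2 hV => ?_⟩⟩
    have h1 := shell_bound4 hg hg2 (w := y ^ 2) hV (one_le_pow₀ hy) (le_of_eq (by ring)) hη
      (by rwa [le_div_iff₀ (by positivity)] at hη0)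
    refine h1.trans ?_
    have h2 : (y ^ 2) ^ 6 ≤ y ^ 13 := by
      rw [← pow_mul]; exact pow_le_pow_right₀ hy (by norm_num)
    have h3 : 0 ≤ ∫ x, ‖g x‖ ^ 2 := integral_nonneg fun x => by positivity
    gcongr
  · refine ⟨2, 4, by norm_num, by norm_num, by norm_num, fun y hy => ⟨1, one_pos,
      fun η hη hη0 g hg hg2 hV => ?_⟩⟩
    refine shell_bound hg hg2 (by positivity) hV (by norm_num) (by positivity) ?_ hη hη0
    change pw 5 _ * _ ≤ 1
    have h1 : π / (41 * y ^ 4) ≤ (1 / y ^ 2) ^ 2 := by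
      rw [div_pow, ← pow_mul, one_pow, div_le_div_iff₀ (by positivity) (by positivity)]
      have := Real.pi_le_four
      have : 0 < y ^ 4 := by positivity
      norm_num
      nlinarith
    calc pw 5 (π / (41 * y ^ 4)) * y ^ (2 * 4 + 2) ≤ pw 5 ((1 / y ^ 2) ^ 2) * y ^ (2 * 4 + 2) :=
          mul_le_mul_of_nonneg_right (pw_mono (by positivity) h1) (by positivity)
      _ = 1 := by rw [pw_sq (by positivity)]; field_simp

theorem core45 (hn : n = 4 ∨ n = 5) {m : ℕ} (hm1 : 1 ≤ m) : ∃ K : ℕ, ∀ Ω : Set (E n),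
    MeasurableSet Ω → Bornology.IsBounded Ω → ∀ (L : Submodule ℂ (E n → ℂ)) (k : ℕ),
    Module.finrank ℂ L = k → K ≤ k → (∀ u ∈ L, Test u) → (∀ u ∈ L, tsupport u ⊆ Ω) →
    (∀ u ∈ L, energy Ω u ≤ 4 * π ^ 2 * mass Ω u) → NeuOK Ω (k + m) := by
  have hn4 : 4 ≤ n := by omega
  have hn' : (4 : ℝ) ≤ n := by exact_mod_cast hn4
  have hm' : (1 : ℝ) ≤ m := by exact_mod_cast hm1
  have hom := om_pos (n := n)
  obtain ⟨C1, κ, b, hC0, hκ, hb0, hpre⟩ := core_pre (n := n) (by omega)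
  obtain ⟨q, s, hq1, hq7, hqs, hsh⟩ := shell45 hn
  obtain ⟨cn, hcn⟩ : ∃ cn : ℝ, cn = (n - 1 : ℝ) * om n * (979 / 1000) ^ (n - 2) / 8 := ⟨_, rfl⟩
  have hcn0 : 0 < cn := by
    have : (0 : ℝ) < n - 1 := by linarith
    rw [hcn]; positivity
  obtain ⟨θ, hθ⟩ : ∃ θ : ℝ, θ = 1 / (20 * m) := ⟨_, rfl⟩
  have hθ0 : 0 < θ := by rw [hθ]; positivity
  obtain ⟨C2, hC2⟩ : ∃ C2 : ℝ, C2 = 4 * (m * (13 * 41) ^ 2) / (θ * cn) := ⟨_, rfl⟩
  have hC20 : 0 < C2 := by rw [hC2]; positivity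
  obtain ⟨C3, hC3⟩ : ∃ C3 : ℝ, C3 = (400 * (m : ℝ) ^ 4 * (7 + |Real.log b|) + 1) * C2 := ⟨_, rfl⟩
  have hC30 : 0 < C3 := by rw [hC3]; positivity
  obtain ⟨Y, hY⟩ : ∃ Y : ℝ, Y = 1 + b / θ + 2 * C3 / κ := ⟨_, rfl⟩
  have p1 : 0 < b / θ := by positivity
  have p2 : 0 < 2 * C3 / κ := by positivity
  obtain ⟨K, hK⟩ := exists_nat_ge (C1 * Y ^ (2 * s + 2))
  refine ⟨max K m, fun Ω hm hb L k hk hKk hL hΩ hR => ?_⟩
  have hmk : m ≤ k := le_trans (le_max_right _ _) hKk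
  have hKk' : (K : ℝ) ≤ k := by exact_mod_cast le_trans (le_max_left _ _) hKk
  have : FiniteDimensional ℂ L := Module.finite_of_finrank_pos (by omega)
  have hf : volume Ω ≠ ⊤ := hb.measure_lt_top.ne
  obtain ⟨hkV, hcase⟩ := hpre Ω hm hb L k hk (by omega) hL hΩ hR
  set V := volume.real Ω with hVd
  have hYV : Y ^ (2 * s + 2) ≤ V := le_of_mul_le_mul_left (by linarith) hC0
  have hV : 0 < V := lt_of_lt_of_le (by have : 0 < Y := by linarith
                                        positivity) hYV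
  rcases hcase with hcase | hcase
  · refine caseA hm hb hV (by omega) ?_
    have h1 : (m : ℝ) ≤ k := by exact_mod_cast hmk
    push_cast; nlinarith
  obtain ⟨y, hy0, hyV⟩ : ∃ y : ℝ, 0 < y ∧ y ^ (2 * s + 2) = V :=
    ⟨V ^ (((2 * s + 2 : ℕ) : ℝ)⁻¹), by positivity, Real.rpow_inv_natCast_pow hV.le (by omega)⟩
  have hYy : Y ≤ y := by
    rw [← hyV] at hYV
    exact le_of_pow_le_pow_left₀ (by omega) hy0.le hYV
  have hy1 : 1 ≤ y := by linarith
  have hmid := hcase (y ^ q) (by positivity) (by rw [← pow_mul, hqs, hyV])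
  obtain ⟨η0, hη0, hshell⟩ := hsh y hy1
  rw [← hk]
  by_cases hG : 4 * (m * (13 * (41 * y ^ s)) ^ 2) ≤ θ * cn * ∫ ζ in mid n θ, ‖ft (chi Ω) ζ‖ ^ 2
  · exact caseG hm hb hV (by omega) L hL hΩ hR hθ0 (by positivity) hη0
      (fun η h1 h2 g hg hg2 h3 => hshell η h1 h2 g hg hg2 (by rw [hyV]; exact h3)) hm1
      (by rw [← hcn]; exact hG)
  push Not at hG
  set M1 := ∫ ζ in mid n θ, ‖ft (chi Ω) ζ‖ ^ 2 with hM1
  have hM10 : 0 ≤ M1 := integral_nonneg fun ζ => by positivity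
  have h1 : M1 ≤ C2 * y ^ (2 * s) := by
    rw [hC2, div_mul_eq_mul_div, le_div_iff₀ (by positivity)]
    calc M1 * (θ * cn) = θ * cn * M1 := by ring
      _ ≤ _ := hG.le
      _ = _ := by ring
  have hyq : y ≤ y ^ q := le_self_pow₀ hy1 (by omega)
  have hβ : 0 < b / y ^ q := by positivity
  have hβθ : b / y ^ q ≤ θ := by
    rw [div_le_iff₀ (by positivity)]
    have : b / θ ≤ y ^ q := by linarith
    rw [div_le_iff₀ hθ0] at this
    linarith
  have hc := continuous_ft (integrable_chi hm hf)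
  have h2 : ∫ ζ in mid n (b / y ^ q), ‖ft (chi Ω) ζ‖ ^ 2 ≤
      (∫ ζ in closedBall (0 : E n) θ \ ball 0 (b / y ^ q), ‖ft (chi Ω) ζ‖ ^ 2) + M1 := by
    have i1 : IntegrableOn (fun ζ => ‖ft (chi Ω) ζ‖ ^ 2)
        (closedBall (0 : E n) θ \ ball 0 (b / y ^ q)) :=
      integrableOn_of_cont (isBounded_closedBall.subset Set.sdiff_subset) (by fun_prop)
    have i2 : IntegrableOn (fun ζ => ‖ft (chi Ω) ζ‖ ^ 2) (mid n θ) :=
      integrableOn_of_cont (isBounded_mid θ) (by fun_prop)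
    rw [hM1, ← integral_add_measure i1 i2]
    refine integral_mono_measure ?_ (Eventually.of_forall fun ζ => by positivity)
      (Integrable.add_measure i1 i2)
    refine le_trans (Measure.restrict_mono ?_ le_rfl) (Measure.restrict_union_le _ _)
    intro ζ hζ
    by_cases h : ζ ∈ ball (0 : E n) θ
    · exact Or.inl ⟨ball_subset_closedBall h, hζ.2⟩
    · exact Or.inr ⟨hζ.1, h⟩
  have h3 : Real.log (1 / (b / y ^ q)) ≤ (7 + |Real.log b|) * y := by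
    rw [one_div_div, Real.log_div (by positivity) hb0.ne', Real.log_pow]
    have a1 : Real.log y ≤ y := (Real.log_le_sub_one_of_pos hy0).trans (by linarith)
    have a2 : (q : ℝ) ≤ 7 := by exact_mod_cast hq7
    have a3 : (q : ℝ) * Real.log y ≤ 7 * y := by
      have := Real.log_nonneg hy1
      gcongr
    have a4 : |Real.log b| ≤ |Real.log b| * y := le_mul_of_one_le_right (abs_nonneg _) hy1
    have a5 := neg_abs_le (Real.log b)
    linarith
  refine caseC hm hb hn4 (by omega) L hL hΩ hR hm1 hβ (by rw [← hθ]; exact hβθ) ?_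
  rw [← hθ, ← hM1]
  have h4 : 400 * (m : ℝ) ^ 4 * Real.log (1 / (b / y ^ q)) * M1 + M1 ≤ C3 * y ^ (2 * s + 1) := by
    calc _ ≤ 400 * (m : ℝ) ^ 4 * ((7 + |Real.log b|) * y) * M1 + y * M1 := by
          gcongr
          exact le_mul_of_one_le_left hM10 hy1
      _ = (400 * (m : ℝ) ^ 4 * (7 + |Real.log b|) + 1) * y * M1 := by ring
      _ ≤ (400 * (m : ℝ) ^ 4 * (7 + |Real.log b|) + 1) * y * (C2 * y ^ (2 * s)) := by gcongr
      _ = _ := by rw [hC3]; ring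
  have h5 : C3 * y ^ (2 * s + 1) < κ * V / 2 := by
    have a1 : 2 * C3 / κ < y := by linarith
    rw [div_lt_iff₀ hκ] at a1
    have a2 : 0 < y ^ (2 * s + 1) := by positivity
    rw [← hyV, pow_succ y (2 * s + 1)]
    nlinarith
  linarith

theorem main45 (hn : n = 4 ∨ n = 5) {m : ℕ} (hm1 : 1 ≤ m) : ∃ K : ℕ, ∀ Ω : Set (E n), IsOpen Ω →
    Bornology.IsBounded Ω → ∀ k : ℕ, K ≤ k → neumannEig Ω (k + m) ≤ dirichletEig Ω k := by
  obtain ⟨K, h⟩ := core45 hn hm1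
  exact ⟨K, fun Ω ho hb k hk => main_of_core
    (fun Ω' hm' hb' L hL h1 h2 h3 => h Ω' hm' hb' L k hL hk h1 h2 h3) ho hb⟩

end Pool.Agent.P.MP_f791b6_an
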