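import Pool.Agent.P.MP_f791b6_an.Disp

namespace Pool.Agent.P.MP_f791b6_an

open MeasureTheory Complex
open scoped ComplexConjugate Real

noncomputable def far_z (d t : ℝ) : ℂ := (d : ℂ) - I * t

lemma far_z_sq (d t : ℝ) : ‖far_z d t‖ ^ 2 = t ^ 2 + d ^ 2 := by
  rw [Complex.sq_norm, Complex.normSq_apply]
  simp [far_z]
  ring

lemma far_z_ge {d : ℝ} (t : ℝ) : d ≤ ‖far_z d t‖ := by
  have := Complex.re_le_norm (far_z d t)
  simpa [far_z] using this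

lemma far_z_ne {d : ℝ} (hd : 0 < d) (t : ℝ) : far_z d t ≠ 0 :=
  norm_pos_iff.1 (hd.trans_le (far_z_ge t))

lemma far_z_deriv (d s t : ℝ) : HasDerivAt (fun x : ℝ => far_z d (x + s)) (-I) t := by
  have h : HasDerivAt (fun x : ℝ => ((x + s : ℝ) : ℂ)) 1 t :=
    ((hasDerivAt_id t).add_const s).ofReal_comp
  have := (h.const_mul I).const_sub (d : ℂ)
  rw [mul_one] at this
  exact this

lemma far_lor {τ : ℝ} (hτ : 0 < τ) (s : ℝ) :
    Integrable (fun t : ℝ => ((t + s) ^ 2 + τ ^ 2)⁻¹) ∧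
      ∫ t : ℝ, ((t + s) ^ 2 + τ ^ 2)⁻¹ = π / τ := by
  have e : (fun t : ℝ => (t ^ 2 + τ ^ 2)⁻¹) = fun t => (τ ^ 2)⁻¹ * (1 + (t / τ) ^ 2)⁻¹ := by
    funext t
    field_simp
    ring
  have h1 : Integrable (fun t : ℝ => (t ^ 2 + τ ^ 2)⁻¹) := by
    rw [e]
    exact (integral_lorentz hτ).1.const_mul _
  refine ⟨h1.comp_add_right s, ?_⟩
  rw [integral_add_right_eq_self (fun t : ℝ => (t ^ 2 + τ ^ 2)⁻¹) s, e, integral_const_mul,
    (integral_lorentz hτ).2]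
  field_simp

noncomputable def far_phi (η T t : ℝ) : ℝ :=
  Real.exp (-(η ^ 2) * t ^ 2) * (t ^ 2 / (t ^ 2 + T ^ 2))

noncomputable def far_dphi (η T t : ℝ) : ℝ :=
  Real.exp (-(η ^ 2) * t ^ 2) * (-(η ^ 2) * (2 * t)) * (t ^ 2 / (t ^ 2 + T ^ 2)) +
    Real.exp (-(η ^ 2) * t ^ 2) * (2 * t * T ^ 2 / (t ^ 2 + T ^ 2) ^ 2)

lemma far_phi_deriv (η : ℝ) {T : ℝ} (hT : 0 < T) (t : ℝ) :
    HasDerivAt (far_phi η T) (far_dphi η T t) t := by
  have h0 : HasDerivAt (fun x : ℝ => x ^ 2) (2 * t) t := by simpa using hasDerivAt_pow 2 t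
  have h1 := (h0.const_mul (-(η ^ 2))).exp
  have hne : t ^ 2 + T ^ 2 ≠ 0 := by positivity
  have h2 := h0.div (h0.add_const (T ^ 2)) hne
  refine (h1.mul h2).congr_deriv ?_
  unfold far_dphi
  simp only [Pi.div_apply]
  field_simp
  ring

lemma far_phi_bd (η : ℝ) {T : ℝ} (hT : 0 < T) (t : ℝ) :
    0 ≤ far_phi η T t ∧ far_phi η T t ≤ t ^ 2 * (t ^ 2 + T ^ 2)⁻¹ := by
  have h1 : Real.exp (-(η ^ 2) * t ^ 2) ≤ 1 :=
    Real.exp_le_one_iff.2 (by nlinarith [sq_nonneg (η * t)])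
  unfold far_phi
  refine ⟨by positivity, ?_⟩
  rw [← div_eq_mul_inv]
  exact mul_le_of_le_one_left (by positivity) h1

lemma far_dphi_bd {η T : ℝ} (hη : 0 < η) (hT : 0 < T) (t : ℝ) :
    |far_dphi η T t| ≤ |t| * (2 * (t ^ 2 + η⁻¹ ^ 2)⁻¹ + 2 * (t ^ 2 + T ^ 2)⁻¹) := by
  have h0 := Real.exp_pos (-(η ^ 2) * t ^ 2)
  have h1 : Real.exp (-(η ^ 2) * t ^ 2) ≤ 1 :=
    Real.exp_le_one_iff.2 (by nlinarith [sq_nonneg (η * t)])
  have h2 : η ^ 2 * Real.exp (-(η ^ 2) * t ^ 2) ≤ (t ^ 2 + η⁻¹ ^ 2)⁻¹ := by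
    have h3 := Real.add_one_le_exp (η ^ 2 * t ^ 2)
    have h4 : (t ^ 2 + η⁻¹ ^ 2)⁻¹ = η ^ 2 * (η ^ 2 * t ^ 2 + 1)⁻¹ := by
      field_simp
    rw [h4, neg_mul, Real.exp_neg]
    gcongr
  have hp : 0 < t ^ 2 + T ^ 2 := by positivity
  have h5 : t ^ 2 / (t ^ 2 + T ^ 2) ≤ 1 := by
    rw [div_le_one hp]
    nlinarith
  have h6 : T ^ 2 / (t ^ 2 + T ^ 2) ^ 2 ≤ (t ^ 2 + T ^ 2)⁻¹ := by
    rw [div_le_iff₀ (by positivity)]
    field_simp
    nlinarith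
  have h7 : 0 ≤ t ^ 2 / (t ^ 2 + T ^ 2) := by positivity
  have h8 : 0 ≤ T ^ 2 / (t ^ 2 + T ^ 2) ^ 2 := by positivity
  have e : far_dphi η T t = t * (2 * (Real.exp (-(η ^ 2) * t ^ 2) * (T ^ 2 / (t ^ 2 + T ^ 2) ^ 2)) -
      2 * (η ^ 2 * Real.exp (-(η ^ 2) * t ^ 2) * (t ^ 2 / (t ^ 2 + T ^ 2)))) := by
    unfold far_dphi
    ring
  rw [e, abs_mul]
  refine mul_le_mul_of_nonneg_left ?_ (abs_nonneg t)
  have h9 : η ^ 2 * Real.exp (-(η ^ 2) * t ^ 2) * (t ^ 2 / (t ^ 2 + T ^ 2)) ≤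
      η ^ 2 * Real.exp (-(η ^ 2) * t ^ 2) := mul_le_of_le_one_right (by positivity) h5
  have h10 : Real.exp (-(η ^ 2) * t ^ 2) * (T ^ 2 / (t ^ 2 + T ^ 2) ^ 2) ≤
      T ^ 2 / (t ^ 2 + T ^ 2) ^ 2 := mul_le_of_le_one_left h8 h1
  have h11 : 0 ≤ η ^ 2 * Real.exp (-(η ^ 2) * t ^ 2) * (t ^ 2 / (t ^ 2 + T ^ 2)) := by positivity
  have h12 : 0 ≤ Real.exp (-(η ^ 2) * t ^ 2) * (T ^ 2 / (t ^ 2 + T ^ 2) ^ 2) := by positivity
  rw [abs_le]
  constructor <;> linarith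

noncomputable def far_psi (a t : ℝ) : ℂ :=
  cexp (I * ((-t : ℝ) : ℂ)) * cexp (-((a : ℂ) ^ 2) / far_z (1 / 8) t)

lemma far_psi_bd (a t : ℝ) : ‖far_psi a t‖ ≤ 1 := by
  unfold far_psi
  rw [norm_mul, Complex.norm_exp_I_mul_ofReal, one_mul, Complex.norm_exp, Real.exp_le_one_iff,
    neg_div, neg_re, neg_nonpos, ← ofReal_pow, div_eq_mul_inv, re_ofReal_mul, inv_re]
  refine mul_nonneg (sq_nonneg a) (div_nonneg ?_ (normSq_nonneg _))
  simp [far_z]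

lemma far_psi_deriv (a t : ℝ) : HasDerivAt (far_psi a)
    (-I * (far_z (1 / 8) (t + -a) * far_z (1 / 8) (t + a)) * (far_z (1 / 8) t)⁻¹ ^ 2 *
      far_psi a t) t := by
  have hb : HasDerivAt (far_z (1 / 8)) (-I) t := by simpa using far_z_deriv (1 / 8) 0 t
  have hne := far_z_ne (d := 1 / 8) (by norm_num) t
  have h1 : HasDerivAt (fun x : ℝ => I * ((-x : ℝ) : ℂ)) (I * ((-1 : ℝ) : ℂ)) t :=
    ((hasDerivAt_id t).neg.ofReal_comp).const_mul I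
  have h2 := ((hasDerivAt_const t (-((a : ℂ) ^ 2))).div hb hne).cexp
  refine (h1.cexp.mul h2).congr_deriv ?_
  have e : far_z (1 / 8) (t + -a) * far_z (1 / 8) (t + a) = far_z (1 / 8) t ^ 2 + a ^ 2 := by
    unfold far_z
    push_cast
    linear_combination (-(a : ℂ) ^ 2) * I_sq
  rw [e]
  unfold far_psi
  simp only [Pi.div_apply]
  push_cast
  field_simp
  ring

lemma far_one {δ : ℝ} (hδ : 1 ≤ δ) (s : ℝ) :
    ‖far_z (1 / 8) s * (far_z δ s)⁻¹‖ ≤ 1 ∧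
      ‖1 - far_z (1 / 8) s * (far_z δ s)⁻¹‖ ≤ δ / ‖far_z δ s‖ := by
  have hne := far_z_ne (d := δ) (by linarith) s
  have hp := norm_pos_iff.2 hne
  constructor
  · rw [norm_mul, norm_inv, ← div_eq_mul_inv, div_le_one hp]
    refine (pow_le_pow_iff_left₀ (norm_nonneg _) (norm_nonneg _) two_ne_zero).1 ?_
    rw [far_z_sq, far_z_sq]
    nlinarith
  · have e : 1 - far_z (1 / 8) s * (far_z δ s)⁻¹ = ((δ - 1 / 8 : ℝ) : ℂ) / far_z δ s := by
      field_simp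
      unfold far_z
      push_cast
      ring
    rw [e, norm_div, Complex.norm_real, Real.norm_of_nonneg (by linarith)]
    gcongr
    linarith

lemma far_amgm {u T lam x : ℝ} (hu : 0 ≤ u) (huT : u ≤ (T ^ 2)⁻¹) (hl : 0 < lam) :
    u * x ≤ lam / 2 * (T ^ 2)⁻¹ * u + x ^ 2 / (2 * lam) := by
  have h1 : u * x ≤ lam / 2 * (u * u) + x ^ 2 / (2 * lam) := by
    have h2 : lam / 2 * (u * u) + x ^ 2 / (2 * lam) - u * x = (lam * u - x) ^ 2 / (2 * lam) := by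
      field_simp
      ring
    have h3 : 0 ≤ (lam * u - x) ^ 2 / (2 * lam) := by positivity
    linarith
  have h4 : u * u ≤ (T ^ 2)⁻¹ * u := mul_le_mul_of_nonneg_right huT hu
  nlinarith

noncomputable def far_c (δ a t : ℝ) : ℂ := (far_z δ (t + -a) * far_z δ (t + a))⁻¹

noncomputable def far_R (η T δ a t : ℝ) : ℂ :=
  (far_phi η T t * (far_z (1 / 8) t)⁻¹ ^ 2 *
      (1 - far_z (1 / 8) (t + -a) * far_z (1 / 8) (t + a) * far_c δ a t) -
    I * (far_dphi η T t * far_c δ a t +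
      far_phi η T t * (I * (far_z δ (t + -a) + far_z δ (t + a)) * far_c δ a t ^ 2))) * far_psi a t

lemma far_F_bd (η : ℝ) {T : ℝ} (hT : 0 < T) (t : ℝ) :
    ‖(far_phi η T t : ℂ) * (far_z (1 / 8) t)⁻¹ ^ 2‖ ≤ (t ^ 2 + T ^ 2)⁻¹ := by
  obtain ⟨p0, p1⟩ := far_phi_bd η hT t
  rw [norm_mul, norm_pow, norm_inv, inv_pow, far_z_sq, Complex.norm_real, Real.norm_of_nonneg p0,
    ← div_eq_mul_inv, div_le_iff₀ (by positivity)]
  have : 0 ≤ (t ^ 2 + T ^ 2)⁻¹ := by positivity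
  nlinarith

lemma far_R_bd {η T δ lam : ℝ} (hη : 0 < η) (hT : 0 < T) (hδ : 1 ≤ δ) (hl : 0 < lam) (a t : ℝ) :
    ‖far_R η T δ a t‖ ≤ (lam * (T ^ 2)⁻¹ + 2 / δ) * ((t + 0) ^ 2 + T ^ 2)⁻¹ +
      2 / δ * ((t + 0) ^ 2 + η⁻¹ ^ 2)⁻¹ +
      (δ ^ 2 / (2 * lam) + 1 / T) * ((t + -a) ^ 2 + δ ^ 2)⁻¹ +
      (δ ^ 2 / (2 * lam) + 1 / T) * ((t + a) ^ 2 + δ ^ 2)⁻¹ := by
  rw [← far_z_sq δ (t + -a), ← far_z_sq δ (t + a), add_zero]
  have hA := far_z_ge (d := δ) (t + -a)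
  have hB := far_z_ge (d := δ) (t + a)
  have hAB : 2 * |t| ≤ ‖far_z δ (t + -a)‖ + ‖far_z δ (t + a)‖ := by
    refine le_trans ?_ (norm_add_le _ _)
    have h1 := Complex.abs_im_le_norm (far_z δ (t + -a) + far_z δ (t + a))
    have h2 : (far_z δ (t + -a) + far_z δ (t + a)).im = -(2 * t) := by
      simp [far_z]
      ring
    rwa [h2, abs_neg, abs_mul, abs_two] at h1
  have hc : ‖far_c δ a t‖ = (‖far_z δ (t + -a)‖ * ‖far_z δ (t + a)‖)⁻¹ := by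
    rw [far_c, norm_inv, norm_mul]
  have q1 : ‖1 - far_z (1 / 8) (t + -a) * far_z (1 / 8) (t + a) * far_c δ a t‖ ≤
      δ / ‖far_z δ (t + -a)‖ + δ / ‖far_z δ (t + a)‖ := by
    obtain ⟨x1, x2⟩ := far_one hδ (t + -a)
    obtain ⟨-, y2⟩ := far_one hδ (t + a)
    have e : 1 - far_z (1 / 8) (t + -a) * far_z (1 / 8) (t + a) * far_c δ a t =
        (1 - far_z (1 / 8) (t + -a) * (far_z δ (t + -a))⁻¹) +
          far_z (1 / 8) (t + -a) * (far_z δ (t + -a))⁻¹ *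
            (1 - far_z (1 / 8) (t + a) * (far_z δ (t + a))⁻¹) := by
      rw [far_c, mul_inv]
      ring
    rw [e]
    refine (norm_add_le _ _).trans (add_le_add x2 ?_)
    rw [norm_mul]
    exact (mul_le_of_le_one_left (norm_nonneg _) x1).trans y2
  have q2 : ‖I * (far_z δ (t + -a) + far_z δ (t + a)) * far_c δ a t ^ 2‖ ≤
      (‖far_z δ (t + -a)‖ + ‖far_z δ (t + a)‖) *
        (‖far_z δ (t + -a)‖ * ‖far_z δ (t + a)‖)⁻¹ ^ 2 := by
    rw [norm_mul, norm_mul, norm_I, one_mul, norm_pow, hc]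
    exact mul_le_mul_of_nonneg_right (norm_add_le _ _) (by positivity)
  have q3 := far_F_bd η hT t
  have q4 := far_dphi_bd hη hT t
  obtain ⟨p0, p1⟩ := far_phi_bd η hT t
  have tot : ‖far_R η T δ a t‖ ≤
      (t ^ 2 + T ^ 2)⁻¹ * (δ / ‖far_z δ (t + -a)‖ + δ / ‖far_z δ (t + a)‖) +
      (|t| * (2 * (t ^ 2 + η⁻¹ ^ 2)⁻¹ + 2 * (t ^ 2 + T ^ 2)⁻¹) *
        (‖far_z δ (t + -a)‖ * ‖far_z δ (t + a)‖)⁻¹ +
      t ^ 2 * (t ^ 2 + T ^ 2)⁻¹ * ((‖far_z δ (t + -a)‖ + ‖far_z δ (t + a)‖) *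
        (‖far_z δ (t + -a)‖ * ‖far_z δ (t + a)‖)⁻¹ ^ 2)) := by
    rw [far_R, norm_mul]
    refine (mul_le_of_le_one_right (norm_nonneg _) (far_psi_bd a t)).trans
      ((norm_sub_le _ _).trans (add_le_add ?_ ?_))
    · rw [norm_mul]
      exact mul_le_mul q3 q1 (norm_nonneg _) (by positivity)
    · rw [norm_mul, norm_I, one_mul]
      refine (norm_add_le _ _).trans (add_le_add ?_ ?_)
      · rw [norm_mul, hc, Complex.norm_real, Real.norm_eq_abs]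
        exact mul_le_mul_of_nonneg_right q4 (by positivity)
      · rw [norm_mul, Complex.norm_real, Real.norm_of_nonneg p0]
        exact mul_le_mul p1 q2 (norm_nonneg _) (by positivity)
  refine tot.trans ?_
  generalize ‖far_z δ (t + -a)‖ = A at hA hAB ⊢
  generalize ‖far_z δ (t + a)‖ = B at hB hAB ⊢
  have hδ0 : 0 < δ := by linarith
  have hA0 : 0 < A := by linarith
  have hB0 : 0 < B := by linarith
  have hu : (t ^ 2 + T ^ 2)⁻¹ ≤ (T ^ 2)⁻¹ := inv_anti₀ (by positivity) (by nlinarith)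
  have r1 := far_amgm (x := δ / A) (by positivity) hu hl
  have r2 := far_amgm (x := δ / B) (by positivity) hu hl
  have r3 : |t| * (A * B)⁻¹ ≤ 1 / δ := by
    rw [← div_eq_mul_inv, div_le_div_iff₀ (by positivity) hδ0]
    nlinarith [mul_nonneg (sub_nonneg.2 hA) (sub_nonneg.2 hB), mul_le_mul hA hB hδ0.le hA0.le]
  have r4 : t ^ 2 * (t ^ 2 + T ^ 2)⁻¹ ≤ (A + B) / (2 * T) := by
    rw [← div_eq_mul_inv, div_le_div_iff₀ (by positivity) (by positivity), ← sq_abs t]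
    have h0 := abs_nonneg t
    nlinarith [mul_nonneg h0 (sq_nonneg (|t| - T)),
      mul_nonneg (sub_nonneg.2 hAB) (add_nonneg (sq_nonneg |t|) (sq_nonneg T)),
      mul_nonneg h0 (add_nonneg (sq_nonneg |t|) (sq_nonneg T))]
  have r5 : (A + B) / (2 * T) * ((A + B) * (A * B)⁻¹ ^ 2) ≤
      1 / T * (A ^ 2)⁻¹ + 1 / T * (B ^ 2)⁻¹ := by
    have h1 : 1 / T * (A ^ 2)⁻¹ + 1 / T * (B ^ 2)⁻¹ - (A + B) / (2 * T) * ((A + B) * (A * B)⁻¹ ^ 2)
        = (A - B) ^ 2 / (2 * T * A ^ 2 * B ^ 2) := by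
      field_simp
      ring
    have h2 : 0 ≤ (A - B) ^ 2 / (2 * T * A ^ 2 * B ^ 2) := by positivity
    linarith
  have r6 := mul_le_mul_of_nonneg_right r4
    (show 0 ≤ (A + B) * (A * B)⁻¹ ^ 2 by positivity)
  have r7 := mul_le_mul_of_nonneg_right r3
    (show 0 ≤ 2 * (t ^ 2 + η⁻¹ ^ 2)⁻¹ + 2 * (t ^ 2 + T ^ 2)⁻¹ by positivity)
  have e1 : (δ / A) ^ 2 / (2 * lam) = δ ^ 2 / (2 * lam) * (A ^ 2)⁻¹ := by field_simp
  have e2 : (δ / B) ^ 2 / (2 * lam) = δ ^ 2 / (2 * lam) * (B ^ 2)⁻¹ := by field_simp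
  have e3 : 2 / δ = 2 * (1 / δ) := by ring
  rw [e3]
  linarith

lemma far_c_deriv {δ : ℝ} (hδ : 0 < δ) (a t : ℝ) : HasDerivAt (far_c δ a)
    (I * (far_z δ (t + -a) + far_z δ (t + a)) * far_c δ a t ^ 2) t := by
  have n1 := far_z_ne hδ (t + -a)
  have n2 := far_z_ne hδ (t + a)
  refine (((far_z_deriv δ (-a) t).mul (far_z_deriv δ a t)).inv (mul_ne_zero n1 n2)).congr_deriv ?_
  unfold far_c
  simp only [Pi.mul_apply]
  field_simp
  ring

lemma far_main {η T δ lam : ℝ} (hη : 0 < η) (hT : 0 < T) (hδ : 1 ≤ δ) (hl : 0 < lam) (a : ℝ) :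
    ‖∫ t : ℝ, (far_phi η T t : ℂ) * (far_z (1 / 8) t)⁻¹ ^ 2 * far_psi a t‖ ≤
      (lam * (T ^ 2)⁻¹ + 2 / δ) * (π / T) + 2 / δ * (π / η⁻¹) +
        (δ ^ 2 / (2 * lam) + 1 / T) * (π / δ) + (δ ^ 2 / (2 * lam) + 1 / T) * (π / δ) := by
  have hδ0 : 0 < δ := by linarith
  have hG : ∀ t, HasDerivAt (fun x : ℝ => I * ((far_phi η T x : ℂ) * far_c δ a x) * far_psi a x)
      ((far_phi η T t : ℂ) * (far_z (1 / 8) t)⁻¹ ^ 2 * far_psi a t - far_R η T δ a t) t := by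
    intro t
    refine (((((far_phi_deriv η hT t).ofReal_comp).mul (far_c_deriv hδ0 a t)).const_mul I).mul
      (far_psi_deriv a t)).congr_deriv ?_
    unfold far_R
    simp only [Pi.mul_apply]
    linear_combination (-(far_phi η T t : ℂ) * far_c δ a t * (far_z (1 / 8) t)⁻¹ ^ 2 *
      far_psi a t * far_z (1 / 8) (t + -a) * far_z (1 / 8) (t + a)) * I_sq
  have cphi : Continuous fun t : ℝ => (far_phi η T t : ℂ) :=
    continuous_ofReal.comp (continuous_iff_continuousAt.2 fun t =>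
      (far_phi_deriv η hT t).continuousAt)
  have cpsi : Continuous (far_psi a) :=
    continuous_iff_continuousAt.2 fun t => (far_psi_deriv a t).continuousAt
  have cz : Continuous (far_z (1 / 8)) := by
    unfold far_z
    fun_prop
  have l1 := far_lor hT 0
  have l2 := far_lor (inv_pos.2 hη) 0
  have l3 := far_lor hδ0 (-a)
  have l4 := far_lor hδ0 a
  have cF : Continuous fun t : ℝ => (far_phi η T t : ℂ) * (far_z (1 / 8) t)⁻¹ ^ 2 * far_psi a t :=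
    (cphi.mul ((cz.inv₀ (far_z_ne (by norm_num))).pow 2)).mul cpsi
  have iF : Integrable
      fun t : ℝ => (far_phi η T t : ℂ) * (far_z (1 / 8) t)⁻¹ ^ 2 * far_psi a t := by
    refine l1.1.mono' cF.aestronglyMeasurable (Filter.Eventually.of_forall fun t => ?_)
    rw [norm_mul, add_zero]
    exact (mul_le_of_le_one_right (norm_nonneg _) (far_psi_bd a t)).trans (far_F_bd η hT t)
  have iM := (((l1.1.const_mul (lam * (T ^ 2)⁻¹ + 2 / δ)).add (l2.1.const_mul (2 / δ))).add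
    (l3.1.const_mul (δ ^ 2 / (2 * lam) + 1 / T))).add (l4.1.const_mul (δ ^ 2 / (2 * lam) + 1 / T))
  have iR : Integrable (far_R η T δ a) := by
    refine iM.mono' ?_ (Filter.Eventually.of_forall fun t => far_R_bd hη hT hδ hl a t)
    have e : far_R η T δ a = fun t =>
        (far_phi η T t : ℂ) * (far_z (1 / 8) t)⁻¹ ^ 2 * far_psi a t -
          deriv (fun x : ℝ => I * ((far_phi η T x : ℂ) * far_c δ a x) * far_psi a x) t := by
      funext t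
      rw [(hG t).deriv]
      ring
    rw [e]
    exact cF.aestronglyMeasurable.sub (stronglyMeasurable_deriv _).aestronglyMeasurable
  have iG : Integrable fun x : ℝ => I * ((far_phi η T x : ℂ) * far_c δ a x) * far_psi a x := by
    refine (l3.1.add l4.1).mono' (continuous_iff_continuousAt.2 fun t =>
      (hG t).continuousAt).aestronglyMeasurable (Filter.Eventually.of_forall fun t => ?_)
    obtain ⟨p0, p1⟩ := far_phi_bd η hT t
    have p2 : far_phi η T t ≤ 1 := by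
      refine p1.trans ?_
      rw [← div_eq_mul_inv, div_le_one (by positivity)]
      nlinarith
    rw [norm_mul, Pi.add_apply, ← far_z_sq δ (t + -a), ← far_z_sq δ (t + a)]
    refine (mul_le_of_le_one_right (norm_nonneg _) (far_psi_bd a t)).trans ?_
    rw [norm_mul, norm_I, one_mul, norm_mul, Complex.norm_real, Real.norm_of_nonneg p0]
    refine (mul_le_of_le_one_left (norm_nonneg _) p2).trans ?_
    rw [far_c, norm_inv, norm_mul, mul_inv, ← inv_pow, ← inv_pow]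
    nlinarith [sq_nonneg (‖far_z δ (t + -a)‖⁻¹ - ‖far_z δ (t + a)‖⁻¹),
      sq_nonneg ‖far_z δ (t + -a)‖⁻¹, sq_nonneg ‖far_z δ (t + a)‖⁻¹]
  have h0 := integral_eq_zero_of_hasDerivAt_of_integrable hG (iF.sub iR) iG
  rw [integral_sub iF iR, sub_eq_zero] at h0
  rw [h0]
  refine (norm_integral_le_of_norm_le iM
    (Filter.Eventually.of_forall fun t => far_R_bd hη hT hδ hl a t)).trans (le_of_eq ?_)
  simp only [Pi.add_apply]
  rw [integral_add _ (l4.1.const_mul _), integral_add _ (l3.1.const_mul _),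
    integral_add (l1.1.const_mul _) (l2.1.const_mul _), integral_const_mul, integral_const_mul,
    integral_const_mul, integral_const_mul, l1.2, l2.2, l3.2, l4.2]
  · exact (l1.1.const_mul _).add (l2.1.const_mul _)
  · exact ((l1.1.const_mul _).add (l2.1.const_mul _)).add (l3.1.const_mul _)

/-- Oscillatory integral bound for the far part of the four dimensional shell kernel. -/
theorem far_bound (a : ℝ) {w η : ℝ} (hw : 1 ≤ w) (hη : 0 < η) (hηw : η * w ^ 6 ≤ 1) :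
    ‖∫ t : ℝ, ((Real.exp (-(η ^ 2) * t ^ 2) * (t ^ 2 / (t ^ 2 + w ^ 12)) : ℝ) : ℂ) *
      cexp (I * ((-t : ℝ) : ℂ)) * (((((1 / 8 : ℝ) : ℂ) - I * t)⁻¹) ^ 2 *
        cexp (-((a : ℂ) ^ 2) / (((1 / 8 : ℝ) : ℂ) - I * t)))‖ ≤ 8 * π / w ^ 8 := by
  have hw0 : 0 < w := by linarith
  have h := far_main (T := w ^ 6) (δ := w ^ 2) (lam := w ^ 10) hη (by positivity)
    (one_le_pow₀ hw) (by positivity) a
  have e : (fun t : ℝ => ((Real.exp (-(η ^ 2) * t ^ 2) * (t ^ 2 / (t ^ 2 + w ^ 12)) : ℝ) : ℂ) *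
      cexp (I * ((-t : ℝ) : ℂ)) * (((((1 / 8 : ℝ) : ℂ) - I * t)⁻¹) ^ 2 *
        cexp (-((a : ℂ) ^ 2) / (((1 / 8 : ℝ) : ℂ) - I * t)))) =
      fun t : ℝ => (far_phi η (w ^ 6) t : ℂ) * (far_z (1 / 8) t)⁻¹ ^ 2 * far_psi a t := by
    funext t
    unfold far_phi far_psi far_z
    rw [← pow_mul w 6 2]
    ring
  rw [e]
  refine h.trans ?_
  have h1 : 2 / w ^ 2 * (π / η⁻¹) ≤ 2 * π / w ^ 8 := by
    have h2 : 2 * π / w ^ 8 - 2 / w ^ 2 * (π / η⁻¹) = 2 * π * (1 - η * w ^ 6) / w ^ 8 := by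
      field_simp
    have h3 : 0 ≤ 2 * π * (1 - η * w ^ 6) / w ^ 8 :=
      div_nonneg (mul_nonneg (by positivity) (by linarith)) (by positivity)
    linarith
  have h4 : (w ^ 10 * ((w ^ 6) ^ 2)⁻¹ + 2 / w ^ 2) * (π / w ^ 6) = 3 * π / w ^ 8 := by
    field_simp
    ring
  have h5 : ((w ^ 2) ^ 2 / (2 * w ^ 10) + 1 / w ^ 6) * (π / w ^ 2) = 3 / 2 * π / w ^ 8 := by
    field_simp
    ring
  rw [h4, h5]
  have h6 : 8 * π / w ^ 8 = 3 * π / w ^ 8 + 2 * π / w ^ 8 + 3 / 2 * π / w ^ 8 +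
      3 / 2 * π / w ^ 8 := by ring
  linarith

end Pool.Agent.P.MP_f791b6_an
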