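import Pool.Agent.P.MP_f791b6_an.N4Core

namespace Pool.Agent.P.MP_f791b6_an

open Filter
open scoped Topology

/-- Unbounded gain, uniform over all bounded open sets, in every dimension at least four. -/
theorem main_gain {n : ℕ} (hn : 4 ≤ n) (m : ℕ) : ∃ K : ℕ, ∀ Ω : Set (E n), IsOpen Ω →
    Bornology.IsBounded Ω → ∀ k : ℕ, K ≤ k → neumannEig Ω (k + m) ≤ dirichletEig Ω k := by
  by_cases h6 : 6 ≤ n
  · obtain ⟨c, hc, h⟩ := main_low h6
    have hn' : (6 : ℝ) ≤ n := by exact_mod_cast h6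
    have he : 0 < 1 - 5 / (n : ℝ) := by
      rw [sub_pos, div_lt_one (by linarith)]; linarith
    have h1 : Tendsto (fun k : ℕ => c * (k : ℝ) ^ (1 - 5 / (n : ℝ))) atTop atTop :=
      ((tendsto_rpow_atTop he).comp tendsto_natCast_atTop_atTop).const_mul_atTop hc
    obtain ⟨K, hK⟩ := eventually_atTop.mp (h1.eventually_ge_atTop (m : ℝ))
    exact ⟨max K 1, fun Ω ho hb k hk => h Ω ho hb k m (le_trans (le_max_right _ _) hk)
      (hK k (le_trans (le_max_left _ _) hk))⟩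
  · rcases Nat.eq_zero_or_pos m with rfl | hm
    · refine ⟨1, fun Ω ho hb k hk => main_of_core (fun Ω' hm' hb' L hL h1 h2 h3 => ?_) ho hb⟩
      have : FiniteDimensional ℂ L := Module.finite_of_finrank_pos (by omega)
      rw [← hL]
      exact filonov hm' hb' L h1 h2 h3 (fun _ : Fin 0 => 0) (fun _ => 0) (Or.inr fun f => f.elim0)
        (0 : (Fin 0 → ℂ) →ₗ[ℂ] (Fin 0 → ℂ)) fun a ha => absurd (Subsingleton.elim a 0) ha
    · exact main45 (by omega) hm

/-- Only finitely many pairs `(n, k)` with `4 ≤ n` can fail. -/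
theorem main_finite (m : ℕ) : ∃ F : Finset (ℕ × ℕ), ∀ n k : ℕ, 4 ≤ n → 1 ≤ k → (n, k) ∉ F →
    ∀ Ω : Set (E n), IsOpen Ω → Bornology.IsBounded Ω →
      neumannEig Ω (k + n + m) ≤ dirichletEig Ω k := by
  have h : ∀ n : ℕ, ∃ K : ℕ, 4 ≤ n → ∀ Ω : Set (E n), IsOpen Ω →
      Bornology.IsBounded Ω → ∀ k : ℕ, K ≤ k → neumannEig Ω (k + (n + m)) ≤ dirichletEig Ω k := by
    intro n
    by_cases hn : 4 ≤ n
    · obtain ⟨K, hK⟩ := main_gain hn (n + m)
      exact ⟨K, fun _ => hK⟩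
    · exact ⟨0, fun h => absurd h hn⟩
  choose K hK using h
  obtain ⟨N, hN⟩ : ∃ N : ℕ, N = 1000 + m := ⟨_, rfl⟩
  refine ⟨(Finset.range N).biUnion fun n => (Finset.range (K n)).image fun k => (n, k),
    fun n k hn hk hF Ω ho hb => ?_⟩
  rw [add_assoc]
  by_cases h1 : N ≤ n
  · refine main (by omega) ho hb hk ?_
    have h2 := poly_le_exp (A := 2) (c := 101 / 100) (p := 1) (N := 1000) (by norm_num) (by
      have h : (5 / 2 : ℝ) ≤ (101 / 100) ^ 100 := by norm_num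
      calc 2 * ((1000 : ℕ) : ℝ) ^ 1 ≤ (5 / 2) ^ 10 := by norm_num
        _ ≤ ((101 / 100) ^ 100) ^ 10 := by gcongr
        _ = _ := by rw [← pow_mul]) (by norm_num) (show 1000 ≤ n by omega)
    have h3 : (m : ℝ) ≤ n := by exact_mod_cast (show m ≤ n by omega)
    push_cast
    rw [pow_one] at h2
    linarith
  · refine hK n hn Ω ho hb k ?_
    by_contra h2
    exact hF (Finset.mem_biUnion.mpr ⟨n, Finset.mem_range.mpr (by omega),
      Finset.mem_image.mpr ⟨k, Finset.mem_range.mpr (by omega), rfl⟩⟩)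

end Pool.Agent.P.MP_f791b6_an
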