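import Mathlib

/-! Singular values of a skew bilinear form on a Hermitian space come in pairs. -/

namespace Pool.Agent.P.MP_f791b6_an.Odd

open Module
open scoped ComplexConjugate InnerProductSpace

lemma even_card_of_skew {ι : Type*} [Fintype ι] [DecidableEq ι] (Z : Matrix ι ι ℂ)
    (hZ : Z.transpose = -Z) (hd : Z.det ≠ 0) : Even (Fintype.card ι) := by
  by_contra h
  have h1 := Matrix.det_transpose Z
  rw [hZ, Matrix.det_neg, (Nat.not_even_iff_odd.mp h).neg_one_pow] at h1
  exact hd (by linear_combination (-1 / 2 : ℂ) * h1)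

theorem skew_dichotomy {W : Type*} [NormedAddCommGroup W] [InnerProductSpace ℂ W]
    [FiniteDimensional ℂ W] (ω : W →ₗ[ℂ] W →ₗ[ℂ] ℂ) (hω : ∀ x y, ω x y = -ω y x)
    {τ : ℝ} (hτ : 0 ≤ τ) (j : ℕ) :
    (∃ M : Submodule ℂ W, 2 * j + 2 ≤ finrank ℂ M ∧
      ∀ F ∈ M, ∀ c : ℝ, 0 ≤ c → (∀ G, ‖ω F G‖ ≤ c * ‖G‖) → τ * ‖F‖ ≤ c) ∨
    (∃ S : Submodule ℂ W, finrank ℂ S ≤ 2 * j ∧ ∀ g ∈ Sᗮ, ∀ F, ‖ω g F‖ ≤ τ * ‖g‖ * ‖F‖) := by
  classical
  have : CompleteSpace W := FiniteDimensional.complete ℂ W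
  let K : W → W := fun x => (InnerProductSpace.toDual ℂ W).symm (LinearMap.toContinuousLinearMap (ω x))
  have hK : ∀ x y, ⟪K x, y⟫_ℂ = ω x y := fun x y => by
    simp [K, InnerProductSpace.toDual_symm_apply]
  have Kadd : ∀ x y, K (x + y) = K x + K y := fun x y =>
    ext_inner_right ℂ fun z => by simp [hK, inner_add_left]
  have Ksmul : ∀ (a : ℂ) x, K (a • x) = conj a • K x := fun a x =>
    ext_inner_right ℂ fun z => by simp [hK, inner_smul_left]
  let R : W →ₗ[ℂ] W :=
    { toFun := fun x => -K (K x)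
      map_add' := fun x y => by rw [Kadd, Kadd, neg_add]
      map_smul' := fun a x => by simp [Ksmul] }
  have hR : ∀ x y, ⟪R x, y⟫_ℂ = ⟪K y, K x⟫_ℂ := fun x y => by
    change ⟪-K (K x), y⟫_ℂ = _
    rw [inner_neg_left, hK, hω, neg_neg, hK]
  have hRs : R.IsSymmetric := fun x y => by
    rw [hR, ← inner_conj_symm x, hR, inner_conj_symm]
  have KR : ∀ x, R (K x) = K (R x) := fun x => by
    change -K (K (K x)) = K (-K (K x))
    have := Ksmul (-1) (K (K x))
    simpa using this.symm
  set u := hRs.eigenvectorBasis rfl with hu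
  set μ := hRs.eigenvalues rfl with hμ
  have hev : ∀ a, R (u a) = (μ a : ℂ) • u a := fun a => hRs.apply_eigenvectorBasis rfl a
  have hblock : ∀ a b, μ a ≠ μ b → ω (u a) (u b) = 0 := fun a b hab => by
    have h1 : ⟪R (K (u a)), u b⟫_ℂ = μ a * ω (u a) (u b) := by
      rw [KR, hev, Ksmul, inner_smul_left, hK]; simp
    have h2 : ⟪R (K (u a)), u b⟫_ℂ = μ b * ω (u a) (u b) := by
      rw [hRs, hev, inner_smul_right, hK]
    have h3 : ((μ a : ℂ) - μ b) * ω (u a) (u b) = 0 := by rw [sub_mul, ← h1, ← h2, sub_self]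
    exact (mul_eq_zero.mp h3).resolve_left (sub_ne_zero.mpr (by exact_mod_cast hab))
  have hnorm : ∀ x, ‖K x‖ ^ 2 = ∑ a, μ a * ‖⟪u a, x⟫_ℂ‖ ^ 2 := fun x => by
    have h1 : ⟪R x, x⟫_ℂ = ∑ a, ((μ a * ‖⟪u a, x⟫_ℂ‖ ^ 2 : ℝ) : ℂ) := by
      rw [← u.sum_inner_mul_inner (R x) x]
      refine Finset.sum_congr rfl fun a _ => ?_
      rw [hRs, hev, inner_smul_right, ← inner_conj_symm x (u a), mul_assoc, Complex.conj_mul']
      push_cast; rfl
    rw [hR, inner_self_eq_norm_sq_to_K, ← Complex.ofReal_sum] at h1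
    refine Complex.ofReal_injective ?_
    rw [← h1]; simp
  have hnorm0 : ∀ x, ‖x‖ ^ 2 = ∑ a, ‖⟪u a, x⟫_ℂ‖ ^ 2 := fun x => (u.sum_sq_norm_inner_right x).symm
  set P := Finset.univ.filter fun a => τ ^ 2 < μ a with hP
  set S : Submodule ℂ W := Submodule.span ℂ (Set.range fun a : P => u a) with hS
  have hli : LinearIndependent ℂ fun a : P => u a :=
    u.orthonormal.linearIndependent.comp _ Subtype.val_injective
  have hdim : finrank ℂ S = P.card := by
    rw [hS, finrank_span_eq_card hli, Fintype.card_coe]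
  have hin : ∀ x ∈ S, ∀ a, a ∉ P → ⟪u a, x⟫_ℂ = 0 := by
    intro x hx a ha
    have : S ≤ (ℂ ∙ u a)ᗮ := by
      rw [hS, Submodule.span_le]
      rintro _ ⟨b, rfl⟩
      exact Submodule.mem_orthogonal_singleton_iff_inner_right.mpr
        (u.orthonormal.2 fun h => ha (h ▸ b.2))
    exact Submodule.mem_orthogonal_singleton_iff_inner_right.mp (this hx)
  have hlow : ∀ x ∈ S, τ ^ 2 * ‖x‖ ^ 2 ≤ ‖K x‖ ^ 2 ∧ (K x = 0 → x = 0) := by
    intro x hx
    constructor
    · rw [hnorm, hnorm0, Finset.mul_sum]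
      refine Finset.sum_le_sum fun a _ => ?_
      by_cases ha : a ∈ P
      · exact mul_le_mul_of_nonneg_right (Finset.mem_filter.mp ha).2.le (sq_nonneg _)
      · simp [hin x hx a ha]
    · intro h0
      have h1 := hnorm x
      rw [h0, norm_zero, zero_pow two_ne_zero, eq_comm, Finset.sum_eq_zero_iff_of_nonneg] at h1
      · refine u.repr.injective ?_
        ext a
        rw [u.repr_apply_apply, map_zero]
        by_cases ha : a ∈ P
        · have h2 : 0 < μ a := (sq_nonneg τ).trans_lt (Finset.mem_filter.mp ha).2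
          simpa [h2.ne'] using h1 a (Finset.mem_univ a)
        · simp [hin x hx a ha]
      · intro a _
        by_cases ha : a ∈ P
        · exact mul_nonneg ((sq_nonneg τ).trans (Finset.mem_filter.mp ha).2.le) (sq_nonneg _)
        · simp [hin x hx a ha]
  have heven : Even P.card := by
    rw [← Fintype.card_coe]
    refine even_card_of_skew (Matrix.of fun a b : P => ω (u a) (u b)) ?_ ?_
    · ext a b
      simp only [Matrix.transpose_apply, Matrix.of_apply, Matrix.neg_apply]
      exact hω _ _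
    · intro hd
      obtain ⟨v, hv, h0⟩ := Matrix.exists_mulVec_eq_zero_iff.mpr hd
      set y : W := ∑ b : P, v b • u b with hy
      have hyS : y ∈ S := Submodule.sum_mem _ fun b _ =>
        Submodule.smul_mem _ _ (Submodule.subset_span ⟨b, rfl⟩)
      have h1 : ∀ a, ω (u a) y = 0 := fun a => by
        rw [hy, map_sum]
        by_cases ha : a ∈ P
        · have := congrFun h0 ⟨a, ha⟩
          simpa [Matrix.mulVec, dotProduct, mul_comm] using this
        · refine Finset.sum_eq_zero fun b _ => ?_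
          rw [map_smul, hblock a b, smul_zero]
          intro h
          exact ha (Finset.mem_filter.mpr ⟨Finset.mem_univ _, h ▸ (Finset.mem_filter.mp b.2).2⟩)
      have h2 : K y = 0 := by
        refine u.repr.injective ?_
        ext a
        rw [u.repr_apply_apply, map_zero, ← inner_conj_symm, hK, hω, h1]
        simp
      have h3 := (hlow y hyS).2 h2
      exact hv (funext (Fintype.linearIndependent_iff.mp hli v h3))
  by_cases hc : 2 * j + 2 ≤ P.card
  · refine Or.inl ⟨S, hdim ▸ hc, fun F hF c hc0 hG => ?_⟩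
    have h1 := hG (K F)
    rw [← hK, inner_self_eq_norm_sq_to_K] at h1
    simp only [Complex.coe_algebraMap, norm_pow, Complex.norm_real, norm_norm] at h1
    have h2 : ‖K F‖ ≤ c := by
      by_contra h
      push Not at h
      nlinarith
    refine le_trans (abs_le_of_sq_le_sq' ?_ (norm_nonneg (K F))).2 h2
    rw [mul_pow]; exact (hlow F hF).1
  · refine Or.inr ⟨S, ?_, fun g hg F => ?_⟩
    · rw [hdim]
      obtain ⟨r, hr⟩ := heven
      omega
    · rw [← hK]
      refine (norm_inner_le_norm _ _).trans (mul_le_mul_of_nonneg_right ?_ (norm_nonneg _))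
      refine (abs_le_of_sq_le_sq' ?_ (by positivity)).2
      rw [hnorm, mul_pow, hnorm0, Finset.mul_sum]
      refine Finset.sum_le_sum fun a _ => ?_
      by_cases ha : a ∈ P
      · rw [hg (u a) (Submodule.subset_span ⟨⟨a, ha⟩, rfl⟩)]; simp
      · exact mul_le_mul_of_nonneg_right
          (not_lt.mp fun h => ha (Finset.mem_filter.mpr ⟨Finset.mem_univ _, h⟩)) (sq_nonneg _)

end Pool.Agent.P.MP_f791b6_an.Odd
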