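import Pool.Agent.P.MP_f791b6_an.OddData
import Pool.Agent.P.MP_f791b6_an.OddSkew

/-! The vector field count combined with the parity of singular values, in abstract form. -/

namespace Pool.Agent.P.MP_f791b6_an.Odd

open Module Complex
open scoped ComplexConjugate InnerProductSpace

variable {H U N : Type*} [NormedAddCommGroup H] [InnerProductSpace ℂ H] [AddCommGroup U]
  [Module ℂ U] [AddGroup N] (D : Data H U N)

/-- Pair of linear maps, with the Hilbert norm on the target. -/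
def pair {V : Type*} [AddCommGroup V] [Module ℂ V] (f g : V →ₗ[ℂ] H) : V →ₗ[ℂ] WithLp 2 (H × H) :=
  (WithLp.linearEquiv 2 ℂ (H × H)).symm.toLinearMap ∘ₗ f.prod g

lemma alg {P w c e V τ η l l' : ℝ} (hl' : 0 < l') (hτ : τ ^ 2 * l' = 1) (hV : V ^ 2 = P ^ 2 + w ^ 2)
    (h1 : w ^ 2 ≤ τ * c * w + η * V ^ 2) (h2 : e ^ 2 + c ^ 2 ≤ l * V ^ 2)
    (hη : 4 * η * l' = l' - l) : e ^ 2 + (l' - l) / 2 * w ^ 2 ≤ (l + l') / 2 * P ^ 2 := by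
  have a1 : w ^ 2 ≤ τ ^ 2 * c ^ 2 + 2 * η * V ^ 2 := by nlinarith [sq_nonneg (τ * c - w)]
  have a2 := mul_le_mul_of_nonneg_left a1 hl'.le
  have a3 : l' * (τ ^ 2 * c ^ 2 + 2 * η * V ^ 2) = c ^ 2 + (l' - l) / 2 * V ^ 2 := by
    linear_combination c ^ 2 * hτ + V ^ 2 / 2 * hη
  rw [a3, hV] at a2
  rw [hV] at h2
  nlinarith

lemma alg2 {P s e a δ m l' : ℝ} (hP : 0 < P) (ha : 0 ≤ a) (hδ1 : δ < 1)
    (hl : (1 + δ) ^ 2 * m ≤ (1 - δ) ^ 2 * l') (h1 : (1 - δ) * P ^ 2 ≤ s * e)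
    (h2 : e ^ 2 ≤ m * P ^ 2) (h3 : a ≤ (1 + δ) * P) : s ≠ 0 ∧ a ^ 2 ≤ l' * s ^ 2 := by
  have b0 : 0 < (1 - δ) * P ^ 2 := mul_pos (by linarith) (by positivity)
  have a7 : ((1 - δ) * P ^ 2) ^ 2 ≤ s ^ 2 * (m * P ^ 2) := by
    calc ((1 - δ) * P ^ 2) ^ 2 ≤ (s * e) ^ 2 := by gcongr
      _ = s ^ 2 * e ^ 2 := by ring
      _ ≤ _ := by gcongr
  have a8 : (1 - δ) ^ 2 * P ^ 2 ≤ m * s ^ 2 := by
    refine le_of_mul_le_mul_right (a := P ^ 2) ?_ (by positivity)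
    nlinarith
  have a9 : 0 < (1 - δ) ^ 2 := pow_pos (by linarith) 2
  refine ⟨fun h => ?_, ?_⟩
  · rw [h, zero_mul] at h1
    linarith
  · have b1 : a ^ 2 ≤ ((1 + δ) * P) ^ 2 := by gcongr
    refine le_of_mul_le_mul_left (a := (1 - δ) ^ 2) ?_ a9
    have b2 := mul_le_mul_of_nonneg_left b1 a9.le
    have b3 := mul_le_mul_of_nonneg_left a8 (sq_nonneg (1 + δ))
    have b4 := mul_le_mul_of_nonneg_right hl (sq_nonneg s)
    nlinarith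

namespace Data

lemma hodge {w₁ w₂ : H} (hw : ∀ u, ⟪D.A₁ u, w₁⟫_ℂ + ⟪D.A₂ u, w₂⟫_ℂ = 0) :
    ⟪D.e 0, D.J w₂ - I • D.J w₁⟫_ℂ = 0 ∧ ‖D.J w₂ - I • D.J w₁‖ ^ 2 = ‖w₁‖ ^ 2 + ‖w₂‖ ^ 2 ∧
    ∀ n x y, conj ⟪D.e n, w₁⟫_ℂ * x + conj ⟪D.e n, w₂⟫_ℂ * y =
      (I * D.p n * y - I * D.q n * x) * ⟪D.e (-n), D.J w₂ - I • D.J w₁⟫_ℂ / D.d n := by
  have a0 : ⟪D.e 0, w₁⟫_ℂ = 0 := by simpa [D.x₁₁, D.x₂₁] using hw D.x₁
  have b0 : ⟪D.e 0, w₂⟫_ℂ = 0 := by simpa [D.x₁₂, D.x₂₂] using hw D.x₂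
  have hdiv : ∀ n, D.p n * ⟪D.e n, w₁⟫_ℂ + D.q n * ⟪D.e n, w₂⟫_ℂ = 0 := fun n => by
    have := hw (D.ε n)
    rw [D.A₁ε, D.A₂ε, inner_smul_left, inner_smul_left] at this
    simp only [map_mul, conj_I, conj_ofReal] at this
    linear_combination I * this + (D.p n * ⟪D.e n, w₁⟫_ℂ + D.q n * ⟪D.e n, w₂⟫_ℂ) * I_mul_I
  have cF : ∀ n, ⟪D.e (-n), D.J w₂ - I • D.J w₁⟫_ℂ =
      conj ⟪D.e n, w₂⟫_ℂ - I * conj ⟪D.e n, w₁⟫_ℂ := fun n => by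
    rw [inner_sub_right, inner_smul_right, cJ, cJ]
  refine ⟨by simpa [a0, b0] using cF 0, ?_, fun n x y => ?_⟩
  · refine ((Equiv.neg N).hasSum_iff.mpr (D.sq_sum _)).unique
      (((D.sq_sum w₁).add (D.sq_sum w₂)).congr_fun fun n => ?_)
    simp only [Function.comp_apply, Equiv.neg_apply, cF]
    by_cases hn : n = 0
    · simp [hn, a0, b0]
    have h1 := congrArg re (hdiv n)
    have h2 := congrArg im (hdiv n)
    generalize ⟪D.e n, w₁⟫_ℂ = a at h1 h2 ⊢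
    generalize ⟪D.e n, w₂⟫_ℂ = b at h1 h2 ⊢
    simp only [add_re, re_ofReal_mul, zero_re, add_im, im_ofReal_mul, zero_im] at h1 h2
    have h3 : a.re * b.im - a.im * b.re = 0 := by
      by_contra h
      refine hn (D.eq_zero n ?_ ?_)
      · exact (mul_eq_zero.mp (by linear_combination b.im * h1 - b.re * h2)).resolve_right h
      · exact (mul_eq_zero.mp (by linear_combination a.re * h2 - a.im * h1)).resolve_right h
    simp only [Complex.sq_norm, normSq_apply]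
    simp
    linear_combination 2 * h3
  · by_cases hn : n = 0
    · simp [hn, a0, b0, D.p_zero, D.q_zero]
    have hd : D.d n ≠ 0 := fun h => by
      have := D.norm_d n
      rw [h, norm_zero] at this
      exact hn (D.eq_zero n (by nlinarith [sq_nonneg (D.p n), sq_nonneg (D.q n)])
        (by nlinarith [sq_nonneg (D.p n), sq_nonneg (D.q n)]))
    have h1 := congrArg conj (hdiv n)
    simp only [map_add, map_mul, conj_ofReal, map_zero] at h1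
    rw [eq_div_iff hd, cF, d]
    linear_combination (I * (x + I * y)) * h1

theorem main_abs [CompleteSpace H] (L : Submodule ℂ U) {j : ℕ} (hk : finrank ℂ L = 2 * j + 1)
    (hinj : ∀ φ ∈ L, D.B φ = 0 → φ = 0)
    (ibp₁ : ∀ u, ∀ φ ∈ L, ⟪D.A₁ u, D.B φ⟫_ℂ = -⟪D.B u, D.A₁ φ⟫_ℂ)
    (ibp₂ : ∀ u, ∀ φ ∈ L, ⟪D.A₂ u, D.B φ⟫_ℂ = -⟪D.B u, D.A₂ φ⟫_ℂ) {l l' : ℝ} (hl : 0 ≤ l)
    (hL : ∀ φ ∈ L, ‖D.A₁ φ‖ ^ 2 + ‖D.A₂ φ‖ ^ 2 ≤ l * ‖D.B φ‖ ^ 2) (hl' : l < l') :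
    D.Good (2 * j + 2) l' := by
  have : FiniteDimensional ℂ L := Module.finite_of_finrank_pos (by omega)
  have l0 : 0 < l' := hl.trans_lt hl'
  set A := pair D.A₁ D.A₂ with hA
  set φ₁ : L × L →ₗ[ℂ] U := L.subtype ∘ₗ LinearMap.fst ℂ L L with hφ₁
  set φ₂ : L × L →ₗ[ℂ] U := L.subtype ∘ₗ LinearMap.snd ℂ L L with hφ₂
  have m₁ : ∀ v, φ₁ v ∈ L := fun v => v.1.2
  have m₂ : ∀ v, φ₂ v ∈ L := fun v => v.2.2
  set ι := pair (D.B ∘ₗ φ₁) (D.B ∘ₗ φ₂) with hι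
  set dv := D.A₁ ∘ₗ φ₁ + D.A₂ ∘ₗ φ₂ with hdv
  set cu := D.A₁ ∘ₗ φ₂ - D.A₂ ∘ₗ φ₁ with hcu
  have nι : ∀ v, ‖ι v‖ ^ 2 = ‖D.B (φ₁ v)‖ ^ 2 + ‖D.B (φ₂ v)‖ ^ 2 := fun v =>
    WithLp.prod_norm_sq_eq_of_L2 _
  have nA : ∀ u, ‖A u‖ ^ 2 = ‖D.A₁ u‖ ^ 2 + ‖D.A₂ u‖ ^ 2 := fun v =>
    WithLp.prod_norm_sq_eq_of_L2 _
  have c₁ : ∀ n, ∀ φ ∈ L, ⟪D.e n, D.A₁ φ⟫_ℂ = I * D.p n * ⟪D.e n, D.B φ⟫_ℂ := fun n φ h => by
    have := ibp₁ (D.ε n) φ h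
    rw [D.A₁ε, inner_smul_left] at this
    simp only [map_mul, conj_I, conj_ofReal] at this
    linear_combination this
  have c₂ : ∀ n, ∀ φ ∈ L, ⟪D.e n, D.A₂ φ⟫_ℂ = I * D.q n * ⟪D.e n, D.B φ⟫_ℂ := fun n φ h => by
    have := ibp₂ (D.ε n) φ h
    rw [D.A₂ε, inner_smul_left] at this
    simp only [map_mul, conj_I, conj_ofReal] at this
    linear_combination this
  have cdv : ∀ n v, ⟪D.e n, dv v⟫_ℂ =
      I * D.p n * ⟪D.e n, D.B (φ₁ v)⟫_ℂ + I * D.q n * ⟪D.e n, D.B (φ₂ v)⟫_ℂ := fun n v => by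
    rw [← c₁ n _ (m₁ v), ← c₂ n _ (m₂ v), ← inner_add_right]; rfl
  have ccu : ∀ n v, ⟪D.e n, cu v⟫_ℂ =
      I * D.p n * ⟪D.e n, D.B (φ₂ v)⟫_ℂ - I * D.q n * ⟪D.e n, D.B (φ₁ v)⟫_ℂ := fun n v => by
    rw [← c₁ n _ (m₂ v), ← c₂ n _ (m₁ v), ← inner_sub_right]; rfl
  have hdc : ∀ v, ‖dv v‖ ^ 2 + ‖cu v‖ ^ 2 ≤ l * ‖ι v‖ ^ 2 := fun v => by
    have := ((D.sq_sum (dv v)).add (D.sq_sum (cu v))).unique
      ((((D.sq_sum (D.A₁ (φ₁ v))).add (D.sq_sum (D.A₂ (φ₁ v)))).add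
        ((D.sq_sum (D.A₁ (φ₂ v))).add (D.sq_sum (D.A₂ (φ₂ v))))).congr_fun fun n => by
          rw [cdv, ccu, c₁ n _ (m₁ v), c₁ n _ (m₂ v), c₂ n _ (m₁ v), c₂ n _ (m₂ v)]
          simp only [Complex.sq_norm, normSq_apply]
          simp
          ring)
    rw [this, nι, mul_add]
    exact add_le_add (hL _ (m₁ v)) (hL _ (m₂ v))
  have hadj : ∀ u v (a : ℂ), ⟪A u, ι v⟫_ℂ = -⟪D.B u + a • D.e 0, dv v⟫_ℂ := fun u v a => by
    rw [inner_add_left, inner_smul_left, cdv, D.p_zero, D.q_zero]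
    change ⟪D.A₁ u, D.B (φ₁ v)⟫_ℂ + ⟪D.A₂ u, D.B (φ₂ v)⟫_ℂ =
      -(⟪D.B u, D.A₁ (φ₁ v) + D.A₂ (φ₂ v)⟫_ℂ + _)
    rw [ibp₁ _ _ (m₁ v), ibp₂ _ _ (m₂ v), inner_add_right]
    simp [add_comm]
  set Γ := A.range.topologicalClosure with hΓ
  set P := Γ.starProjection.toLinearMap ∘ₗ ι with hP
  set w := ι - P with hw
  have mP : ∀ v, P v ∈ Γ := fun v => Γ.starProjection_apply_mem _
  have mw : ∀ v, w v ∈ Γᗮ := fun v => Γ.sub_starProjection_mem_orthogonal _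
  have dec : ∀ v, ι v = P v + w v := fun v => by simp [hw]
  have pyth : ∀ v, ‖ι v‖ ^ 2 = ‖P v‖ ^ 2 + ‖w v‖ ^ 2 := fun v => by
    rw [dec, @norm_add_sq ℂ, mw v _ (mP v)]; simp
  have Aw : ∀ u v, ⟪A u, w v⟫_ℂ = 0 := fun u v =>
    mw v _ (A.range.le_topologicalClosure ⟨u, rfl⟩)
  set w₁ := WithLp.fstₗ 2 ℂ H H ∘ₗ w with hw₁
  set w₂ := WithLp.sndₗ 2 ℂ H H ∘ₗ w with hw₂
  have nw : ∀ v, ‖w v‖ ^ 2 = ‖w₁ v‖ ^ 2 + ‖w₂ v‖ ^ 2 := fun v => WithLp.prod_norm_sq_eq_of_L2 _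
  set F : L × L →ₗ⋆[ℂ] H := D.J.comp w₂ - I • D.J.comp w₁ with hF
  have hod := fun v => D.hodge (w₁ := w₁ v) (w₂ := w₂ v) fun u => Aw u v
  have nF : ∀ v, ‖F v‖ = ‖w v‖ := fun v =>
    (pow_left_inj₀ (norm_nonneg _) (norm_nonneg _) two_ne_zero).mp ((hod v).2.1.trans (nw v).symm)
  set η := (l' - l) / (4 * l') with hη
  have η0 : 0 < η := div_pos (by linarith) (by positivity)
  obtain ⟨s, hs, hS⟩ := D.exists_symm (L.map D.B) η0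
  have key : ∀ v, ‖w v‖ ^ 2 ≤ ‖D.om s (cu v) (F v)‖ + η * ‖ι v‖ ^ 2 := fun v => by
    have h1 : ⟪w v, ι v⟫_ℂ = D.om s (cu v) (F v) + (⟪w₁ v, D.B (φ₁ v) - D.S s (D.B (φ₁ v))⟫_ℂ +
        ⟪w₂ v, D.B (φ₂ v) - D.S s (D.B (φ₂ v))⟫_ℂ) := by
      have : D.om s (cu v) (F v) =
          ⟪w₁ v, D.S s (D.B (φ₁ v))⟫_ℂ + ⟪w₂ v, D.S s (D.B (φ₂ v))⟫_ℂ := by
        rw [om_apply, inner_S, inner_S, ← Finset.sum_add_distrib]
        refine Finset.sum_congr rfl fun n _ => ?_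
        rw [(hod v).2.2, ccu]; rfl
      rw [this, inner_sub_right, inner_sub_right]
      change ⟪w₁ v, D.B (φ₁ v)⟫_ℂ + ⟪w₂ v, D.B (φ₂ v)⟫_ℂ = _
      ring
    have h2 : ‖w v‖ ^ 2 = ‖⟪w v, ι v⟫_ℂ‖ := by
      rw [dec v, inner_add_right, (Γ.mem_orthogonal' _).mp (mw v) _ (mP v),
        inner_self_eq_norm_sq_to_K]
      simp
    have h3 := (norm_inner_le_norm (𝕜 := ℂ) (w₁ v) _).trans (mul_le_mul_of_nonneg_left
      (hS _ ⟨_, m₁ v, rfl⟩) (norm_nonneg _))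
    have h4 := (norm_inner_le_norm (𝕜 := ℂ) (w₂ v) _).trans (mul_le_mul_of_nonneg_left
      (hS _ ⟨_, m₂ v, rfl⟩) (norm_nonneg _))
    rw [h2, h1]
    refine (norm_add_le _ _).trans (add_le_add le_rfl ((norm_add_le _ _).trans
      ((add_le_add h3 h4).trans ?_)))
    have h5 : ‖w₁ v‖ * ‖D.B (φ₁ v)‖ + ‖w₂ v‖ * ‖D.B (φ₂ v)‖ ≤ ‖ι v‖ ^ 2 := by
      nlinarith [pyth v, nw v, nι v, sq_nonneg ‖P v‖, sq_nonneg (‖w₁ v‖ - ‖D.B (φ₁ v)‖),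
        sq_nonneg (‖w₂ v‖ - ‖D.B (φ₂ v)‖)]
    nlinarith
  set W : Submodule ℂ H := cu.range ⊔ F.range with hW
  have : FiniteDimensional ℂ F.range :=
    Module.Finite.of_surjective F.rangeRestrict F.surjective_rangeRestrict
  have W0 : W ≤ (ℂ ∙ D.e 0)ᗮ := by
    refine sup_le ?_ ?_ <;> rintro _ ⟨v, rfl⟩ <;>
      rw [Submodule.mem_orthogonal_singleton_iff_inner_right]
    · simp [ccu, D.p_zero, D.q_zero]
    · exact (hod v).1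
  set τ := (√l')⁻¹ with hτ
  have τ0 : 0 < τ := by positivity
  have τ2 : τ ^ 2 * l' = 1 := by rw [hτ, inv_pow, Real.sq_sqrt l0.le, inv_mul_cancel₀ l0.ne']
  rcases skew_dichotomy ((D.om s).compl₁₂ W.subtype W.subtype)
    (fun x y => D.om_skew hs _ _) τ0.le j with ⟨M, hM, h⟩ | ⟨S, hS', h⟩
  · refine D.good_of hM (D.u s ∘ₗ W.subtype ∘ₗ M.subtype) fun z hz a => ?_
    have h1 := h z z.2 _ (norm_nonneg _) fun G => D.om_le s (z : W)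
      (Submodule.mem_orthogonal_singleton_iff_inner_right.mp (W0 G.2)) a
    have h2 : 0 < ‖(z : W)‖ := norm_pos_iff.mpr fun h0 => hz (Subtype.ext h0)
    refine ⟨norm_pos_iff.mp ((mul_pos τ0 h2).trans_le h1), (D.energy_u s _).trans ?_⟩
    have h3 := mul_le_mul_of_nonneg_left (pow_le_pow_left₀ (mul_pos τ0 h2).le h1 2) l0.le
    rw [mul_pow, ← mul_assoc, mul_comm l', τ2, one_mul] at h3
    exact h3
  · set g : L × L →ₗ[ℂ] W := cu.codRestrict W fun v => Submodule.mem_sup_left ⟨v, rfl⟩ with hg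
    set T := S.orthogonalProjectionOnto.toLinearMap ∘ₗ g with hT
    have hdim : 2 * j + 2 ≤ finrank ℂ T.ker := by
      have h1 := T.finrank_range_add_finrank_ker
      have h2 := T.range.finrank_le
      rw [Module.finrank_prod, hk] at h1
      omega
    set δ := (l' - l) / (2 * (l + 3 * l')) with hδ
    have hll : 0 < 2 * (l + 3 * l') := by linarith
    have δ0 : 0 < δ := div_pos (by linarith) hll
    have δ1 : δ < 1 := by rw [hδ, div_lt_one hll]; linarith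
    have δ2 : (1 + δ) ^ 2 * ((l + l') / 2) ≤ (1 - δ) ^ 2 * l' := by
      have : δ * (2 * (l + 3 * l')) = l' - l := div_mul_cancel₀ _ hll.ne'
      nlinarith [mul_nonneg (sq_nonneg δ) (sub_pos.mpr hl').le]
    obtain ⟨Ψ, hΨ⟩ := approx A P.range (by rintro _ ⟨v, rfl⟩; exact mP v) δ0
    refine D.good_of hdim (Ψ ∘ₗ P.rangeRestrict ∘ₗ T.ker.subtype) fun z hz a => ?_
    obtain ⟨v, hv⟩ := z
    have h1 := h (g v) (Submodule.orthogonalProjectionOnto_eq_zero_iff.mp hv)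
      ⟨F v, Submodule.mem_sup_right ⟨v, rfl⟩⟩
    change ‖D.om s (cu v) (F v)‖ ≤ τ * ‖cu v‖ * ‖F v‖ at h1
    rw [nF] at h1
    have h2 := alg l0 τ2 (pyth v) ((key v).trans (add_le_add h1 le_rfl)) (hdc v)
      (by rw [hη]; field_simp)
    have h3 : 0 ≤ (l' - l) / 2 * ‖w v‖ ^ 2 := mul_nonneg (by linarith) (sq_nonneg _)
    have hP0 : 0 < ‖P v‖ := norm_pos_iff.mpr fun h0 => by
      have h4 : ‖w v‖ ^ 2 ≤ 0 := by
        rw [h0, norm_zero] at h2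
        refine le_of_mul_le_mul_left (a := (l' - l) / 2) ?_ (by linarith)
        linarith [sq_nonneg ‖dv v‖]
      have h5 := pyth v
      rw [h0, norm_zero, nι] at h5
      have n1 := sq_nonneg ‖D.B (φ₁ v)‖
      have n2 := sq_nonneg ‖D.B (φ₂ v)‖
      have h6 : ‖D.B (φ₁ v)‖ ^ 2 = 0 := by linarith
      have h7 : ‖D.B (φ₂ v)‖ ^ 2 = 0 := by linarith
      rw [sq_eq_zero_iff, norm_eq_zero] at h6 h7
      exact hz (Subtype.ext (Prod.ext (Subtype.ext (hinj _ (m₁ v) h6))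
        (Subtype.ext (hinj _ (m₂ v) h7))))
    set u := Ψ (P.rangeRestrict v) with hu
    have h6 : ‖A u - P v‖ ≤ δ * ‖P v‖ := hΨ _
    change D.B u + a • D.e 0 ≠ 0 ∧ ‖D.A₁ u‖ ^ 2 + ‖D.A₂ u‖ ^ 2 ≤ l' * ‖D.B u + a • D.e 0‖ ^ 2
    rw [← nA, ← norm_ne_zero_iff]
    refine alg2 (e := ‖dv v‖) hP0 (norm_nonneg _) δ1 δ2 ?_ (by linarith) ?_
    · have h7 : ⟪P v, P v⟫_ℂ = -⟪D.B u + a • D.e 0, dv v⟫_ℂ - ⟪A u - P v, P v⟫_ℂ := by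
        rw [← hadj, dec, inner_add_right, Aw, inner_sub_left]; ring
      have h8 : ‖P v‖ ^ 2 = ‖⟪P v, P v⟫_ℂ‖ := by rw [inner_self_eq_norm_sq_to_K]; simp
      have h9 := (norm_sub_le _ _).trans_eq' (congrArg norm h7).symm
      rw [← h8, norm_neg] at h9
      have h10 := norm_inner_le_norm (𝕜 := ℂ) (D.B u + a • D.e 0) (dv v)
      have h11 := (norm_inner_le_norm (𝕜 := ℂ) (A u - P v) (P v)).trans
        (mul_le_mul_of_nonneg_right h6 (norm_nonneg _))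
      nlinarith
    · linarith [norm_sub_norm_le (A u) (P v)]

end Data

end Pool.Agent.P.MP_f791b6_an.Odd
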