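import Mathlib

/-! Abstract setting: a Parseval frame of exponentials, a conjugation and two derivatives. -/

namespace Pool.Agent.P.MP_f791b6_an.Odd

open Module Filter Topology Complex
open scoped ComplexConjugate InnerProductSpace

/-- `H` plays the role of `L²(Ω)`, `U` of the smooth functions, `B` of the restriction,
`A₁`, `A₂` of the restricted derivatives, `J` of the conjugation. -/
structure Data (H U N : Type*) [NormedAddCommGroup H] [InnerProductSpace ℂ H] [AddCommGroup U]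
    [Module ℂ U] [AddGroup N] where
  B : U →ₗ[ℂ] H
  A₁ : U →ₗ[ℂ] H
  A₂ : U →ₗ[ℂ] H
  J : H →ₗ⋆[ℂ] H
  ε : N → U
  p : N → ℝ
  q : N → ℝ
  x₁ : U
  x₂ : U
  frame : ∀ f g, HasSum (fun n => conj ⟪B (ε n), f⟫_ℂ * ⟪B (ε n), g⟫_ℂ) ⟪f, g⟫_ℂ
  J_inner : ∀ f g, ⟪J f, J g⟫_ℂ = conj ⟪f, g⟫_ℂ
  J_wave : ∀ n, J (B (ε n)) = B (ε (-n))
  A₁ε : ∀ n, A₁ (ε n) = (I * p n) • B (ε n)
  A₂ε : ∀ n, A₂ (ε n) = (I * q n) • B (ε n)
  p_neg : ∀ n, p (-n) = -p n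
  q_neg : ∀ n, q (-n) = -q n
  eq_zero : ∀ n, p n = 0 → q n = 0 → n = 0
  x₁₁ : A₁ x₁ = B (ε 0)
  x₂₁ : A₂ x₁ = 0
  x₁₂ : A₁ x₂ = 0
  x₂₂ : A₂ x₂ = B (ε 0)

variable {H U N : Type*} [NormedAddCommGroup H] [InnerProductSpace ℂ H] [AddCommGroup U]
  [Module ℂ U] [AddGroup N] (D : Data H U N)

lemma bound_of_basis {Y G : Type*} [NormedAddCommGroup Y] [InnerProductSpace ℂ Y]
    [FiniteDimensional ℂ Y] [NormedAddCommGroup G] [NormedSpace ℂ G] (T : Y →ₗ[ℂ] G) (y : Y) :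
    ‖T y‖ ≤ (∑ i, ‖T (stdOrthonormalBasis ℂ Y i)‖) * ‖y‖ := by
  set b := stdOrthonormalBasis ℂ Y
  conv_lhs => rw [← b.sum_repr' y, map_sum]
  rw [Finset.sum_mul]
  refine (norm_sum_le _ _).trans (Finset.sum_le_sum fun i _ => ?_)
  rw [map_smul, norm_smul, mul_comm]
  refine mul_le_mul_of_nonneg_left ((norm_inner_le_norm _ _).trans ?_) (norm_nonneg _)
  rw [b.orthonormal.1, one_mul]

lemma approx {G : Type*} [NormedAddCommGroup G] [InnerProductSpace ℂ G] (A : U →ₗ[ℂ] G)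
    (Y : Submodule ℂ G) [FiniteDimensional ℂ Y] (hY : Y ≤ A.range.topologicalClosure) {δ : ℝ}
    (hδ : 0 < δ) : ∃ Ψ : Y →ₗ[ℂ] U, ∀ y, ‖A (Ψ y) - y‖ ≤ δ * ‖y‖ := by
  set r := finrank ℂ Y
  set b : OrthonormalBasis (Fin r) ℂ Y := stdOrthonormalBasis ℂ Y with hb
  have h1 : ∀ i, ∃ u, ‖A u - b i‖ ≤ δ / (r + 1) := fun i => by
    obtain ⟨_, ⟨u, rfl⟩, h⟩ := Metric.mem_closure_iff.mp (hY (b i).2) (δ / (r + 1)) (by positivity)
    exact ⟨u, by rw [← dist_eq_norm, dist_comm]; exact h.le⟩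
  choose u hu using h1
  refine ⟨b.toBasis.constr ℂ u, fun y => ?_⟩
  refine (bound_of_basis (A ∘ₗ b.toBasis.constr ℂ u - Y.subtype) y).trans
    (mul_le_mul_of_nonneg_right ?_ (norm_nonneg _))
  calc _ ≤ ∑ _i : Fin r, δ / (r + 1) := Finset.sum_le_sum fun i _ => by
        have := b.toBasis.constr_basis ℂ u i
        rw [OrthonormalBasis.coe_toBasis] at this
        rw [LinearMap.sub_apply, LinearMap.comp_apply, ← hb, this]
        exact hu i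
    _ ≤ δ := by
        rw [Finset.sum_const, Finset.card_univ, Fintype.card_fin, nsmul_eq_mul, ← mul_div_assoc,
          div_le_iff₀ (by positivity)]
        nlinarith

namespace Data

/-- Frame vectors. -/
abbrev e (n : N) : H := D.B (D.ε n)

/-- Symbol of the first derivative plus `I` times the second. -/
noncomputable def d (n : N) : ℂ := I * (D.p n + I * D.q n)

lemma d_neg (n : N) : D.d (-n) = -D.d n := by
  simp only [d, D.p_neg, D.q_neg]; push_cast; ring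

lemma p_zero : D.p 0 = 0 := by have := D.p_neg 0; rw [neg_zero] at this; linarith

lemma q_zero : D.q 0 = 0 := by have := D.q_neg 0; rw [neg_zero] at this; linarith

lemma norm_d (n : N) : ‖D.d n‖ ^ 2 = D.p n ^ 2 + D.q n ^ 2 := by
  rw [Complex.sq_norm, normSq_apply]; simp [d]; ring

lemma sq_sum (f : H) : HasSum (fun n => ‖⟪D.e n, f⟫_ℂ‖ ^ 2) (‖f‖ ^ 2) := by
  have := Complex.hasSum_re (D.frame f f)
  simp only [Complex.conj_mul', inner_self_eq_norm_sq_to_K, coe_algebraMap, ← ofReal_pow,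
    ofReal_re] at this
  exact this

lemma bessel (s : Finset N) (f : H) : ∑ n ∈ s, ‖⟪D.e n, f⟫_ℂ‖ ^ 2 ≤ ‖f‖ ^ 2 :=
  sum_le_hasSum s (fun _ _ => sq_nonneg _) (D.sq_sum f)

lemma synth (s : Finset N) (a : N → ℂ) : ‖∑ n ∈ s, a n • D.e n‖ ^ 2 ≤ ∑ n ∈ s, ‖a n‖ ^ 2 := by
  set h := ∑ n ∈ s, a n • D.e n with hh
  have h1 : ‖h‖ ^ 2 ≤ ∑ n ∈ s, (‖a n‖ ^ 2 + ‖⟪D.e n, h⟫_ℂ‖ ^ 2) / 2 := by
    have : ‖h‖ ^ 2 = ‖⟪h, h⟫_ℂ‖ := by rw [inner_self_eq_norm_sq_to_K]; simp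
    rw [this]
    conv_lhs => arg 1; arg 2; rw [hh]
    rw [sum_inner]
    refine (norm_sum_le _ _).trans (Finset.sum_le_sum fun n _ => ?_)
    rw [inner_smul_left, norm_mul, Complex.norm_conj]
    nlinarith [sq_nonneg (‖a n‖ - ‖⟪D.e n, h⟫_ℂ‖)]
  rw [← Finset.sum_div, Finset.sum_add_distrib] at h1
  linarith [D.bessel s h]

lemma cJ (n : N) (f : H) : ⟪D.e (-n), D.J f⟫_ℂ = conj ⟪D.e n, f⟫_ℂ := by
  rw [← D.J_inner, D.J_wave]

lemma normJ (f : H) : ‖D.J f‖ = ‖f‖ := by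
  have := D.J_inner f f
  rw [inner_conj_symm, inner_self_eq_norm_sq_to_K, inner_self_eq_norm_sq_to_K] at this
  exact (pow_left_inj₀ (norm_nonneg _) (norm_nonneg _) two_ne_zero).mp (by exact_mod_cast this)

/-- Finite part of the frame expansion. -/
noncomputable def S (s : Finset N) : H →ₗ[ℂ] H := ∑ n ∈ s, (innerₛₗ ℂ (D.e n)).smulRight (D.e n)

lemma S_apply (s : Finset N) (f : H) : D.S s f = ∑ n ∈ s, ⟪D.e n, f⟫_ℂ • D.e n := by
  simp [S, LinearMap.sum_apply]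

lemma inner_S (s : Finset N) (f g : H) :
    ⟪f, D.S s g⟫_ℂ = ∑ n ∈ s, conj ⟪D.e n, f⟫_ℂ * ⟪D.e n, g⟫_ℂ := by
  rw [S_apply, inner_sum]
  refine Finset.sum_congr rfl fun n _ => ?_
  rw [inner_smul_right, inner_conj_symm, mul_comm]

lemma tendsto_S (f : H) : Tendsto (fun s => ‖f - D.S s f‖) atTop (𝓝 0) := by
  have h1 : Tendsto (fun s : Finset N => √(‖f‖ ^ 2 - ∑ n ∈ s, ‖⟪D.e n, f⟫_ℂ‖ ^ 2)) atTop (𝓝 0) := by
    have : Tendsto (fun s : Finset N => ∑ n ∈ s, ‖⟪D.e n, f⟫_ℂ‖ ^ 2) atTop (𝓝 (‖f‖ ^ 2)) :=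
      D.sq_sum f
    have h2 := (this.const_sub (‖f‖ ^ 2)).sqrt
    rwa [sub_self, Real.sqrt_zero] at h2
  refine squeeze_zero (fun _ => norm_nonneg _) (fun s => Real.le_sqrt_of_sq_le ?_) h1
  rw [@norm_sub_sq ℂ, inner_S]
  have := D.synth s fun n => ⟪D.e n, f⟫_ℂ
  rw [← S_apply] at this
  simp only [Complex.conj_mul', ← ofReal_pow, ← ofReal_sum, RCLike.re_to_complex, ofReal_re]
  linarith

lemma exists_symm (Y : Submodule ℂ H) [FiniteDimensional ℂ Y] {η : ℝ} (hη : 0 < η) :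
    ∃ s : Finset N, (∀ n ∈ s, -n ∈ s) ∧ ∀ f ∈ Y, ‖f - D.S s f‖ ≤ η * ‖f‖ := by
  classical
  set b := stdOrthonormalBasis ℂ Y with hb
  have h1 : Tendsto (fun s => ∑ i, ‖(b i : H) - D.S s (b i)‖) atTop (𝓝 0) := by
    simpa using tendsto_finsetSum Finset.univ fun i _ => D.tendsto_S (b i)
  obtain ⟨s, hs⟩ := eventually_atTop.mp (h1.eventually (ge_mem_nhds hη))
  refine ⟨s ∪ s.image fun n => -n, fun n hn => ?_, fun f hf => ?_⟩
  · simp only [Finset.mem_union, Finset.mem_image] at hn ⊢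
    rcases hn with h | ⟨m, h, rfl⟩
    · exact Or.inr ⟨n, h, rfl⟩
    · exact Or.inl (by simpa using h)
  · refine (bound_of_basis (Y.subtype - D.S _ ∘ₗ Y.subtype) ⟨f, hf⟩).trans
      (mul_le_mul_of_nonneg_right ?_ (norm_nonneg _))
    simpa using hs _ Finset.subset_union_left

/-- Finite part of the Cauchy transform. -/
noncomputable def u (s : Finset N) : H →ₗ[ℂ] U :=
  ∑ n ∈ s, (innerₛₗ ℂ (D.e n)).smulRight ((D.d n)⁻¹ • D.ε n)

lemma u_apply (s : Finset N) (f : H) : D.u s f = ∑ n ∈ s, (⟪D.e n, f⟫_ℂ / D.d n) • D.ε n := by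
  simp [u, LinearMap.sum_apply, smul_smul, div_eq_mul_inv]

lemma energy_u (s : Finset N) (f : H) : ‖D.A₁ (D.u s f)‖ ^ 2 + ‖D.A₂ (D.u s f)‖ ^ 2 ≤ ‖f‖ ^ 2 := by
  simp only [u_apply, map_sum, map_smul, D.A₁ε, D.A₂ε, smul_smul]
  refine (add_le_add (D.synth s _) (D.synth s _)).trans (le_trans ?_ (D.bessel s f))
  rw [← Finset.sum_add_distrib]
  refine Finset.sum_le_sum fun n _ => ?_
  simp only [norm_mul, norm_div, norm_I, one_mul, norm_real, Real.norm_eq_abs, mul_pow, div_pow,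
    sq_abs]
  rw [← mul_add, ← D.norm_d, div_mul_eq_mul_div, mul_div_assoc]
  exact mul_le_of_le_one_right (sq_nonneg _) (div_self_le_one _)

/-- The bilinear form of the finite Cauchy transform. -/
noncomputable def om (s : Finset N) : H →ₗ[ℂ] H →ₗ[ℂ] ℂ :=
  ∑ n ∈ s, (innerₛₗ ℂ (D.e n)).smulRight ((D.d n)⁻¹ • innerₛₗ ℂ (D.e (-n)))

lemma om_apply (s : Finset N) (f g : H) :
    D.om s f g = ∑ n ∈ s, ⟪D.e n, f⟫_ℂ * ⟪D.e (-n), g⟫_ℂ / D.d n := by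
  simp only [om, LinearMap.sum_apply, LinearMap.smulRight_apply, LinearMap.smul_apply,
    innerₛₗ_apply_apply, smul_eq_mul]
  exact Finset.sum_congr rfl fun n _ => by ring

lemma om_skew {s : Finset N} (hs : ∀ n ∈ s, -n ∈ s) (f g : H) : D.om s f g = -D.om s g f := by
  rw [om_apply, om_apply, ← Finset.sum_neg_distrib]
  refine Finset.sum_bij' (fun n _ => -n) (fun n _ => -n) hs hs (by simp) (by simp) fun n _ => ?_
  rw [d_neg, neg_neg, div_neg, neg_neg, mul_comm]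

lemma om_le (s : Finset N) (f : H) {g : H} (hg : ⟪D.e 0, g⟫_ℂ = 0) (a : ℂ) :
    ‖D.om s f g‖ ≤ ‖D.B (D.u s f) + a • D.e 0‖ * ‖g‖ := by
  have : D.om s f g = ⟪D.J (D.B (D.u s f) + a • D.e 0), g⟫_ℂ := by
    simp only [om_apply, u_apply, map_add, map_sum, map_smul, LinearMap.map_smulₛₗ, D.J_wave,
      inner_add_left, sum_inner, inner_smul_left, neg_zero, hg, mul_zero, add_zero,
      Complex.conj_conj]
    exact Finset.sum_congr rfl fun n _ => by ring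
  rw [this, ← D.normJ (_ + _)]
  exact norm_inner_le_norm _ _

/-- There are `m` independent directions which, together with the constants, have Rayleigh
quotient at most `l`. -/
def Good (m : ℕ) (l : ℝ) : Prop :=
  ∃ Φ : (Fin m → ℂ) →ₗ[ℂ] U, ∀ z ≠ 0, ∀ a : ℂ, D.B (Φ z) + a • D.e 0 ≠ 0 ∧
    ‖D.A₁ (Φ z)‖ ^ 2 + ‖D.A₂ (Φ z)‖ ^ 2 ≤ l * ‖D.B (Φ z) + a • D.e 0‖ ^ 2

lemma good_of {Z : Type*} [AddCommGroup Z] [Module ℂ Z] {m : ℕ} (hm : m ≤ finrank ℂ Z) {l : ℝ}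
    (Φ : Z →ₗ[ℂ] U) (h : ∀ z ≠ 0, ∀ a : ℂ, D.B (Φ z) + a • D.e 0 ≠ 0 ∧
      ‖D.A₁ (Φ z)‖ ^ 2 + ‖D.A₂ (Φ z)‖ ^ 2 ≤ l * ‖D.B (Φ z) + a • D.e 0‖ ^ 2) : D.Good m l := by
  obtain ⟨v, hv⟩ := exists_linearIndependent_of_le_finrank hm
  refine ⟨Φ ∘ₗ Fintype.linearCombination ℂ v, fun z hz => h _ fun h0 => hz ?_⟩
  exact funext (Fintype.linearIndependent_iff.mp hv z h0)

end Data

end Pool.Agent.P.MP_f791b6_an.Odd
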