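import Pool.Agent.P.MP_f791b6_an.Defs

/-! Exponentials of a large square form a Parseval frame on a bounded planar set. -/

namespace Pool.Agent.P.MP_f791b6_an.Odd

open MeasureTheory Set Complex UnitAddTorus
open scoped ComplexConjugate Real

/-- Normalised exponential of the square of side `T`. -/
noncomputable def wave (T : ℝ) (n : Fin 2 → ℤ) (x : E 2) : ℂ :=
  (T : ℂ)⁻¹ * cexp (I * ((2 * π * n 0 / T * x 0 + 2 * π * n 1 / T * x 1 : ℝ) : ℂ))

theorem parseval {Ω : Set (E 2)} (hm : MeasurableSet Ω) {T : ℝ} (hT : 0 < T)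
    (hΩ : ∀ x ∈ Ω, ∀ i, |x i| < T / 2) {f g : E 2 → ℂ} (hf : MemLp f 2 (volume.restrict Ω))
    (hg : MemLp g 2 (volume.restrict Ω)) :
    HasSum (fun n => conj (∫ x in Ω, conj (wave T n x) * f x) * ∫ x in Ω, conj (wave T n x) * g x)
      (∫ x in Ω, conj (f x) * g x) := by
  let _ : MeasureSpace UnitAddCircle := instMeasureSpaceUnitAddCircle
  set a : Fin 2 → ℝ := fun _ => -1 / 2 with ha
  set Q : Set (Fin 2 → ℝ) := {x | ∀ i, x i ∈ Ioc (a i) (a i + 1)} with hQ
  have mQ : MeasurableSet Q := MeasurableSet.univ_pi' fun i => measurableSet_Ioc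
  set Ψ : (Fin 2 → ℝ) → E 2 := fun x => T • WithLp.toLp 2 x with hΨ
  set ψ : UnitAddTorus (Fin 2) → (Fin 2 → ℝ) := fun y => (measurableEquivPiIoc a y).1 with hψ
  have h1 : MeasurePreserving ψ volume (volume.restrict Q) :=
    (measurePreserving_subtype_coe mQ).comp (measurePreserving_equivPiIoc a)
  have h2 : MeasurePreserving Ψ volume (ENNReal.ofReal |(T ^ 2)⁻¹| • volume) := by
    refine MeasurePreserving.comp (g := fun z : E 2 => T • z) ⟨by fun_prop, ?_⟩
      (PiLp.volume_preserving_toLp (Fin 2))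
    simpa using Measure.map_addHaar_smul (volume : Measure (E 2)) hT.ne'
  have hψ' : ∀ x ∈ Q, ψ (fun i => (x i : UnitAddCircle)) = x := fun x hx => by
    funext i
    simp only [hψ, coe_measurableEquivPiIoc_apply]
    rw [AddCircle.equivIoc_coe_eq (hx i)]
  have hint : ∀ G : E 2 → ℂ, ∫ y, Ω.indicator G (Ψ (ψ y)) = ((T : ℂ) ^ 2)⁻¹ * ∫ x in Ω, G x := by
    intro G
    rw [integral_preimage _ a, setIntegral_congr_fun mQ (g := fun x => Ω.indicator G (Ψ x))
      (fun x hx => by simp only [hψ' x hx]), setIntegral_eq_integral_of_forall_compl_eq_zero,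
      (PiLp.volume_preserving_toLp (Fin 2)).integral_comp
        (MeasurableEquiv.toLp 2 _).measurableEmbedding (fun z => Ω.indicator G (T • z)),
      Measure.integral_comp_smul, integral_indicator hm]
    · simp [abs_of_pos hT]
    · intro x hx
      refine indicator_of_notMem (fun h => hx fun i => ?_) _
      have := abs_lt.mp (hΩ _ h i)
      simp only [hΨ, PiLp.smul_apply, smul_eq_mul] at this
      constructor <;> simp only [ha] <;> nlinarith [this.1, this.2]
  have hmem : ∀ {G : E 2 → ℂ}, MemLp G 2 (volume.restrict Ω) →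
      MemLp (fun y => Ω.indicator G (Ψ (ψ y))) 2 volume := fun hG =>
    (((((memLp_indicator_iff_restrict hm).mpr hG).smul_measure
      ENNReal.ofReal_ne_top).comp_measurePreserving h2).restrict Q).comp_measurePreserving h1
  have hw : ∀ n y, mFourier (-n) y = T * conj (wave T n (Ψ (ψ y))) := fun n y => by
    have : y = fun i => ((ψ y i : ℝ) : UnitAddCircle) := by
      funext i
      simp [hψ, AddCircle.coe_equivIoc]
    have hT' : (T : ℂ) ≠ 0 := by exact_mod_cast hT.ne'
    rw [mFourier_neg, wave, map_mul, map_inv₀, conj_ofReal, ← mul_assoc, mul_inv_cancel₀ hT',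
      one_mul]
    congr 1
    conv_lhs => rw [this]
    simp only [mFourier, ContinuousMap.coe_mk, Fin.prod_univ_two, fourier_coe_apply, ← exp_add, hΨ,
      PiLp.smul_apply, smul_eq_mul]
    congr 1
    push_cast
    field_simp
  have hco : ∀ {G : E 2 → ℂ} (hG : MemLp G 2 (volume.restrict Ω)) n,
      mFourierCoeff ((hmem hG).toLp _) n = (T : ℂ)⁻¹ * ∫ x in Ω, conj (wave T n x) * G x := by
    intro G hG n
    have hT' : (T : ℂ) ≠ 0 := by exact_mod_cast hT.ne'
    rw [mFourierCoeff, integral_congr_ae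
      (g := fun y => T * Ω.indicator (fun x => conj (wave T n x) * G x) (Ψ (ψ y))),
      integral_const_mul, hint]
    · field_simp
    · filter_upwards [(hmem hG).coeFn_toLp] with y hy
      rw [hy, hw, smul_eq_mul]
      by_cases h : Ψ (ψ y) ∈ Ω <;> simp [h, mul_assoc]
  have key := hasSum_prod_mFourierCoeff ((hmem hf).toLp _) ((hmem hg).toLp _)
  rw [integral_congr_ae (g := fun y => Ω.indicator (fun x => conj (f x) * g x) (Ψ (ψ y))) (by
    filter_upwards [(hmem hf).coeFn_toLp, (hmem hg).coeFn_toLp] with y h3 h4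
    rw [h3, h4]
    by_cases h : Ψ (ψ y) ∈ Ω <;> simp [h]), hint] at key
  have hT' : (T : ℂ) ≠ 0 := by exact_mod_cast hT.ne'
  have key2 := key.mul_left ((T : ℂ) ^ 2)
  rw [← mul_assoc, mul_inv_cancel₀ (pow_ne_zero 2 hT'), one_mul] at key2
  refine key2.congr_fun fun n => ?_
  rw [hco hf, hco hg, map_mul, map_inv₀, conj_ofReal]
  field_simp

end Pool.Agent.P.MP_f791b6_an.Odd
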