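import Pool.Agent.P.MP_f791b6_an.OddAbs
import Pool.Agent.P.MP_f791b6_an.OddFrame

/-! Shift two between Neumann and Dirichlet min-max values of odd index on planar sets. -/

namespace Pool.Agent.P.MP_f791b6_an.Odd

open MeasureTheory Module Complex
open scoped ComplexConjugate InnerProductSpace ContDiff Real

/-- Smooth functions on the plane. -/
def Sm : Submodule ℂ (E 2 → ℂ) where
  carrier := {u | ContDiff ℝ ∞ u}
  zero_mem' := show ContDiff ℝ ∞ _ from contDiff_const
  add_mem' := fun {u v} (h1 : ContDiff ℝ ∞ u) (h2 : ContDiff ℝ ∞ v) =>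
    show ContDiff ℝ ∞ _ from h1.add h2
  smul_mem' := fun c u (h : ContDiff ℝ ∞ u) =>
    show ContDiff ℝ ∞ (fun x => c * u x) from contDiff_const.mul h

lemma Sm.diff (u : Sm) (x : E 2) : DifferentiableAt ℝ u.1 x :=
  (show ContDiff ℝ ∞ u.1 from u.2).differentiable (by simp) x

lemma Sm.cont (u : Sm) : Continuous u.1 := (show ContDiff ℝ ∞ u.1 from u.2).continuous

/-- Coordinate derivative. -/
noncomputable def dd (j : Fin 2) : Sm →ₗ[ℂ] Sm where
  toFun u := ⟨fun x => fderiv ℝ u.1 x (EuclideanSpace.single j (1 : ℝ)),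
    ((show ContDiff ℝ ∞ u.1 from u.2).fderiv_right (m := ∞) (by simp)).clm_apply contDiff_const⟩
  map_add' u v := by
    ext x
    simp [fderiv_add (Sm.diff u x) (Sm.diff v x)]
  map_smul' c u := by
    ext x
    simp [fderiv_const_smul (Sm.diff u x) c]

variable {Ω : Set (E 2)}

lemma intOn (hb : Bornology.IsBounded Ω) {G : Type*} [NormedAddCommGroup G] {f : E 2 → G}
    (hf : Continuous f) : Integrable f (volume.restrict Ω) :=
  (hf.continuousOn.integrableOn_compact hb.isCompact_closure).mono_set subset_closure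

lemma memL (hb : Bornology.IsBounded Ω) (u : Sm) : MemLp u.1 2 (volume.restrict Ω) :=
  (memLp_two_iff_integrable_sq_norm (Sm.cont u).aestronglyMeasurable).mpr
    (intOn hb ((Sm.cont u).norm.pow 2))

/-- Restriction to `Ω`. -/
noncomputable def res (hb : Bornology.IsBounded Ω) : Sm →ₗ[ℂ] Lp ℂ 2 (volume.restrict Ω) where
  toFun u := (memL hb u).toLp _
  map_add' u v := MemLp.toLp_add (memL hb u) (memL hb v)
  map_smul' c u := MemLp.toLp_const_smul c (memL hb u)

lemma res_ae (hb : Bornology.IsBounded Ω) (u : Sm) : res hb u =ᵐ[volume.restrict Ω] u.1 :=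
  (memL hb u).coeFn_toLp

lemma inner_eq (f g : Lp ℂ 2 (volume.restrict Ω)) : ⟪f, g⟫_ℂ = ∫ x in Ω, conj (f x) * g x := by
  simp [L2.inner_def, mul_comm]

lemma inner_res (hb : Bornology.IsBounded Ω) (u : Sm) (g : Lp ℂ 2 (volume.restrict Ω)) :
    ⟪res hb u, g⟫_ℂ = ∫ x in Ω, conj (u.1 x) * g x := by
  rw [inner_eq]
  exact integral_congr_ae ((res_ae hb u).mono fun x hx => by simp only [hx])

lemma inner_res_res (hb : Bornology.IsBounded Ω) (u v : Sm) :
    ⟪res hb u, res hb v⟫_ℂ = ∫ x in Ω, conj (u.1 x) * v.1 x := by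
  rw [inner_res]
  exact integral_congr_ae ((res_ae hb v).mono fun x hx => by simp only [hx])

lemma norm_res (hb : Bornology.IsBounded Ω) (u : Sm) : ‖res hb u‖ ^ 2 = mass Ω u.1 := by
  refine ofReal_injective ?_
  rw [mass, ← integral_complex_ofReal]
  simpa [inner_self_eq_norm_sq_to_K, Complex.conj_mul'] using inner_res_res hb u u

lemma energy_res (hb : Bornology.IsBounded Ω) (u : Sm) :
    ‖res hb (dd 0 u)‖ ^ 2 + ‖res hb (dd 1 u)‖ ^ 2 = energy Ω u.1 := by
  have c0 := Sm.cont (dd 0 u)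
  have c1 := Sm.cont (dd 1 u)
  rw [norm_res, norm_res, mass, mass, ← integral_add (intOn hb (by fun_prop))
    (intOn hb (by fun_prop)), energy]
  simp only [Fin.sum_univ_two]
  rfl

/-- Complex conjugation. -/
noncomputable def cj : Lp ℂ 2 (volume.restrict Ω) →ₗ⋆[ℂ] Lp ℂ 2 (volume.restrict Ω) where
  toFun f := star f
  map_add' f g := by
    refine Lp.ext ?_
    filter_upwards [Lp.coeFn_star (f + g), Lp.coeFn_add f g, Lp.coeFn_add (star f) (star g),
      Lp.coeFn_star f, Lp.coeFn_star g] with x h1 h2 h3 h4 h5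
    simp only [h1, h3, Pi.add_apply, Pi.star_apply, h2, h4, h5, star_add]
  map_smul' c f := by
    refine Lp.ext ?_
    filter_upwards [Lp.coeFn_star (c • f), Lp.coeFn_smul c f, Lp.coeFn_smul (conj c) (star f),
      Lp.coeFn_star f] with x h1 h2 h3 h4
    simp only [h1, h3, Pi.smul_apply, Pi.star_apply, h2, h4, smul_eq_mul, star_mul', RCLike.star_def]

lemma hasFDerivAt_wave (T : ℝ) (n : Fin 2 → ℤ) (x : E 2) :
    HasFDerivAt (wave T n) ((wave T n x * I) • ofRealCLM.comp
      ((2 * π * n 0 / T) • EuclideanSpace.proj 0 + (2 * π * n 1 / T) • EuclideanSpace.proj 1)) x := by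
  have := ((ofRealCLM.comp ((2 * π * n 0 / T) • EuclideanSpace.proj (0 : Fin 2) +
    (2 * π * n 1 / T) • EuclideanSpace.proj 1)).hasFDerivAt (x := x).const_mul I).cexp.const_mul
      (T : ℂ)⁻¹
  rw [smul_smul, smul_smul] at this
  exact this

/-- The exponentials as smooth functions. -/
noncomputable def wv (T : ℝ) (n : Fin 2 → ℤ) : Sm :=
  ⟨wave T n, show ContDiff ℝ ∞ (wave T n) from contDiff_const.mul (Complex.contDiff_exp.comp
    (contDiff_const.mul (ofRealCLM.contDiff.comp (f := fun x : E 2 =>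
      2 * π * n 0 / T * x 0 + 2 * π * n 1 / T * x 1) (by fun_prop))))⟩

/-- Coordinate functions. -/
noncomputable def co (T : ℝ) (j : Fin 2) : Sm :=
  ⟨fun x => (T : ℂ)⁻¹ * (x j : ℝ), show ContDiff ℝ ∞ _ from
    contDiff_const.mul (ofRealCLM.contDiff.comp (by fun_prop))⟩

lemma dd_co (T : ℝ) (i j : Fin 2) : dd i (co T j) = if i = j then wv T 0 else 0 := by
  ext x
  have := ((ofRealCLM.comp (EuclideanSpace.proj j)).hasFDerivAt (x := x).const_mul (T : ℂ)⁻¹).fderiv
  change fderiv ℝ (fun x : E 2 => (T : ℂ)⁻¹ * (x j : ℝ)) x _ = _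
  refine (congrArg (fun L : E 2 →L[ℝ] ℂ => L (EuclideanSpace.single i 1)) this).trans ?_
  split_ifs with h
  · simp [h, wv, wave]
  · simp [Ne.symm h]

/-- The concrete data. -/
noncomputable def data (hm : MeasurableSet Ω) (hb : Bornology.IsBounded Ω) {T : ℝ} (hT : 0 < T)
    (hΩ : ∀ x ∈ Ω, ∀ i, |x i| < T / 2) : Data (Lp ℂ 2 (volume.restrict Ω)) Sm (Fin 2 → ℤ) where
  B := res hb
  A₁ := res hb ∘ₗ dd 0
  A₂ := res hb ∘ₗ dd 1
  J := cj
  ε := wv T
  p n := 2 * π * n 0 / T
  q n := 2 * π * n 1 / T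
  x₁ := co T 0
  x₂ := co T 1
  frame f g := by
    simp only [inner_res, inner_eq f g]
    exact parseval hm hT hΩ (Lp.memLp f) (Lp.memLp g)
  J_inner f g := by
    rw [inner_eq, inner_eq, ← integral_conj]
    refine integral_congr_ae ?_
    filter_upwards [Lp.coeFn_star f, Lp.coeFn_star g] with x h1 h2
    change conj ((star f : Lp ℂ 2 _) x) * (star g : Lp ℂ 2 _) x = _
    simp [h1, h2]
  J_wave n := by
    refine Lp.ext ?_
    filter_upwards [Lp.coeFn_star (res hb (wv T n)), res_ae hb (wv T n), res_ae hb (wv T (-n))]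
      with x h1 h2 h3
    change (star (res hb (wv T n)) : Lp ℂ 2 _) x = _
    rw [h1, Pi.star_apply, h2, h3]
    simp only [wv, wave, RCLike.star_def, map_mul, map_inv₀, conj_ofReal, ← exp_conj, conj_I,
      Pi.neg_apply]
    congr 2
    push_cast
    ring
  A₁ε n := by
    rw [← map_smul, LinearMap.comp_apply]
    congr 1
    ext x
    change fderiv ℝ (wave T n) x _ = _ * wave T n x
    rw [(hasFDerivAt_wave T n x).fderiv]
    simp
    ring
  A₂ε n := by
    rw [← map_smul, LinearMap.comp_apply]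
    congr 1
    ext x
    change fderiv ℝ (wave T n) x _ = _ * wave T n x
    rw [(hasFDerivAt_wave T n x).fderiv]
    simp
    ring
  p_neg n := by simp [neg_div]
  q_neg n := by simp [neg_div]
  eq_zero n h0 h1 := by
    funext i
    fin_cases i
    · simpa [hT.ne', Real.pi_ne_zero] using h0
    · simpa [hT.ne', Real.pi_ne_zero] using h1
  x₁₁ := by simp [dd_co]
  x₂₁ := by simp [dd_co]
  x₁₂ := by simp [dd_co]
  x₂₂ := by simp [dd_co]

lemma ibp (hb : Bornology.IsBounded Ω) (j : Fin 2) (u φ : Sm) (hc : HasCompactSupport φ.1)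
    (hs : tsupport φ.1 ⊆ Ω) : ⟪res hb (dd j u), res hb φ⟫_ℂ = -⟪res hb u, res hb (dd j φ)⟫_ℂ := by
  set v := EuclideanSpace.single j (1 : ℝ) with hv
  have hd : ∀ x, HasFDerivAt (fun x => conj (u.1 x)) _ x := fun x =>
    conjCLE.toContinuousLinearMap.hasFDerivAt.comp x (Sm.diff u x).hasFDerivAt
  have e1 : ∀ x, fderiv ℝ (fun x => conj (u.1 x)) x v = conj ((dd j u).1 x) := fun x => by
    rw [(hd x).fderiv]; rfl
  have c1 := Sm.cont u
  have c2 := Sm.cont φ
  have c3 := Sm.cont (dd j u)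
  have c4 := Sm.cont (dd j φ)
  have := integral_mul_fderiv_eq_neg_fderiv_mul_of_integrable (μ := volume)
    (f := fun x => conj (u.1 x)) (g := φ.1) (v := v)
    (by simp only [e1]
        exact Continuous.integrable_of_hasCompactSupport (by fun_prop) hc.mul_left)
    (Continuous.integrable_of_hasCompactSupport ((continuous_conj.comp c1).mul c4)
      (hc.fderiv_apply ℝ v).mul_left)
    (Continuous.integrable_of_hasCompactSupport (by fun_prop) hc.mul_left)
    (fun x _ => (hd x).differentiableAt) (fun x _ => Sm.diff φ x)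
  rw [inner_res_res, inner_res_res, setIntegral_eq_integral_of_forall_compl_eq_zero fun z hz => by
      simp [image_eq_zero_of_notMem_tsupport fun h => hz (hs h)],
    setIntegral_eq_integral_of_forall_compl_eq_zero fun z hz => by
      have : (dd j φ).1 z = 0 := image_eq_zero_of_notMem_tsupport
        (f := fun x => fderiv ℝ φ.1 x v) fun h => hz (hs (tsupport_fderiv_apply_subset ℝ v h))
      simp [this]]
  simp only [e1] at this
  rw [← neg_eq_iff_eq_neg, ← this]
  rfl

theorem main (ho : IsOpen Ω) (hb : Bornology.IsBounded Ω) {k : ℕ} (hk : Odd k) :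
    neumannEig Ω (k + 2) ≤ dirichletEig Ω k := by
  obtain ⟨j, rfl⟩ := hk
  refine le_iInf fun L => le_iInf fun hk => le_iInf fun hL => ?_
  refine le_of_forall_gt_imp_ge_of_dense fun t ht => ?_
  rcases eq_or_ne t ⊤ with rfl | htop
  · exact le_top
  obtain ⟨R, hR0, hR⟩ := hb.exists_pos_norm_lt
  set D := data ho.measurableSet hb (T := 2 * R) (by positivity) fun x hx i =>
    ((PiLp.norm_apply_le x i).trans_lt (hR x hx)).trans_eq (by ring) with hD
  have hle : L ≤ Sm := fun u hu => (hL u hu).1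
  have hinj : ∀ φ ∈ L.comap Sm.subtype, res hb φ = 0 → φ = 0 := fun φ hφ h0 => by
    have h1 := res_ae hb φ
    rw [h0] at h1
    have h2 := Measure.eqOn_open_of_ae_eq ((Lp.coeFn_zero ℂ 2 _).symm.trans h1) ho
      continuousOn_const (Sm.cont φ).continuousOn
    ext x
    by_cases hx : x ∈ Ω
    · exact (h2 hx).symm
    · exact image_eq_zero_of_notMem_tsupport fun h => hx ((hL _ hφ).2.2 h)
  have hrank : finrank ℂ (L.comap Sm.subtype) = 2 * j + 1 :=
    (Submodule.comapSubtypeEquivOfLe hle).finrank_eq.trans hk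
  have hlt : (rayleighSup Ω L).toReal < t.toReal := ENNReal.toReal_strict_mono htop ht
  obtain ⟨Φ, hΦ⟩ := D.main_abs (L.comap Sm.subtype) hrank hinj
    (fun u φ h => ibp hb 0 u φ (hL _ h).2.1 (hL _ h).2.2)
    (fun u φ h => ibp hb 1 u φ (hL _ h).2.1 (hL _ h).2.2) ENNReal.toReal_nonneg
    (fun φ h => by
      change ‖res hb (dd 0 φ)‖ ^ 2 + ‖res hb (dd 1 φ)‖ ^ 2 ≤ _ * ‖res hb φ‖ ^ 2
      by_cases h0 : φ = 0
      · simp [h0]
      have h1 : 0 < ‖res hb φ‖ ^ 2 := pow_pos (norm_pos_iff.mpr fun h1 => h0 (hinj φ h h1)) 2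
      rw [← div_le_iff₀ h1, energy_res, norm_res,
        ← ENNReal.ofReal_le_iff_le_toReal (ht.trans_le le_top).ne]
      exact le_iSup_of_le φ.1 (le_iSup_of_le h (le_iSup_of_le
        (fun h2 => h0 (Subtype.ext h2)) le_rfl))) hlt
  have e0 : D.e 0 ≠ 0 := fun h0 => by
    obtain ⟨φ, hφ, h1⟩ := Submodule.exists_mem_ne_zero_of_ne_bot (p := L.comap Sm.subtype) (by
      intro h; rw [h] at hrank; simp at hrank)
    obtain ⟨x, hx⟩ := Function.ne_iff.mp fun h2 => h1 (Subtype.ext h2)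
    have h1 := res_ae hb (wv (2 * R) 0)
    rw [show res hb (wv (2 * R) 0) = 0 from h0] at h1
    have := Measure.eqOn_open_of_ae_eq ((Lp.coeFn_zero ℂ 2 _).symm.trans h1) ho
      continuousOn_const (Sm.cont _).continuousOn ((hL _ hφ).2.2 (subset_tsupport _ hx))
    simp [wv, wave, hR0.ne'] at this
  set Ψ : (Fin (2 * j + 2) → ℂ) × ℂ →ₗ[ℂ] Sm :=
    Φ ∘ₗ LinearMap.fst ℂ _ _ + (LinearMap.snd ℂ _ _).smulRight (D.ε 0) with hΨ
  have key : ∀ y ≠ 0, res hb (Ψ y) ≠ 0 ∧ energy Ω (Ψ y).1 ≤ t.toReal * mass Ω (Ψ y).1 := by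
    rintro ⟨z, a⟩ hy
    rw [← energy_res hb, ← norm_res hb]
    change D.B _ ≠ 0 ∧ ‖D.A₁ _‖ ^ 2 + ‖D.A₂ _‖ ^ 2 ≤ _ * ‖D.B _‖ ^ 2
    simp only [hΨ, LinearMap.add_apply, LinearMap.comp_apply, LinearMap.fst_apply,
      LinearMap.smulRight_apply, LinearMap.snd_apply, map_add, map_smul, D.A₁ε, D.A₂ε, D.p_zero,
      D.q_zero, ofReal_zero, mul_zero, zero_smul, smul_zero, add_zero]
    by_cases hz : z = 0
    · have ha : a ≠ 0 := fun h => hy (by simp [hz, h])
      simp only [hz, map_zero, zero_add, norm_zero]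
      exact ⟨smul_ne_zero ha e0, by rw [zero_pow two_ne_zero, add_zero]; positivity⟩
    · exact hΦ z hz a
  have hker : Function.Injective (Sm.subtype ∘ₗ Ψ) := by
    rw [injective_iff_map_eq_zero]
    intro y hy
    by_contra h
    exact (key y h).1 (by rw [show Ψ y = 0 from Subtype.ext hy, map_zero])
  refine iInf_le_of_le (Sm.subtype ∘ₗ Ψ).range (iInf_le_of_le ?_ (iInf_le_of_le ?_ ?_))
  · rw [LinearMap.finrank_range_of_inj hker]
    simp
  · rintro _ ⟨y, rfl⟩
    refine ⟨(Ψ y).2, fun h => ?_⟩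
    by_cases hy : y = 0
    · simp [hy]
    refine absurd (Lp.ext ?_) (key y hy).1
    filter_upwards [res_ae hb (Ψ y), Lp.coeFn_zero ℂ 2 (volume.restrict Ω),
      ae_restrict_mem ho.measurableSet] with x h1 h2 h3
    rw [h1, h2]
    exact h x h3
  · refine iSup_le fun u => iSup_le ?_
    rintro ⟨y, rfl⟩
    refine iSup_le fun h0 => ?_
    have hy : y ≠ 0 := fun h => h0 (by simp [h])
    have h1 : 0 < mass Ω (Ψ y).1 := by
      rw [← norm_res hb]
      exact pow_pos (norm_pos_iff.mpr (key y hy).1) 2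
    exact ENNReal.ofReal_le_of_le_toReal ((div_le_iff₀ h1).mpr (key y hy).2)

end Pool.Agent.P.MP_f791b6_an.Odd
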