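import Pool.Agent.P.MP_f791b6_an.P2Side
import Pool.Agent.Lib.Sob.Moll

/-! Square integrable fields orthogonal to all gradients: stream functions of mollifications. -/

open MeasureTheory Set Metric Filter Topology
open scoped Real ContDiff

namespace Pool.Agent.P.MP_f791b6_an.Two

open Pool.Agent.Lib.Sob Complex

lemma inner_eq (a b : ℂ) : inner ℝ a b = a.re * b.re + a.im * b.im := by
  simp [Complex.inner]; ring

lemma fderiv_eq_inner (u : ℂ → ℝ) (z v : ℂ) : fderiv ℝ u z v = inner ℝ v (gr u z) := by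
  rw [fderiv_eq_gr, inner_eq]

lemma clm_cx (L : ℂ →L[ℝ] ℂ) (v : ℂ) : L v = v.re * L 1 + v.im * L I := by
  have := Pool.Agent.Lib.Mergelyan.clm_apply_eq L v.re v.im
  rwa [re_add_im] at this

/-- A smooth compactly supported divergence free field has a compactly supported stream
function. -/
lemma exists_stream {S : ℂ → ℂ} (h : ContDiff ℝ 1 S) (hc : HasCompactSupport S)
    (hdiv : ∀ z, (fderiv ℝ S z 1).re + (fderiv ℝ S z I).im = 0) :
    ∃ ψ : ℂ → ℝ, ContDiff ℝ 1 ψ ∧ HasCompactSupport ψ ∧ ∀ z, gr ψ z = I * S z := by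
  set L : ℂ →L[ℝ] ℂ →L[ℝ] ℝ := (innerSL ℝ).comp (ContinuousLinearMap.mul ℝ ℂ I) with hL
  have hLa : ∀ a b : ℂ, L a b = -a.im * b.re + a.re * b.im := by
    intro a b
    simp only [hL, ContinuousLinearMap.comp_apply, ContinuousLinearMap.mul_apply', innerSL_apply_apply,
      inner_eq]
    simp
  have hd : ∀ z, HasFDerivAt (fun z => L (S z)) (L.comp (fderiv ℝ S z)) z := fun z =>
    L.hasFDerivAt.comp z (h.differentiable one_ne_zero z).hasFDerivAt
  obtain ⟨f, hf⟩ := (convex_univ (𝕜 := ℝ) (E := ℂ)).exists_forall_hasFDerivAt_of_fderiv_symmetric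
    isOpen_univ (show DifferentiableOn ℝ (fun z => L (S z)) univ from
      fun z _ => (hd z).differentiableAt.differentiableWithinAt)
    (fun z _ x y => by
      rw [(hd z).fderiv]
      simp only [ContinuousLinearMap.comp_apply, hLa]
      rw [clm_cx _ x, clm_cx _ y]
      simp only [add_im, mul_im, ofReal_re, ofReal_im, zero_mul, add_zero, add_re, mul_re, sub_zero]
      linear_combination (x.re * y.im - x.im * y.re) * hdiv z)
  have hf' : ∀ z, HasFDerivAt f (L (S z)) z := fun z => hf z trivial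
  obtain ⟨r, hr0, hr⟩ := hc.isCompact.isBounded.subset_closedBall_lt 0 0
  have hU : IsPreconnected (closedBall (0 : ℂ) r)ᶜ := by
    have : (closedBall (0 : ℂ) r)ᶜ = cexp '' {w | Real.log r < w.re} := by
      ext z
      simp only [mem_compl_iff, mem_closedBall_zero_iff, not_le, mem_image, mem_ofPred_eq]
      constructor
      · intro hz
        refine ⟨log z, ?_, exp_log (norm_pos_iff.mp (hr0.trans hz))⟩
        rw [log_re]; exact Real.log_lt_log hr0 hz
      · rintro ⟨w, hw, rfl⟩
        rw [norm_exp]; exact (Real.log_lt_iff_lt_exp hr0).mp hw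
    rw [this]
    exact (convex_halfSpace_re_gt _).isPreconnected.image _ continuous_exp.continuousOn
  obtain ⟨a, ha⟩ := isClosed_closedBall.isOpen_compl.exists_is_const_of_fderiv_eq_zero (𝕜 := ℝ) hU
    (fun z _ => (hf' z).differentiableAt.differentiableWithinAt) (fun z hz => by
      rw [(hf' z).fderiv, image_eq_zero_of_notMem_tsupport fun h => hz (hr h)]; simp)
  have hg : ∀ z, HasFDerivAt (fun z => f z - a) (L (S z)) z := fun z => (hf' z).sub_const a
  refine ⟨fun z => f z - a, ?_, ?_, fun z => ?_⟩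
  · rw [contDiff_one_iff_fderiv]
    refine ⟨fun z => (hg z).differentiableAt, ?_⟩
    rw [show fderiv ℝ (fun z => f z - a) = fun z => L (S z) from funext fun z => (hg z).fderiv]
    exact L.continuous.comp h.continuous
  · exact HasCompactSupport.intro (isCompact_closedBall 0 r) fun z hz => by rw [ha z hz, sub_self]
  · apply Complex.ext <;> simp [gr, (hg z).fderiv, hLa]

lemma div_moll {T : ℂ → ℂ} (hT : Integrable T)
    (horth : ∀ u : ℂ → ℝ, ContDiff ℝ ∞ u → ∫ z, inner ℝ (gr u z) (T z) = 0) (k : ℕ) (x : ℂ) :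
    (fderiv ℝ (moll k T) x 1).re + (fderiv ℝ (moll k T) x I).im = 0 := by
  set ρ := (bump ℂ k).normed volume
  have sρ : ContDiff ℝ ∞ ρ := (bump ℂ k).contDiff_normed
  have cρ : HasCompactSupport ρ := (bump ℂ k).hasCompactSupport_normed
  have lu := hT.locallyIntegrable
  have h1 := (cρ.hasFDerivAt_convolution_left (ContinuousLinearMap.lsmul ℝ ℝ)
    (sρ.of_le (by simp)) lu x).fderiv
  have i1 := ((cρ.fderiv ℝ).convolutionExists_left
    ((ContinuousLinearMap.lsmul ℝ ℝ : ℝ →L[ℝ] ℂ →L[ℝ] ℂ).precompL ℂ)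
    (sρ.continuous_fderiv (by simp)) lu x).integrable_swap
  unfold moll
  rw [h1, convolution_eq_swap, ContinuousLinearMap.integral_apply i1,
    ContinuousLinearMap.integral_apply i1]
  have j1 := i1.apply_continuousLinearMap 1
  have j2 := i1.apply_continuousLinearMap I
  have e1 := integral_re j1
  have e2 := integral_im j2
  have e3 := integral_add j1.re j2.im
  simp only [RCLike.re_to_complex, RCLike.im_to_complex] at e1 e2 e3
  rw [← e1, ← e2, ← e3]
  have key := horth (fun t => ρ (x - t)) (sρ.comp (contDiff_const.sub contDiff_id))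
  have hd : ∀ t e, fderiv ℝ (fun t => ρ (x - t)) t e = -fderiv ℝ ρ (x - t) e := by
    intro t e
    have := ((sρ.differentiable (by simp) (x - t)).hasFDerivAt.comp t
      ((hasFDerivAt_id t).const_sub x)).fderiv
    rw [show (fun t => ρ (x - t)) = ρ ∘ HSub.hSub x from rfl, this]
    simp
  rw [← neg_eq_zero, ← integral_neg, ← key]
  refine integral_congr_ae (ae_of_all _ fun t => ?_)
  simp only [inner_eq, gr_re, gr_im, hd]
  simp
  ring

lemma integral_norm_sq {α : Type*} [MeasurableSpace α] {μ : Measure α} {f : α → ℂ}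
    (hf : AEStronglyMeasurable f μ) : ∫ x, ‖f x‖ ^ 2 ∂μ = (∫⁻ x, ‖f x‖ₑ ^ 2 ∂μ).toReal := by
  rw [integral_eq_lintegral_of_nonneg_ae (ae_of_all _ fun x => sq_nonneg _) (hf.norm.pow 2)]
  simp only [ENNReal.ofReal_pow (norm_nonneg _), ofReal_norm]

theorem divfree {Ω : Set ℂ} (hm : MeasurableSet Ω) (hb : Bornology.IsBounded Ω) {R : ℂ → ℂ}
    (hR : MemLp R 2 (volume.restrict Ω))
    (horth : ∀ u : ℂ → ℝ, ContDiff ℝ ∞ u → ∫ z in Ω, inner ℝ (gr u z) (R z) = 0)
    {φ : ℂ → ℝ} (hφ : ContDiff ℝ ∞ φ) (hc : HasCompactSupport φ) (hs : tsupport φ ⊆ Ω) (v : ℂ) :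
    ∫ z in Ω, φ z * inner ℝ v (R z) ≤ √(∫ z in Ω, fderiv ℝ φ z (I * v) ^ 2) *
      (√(volume.real Ω / (8 * π)) * √(∫ z in Ω, ‖R z‖ ^ 2)) := by
  have hf : volume Ω ≠ ⊤ := hb.measure_lt_top.ne
  have hfin : IsFiniteMeasure (volume.restrict Ω) := isFiniteMeasure_restrict.mpr hf
  set T := Ω.indicator R with hT
  have T2 : MemLp T (2 : ℕ) volume := (memLp_indicator_iff_restrict hm).mpr hR
  have T1 : Integrable T := (integrable_indicator_iff hm).mpr (hR.integrable one_le_two)
  have horth' : ∀ u : ℂ → ℝ, ContDiff ℝ ∞ u → ∫ z, inner ℝ (gr u z) (T z) = 0 := by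
    intro u hu
    rw [← horth u hu, ← integral_indicator hm]
    refine integral_congr_ae (ae_of_all _ fun z => ?_)
    by_cases hz : z ∈ Ω <;> simp [hT, hz]
  have hφ1 : ContDiff ℝ 1 φ := hφ.of_le (by simp)
  have hφd := hφ1.differentiable one_ne_zero
  have cφ := hφ.continuous
  set g : ℂ → ℝ := fun z => fderiv ℝ φ z (I * v) with hg
  have cg : Continuous g := (hφ1.continuous_fderiv one_ne_zero).clm_apply continuous_const
  have sg : HasCompactSupport g := hc.fderiv_apply ℝ _
  have out : ∀ z, z ∉ Ω → φ z = 0 ∧ g z = 0 := fun z hz =>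
    ⟨image_eq_zero_of_notMem_tsupport fun h => hz (hs h),
      image_eq_zero_of_notMem_tsupport fun h => hz (hs (tsupport_fderiv_apply_subset ℝ _ h))⟩
  have g0 : ∫ z in Ω, -g z = 0 := by
    rw [integral_neg, setIntegral_eq_integral_of_forall_compl_eq_zero fun z hz => (out z hz).2,
      neg_eq_zero]
    have := integral_mul_fderiv_eq_neg_fderiv_mul_of_integrable (μ := volume) (f := fun _ => (1 : ℝ))
      (g := φ) (v := I * v) (by simp) (by simpa using cg.integrable_of_hasCompactSupport sg)
      (by simpa using cφ.integrable_of_hasCompactSupport hc) (by fun_prop) (fun z _ => hφd z)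
    simpa using this
  obtain ⟨C, hC⟩ := cφ.bounded_above_of_compact_support hc
  set G := √(∫ z in Ω, g z ^ 2) with hG
  have key : ∀ k, ∫ z in Ω, φ z * inner ℝ v (R z) ≤
      G * (√(volume.real Ω / (8 * π)) * √(∫ z in Ω, ‖R z‖ ^ 2)) +
        (G + C * ‖v‖) * ∫ z, ‖moll k T z - T z‖ := by
    intro k
    have sS : ContDiff ℝ 1 (moll k T) := (contDiff_moll k T1.locallyIntegrable).of_le (by simp)
    have cS := sS.continuous
    have kS : HasCompactSupport (moll k T) :=
      HasCompactSupport.intro (K := cthickening (1 / ((k : ℝ) + 1)) Ω)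
        (isCompact_of_isClosed_isBounded isClosed_cthickening hb.cthickening)
        fun z hz => moll_eq_zero (fun x hx => indicator_of_notMem hx _) hz
    have iS := cS.integrable_of_hasCompactSupport (μ := volume) kS
    obtain ⟨ψ, h1, h2, h3⟩ := exists_stream sS kS (div_moll T1 horth' k)
    have cψ := h1.continuous
    have hn : ∀ z, ‖gr ψ z‖ = ‖moll k T z‖ := fun z => by rw [h3, norm_mul, norm_I, one_mul]
    have fl := float hm hf h1 h2 cg.neg sg.neg g0
    simp only [hn, Pi.neg_apply, neg_sq] at fl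
    have hD : ∀ z, fderiv ℝ ψ z (I * v) = inner ℝ v (moll k T z) := fun z => by
      rw [fderiv_eq_gr, h3, inner_eq]; simp; ring
    have i1 : Integrable fun z => φ z * inner ℝ v (moll k T z) :=
      (cφ.mul (continuous_const.inner cS)).integrable_of_hasCompactSupport hc.mul_right
    have e1 : ∫ z in Ω, -g z * ψ z = ∫ z, φ z * inner ℝ v (moll k T z) := by
      rw [setIntegral_eq_integral_of_forall_compl_eq_zero fun z hz => by simp [(out z hz).2]]
      have := integral_mul_fderiv_eq_neg_fderiv_mul_of_integrable (μ := volume) (f := φ)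
        (g := ψ) (v := I * v) ((cg.mul cψ).integrable_of_hasCompactSupport sg.mul_right)
        (by simpa only [hD] using i1) ((cφ.mul cψ).integrable_of_hasCompactSupport hc.mul_right)
        (fun z _ => hφd z) (fun z _ => h1.differentiable one_ne_zero z)
      simp only [hD] at this
      rw [this, ← integral_neg]
      simp [hg]
    have e2 : ∫ z in Ω, ‖moll k T z‖ ^ 2 ≤ ∫ z in Ω, ‖R z‖ ^ 2 := by
      refine (setIntegral_le_integral (int_sq cS.norm kS.norm)
        (ae_of_all _ fun _ => sq_nonneg _)).trans ?_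
      have : ∫ z in Ω, ‖R z‖ ^ 2 = ∫ z, ‖T z‖ ^ 2 := by
        rw [← integral_indicator hm]
        refine integral_congr_ae (ae_of_all _ fun z => ?_)
        by_cases hz : z ∈ Ω <;> simp [hT, hz]
      rw [this, integral_norm_sq cS.aestronglyMeasurable, integral_norm_sq T1.1]
      exact ENNReal.toReal_mono (lintegral_pow_lt_top one_le_two T2).ne
        (lintegral_moll_le one_le_two k T1.1)
    have e3 : ∫ z in Ωᶜ, ‖moll k T z‖ ≤ ∫ z, ‖moll k T z - T z‖ := by
      rw [setIntegral_congr_fun hm.compl (g := fun z => ‖moll k T z - T z‖) fun z hz => by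
        simp [hT, indicator_of_notMem hz]]
      exact setIntegral_le_integral (iS.sub T1).norm (ae_of_all _ fun _ => norm_nonneg _)
    have i2 : Integrable fun z => φ z * inner ℝ v (T z) :=
      (T1.const_inner v).bdd_mul cφ.aestronglyMeasurable (ae_of_all _ hC)
    have e4 : ∫ z in Ω, φ z * inner ℝ v (R z) ≤ (∫ z, φ z * inner ℝ v (moll k T z)) +
        C * ‖v‖ * ∫ z, ‖moll k T z - T z‖ := by
      have : ∫ z in Ω, φ z * inner ℝ v (R z) = ∫ z, φ z * inner ℝ v (T z) := by
        rw [← integral_indicator hm]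
        refine integral_congr_ae (ae_of_all _ fun z => ?_)
        by_cases hz : z ∈ Ω <;> simp [hT, hz]
      have i3 : Integrable fun z => C * ‖v‖ * ‖moll k T z - T z‖ := (iS.sub T1).norm.const_mul _
      rw [this, ← integral_const_mul, ← integral_add i1 i3]
      refine integral_mono i2 (i1.add i3) fun z => ?_
      have a1 := abs_real_inner_le_norm v (moll k T z - T z)
      have a2 : |φ z * inner ℝ v (moll k T z - T z)| ≤ C * (‖v‖ * ‖moll k T z - T z‖) := by
        rw [abs_mul]
        exact mul_le_mul (hC z) a1 (abs_nonneg _) ((norm_nonneg _).trans (hC z))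
      rw [inner_sub_right] at a2
      simp only
      linarith [(abs_le.mp a2).1]
    have G0 : 0 ≤ G := Real.sqrt_nonneg _
    have e5 := mul_le_mul_of_nonneg_left (add_le_add (mul_le_mul_of_nonneg_left
      (Real.sqrt_le_sqrt e2) (Real.sqrt_nonneg (volume.real Ω / (8 * π)))) e3) G0
    rw [e1, ← hG] at fl
    linarith
  have lim : Tendsto (fun k => ∫ z, ‖moll k T z - T z‖) atTop (𝓝 0) := by
    have h1 := tendsto_lintegral_moll (n := 1) le_rfl (g := T)
      (by simpa using memLp_one_iff_integrable.mpr T1)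
    have h2 := (ENNReal.tendsto_toReal ENNReal.zero_ne_top).comp h1
    refine h2.congr fun k => ?_
    rw [integral_norm_eq_lintegral_enorm (f := fun z => moll k T z - T z)
      ((contDiff_moll k T1.locallyIntegrable).continuous.aestronglyMeasurable.sub T1.1)]
    simp
  have := ge_of_tendsto' ((lim.const_mul (G + C * ‖v‖)).const_add _) key
  simpa using this

end Pool.Agent.P.MP_f791b6_an.Two
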