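import Pool.Agent.P.MP_f791b6_an.P2Hodge
import Pool.Agent.P.MP_260cc8_ag.Hairy

/-! Folded coordinate functions and a winding number argument. -/

open MeasureTheory Set Metric Filter Topology
open scoped Real ContDiff ComplexConjugate

namespace Pool.Agent.P.MP_f791b6_an.Two

open Complex

lemma winding (V : ℝ × ℝ → ℂ) (hV : Continuous V) (T : ℝ) (V₀ : ℂ)
    (hper : ∀ t, V (2 * π, t) = V (0, t)) (h1 : ∀ θ, V (θ, T) = V₀)
    (h2 : ∀ θ : ℝ, V (θ, -T) = -(cexp (θ * I)) ^ 2 * conj V₀) : ∃ p, V p = 0 := by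
  by_contra hne
  push Not at hne
  have hZ : ∀ x, (⟨V, hV⟩ : C(ℝ × ℝ, ℂ)) x ∈ ({0}ᶜ : Set ℂ) := hne
  obtain ⟨L, ⟨-, hL⟩, -⟩ := Complex.isCoveringMapOn_exp.existsUnique_continuousMap_lifts ⟨V, hV⟩
    (a₀ := (0, 0)) (e₀ := Complex.log (V (0, 0))) (Complex.exp_log (hne _)) hZ
  have hLZ : ∀ x, cexp (L x) = V x := fun x => congrFun hL x
  have hLc : Continuous L := L.continuous
  have a1 := MP_260cc8_ag.const_of_exp_const (fun t => L (2 * π, t) - L (0, t)) (by fun_prop) 1
    (fun t => by rw [Complex.exp_sub, hLZ, hLZ, hper, div_self (hne _)]) T (-T)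
  have a2 := MP_260cc8_ag.const_of_exp_const (fun θ => L (θ, T)) (by fun_prop) V₀
    (fun θ => by rw [hLZ, h1]) (2 * π) 0
  have a3 := MP_260cc8_ag.const_of_exp_const (fun θ : ℝ => L (θ, -T) - (θ * I + θ * I))
    (by fun_prop) (-conj V₀) (fun θ => by
      rw [Complex.exp_sub, hLZ, h2, Complex.exp_add]
      field_simp) (2 * π) 0
  have : (2 * π * I : ℂ) = 0 := by
    push_cast at a3
    linear_combination (a1 - a2 + a3) / -2
  exact Complex.two_pi_I_ne_zero this

/-- Profile of the smooth fold. -/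
noncomputable def sg (s : ℝ) : ℝ := 2 * s * Real.smoothTransition s

lemma contDiff_sg {n : ℕ∞} : ContDiff ℝ n sg :=
  (contDiff_const.mul contDiff_id).mul Real.smoothTransition.contDiff

lemma continuous_deriv_sg : Continuous (deriv sg) :=
  (contDiff_sg (n := 1)).continuous_deriv (by simp)

lemma sg_neg {s : ℝ} (h : s < 0) : sg s = 0 ∧ deriv sg s = 0 := by
  have : sg =ᶠ[𝓝 s] fun _ => 0 := by
    filter_upwards [gt_mem_nhds h] with x hx
    simp [sg, Real.smoothTransition.zero_of_nonpos hx.le]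
  exact ⟨this.self_of_nhds, by rw [this.deriv_eq, deriv_const]⟩

lemma sg_big {s : ℝ} (h : 1 < s) : sg s = 2 * s ∧ deriv sg s = 2 := by
  have : sg =ᶠ[𝓝 s] fun x => 2 * x := by
    filter_upwards [lt_mem_nhds h] with x hx
    simp [sg, Real.smoothTransition.one_of_one_le hx.le]
  exact ⟨this.self_of_nhds, by rw [this.deriv_eq]; simp⟩

/-- Rescaled signed distance to the folding line. -/
noncomputable def lv (e : ℂ) (t δ : ℝ) (z : ℂ) : ℝ := (inner ℝ e z - t) / δ

/-- The smooth fold. -/
noncomputable def fold (e : ℂ) (t δ : ℝ) (z : ℂ) : ℂ := z - (δ * sg (lv e t δ z)) • e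

lemma contDiff_fold (e : ℂ) (t δ : ℝ) : ContDiff ℝ ∞ (fold e t δ) :=
  contDiff_id.sub ((contDiff_const.mul (contDiff_sg.comp
    (((contDiff_const.inner ℝ contDiff_id).sub contDiff_const).div_const δ))).smul contDiff_const)

lemma fderiv_fold (e : ℂ) (t : ℝ) {δ : ℝ} (hδ : 0 < δ) (z w : ℂ) :
    fderiv ℝ (fold e t δ) z w = w - (deriv sg (lv e t δ z) * inner ℝ e w) • e := by
  have h1 : HasFDerivAt (lv e t δ) (δ⁻¹ • innerSL ℝ e) z := by
    have := ((innerSL ℝ e).hasFDerivAt (x := z)).sub_const t |>.mul_const δ⁻¹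
    exact this
  have h2 := ((contDiff_sg (n := 1)).differentiable (by simp) _).hasDerivAt.comp_hasFDerivAt z h1
  have h3 : HasFDerivAt (fold e t δ) _ z :=
    (hasFDerivAt_id z).sub ((h2.const_mul δ).smul_const e)
  rw [h3.fderiv]
  simp only [sub_apply, ContinuousLinearMap.id_apply, ContinuousLinearMap.smulRight_apply,
    smul_apply, innerSL_apply_apply, smul_eq_mul]
  congr 2
  field_simp

lemma fderiv_re {F : ℂ → ℂ} (hF : ContDiff ℝ ∞ F) (c : ℝ) (z w : ℂ) :
    fderiv ℝ (fun z => (F z).re - c) z w = (fderiv ℝ F z w).re := by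
  have h : HasFDerivAt (fun z => (F z).re - c) _ z :=
    (reCLM.hasFDerivAt.comp z (hF.differentiable (by simp) z).hasFDerivAt).sub_const c
  rw [h.fderiv]; rfl

lemma fderiv_im {F : ℂ → ℂ} (hF : ContDiff ℝ ∞ F) (c : ℝ) (z w : ℂ) :
    fderiv ℝ (fun z => (F z).im - c) z w = (fderiv ℝ F z w).im := by
  have h : HasFDerivAt (fun z => (F z).im - c) _ z :=
    (imCLM.hasFDerivAt.comp z (hF.differentiable (by simp) z).hasFDerivAt).sub_const c
  rw [h.fderiv]; rfl

lemma energy_fold {e : ℂ} (he : ‖e‖ = 1) (t : ℝ) {δ : ℝ} (hδ : 0 < δ) (m z : ℂ) :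
    ‖gr (fun z => (fold e t δ z).re - m.re) z‖ ^ 2 + ‖gr (fun z => (fold e t δ z).im - m.im) z‖ ^ 2
      = 2 - 2 * deriv sg (lv e t δ z) + deriv sg (lv e t δ z) ^ 2 := by
  have h1 : e.re ^ 2 + e.im ^ 2 = 1 := by
    have := Complex.sq_norm e
    rw [he, normSq_apply] at this; nlinarith
  simp only [Complex.sq_norm, normSq_apply, gr_re, gr_im, fderiv_re (contDiff_fold e t δ),
    fderiv_im (contDiff_fold e t δ), fderiv_fold e t hδ, inner_eq]
  simp
  set a := deriv sg (lv e t δ z)
  linear_combination (-2 * a + a ^ 2 * (e.re ^ 2 + e.im ^ 2 + 1)) * h1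

lemma integral_cap {ρ : ℝ} (hρ : 0 ≤ ρ) : ∫ w : ℂ, max (ρ - ‖w‖ ^ 2) 0 = π * ρ ^ 2 / 2 := by
  have h := integral_fun_norm_addHaar (volume : Measure ℂ) fun y => max (ρ - y ^ 2) 0
  have hs := Real.sq_sqrt hρ
  have hs0 := Real.sqrt_nonneg ρ
  have h1 : ∫ y in Ioi (0 : ℝ), y * max (ρ - y ^ 2) 0 = ρ ^ 2 / 4 := by
    rw [setIntegral_eq_of_subset_of_forall_sdiff_eq_zero (s := Ioc 0 √ρ) measurableSet_Ioi
      Ioc_subset_Ioi_self, setIntegral_congr_fun (g := fun y => ρ * y - y ^ 3) measurableSet_Ioc,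
      ← intervalIntegral.integral_of_le hs0, intervalIntegral.integral_sub
        ((by fun_prop : Continuous fun y : ℝ => ρ * y).intervalIntegrable _ _)
        ((by fun_prop : Continuous fun y : ℝ => y ^ 3).intervalIntegrable _ _),
      intervalIntegral.integral_const_mul, integral_id, integral_pow]
    · have : √ρ ^ (3 + 1) = ρ ^ 2 := by rw [show 3 + 1 = 2 * 2 from rfl, pow_mul, hs]
      rw [this, hs]; norm_num; ring
    · intro y hy
      simp only
      rw [max_eq_left (by nlinarith [hy.1, hy.2])]; ring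
    · rintro y ⟨h1, h2⟩
      have : √ρ < y := by
        by_contra h
        exact h2 ⟨h1, not_lt.mp h⟩
      rw [max_eq_right (by nlinarith), mul_zero]
  rw [h]
  simp only [Complex.finrank_real_complex, measureReal_def, Complex.volume_ball, smul_eq_mul]
  simp [h1]
  ring

lemma integrable_cap (ρ : ℝ) : Integrable fun w : ℂ => max (ρ - ‖w‖ ^ 2) 0 := by
  refine (by fun_prop : Continuous fun w : ℂ => max (ρ - ‖w‖ ^ 2) 0).integrable_of_hasCompactSupport
    (HasCompactSupport.intro (isCompact_closedBall 0 (|ρ| + 1)) fun w hw => max_eq_right ?_)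
  rw [mem_closedBall_zero_iff, not_le] at hw
  nlinarith [le_abs_self ρ, abs_nonneg ρ]

lemma strip_le {Ω : Set ℂ} {r : ℝ} (hr0 : 0 ≤ r) (hr : Ω ⊆ closedBall 0 r) (e : Circle) (t : ℝ)
    {δ : ℝ} (hδ : 0 < δ) : volume.real (Ω ∩ {z | lv e t δ z ∈ Icc 0 1}) ≤ 2 * r * δ := by
  have hp := volume_preserving_equiv_real_prod.comp (rotation e⁻¹).measurePreserving
  have h1 := hp.measure_preimage (s := Icc t (t + δ) ×ˢ Icc (-r) r)
    (measurableSet_Icc.prod measurableSet_Icc).nullMeasurableSet
  rw [Measure.volume_eq_prod, Measure.prod_prod, Real.volume_Icc, Real.volume_Icc,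
    ← ENNReal.ofReal_mul (by linarith)] at h1
  refine ENNReal.toReal_le_of_le_ofReal (by positivity) (le_trans (measure_mono ?_)
    (h1.trans (by congr 1; ring)).le)
  rintro z ⟨hz, h2, h3⟩
  have hz' : ‖z‖ ≤ r := mem_closedBall_zero_iff.mp (hr hz)
  have e1 : (rotation e⁻¹ z).re = inner ℝ (e : ℂ) z := by
    rw [rotation_apply, Circle.coe_inv_eq_conj, inner_eq]; simp
  have e2 : |(rotation e⁻¹ z).im| ≤ r :=
    (abs_im_le_norm _).trans (by rw [LinearIsometryEquiv.norm_map]; exact hz')
  rw [lv, le_div_iff₀ hδ] at h2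
  rw [lv, div_le_iff₀ hδ] at h3
  exact ⟨⟨by simp only [Function.comp, measurableEquivRealProd_apply, e1]; linarith,
    by simp only [Function.comp, measurableEquivRealProd_apply, e1]; linarith⟩, abs_le.mp e2⟩

/-- The quadratic form energy minus `l` times mass. -/
noncomputable def qq (Ω : Set ℂ) (l : ℝ) (u : ℂ → ℝ) : ℝ :=
  (∫ z in Ω, ‖gr u z‖ ^ 2) - l * ∫ z in Ω, u z ^ 2

lemma fold_neg {Ω : Set ℂ} (hb : Bornology.IsBounded Ω)
    (hA : 0 < volume.real Ω) {l : ℝ} (hl : 8 * π < l * volume.real Ω) :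
    ∃ δ, 0 < δ ∧ ∀ (e : Circle) (t : ℝ) (m : ℂ), qq Ω l (fun z => (fold e t δ z).re - m.re) +
      qq Ω l (fun z => (fold e t δ z).im - m.im) < 0 := by
  have hp := Real.pi_pos
  set A := volume.real Ω with hAdef
  have hl0 : 0 < l := by
    by_contra h
    nlinarith
  obtain ⟨r, hr0, hr⟩ := hb.subset_closedBall_lt 0 0
  obtain ⟨B, hB⟩ := (isCompact_Icc (a := (0 : ℝ)) (b := 1)).exists_bound_of_continuousOn
    continuous_deriv_sg.continuousOn
  have hB0 : 0 ≤ B := (norm_nonneg _).trans (hB 0 (by simp))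
  set ρ := A / (2 * π) with hρ
  have hρ0 : 0 < ρ := by positivity
  set C := 2 * B + B ^ 2 + l * ρ with hC
  have hC0 : 0 < C := by positivity
  set γ := l * (A ^ 2 / (4 * π)) - 2 * A with hγ
  have hγ0 : 0 < γ := by
    have : γ = A / (4 * π) * (l * A - 8 * π) := by rw [hγ]; field_simp; ring
    rw [this]; exact mul_pos (by positivity) (by linarith)
  refine ⟨γ / (4 * r * C), by positivity, fun e t m => ?_⟩
  set δ := γ / (4 * r * C) with hδ
  have hδ0 : 0 < δ := by positivity
  set S := {z | lv e t δ z ∈ Icc 0 1} with hS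
  have clv : Continuous (lv e t δ) := by unfold lv; fun_prop
  have mS : MeasurableSet S := clv.measurable measurableSet_Icc
  have hs := strip_le hr0.le hr e t hδ0
  have sF := contDiff_fold e t δ
  have cF := sF.continuous
  have s1 : ContDiff ℝ 1 fun z => (fold e t δ z).re - m.re :=
    (reCLM.contDiff.comp (sF.of_le (by simp))).sub contDiff_const
  have s2 : ContDiff ℝ 1 fun z => (fold e t δ z).im - m.im :=
    (imCLM.contDiff.comp (sF.of_le (by simp))).sub contDiff_const
  have g1 := continuous_gr s1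
  have g2 := continuous_gr s2
  set h : ℂ → ℝ := fun w => max (ρ - ‖w‖ ^ 2) 0 with hh
  set R := (ℝ ∙ (e : ℂ)).reflection with hR
  have ih := integrable_cap ρ
  have i1 : Integrable fun z => h (z - m) := ih.comp_sub_right m
  have i2 : Integrable fun z => h (R z - ((2 * t) • (e : ℂ) - m)) :=
    (R.measurePreserving.integrable_comp_emb R.toHomeomorph.measurableEmbedding).mpr
      (ih.comp_sub_right _)
  have j1 : ∫ z in Ω, h (z - m) ≤ π * ρ ^ 2 / 2 := by
    rw [← integral_cap hρ0.le, ← integral_sub_right_eq_self h m]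
    exact setIntegral_le_integral i1 (ae_of_all _ fun _ => le_max_right _ _)
  have j2 : ∫ z in Ω, h (R z - ((2 * t) • (e : ℂ) - m)) ≤ π * ρ ^ 2 / 2 := by
    rw [← integral_cap hρ0.le, ← integral_sub_right_eq_self h ((2 * t) • (e : ℂ) - m),
      ← integral_comp R]
    exact setIntegral_le_integral i2 (ae_of_all _ fun _ => le_max_right _ _)
  have i3 : Integrable (S.indicator fun _ => C) (volume.restrict Ω) :=
    (intOn hb continuous_const).indicator mS
  have k0 : ∀ {u : ℂ → ℝ}, Continuous u → Continuous (gr u) →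
      Integrable (fun z => ‖gr u z‖ ^ 2 - l * u z ^ 2) (volume.restrict Ω) := fun h1 h2 =>
    intOn hb (by fun_prop)
  have i4 : Integrable (fun _ : ℂ => 2 - l * ρ) (volume.restrict Ω) := intOn hb continuous_const
  have i5 : Integrable (fun z => 2 - l * ρ + l * h (z - m)) (volume.restrict Ω) :=
    i4.add (i1.restrict.const_mul l)
  have i6 : Integrable (fun z => 2 - l * ρ + l * h (z - m) +
      l * h (R z - ((2 * t) • (e : ℂ) - m))) (volume.restrict Ω) := i5.add (i2.restrict.const_mul l)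
  have key : ∫ z in Ω, (‖gr (fun z => (fold e t δ z).re - m.re) z‖ ^ 2 -
      l * ((fold e t δ z).re - m.re) ^ 2 + (‖gr (fun z => (fold e t δ z).im - m.im) z‖ ^ 2 -
      l * ((fold e t δ z).im - m.im) ^ 2)) ≤ ∫ z in Ω, ((2 - l * ρ) + l * h (z - m) +
        l * h (R z - ((2 * t) • (e : ℂ) - m)) + S.indicator (fun _ => C) z) := by
    refine integral_mono ((k0 s1.continuous g1).add (k0 s2.continuous g2)) (i6.add i3) fun z => ?_
    have e1 := energy_fold (Circle.norm_coe e) t hδ0 m z
    have e2 : ((fold e t δ z).re - m.re) ^ 2 + ((fold e t δ z).im - m.im) ^ 2 =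
        ‖fold e t δ z - m‖ ^ 2 := by
      rw [Complex.sq_norm, normSq_apply]; simp; ring
    have p1 : 0 ≤ l * h (z - m) := mul_nonneg hl0.le (le_max_right _ _)
    have p2 : 0 ≤ l * h (R z - ((2 * t) • (e : ℂ) - m)) := mul_nonneg hl0.le (le_max_right _ _)
    have p3 : ∀ w, l * (ρ - ‖w‖ ^ 2) ≤ l * h w := fun w =>
      mul_le_mul_of_nonneg_left (le_max_left _ _) hl0.le
    simp only
    by_cases hz : z ∈ S
    · rw [indicator_of_mem hz]
      have := abs_le.mp (hB _ hz)
      have := mul_nonneg hl0.le (sq_nonneg ‖fold e t δ z - m‖)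
      have : deriv sg (lv e t δ z) ^ 2 ≤ B ^ 2 := sq_le_sq' (by linarith) (by linarith)
      nlinarith
    · rw [indicator_of_notMem hz]
      rcases lt_or_ge (lv e t δ z) 0 with h0 | h0
      · have f1 : fold e t δ z = z := by simp [fold, (sg_neg h0).1]
        have := p3 (z - m)
        rw [(sg_neg h0).2] at e1
        rw [f1] at e2 ⊢
        nlinarith
      · have h1 : 1 < lv e t δ z := by
          by_contra h2
          exact hz ⟨h0, not_lt.mp h2⟩
        have f1 : ‖R z - ((2 * t) • (e : ℂ) - m)‖ = ‖fold e t δ z - m‖ := by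
          rw [← norm_neg, hR, Submodule.reflection_singleton_apply, fold, (sg_big h1).1, lv]
          congr 1
          simp only [Circle.norm_coe, real_smul]
          have : (δ : ℂ) ≠ 0 := by exact_mod_cast hδ0.ne'
          simp
          field_simp
          ring
        have := p3 (R z - ((2 * t) • (e : ℂ) - m))
        rw [(sg_big h1).2] at e1
        rw [f1] at this
        nlinarith
  have k1 : ∀ {u : ℂ → ℝ}, Continuous u → Continuous (gr u) →
      qq Ω l u = ∫ z in Ω, (‖gr u z‖ ^ 2 - l * u z ^ 2) := fun h1 h2 => by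
    rw [qq, integral_sub (intOn hb (by fun_prop)) (intOn hb (by fun_prop)), integral_const_mul]
  rw [k1 s1.continuous g1, k1 s2.continuous g2,
    ← integral_add (k0 s1.continuous g1) (k0 s2.continuous g2)]
  refine key.trans_lt ?_
  rw [integral_add i6 i3, integral_add i5 (i2.restrict.const_mul l),
    integral_add i4 (i1.restrict.const_mul l), integral_const_mul, integral_const_mul, setIntegral_indicator mS,
    setIntegral_const, setIntegral_const, smul_eq_mul, smul_eq_mul, ← hAdef]
  have q1 := mul_le_mul_of_nonneg_left j1 hl0.le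
  have q2 := mul_le_mul_of_nonneg_left j2 hl0.le
  have q3 := mul_le_mul_of_nonneg_right hs hC0.le
  have q4 : 2 * r * δ * C = γ / 2 := by rw [hδ]; field_simp; ring
  have q5 : A * (2 - l * ρ) + l * (π * ρ ^ 2) = -γ := by rw [hγ, hρ]; field_simp; ring
  linarith

lemma good_of {Ω : Set ℂ} (hb : Bornology.IsBounded Ω) {l : ℝ} (hl : 0 < l) {w f : ℂ → ℝ}
    (sw : ContDiff ℝ ∞ w) (sf : ContDiff ℝ ∞ f) (mw : ∫ z in Ω, w z = 0) (mf : ∫ z in Ω, f z = 0)
    (qw : qq Ω l w < 0) (qf : qq Ω l f < 0)
    (h0 : ∫ z in Ω, (fderiv ℝ f z (gr w z) - l * w z * f z) = 0) : Good Ω l := by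
  refine ⟨w, f, sw, sf, mw, mf, fun v hv => ?_⟩
  have cw := sw.continuous
  have cf := sf.continuous
  have gw := continuous_gr (sw.of_le (by simp) : ContDiff ℝ 1 w)
  have gf := continuous_gr (sf.of_le (by simp) : ContDiff ℝ 1 f)
  have k1 : ∀ {u : ℂ → ℝ}, Continuous u → Continuous (gr u) →
      qq Ω l u = ∫ z in Ω, (‖gr u z‖ ^ 2 - l * u z ^ 2) := fun h1 h2 => by
    rw [qq, integral_sub (intOn hb (by fun_prop)) (intOn hb (by fun_prop)), integral_const_mul]
  have su : ContDiff ℝ 1 (comb w f v) :=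
    ((contDiff_const.mul sw).add (contDiff_const.mul sf)).of_le (by simp)
  simp only [fderiv_eq_inner] at h0
  have e : qq Ω l (comb w f v) = v.re ^ 2 * qq Ω l w + v.im ^ 2 * qq Ω l f +
      2 * v.re * v.im * ∫ z in Ω, (inner ℝ (gr w z) (gr f z) - l * w z * f z) := by
    rw [k1 su.continuous (continuous_gr su), k1 cw gw, k1 cf gf, ← integral_const_mul,
      ← integral_const_mul, ← integral_const_mul,
      ← integral_add (intOn hb (by fun_prop)) (intOn hb (by fun_prop)),
      ← integral_add (intOn hb (by fun_prop)) (intOn hb (by fun_prop))]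
    refine integral_congr_ae (ae_of_all _ fun z => ?_)
    have : gr (comb w f v) z = v.re • gr w z + v.im • gr f z := gr_lin sw sf _ _ z
    simp only [this, comb, norm_add_sq_real, norm_smul, real_inner_smul_left, real_inner_smul_right,
      mul_pow, Real.norm_eq_abs, sq_abs]
    ring
  have hneg : qq Ω l (comb w f v) < 0 := by
    rw [e, h0, mul_zero, add_zero]
    by_cases h1 : v.re = 0
    · have h2 : v.im ≠ 0 := fun h2 => hv (Complex.ext h1 h2)
      rw [h1]
      nlinarith [mul_neg_of_pos_of_neg (sq_pos_of_ne_zero h2) qf]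
    · nlinarith [mul_neg_of_pos_of_neg (sq_pos_of_ne_zero h1) qw,
        mul_nonpos_of_nonneg_of_nonpos (sq_nonneg v.im) qf.le]
  rw [qq] at hneg
  have : 0 ≤ ∫ z in Ω, ‖gr (comb w f v) z‖ ^ 2 := integral_nonneg fun _ => sq_nonneg _
  refine ⟨?_, by linarith⟩
  by_contra h
  nlinarith

theorem fold_good {Ω : Set ℂ} (hb : Bornology.IsBounded Ω) (hA : 0 < volume.real Ω) {l : ℝ}
    (hl : 8 * π < l * volume.real Ω) : Good Ω l := by
  have hp := Real.pi_pos
  have hl0 : 0 < l := by
    by_contra h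
    nlinarith
  obtain ⟨δ, hδ, hneg⟩ := fold_neg hb hA hl
  have pick : ∀ (e : Circle) (t : ℝ), ∃ f : ℂ → ℝ, ContDiff ℝ ∞ f ∧ ∫ z in Ω, f z = 0 ∧
      qq Ω l f < 0 ∧ ∃ c, (f = fun z => (fold e t δ z).re - c) ∨
        f = fun z => (fold e t δ z).im - c := by
    intro e t
    have s1 : ContDiff ℝ ∞ fun z => (fold e t δ z).re :=
      reCLM.contDiff.comp (contDiff_fold e t δ)
    have s2 : ContDiff ℝ ∞ fun z => (fold e t δ z).im :=
      imCLM.contDiff.comp (contDiff_fold e t δ)
    have := hneg e t ⟨(∫ z in Ω, (fold e t δ z).re) / volume.real Ω,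
      (∫ z in Ω, (fold e t δ z).im) / volume.real Ω⟩
    dsimp only at this
    by_cases h : qq Ω l (fun z => (fold e t δ z).re -
      (∫ z in Ω, (fold e t δ z).re) / volume.real Ω) < 0
    · exact ⟨_, s1.sub contDiff_const, mean_zero hb hA s1.continuous, h, _, Or.inl rfl⟩
    · exact ⟨_, s2.sub contDiff_const, mean_zero hb hA s2.continuous, by linarith, _, Or.inr rfl⟩
  obtain ⟨w, sw, mw, qw, -⟩ := pick 1 0
  have cw := sw.continuous
  have gw := continuous_gr (sw.of_le (by simp) : ContDiff ℝ 1 w)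
  have c1 := continuous_deriv_sg
  have c2 := (contDiff_sg (n := 1)).continuous
  set X : ℝ × ℝ → ℂ → ℂ := fun p z =>
    (gr w z - (deriv sg (lv (cexp (p.1 * I)) p.2 δ z) * inner ℝ (cexp (p.1 * I)) (gr w z)) •
      cexp (p.1 * I)) - (l * w z) • fold (cexp (p.1 * I)) p.2 δ z with hX
  have cX : Continuous (Function.uncurry X) := by
    simp only [hX, fold, lv]
    unfold Function.uncurry
    fun_prop
  obtain ⟨r, hr0, hr⟩ := hb.subset_closedBall_lt 0 0
  have cV : Continuous fun p => ∫ z in Ω, X p z := by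
    have := continuous_parametric_integral_of_continuous (μ := volume.restrict Ω) cX
      (isCompact_closedBall 0 r)
    rwa [Measure.restrict_restrict measurableSet_closedBall, inter_eq_right.mpr hr] at this
  have hin : ∀ (θ : ℝ), ∀ᵐ z ∂volume.restrict Ω, |inner ℝ (cexp (θ * I)) z| ≤ r := by
    intro θ
    refine ae_mono (Measure.restrict_mono hr le_rfl) ((ae_restrict_iff' measurableSet_closedBall).mpr
      (ae_of_all _ fun z hz => ?_))
    refine (abs_real_inner_le_norm _ _).trans ?_
    rw [norm_exp_ofReal_mul_I, one_mul]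
    exact mem_closedBall_zero_iff.mp hz
  have iY : Integrable (fun z => gr w z - (l * w z) • z) (volume.restrict Ω) :=
    intOn hb (by fun_prop)
  obtain ⟨⟨θ, t⟩, h0⟩ := winding _ cV (r + δ + 1) (∫ z in Ω, (gr w z - (l * w z) • z))
    (fun t => by simp [hX]) (fun θ => by
      refine integral_congr_ae ?_
      filter_upwards [hin θ] with z hz
      have : lv (cexp (θ * I)) (r + δ + 1) δ z < 0 :=
        div_neg_of_neg_of_pos (by linarith [(abs_le.mp hz).2]) hδ
      simp [hX, fold, (sg_neg this).1, (sg_neg this).2]) (fun θ => by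
      set e := cexp (θ * I) with he
      have h1 : e.re ^ 2 + e.im ^ 2 = 1 := by
        have := Complex.sq_norm e
        rw [he, norm_exp_ofReal_mul_I, normSq_apply] at this; nlinarith
      have hR : ∀ x : ℂ, x - (2 * inner ℝ e x) • e = -e ^ 2 * conj x := by
        intro x
        apply Complex.ext <;> simp [sq]
        · linear_combination (-x.re) * h1
        · linear_combination (-x.im) * h1
      have iw : Integrable (fun z => w z • ((l * (2 * (r + δ + 1))) • e)) (volume.restrict Ω) :=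
        intOn hb (by fun_prop)
      have h2 : ∫ z in Ω, w z • ((l * (2 * (r + δ + 1))) • e) = 0 := by
        rw [integral_smul_const, mw, zero_smul]
      have iZ : Integrable (fun z => -e ^ 2 * conj (gr w z - (l * w z) • z)) (volume.restrict Ω) :=
        intOn hb (by fun_prop)
      rw [← integral_conj, ← integral_const_mul, ← add_zero (∫ z in Ω, -e ^ 2 * _), ← h2,
        ← integral_add iZ iw]
      refine integral_congr_ae ?_
      filter_upwards [hin θ] with z hz
      have : 1 < lv e (-(r + δ + 1)) δ z := by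
        rw [lv, lt_div_iff₀ hδ]; linarith [(abs_le.mp hz).1]
      simp only [hX, ← he, fold, (sg_big this).1, (sg_big this).2, ← hR]
      simp only [lv, inner_sub_right, real_inner_smul_right]
      simp only [real_smul]
      have : (δ : ℂ) ≠ 0 := by exact_mod_cast hδ.ne'
      push_cast
      field_simp
      ring)
  obtain ⟨f, sf, mf, qf, c, hf⟩ := pick (Circle.exp θ) t
  refine good_of hb hl0 sw sf mw mf qw qf ?_
  have iX : Integrable (X (θ, t)) (volume.restrict Ω) :=
    intOn hb (cX.comp (Continuous.prodMk_right (θ, t)))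
  have iw : Integrable (fun z => l * c * w z) (volume.restrict Ω) := intOn hb (by fun_prop)
  have h3 : ∫ z in Ω, l * c * w z = 0 := by rw [integral_const_mul, mw, mul_zero]
  rcases hf with rfl | rfl
  · have h4 := integral_re iX
    have h5 := integral_add iX.re iw
    simp only [RCLike.re_to_complex] at h4 h5
    rw [h4, h0, h3, zero_re, add_zero] at h5
    rw [← h5]
    refine integral_congr_ae (ae_of_all _ fun z => ?_)
    simp only [fderiv_re (contDiff_fold _ t δ), fderiv_fold _ t hδ, hX, Circle.coe_exp, sub_re,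
      smul_re, smul_eq_mul]
    ring
  · have h4 := integral_im iX
    have h5 := integral_add iX.im iw
    simp only [RCLike.im_to_complex] at h4 h5
    rw [h4, h0, h3, zero_im, add_zero] at h5
    rw [← h5]
    refine integral_congr_ae (ae_of_all _ fun z => ?_)
    simp only [fderiv_im (contDiff_fold _ t δ), fderiv_fold _ t hδ, hX, Circle.coe_exp, sub_im,
      smul_im, smul_eq_mul]
    ring

end Pool.Agent.P.MP_f791b6_an.Two
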