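import Pool.Agent.P.MP_f791b6_an.P2Div

/-! Helmholtz decomposition of the fields given by a test function times a constant vector. -/

open MeasureTheory Set Metric Filter Topology
open scoped Real ContDiff

namespace Pool.Agent.P.MP_f791b6_an.Two

open Complex

/-- Real linear combination of two functions, the coefficients being read off `v`. -/
def comb (u₁ u₂ : ℂ → ℝ) (v : ℂ) : ℂ → ℝ := fun z => v.re * u₁ z + v.im * u₂ z

/-- There is a plane of smooth mean zero functions with Rayleigh quotient at most `l`. -/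
def Good (Ω : Set ℂ) (l : ℝ) : Prop :=
  ∃ u₁ u₂ : ℂ → ℝ, ContDiff ℝ ∞ u₁ ∧ ContDiff ℝ ∞ u₂ ∧ ∫ z in Ω, u₁ z = 0 ∧ ∫ z in Ω, u₂ z = 0 ∧
    ∀ v : ℂ, v ≠ 0 → 0 < ∫ z in Ω, comb u₁ u₂ v z ^ 2 ∧
      ∫ z in Ω, ‖gr (comb u₁ u₂ v) z‖ ^ 2 ≤ l * ∫ z in Ω, comb u₁ u₂ v z ^ 2

lemma gr_lin {u₁ u₂ : ℂ → ℝ} (h₁ : ContDiff ℝ ∞ u₁) (h₂ : ContDiff ℝ ∞ u₂) (a b : ℝ) (z : ℂ) :
    gr (fun z => a * u₁ z + b * u₂ z) z = a • gr u₁ z + b • gr u₂ z := by
  have := ((h₁.differentiable (by simp) z).hasFDerivAt.const_mul a).add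
    ((h₂.differentiable (by simp) z).hasFDerivAt.const_mul b)
  have e : fderiv ℝ (fun z => a * u₁ z + b * u₂ z) z = _ := this.fderiv
  simp only [gr, e, add_apply, smul_apply, smul_eq_mul, real_smul]
  push_cast; ring

lemma gr_sub_const (u : ℂ → ℝ) (c : ℝ) : gr (fun z => u z - c) = gr u := by
  funext z; simp [gr, fderiv_sub_const]

lemma intOn {G : Type*} [NormedAddCommGroup G] {Ω : Set ℂ} (hb : Bornology.IsBounded Ω)
    {f : ℂ → G} (hf : Continuous f) : Integrable f (volume.restrict Ω) :=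
  (hf.continuousOn.integrableOn_compact hb.isCompact_closure).mono_set subset_closure

lemma memLp_cont {Ω : Set ℂ} (hb : Bornology.IsBounded Ω) {f : ℂ → ℂ} (hf : Continuous f) :
    MemLp f 2 (volume.restrict Ω) :=
  (memLp_two_iff_integrable_sq_norm hf.aestronglyMeasurable).mpr (intOn hb (by fun_prop))

lemma L2_norm_sq {μ : Measure ℂ} (f : Lp ℂ 2 μ) : ‖f‖ ^ 2 = ∫ z, ‖f z‖ ^ 2 ∂μ := by
  rw [← real_inner_self_eq_norm_sq, L2.inner_def]
  simp only [real_inner_self_eq_norm_sq]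

lemma mean_zero {Ω : Set ℂ} (hb : Bornology.IsBounded Ω) (hA : 0 < volume.real Ω) {u : ℂ → ℝ}
    (hu : Continuous u) : ∫ z in Ω, (u z - (∫ z in Ω, u z) / volume.real Ω) = 0 := by
  rw [integral_sub (intOn hb hu) (intOn hb continuous_const), setIntegral_const, smul_eq_mul]
  field_simp
  ring

lemma final_algebra {p r n s c d e κ l l' m δ : ℝ} (hn : 0 < n) (hm : 0 < m) (hl : 0 ≤ l)
    (hp : 0 ≤ p) (hr : 0 ≤ r) (hs : 0 ≤ s) (hc : 0 ≤ c) (hd : 0 ≤ d) (he : 0 ≤ e) (hκ : 0 ≤ κ)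
    (hθ : l * κ ^ 2 < 1) (hδ : 0 < δ) (hδ1 : δ < 1) (hl' : (1 + δ) ^ 2 * l ≤ (1 - δ) ^ 2 * l')
    (h1 : p ^ 2 + r ^ 2 = n ^ 2 * m) (h2 : r ^ 2 ≤ c * (κ * r)) (h3 : d ^ 2 + c ^ 2 ≤ n ^ 2 * (l * m))
    (h4 : p ^ 2 - δ * √((1 - l * κ ^ 2) * m) * n * p ≤ s * d)
    (h5 : e ≤ p + δ * √((1 - l * κ ^ 2) * m) * n) : 0 < s ^ 2 ∧ e ^ 2 ≤ l' * s ^ 2 := by
  set k := √((1 - l * κ ^ 2) * m) with hk
  have hk2 : k ^ 2 = (1 - l * κ ^ 2) * m := Real.sq_sqrt (by nlinarith)
  have hk0 : 0 < k := Real.sqrt_pos.mpr (by nlinarith)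
  have a1 : r ≤ c * κ := by
    by_contra h
    push Not at h
    have : 0 < r := (mul_nonneg hc hκ).trans_lt h
    nlinarith
  have a2 : r ^ 2 ≤ c ^ 2 * κ ^ 2 := by rw [← mul_pow]; gcongr
  have a3 : d ^ 2 ≤ l * p ^ 2 := by
    have := mul_le_mul_of_nonneg_left a2 hl
    have := mul_le_mul_of_nonneg_left hθ.le (sq_nonneg c)
    have : n ^ 2 * (l * m) = l * p ^ 2 + l * r ^ 2 := by rw [← mul_add, h1]; ring
    nlinarith
  have a4 : k * n ≤ p := by
    refine (abs_le_of_sq_le_sq' ?_ hp).2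
    have : c ^ 2 * κ ^ 2 ≤ n ^ 2 * (l * m) * κ ^ 2 :=
      mul_le_mul_of_nonneg_right (by nlinarith [sq_nonneg d]) (sq_nonneg κ)
    rw [mul_pow, hk2]
    nlinarith
  have hp0 : 0 < p := (mul_pos hk0 hn).trans_le a4
  have a5 : δ * k * n ≤ δ * p := by rw [mul_assoc]; gcongr
  have a6 : (1 - δ) * p ^ 2 ≤ s * d := by nlinarith
  have a7 : ((1 - δ) * p ^ 2) ^ 2 ≤ s ^ 2 * (l * p ^ 2) := by
    calc ((1 - δ) * p ^ 2) ^ 2 ≤ (s * d) ^ 2 := by gcongr
      _ = s ^ 2 * d ^ 2 := by ring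
      _ ≤ _ := by gcongr
  have a8 : (1 - δ) ^ 2 * p ^ 2 ≤ l * s ^ 2 := by
    refine le_of_mul_le_mul_right (a := p ^ 2) ?_ (by positivity)
    nlinarith
  have a9 : 0 < (1 - δ) ^ 2 := pow_pos (by linarith) 2
  constructor
  · by_contra h
    have : s ^ 2 = 0 := le_antisymm (not_lt.mp h) (sq_nonneg s)
    rw [this, mul_zero] at a8
    exact absurd a8 (not_le.mpr (by positivity))
  · have b1 : e ^ 2 ≤ ((1 + δ) * p) ^ 2 := by gcongr; linarith
    refine le_of_mul_le_mul_left (a := (1 - δ) ^ 2) ?_ a9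
    have b2 := mul_le_mul_of_nonneg_left b1 a9.le
    have b3 := mul_le_mul_of_nonneg_left a8 (sq_nonneg (1 + δ))
    have b4 := mul_le_mul_of_nonneg_right hl' (sq_nonneg s)
    nlinarith

theorem hodge {Ω : Set ℂ} (hm : MeasurableSet Ω) (hb : Bornology.IsBounded Ω)
    (hA : 0 < volume.real Ω) {φ : ℂ → ℝ} (hφ : ContDiff ℝ ∞ φ) (hc : HasCompactSupport φ)
    (hs : tsupport φ ⊆ Ω) (h0 : 0 < ∫ z in Ω, φ z ^ 2) {l l' : ℝ} (hl : 0 ≤ l)
    (hR : ∫ z in Ω, ‖gr φ z‖ ^ 2 ≤ l * ∫ z in Ω, φ z ^ 2) (hΛ : l * volume.real Ω < 8 * π)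
    (hl' : l < l') : Good Ω l' := by
  have hp := Real.pi_pos
  set μ := volume.restrict Ω with hμ
  set m := ∫ z, φ z ^ 2 ∂μ with hmdef
  set κ := √(volume.real Ω / (8 * π)) with hκ
  have hθ : l * κ ^ 2 < 1 := by
    rw [hκ, Real.sq_sqrt (by positivity), ← mul_div_assoc, div_lt_one (by positivity)]; exact hΛ
  set δ := (l' - l) / (2 * (l + l')) with hδ
  have hll : 0 < 2 * (l + l') := by linarith
  have hδ0 : 0 < δ := div_pos (by linarith) hll
  have hδ1 : δ < 1 := by rw [hδ, div_lt_one hll]; linarith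
  have hδ2 : (1 + δ) ^ 2 * l ≤ (1 - δ) ^ 2 * l' := by
    have : δ * (2 * (l + l')) = l' - l := div_mul_cancel₀ _ hll.ne'
    nlinarith [mul_nonneg (sq_nonneg δ) (sub_pos.mpr hl').le]
  set η := δ * √((1 - l * κ ^ 2) * m) / 2 with hη
  have hη0 : 0 < η := by
    have : 0 < √((1 - l * κ ^ 2) * m) := Real.sqrt_pos.mpr (mul_pos (by linarith) h0)
    positivity
  let G : Submodule ℝ (Lp ℂ 2 μ) :=
    { carrier := {f | ∃ u : ℂ → ℝ, ContDiff ℝ ∞ u ∧ f =ᵐ[μ] gr u}
      zero_mem' := ⟨fun _ => 0, contDiff_const, by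
        filter_upwards [Lp.coeFn_zero ℂ 2 μ] with z hz
        rw [hz]; simp [gr]⟩
      add_mem' := by
        rintro f g ⟨u, hu, hf⟩ ⟨w, hw, hg⟩
        refine ⟨fun z => 1 * u z + 1 * w z, by fun_prop, ?_⟩
        filter_upwards [Lp.coeFn_add f g, hf, hg] with z h1 h2 h3
        rw [gr_lin hu hw, h1, Pi.add_apply, h2, h3]; simp
      smul_mem' := by
        rintro a f ⟨u, hu, hf⟩
        refine ⟨fun z => a * u z + 0 * u z, by fun_prop, ?_⟩
        filter_upwards [Lp.coeFn_smul a f, hf] with z h1 h2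
        rw [gr_lin hu hu, h1, Pi.smul_apply, h2]; simp }
  have cφ := hφ.continuous
  have dec : ∀ j : ℂ, ∃ (F y R g : Lp ℂ 2 μ) (u : ℂ → ℝ), (F =ᵐ[μ] fun z => φ z • j) ∧
      F = y + R ∧ y ∈ G.topologicalClosure ∧ R ∈ G.topologicalClosureᗮ ∧ ContDiff ℝ ∞ u ∧
      ∫ z, u z ∂μ = 0 ∧ g =ᵐ[μ] gr u ∧ ‖y - g‖ ≤ η := by
    intro j
    have hF : MemLp (fun z => φ z • j) 2 μ := memLp_cont hb (by fun_prop)
    obtain ⟨y, hy, R, hR, e⟩ := G.topologicalClosure.exists_add_mem_mem_orthogonal (hF.toLp _)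
    obtain ⟨g, ⟨u, hu, hg⟩, hyg⟩ := Metric.mem_closure_iff.mp hy η hη0
    refine ⟨hF.toLp _, y, R, g, fun z => u z - (∫ z in Ω, u z) / volume.real Ω, hF.coeFn_toLp, e,
      hy, hR, hu.sub contDiff_const, mean_zero hb hA hu.continuous, ?_, ?_⟩
    · rwa [gr_sub_const]
    · rw [← dist_eq_norm]; exact hyg.le
  obtain ⟨F₁, y₁, R₁, g₁, u₁, a1, a2, a3, a4, a5, a6, a7, a8⟩ := dec 1
  obtain ⟨F₂, y₂, R₂, g₂, u₂, b1, b2, b3, b4, b5, b6, b7, b8⟩ := dec I
  refine ⟨u₁, u₂, a5, b5, a6, b6, fun v hv => ?_⟩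
  have lin : ∀ f₁ f₂ : Lp ℂ 2 μ, ∀ᵐ z ∂μ, (v.re • f₁ + v.im • f₂ : Lp ℂ 2 μ) z =
      v.re • f₁ z + v.im • f₂ z := by
    intro f₁ f₂
    filter_upwards [Lp.coeFn_add (v.re • f₁) (v.im • f₂), Lp.coeFn_smul v.re f₁,
      Lp.coeFn_smul v.im f₂] with z h1 h2 h3
    rw [h1, Pi.add_apply, h2, h3]; rfl
  set F := v.re • F₁ + v.im • F₂ with hF
  set y := v.re • y₁ + v.im • y₂ with hy
  set R := v.re • R₁ + v.im • R₂ with hRdef
  set g := v.re • g₁ + v.im • g₂ with hg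
  set u := comb u₁ u₂ v with hu
  have su : ContDiff ℝ ∞ u := by rw [hu]; unfold comb; fun_prop
  have cu := su.continuous
  have eF : F =ᵐ[μ] fun z => φ z • v := by
    filter_upwards [lin F₁ F₂, a1, b1] with z h1 h2 h3
    rw [h1, h2, h3]
    apply Complex.ext <;> simp [mul_comm]
  have eg : g =ᵐ[μ] gr u := by
    filter_upwards [lin g₁ g₂, a7, b7] with z h1 h2 h3
    rw [h1, h2, h3, ← gr_lin a5 b5]; rfl
  have e0 : F = y + R := by rw [hF, hy, hRdef, a2, b2, smul_add, smul_add]; abel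
  have my : y ∈ G.topologicalClosure :=
    add_mem (Submodule.smul_mem _ _ a3) (Submodule.smul_mem _ _ b3)
  have mR : R ∈ G.topologicalClosureᗮ :=
    add_mem (Submodule.smul_mem _ _ a4) (Submodule.smul_mem _ _ b4)
  have mg : g ∈ G.topologicalClosure := G.le_topologicalClosure ⟨u, su, eg⟩
  have yR : inner ℝ y R = 0 := mR y my
  have gR : inner ℝ g R = 0 := mR g mg
  have hyg : ‖y - g‖ ≤ δ * √((1 - l * κ ^ 2) * m) * ‖v‖ := by
    have : y - g = v.re • (y₁ - g₁) + v.im • (y₂ - g₂) := by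
      rw [hy, hg, smul_sub, smul_sub]; abel
    rw [this]
    refine (norm_add_le _ _).trans ?_
    rw [norm_smul, norm_smul, Real.norm_eq_abs, Real.norm_eq_abs]
    have c1 := mul_le_mul (abs_re_le_norm v) a8 (norm_nonneg _) (norm_nonneg _)
    have c2 := mul_le_mul (abs_im_le_norm v) b8 (norm_nonneg _) (norm_nonneg _)
    rw [hη] at c1 c2
    linarith
  have hφ1 : ContDiff ℝ 1 φ := hφ.of_le (by simp)
  have cD : ∀ w, Continuous fun z => fderiv ℝ φ z w := fun w =>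
    (hφ1.continuous_fderiv one_ne_zero).clm_apply continuous_const
  have nn : ∀ f : ℂ → ℝ, 0 ≤ ∫ z, f z ^ 2 ∂μ := fun f => integral_nonneg fun _ => sq_nonneg _
  have key := final_algebra (p := ‖y‖) (r := ‖R‖) (n := ‖v‖) (s := √(∫ z, u z ^ 2 ∂μ))
    (c := √(∫ z, fderiv ℝ φ z (I * v) ^ 2 ∂μ)) (d := √(∫ z, (-fderiv ℝ φ z v) ^ 2 ∂μ)) (e := ‖g‖)
    (norm_pos_iff.mpr hv) h0 hl (norm_nonneg _) (norm_nonneg _) (Real.sqrt_nonneg _)
    (Real.sqrt_nonneg _) (Real.sqrt_nonneg _) (norm_nonneg _) (Real.sqrt_nonneg _) hθ hδ0 hδ1 hδ2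
    ?_ ?_ ?_ ?_ ?_
  · rw [Real.sq_sqrt (nn _), L2_norm_sq g, integral_congr_ae (f := fun z => ‖g z‖ ^ 2)
      (g := fun z => ‖gr u z‖ ^ 2) (by filter_upwards [eg] with z hz; rw [hz])] at key
    exact key
  · have : ‖F‖ ^ 2 = ‖y‖ ^ 2 + ‖R‖ ^ 2 := by rw [e0, norm_add_sq_real, yR]; ring
    rw [← this, L2_norm_sq, hmdef, ← integral_const_mul]
    refine integral_congr_ae ?_
    filter_upwards [eF] with z hz
    rw [hz, norm_smul, mul_pow, Real.norm_eq_abs, sq_abs, mul_comm]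
  · have h1 := divfree hm hb (Lp.memLp R) (fun w hw => by
      have hw' : MemLp (gr w) 2 μ := memLp_cont hb (continuous_gr (hw.of_le (by simp)))
      have := mR (hw'.toLp _) (G.le_topologicalClosure ⟨w, hw, hw'.coeFn_toLp⟩)
      rw [L2.inner_def] at this
      rw [← this]
      refine integral_congr_ae ?_
      filter_upwards [hw'.coeFn_toLp] with z hz
      rw [hz]) hφ hc hs v
    rw [← L2_norm_sq, Real.sqrt_sq (norm_nonneg _)] at h1
    refine le_trans (le_of_eq ?_) h1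
    have : inner ℝ F R = ‖R‖ ^ 2 := by
      rw [e0, inner_add_left, yR, zero_add, real_inner_self_eq_norm_sq]
    rw [← this, L2.inner_def]
    refine integral_congr_ae ?_
    filter_upwards [eF] with z hz
    rw [hz, real_inner_smul_left]
  · rw [Real.sq_sqrt (nn _), Real.sq_sqrt (nn _),
      ← integral_add (intOn hb (by have := cD v; fun_prop))
        (intOn hb (by have := cD (I * v); fun_prop))]
    refine le_trans (le_of_eq ?_) (mul_le_mul_of_nonneg_left hR (sq_nonneg _))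
    rw [← integral_const_mul]
    refine integral_congr_ae (ae_of_all _ fun z => ?_)
    simp only [fderiv_eq_gr φ z, Complex.sq_norm, normSq_apply]
    simp
    ring
  · have c1 : inner ℝ g F = ‖y‖ ^ 2 - inner ℝ (y - g) y := by
      rw [e0, inner_add_right, gR, inner_sub_left, real_inner_self_eq_norm_sq]; ring
    have c2 := (real_inner_le_norm (y - g) y).trans
      (mul_le_mul_of_nonneg_right hyg (norm_nonneg y))
    have su1 : ContDiff ℝ 1 u := su.of_le (by simp)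
    have cDu : Continuous fun z => fderiv ℝ u z v :=
      (su1.continuous_fderiv one_ne_zero).clm_apply continuous_const
    have c3 : inner ℝ g F = ∫ z, u z * -fderiv ℝ φ z v ∂μ := by
      have d1 := integral_mul_fderiv_eq_neg_fderiv_mul_of_integrable (μ := volume) (f := φ)
        (g := u) (v := v)
        (((cD v).mul cu).integrable_of_hasCompactSupport (hc.fderiv_apply ℝ v).mul_right)
        ((cφ.mul cDu).integrable_of_hasCompactSupport hc.mul_right)
        ((cφ.mul cu).integrable_of_hasCompactSupport hc.mul_right)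
        (fun z _ => hφ1.differentiable one_ne_zero z) (fun z _ => su1.differentiable one_ne_zero z)
      rw [L2.inner_def, integral_congr_ae (g := fun z => φ z * fderiv ℝ u z v) (by
        filter_upwards [eF, eg] with z h1 h2
        rw [h1, h2, real_inner_smul_right, fderiv_eq_inner, real_inner_comm]), hμ,
        setIntegral_eq_integral_of_forall_compl_eq_zero fun z hz => by
          simp [image_eq_zero_of_notMem_tsupport fun h => hz (hs h)],
        setIntegral_eq_integral_of_forall_compl_eq_zero fun z hz => by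
          simp [image_eq_zero_of_notMem_tsupport
            fun h => hz (hs (tsupport_fderiv_apply_subset ℝ v h))], d1, ← integral_neg]
      refine integral_congr_ae (ae_of_all _ fun z => ?_)
      simp only
      ring
    have c4 := cs (μ := μ) (f := u) (g := fun z => -fderiv ℝ φ z v) (intOn hb (by fun_prop))
      (intOn hb (by have := cD v; fun_prop)) (intOn hb (by have := cD v; fun_prop))
    linarith
  · have := norm_sub_norm_le g y
    rw [norm_sub_rev] at this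
    linarith

end Pool.Agent.P.MP_f791b6_an.Two
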