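import Pool.Agent.P.MP_f791b6_an.P2Iso

/-! A Poincare type inequality for functions whose gradient lives essentially on a set of given
area: median splitting and the isoperimetric inequality. -/

open MeasureTheory Set Metric Filter Topology
open scoped Real

namespace Pool.Agent.P.MP_f791b6_an.Two

lemma cs {α : Type*} [MeasurableSpace α] {μ : Measure α} {f g : α → ℝ}
    (hf : Integrable (fun x => f x ^ 2) μ) (hg : Integrable (fun x => g x ^ 2) μ)
    (hfg : Integrable (fun x => f x * g x) μ) :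
    ∫ x, f x * g x ∂μ ≤ √(∫ x, f x ^ 2 ∂μ) * √(∫ x, g x ^ 2 ∂μ) := by
  have key : ∀ t : ℝ, 0 ≤ (∫ x, f x ^ 2 ∂μ) * (t * t) + (2 * ∫ x, f x * g x ∂μ) * t +
      ∫ x, g x ^ 2 ∂μ := by
    intro t
    have h1 : 0 ≤ ∫ x, (f x ^ 2 * (t * t) + 2 * (f x * g x) * t + g x ^ 2) ∂μ :=
      integral_nonneg fun x => by
        simp only [Pi.zero_apply]; nlinarith [sq_nonneg (f x * t + g x)]
    rwa [integral_add (by fun_prop) hg, integral_add (hf.mul_const _) (by fun_prop),
      integral_mul_const, integral_mul_const, integral_const_mul] at h1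
  have h := discrim_le_zero key
  rw [← Real.sqrt_mul (integral_nonneg fun x => sq_nonneg _)]
  refine Real.le_sqrt_of_sq_le ?_
  rw [discrim] at h
  nlinarith

lemma int_sq {g : ℂ → ℝ} (hg : Continuous g) (hc : HasCompactSupport g) :
    Integrable fun z => g z ^ 2 := by
  have h1 : Continuous fun z => g z ^ 2 := by fun_prop
  have h2 : HasCompactSupport fun z => g z ^ 2 := hc.comp_left (g := fun x : ℝ => x ^ 2) (by simp)
  exact h1.integrable_of_hasCompactSupport h2

lemma cs_one {g : ℂ → ℝ} (hg : Continuous g) (hc : HasCompactSupport g) {S : Set ℂ}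
    (hf : volume S ≠ ⊤) : ∫ z in S, |g z| ≤ √(∫ z in S, g z ^ 2) * √(volume.real S) := by
  have h2 := int_sq hg hc
  have h := cs (μ := volume.restrict S) (f := fun z => |g z|) (g := fun _ => 1)
    (by simpa using h2.restrict) (integrableOn_const hf)
    (by simpa using (hg.integrable_of_hasCompactSupport hc).abs.restrict)
  simpa using h

/-- A smooth step from `0` to `1` on the interval from `0` to `η`. -/
noncomputable def st (η s : ℝ) : ℝ := Real.smoothTransition (s / η)

lemma contDiff_st (η : ℝ) {n : ℕ∞} : ContDiff ℝ n (st η) :=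
  Real.smoothTransition.contDiff.comp (contDiff_id.div_const η)

lemma st_zero {η s : ℝ} (hη : 0 < η) (h : s ≤ 0) : st η s = 0 :=
  Real.smoothTransition.zero_of_nonpos (div_nonpos_of_nonpos_of_nonneg h hη.le)

lemma st_one {η s : ℝ} (hη : 0 < η) (h : η ≤ s) : st η s = 1 :=
  Real.smoothTransition.one_of_one_le ((one_le_div hη).mpr h)

lemma deriv_st_nonneg {η : ℝ} (hη : 0 < η) (s : ℝ) : 0 ≤ deriv (st η) s :=
  Monotone.deriv_nonneg fun _ _ h =>
    Real.smoothTransition.monotone (div_le_div_of_nonneg_right h hη.le)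

lemma hasDerivAt_st (η s : ℝ) : HasDerivAt (st η) (deriv (st η) s) s :=
  ((contDiff_st η (n := 1)).differentiable (by simp) s).hasDerivAt

lemma continuous_deriv_st (η : ℝ) : Continuous (deriv (st η)) :=
  (contDiff_st η (n := 1)).continuous_deriv (by simp)

lemma sqrt_le_of {m B : ℝ} (hB : 0 ≤ B) (h : m ≤ √m * B) : √m ≤ B := by
  by_contra hc
  push Not at hc
  have h0 : 0 < √m := hB.trans_lt hc
  have := Real.sq_sqrt (Real.sqrt_pos.mp h0).le
  nlinarith

variable {Ω : Set ℂ} {ψ : ℂ → ℝ}

lemma level (hm : MeasurableSet Ω) (hf : volume Ω ≠ ⊤) (h : ContDiff ℝ 1 ψ)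
    (hc : HasCompactSupport ψ) {c η t : ℝ} (hη : 0 < η)
    (hmed : 2 * volume.real (Ω ∩ {z | c < ψ z}) ≤ volume.real Ω) (hct : c ≤ t)
    (ht : t ∉ Ioo (-η) 0) :
    √(volume.real (Ω ∩ {z | t + η ≤ ψ z})) ≤
      (2 * √π)⁻¹ * ∫ z, deriv (st η) (ψ z - t) * ‖gr ψ z‖ := by
  have hψ := h.continuous
  set f : ℂ → ℝ := fun z => st η (ψ z - t) - st η (-t) with hfdef
  have h1 : ContDiff ℝ 1 f :=
    ((contDiff_st η (n := 1)).comp (h.sub contDiff_const)).sub contDiff_const
  have hc1 : HasCompactSupport f :=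
    hc.comp_left (g := fun s : ℝ => st η (s - t) - st η (-t)) (by simp)
  have hg : ∀ z, ‖gr f z‖ = deriv (st η) (ψ z - t) * ‖gr ψ z‖ := by
    intro z
    have : HasFDerivAt f (deriv (st η) (ψ z - t) • fderiv ℝ ψ z) z :=
      ((hasDerivAt_st η _).comp_hasFDerivAt z
        ((h.differentiable one_ne_zero z).hasFDerivAt.sub_const t)).sub_const _
    have e : gr f z = (deriv (st η) (ψ z - t) : ℝ) * gr ψ z := by
      simp only [gr, this.fderiv, smul_apply, smul_eq_mul]
      push_cast; ring
    rw [e, norm_mul, Complex.norm_real, Real.norm_eq_abs, abs_of_nonneg (deriv_st_nonneg hη _)]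
  have hB : 0 ≤ (2 * √π)⁻¹ * ∫ z, deriv (st η) (ψ z - t) * ‖gr ψ z‖ :=
    mul_nonneg (by positivity) (integral_nonneg fun z =>
      mul_nonneg (deriv_st_nonneg hη _) (norm_nonneg _))
  have fin : ∀ S : Set ℂ, volume (Ω ∩ S) ≠ ⊤ := fun S =>
    ne_top_of_le_ne_top hf (measure_mono inter_subset_left)
  have key : ∀ (S : Set ℂ) (a : ℝ), MeasurableSet S → |a| = 1 → (∀ z ∈ S, f z = a) →
      √(volume.real (Ω ∩ S)) ≤ (2 * √π)⁻¹ * ∫ z, deriv (st η) (ψ z - t) * ‖gr ψ z‖ := by
    intro S a hS ha hfa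
    have := iso h1 hc1 (fin S)
    rw [setIntegral_congr_fun (hm.inter hS) (g := fun _ => a) fun z hz => hfa z hz.2,
      setIntegral_const, smul_eq_mul, abs_mul, ha, mul_one, abs_of_nonneg measureReal_nonneg] at this
    simp only [hg] at this
    exact sqrt_le_of hB this
  by_cases h0 : 0 ≤ t
  · refine key _ 1 (measurableSet_le measurable_const hψ.measurable) abs_one fun z hz => ?_
    simp only [hfdef]
    rw [st_one hη (by have : t + η ≤ ψ z := hz; linarith), st_zero hη (by linarith), sub_zero]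
  · have h2 : t ≤ -η := by
      by_contra h3
      exact ht ⟨not_le.mp h3, not_le.mp h0⟩
    refine le_trans (Real.sqrt_le_sqrt ?_) (key {z | ψ z ≤ t} (-1)
      (measurableSet_le hψ.measurable measurable_const) (by simp) fun z hz => ?_)
    · have a1 : volume.real (Ω ∩ {z | t + η ≤ ψ z}) ≤ volume.real (Ω ∩ {z | c < ψ z}) :=
        measureReal_mono (inter_subset_inter_right _ fun z hz => by
          have : t + η ≤ ψ z := hz
          show c < ψ z
          linarith) (fin _)
      have a2 : volume.real Ω ≤ volume.real (Ω ∩ {z | c < ψ z}) +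
          volume.real (Ω ∩ {z | ψ z ≤ t}) := by
        refine le_trans (measureReal_mono ?_ ?_) (measureReal_union_le _ _)
        · intro z hz
          by_cases hz' : c < ψ z
          · exact Or.inl ⟨hz, hz'⟩
          · exact Or.inr ⟨hz, (not_lt.mp hz').trans hct⟩
        · exact (measure_union_lt_top (fin _).lt_top (fin _).lt_top).ne
      linarith
    · simp only [hfdef]
      rw [st_zero hη (by have : ψ z ≤ t := hz; linarith), st_one hη (by linarith), zero_sub]

lemma side (hm : MeasurableSet Ω) (hf : volume Ω ≠ ⊤) (h : ContDiff ℝ 1 ψ)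
    (hc : HasCompactSupport ψ) {g : ℂ → ℝ} (hg : Continuous g) (hgc : HasCompactSupport g)
    {c η : ℝ} (hη : 0 < η) (hmed : 2 * volume.real (Ω ∩ {z | c < ψ z}) ≤ volume.real Ω) :
    ∫ z in Ω, |g z| * max (ψ z - c) 0 ≤ √(∫ z in Ω ∩ {z | c < ψ z}, g z ^ 2) *
      ((2 * √π)⁻¹ * (∫ z in {z | c < ψ z}, ‖gr ψ z‖) + 2 * η * √(volume.real Ω)) := by
  have hψ := h.continuous
  have hgr := continuous_gr h
  have hb := continuous_deriv_st η
  set G := √(∫ z in Ω ∩ {z | c < ψ z}, g z ^ 2) with hG
  set K := (2 * √π)⁻¹ with hK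
  have hG0 : 0 ≤ G := Real.sqrt_nonneg _
  obtain ⟨M0, hM0⟩ := hψ.bounded_above_of_compact_support hc
  set M := max M0 c with hM
  have hcM : c ≤ M := le_max_right _ _
  have hψM : ∀ z, ψ z ≤ M := fun z => ((le_abs_self _).trans (hM0 z)).trans (le_max_left _ _)
  have fin : ∀ S : Set ℂ, volume (Ω ∩ S) ≠ ⊤ := fun S =>
    ne_top_of_le_ne_top hf (measure_mono inter_subset_left)
  have mc : MeasurableSet {z | c < ψ z} := measurableSet_lt measurable_const hψ.measurable
  have hfin : IsFiniteMeasure (volume.restrict Ω) := isFiniteMeasure_restrict.mpr hf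
  have ig : Integrable fun z => |g z| := (hg.integrable_of_hasCompactSupport hgc).abs
  have ig2 := int_sq hg hgc
  have igr : Integrable fun z => ‖gr ψ z‖ :=
    (hgr.integrable_of_hasCompactSupport (hasCompactSupport_gr hc)).norm
  have csS : ∀ S : Set ℂ, S ⊆ {z | c < ψ z} →
      ∫ z in Ω ∩ S, |g z| ≤ G * √(volume.real (Ω ∩ S)) := by
    intro S hS
    refine (cs_one hg hgc (fin S)).trans (mul_le_mul_of_nonneg_right (Real.sqrt_le_sqrt ?_)
      (Real.sqrt_nonneg _))
    exact setIntegral_mono_set ig2.integrableOn (ae_of_all _ fun z => sq_nonneg _)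
      (inter_subset_inter_right _ hS).eventuallyLE
  have sqA : ∀ S : Set ℂ, √(volume.real (Ω ∩ S)) ≤ √(volume.real Ω) := fun S =>
    Real.sqrt_le_sqrt (measureReal_mono inter_subset_left hf)
  set H : ℂ → ℝ → ℝ := fun z t => {p : ℂ × ℝ | p.2 + η ≤ ψ p.1}.indicator
    (fun p => |g p.1|) (z, t) with hH
  have mS : MeasurableSet {p : ℂ × ℝ | p.2 + η ≤ ψ p.1} :=
    measurableSet_le (by fun_prop) (by have := hψ.measurable; fun_prop)
  have iH : Integrable (Function.uncurry H) ((volume.restrict Ω).prod (volume.restrict (Ioc c M))) :=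
    (ig.integrableOn.comp_fst _).indicator mS
  have iP : Integrable (Function.uncurry fun z t => deriv (st η) (ψ z - t) * ‖gr ψ z‖)
      (volume.prod (volume.restrict (Ioc c M))) := by
    obtain ⟨B, hB⟩ := (isCompact_Icc (a := -M0 - M) (b := M0 - c)).exists_bound_of_continuousOn
      hb.continuousOn
    refine ((igr.const_mul B).comp_fst _).mono'
      (Continuous.aestronglyMeasurable (by unfold Function.uncurry; fun_prop)) ?_
    rw [← Measure.restrict_univ (μ := (volume : Measure ℂ)), Measure.prod_restrict]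
    refine (ae_restrict_iff' (MeasurableSet.univ.prod measurableSet_Ioc)).mpr (ae_of_all _ ?_)
    rintro ⟨z, t⟩ ⟨-, ht⟩
    simp only [Function.uncurry, norm_mul, norm_norm]
    have := abs_le.mp (hM0 z)
    exact mul_le_mul_of_nonneg_right (hB _ ⟨by linarith [ht.2], by linarith [ht.1]⟩) (norm_nonneg _)
  have iH1 : Integrable (fun z => ∫ t in Ioc c M, H z t) (volume.restrict Ω) :=
    iH.integral_prod_left
  have iH2 : Integrable (fun t => ∫ z in Ω, H z t) (volume.restrict (Ioc c M)) :=
    iH.integral_prod_right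
  have iP1 : Integrable (fun z => ∫ t in Ioc c M, deriv (st η) (ψ z - t) * ‖gr ψ z‖) :=
    iP.integral_prod_left
  have iP2 : Integrable (fun t => ∫ z, deriv (st η) (ψ z - t) * ‖gr ψ z‖)
      (volume.restrict (Ioc c M)) := iP.integral_prod_right
  have s1 : ∫ z in Ω, |g z| * max (ψ z - c) 0 ≤
      ∫ z in Ω, ({z | c < ψ z}.indicator (fun z => η * |g z|) z + ∫ t in Ioc c M, H z t) := by
    refine integral_mono ?_ (((ig.const_mul η).integrableOn.indicator mc).add
      iH1) fun z => ?_
    · exact ((hg.abs.mul (by fun_prop)).integrable_of_hasCompactSupport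
        (hgc.abs.mul_right)).integrableOn
    · have e : ∫ t in Ioc c M, H z t = max (ψ z - η - c) 0 * |g z| := by
        have : (fun t => H z t) = (Iic (ψ z - η)).indicator fun _ => |g z| := by
          funext t
          simp only [hH, indicator, mem_ofPred_eq, mem_Iic, le_sub_iff_add_le]
        rw [this, setIntegral_indicator measurableSet_Iic, setIntegral_const, Ioc_inter_Iic,
          inf_eq_right.mpr (by linarith [hψM z]), Real.volume_real_Ioc, smul_eq_mul]
      simp only [e]
      by_cases hz : c < ψ z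
      · rw [indicator_of_mem (show z ∈ {z | c < ψ z} from hz), max_eq_left (by linarith)]
        nlinarith [abs_nonneg (g z), le_max_left (ψ z - η - c) 0]
      · rw [indicator_of_notMem (show z ∉ {z | c < ψ z} from hz), max_eq_right (by linarith)]
        nlinarith [abs_nonneg (g z), le_max_right (ψ z - η - c) 0]
  rw [integral_add ((ig.const_mul η).integrableOn.indicator mc) iH1,
    setIntegral_indicator mc, integral_const_mul, integral_integral_swap iH] at s1
  have s2 : ∫ t in Ioc c M, ∫ z in Ω, H z t ≤ ∫ t in Ioc c M,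
      G * (K * (∫ z, deriv (st η) (ψ z - t) * ‖gr ψ z‖) +
        (Ioo (-η) 0).indicator (fun _ => √(volume.real Ω)) t) := by
    refine setIntegral_mono_on iH2 (((iP2.const_mul K).add
      ((integrable_const _).indicator measurableSet_Ioo)).const_mul G) measurableSet_Ioc
      fun t ht => ?_
    have e : ∫ z in Ω, H z t = ∫ z in Ω ∩ {z | t + η ≤ ψ z}, |g z| := by
      rw [← setIntegral_indicator (measurableSet_le measurable_const hψ.measurable)]
      rfl
    rw [e]
    refine (csS _ fun z hz => ?_).trans (mul_le_mul_of_nonneg_left ?_ hG0)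
    · have : t + η ≤ ψ z := hz
      show c < ψ z
      linarith [ht.1]
    · by_cases h0 : t ∈ Ioo (-η) 0
      · rw [indicator_of_mem h0]
        refine (sqA _).trans (le_add_of_nonneg_left (mul_nonneg (by positivity) ?_))
        exact integral_nonneg fun z => mul_nonneg (deriv_st_nonneg hη _) (norm_nonneg _)
      · rw [indicator_of_notMem h0, add_zero]
        exact level hm hf h hc hη hmed ht.1.le h0
  rw [integral_const_mul, integral_add (iP2.const_mul K)
    ((integrable_const _).indicator measurableSet_Ioo), integral_const_mul,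
    ← integral_integral_swap iP, setIntegral_indicator measurableSet_Ioo, setIntegral_const] at s2
  have s3 : ∫ z, ∫ t in Ioc c M, deriv (st η) (ψ z - t) * ‖gr ψ z‖ ≤
      ∫ z in {z | c < ψ z}, ‖gr ψ z‖ := by
    rw [← integral_indicator mc]
    refine integral_mono iP1 (igr.indicator mc) fun z => ?_
    have e : ∫ t in Ioc c M, deriv (st η) (ψ z - t) = st η (ψ z - c) - st η (ψ z - M) := by
      rw [← intervalIntegral.integral_of_le hcM,
        intervalIntegral.integral_eq_sub_of_hasDerivAt (f := fun t => -st η (ψ z - t))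
          (fun t _ => (((hasDerivAt_st η (ψ z - t)).comp t
            ((hasDerivAt_id t).const_sub _)).neg).congr_deriv (by simp))
          ((by fun_prop : Continuous fun t => deriv (st η) (ψ z - t)).intervalIntegrable _ _)]
      ring
    simp only [integral_mul_const, e]
    rw [st_zero hη (by linarith [hψM z] : ψ z - M ≤ 0), sub_zero]
    by_cases hz : c < ψ z
    · rw [indicator_of_mem (show z ∈ {z | c < ψ z} from hz)]
      exact mul_le_of_le_one_left (norm_nonneg _) (Real.smoothTransition.le_one _)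
    · rw [indicator_of_notMem (show z ∉ {z | c < ψ z} from hz), st_zero hη (by linarith), zero_mul]
  have s4 : volume.real (Ioc c M ∩ Ioo (-η) 0) ≤ η := by
    refine (measureReal_mono inter_subset_right (by simp)).trans ?_
    simp [hη.le]
  have s5 := (csS _ Subset.rfl).trans (mul_le_mul_of_nonneg_left (sqA _) hG0)
  have hK0 : 0 ≤ K := by positivity
  have s6 := mul_le_mul_of_nonneg_left s5 hη.le
  have s7 := mul_le_mul_of_nonneg_left (add_le_add (mul_le_mul_of_nonneg_left s3 hK0)
    (mul_le_mul_of_nonneg_right s4 (Real.sqrt_nonneg (volume.real Ω)))) hG0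
  rw [smul_eq_mul] at s2
  linarith

lemma exists_median (hf : volume Ω ≠ ⊤) (h : Continuous ψ)
    (hc : HasCompactSupport ψ) :
    ∃ c, 2 * volume.real (Ω ∩ {z | c < ψ z}) ≤ volume.real Ω ∧
      2 * volume.real (Ω ∩ {z | ψ z < c}) ≤ volume.real Ω := by
  rcases (measureReal_nonneg : 0 ≤ volume.real Ω).eq_or_lt with h0 | h0
  · have : ∀ S, volume.real (Ω ∩ S) ≤ 0 := fun S => h0 ▸ measureReal_mono inter_subset_left hf
    exact ⟨0, by linarith [this {z | 0 < ψ z}], by linarith [this {z | ψ z < 0}]⟩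
  obtain ⟨M, hM⟩ := h.bounded_above_of_compact_support hc
  have fin : ∀ S : Set ℂ, volume (Ω ∩ S) ≠ ⊤ := fun S =>
    ne_top_of_le_ne_top hf (measure_mono inter_subset_left)
  set T := {t : ℝ | 2 * volume.real (Ω ∩ {z | t < ψ z}) ≤ volume.real Ω} with hT
  have hne : T.Nonempty := by
    refine ⟨M, ?_⟩
    have : Ω ∩ {z | M < ψ z} = ∅ := by
      ext z; simpa using fun _ => (le_abs_self _).trans (hM z)
    simp [hT, this]
  have hbd : BddBelow T := by
    refine ⟨-M - 1, fun t ht => ?_⟩
    by_contra hlt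
    have : Ω ∩ {z | t < ψ z} = Ω := by
      refine inter_eq_left.mpr fun z _ => ?_
      have := (abs_le.mp (hM z)).1
      show t < ψ z
      linarith [not_le.mp hlt]
    have ht' : 2 * volume.real (Ω ∩ {z | t < ψ z}) ≤ volume.real Ω := ht
    rw [this] at ht'
    linarith
  have lim : ∀ S : ℕ → Set ℂ, Monotone S → (∀ n, 2 * volume.real (Ω ∩ S n) ≤ volume.real Ω) →
      2 * volume.real (Ω ∩ ⋃ n, S n) ≤ volume.real Ω := by
    intro S hS hb
    have h1 := tendsto_measure_iUnion_atTop (μ := volume) (s := fun n => Ω ∩ S n)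
      fun a b hab => inter_subset_inter_right _ (hS hab)
    rw [← inter_iUnion] at h1
    exact le_of_tendsto' (((ENNReal.tendsto_toReal (fin _)).comp h1).const_mul 2) hb
  have hinv : ∀ a b : ℕ, a ≤ b → 1 / ((b : ℝ) + 1) ≤ 1 / ((a : ℝ) + 1) := fun a b hab =>
    Nat.one_div_le_one_div hab
  refine ⟨sInf T, ?_, ?_⟩
  · have e : {z | sInf T < ψ z} = ⋃ n : ℕ, {z | sInf T + 1 / ((n : ℝ) + 1) < ψ z} := by
      ext z
      simp only [mem_ofPred_eq, mem_iUnion]
      constructor
      · intro hz
        obtain ⟨n, hn⟩ := exists_nat_one_div_lt (sub_pos.mpr hz)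
        exact ⟨n, by linarith⟩
      · rintro ⟨n, hn⟩
        linarith [Nat.one_div_pos_of_nat (α := ℝ) (n := n)]
    rw [e]
    refine lim _ (fun a b hab z hz => ?_) fun n => ?_
    · simp only [mem_ofPred_eq] at hz ⊢
      linarith [hinv a b hab]
    · obtain ⟨t, ht, ht'⟩ := exists_lt_of_csInf_lt hne
        (lt_add_of_pos_right (sInf T) (Nat.one_div_pos_of_nat (α := ℝ) (n := n)))
      refine le_trans ?_ ht
      gcongr
      exact fin _
  · have e : {z | ψ z < sInf T} = ⋃ n : ℕ, {z | ψ z ≤ sInf T - 1 / ((n : ℝ) + 1)} := by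
      ext z
      simp only [mem_ofPred_eq, mem_iUnion]
      constructor
      · intro hz
        obtain ⟨n, hn⟩ := exists_nat_one_div_lt (sub_pos.mpr hz)
        exact ⟨n, by linarith⟩
      · rintro ⟨n, hn⟩
        linarith [Nat.one_div_pos_of_nat (α := ℝ) (n := n)]
    rw [e]
    refine lim _ (fun a b hab z hz => ?_) fun n => ?_
    · simp only [mem_ofPred_eq] at hz ⊢
      linarith [hinv a b hab]
    · have h1 : sInf T - 1 / ((n : ℝ) + 1) ∉ T := fun ht => by
        linarith [csInf_le hbd ht, Nat.one_div_pos_of_nat (α := ℝ) (n := n)]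
      set t := sInf T - 1 / ((n : ℝ) + 1)
      have h2 : volume.real Ω < 2 * volume.real (Ω ∩ {z | t < ψ z}) := not_le.mp h1
      have h3 := measureReal_inter_add_sdiff (μ := volume) (s := Ω) (t := {z | t < ψ z})
        (measurableSet_lt measurable_const h.measurable) hf
      have h4 : Ω \ {z | t < ψ z} = Ω ∩ {z | ψ z ≤ t} := by
        ext z; simp
      rw [h4] at h3
      linarith

lemma gr_neg (ψ : ℂ → ℝ) (z : ℂ) : gr (fun z => -ψ z) z = -gr ψ z := by
  simp only [gr, fderiv_fun_neg, neg_apply]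
  push_cast; ring

/-- The floating Poincare inequality for a smooth function. -/
theorem float (hm : MeasurableSet Ω) (hf : volume Ω ≠ ⊤) (h : ContDiff ℝ 1 ψ)
    (hc : HasCompactSupport ψ) {g : ℂ → ℝ} (hg : Continuous g) (hgc : HasCompactSupport g)
    (h0 : ∫ z in Ω, g z = 0) :
    ∫ z in Ω, g z * ψ z ≤ √(∫ z in Ω, g z ^ 2) *
      (√(volume.real Ω / (8 * π)) * √(∫ z in Ω, ‖gr ψ z‖ ^ 2) + ∫ z in Ωᶜ, ‖gr ψ z‖) := by
  have hp := Real.pi_pos
  have hψ := h.continuous
  obtain ⟨c, c1, c2⟩ := exists_median hf hψ hc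
  have hgr : Continuous fun z => ‖gr ψ z‖ := (continuous_gr h).norm
  have hgrc : HasCompactSupport fun z => ‖gr ψ z‖ := (hasCompactSupport_gr hc).norm
  have igr : Integrable fun z => ‖gr ψ z‖ := hgr.integrable_of_hasCompactSupport hgrc
  have m1 : MeasurableSet {z | c < ψ z} := measurableSet_lt measurable_const hψ.measurable
  have m2 : MeasurableSet {z | ψ z < c} := measurableSet_lt hψ.measurable measurable_const
  have fin : ∀ S : Set ℂ, volume (Ω ∩ S) ≠ ⊤ := fun S =>
    ne_top_of_le_ne_top hf (measure_mono inter_subset_left)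
  have split : ∀ {F : ℂ → ℝ}, Integrable F → (∀ z, 0 ≤ F z) →
      (∫ z in Ω ∩ {z | c < ψ z}, F z) + ∫ z in Ω ∩ {z | ψ z < c}, F z ≤ ∫ z in Ω, F z := by
    intro F hF hF0
    rw [← setIntegral_union (disjoint_left.mpr fun z h1 h2 => lt_asymm (α := ℝ) h1.2 h2.2)
      (hm.inter m2) hF.integrableOn hF.integrableOn]
    exact setIntegral_mono_set hF.integrableOn (ae_of_all _ hF0)
      (union_subset inter_subset_left inter_subset_left).eventuallyLE
  set e := ∫ z in Ωᶜ, ‖gr ψ z‖ with he
  have he0 : 0 ≤ e := integral_nonneg fun _ => norm_nonneg _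
  set A := volume.real Ω with hA
  have hD : ∀ S : Set ℂ, MeasurableSet S → 2 * volume.real (Ω ∩ S) ≤ A →
      ∫ z in S, ‖gr ψ z‖ ≤ √(∫ z in Ω ∩ S, ‖gr ψ z‖ ^ 2) * √(A / 2) + e := by
    intro S hS hSA
    rw [← integral_inter_add_sdiff hm igr.integrableOn, inter_comm]
    refine add_le_add ?_ (setIntegral_mono_set igr.integrableOn (ae_of_all _ fun _ => norm_nonneg _)
      (LE.le.eventuallyLE (sdiff_subset_compl S Ω)))
    have := cs_one hgr hgrc (fin S)
    simp only [abs_norm] at this
    exact this.trans (mul_le_mul_of_nonneg_left (Real.sqrt_le_sqrt (by linarith))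
      (Real.sqrt_nonneg _))
  have e2 : {z | -c < -ψ z} = {z | ψ z < c} := by ext z; simp
  have g2 := split (int_sq hg hgc) fun z => sq_nonneg _
  have n2 := split (int_sq hgr hgrc) fun z => sq_nonneg _
  have d1 := hD _ m1 c1
  have d2 := hD _ m2 c2
  have i1 : Integrable fun z => |g z| * max (ψ z - c) 0 :=
    (hg.abs.mul (by fun_prop)).integrable_of_hasCompactSupport hgc.abs.mul_right
  have i2 : Integrable fun z => |g z| * max (-ψ z - -c) 0 :=
    (hg.abs.mul (by fun_prop)).integrable_of_hasCompactSupport hgc.abs.mul_right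
  have i3 : Integrable fun z => g z * ψ z :=
    (hg.mul hψ).integrable_of_hasCompactSupport hgc.mul_right
  have i4 : Integrable g := hg.integrable_of_hasCompactSupport hgc
  have s0 : ∫ z in Ω, g z * ψ z ≤ (∫ z in Ω, |g z| * max (ψ z - c) 0) +
      ∫ z in Ω, |g z| * max (-ψ z - -c) 0 := by
    have : ∫ z in Ω, g z * ψ z = ∫ z in Ω, (g z * ψ z - c * g z) := by
      rw [integral_sub i3.restrict (i4.restrict.const_mul c), integral_const_mul, h0]; ring
    rw [this, ← integral_add i1.restrict i2.restrict]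
    refine integral_mono (i3.restrict.sub (i4.restrict.const_mul c)) (i1.restrict.add i2.restrict)
      fun z => ?_
    simp only
    rcases le_total (ψ z) c with hz | hz
    · rw [max_eq_right (by linarith), max_eq_left (by linarith)]
      nlinarith [neg_abs_le (g z)]
    · rw [max_eq_left (by linarith), max_eq_right (by linarith)]
      nlinarith [le_abs_self (g z)]
  have nn : ∀ (S : Set ℂ) (F : ℂ → ℝ), 0 ≤ ∫ z in S, F z ^ 2 := fun S F =>
    integral_nonneg fun _ => sq_nonneg _
  set G := √(∫ z in Ω, g z ^ 2) with hG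
  set N := √(∫ z in Ω, ‖gr ψ z‖ ^ 2) with hN
  set G1 := √(∫ z in Ω ∩ {z | c < ψ z}, g z ^ 2) with hG1
  set G2 := √(∫ z in Ω ∩ {z | ψ z < c}, g z ^ 2) with hG2
  set N1 := √(∫ z in Ω ∩ {z | c < ψ z}, ‖gr ψ z‖ ^ 2) with hN1
  set N2 := √(∫ z in Ω ∩ {z | ψ z < c}, ‖gr ψ z‖ ^ 2) with hN2
  have hGG : G1 ^ 2 + G2 ^ 2 ≤ G ^ 2 := by
    rwa [Real.sq_sqrt (nn _ _), Real.sq_sqrt (nn _ _), Real.sq_sqrt (nn _ _)]
  have hNN : N1 ^ 2 + N2 ^ 2 ≤ N ^ 2 := by
    rwa [Real.sq_sqrt (nn _ _), Real.sq_sqrt (nn _ _), Real.sq_sqrt (nn _ _)]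
  have G0 : 0 ≤ G := Real.sqrt_nonneg _
  have G10 : 0 ≤ G1 := Real.sqrt_nonneg _
  have G20 : 0 ≤ G2 := Real.sqrt_nonneg _
  have N0 : 0 ≤ N := Real.sqrt_nonneg _
  have hG1G : G1 ≤ G := by nlinarith
  have hG2G : G2 ≤ G := by nlinarith
  have hcs : G1 * N1 + G2 * N2 ≤ G * N := by
    refine abs_le_of_sq_le_sq' ?_ (mul_nonneg G0 N0) |>.2
    nlinarith [sq_nonneg (G1 * N2 - G2 * N1), mul_le_mul hGG hNN (by positivity) (by positivity)]
  set K := (2 * √π)⁻¹ with hK
  have hK0 : 0 ≤ K := by positivity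
  have hK1 : 2 * K ≤ 1 := by
    have : 1 ≤ √π := Real.one_le_sqrt.mpr (by linarith [Real.pi_gt_three])
    rw [hK, mul_inv, ← mul_assoc, mul_inv_cancel₀ two_ne_zero, one_mul]
    exact inv_le_one_of_one_le₀ this
  have hKA : K * √(A / 2) = √(A / (8 * π)) := by
    have h4 : √(A / (8 * π)) = √(A / 2) / √(2 ^ 2 * π) := by
      rw [← Real.sqrt_div' _ (by positivity)]; congr 1; field_simp; ring
    rw [h4, Real.sqrt_mul (by positivity), Real.sqrt_sq (by norm_num), hK]
    field_simp
  refine le_of_forall_pos_le_add fun ε hε => ?_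
  have sA : 0 ≤ √A := Real.sqrt_nonneg _
  set η := ε / (4 * (G * √A) + 1) with hη
  have hη0 : 0 < η := by positivity
  have hηε : η * (4 * (G * √A) + 1) = ε := by rw [hη]; field_simp
  have t1 := side hm hf h hc hg hgc hη0 c1
  have t2 := side hm hf h.neg hc.neg hg hgc (c := -c) hη0 (by rw [e2]; exact c2)
  simp only [gr_neg, norm_neg, e2] at t2
  rw [← hG1, ← hK, ← hA] at t1
  rw [← hG2, ← hK, ← hA] at t2
  have u1 := mul_le_mul_of_nonneg_left (mul_le_mul_of_nonneg_left d1 hK0) G10
  have u2 := mul_le_mul_of_nonneg_left (mul_le_mul_of_nonneg_left d2 hK0) G20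
  have u3 := mul_le_mul_of_nonneg_left hcs (mul_nonneg hK0 (Real.sqrt_nonneg (A / 2)))
  have u4 := mul_le_mul_of_nonneg_right (add_le_add hG1G hG2G) (mul_nonneg hK0 he0)
  have u5 := mul_le_mul_of_nonneg_right (add_le_add hG1G hG2G) (mul_nonneg hη0.le sA)
  have u6 := mul_le_mul_of_nonneg_right hK1 (mul_nonneg G0 he0)
  rw [← hKA]
  nlinarith

end Pool.Agent.P.MP_f791b6_an.Two
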