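import Pool.Agent.P.MP_f791b6_an.Gauss

namespace Pool.Agent.P.MP_f791b6_an

open MeasureTheory Complex
open scoped ComplexConjugate Real FourierTransform RealInnerProductSpace ContDiff SchwartzMap

variable {n : ℕ}

/-- Coordinate derivative. -/
noncomputable def pd (j : Fin n) (u : E n → ℂ) (x : E n) : ℂ :=
  fderiv ℝ u x (EuclideanSpace.single j (1 : ℝ))

/-- Smooth functions with compact support. -/
structure Test (u : E n → ℂ) : Prop where
  smooth : ContDiff ℝ ∞ u
  cpt : HasCompactSupport u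

lemma contDiff_pd {u : E n → ℂ} (hu : ContDiff ℝ ∞ u) (j : Fin n) : ContDiff ℝ ∞ (pd j u) := by
  unfold pd
  exact (hu.fderiv_right (m := ∞) (by simp)).clm_apply contDiff_const

lemma Test.pd {u : E n → ℂ} (hu : Test u) (j : Fin n) : Test (pd j u) :=
  ⟨contDiff_pd hu.smooth j, hu.cpt.fderiv_apply (𝕜 := ℝ) _⟩

lemma Test.integrable {u : E n → ℂ} (hu : Test u) : Integrable u :=
  hu.smooth.continuous.integrable_of_hasCompactSupport hu.cpt

lemma Test.integrable_mul {u v : E n → ℂ} (hu : Test u) (hv : Continuous v) :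
    Integrable (fun x => v x * u x) :=
  (hv.mul hu.smooth.continuous).integrable_of_hasCompactSupport hu.cpt.mul_left

lemma Test.integrable_sq {u : E n → ℂ} (hu : Test u) : Integrable (fun x => ‖u x‖ ^ 2) := by
  have := (hu.integrable_mul hu.smooth.continuous).norm
  simpa [sq] using this

lemma Test.ft_pd {u : E n → ℂ} (hu : Test u) (j : Fin n) (ξ : E n) :
    ft (Pool.Agent.P.MP_f791b6_an.pd j u) ξ = 2 * π * I * ξ j * ft u ξ := by
  have h1 := congrArg (fun f : 𝓢(E n, ℂ) => f ξ) (SchwartzMap.fourier_lineDerivOp_eq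
    (hu.cpt.toSchwartzMap hu.smooth) (EuclideanSpace.single j (1 : ℝ)))
  have h2 : (fun x : E n => inner ℝ x (EuclideanSpace.single j (1 : ℝ))).HasTemperateGrowth :=
    ((innerSL ℝ).flip _).hasTemperateGrowth
  simp only [smul_apply, SchwartzMap.smulLeftCLM_apply_apply h2,
    SchwartzMap.fourier_coe] at h1
  rw [ft_eq, ft_eq]
  have h3 : (⇑(LineDeriv.lineDerivOp (EuclideanSpace.single j (1 : ℝ))
      (hu.cpt.toSchwartzMap hu.smooth)) : E n → ℂ) = Pool.Agent.P.MP_f791b6_an.pd j u := by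
    ext x; rfl
  rw [h3] at h1
  rw [h1]
  simp only [EuclideanSpace.inner_single_right, smul_eq_mul, real_smul, conj_trivial, one_mul]
  rw [← mul_assoc]; rfl

lemma Test.plancherel {u : E n → ℂ} (hu : Test u) :
    Integrable (fun ξ => ‖ft u ξ‖ ^ 2) ∧ ∫ ξ, ‖ft u ξ‖ ^ 2 = ∫ x, ‖u x‖ ^ 2 := by
  set f := hu.cpt.toSchwartzMap hu.smooth with hf
  have h1 : ft u = ⇑(𝓕 f : 𝓢(E n, ℂ)) := by rw [ft_eq, SchwartzMap.fourier_coe]; rfl
  rw [h1]
  refine ⟨?_, SchwartzMap.integral_norm_sq_fourier f⟩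
  exact ((𝓕 f : 𝓢(E n, ℂ)).memLp 2 volume).integrable_norm_pow (by norm_num)

lemma Test.plancherel_grad {u : E n → ℂ} (hu : Test u) :
    Integrable (fun ξ => ‖ξ‖ ^ 2 * ‖ft u ξ‖ ^ 2) ∧
      4 * π ^ 2 * ∫ ξ, ‖ξ‖ ^ 2 * ‖ft u ξ‖ ^ 2 =
        ∫ x, ∑ j, ‖Pool.Agent.P.MP_f791b6_an.pd j u x‖ ^ 2 := by
  have h1 : ∀ ξ : E n, 4 * π ^ 2 * (‖ξ‖ ^ 2 * ‖ft u ξ‖ ^ 2) =
      ∑ j, ‖ft (Pool.Agent.P.MP_f791b6_an.pd j u) ξ‖ ^ 2 := by
    intro ξ
    simp only [hu.ft_pd, norm_mul, mul_pow, Complex.norm_I, Complex.norm_real,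
      Complex.norm_ofNat, Real.norm_eq_abs, sq_abs]
    rw [EuclideanSpace.norm_sq_eq, Finset.sum_mul, Finset.mul_sum]
    refine Finset.sum_congr rfl fun j _ => ?_
    rw [Real.norm_eq_abs, sq_abs]; ring
  have h2 : Integrable (fun ξ => ∑ j, ‖ft (Pool.Agent.P.MP_f791b6_an.pd j u) ξ‖ ^ 2) :=
    integrable_finsetSum _ fun j _ => (hu.pd j).plancherel.1
  constructor
  · refine (h2.const_mul (4 * π ^ 2)⁻¹).congr (Filter.Eventually.of_forall fun ξ => ?_)
    simp only
    rw [← h1]; field_simp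
  · rw [← integral_const_mul]
    simp_rw [h1]
    rw [integral_finsetSum _ fun j _ => (hu.pd j).plancherel.1,
      integral_finsetSum _ fun j _ => (hu.pd j).integrable_sq]
    exact Finset.sum_congr rfl fun j _ => (hu.pd j).plancherel.2

theorem Test.le_GI {u : E n → ℂ} (hu : Test u)
    (h : ∫ x, ∑ j, ‖Pool.Agent.P.MP_f791b6_an.pd j u x‖ ^ 2 ≤ 4 * π ^ 2 * ∫ x, ‖u x‖ ^ 2)
    {b : ℝ} (hb : 0 < b) : Real.exp (-b) * ∫ x, ‖u x‖ ^ 2 ≤ GI u b := by
  obtain ⟨i1, e1⟩ := hu.plancherel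
  obtain ⟨i2, e2⟩ := hu.plancherel_grad
  rw [← e2, ← e1] at h
  have h' : ∫ ξ, ‖ξ‖ ^ 2 * ‖ft u ξ‖ ^ 2 ≤ ∫ ξ, ‖ft u ξ‖ ^ 2 :=
    le_of_mul_le_mul_left h (by positivity)
  rw [← e1]
  calc Real.exp (-b) * ∫ ξ, ‖ft u ξ‖ ^ 2
      ≤ Real.exp (-b) * ((1 + b) * (∫ ξ, ‖ft u ξ‖ ^ 2) - b * ∫ ξ, ‖ξ‖ ^ 2 * ‖ft u ξ‖ ^ 2) := by
        refine mul_le_mul_of_nonneg_left ?_ (Real.exp_pos _).le
        nlinarith
    _ = ∫ ξ, Real.exp (-b) * ((1 + b) * ‖ft u ξ‖ ^ 2 - b * (‖ξ‖ ^ 2 * ‖ft u ξ‖ ^ 2)) := by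
        rw [integral_const_mul, integral_sub (i1.const_mul _) (i2.const_mul _),
          integral_const_mul, integral_const_mul]
    _ ≤ GI u b := by
        refine integral_mono (((i1.const_mul _).sub (i2.const_mul _)).const_mul _)
          (integrable_GI hu.integrable hb) fun ξ => ?_
        simp only
        have h3 : Real.exp (-b * ‖ξ‖ ^ 2) = Real.exp (-b) * Real.exp (b - b * ‖ξ‖ ^ 2) := by
          rw [← Real.exp_add]; congr 1; ring
        rw [h3, mul_assoc]
        refine mul_le_mul_of_nonneg_left ?_ (Real.exp_pos _).le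
        have h4 := Real.add_one_le_exp (b - b * ‖ξ‖ ^ 2)
        have h5 : 0 ≤ ‖ft u ξ‖ ^ 2 := by positivity
        nlinarith

theorem exists_orthonormal (L : Submodule ℂ (E n → ℂ)) {k : ℕ} (hk : Module.finrank ℂ L = k)
    [FiniteDimensional ℂ L] (hL : ∀ u ∈ L, Test u) :
    ∃ u : Fin k → E n → ℂ, (∀ i, u i ∈ L) ∧
      ∀ i j, ∫ x, conj (u i x) * u j x = if i = j then 1 else 0 := by
  have hint : ∀ u v : L, Integrable (fun x => conj (u.1 x) * v.1 x) := fun u v =>
    (hL _ v.2).integrable_mul (by have := (hL _ u.2).smooth.continuous; fun_prop)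
  have hself : ∀ u : L, ∫ x, conj (u.1 x) * u.1 x = ((∫ x, ‖u.1 x‖ ^ 2 : ℝ) : ℂ) := fun u => by
    rw [← integral_complex_ofReal]
    simp [Complex.conj_mul']
  let c : InnerProductSpace.Core ℂ L :=
    { inner := fun u v => ∫ x, conj (u.1 x) * v.1 x
      conj_inner_symm := fun u v => by
        rw [← integral_conj]; simp [mul_comm]
      re_inner_nonneg := fun u => by
        rw [hself]
        simp only [RCLike.re_to_complex, ofReal_re]
        exact integral_nonneg fun x => by positivity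
      add_left := fun u v w => by
        rw [← integral_add (hint _ _) (hint _ _)]; simp [add_mul]
      smul_left := fun u v r => by
        rw [← integral_const_mul]; simp [mul_assoc]
      definite := fun u hu => by
        rw [hself, ofReal_eq_zero] at hu
        have hc := (hL _ u.2).smooth.continuous
        have h1 := (integral_eq_zero_iff_of_nonneg (fun x => by positivity)
          (hL _ u.2).integrable_sq).mp hu
        have h2 := (Continuous.ae_eq_iff_eq volume (by fun_prop) continuous_zero).mp h1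
        ext x
        have := congrFun h2 x
        simpa using this }
  let _ : NormedAddCommGroup L := c.toNormedAddCommGroup
  let _ : InnerProductSpace ℂ L := InnerProductSpace.ofCore c.toCore
  let b := (stdOrthonormalBasis ℂ L).reindex (finCongr hk)
  refine ⟨fun i => (b i).1, fun i => (b i).2, fun i j => ?_⟩
  exact orthonormal_iff_ite.mp b.orthonormal i j

end Pool.Agent.P.MP_f791b6_an
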